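import Pool.Agent.Lib.MP_069854_nt.Part03

namespace MP069854
open MeasureTheory Filter Topology Complex
open scoped FourierTransform ComplexConjugate Convolution

/-- autocorrelation -/
noncomputable def AC (F : ℝ → ℂ) (a : ℝ) : ℂ := ∫ t : ℝ, F (t + a) * conj (F t)

section
variable {F : ℝ → ℂ} {M : ℝ}

lemma refl_integrable (hi : Integrable F) : Integrable fun t : ℝ => conj (F (-t)) := by
  have h1 : Integrable fun t : ℝ => F (-t) := hi.comp_neg
  exact (LinearIsometryEquiv.integrable_comp_iff (Complex.conjLIE)).2 h1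

lemma AC_eq_conv (F : ℝ → ℂ) : AC F = (F ⋆[ContinuousLinearMap.mul ℂ ℂ] fun t : ℝ => conj (F (-t))) := by
  funext a
  unfold AC
  rw [convolution_def]
  rw [← integral_add_right_eq_self (fun t : ℝ => (ContinuousLinearMap.mul ℂ ℂ) (F t) (conj (F (-(a - t))))) a]
  refine integral_congr_ae (Eventually.of_forall fun t => ?_)
  simp only [ContinuousLinearMap.mul_apply']
  congr 3; ring

lemma AC_integrable (hi : Integrable F) : Integrable (AC F) := by
  rw [AC_eq_conv]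
  exact hi.integrable_convolution (ContinuousLinearMap.mul ℂ ℂ) (refl_integrable hi)

lemma fourier_refl (F : ℝ → ℂ) (ξ : ℝ) : 𝓕 (fun t : ℝ => conj (F (-t))) ξ = conj (𝓕 F ξ) := by
  rw [Real.fourier_eq', Real.fourier_eq', ← integral_conj]
  rw [← integral_neg_eq_self]
  refine integral_congr_ae (Eventually.of_forall fun t => ?_)
  simp only [smul_eq_mul, map_mul, ← Complex.exp_conj, neg_neg]
  congr 2
  simp only [RCLike.inner_apply, conj_trivial, conj_I, conj_ofReal]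
  push_cast; ring

lemma AC_fourier (hi : Integrable F) (ξ : ℝ) : 𝓕 (AC F) ξ = ((‖𝓕 F ξ‖ ^ 2 : ℝ) : ℂ) := by
  rw [AC_eq_conv, Real.fourier_mul_convolution_eq hi (refl_integrable hi), fourier_refl,
    Complex.mul_conj, Complex.normSq_eq_norm_sq]

lemma AC_continuousAt (hi : Integrable F) (hM : ∀ t, ‖F t‖ ≤ M) (hc : ∀ᵐ t, ContinuousAt F t)
    (a : ℝ) : ContinuousAt (AC F) a := by
  unfold AC
  refine continuousAt_of_dominated (bound := fun t => M * ‖F t‖) ?_ ?_ ?_ ?_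
  · refine Eventually.of_forall fun x => ?_
    have h1 : AEStronglyMeasurable (fun t : ℝ => F (t + x)) volume :=
      (hi.comp_add_right x).aestronglyMeasurable
    exact h1.mul (Complex.continuous_conj.comp_aestronglyMeasurable hi.aestronglyMeasurable)
  · refine Eventually.of_forall fun x => Eventually.of_forall fun t => ?_
    rw [norm_mul, RCLike.norm_conj]
    exact mul_le_mul_of_nonneg_right (hM _) (norm_nonneg _)
  · exact hi.norm.const_mul M
  · have h2 : ∀ᵐ t : ℝ, ContinuousAt F (t + a) :=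
      (quasiMeasurePreserving_add_right volume a).ae hc
    filter_upwards [h2] with t ht
    refine ContinuousAt.mul ?_ continuousAt_const
    exact ContinuousAt.comp (f := fun x : ℝ => t + x) (g := F) ht (by fun_prop)

lemma gauss_tendsto (hi : Integrable F) (hM : ∀ t, ‖F t‖ ≤ M) (hc : ∀ᵐ t, ContinuousAt F t) :
    Tendsto (fun c : ℝ => ∫ w : ℝ, Real.exp (-c⁻¹ * w ^ 2) * ‖𝓕 F w‖ ^ 2) atTop
      (𝓝 (AC F 0).re) := by
  have h1 := Real.tendsto_integral_gaussian_smul' (AC_integrable hi) (AC_continuousAt hi hM hc 0)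
  have h2 : Tendsto (fun c : ℝ => ∫ w : ℝ, cexp (- c⁻¹ * ‖w‖ ^ 2 + 2 * Real.pi * I * (inner ℝ (0:ℝ) w : ℝ))
       • (𝓕 (AC F)) w) atTop (𝓝 (AC F 0)) := by
    refine h1.congr' ?_
    filter_upwards [Ioi_mem_atTop 0] with c hc0
    have hc0' : (0:ℝ) < c := hc0
    have J : Integrable (fun w : ℝ => cexp (- c⁻¹ * ‖w‖ ^ 2 + 2 * Real.pi * I * (inner ℝ (0:ℝ) w : ℝ))) :=
      GaussianFourier.integrable_cexp_neg_mul_sq_norm_add (by simpa) _ _
    have h3 := VectorFourier.integral_fourierIntegral_smul_eq_flip (L := innerₗ ℝ)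
      Real.continuous_fourierChar continuous_inner J (AC_integrable hi)
    have h4 : ∫ w : ℝ, 𝓕 (fun w : ℝ => cexp (- c⁻¹ * ‖w‖ ^ 2 + 2 * Real.pi * I * (inner ℝ (0:ℝ) w : ℝ))) w •
        AC F w = ∫ w : ℝ, cexp (- c⁻¹ * ‖w‖ ^ 2 + 2 * Real.pi * I * (inner ℝ (0:ℝ) w : ℝ)) •
        (𝓕 (AC F)) w := by
      simpa using! h3
    rw [← h4]
    refine integral_congr_ae (Eventually.of_forall fun w => ?_)
    simp only
    rw [fourier_gaussian_innerProductSpace' (by simpa)]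
    have hcc : (c : ℂ) ≠ 0 := by exact_mod_cast hc0'.ne'
    have e1 : (Real.pi : ℂ) / ((c⁻¹ : ℝ) : ℂ) = Real.pi * c := by push_cast; field_simp
    have e2 : -(Real.pi : ℂ) ^ 2 * ((‖0 - w‖ : ℝ) : ℂ) ^ 2 / ((c⁻¹ : ℝ) : ℂ) =
        -(Real.pi : ℂ) ^ 2 * c * ((‖0 - w‖ : ℝ) : ℂ) ^ 2 := by push_cast; field_simp
    rw [e1, e2]
  have h5 := (Complex.continuous_re.tendsto _).comp h2
  refine h5.congr fun c => ?_
  simp only [Function.comp]
  have h6 : ∫ w : ℝ, cexp (- c⁻¹ * ‖w‖ ^ 2 + 2 * Real.pi * I * (inner ℝ (0:ℝ) w : ℝ)) • (𝓕 (AC F)) w =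
      ((∫ w : ℝ, Real.exp (-c⁻¹ * w ^ 2) * ‖𝓕 F w‖ ^ 2 : ℝ) : ℂ) := by
    rw [← integral_complex_ofReal]
    refine integral_congr_ae (Eventually.of_forall fun w => ?_)
    simp only [AC_fourier hi, smul_eq_mul]
    push_cast
    congr 2
    simp only [RCLike.inner_apply, conj_trivial, mul_zero, ofReal_zero, add_zero, Real.norm_eq_abs]
    rw [← Complex.ofReal_pow, sq_abs]
    push_cast; ring
  rw [h6, Complex.ofReal_re]

lemma fourier_cont (hi : Integrable F) : Continuous (𝓕 F) := by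
  exact VectorFourier.fourierIntegral_continuous Real.continuous_fourierChar
    (L := innerₗ ℝ) continuous_inner hi

lemma fourier_bdd (F : ℝ → ℂ) (ξ : ℝ) : ‖𝓕 F ξ‖ ≤ ∫ t, ‖F t‖ :=
  VectorFourier.norm_fourierIntegral_le_integral_norm Real.fourierChar volume (innerₗ ℝ) F ξ

theorem bochner (hi : Integrable F) (hM : ∀ t, ‖F t‖ ≤ M) (hc : ∀ᵐ t, ContinuousAt F t) :
    ∃ ρ : ℝ → ℝ, (∀ ξ, 0 ≤ ρ ξ) ∧ Integrable ρ ∧
      ∀ a : ℝ, AC F a = ∫ ξ : ℝ, (ρ ξ : ℂ) * exp ((2 * Real.pi * a * ξ : ℝ) * I) := by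
  have hρi : Integrable fun ξ : ℝ => ‖𝓕 F ξ‖ ^ 2 := by
    have hcont : Continuous fun ξ : ℝ => ‖𝓕 F ξ‖ ^ 2 := (fourier_cont hi).norm.pow 2
    have h1 := gauss_tendsto hi hM hc
    have h2 := h1.comp (tendsto_pow_atTop (α := ℝ) two_ne_zero)
    have h3 := h2.eventually (gt_mem_nhds (lt_add_one (AC F 0).re))
    refine integrable_of_intervalIntegral_norm_bounded (l := atTop) (a := fun R : ℝ => -R)
      (b := fun R : ℝ => R) (Real.exp 1 * ((AC F 0).re + 1)) ?_ tendsto_neg_atTop_atBot tendsto_id ?_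
    · intro R
      exact (hcont.integrableOn_Icc (a := -R) (b := R)).mono_set Set.Ioc_subset_Icc_self
    · filter_upwards [h3, eventually_gt_atTop (0:ℝ)] with R hR hR0
      simp only [Function.comp] at hR
      have hgi : Integrable fun w : ℝ => Real.exp (-(R ^ 2)⁻¹ * w ^ 2) * ‖𝓕 F w‖ ^ 2 := by
        refine Integrable.mul_bdd (c := (∫ t, ‖F t‖) ^ 2) ?_ hcont.aestronglyMeasurable ?_
        · exact integrable_exp_neg_mul_sq (by positivity)
        · refine Eventually.of_forall fun w => ?_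
          rw [Real.norm_of_nonneg (by positivity)]
          exact pow_le_pow_left₀ (norm_nonneg _) (fourier_bdd F w) 2
      have h4 : ∫ w in (-R)..R, ‖‖𝓕 F w‖ ^ 2‖ ≤
          ∫ w in (-R)..R, Real.exp 1 * (Real.exp (-(R ^ 2)⁻¹ * w ^ 2) * ‖𝓕 F w‖ ^ 2) := by
        refine intervalIntegral.integral_mono_on (by linarith) (hcont.norm.intervalIntegrable _ _) ?_ ?_
        · refine Continuous.intervalIntegrable ?_ _ _
          exact continuous_const.mul (Continuous.mul (by fun_prop) hcont)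
        · intro w hw
          rw [Real.norm_of_nonneg (by positivity), ← mul_assoc, ← Real.exp_add]
          refine le_mul_of_one_le_left (by positivity) (Real.one_le_exp ?_)
          have hw2 : w ^ 2 ≤ R ^ 2 := sq_le_sq' hw.1 hw.2
          have h5 : (R ^ 2)⁻¹ * w ^ 2 ≤ 1 := by
            rw [inv_mul_le_iff₀ (by positivity)]; linarith
          linarith
      refine h4.trans ?_
      rw [intervalIntegral.integral_const_mul]
      refine mul_le_mul_of_nonneg_left ?_ (Real.exp_pos _).le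
      refine le_trans ?_ hR.le
      rw [intervalIntegral.integral_of_le (by linarith)]
      exact setIntegral_le_integral hgi (Eventually.of_forall fun w => by positivity)
  refine ⟨fun ξ => ‖𝓕 F ξ‖ ^ 2, fun ξ => by positivity, hρi, ?_⟩
  intro a
  have hFi : Integrable (𝓕 (AC F)) := by
    have : 𝓕 (AC F) = fun ξ : ℝ => ((‖𝓕 F ξ‖ ^ 2 : ℝ) : ℂ) := funext (AC_fourier hi)
    rw [this]
    exact hρi.ofReal
  rw [← (AC_integrable hi).fourierInv_fourier_eq hFi (AC_continuousAt hi hM hc a),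
    Real.fourierInv_eq']
  refine integral_congr_ae (Eventually.of_forall fun ξ => ?_)
  simp only [smul_eq_mul, AC_fourier hi]
  rw [mul_comm]
  congr 3
  simp only [RCLike.inner_apply, conj_trivial]
  ring

lemma AC_zero (F : ℝ → ℂ) : AC F 0 = ((∫ t, ‖F t‖ ^ 2 : ℝ) : ℂ) := by
  unfold AC
  rw [← integral_complex_ofReal]
  refine integral_congr_ae (Eventually.of_forall fun t => ?_)
  simp only [add_zero]
  rw [Complex.mul_conj, Complex.normSq_eq_norm_sq]

lemma AC_shift (F : ℝ → ℂ) (b : ℝ) : AC F (2 * b) = ∫ s : ℝ, F (s + b) * conj (F (s - b)) := by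
  unfold AC
  rw [← integral_sub_right_eq_self (fun t : ℝ => F (t + 2 * b) * conj (F t)) b]
  refine integral_congr_ae (Eventually.of_forall fun s => ?_)
  simp only
  congr 2; ring

lemma AC_norm_le (hi : Integrable F) (hM : ∀ t, ‖F t‖ ≤ M) (hc : ∀ᵐ t, ContinuousAt F t) (a : ℝ) :
    ‖AC F a‖ ≤ ∫ t, ‖F t‖ ^ 2 := by
  obtain ⟨ρ, hρ0, hρi, hρ⟩ := bochner hi hM hc
  have e0 : (∫ t, ‖F t‖ ^ 2) = ∫ ξ, ρ ξ := by
    have h2 := hρ 0
    rw [AC_zero] at h2
    have h3 : ∫ ξ : ℝ, (ρ ξ : ℂ) * exp ((2 * Real.pi * 0 * ξ : ℝ) * I) = ((∫ ξ, ρ ξ : ℝ) : ℂ) := by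
      rw [← integral_complex_ofReal]
      refine integral_congr_ae (Eventually.of_forall fun ξ => ?_)
      simp
    rw [h3] at h2
    exact_mod_cast h2
  rw [e0, hρ]
  refine norm_integral_le_of_norm_le hρi (Eventually.of_forall fun ξ => ?_)
  rw [norm_mul, Complex.norm_exp_ofReal_mul_I, mul_one, Complex.norm_real,
    Real.norm_of_nonneg (hρ0 ξ)]

/-- pairing of the autocorrelation with a test function -/
lemma AC_test {g : ℝ → ℂ} {A B : ℝ} (hg : TF g A B) {L : ℝ} (hL : 0 < L) {ρ : ℝ → ℝ}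
    (hρi : Integrable ρ)
    (hρ : ∀ a : ℝ, AC F a = ∫ ξ : ℝ, (ρ ξ : ℂ) * exp ((2 * Real.pi * a * ξ : ℝ) * I)) :
    Integrable (fun β : ℝ => G g (β * I) * AC F (2 * β / L)) ∧
    ∫ β : ℝ, G g (β * I) * AC F (2 * β / L) =
      2 * Real.pi * ∫ ξ : ℝ, (ρ ξ : ℂ) * g (-(4 * Real.pi * ξ / L)) := by
  have hGi : Integrable fun β : ℝ => G g (β * I) := by
    have := hg.G_vert_integrable 0
    simpa using this
  have hprod : Integrable (fun p : ℝ × ℝ => G g (p.1 * I) * (ρ p.2 : ℂ) *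
      exp ((2 * Real.pi * (2 * p.1 / L) * p.2 : ℝ) * I)) ((volume : Measure ℝ).prod volume) := by
    refine Integrable.mul_bdd (c := 1) (hGi.mul_prod hρi.ofReal) ?_ ?_
    · exact (by fun_prop : Continuous fun p : ℝ × ℝ =>
        exp ((2 * Real.pi * (2 * p.1 / L) * p.2 : ℝ) * I)).aestronglyMeasurable
    · refine Eventually.of_forall fun p => ?_
      rw [Complex.norm_exp_ofReal_mul_I]
  have hinner : ∀ β : ℝ, ∫ ξ : ℝ, G g (β * I) * (ρ ξ : ℂ) *
      exp ((2 * Real.pi * (2 * β / L) * ξ : ℝ) * I) = G g (β * I) * AC F (2 * β / L) := by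
    intro β
    rw [hρ, ← integral_const_mul]
    refine integral_congr_ae (Eventually.of_forall fun ξ => ?_)
    simp only; ring
  refine ⟨?_, ?_⟩
  · refine hprod.integral_prod_left.congr (Eventually.of_forall fun β => ?_)
    exact hinner β
  · simp_rw [← hinner]
    rw [integral_integral_swap (f := fun β ξ : ℝ => G g (β * I) * (ρ ξ : ℂ) *
      exp ((2 * Real.pi * (2 * β / L) * ξ : ℝ) * I)) hprod, ← integral_const_mul]
    refine integral_congr_ae (Eventually.of_forall fun ξ => ?_)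
    simp only
    have h1 := hg.inversion 0 (-(4 * Real.pi * ξ / L))
    simp only [zero_mul, Real.exp_zero, Complex.ofReal_one, one_mul, Complex.ofReal_zero, zero_add] at h1
    have h2 : ∀ β : ℝ, G g (β * I) * (ρ ξ : ℂ) * exp ((2 * Real.pi * (2 * β / L) * ξ : ℝ) * I) =
        (ρ ξ : ℂ) * (G g (β * I) * exp (-(β * (-(4 * Real.pi * ξ / L) : ℝ)) * I)) := by
      intro β
      have : ((2 * Real.pi * (2 * β / L) * ξ : ℝ) : ℂ) * I = -(β * (-(4 * Real.pi * ξ / L) : ℝ)) * I := by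
        push_cast; ring
      rw [this]; ring
    simp_rw [h2]
    rw [integral_const_mul, h1]; ring

/-- positivity -/
lemma AC_pos {χ : ℝ → ℝ} {A B : ℝ} (hg : TF (fun u => (χ u : ℂ)) A B) (h1 : ∀ u, χ u ≤ 1)
    {L : ℝ} (hL : 0 < L)
    (hi : Integrable F) (hM : ∀ t, ‖F t‖ ≤ M) (hc : ∀ᵐ t, ContinuousAt F t) :
    (∫ β : ℝ, G (fun u => (χ u : ℂ)) (β * I) * AC F (2 * β / L)).re ≤
      2 * Real.pi * ∫ t, ‖F t‖ ^ 2 := by
  obtain ⟨ρ, hρ0, hρi, hρ⟩ := bochner hi hM hc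
  rw [(AC_test hg hL hρi hρ).2]
  have e0 : (∫ t, ‖F t‖ ^ 2) = ∫ ξ, ρ ξ := by
    have h2 := hρ 0
    rw [AC_zero] at h2
    have h3 : ∫ ξ : ℝ, (ρ ξ : ℂ) * exp ((2 * Real.pi * 0 * ξ : ℝ) * I) = ((∫ ξ, ρ ξ : ℝ) : ℂ) := by
      rw [← integral_complex_ofReal]
      refine integral_congr_ae (Eventually.of_forall fun ξ => ?_)
      simp
    rw [h3] at h2
    exact_mod_cast h2
  have e1 : (2 * Real.pi * ∫ ξ : ℝ, (ρ ξ : ℂ) * (χ (-(4 * Real.pi * ξ / L)) : ℂ)) =
      ((2 * Real.pi * ∫ ξ, ρ ξ * χ (-(4 * Real.pi * ξ / L)) : ℝ) : ℂ) := by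
    push_cast
    rw [← integral_complex_ofReal]
    congr 1
    refine integral_congr_ae (Eventually.of_forall fun ξ => ?_)
    simp
  rw [e1, Complex.ofReal_re, e0]
  refine mul_le_mul_of_nonneg_left ?_ (by positivity)
  have hχi : Integrable fun ξ => ρ ξ * χ (-(4 * Real.pi * ξ / L)) := by
    obtain ⟨C, hC⟩ := hg.hcs.exists_bound_of_continuous hg.cont
    refine hρi.mul_bdd (c := C) ?_ ?_
    · have h3 : Continuous χ := by
        have := Complex.continuous_re.comp hg.cont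
        exact this
      exact (h3.comp (by fun_prop)).aestronglyMeasurable
    · refine Eventually.of_forall fun ξ => ?_
      have := hC (-(4 * Real.pi * ξ / L))
      rwa [Complex.norm_real] at this
  refine integral_mono hχi hρi fun ξ => ?_
  exact mul_le_of_le_one_right (hρ0 ξ) (h1 _)

/-- comparison inequality at a general point -/
lemma AC_ineq {χ : ℝ → ℝ} {A B : ℝ} (hg : TF (fun u => (χ u : ℂ)) A B) (h1 : ∀ u, χ u ≤ 1)
    {L : ℝ} (hL : 0 < L) (a : ℝ) {gm : ℝ → ℂ} (hgm : TF gm A B)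
    (hgm' : ∀ u, gm u = (χ u : ℂ) * exp (-(u * a : ℝ) * I))
    (hi : Integrable F) (hM : ∀ t, ‖F t‖ ≤ M) (hc : ∀ᵐ t, ContinuousAt F t) :
    ‖AC F (2 * a / L) - (2 * Real.pi : ℂ)⁻¹ * ∫ β : ℝ, G gm (β * I) * AC F (2 * β / L)‖ ≤
      (∫ t, ‖F t‖ ^ 2) - (2 * Real.pi)⁻¹ *
        (∫ β : ℝ, G (fun u => (χ u : ℂ)) (β * I) * AC F (2 * β / L)).re := by
  obtain ⟨ρ, hρ0, hρi, hρ⟩ := bochner hi hM hc
  rw [(AC_test hg hL hρi hρ).2, (AC_test hgm hL hρi hρ).2]
  have hpi : (2 * Real.pi : ℂ) ≠ 0 := by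
    have := Real.pi_ne_zero
    exact mul_ne_zero two_ne_zero (by exact_mod_cast this)
  have e0 : (∫ t, ‖F t‖ ^ 2) = ∫ ξ, ρ ξ := by
    have h2 := hρ 0
    rw [AC_zero] at h2
    have h3 : ∫ ξ : ℝ, (ρ ξ : ℂ) * exp ((2 * Real.pi * 0 * ξ : ℝ) * I) = ((∫ ξ, ρ ξ : ℝ) : ℂ) := by
      rw [← integral_complex_ofReal]
      refine integral_congr_ae (Eventually.of_forall fun ξ => ?_)
      simp
    rw [h3] at h2
    exact_mod_cast h2
  have e1 : (2 * Real.pi * ∫ ξ : ℝ, (ρ ξ : ℂ) * (χ (-(4 * Real.pi * ξ / L)) : ℂ)) =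
      ((2 * Real.pi * ∫ ξ, ρ ξ * χ (-(4 * Real.pi * ξ / L)) : ℝ) : ℂ) := by
    push_cast
    rw [← integral_complex_ofReal]
    congr 1
    refine integral_congr_ae (Eventually.of_forall fun ξ => ?_)
    simp
  have hχi : Integrable fun ξ => ρ ξ * χ (-(4 * Real.pi * ξ / L)) := by
    obtain ⟨C, hC⟩ := hg.hcs.exists_bound_of_continuous hg.cont
    refine hρi.mul_bdd (c := C) ?_ ?_
    · have h3 : Continuous χ := by
        have := Complex.continuous_re.comp hg.cont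
        exact this
      exact (h3.comp (by fun_prop)).aestronglyMeasurable
    · refine Eventually.of_forall fun ξ => ?_
      have := hC (-(4 * Real.pi * ξ / L))
      rwa [Complex.norm_real] at this
  have hmi : Integrable fun ξ => (ρ ξ : ℂ) * gm (-(4 * Real.pi * ξ / L)) := by
    obtain ⟨C, hC⟩ := hgm.hcs.exists_bound_of_continuous hgm.cont
    refine hρi.ofReal.mul_bdd (c := C) ?_ (Eventually.of_forall fun ξ => hC _)
    exact (hgm.cont.comp (by fun_prop)).aestronglyMeasurable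
  have hei : Integrable fun ξ => (ρ ξ : ℂ) * exp ((2 * Real.pi * (2 * a / L) * ξ : ℝ) * I) := by
    refine hρi.ofReal.mul_bdd (c := 1) ?_ (Eventually.of_forall fun ξ => ?_)
    · exact (by fun_prop : Continuous fun ξ : ℝ =>
        exp ((2 * Real.pi * (2 * a / L) * ξ : ℝ) * I)).aestronglyMeasurable
    · rw [Complex.norm_exp_ofReal_mul_I]
  rw [e1, Complex.ofReal_re, e0, inv_mul_cancel_left₀ hpi,
    inv_mul_cancel_left₀ (show (2 * Real.pi : ℝ) ≠ 0 by positivity), hρ,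
    ← integral_sub hei hmi, ← integral_sub hρi hχi]
  refine norm_integral_le_of_norm_le (hρi.sub hχi) (Eventually.of_forall fun ξ => ?_)
  rw [hgm']
  have e2 : (-(((-(4 * Real.pi * ξ / L)) * a : ℝ)) : ℂ) = ((2 * Real.pi * (2 * a / L) * ξ : ℝ) : ℂ) := by
    push_cast; ring
  rw [e2]
  have e3 : (ρ ξ : ℂ) * exp ((2 * Real.pi * (2 * a / L) * ξ : ℝ) * I) -
      (ρ ξ : ℂ) * ((χ (-(4 * Real.pi * ξ / L)) : ℂ) * exp ((2 * Real.pi * (2 * a / L) * ξ : ℝ) * I)) =
      ((ρ ξ - ρ ξ * χ (-(4 * Real.pi * ξ / L)) : ℝ) : ℂ) *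
        exp ((2 * Real.pi * (2 * a / L) * ξ : ℝ) * I) := by push_cast; ring
  rw [e3, norm_mul, Complex.norm_exp_ofReal_mul_I, mul_one, Complex.norm_real, Real.norm_eq_abs,
    abs_of_nonneg]
  have := mul_le_of_le_one_right (hρ0 ξ) (h1 (-(4 * Real.pi * ξ / L)))
  linarith

end
end MP069854
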