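import Pool.Agent.Lib.MP_069854_nt.Part05

namespace MP069854
open Filter Topology Complex Set MeasureTheory

/-- families of weights -/
structure WF (W W' : ℝ → ℝ → ℝ) (W0 : ℝ → ℝ) (M : ℝ) : Prop where
  M0 : 0 ≤ M
  der : ∀ T x, HasDerivAt (W T) (W' T x) x
  cont' : ∀ T, Continuous (W' T)
  bd : ∀ T x, |W T x| ≤ M
  bd' : ∀ T x, |W' T x| ≤ M
  lim : ∀ x, Tendsto (fun T => W T x) atTop (𝓝 (W0 x))

section
variable {k : ℕ} {κ : ℝ} {Ψ : ℝ → ℂ → ℂ} {g : ℝ → ℂ} {A B : ℝ}
variable {W W' : ℝ → ℝ → ℝ} {W0 : ℝ → ℝ} {M : ℝ}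

lemma WF.cont (hW : WF W W' W0 M) (T : ℝ) : Continuous (W T) :=
  continuous_iff_continuousAt.2 fun x => (hW.der T x).continuousAt

lemma WF.cont2 (hW : WF W W' W0 M) (T : ℝ) : Continuous fun t : ℝ => ((W T (t / T) : ℝ) : ℂ) :=
  Complex.continuous_ofReal.comp ((hW.cont T).comp (by fun_prop))

lemma WF.norm_le (hW : WF W W' W0 M) (T x : ℝ) : ‖((W T x : ℝ) : ℂ)‖ ≤ M := by
  rw [Complex.norm_real]; exact hW.bd T x

/-- oscillatory integral with weight -/
lemma oscW (hW : WF W W' W0 M) (hg : TF g A B) (hκ : 0 ≤ κ) :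
    ∃ C : ℝ, 0 ≤ C ∧ ∀ (T y0 v lam : ℝ), Real.exp 1 ≤ T →
    1 ≤ y0 → y0 ≤ T → lam ≠ 0 →
    ‖∫ t in y0..T, ((W T (t / T) : ℝ) : ℂ) * (g (v - κ * ell t / Real.log T) *
      exp ((lam * t : ℝ) * I))‖ ≤ C / |lam| := by
  obtain ⟨G0, hG0, h0⟩ := hg.bounded
  obtain ⟨G1, hG1, h1⟩ := hg.der.bounded
  have hM0 := hW.M0
  refine ⟨2 * (M * G0) + (M * G0 + M * κ * G1), by positivity, ?_⟩
  intro T y0 v lam hT hy0 hyT hlam
  set L := Real.log T with hL
  have hexp1 : (2:ℝ) ≤ Real.exp 1 := by have := Real.add_one_le_exp (1:ℝ); linarith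
  have hT0 : 0 < T := by linarith
  have hL1 : 1 ≤ L := by
    rw [hL, Real.le_log_iff_exp_le hT0]; exact hT
  have hL0 : 0 < L := by linarith
  have hpos : ∀ t ∈ uIcc y0 T, 0 < t := by
    intro t ht
    rw [uIcc_of_le hyT] at ht
    linarith [ht.1]
  have hlamI : (lam : ℂ) * I ≠ 0 := mul_ne_zero (by exact_mod_cast hlam) I_ne_zero
  have hell : ∀ t ∈ uIcc y0 T, HasDerivAt (fun t => v - κ * ell t / L) (-(κ / (t * L))) t := by
    intro t ht
    have ht0 := hpos t ht
    unfold ell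
    have e1 : HasDerivAt (fun t : ℝ => Real.log (t / (2 * Real.pi))) (1 / t) t := by
      have e2 : HasDerivAt (fun t : ℝ => t / (2 * Real.pi)) (1 / (2 * Real.pi)) t :=
        (hasDerivAt_id t).div_const _
      have e3 := e2.log (by positivity)
      convert e3 using 1
      field_simp
    have e4 := ((e1.const_mul κ).div_const L).const_sub v
    have e5 : -(κ / (t * L)) = -(κ * (1 / t) / L) := by
      have := hL0.ne'; have := ht0.ne'; field_simp
    rw [e5]
    exact e4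
  have hw : ∀ t : ℝ, HasDerivAt (fun t : ℝ => ((W T (t / T) : ℝ) : ℂ)) ((W' T (t / T) / T : ℝ) : ℂ) t := by
    intro t
    have e1 : HasDerivAt (fun t : ℝ => t / T) (1 / T) t := (hasDerivAt_id t).div_const T
    have e2 : HasDerivAt (fun t : ℝ => W T (t / T)) (W' T (t / T) * (1 / T)) t :=
      (hW.der T (t / T)).comp t e1
    have e3 := e2.ofReal_comp
    convert e3 using 2
    ring
  have hu0 : ∀ t ∈ uIcc y0 T, HasDerivAt (fun t : ℝ => g (v - κ * ell t / L))
      ((-(κ / (t * L)) : ℝ) • deriv g (v - κ * ell t / L)) t := by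
    intro t ht
    have e1 : HasDerivAt g (deriv g (v - κ * ell t / L)) (v - κ * ell t / L) :=
      ((hg.smooth.differentiable (by simp)) _).hasDerivAt
    exact e1.scomp t (hell t ht)
  have hu : ∀ t ∈ uIcc y0 T, HasDerivAt (fun t : ℝ => ((W T (t / T) : ℝ) : ℂ) * g (v - κ * ell t / L))
      (((W' T (t / T) / T : ℝ) : ℂ) * g (v - κ * ell t / L) +
        ((W T (t / T) : ℝ) : ℂ) * ((-(κ / (t * L)) : ℝ) • deriv g (v - κ * ell t / L))) t :=
    fun t ht => (hw t).mul (hu0 t ht)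
  have hv : ∀ t ∈ uIcc y0 T, HasDerivAt (fun t : ℝ => exp ((lam * t : ℝ) * I) / (lam * I))
      (exp ((lam * t : ℝ) * I)) t := by
    intro t _
    have e1 : HasDerivAt (fun t : ℝ => ((lam * t : ℝ) : ℂ) * I) (lam * I) t := by
      have e2 : HasDerivAt (fun t : ℝ => ((lam * t : ℝ) : ℂ)) (lam : ℂ) t := by
        have := ((hasDerivAt_id t).const_mul lam).ofReal_comp
        simpa using this
      exact e2.mul_const I
    have e3 := e1.cexp.div_const (lam * I)
    rw [mul_div_cancel_right₀ _ hlamI] at e3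
    exact e3
  have hcell : ContinuousOn (fun t : ℝ => v - κ * ell t / L) (uIcc y0 T) :=
    fun t ht => (hell t ht).continuousAt.continuousWithinAt
  have hcu' : ContinuousOn (fun t : ℝ => (-(κ / (t * L)) : ℝ) • deriv g (v - κ * ell t / L)) (uIcc y0 T) := by
    refine ContinuousOn.smul (f := fun t : ℝ => -(κ / (t * L)))
      (g := fun t : ℝ => deriv g (v - κ * ell t / L)) ?_ (hg.der.cont.comp_continuousOn hcell)
    refine ContinuousOn.neg (ContinuousOn.div continuousOn_const (by fun_prop) ?_)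
    intro t ht
    have := hpos t ht
    positivity
  have hcw' : Continuous fun t : ℝ => ((W' T (t / T) / T : ℝ) : ℂ) :=
    Complex.continuous_ofReal.comp (((hW.cont' T).comp (by fun_prop)).div_const T)
  have hcu : ContinuousOn (fun t : ℝ => ((W' T (t / T) / T : ℝ) : ℂ) * g (v - κ * ell t / L) +
        ((W T (t / T) : ℝ) : ℂ) * ((-(κ / (t * L)) : ℝ) • deriv g (v - κ * ell t / L))) (uIcc y0 T) :=
    (hcw'.continuousOn.mul (hg.cont.comp_continuousOn hcell)).add
      ((hW.cont2 T).continuousOn.mul hcu')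
  have hIBP := intervalIntegral.integral_mul_deriv_eq_deriv_mul hu hv hcu.intervalIntegrable
    (Continuous.intervalIntegrable (by fun_prop) _ _)
  have hre : ∫ t in y0..T, ((W T (t / T) : ℝ) : ℂ) * (g (v - κ * ell t / L) * exp ((lam * t : ℝ) * I)) =
      ∫ t in y0..T, ((W T (t / T) : ℝ) : ℂ) * g (v - κ * ell t / L) * exp ((lam * t : ℝ) * I) :=
    intervalIntegral.integral_congr fun t _ => by ring
  rw [hre, hIBP]
  have hlam' : ‖(lam : ℂ) * I‖ = |lam| := by simp
  have habs : 0 < |lam| := abs_pos.2 hlam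
  have n1 : ∀ t : ℝ, ‖exp ((lam * t : ℝ) * I) / (lam * I)‖ = 1 / |lam| := by
    intro t
    rw [norm_div, hlam', norm_exp_ofReal_mul_I]
  have n2 : ‖∫ t in y0..T, (((W' T (t / T) / T : ℝ) : ℂ) * g (v - κ * ell t / L) +
        ((W T (t / T) : ℝ) : ℂ) * ((-(κ / (t * L)) : ℝ) • deriv g (v - κ * ell t / L))) *
      (exp ((lam * t : ℝ) * I) / (lam * I))‖ ≤ (M * G0 + M * κ * G1) / |lam| := by
    have hle : ‖∫ t in y0..T, (((W' T (t / T) / T : ℝ) : ℂ) * g (v - κ * ell t / L) +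
        ((W T (t / T) : ℝ) : ℂ) * ((-(κ / (t * L)) : ℝ) • deriv g (v - κ * ell t / L))) *
      (exp ((lam * t : ℝ) * I) / (lam * I))‖ ≤ ∫ t in y0..T, (M * G0 / (T * |lam|) +
        M * κ * G1 / (L * |lam|) * t⁻¹) := by
      refine intervalIntegral.norm_integral_le_of_norm_le hyT ?_ ?_
      · refine Eventually.of_forall fun t ht => ?_
        have ht0 : 0 < t := by linarith [ht.1]
        rw [norm_mul, n1]
        have b1 := h1 (v - κ * ell t / L)
        have b0 := h0 (v - κ * ell t / L)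
        have w0 := hW.norm_le T (t / T)
        have w1 : ‖((W' T (t / T) / T : ℝ) : ℂ)‖ ≤ M / T := by
          rw [Complex.norm_real, Real.norm_eq_abs, abs_div, abs_of_pos hT0]
          exact div_le_div_of_nonneg_right (hW.bd' T _) hT0.le
        have s1 : ‖(((W' T (t / T) / T : ℝ) : ℂ) * g (v - κ * ell t / L) +
          ((W T (t / T) : ℝ) : ℂ) * ((-(κ / (t * L)) : ℝ) • deriv g (v - κ * ell t / L)))‖ ≤
          M / T * G0 + M * (κ / (t * L) * G1) := by
          refine (norm_add_le _ _).trans ?_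
          rw [norm_mul, norm_mul, norm_smul, Real.norm_eq_abs, abs_neg, abs_of_nonneg (by positivity)]
          gcongr
        calc _ ≤ (M / T * G0 + M * (κ / (t * L) * G1)) * (1 / |lam|) := by gcongr
          _ = _ := by field_simp
      · refine ContinuousOn.intervalIntegrable ?_
        refine continuousOn_const.add (continuousOn_const.mul (continuousOn_id.inv₀ ?_))
        intro t ht
        exact (hpos t ht).ne'
    refine hle.trans ?_
    have hii : IntervalIntegrable (fun t : ℝ => M * κ * G1 / (L * |lam|) * t⁻¹) volume y0 T := by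
      refine ContinuousOn.intervalIntegrable ?_
      refine continuousOn_const.mul (continuousOn_id.inv₀ ?_)
      intro t ht
      exact (hpos t ht).ne'
    rw [intervalIntegral.integral_add intervalIntegrable_const hii, intervalIntegral.integral_const,
      intervalIntegral.integral_const_mul, integral_inv_of_pos (by linarith) hT0, smul_eq_mul]
    have h3 : Real.log (T / y0) ≤ L := by
      rw [hL]
      apply Real.log_le_log (by positivity)
      exact div_le_self hT0.le hy0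
    have h4 : (T - y0) * (M * G0 / (T * |lam|)) ≤ T * (M * G0 / (T * |lam|)) := by
      gcongr; linarith
    calc _ ≤ T * (M * G0 / (T * |lam|)) + M * κ * G1 / (L * |lam|) * L := by gcongr
      _ = (M * G0 + M * κ * G1) / |lam| := by field_simp
  refine (norm_sub_le _ _).trans ?_
  have n3 : ‖((W T (T / T) : ℝ) : ℂ) * g (v - κ * ell T / L) * (exp ((lam * T : ℝ) * I) / (lam * I)) -
      ((W T (y0 / T) : ℝ) : ℂ) * g (v - κ * ell y0 / L) * (exp ((lam * y0 : ℝ) * I) / (lam * I))‖ ≤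
      2 * (M * G0) / |lam| := by
    refine (norm_sub_le _ _).trans ?_
    rw [norm_mul, norm_mul, norm_mul, norm_mul, n1, n1]
    have e1 := h0 (v - κ * ell T / L)
    have e2 := h0 (v - κ * ell y0 / L)
    have e3 := hW.norm_le T (T / T)
    have e4 := hW.norm_le T (y0 / T)
    calc _ ≤ M * G0 * (1 / |lam|) + M * G0 * (1 / |lam|) := by gcongr
      _ = _ := by ring
  calc _ ≤ 2 * (M * G0) / |lam| + (M * G0 + M * κ * G1) / |lam| := add_le_add n3 n2
    _ = _ := by ring

/-- part 1 with weight -/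
lemma part1W (hW : WF W W' W0 M) (hΨ : Fam κ Ψ) (hg : TF g A B) :
    Tendsto (fun T : ℝ => ((T * Real.log T ^ (k ^ 2) : ℝ) : ℂ)⁻¹ *
      ∫ t in (0:ℝ)..(2 * Real.exp (Real.log T / (2 * k + 2))), ((W T (t / T) : ℝ) : ℂ) *
        JJ k g Ψ (Real.log T) t) atTop (𝓝 0) := by
  obtain ⟨C, hC, hb⟩ := JJ_bound (k := k) hΨ hg
  have hM0 := hW.M0
  have hlim := (tendsto_exp_neg_mul (γ := 1 / (2 * (k:ℝ) + 2)) (by positivity)).const_mul
    (M * C * 3 ^ (2 * k + 1))
  rw [mul_zero] at hlim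
  refine squeeze_zero_norm' ?_ hlim
  filter_upwards [eventually_ge_atTop (Real.exp 1)] with T hT
  set L := Real.log T with hLdef
  have hexp1 : (2:ℝ) ≤ Real.exp 1 := by have := Real.add_one_le_exp (1:ℝ); linarith
  have hT0 : 0 < T := by linarith
  have hL1 : 1 ≤ L := by
    rw [hLdef, Real.le_log_iff_exp_le hT0]; exact hT
  have hk0 : (0:ℝ) < 2 * k + 2 := by positivity
  set Y := Real.exp (L / (2 * k + 2)) with hY
  have hY1 : 1 ≤ Y := Real.one_le_exp (by positivity)
  have h1 : ‖∫ t in (0:ℝ)..(2 * Y), ((W T (t / T) : ℝ) : ℂ) * JJ k g Ψ L t‖ ≤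
      M * (C * (1 + 2 * Y) ^ (2 * k)) * |2 * Y - 0| := by
    refine intervalIntegral.norm_integral_le_of_norm_le_const ?_
    intro t ht
    rw [uIoc_of_le (by linarith)] at ht
    rw [norm_mul]
    have e1 := hW.norm_le T (t / T)
    have e2 := hb L t hL1 ht.1.le
    have : (1 + t) ^ (2 * k) ≤ (1 + 2 * Y) ^ (2 * k) :=
      pow_le_pow_left₀ (by linarith [ht.1]) (by linarith [ht.2]) _
    calc _ ≤ M * (C * (1 + t) ^ (2 * k)) := by gcongr
      _ ≤ _ := by gcongr
  have h2 : ‖∫ t in (0:ℝ)..(2 * Y), ((W T (t / T) : ℝ) : ℂ) * JJ k g Ψ L t‖ ≤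
      M * C * 3 ^ (2 * k + 1) * Y ^ (2 * k + 1) := by
    refine h1.trans ?_
    rw [sub_zero, abs_of_pos (by positivity)]
    have e1 : (1 + 2 * Y) ^ (2 * k) ≤ (3 * Y) ^ (2 * k) := pow_le_pow_left₀ (by positivity) (by linarith) _
    calc M * (C * (1 + 2 * Y) ^ (2 * k)) * (2 * Y) ≤ M * (C * (3 * Y) ^ (2 * k)) * (3 * Y) := by
          gcongr; linarith
      _ = M * C * ((3 * Y) ^ (2 * k + 1)) := by ring
      _ = _ := by rw [mul_pow]; ring
  rw [norm_mul, norm_inv, Complex.norm_real, Real.norm_of_nonneg (by positivity)]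
  have hLk : 1 ≤ L ^ (k ^ 2) := one_le_pow₀ hL1
  have hYT : Y ^ (2 * k + 1) = T * Real.exp (-(1 / (2 * (k:ℝ) + 2) * L)) := by
    have hTe : T = Real.exp L := (Real.exp_log hT0).symm
    rw [hY, ← Real.exp_nat_mul]
    nth_rw 1 [hTe]
    rw [← Real.exp_add]
    congr 1
    push_cast
    field_simp
    ring
  rw [inv_mul_le_iff₀ (by positivity)]
  calc ‖∫ t in (0:ℝ)..(2 * Y), ((W T (t / T) : ℝ) : ℂ) * JJ k g Ψ L t‖ ≤
        M * C * 3 ^ (2 * k + 1) * Y ^ (2 * k + 1) := h2
    _ = T * 1 * (M * C * 3 ^ (2 * k + 1) * Real.exp (-(1 / (2 * (k:ℝ) + 2) * L))) := by rw [hYT]; ring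
    _ ≤ T * L ^ (k ^ 2) * (M * C * 3 ^ (2 * k + 1) * Real.exp (-(1 / (2 * (k:ℝ) + 2) * L))) := by gcongr

/-- part 3 with weight -/
lemma part3W (hW : WF W W' W0 M) (hκ : 0 ≤ κ) (hg : TF g A B) (hB : B + κ < 2) :
    Tendsto (fun T : ℝ => ((T * Real.log T ^ (k ^ 2) : ℝ) : ℂ)⁻¹ *
      ∑ x ∈ Foff ((B + κ) * Real.log T), ∫ t in (2 * Real.exp (Real.log T / (2 * k + 2)))..T,
        ((W T (t / T) : ℝ) : ℂ) *
        DP k (fun u => g (u - κ * ell t / Real.log T)) (Real.log T) t x) atTop (𝓝 0) := by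
  set η : ℝ := min (1/4) ((2 - (B + κ)) / 8) with hη
  have hη0 : 0 < η := lt_min (by norm_num) (by linarith)
  have hη1 : η ≤ (2 - (B + κ)) / 8 := min_le_right _ _
  have hη2 : η ≤ 1/4 := min_le_left _ _
  have hγ : (1/2 + η) * (B + κ) < 1 := by
    rcases le_total 0 (B + κ) with h | h
    · nlinarith
    · nlinarith
  obtain ⟨C1, hC1, h1⟩ := oscW hW hg hκ
  obtain ⟨C2, hC2, h2⟩ := off_diag k hη0
  have hlim := (tendsto_exp_neg_mul (γ := 1 - (1/2 + η) * (B + κ)) (by linarith)).const_mul (C1 * C2)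
  rw [mul_zero] at hlim
  refine squeeze_zero_norm' ?_ hlim
  filter_upwards [eventually_ge_atTop (Real.exp 1), y0_le k] with T hT hyT
  set L := Real.log T with hLdef
  have hexp1 : (2:ℝ) ≤ Real.exp 1 := by have := Real.add_one_le_exp (1:ℝ); linarith
  have hT0 : 0 < T := by linarith
  have hL1 : 1 ≤ L := by
    rw [hLdef, Real.le_log_iff_exp_le hT0]; exact hT
  set y0 := 2 * Real.exp (L / (2 * k + 2)) with hy0
  have hy1 : 1 ≤ y0 := by
    have : 1 ≤ Real.exp (L / (2 * k + 2)) := Real.one_le_exp (by positivity)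
    linarith
  have hterm : ∀ x ∈ Foff ((B + κ) * L),
      ‖∫ t in y0..T, ((W T (t / T) : ℝ) : ℂ) * DP k (fun u => g (u - κ * ell t / L)) L t x‖ ≤
        C1 * ((dk k x.1 : ℝ) * dk k x.2 * (rho x / |Real.log x.2 - Real.log x.1|)) := by
    intro x hx
    unfold Foff at hx
    rw [Finset.mem_filter] at hx
    have hne : Real.log x.2 - Real.log x.1 ≠ 0 := by
      intro h
      apply hx.2.2.2.1
      have ha : (0:ℝ) < x.1 := by exact_mod_cast hx.2.1
      have hb : (0:ℝ) < x.2 := by exact_mod_cast hx.2.2.1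
      have := Real.log_injOn_pos (mem_Ioi.2 hb) (mem_Ioi.2 ha) (by linarith)
      exact_mod_cast this.symm
    have e1 := h1 T y0 ((Real.log x.1 + Real.log x.2) / L) (Real.log x.2 - Real.log x.1) hT hy1 hyT hne
    have e2 : ∫ t in y0..T, ((W T (t / T) : ℝ) : ℂ) * DP k (fun u => g (u - κ * ell t / L)) L t x =
        ((dk k x.1 : ℂ) * dk k x.2 * rho x) *
        ∫ t in y0..T, ((W T (t / T) : ℝ) : ℂ) * (g ((Real.log x.1 + Real.log x.2) / L - κ * ell t / L) *
          exp (((Real.log x.2 - Real.log x.1) * t : ℝ) * I)) := by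
      rw [← intervalIntegral.integral_const_mul]
      refine intervalIntegral.integral_congr fun t _ => ?_
      simp only [DP]; ring
    rw [e2, norm_mul]
    have e3 : ‖(dk k x.1 : ℂ) * dk k x.2 * rho x‖ = (dk k x.1 : ℝ) * dk k x.2 * rho x := by
      rw [norm_mul, norm_mul, Complex.norm_natCast, Complex.norm_natCast, Complex.norm_real,
        Real.norm_of_nonneg (show 0 ≤ rho x from (Real.exp_pos _).le)]
    rw [e3]
    have hrho : 0 < rho x := Real.exp_pos _
    calc (dk k x.1 : ℝ) * dk k x.2 * rho x * _ ≤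
        (dk k x.1 : ℝ) * dk k x.2 * rho x * (C1 / |Real.log x.2 - Real.log x.1|) := by gcongr
      _ = _ := by ring
  have h3 : ‖∑ x ∈ Foff ((B + κ) * L), ∫ t in y0..T, ((W T (t / T) : ℝ) : ℂ) *
      DP k (fun u => g (u - κ * ell t / L)) L t x‖ ≤
      C1 * (C2 * Real.exp ((1/2 + η) * ((B + κ) * L))) := by
    refine (norm_sum_le _ _).trans ((Finset.sum_le_sum hterm).trans ?_)
    rw [← Finset.mul_sum]
    refine mul_le_mul_of_nonneg_left (h2 _ _ ?_) hC1
    intro x hx
    unfold Foff at hx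
    rw [Finset.mem_filter] at hx
    exact ⟨hx.2.1, hx.2.2.1, hx.2.2.2.1, hx.2.2.2.2⟩
  rw [norm_mul, norm_inv, Complex.norm_real, Real.norm_of_nonneg (by positivity)]
  have hLk : 1 ≤ L ^ (k ^ 2) := one_le_pow₀ hL1
  rw [inv_mul_le_iff₀ (by positivity)]
  have hTe : Real.exp ((1/2 + η) * ((B + κ) * L)) =
      T * Real.exp (-((1 - (1/2 + η) * (B + κ)) * L)) := by
    have hTe : T = Real.exp L := (Real.exp_log hT0).symm
    nth_rw 1 [hTe]
    rw [← Real.exp_add]; congr 1; ring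
  calc _ ≤ C1 * (C2 * Real.exp ((1/2 + η) * ((B + κ) * L))) := h3
    _ = T * 1 * (C1 * C2 * Real.exp (-((1 - (1/2 + η) * (B + κ)) * L))) := by rw [hTe]; ring
    _ ≤ T * L ^ (k ^ 2) * (C1 * C2 * Real.exp (-((1 - (1/2 + η) * (B + κ)) * L))) := by gcongr

/-- part 2 with weight -/
lemma part2W (hW : WF W W' W0 M) (hΨ : Fam κ Ψ) (hg : TF g A B) (hB : B + κ < 2) :
    Tendsto (fun T : ℝ => ((T * Real.log T ^ (k ^ 2) : ℝ) : ℂ)⁻¹ *
      ∫ t in (2 * Real.exp (Real.log T / (2 * k + 2)))..T, ((W T (t / T) : ℝ) : ℂ) *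
        Rem k g Ψ κ (Real.log T) t) atTop (𝓝 0) := by
  set η : ℝ := min (1/4) ((2 - (B + κ)) / 8) with hη
  have hη0 : 0 < η := lt_min (by norm_num) (by linarith)
  have hη1 : η ≤ (2 - (B + κ)) / 8 := min_le_right _ _
  have hη2 : η ≤ 1/4 := min_le_left _ _
  have hγ : (1/2 + η) * (B + κ) < 1 := by
    rcases le_total 0 (B + κ) with h | h
    · nlinarith
    · nlinarith
  have hM0 := hW.M0
  obtain ⟨C', hC', hsh⟩ := shift_main k hΨ hg (c := 1 + η) (by linarith) (by linarith)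
  set C := M * C' with hCdef
  have hC : 0 ≤ C := by positivity
  set γ := 1 - (1/2 + η) * (B + κ) with hγdef
  have hγ0 : 0 < γ := by linarith
  set δ := γ / 4 with hδ
  have hδ0 : 0 < δ := by positivity
  have hlim1 := (tendsto_exp_neg_mul (γ := γ / 2) (by linarith)).const_mul (C * δ⁻¹ ^ 2)
  have hlim2 := (tendsto_exp_neg_mul (γ := 1) one_pos).const_mul C
  have hlim := hlim1.add hlim2
  simp only [mul_zero, add_zero] at hlim
  refine squeeze_zero_norm' ?_ hlim
  filter_upwards [eventually_ge_atTop (Real.exp 1), y0_le k] with T hT hyT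
  set L := Real.log T with hLdef
  have hexp1 : (2:ℝ) ≤ Real.exp 1 := by have := Real.add_one_le_exp (1:ℝ); linarith
  have hT0 : 0 < T := by linarith
  have hL1 : 1 ≤ L := by
    rw [hLdef, Real.le_log_iff_exp_le hT0]; exact hT
  set y0 := 2 * Real.exp (L / (2 * k + 2)) with hy0
  have hy1 : 1 ≤ y0 := by
    have : 1 ≤ Real.exp (L / (2 * k + 2)) := Real.one_le_exp (by positivity)
    linarith
  set E := Real.exp ((B + κ) * ((1 + η) - 1/2) * L) with hE
  have h1 : ‖∫ t in y0..T, ((W T (t / T) : ℝ) : ℂ) * Rem k g Ψ κ L t‖ ≤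
      ∫ t in y0..T, (C * (L * E) * t⁻¹ + C / T) := by
    refine intervalIntegral.norm_integral_le_of_norm_le hyT ?_ ?_
    · refine Eventually.of_forall fun t ht => ?_
      rw [norm_mul]
      have e1 := hW.norm_le T (t / T)
      have e2 := hsh t T hT ht.1.le ht.2
      have e3 : ‖Rem k g Ψ κ L t‖ ≤ C' * (L * E / t + 1 / T) := e2
      calc _ ≤ M * (C' * (L * E / t + 1 / T)) := by gcongr
        _ = _ := by rw [hCdef]; ring
    · refine ContinuousOn.intervalIntegrable ?_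
      refine ContinuousOn.add (continuousOn_const.mul (continuousOn_id.inv₀ ?_)) continuousOn_const
      intro t ht
      rw [uIcc_of_le hyT] at ht
      exact (by linarith [ht.1] : (0:ℝ) < t).ne'
  have h2 : ∫ t in y0..T, (C * (L * E) * t⁻¹ + C / T) = C * (L * E) * Real.log (T / y0) + C / T * (T - y0) := by
    rw [intervalIntegral.integral_add, intervalIntegral.integral_const_mul,
      integral_inv_of_pos (by linarith) hT0, intervalIntegral.integral_const, smul_eq_mul]
    · ring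
    · refine ContinuousOn.intervalIntegrable (continuousOn_const.mul (continuousOn_id.inv₀ ?_))
      intro t ht
      rw [uIcc_of_le hyT] at ht
      exact (by linarith [ht.1] : (0:ℝ) < t).ne'
    · exact intervalIntegrable_const
  have h3 : Real.log (T / y0) ≤ L := by
    rw [hLdef]
    apply Real.log_le_log (by positivity)
    exact div_le_self hT0.le hy1
  have h4 : ‖∫ t in y0..T, ((W T (t / T) : ℝ) : ℂ) * Rem k g Ψ κ L t‖ ≤ C * (L * E) * L + C := by
    refine h1.trans ?_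
    rw [h2]
    have e1 : C / T * (T - y0) ≤ C := by
      rw [div_mul_eq_mul_div, div_le_iff₀ hT0]
      exact mul_le_mul_of_nonneg_left (by linarith) hC
    have e2 : C * (L * E) * Real.log (T / y0) ≤ C * (L * E) * L := by gcongr
    linarith
  rw [norm_mul, norm_inv, Complex.norm_real, Real.norm_of_nonneg (by positivity)]
  have hLk : 1 ≤ L ^ (k ^ 2) := one_le_pow₀ hL1
  rw [inv_mul_le_iff₀ (by positivity)]
  have hTe : T = Real.exp L := (Real.exp_log hT0).symm
  have hLexp : L ≤ δ⁻¹ * Real.exp (δ * L) := by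
    rw [inv_mul_eq_div, le_div_iff₀ hδ0]
    have := Real.add_one_le_exp (δ * L)
    linarith
  have hE2 : E * L ^ 2 ≤ T * (δ⁻¹ ^ 2 * Real.exp (-(γ / 2 * L))) := by
    have e1 : L ^ 2 ≤ (δ⁻¹ * Real.exp (δ * L)) ^ 2 := pow_le_pow_left₀ (by linarith) hLexp 2
    calc E * L ^ 2 ≤ E * (δ⁻¹ * Real.exp (δ * L)) ^ 2 := by gcongr
      _ = δ⁻¹ ^ 2 * (E * (Real.exp (δ * L) * Real.exp (δ * L))) := by ring
      _ = δ⁻¹ ^ 2 * (Real.exp L * Real.exp (-(γ / 2 * L))) := by
          rw [hE, ← Real.exp_add, ← Real.exp_add, ← Real.exp_add]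
          congr 2
          rw [hδ, hγdef]; ring
      _ = _ := by rw [← hTe]; ring
  have hone : 1 = T * Real.exp (-(1 * L)) := by
    nth_rw 1 [hTe]
    rw [← Real.exp_add]; simp
  calc _ ≤ C * (L * E) * L + C := h4
    _ = C * (E * L ^ 2) + C * 1 := by ring
    _ ≤ C * (T * (δ⁻¹ ^ 2 * Real.exp (-(γ / 2 * L)))) + C * (T * Real.exp (-(1 * L))) := by
        rw [← hone]
        gcongr
    _ = T * 1 * (C * δ⁻¹ ^ 2 * Real.exp (-(γ / 2 * L)) + C * Real.exp (-(1 * L))) := by ring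
    _ ≤ T * L ^ (k ^ 2) * (C * δ⁻¹ ^ 2 * Real.exp (-(γ / 2 * L)) + C * Real.exp (-(1 * L))) := by
        gcongr

/-- part 4 with weight -/
lemma part4W (hW : WF W W' W0 M) (hk : 1 ≤ k) (hκ : 0 ≤ κ) (hg : TF g A B) :
    Tendsto (fun T : ℝ => ((T * Real.log T ^ (k ^ 2) : ℝ) : ℂ)⁻¹ *
      ∫ t in (2 * Real.exp (Real.log T / (2 * k + 2)))..T, ((W T (t / T) : ℝ) : ℂ) *
        Dg k g κ (Real.log T) t) atTop
      (𝓝 (((∫ x in (0:ℝ)..1, W0 x : ℝ) : ℂ) *
        (arith k * ∫ y in Ioi (0:ℝ), g (2 * y - κ) * wt (k ^ 2) y))) := by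
  set ℓ : ℂ := arith k * ∫ y in Ioi (0:ℝ), g (2 * y - κ) * wt (k ^ 2) y with hℓ
  have hM0 := hW.M0
  have hd := zetaData hk
  obtain ⟨C, hC, hb⟩ := kd_bound hd hg κ
  let y0 : ℝ → ℝ := fun T => 2 * Real.exp (Real.log T / (2 * k + 2))
  let NN : ℝ → ℕ := fun T => ⌊Real.exp |(B + κ) * Real.log T|⌋₊ + 1
  let φ : ℝ → ℝ → ℂ := fun T x => (Ioc (y0 T / T) 1).indicator
    (fun x => ((W T x : ℝ) : ℂ) *
      (((Real.log T)⁻¹ : ℂ) ^ (k ^ 2) * DgN k g κ (Real.log T) (NN T) (T * x))) x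
  have hlim : Tendsto (fun T : ℝ => ∫ x in Ioc (0:ℝ) 1, φ T x) atTop
      (𝓝 (∫ x in Ioc (0:ℝ) 1, ((W0 x : ℝ) : ℂ) * ℓ)) := by
    refine tendsto_integral_filter_of_dominated_convergence (fun _ => M * C) ?_ ?_ ?_ ?_
    · refine Eventually.of_forall fun T => ?_
      refine Measurable.aestronglyMeasurable ?_
      refine Measurable.indicator ?_ measurableSet_Ioc
      refine Measurable.mul ?_ ?_
      · exact (Complex.continuous_ofReal.comp (hW.cont T)).measurable
      · exact measurable_const.mul ((DgN_measurable hg _ _).comp (measurable_const.mul measurable_id))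
    · filter_upwards [tendsto_inv_log.eventually hb, eventually_ge_atTop (Real.exp 1)] with T hT1 hT
      have hexp1 : (2:ℝ) ≤ Real.exp 1 := by have := Real.add_one_le_exp (1:ℝ); linarith
      have hT0 : 0 < T := by linarith
      have hL1 : 1 ≤ Real.log T := by
        rw [Real.le_log_iff_exp_le hT0]; exact hT
      refine Eventually.of_forall fun x => ?_
      simp only [φ]
      by_cases hx : x ∈ Ioc (y0 T / T) 1
      · rw [indicator_of_mem hx]
        have hy0 : 0 < y0 T / T := by simp only [y0]; positivity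
        have hx0 : 0 < x := hy0.trans hx.1
        have hTx : T * x ≤ T := by nlinarith [hx.2]
        rw [← Dg_eq_DgN hg hκ rfl (by linarith) (by positivity) hTx]
        have hσ : κ * ell (T * x) / Real.log T ≤ κ := by
          rw [div_le_iff₀ (by linarith)]
          exact mul_le_mul_of_nonneg_left (ell_le (by positivity) hTx) hκ
        have := (hT1 _ hσ).2
        rw [Complex.ofReal_inv] at this
        rw [norm_mul]
        exact mul_le_mul (hW.norm_le T x) this (norm_nonneg _) hM0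
      · rw [indicator_of_notMem hx, norm_zero]; positivity
    · exact integrableOn_const (by simp)
    · filter_upwards [self_mem_ae_restrict measurableSet_Ioc] with x hx
      have hx0 : 0 < x := hx.1
      have h1 : Tendsto (fun T : ℝ => ((Real.log T)⁻¹, κ * ell (T * x) / Real.log T)) atTop
          (𝓝[>] 0 ×ˢ 𝓝 κ) := tendsto_inv_log.prodMk (tendsto_ell κ hx0)
      have hw1 : Tendsto (fun T : ℝ => ((W T x : ℝ) : ℂ)) atTop (𝓝 ((W0 x : ℝ) : ℂ)) :=
        (Complex.continuous_ofReal.tendsto _).comp (hW.lim x)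
      have h2 := hw1.mul ((kd_unif hd hg κ).comp h1)
      refine h2.congr' ?_
      have h3 : Tendsto (fun T : ℝ => y0 T / T) atTop (𝓝 0) := by
        have hγ : 0 < 1 - 1 / (2 * (k:ℝ) + 2) := by
          rw [sub_pos, div_lt_one (by positivity)]
          linarith [Nat.cast_nonneg (α := ℝ) k]
        have h4 := (tendsto_exp_neg_mul hγ).const_mul 2
        rw [mul_zero] at h4
        refine h4.congr' ?_
        filter_upwards [eventually_gt_atTop (0:ℝ)] with T hT
        simp only [y0]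
        have hTe : T⁻¹ = Real.exp (-Real.log T) := by rw [Real.exp_neg, Real.exp_log hT]
        rw [div_eq_mul_inv _ T, hTe, mul_assoc, ← Real.exp_add]
        congr 2
        field_simp
        ring
      filter_upwards [h3.eventually (gt_mem_nhds hx0), eventually_ge_atTop (Real.exp 1)] with T hT1 hT
      have hexp1 : (2:ℝ) ≤ Real.exp 1 := by have := Real.add_one_le_exp (1:ℝ); linarith
      have hT0 : 0 < T := by linarith
      have hL1 : 1 ≤ Real.log T := by
        rw [Real.le_log_iff_exp_le hT0]; exact hT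
      have hTx : T * x ≤ T := by nlinarith [hx.2]
      simp only [φ, Function.comp]
      rw [indicator_of_mem (show x ∈ Ioc (y0 T / T) 1 from ⟨hT1, hx.2⟩),
        ← Dg_eq_DgN hg hκ rfl (by linarith) (by positivity) hTx, Complex.ofReal_inv]
      rfl
  have hconst : ∫ x in Ioc (0:ℝ) 1, ((W0 x : ℝ) : ℂ) * ℓ = ((∫ x in (0:ℝ)..1, W0 x : ℝ) : ℂ) * ℓ := by
    rw [integral_mul_const, intervalIntegral.integral_of_le zero_le_one, ← integral_complex_ofReal]
  rw [hconst] at hlim
  refine hlim.congr' ?_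
  filter_upwards [eventually_ge_atTop (Real.exp 1), y0_le k] with T hT hyT
  have hexp1 : (2:ℝ) ≤ Real.exp 1 := by have := Real.add_one_le_exp (1:ℝ); linarith
  have hT0 : 0 < T := by linarith
  have hL1 : 1 ≤ Real.log T := by
    rw [Real.le_log_iff_exp_le hT0]; exact hT
  have hy0 : 0 < y0 T := by simp only [y0]; positivity
  have hyT' : y0 T / T ≤ 1 := (div_le_one hT0).2 hyT
  have e1 : ∫ x in Ioc (0:ℝ) 1, φ T x = ∫ x in Ioc (y0 T / T) 1,
      ((W T x : ℝ) : ℂ) *
      (((Real.log T)⁻¹ : ℂ) ^ (k ^ 2) * DgN k g κ (Real.log T) (NN T) (T * x)) := by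
    simp only [φ]
    rw [setIntegral_indicator measurableSet_Ioc]
    congr 2
    rw [inter_eq_right]
    exact Ioc_subset_Ioc_left (by positivity)
  have e3 : ∫ x in Ioc (y0 T / T) 1, ((W T x : ℝ) : ℂ) *
      (((Real.log T)⁻¹ : ℂ) ^ (k ^ 2) * DgN k g κ (Real.log T) (NN T) (T * x)) =
      ((Real.log T)⁻¹ : ℂ) ^ (k ^ 2) * ∫ x in Ioc (y0 T / T) 1,
        (fun t => ((W T (t / T) : ℝ) : ℂ) * DgN k g κ (Real.log T) (NN T) t) (T * x) := by
    rw [← integral_const_mul]
    refine integral_congr_ae (Eventually.of_forall fun x => ?_)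
    simp only
    rw [mul_div_cancel_left₀ x hT0.ne']; ring
  rw [e1, e3, ← intervalIntegral.integral_of_le hyT',
    intervalIntegral.integral_comp_mul_left
      (fun t => ((W T (t / T) : ℝ) : ℂ) * DgN k g κ (Real.log T) (NN T) t) hT0.ne',
    mul_one, mul_div_cancel₀ _ hT0.ne', Complex.real_smul]
  have e2 : ∫ t in (y0 T)..T, ((W T (t / T) : ℝ) : ℂ) * DgN k g κ (Real.log T) (NN T) t =
      ∫ t in (y0 T)..T, ((W T (t / T) : ℝ) : ℂ) * Dg k g κ (Real.log T) t := by
    refine intervalIntegral.integral_congr fun t ht => ?_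
    rw [uIcc_of_le hyT] at ht
    rw [(Dg_eq_DgN hg hκ rfl (by linarith) (lt_of_lt_of_le hy0 ht.1) ht.2).symm]
  rw [e2]
  push_cast
  rw [mul_inv, inv_pow]
  ring

/-- **Core theorem with weights.** -/
theorem coreW (hW : WF W W' W0 M) (hk : 1 ≤ k) (hΨ : Fam κ Ψ) (hg : TF g A B) (hB : B + κ < 2)
    (hint : ∀ T : ℝ, Real.exp 1 ≤ T →
      IntervalIntegrable (fun t => JJ k g Ψ (Real.log T) t) volume 0 T) :
    Tendsto (fun T : ℝ => ((T * Real.log T ^ (k ^ 2) : ℝ) : ℂ)⁻¹ *
      ∫ t in (0:ℝ)..T, ((W T (t / T) : ℝ) : ℂ) * JJ k g Ψ (Real.log T) t) atTop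
      (𝓝 (((∫ x in (0:ℝ)..1, W0 x : ℝ) : ℂ) *
        (2 * Real.pi * (arith k * ∫ y in Ioi (0:ℝ), g (2 * y - κ) * wt (k ^ 2) y)))) := by
  have h1 := part1W (k := k) hW hΨ hg
  have h2 := part2W (k := k) hW hΨ hg hB
  have h3 := (part3W (k := k) hW hΨ.κ0 hg hB).const_mul (2 * (Real.pi : ℂ))
  have h4 := (part4W hW hk hΨ.κ0 hg).const_mul (2 * (Real.pi : ℂ))
  have h5 := ((h1.add h2).add h3).add h4
  rw [mul_zero, add_zero, add_zero, zero_add] at h5
  have e0 : ((∫ x in (0:ℝ)..1, W0 x : ℝ) : ℂ) *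
        (2 * Real.pi * (arith k * ∫ y in Ioi (0:ℝ), g (2 * y - κ) * wt (k ^ 2) y)) =
      2 * Real.pi * (((∫ x in (0:ℝ)..1, W0 x : ℝ) : ℂ) *
        (arith k * ∫ y in Ioi (0:ℝ), g (2 * y - κ) * wt (k ^ 2) y)) := by ring
  rw [e0]
  refine h5.congr' ?_
  filter_upwards [eventually_ge_atTop (Real.exp 1), y0_le k] with T hT hyT
  set L := Real.log T with hL
  have hexp1 : (2:ℝ) ≤ Real.exp 1 := by have := Real.add_one_le_exp (1:ℝ); linarith
  have hT0 : 0 < T := by linarith
  have hL1 : 1 ≤ L := by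
    rw [hL, Real.le_log_iff_exp_le hT0]; exact hT
  have hL0 : 0 < L := by linarith
  set y0 := 2 * Real.exp (L / (2 * k + 2)) with hy0
  have hy0' : 0 < y0 := by positivity
  have hwc := hW.cont2 T
  have hI0 := hint T hT
  have hI : IntervalIntegrable (fun t => ((W T (t / T) : ℝ) : ℂ) * JJ k g Ψ L t) volume 0 T :=
    hI0.continuousOn_mul hwc.continuousOn
  have hI1 : IntervalIntegrable (fun t => ((W T (t / T) : ℝ) : ℂ) * JJ k g Ψ L t) volume 0 y0 :=
    hI.mono_set (by rw [uIcc_of_le hy0'.le, uIcc_of_le hT0.le]; exact Icc_subset_Icc_right hyT)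
  have hI2' : IntervalIntegrable (fun t => JJ k g Ψ L t) volume y0 T :=
    hI0.mono_set (by rw [uIcc_of_le hyT, uIcc_of_le hT0.le]; exact Icc_subset_Icc_left hy0'.le)
  have hI2 : IntervalIntegrable (fun t => ((W T (t / T) : ℝ) : ℂ) * JJ k g Ψ L t) volume y0 T :=
    hI2'.continuousOn_mul hwc.continuousOn
  have hDg' : IntervalIntegrable (fun t => Dg k g κ L t) volume y0 T := by
    have h6 : IntervalIntegrable (DgN k g κ L (⌊Real.exp |(B + κ) * L|⌋₊ + 1)) volume y0 T :=
      (DgN_contOn hg L _ hy0' hyT).intervalIntegrable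
    refine h6.congr ?_
    intro t ht
    rw [uIoc_of_le hyT] at ht
    exact (Dg_eq_DgN hg hΨ.κ0 hL hL0 (hy0'.trans ht.1) ht.2).symm
  have hDg : IntervalIntegrable (fun t => ((W T (t / T) : ℝ) : ℂ) * Dg k g κ L t) volume y0 T :=
    hDg'.continuousOn_mul hwc.continuousOn
  have hDP : ∀ x ∈ Foff ((B + κ) * L), IntervalIntegrable
      (fun t => ((W T (t / T) : ℝ) : ℂ) * DP k (fun u => g (u - κ * ell t / L)) L t x) volume y0 T :=
    fun x _ => (hwc.continuousOn.mul (DP_contOn hg L x hy0' hyT)).intervalIntegrable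
  have hOff : IntervalIntegrable (fun t => ∑ x ∈ Foff ((B + κ) * L),
      ((W T (t / T) : ℝ) : ℂ) * DP k (fun u => g (u - κ * ell t / L)) L t x) volume y0 T := by
    refine ContinuousOn.intervalIntegrable ?_
    exact continuousOn_finsetSum _ fun x _ => hwc.continuousOn.mul (DP_contOn hg L x hy0' hyT)
  have hRem : IntervalIntegrable (fun t => ((W T (t / T) : ℝ) : ℂ) * Rem k g Ψ κ L t) volume y0 T := by
    have h6 := hI2.sub ((hDg.add hOff).const_mul (2 * (Real.pi : ℂ)))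
    refine h6.congr ?_
    intro t ht
    rw [uIoc_of_le hyT] at ht
    show ((W T (t / T) : ℝ) : ℂ) * JJ k g Ψ L t - 2 * (Real.pi : ℂ) * (((W T (t / T) : ℝ) : ℂ) *
      Dg k g κ L t + ∑ x ∈ Foff ((B + κ) * L), ((W T (t / T) : ℝ) : ℂ) *
      DP k (fun u => g (u - κ * ell t / L)) L t x) = ((W T (t / T) : ℝ) : ℂ) * Rem k g Ψ κ L t
    unfold Rem
    rw [DP_split hg hΨ.κ0 hL hL0 (hy0'.trans ht.1) ht.2, ← Finset.mul_sum]
    ring
  have e1 : ∫ t in y0..T, ((W T (t / T) : ℝ) : ℂ) * JJ k g Ψ L t =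
      (∫ t in y0..T, ((W T (t / T) : ℝ) : ℂ) * Rem k g Ψ κ L t) +
      2 * Real.pi * ((∫ t in y0..T, ((W T (t / T) : ℝ) : ℂ) * Dg k g κ L t) +
        ∑ x ∈ Foff ((B + κ) * L), ∫ t in y0..T, ((W T (t / T) : ℝ) : ℂ) *
          DP k (fun u => g (u - κ * ell t / L)) L t x) := by
    rw [← intervalIntegral.integral_finsetSum hDP, ← intervalIntegral.integral_add hDg hOff,
      ← intervalIntegral.integral_const_mul, ← intervalIntegral.integral_add hRem
        ((hDg.add hOff).const_mul _)]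
    refine intervalIntegral.integral_congr fun t ht => ?_
    rw [uIcc_of_le hyT] at ht
    simp only [Rem]
    rw [DP_split hg hΨ.κ0 hL hL0 (lt_of_lt_of_le hy0' ht.1) ht.2, ← Finset.mul_sum]
    ring
  rw [← intervalIntegral.integral_add_adjacent_intervals hI1 hI2, e1]
  ring

end

end MP069854
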