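import Pool.Agent.Lib.MP_069854_nt.Part06

namespace MP069854
open Matrix Finset MeasureTheory
open scoped ComplexConjugate Kronecker

section
variable {N j : ℕ}

/-- embedding of `2 × 2` blocks -/
noncomputable def bl (a b : Fin N) (x y z w : ℂ) : Matrix (Fin N) (Fin N) ℂ :=
  (1 - single a a 1 - single b b 1) + (x • single a a (1:ℂ) + y • single a b (1:ℂ) +
    z • single b a (1:ℂ) + w • single b b (1:ℂ))

lemma bl_mul {a b : Fin N} (hab : a ≠ b) (x y z w x' y' z' w' : ℂ) :
    bl a b x y z w * bl a b x' y' z' w' =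
      bl a b (x * x' + y * z') (x * y' + y * w') (z * x' + w * z') (z * y' + w * w') := by
  unfold bl
  have h1 : single a a (1:ℂ) * single a a (1:ℂ) = single a a (1:ℂ) := by simp
  have h2 : single a a (1:ℂ) * single a b (1:ℂ) = single a b (1:ℂ) := by simp
  have h3 : single a a (1:ℂ) * single b a (1:ℂ) = 0 := by simp [single_mul_single_of_ne, hab]
  have h4 : single a a (1:ℂ) * single b b (1:ℂ) = 0 := by simp [single_mul_single_of_ne, hab]
  have h5 : single a b (1:ℂ) * single a a (1:ℂ) = 0 := by simp [single_mul_single_of_ne, hab.symm]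
  have h6 : single a b (1:ℂ) * single a b (1:ℂ) = 0 := by simp [single_mul_single_of_ne, hab.symm]
  have h7 : single a b (1:ℂ) * single b a (1:ℂ) = single a a (1:ℂ) := by simp
  have h8 : single a b (1:ℂ) * single b b (1:ℂ) = single a b (1:ℂ) := by simp
  have h9 : single b a (1:ℂ) * single a a (1:ℂ) = single b a (1:ℂ) := by simp
  have h10 : single b a (1:ℂ) * single a b (1:ℂ) = single b b (1:ℂ) := by simp
  have h11 : single b a (1:ℂ) * single b a (1:ℂ) = 0 := by simp [single_mul_single_of_ne, hab]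
  have h12 : single b a (1:ℂ) * single b b (1:ℂ) = 0 := by simp [single_mul_single_of_ne, hab]
  have h13 : single b b (1:ℂ) * single a a (1:ℂ) = 0 := by simp [single_mul_single_of_ne, hab.symm]
  have h14 : single b b (1:ℂ) * single a b (1:ℂ) = 0 := by simp [single_mul_single_of_ne, hab.symm]
  have h15 : single b b (1:ℂ) * single b a (1:ℂ) = single b a (1:ℂ) := by simp
  have h16 : single b b (1:ℂ) * single b b (1:ℂ) = single b b (1:ℂ) := by simp
  generalize single a a (1:ℂ) = p at *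
  generalize single a b (1:ℂ) = s at *
  generalize single b a (1:ℂ) = r at *
  generalize single b b (1:ℂ) = q at *
  simp only [mul_add, add_mul, mul_sub, sub_mul, mul_one, one_mul, smul_mul_smul_comm, Matrix.mul_smul,
    Matrix.smul_mul, h1, h2, h3, h4, h5, h6, h7, h8, h9, h10, h11, h12, h13, h14, h15, h16,
    smul_zero, sub_zero, add_zero, zero_add]
  module

lemma bl_diag {a b : Fin N} (hab : a ≠ b) (x w : ℂ) :
    bl a b x 0 0 w = diagonal fun i => if i = a then x else if i = b then w else 1 := by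
  ext i l
  simp only [bl, Matrix.add_apply, Matrix.sub_apply, Matrix.smul_apply, single_apply, one_apply,
    smul_eq_mul, diagonal_apply]
  by_cases hil : i = l
  · subst hil
    by_cases hia : i = a
    · subst hia; simp [hab, hab.symm]
    · by_cases hib : i = b
      · subst hib; simp [hab, hia, Ne.symm hia]
      · simp [hia, hib, Ne.symm hia, Ne.symm hib]
  · have h1 : ¬ (a = i ∧ a = l) := fun h => hil (h.1.symm.trans h.2)
    have h2 : ¬ (b = i ∧ b = l) := fun h => hil (h.1.symm.trans h.2)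
    simp [hil, h1, h2]

lemma bl_rot (a b : Fin N) : bl a b (4/5) (-3/5) (3/5) (4/5) = Rot a b := by
  unfold bl Rot
  module

lemma bl_swap {a b : Fin N} (hab : a ≠ b) : bl a b 0 1 1 0 = Cf (Equiv.swap a b) := by
  ext i l
  simp only [bl, Cf, of_apply, Matrix.add_apply, Matrix.sub_apply, Matrix.smul_apply, single_apply,
    one_apply, smul_eq_mul]
  by_cases hla : l = a
  · subst hla
    rw [Equiv.swap_apply_left]
    by_cases hib : i = b
    · subst hib; simp [hab, hab.symm]
    · by_cases hil : i = l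
      · subst hil; simp [hab, hab.symm]
      · simp [hib, hil, Ne.symm hib, Ne.symm hil]
  · by_cases hlb : l = b
    · subst hlb
      rw [Equiv.swap_apply_right]
      by_cases hia : i = a
      · subst hia; simp [hab, hab.symm]
      · by_cases hil : i = l
        · subst hil; simp [hab, hab.symm, hia, Ne.symm hia]
        · simp [hia, hil, Ne.symm hia, Ne.symm hil]
    · rw [Equiv.swap_apply_of_ne_of_ne hla hlb]
      simp [Ne.symm hla, Ne.symm hlb]

lemma bl_trans (a b : Fin N) (c : ℂ) : bl a b 1 0 c 1 = transvection b a c := by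
  unfold bl transvection
  have : single b a c = c • single b a (1:ℂ) := by simp
  rw [this]
  module

lemma trans_eq {a b : Fin N} (hab : a ≠ b) {c : ℂ} (hc : c ≠ 0) :
    transvection b a c = bl a b (-7/(144*c)) 0 0 (1/12) * Rot a b * bl a b 9 0 0 16 * Rot a b *
      Cf (Equiv.swap a b) * bl a b (12*c/7) 0 0 1 := by
  rw [← bl_rot, ← bl_swap hab, bl_mul hab, bl_mul hab, bl_mul hab, bl_mul hab, bl_mul hab,
    ← bl_trans a b]
  congr 1 <;> field_simp <;> ring

lemma comm_mul {X : Type*} [Fintype X] {A B C : Matrix X X ℂ} (h1 : A * B = B * A)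
    (h2 : A * C = C * A) : A * (B * C) = (B * C) * A := by
  rw [← Matrix.mul_assoc, h1, Matrix.mul_assoc, h2, Matrix.mul_assoc]

/-- elements of the commutant commute with the tensor power of every matrix -/
theorem Com.all {A : Matrix (Fin j → Fin N) (Fin j → Fin N) ℂ} (hA : Com A)
    (M : Matrix (Fin N) (Fin N) ℂ) : A * TT j M = TT j M * A := by
  refine Matrix.diagonal_transvection_induction (fun M => A * TT j M = TT j M * A) M
    (fun D _ => hA.diagonal D) ?_ ?_
  · rintro ⟨b, a, hba, c⟩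
    show A * TT j (transvection b a c) = TT j (transvection b a c) * A
    by_cases hc : c = 0
    · subst hc; rw [transvection_zero, TT_one, Matrix.mul_one, Matrix.one_mul]
    · rw [trans_eq hba.symm hc, bl_diag hba.symm, bl_diag hba.symm, bl_diag hba.symm]
      simp only [TT_mul]
      refine comm_mul (comm_mul (comm_mul (comm_mul (comm_mul (hA.diagonal _) ?_) (hA.diagonal _)) ?_) ?_)
        (hA.diagonal _)
      · exact hA _ (Rot_unitary hba.symm)
      · exact hA _ (Rot_unitary hba.symm)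
      · exact hA _ (Cf_perm_unitary _)
  · intro B C hB hC
    show A * TT j (B * C) = TT j (B * C) * A
    rw [TT_mul]
    exact comm_mul hB hC

end
end MP069854

namespace MP069854
open Matrix Finset MeasureTheory
open scoped ComplexConjugate Kronecker

/-- index type -/
abbrev Ix (N k j : ℕ) : Type := (Fin j → Fin N) × (Fin j → Fin k)

section
variable {N k j : ℕ}

/-- the tensor power acting on the first factor -/
noncomputable def TW (k j : ℕ) (M : Matrix (Fin N) (Fin N) ℂ) : Matrix (Ix N k j) (Ix N k j) ℂ :=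
  TT j M ⊗ₖ (1 : Matrix (Fin j → Fin k) (Fin j → Fin k) ℂ)

lemma TW_mul (A B : Matrix (Fin N) (Fin N) ℂ) : TW k j (A * B) = TW k j A * TW k j B := by
  unfold TW
  rw [TT_mul, ← Matrix.mul_kronecker_mul, Matrix.one_mul]

lemma TW_one : TW k j (1 : Matrix (Fin N) (Fin N) ℂ) = 1 := by
  unfold TW
  rw [TT_one, Matrix.one_kronecker_one]

lemma TW_conjTranspose (M : Matrix (Fin N) (Fin N) ℂ) : TW k j Mᴴ = (TW k j M)ᴴ := by
  unfold TW
  rw [TT_conjTranspose, Matrix.conjTranspose_kronecker, conjTranspose_one]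

lemma TW_unitary {V : Matrix (Fin N) (Fin N) ℂ} (hV : V ∈ unitaryGroup (Fin N) ℂ) :
    TW k j V * (TW k j V)ᴴ = 1 ∧ (TW k j V)ᴴ * TW k j V = 1 := by
  have h1 := mem_unitaryGroup_iff.1 hV
  have h2 := mem_unitaryGroup_iff'.1 hV
  rw [star_eq_conjTranspose] at h1 h2
  constructor
  · rw [← TW_conjTranspose, ← TW_mul, h1, TW_one]
  · rw [← TW_conjTranspose, ← TW_mul, h2, TW_one]

/-- commutation with all `TW V`, `V` unitary -/
def ComW (A : Matrix (Ix N k j) (Ix N k j) ℂ) : Prop :=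
  ∀ V : Matrix (Fin N) (Fin N) ℂ, V ∈ unitaryGroup (Fin N) ℂ → A * TW k j V = TW k j V * A

/-- blocks -/
def blk (A : Matrix (Ix N k j) (Ix N k j) ℂ) (y y' : Fin j → Fin k) :
    Matrix (Fin j → Fin N) (Fin j → Fin N) ℂ := Matrix.of fun x x' => A (x, y) (x', y')

lemma mul_TW (A : Matrix (Ix N k j) (Ix N k j) ℂ) (M : Matrix (Fin N) (Fin N) ℂ)
    (x x' : Fin j → Fin N) (y y' : Fin j → Fin k) :
    (A * TW k j M) (x, y) (x', y') = (blk A y y' * TT j M) x x' := by
  rw [Matrix.mul_apply, Matrix.mul_apply, Fintype.sum_prod_type]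
  refine Finset.sum_congr rfl fun z _ => ?_
  rw [Finset.sum_eq_single y']
  · simp [TW, blk, Matrix.kroneckerMap_apply]
  · intro w _ hw
    simp [TW, Matrix.kroneckerMap_apply, Matrix.one_apply_ne hw]
  · simp

lemma TW_mul' (A : Matrix (Ix N k j) (Ix N k j) ℂ) (M : Matrix (Fin N) (Fin N) ℂ)
    (x x' : Fin j → Fin N) (y y' : Fin j → Fin k) :
    (TW k j M * A) (x, y) (x', y') = (TT j M * blk A y y') x x' := by
  rw [Matrix.mul_apply, Matrix.mul_apply, Fintype.sum_prod_type]
  refine Finset.sum_congr rfl fun z _ => ?_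
  rw [Finset.sum_eq_single y]
  · simp [TW, blk, Matrix.kroneckerMap_apply]
  · intro w _ hw
    simp [TW, Matrix.kroneckerMap_apply, Matrix.one_apply_ne (Ne.symm hw)]
  · simp

theorem ComW.all {A : Matrix (Ix N k j) (Ix N k j) ℂ} (hA : ComW A)
    (M : Matrix (Fin N) (Fin N) ℂ) : A * TW k j M = TW k j M * A := by
  ext ⟨x, y⟩ ⟨x', y'⟩
  rw [mul_TW, TW_mul']
  have h : Com (blk A y y') := by
    intro V hV
    ext z z'
    rw [← mul_TW, ← TW_mul', hA V hV]
  rw [h.all M]

/-- signed permutation of the factors -/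
noncomputable def QQ (N k : ℕ) (σ : Equiv.Perm (Fin j)) : Matrix (Ix N k j) (Ix N k j) ℂ :=
  PP N σ ⊗ₖ PP k σ

/-- the antisymmetriser -/
noncomputable def Ph (N k j : ℕ) : Matrix (Ix N k j) (Ix N k j) ℂ :=
  (j.factorial : ℂ)⁻¹ • ∑ σ : Equiv.Perm (Fin j), ((Equiv.Perm.sign σ : ℤ) : ℂ) • QQ N k σ

lemma QQ_mul (σ τ : Equiv.Perm (Fin j)) : QQ N k σ * QQ N k τ = QQ N k (σ * τ) := by
  unfold QQ
  rw [← Matrix.mul_kronecker_mul, PP_mul, PP_mul]

lemma QQ_comm (σ : Equiv.Perm (Fin j)) (M : Matrix (Fin N) (Fin N) ℂ) :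
    QQ N k σ * TW k j M = TW k j M * QQ N k σ := by
  unfold QQ TW
  rw [← Matrix.mul_kronecker_mul, ← Matrix.mul_kronecker_mul, PP_comm, Matrix.one_mul, Matrix.mul_one]

lemma PP_real (π : Equiv.Perm (Fin j)) : (PP N π)ᴴ = PP N π⁻¹ := by
  rw [← PP_transpose]
  ext w v
  rw [conjTranspose_apply, transpose_apply, PP_apply]
  split_ifs <;> simp

lemma QQ_star (σ : Equiv.Perm (Fin j)) : (QQ N k σ)ᴴ = QQ N k σ⁻¹ := by
  unfold QQ
  rw [Matrix.conjTranspose_kronecker, PP_real, PP_real]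

lemma Ph_comm (M : Matrix (Fin N) (Fin N) ℂ) : Ph N k j * TW k j M = TW k j M * Ph N k j := by
  unfold Ph
  rw [Matrix.smul_mul, Matrix.mul_smul, Finset.sum_mul, Finset.mul_sum]
  congr 1
  refine Finset.sum_congr rfl fun σ _ => ?_
  rw [Matrix.smul_mul, Matrix.mul_smul, QQ_comm]

lemma Ph_star : (Ph N k j)ᴴ = Ph N k j := by
  unfold Ph
  rw [conjTranspose_smul, conjTranspose_sum]
  have h1 : star ((j.factorial : ℂ)⁻¹) = (j.factorial : ℂ)⁻¹ := by simp
  rw [h1]
  congr 1
  rw [← Equiv.sum_comp (Equiv.inv (Equiv.Perm (Fin j)))]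
  refine Finset.sum_congr rfl fun σ _ => ?_
  rw [conjTranspose_smul, Equiv.inv_apply, QQ_star, inv_inv, Equiv.Perm.sign_inv]
  simp

lemma QQ_Ph (τ : Equiv.Perm (Fin j)) :
    QQ N k τ * Ph N k j = ((Equiv.Perm.sign τ : ℤ) : ℂ) • Ph N k j := by
  unfold Ph
  rw [Matrix.mul_smul, smul_comm]
  congr 1
  rw [Finset.mul_sum, Finset.smul_sum, ← Equiv.sum_comp (Equiv.mulLeft τ) (fun ρ =>
    ((Equiv.Perm.sign τ : ℤ) : ℂ) • ((Equiv.Perm.sign ρ : ℤ) : ℂ) • QQ N k ρ)]
  refine Finset.sum_congr rfl fun σ _ => ?_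
  rw [Equiv.coe_mulLeft, Matrix.mul_smul, QQ_mul, smul_smul, Equiv.Perm.sign_mul]
  congr 1
  rcases Int.units_eq_one_or (Equiv.Perm.sign τ) with h | h <;> simp [h]

lemma Ph_sq : Ph N k j * Ph N k j = Ph N k j := by
  have hfac : (j.factorial : ℂ) ≠ 0 := by exact_mod_cast Nat.factorial_ne_zero j
  conv_lhs => rw [show Ph N k j * Ph N k j = ((j.factorial : ℂ)⁻¹ • ∑ σ : Equiv.Perm (Fin j),
    ((Equiv.Perm.sign σ : ℤ) : ℂ) • QQ N k σ) * Ph N k j from rfl]
  rw [Matrix.smul_mul, Finset.sum_mul]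
  have h1 : ∀ σ : Equiv.Perm (Fin j), (((Equiv.Perm.sign σ : ℤ) : ℂ) • QQ N k σ) * Ph N k j =
      Ph N k j := by
    intro σ
    rw [Matrix.smul_mul, QQ_Ph, smul_smul]
    rcases Int.units_eq_one_or (Equiv.Perm.sign σ) with h | h <;> simp [h]
  rw [Finset.sum_congr rfl fun σ _ => h1 σ, Finset.sum_const, Finset.card_univ, Fintype.card_perm,
    Fintype.card_fin, ← Nat.cast_smul_eq_nsmul ℂ, smul_smul, inv_mul_cancel₀ hfac, one_smul]

lemma trace_PP (σ : Equiv.Perm (Fin j)) : (PP k σ).trace = (fixk k σ : ℂ) := by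
  unfold Matrix.trace fixk
  simp only [diag_apply, PP_apply]
  rw [Finset.sum_boole]
  congr 2
  ext u
  rw [mem_filter, mem_filter]
  have h : u = u ∘ σ.symm ↔ u ∘ σ = u := by
    rw [eq_comp_symm_iff]; exact eq_comm
  rw [h]

lemma trace_Ph (U : Matrix (Fin N) (Fin N) ℂ) :
    (Ph N k j * TW k j U).trace = (-1) ^ j * aj k U j := by
  have hfac : (j.factorial : ℂ) ≠ 0 := by exact_mod_cast Nat.factorial_ne_zero j
  rw [aj_eq]
  unfold Ph KK
  rw [Matrix.smul_mul, Finset.sum_mul, trace_smul, trace_sum, Finset.sum_mul, trace_sum,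
    Finset.mul_sum, smul_eq_mul, Finset.mul_sum]
  refine Finset.sum_congr rfl fun σ _ => ?_
  rw [Matrix.smul_mul, trace_smul, Matrix.smul_mul, trace_smul]
  unfold QQ TW
  rw [← Matrix.mul_kronecker_mul, Matrix.mul_one, Matrix.trace_kronecker, trace_PP]
  unfold kap
  simp only [smul_eq_mul]
  have h7 : ((-1 : ℂ) ^ j) * (-1) ^ j = 1 := by
    rw [← mul_pow]; norm_num
  field_simp
  linear_combination (-((PP N σ * TT j U).trace * (fixk k σ : ℂ))) * h7

/-- the subspace of the commutant -/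
def EE (N k j : ℕ) : Submodule ℂ (Matrix (Ix N k j) (Ix N k j) ℂ) where
  carrier := {A | Ph N k j * A = A ∧ A * Ph N k j = A ∧ ComW A}
  add_mem' := by
    rintro A B ⟨a1, a2, a3⟩ ⟨b1, b2, b3⟩
    refine ⟨by rw [Matrix.mul_add, a1, b1], by rw [Matrix.add_mul, a2, b2], ?_⟩
    intro V hV
    rw [Matrix.add_mul, Matrix.mul_add, a3 V hV, b3 V hV]
  zero_mem' := ⟨by simp, by simp, fun V _ => by simp⟩
  smul_mem' := by
    rintro c A ⟨a1, a2, a3⟩
    refine ⟨by rw [Matrix.mul_smul, a1], by rw [Matrix.smul_mul, a2], ?_⟩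
    intro V hV
    rw [Matrix.smul_mul, Matrix.mul_smul, a3 V hV]

end
end MP069854

namespace MP069854
open Matrix Finset MeasureTheory Filter Topology
open scoped ComplexConjugate Kronecker

section
variable {N k j : ℕ} {X Y Z : Type*} [Fintype X] [Fintype Y] [Fintype Z]

variable [MeasurableSpace (unitaryGroup (Fin N) ℂ)] [BorelSpace (unitaryGroup (Fin N) ℂ)]
  (μ : Measure (unitaryGroup (Fin N) ℂ))

/-- entrywise integral -/
noncomputable def mI (F : unitaryGroup (Fin N) ℂ → Matrix X Y ℂ) : Matrix X Y ℂ :=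
  Matrix.of fun x y => ∫ U, F U x y ∂μ

lemma mI_congr {F F' : unitaryGroup (Fin N) ℂ → Matrix X Y ℂ} (h : ∀ U, F U = F' U) :
    mI μ F = mI μ F' := by
  have : F = F' := funext h
  rw [this]

variable [IsProbabilityMeasure μ] [μ.IsHaarMeasure]

lemma mI_left {F : unitaryGroup (Fin N) ℂ → Matrix X Y ℂ} (hF : Continuous F) (P : Matrix Z X ℂ) :
    P * mI μ F = mI μ (fun U => P * F U) := by
  ext z y
  rw [Matrix.mul_apply]
  simp only [mI, of_apply, Matrix.mul_apply]
  rw [integral_finsetSum _ fun x _ => (integrable_cont μ (hF.matrix_elem x y)).const_mul _]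
  refine Finset.sum_congr rfl fun x _ => ?_
  rw [integral_const_mul]

lemma mI_right {F : unitaryGroup (Fin N) ℂ → Matrix X Y ℂ} (hF : Continuous F) (P : Matrix Y Z ℂ) :
    mI μ F * P = mI μ (fun U => F U * P) := by
  ext x z
  rw [Matrix.mul_apply]
  simp only [mI, of_apply, Matrix.mul_apply]
  rw [integral_finsetSum _ fun y _ => (integrable_cont μ (hF.matrix_elem x y)).mul_const _]
  refine Finset.sum_congr rfl fun y _ => ?_
  rw [integral_mul_const]

omit [BorelSpace (unitaryGroup (Fin N) ℂ)] [IsProbabilityMeasure μ] [μ.IsHaarMeasure]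
  [MeasurableSpace (unitaryGroup (Fin N) ℂ)] in
lemma TT_cont' (j : ℕ) : Continuous fun M : Matrix (Fin N) (Fin N) ℂ => TT j M := by
  refine continuous_matrix fun w v => ?_
  simp only [TT_apply]
  exact continuous_finsetProd _ fun i _ => continuous_id.matrix_elem (w i) (v i)

omit [BorelSpace (unitaryGroup (Fin N) ℂ)] [IsProbabilityMeasure μ] [μ.IsHaarMeasure]
  [MeasurableSpace (unitaryGroup (Fin N) ℂ)] in
lemma TW_cont (k j : ℕ) : Continuous fun M : Matrix (Fin N) (Fin N) ℂ => TW k j M := by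
  refine continuous_matrix fun w v => ?_
  simp only [TW, Matrix.kroneckerMap_apply]
  exact ((TT_cont' j).matrix_elem w.1 v.1).mul continuous_const

/-- the compressed representation -/
noncomputable def SS' (k j : ℕ) (M : Matrix (Fin N) (Fin N) ℂ) : Matrix (Ix N k j) (Ix N k j) ℂ :=
  Ph N k j * TW k j M

omit [BorelSpace (unitaryGroup (Fin N) ℂ)] [IsProbabilityMeasure μ] [μ.IsHaarMeasure]
  [MeasurableSpace (unitaryGroup (Fin N) ℂ)] in
lemma SS'_cont (A : Matrix (Ix N k j) (Ix N k j) ℂ) :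
    Continuous fun M : Matrix (Fin N) (Fin N) ℂ => SS' k j M * A * (SS' k j M)ᴴ := by
  have h1 : Continuous fun M : Matrix (Fin N) (Fin N) ℂ => SS' k j M :=
    continuous_const.matrix_mul (TW_cont k j)
  exact (h1.matrix_mul continuous_const).matrix_mul h1.matrix_conjTranspose

/-- averaging -/
noncomputable def Phi (k j : ℕ) : Matrix (Ix N k j) (Ix N k j) ℂ →ₗ[ℂ] Matrix (Ix N k j) (Ix N k j) ℂ where
  toFun A := mI μ fun U => SS' k j (U : Matrix (Fin N) (Fin N) ℂ) * A *
    (SS' k j (U : Matrix (Fin N) (Fin N) ℂ))ᴴ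
  map_add' A B := by
    ext x y
    have h : ∀ C : Matrix (Ix N k j) (Ix N k j) ℂ, Integrable (fun U : unitaryGroup (Fin N) ℂ =>
        (SS' k j (U : Matrix (Fin N) (Fin N) ℂ) * C * (SS' k j (U : Matrix (Fin N) (Fin N) ℂ))ᴴ) x y) μ :=
      fun C => integrable_cont μ (((SS'_cont C).comp continuous_subtype_val).matrix_elem x y)
    rw [Matrix.add_apply]
    refine Eq.trans ?_ (integral_add (h A) (h B))
    refine integral_congr_ae (Eventually.of_forall fun U => ?_)
    show (SS' k j (U : Matrix (Fin N) (Fin N) ℂ) * (A + B) * (SS' k j (U : Matrix (Fin N) (Fin N) ℂ))ᴴ) x y = _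
    rw [Matrix.mul_add, Matrix.add_mul, Matrix.add_apply]
  map_smul' c A := by
    ext x y
    rw [Matrix.smul_apply]
    refine Eq.trans ?_ (integral_const_mul c _)
    refine integral_congr_ae (Eventually.of_forall fun U => ?_)
    show (SS' k j (U : Matrix (Fin N) (Fin N) ℂ) * (c • A) * (SS' k j (U : Matrix (Fin N) (Fin N) ℂ))ᴴ) x y = _
    rw [Matrix.mul_smul, Matrix.smul_mul, Matrix.smul_apply, smul_eq_mul]

lemma Phi_apply (A : Matrix (Ix N k j) (Ix N k j) ℂ) : Phi μ k j A =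
    mI μ fun U => SS' k j (U : Matrix (Fin N) (Fin N) ℂ) * A *
    (SS' k j (U : Matrix (Fin N) (Fin N) ℂ))ᴴ := rfl

lemma Phi_cont (A : Matrix (Ix N k j) (Ix N k j) ℂ) :
    Continuous fun U : unitaryGroup (Fin N) ℂ => SS' k j (U : Matrix (Fin N) (Fin N) ℂ) * A *
    (SS' k j (U : Matrix (Fin N) (Fin N) ℂ))ᴴ := (SS'_cont A).comp continuous_subtype_val

omit [BorelSpace (unitaryGroup (Fin N) ℂ)] [IsProbabilityMeasure μ] [μ.IsHaarMeasure]
  [MeasurableSpace (unitaryGroup (Fin N) ℂ)] in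
lemma Ph_SS' (M : Matrix (Fin N) (Fin N) ℂ) : Ph N k j * SS' k j M = SS' k j M := by
  unfold SS'
  rw [← Matrix.mul_assoc, Ph_sq]

omit [BorelSpace (unitaryGroup (Fin N) ℂ)] [IsProbabilityMeasure μ] [μ.IsHaarMeasure]
  [MeasurableSpace (unitaryGroup (Fin N) ℂ)] in
lemma SS'_Ph (M : Matrix (Fin N) (Fin N) ℂ) : (SS' k j M)ᴴ * Ph N k j = (SS' k j M)ᴴ := by
  have h := congrArg conjTranspose (Ph_SS' (k := k) (j := j) M)
  rwa [conjTranspose_mul, Ph_star] at h

omit [BorelSpace (unitaryGroup (Fin N) ℂ)] [IsProbabilityMeasure μ] [μ.IsHaarMeasure]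
  [MeasurableSpace (unitaryGroup (Fin N) ℂ)] in
lemma TW_SS' (V M : Matrix (Fin N) (Fin N) ℂ) : TW k j V * SS' k j M = SS' k j (V * M) := by
  unfold SS'
  rw [← Matrix.mul_assoc, ← Ph_comm, Matrix.mul_assoc, TW_mul]

lemma isProj : LinearMap.IsProj (EE N k j) (Phi μ k j) := by
  constructor
  · intro A
    refine ⟨?_, ?_, ?_⟩
    · rw [Phi_apply]
      refine (mI_left μ (Phi_cont A) _).trans (mI_congr μ fun U => ?_)
      rw [← Matrix.mul_assoc, ← Matrix.mul_assoc, Ph_SS']
    · rw [Phi_apply]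
      refine (mI_right μ (Phi_cont A) _).trans (mI_congr μ fun U => ?_)
      rw [Matrix.mul_assoc, SS'_Ph]
    · intro V hV
      have key : TW k j V * Phi μ k j A * (TW k j V)ᴴ = Phi μ k j A := by
        rw [Phi_apply, mI_left μ (Phi_cont A), mI_right μ (continuous_const.matrix_mul (Phi_cont A))]
        ext x y
        simp only [mI, of_apply]
        have h2 := integral_mul_left_eq_self (μ := μ) (fun U : unitaryGroup (Fin N) ℂ =>
          (SS' k j (U : Matrix (Fin N) (Fin N) ℂ) * A *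
            (SS' k j (U : Matrix (Fin N) (Fin N) ℂ))ᴴ) x y) ⟨V, hV⟩
        rw [← h2]
        refine integral_congr_ae (Eventually.of_forall fun U => ?_)
        simp only
        rw [show ((((⟨V, hV⟩ : unitaryGroup (Fin N) ℂ) * U : unitaryGroup (Fin N) ℂ)) :
          Matrix (Fin N) (Fin N) ℂ) = V * (U : Matrix (Fin N) (Fin N) ℂ) from rfl, ← TW_SS',
          conjTranspose_mul]
        simp only [Matrix.mul_assoc]
      have h3 := (TW_unitary (k := k) (j := j) hV).2
      calc Phi μ k j A * TW k j V = TW k j V * Phi μ k j A * (TW k j V)ᴴ * TW k j V := by rw [key]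
        _ = TW k j V * Phi μ k j A := by
          rw [Matrix.mul_assoc (TW k j V * Phi μ k j A), h3, Matrix.mul_one]
  · rintro A ⟨h1, h2, h3⟩
    rw [Phi_apply]
    have h4 : ∀ U : unitaryGroup (Fin N) ℂ, SS' k j (U : Matrix (Fin N) (Fin N) ℂ) * A *
        (SS' k j (U : Matrix (Fin N) (Fin N) ℂ))ᴴ = A := by
      intro U
      unfold SS'
      rw [conjTranspose_mul, Ph_star, Matrix.mul_assoc (Ph N k j), ← h3 _ U.2]
      calc Ph N k j * (A * TW k j (U : Matrix (Fin N) (Fin N) ℂ)) *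
            ((TW k j (U : Matrix (Fin N) (Fin N) ℂ))ᴴ * Ph N k j) =
          (Ph N k j * A) * (TW k j (U : Matrix (Fin N) (Fin N) ℂ) *
            (TW k j (U : Matrix (Fin N) (Fin N) ℂ))ᴴ) * Ph N k j := by
            simp only [Matrix.mul_assoc]
        _ = A := by rw [(TW_unitary U.2).1, Matrix.mul_one, h1, h2]
    simp only [h4]
    ext x y
    simp only [mI, of_apply]
    simp

/-- **dimension formula** -/
lemma trace_Phi : LinearMap.trace ℂ _ (Phi μ k j) = mm μ k j j := by
  rw [LinearMap.trace_eq_matrix_trace ℂ (Matrix.stdBasis ℂ (Ix N k j) (Ix N k j))]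
  unfold Matrix.trace
  rw [Fintype.sum_prod_type]
  have h1 : ∀ a b : Ix N k j, (LinearMap.toMatrix (Matrix.stdBasis ℂ (Ix N k j) (Ix N k j))
      (Matrix.stdBasis ℂ (Ix N k j) (Ix N k j)) (Phi μ k j)).diag (a, b) =
      ∫ U : unitaryGroup (Fin N) ℂ, SS' k j (U : Matrix (Fin N) (Fin N) ℂ) a a *
        conj (SS' k j (U : Matrix (Fin N) (Fin N) ℂ) b b) ∂μ := by
    intro a b
    rw [diag_apply, LinearMap.toMatrix_apply, Matrix.stdBasis_eq_single]
    have h2 : ∀ (M : Matrix (Ix N k j) (Ix N k j) ℂ),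
        (Matrix.stdBasis ℂ (Ix N k j) (Ix N k j)).repr M (a, b) = M a b := by
      intro M
      simp [Matrix.stdBasis]
    rw [h2, Phi_apply]
    simp only [mI, of_apply]
    refine integral_congr_ae (Eventually.of_forall fun U => ?_)
    simp only
    rw [Matrix.mul_apply, Finset.sum_eq_single b]
    · rw [Matrix.mul_apply, Finset.sum_eq_single a]
      · simp [conjTranspose_apply]
      · intro c _ hc
        simp [Matrix.single_apply_of_row_ne (Ne.symm hc)]
      · simp
    · intro c _ hc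
      rw [Matrix.mul_apply, Finset.sum_eq_zero, zero_mul]
      intro d _
      simp [Matrix.single_apply_of_col_ne _ _ (Ne.symm hc)]
    · simp
  have hc : ∀ a : Ix N k j, Continuous fun U : unitaryGroup (Fin N) ℂ =>
      SS' k j (U : Matrix (Fin N) (Fin N) ℂ) a a := by
    intro a
    have h3 : Continuous fun M : Matrix (Fin N) (Fin N) ℂ => SS' k j M :=
      continuous_const.matrix_mul (TW_cont k j)
    exact (h3.comp continuous_subtype_val).matrix_elem a a
  have hi : ∀ a b : Ix N k j, Integrable (fun U : unitaryGroup (Fin N) ℂ =>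
      SS' k j (U : Matrix (Fin N) (Fin N) ℂ) a a *
        conj (SS' k j (U : Matrix (Fin N) (Fin N) ℂ) b b)) μ := fun a b =>
    integrable_cont μ ((hc a).mul (Complex.continuous_conj.comp (hc b)))
  rw [Finset.sum_congr rfl fun a _ => Finset.sum_congr rfl fun b _ => h1 a b]
  rw [Finset.sum_congr rfl fun a _ => (integral_finsetSum _ fun b _ => hi a b).symm,
    ← integral_finsetSum _ fun a _ => integrable_finsetSum _ fun b _ => hi a b]
  unfold mm
  refine integral_congr_ae (Eventually.of_forall fun U => ?_)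
  simp only
  have h4 := trace_Ph (k := k) (j := j) (U : Matrix (Fin N) (Fin N) ℂ)
  have h5 : (Ph N k j * TW k j (U : Matrix (Fin N) (Fin N) ℂ)).trace =
      ∑ a, SS' k j (U : Matrix (Fin N) (Fin N) ℂ) a a := rfl
  rw [h5] at h4
  have h6 : ∑ a, ∑ b, SS' k j (U : Matrix (Fin N) (Fin N) ℂ) a a *
        conj (SS' k j (U : Matrix (Fin N) (Fin N) ℂ) b b) =
      (∑ a, SS' k j (U : Matrix (Fin N) (Fin N) ℂ) a a) *
        conj (∑ a, SS' k j (U : Matrix (Fin N) (Fin N) ℂ) a a) := by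
    rw [map_sum, Finset.sum_mul_sum]
  rw [h6, h4]
  have h7 : ((-1 : ℂ) ^ j) * (-1) ^ j = 1 := by
    rw [← mul_pow]; norm_num
  rw [map_mul, map_pow, map_neg, map_one]
  linear_combination (aj k (U : Matrix (Fin N) (Fin N) ℂ) j *
    conj (aj k (U : Matrix (Fin N) (Fin N) ℂ) j)) * h7

theorem mm_eq_finrank : mm μ k j j = (Module.finrank ℂ (EE N k j) : ℂ) := by
  rw [← trace_Phi, (isProj μ).trace]

end
end MP069854

namespace MP069854
open Matrix Finset MeasureTheory Filter Topology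
open scoped ComplexConjugate Kronecker

section
variable {N N' k j : ℕ}

/-- inclusion of indices -/
def inc (h : N ≤ N') (x : Ix N k j) : Ix N' k j := (Fin.castLE h ∘ x.1, x.2)

/-- isometric embedding -/
noncomputable def Emb (k j : ℕ) {N N' : ℕ} (h : N ≤ N') : Matrix (Ix N' k j) (Ix N k j) ℂ :=
  Matrix.of fun x' x => if x' = inc h x then 1 else 0

lemma mul_Emb (h : N ≤ N') {Z : Type*} (B : Matrix Z (Ix N' k j) ℂ) (z : Z) (x : Ix N k j) :
    (B * Emb k j h) z x = B z (inc h x) := by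
  rw [Matrix.mul_apply]
  simp only [Emb, of_apply, mul_ite, mul_one, mul_zero]
  rw [Finset.sum_ite_eq' univ (inc h x) (fun w => B z w)]
  simp

lemma Emb_mul (h : N ≤ N') {Z : Type*} (B : Matrix (Ix N' k j) Z ℂ) (z : Z) (x : Ix N k j) :
    ((Emb k j h)ᴴ * B) x z = B (inc h x) z := by
  rw [Matrix.mul_apply]
  have h1 : ∀ w, (Emb k j h)ᴴ x w = if w = inc h x then (1:ℂ) else 0 := by
    intro w
    rw [conjTranspose_apply, Emb, of_apply]
    split_ifs <;> simp
  simp only [h1, ite_mul, one_mul, zero_mul]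
  rw [Finset.sum_ite_eq' univ (inc h x) (fun w => B w z)]
  simp

lemma QQ_apply (σ : Equiv.Perm (Fin j)) (z x : Ix N k j) :
    QQ N k σ z x = if z = (x.1 ∘ σ.symm, x.2 ∘ σ.symm) then 1 else 0 := by
  simp only [QQ, Matrix.kroneckerMap_apply, PP_apply, Prod.ext_iff]
  by_cases h1 : z.1 = x.1 ∘ σ.symm <;> by_cases h2 : z.2 = x.2 ∘ σ.symm <;> simp [h1, h2]

lemma QQ_Emb (h : N ≤ N') (σ : Equiv.Perm (Fin j)) :
    QQ N' k σ * Emb k j h = Emb k j h * QQ N k σ := by
  ext z x
  rw [mul_Emb, QQ_apply, Matrix.mul_apply]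
  simp only [QQ_apply, mul_ite, mul_one, mul_zero]
  rw [Finset.sum_ite_eq' univ (x.1 ∘ σ.symm, x.2 ∘ σ.symm) (fun w => Emb k j h z w)]
  simp only [mem_univ, if_true, Emb, of_apply]
  rfl

lemma Ph_Emb (h : N ≤ N') : Ph N' k j * Emb k j h = Emb k j h * Ph N k j := by
  unfold Ph
  rw [Matrix.smul_mul, Matrix.mul_smul, Matrix.sum_mul, Matrix.mul_sum]
  congr 1
  refine Finset.sum_congr rfl fun σ _ => ?_
  rw [Matrix.smul_mul, Matrix.mul_smul, QQ_Emb]

/-- corner -/
def cor (h : N ≤ N') (M : Matrix (Fin N') (Fin N') ℂ) : Matrix (Fin N) (Fin N) ℂ :=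
  M.submatrix (Fin.castLE h) (Fin.castLE h)

lemma TW_cor (h : N ≤ N') (M : Matrix (Fin N') (Fin N') ℂ) :
    (Emb k j h)ᴴ * TW k j M * Emb k j h = TW k j (cor h M) := by
  ext x y
  rw [mul_Emb, Emb_mul]
  rfl

lemma SS'_cor (h : N ≤ N') (M : Matrix (Fin N') (Fin N') ℂ) :
    (Emb k j h)ᴴ * SS' k j M * Emb k j h = SS' k j (cor h M) := by
  unfold SS'
  have h1 := congrArg conjTranspose (Ph_Emb (k := k) (j := j) h)
  rw [conjTranspose_mul, conjTranspose_mul, Ph_star, Ph_star] at h1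
  rw [← Matrix.mul_assoc, h1, Matrix.mul_assoc (Ph N k j), Matrix.mul_assoc (Ph N k j), TW_cor]

lemma SS'_EE {A : Matrix (Ix N k j) (Ix N k j) ℂ} (hA : A ∈ EE N k j)
    (M : Matrix (Fin N) (Fin N) ℂ) :
    SS' k j M * A * (SS' k j M)ᴴ * Aᴴ = (A * TW k j M) * (A * TW k j M)ᴴ := by
  obtain ⟨h1, h2, h3⟩ := hA
  unfold SS'
  rw [conjTranspose_mul, conjTranspose_mul, Ph_star]
  have h4 : Ph N k j * Aᴴ = Aᴴ := by
    have := congrArg conjTranspose h2
    rwa [conjTranspose_mul, Ph_star] at this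
  calc Ph N k j * TW k j M * A * ((TW k j M)ᴴ * Ph N k j) * Aᴴ =
      Ph N k j * (TW k j M * A) * (TW k j M)ᴴ * (Ph N k j * Aᴴ) := by
        simp only [Matrix.mul_assoc]
    _ = Ph N k j * (A * TW k j M) * (TW k j M)ᴴ * Aᴴ := by rw [ComW.all h3 M, h4]
    _ = (Ph N k j * A) * TW k j M * (TW k j M)ᴴ * Aᴴ := by simp only [Matrix.mul_assoc]
    _ = _ := by rw [h1]; simp only [Matrix.mul_assoc]

/-- lifting -/
noncomputable def Lin (h : N ≤ N') :
    Matrix (Ix N k j) (Ix N k j) ℂ →ₗ[ℂ] Matrix (Ix N' k j) (Ix N' k j) ℂ where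
  toFun A := Emb k j h * A * (Emb k j h)ᴴ
  map_add' A B := by rw [Matrix.mul_add, Matrix.add_mul]
  map_smul' c A := by rw [Matrix.mul_smul, Matrix.smul_mul]; rfl

variable [MeasurableSpace (unitaryGroup (Fin N') ℂ)] [BorelSpace (unitaryGroup (Fin N') ℂ)]
  (μ : Measure (unitaryGroup (Fin N') ℂ)) [IsProbabilityMeasure μ] [μ.IsHaarMeasure]

lemma lift_zero (h : N ≤ N') {A : Matrix (Ix N k j) (Ix N k j) ℂ} (hA : A ∈ EE N k j)
    (h0 : Phi μ k j (Lin h A) = 0) : A = 0 := by
  have hLc := Phi_cont (k := k) (j := j) (Lin h A)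
  have h1 : (mI μ fun U : unitaryGroup (Fin N') ℂ =>
      (A * TW k j (cor h (U : Matrix (Fin N') (Fin N') ℂ))) *
      (A * TW k j (cor h (U : Matrix (Fin N') (Fin N') ℂ)))ᴴ) = 0 := by
    have h2 : (Emb k j h)ᴴ * Phi μ k j (Lin h A) * (Emb k j h * Aᴴ) = 0 := by rw [h0]; simp
    rw [← h2, Phi_apply, mI_left μ hLc, mI_right μ (continuous_const.matrix_mul hLc)]
    refine mI_congr μ fun U => ?_
    rw [← SS'_EE hA, ← SS'_cor]
    have h3 : Lin h A = Emb k j h * A * (Emb k j h)ᴴ := rfl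
    rw [h3, conjTranspose_mul, conjTranspose_mul, conjTranspose_conjTranspose]
    simp only [Matrix.mul_assoc]
  have hcor : Continuous fun U : unitaryGroup (Fin N') ℂ =>
      A * TW k j (cor h (U : Matrix (Fin N') (Fin N') ℂ)) := by
    refine continuous_const.matrix_mul ((TW_cont k j).comp ?_)
    exact continuous_subtype_val.matrix_submatrix _ _
  ext x y
  have h4 := congrFun (congrFun h1 x) x
  simp only [mI, of_apply, Matrix.zero_apply] at h4
  set F : unitaryGroup (Fin N') ℂ → ℝ := fun U =>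
    ∑ z, ‖(A * TW k j (cor h (U : Matrix (Fin N') (Fin N') ℂ))) x z‖ ^ 2 with hF
  have h5 : ∀ U : unitaryGroup (Fin N') ℂ,
      ((A * TW k j (cor h (U : Matrix (Fin N') (Fin N') ℂ))) *
      (A * TW k j (cor h (U : Matrix (Fin N') (Fin N') ℂ)))ᴴ) x x = ((F U : ℝ) : ℂ) := by
    intro U
    rw [Matrix.mul_apply, hF]
    push_cast
    refine Finset.sum_congr rfl fun z _ => ?_
    rw [conjTranspose_apply, ← starRingEnd_apply, Complex.mul_conj, Complex.normSq_eq_norm_sq]
    push_cast; rfl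
  have h4' : ∫ U : unitaryGroup (Fin N') ℂ, ((F U : ℝ) : ℂ) ∂μ = 0 := by
    rw [← h4]
    exact integral_congr_ae (Eventually.of_forall fun U => (h5 U).symm)
  rw [integral_complex_ofReal] at h4'
  have h6 : ∫ U : unitaryGroup (Fin N') ℂ, F U ∂μ = 0 := by exact_mod_cast h4'
  have hFc : Continuous F := by
    rw [hF]
    exact continuous_finsetSum _ fun z _ => ((hcor.matrix_elem x z).norm.pow 2)
  have := compact_unitary N'
  have hFi : Integrable F μ :=
    hFc.integrable_of_hasCompactSupport (HasCompactSupport.of_compactSpace F)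
  have hF0 : 0 ≤ F := fun U => Finset.sum_nonneg fun z _ => by positivity
  have h7 : F =ᵐ[μ] 0 := (integral_eq_zero_iff_of_nonneg hF0 hFi).1 h6
  have h8 : F = 0 := (hFc.ae_eq_iff_eq μ continuous_zero).1 h7
  have h9 := congrFun h8 1
  rw [hF] at h9
  simp only [Pi.zero_apply] at h9
  have h10 := (Finset.sum_eq_zero_iff_of_nonneg (fun z _ => by positivity)).1 h9 y (mem_univ y)
  have h11 : cor h ((1 : unitaryGroup (Fin N') ℂ) : Matrix (Fin N') (Fin N') ℂ) = 1 := by
    show (1 : Matrix (Fin N') (Fin N') ℂ).submatrix _ _ = 1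
    exact Matrix.submatrix_one _ (Fin.castLE_injective h)
  rw [h11, TW_one, Matrix.mul_one] at h10
  simpa using h10

include μ in
/-- **monotonicity in the dimension** -/
theorem finrank_mono (h : N ≤ N') :
    Module.finrank ℂ (EE N k j) ≤ Module.finrank ℂ (EE N' k j) := by
  let J : EE N k j →ₗ[ℂ] EE N' k j :=
    LinearMap.codRestrict (EE N' k j) ((Phi μ k j ∘ₗ Lin h) ∘ₗ (EE N k j).subtype)
      (fun A => (isProj μ).map_mem _)
  refine LinearMap.finrank_le_finrank_of_injective (f := J) ?_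
  rw [← LinearMap.ker_eq_bot, LinearMap.ker_eq_bot']
  intro A hA
  have h1 : Phi μ k j (Lin h (A : Matrix (Ix N k j) (Ix N k j) ℂ)) = 0 := congrArg Subtype.val hA
  exact Subtype.ext (lift_zero μ h A.2 h1)

end

section
variable [∀ N, MeasurableSpace (unitaryGroup (Fin N) ℂ)] [∀ N, BorelSpace (unitaryGroup (Fin N) ℂ)]
  (μ : ∀ N, Measure (unitaryGroup (Fin N) ℂ)) [∀ N, IsProbabilityMeasure (μ N)]
  [∀ N, (μ N).IsHaarMeasure]

/-- the second moments are natural numbers bounded by their stable values -/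
theorem mm_le (k j N : ℕ) : ∃ n : ℕ, mm (μ N) k j j = n ∧ n ≤ (k ^ 2).multichoose j := by
  refine ⟨Module.finrank ℂ (EE N k j), mm_eq_finrank (μ N), ?_⟩
  have h1 := finrank_mono (k := k) (j := j) (μ (max N j)) (le_max_left N j)
  have h2 := mm_eq_finrank (k := k) (j := j) (μ (max N j))
  rw [mm_low (μ (max N j)) (le_max_right N j)] at h2
  have h3 : (k ^ 2).multichoose j = Module.finrank ℂ (EE (max N j) k j) := by exact_mod_cast h2
  omega

end
end MP069854
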