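import Pool.Agent.Lib.MP_069854_nt.Fz
import Pool.Agent.Lib.MP_069854_nt.Boch

namespace MP069854
open Filter Topology Complex Set MeasureTheory
open scoped ComplexConjugate ContDiff

section
variable {k : ℕ} {g : ℝ → ℂ} {A B : ℝ}

/-- `∫_0^x |ζ(1/2+it)|^{2k} dt` -/
noncomputable def I2 (k : ℕ) (x : ℝ) : ℝ := ∫ t in (0:ℝ)..x, ‖fz k t‖ ^ 2

lemma fzsq_cont (k : ℕ) : Continuous fun t => ‖fz k t‖ ^ 2 := ((fz_cont k).norm).pow 2

lemma fz_norm_neg (k : ℕ) (t : ℝ) : ‖fz k (-t)‖ = ‖fz k t‖ := by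
  have h := fz_conj k t
  have h2 : fz k (-t) = conj (fz k t) := by
    rw [h]; unfold fz; congr 2; push_cast; ring
  rw [h2, RCLike.norm_conj]

lemma I2_sub (k : ℕ) (a b : ℝ) : ∫ t in a..b, ‖fz k t‖ ^ 2 = I2 k b - I2 k a := by
  unfold I2
  rw [intervalIntegral.integral_interval_sub_left ((fzsq_cont k).intervalIntegrable _ _)
    ((fzsq_cont k).intervalIntegrable _ _)]

lemma I2_mono (k : ℕ) : Monotone (I2 k) := by
  intro a b hab
  have h := I2_sub k a b
  have h2 : 0 ≤ ∫ t in a..b, ‖fz k t‖ ^ 2 :=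
    intervalIntegral.integral_nonneg hab fun t _ => by positivity
  linarith

lemma I2_zero (k : ℕ) : I2 k 0 = 0 := by unfold I2; simp

lemma I2_nonneg (k : ℕ) {x : ℝ} (hx : 0 ≤ x) : 0 ≤ I2 k x := by
  rw [← I2_zero k]; exact I2_mono k hx

lemma I2_neg (k : ℕ) (x : ℝ) : I2 k (-x) = -I2 k x := by
  unfold I2
  have h := intervalIntegral.integral_comp_neg (a := 0) (b := x) (fun t => ‖fz k t‖ ^ 2)
  simp only [neg_zero, fz_norm_neg] at h
  rw [h, intervalIntegral.integral_symm]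

lemma I2_add (k : ℕ) (a b c : ℝ) : ∫ t in a..b, ‖fz k (t + c)‖ ^ 2 = I2 k (b + c) - I2 k (a + c) := by
  rw [intervalIntegral.integral_comp_add_right (fun t => ‖fz k t‖ ^ 2), I2_sub]

lemma Qk_fz (k : ℕ) (β T : ℝ) : Qk k β T = ((T * Real.log T ^ (k ^ 2) : ℝ) : ℂ)⁻¹ *
    ∫ t in (0:ℝ)..T, fz k (t + β / Real.log T) * conj (fz k (t - β / Real.log T)) := by
  rw [Qk_eq]
  congr 1
  refine intervalIntegral.integral_congr fun t _ => ?_
  rw [Z_eq]

lemma Qk_zero (k : ℕ) (T : ℝ) : Qk k 0 T = (((T * Real.log T ^ (k ^ 2))⁻¹ * I2 k T : ℝ) : ℂ) := by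
  rw [Qk_fz]
  simp only [zero_div, add_zero, sub_zero]
  have h : ∀ t : ℝ, fz k t * conj (fz k t) = ((‖fz k t‖ ^ 2 : ℝ) : ℂ) := by
    intro t; rw [Complex.mul_conj, Complex.normSq_eq_norm_sq]
  simp_rw [h]
  rw [intervalIntegral.integral_ofReal]
  unfold I2
  push_cast; rfl

/-- cut off function -/
noncomputable def Ft (k : ℕ) (T : ℝ) : ℝ → ℂ := (Ioc 0 T).indicator (fz k)

lemma Ft_integrable (k : ℕ) (T : ℝ) : Integrable (Ft k T) := by
  unfold Ft
  rw [integrable_indicator_iff measurableSet_Ioc]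
  exact ((fz_cont k).integrableOn_Icc (a := 0) (b := T)).mono_set Ioc_subset_Icc_self

lemma Ft_bounded (k : ℕ) (T : ℝ) : ∃ M : ℝ, ∀ t, ‖Ft k T t‖ ≤ M := by
  obtain ⟨M, hM⟩ := isCompact_Icc.exists_bound_of_continuousOn (s := Icc (0:ℝ) T)
    (fz_cont k).continuousOn
  refine ⟨max M 0, fun t => ?_⟩
  unfold Ft
  by_cases ht : t ∈ Ioc 0 T
  · rw [indicator_of_mem ht]
    exact (hM t ⟨ht.1.le, ht.2⟩).trans (le_max_left _ _)
  · rw [indicator_of_notMem ht, norm_zero]; exact le_max_right _ _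

lemma Ft_contAt (k : ℕ) (T : ℝ) : ∀ᵐ t : ℝ, ContinuousAt (Ft k T) t := by
  have h0 : ∀ᵐ t : ℝ, t ≠ 0 := by
    have := (measure_singleton (μ := (volume : Measure ℝ)) (0:ℝ))
    exact compl_mem_ae_iff.2 this
  have hT : ∀ᵐ t : ℝ, t ≠ T := by
    have := (measure_singleton (μ := (volume : Measure ℝ)) T)
    exact compl_mem_ae_iff.2 this
  filter_upwards [h0, hT] with t ht0 htT
  unfold Ft
  rcases lt_or_gt_of_ne ht0 with h | h
  · refine (continuousAt_const (y := (0:ℂ))).congr ?_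
    filter_upwards [Iio_mem_nhds h] with x hx
    rw [indicator_of_notMem]
    intro hx2
    exact absurd hx2.1 (not_lt.2 (le_of_lt hx))
  · rcases lt_or_gt_of_ne htT with h' | h'
    · refine (fz_cont k).continuousAt.congr ?_
      filter_upwards [Ioo_mem_nhds h h'] with x hx
      rw [indicator_of_mem (show x ∈ Ioc 0 T from ⟨hx.1, hx.2.le⟩)]
    · refine (continuousAt_const (y := (0:ℂ))).congr ?_
      filter_upwards [Ioi_mem_nhds h'] with x hx
      rw [indicator_of_notMem]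
      intro hx2
      exact absurd hx2.2 (not_le.2 hx)

lemma Ft_sq (k : ℕ) {T : ℝ} (hT : 0 ≤ T) : ∫ t, ‖Ft k T t‖ ^ 2 = I2 k T := by
  unfold I2 Ft
  rw [intervalIntegral.integral_of_le hT, ← integral_indicator measurableSet_Ioc]
  refine integral_congr_ae (Eventually.of_forall fun t => ?_)
  simp only
  by_cases ht : t ∈ Ioc 0 T
  · rw [indicator_of_mem ht, indicator_of_mem ht]
  · rw [indicator_of_notMem ht, indicator_of_notMem ht]; simp

/-- normalised autocorrelation -/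
noncomputable def RT (k : ℕ) (β T : ℝ) : ℂ :=
  ((T * Real.log T ^ (k ^ 2) : ℝ) : ℂ)⁻¹ * AC (Ft k T) (2 * β / Real.log T)

lemma norm_cast_inv {x : ℝ} (hx : 0 ≤ x) : ‖((x : ℝ) : ℂ)⁻¹‖ = x⁻¹ := by
  rw [norm_inv, Complex.norm_real, Real.norm_of_nonneg hx]

lemma RT_norm (k : ℕ) (β : ℝ) {T : ℝ} (hT : Real.exp 1 ≤ T) :
    ‖RT k β T‖ ≤ (T * Real.log T ^ (k ^ 2))⁻¹ * I2 k T := by
  have hexp1 : (2:ℝ) ≤ Real.exp 1 := by have := Real.add_one_le_exp (1:ℝ); linarith
  have hT0 : 0 < T := by linarith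
  have hL1 : 1 ≤ Real.log T := by
    rw [Real.le_log_iff_exp_le hT0]; exact hT
  obtain ⟨M, hM⟩ := Ft_bounded k T
  unfold RT
  rw [norm_mul, norm_cast_inv (by positivity)]
  refine mul_le_mul_of_nonneg_left ?_ (by positivity)
  rw [← Ft_sq k hT0.le]
  exact AC_norm_le (Ft_integrable k T) hM (Ft_contAt k T) _

lemma prod_le_half (z w : ℂ) : ‖z * conj w‖ ≤ (‖z‖ ^ 2 + ‖w‖ ^ 2) / 2 := by
  rw [norm_mul, RCLike.norm_conj]
  nlinarith [sq_nonneg (‖z‖ - ‖w‖)]

lemma Qk_norm (k : ℕ) (β : ℝ) {T : ℝ} (hT : Real.exp 1 ≤ T) :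
    ‖Qk k β T‖ ≤ (T * Real.log T ^ (k ^ 2))⁻¹ * I2 k (T + |β|) := by
  have hexp1 : (2:ℝ) ≤ Real.exp 1 := by have := Real.add_one_le_exp (1:ℝ); linarith
  have hT0 : 0 < T := by linarith
  have hL1 : 1 ≤ Real.log T := by
    rw [Real.le_log_iff_exp_le hT0]; exact hT
  rw [Qk_fz, norm_mul, norm_cast_inv (by positivity)]
  refine mul_le_mul_of_nonneg_left ?_ (by positivity)
  set b := β / Real.log T with hb
  have hbβ : |b| ≤ |β| := by
    rw [hb, abs_div, abs_of_pos (by linarith : 0 < Real.log T)]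
    exact div_le_self (abs_nonneg _) hL1
  have hc : Continuous fun t : ℝ => (‖fz k (t + b)‖ ^ 2 + ‖fz k (t - b)‖ ^ 2) / 2 := by
    have h1 := (fz_cont k)
    exact ((((h1.comp (continuous_add_const b)).norm).pow 2).add
      (((h1.comp (continuous_sub_right b)).norm).pow 2)).div_const 2
  have h1 : ‖∫ t in (0:ℝ)..T, fz k (t + b) * conj (fz k (t - b))‖ ≤
      ∫ t in (0:ℝ)..T, (‖fz k (t + b)‖ ^ 2 + ‖fz k (t - b)‖ ^ 2) / 2 := by
    refine intervalIntegral.norm_integral_le_of_norm_le hT0.le ?_ (hc.intervalIntegrable _ _)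
    exact Eventually.of_forall fun t _ => prod_le_half _ _
  refine h1.trans ?_
  have hi1 : IntervalIntegrable (fun t : ℝ => ‖fz k (t + b)‖ ^ 2) volume 0 T :=
    (((fz_cont k).comp (continuous_add_const b)).norm.pow 2).intervalIntegrable _ _
  have hi2 : IntervalIntegrable (fun t : ℝ => ‖fz k (t - b)‖ ^ 2) volume 0 T :=
    (((fz_cont k).comp (continuous_sub_right b)).norm.pow 2).intervalIntegrable _ _
  rw [intervalIntegral.integral_div, intervalIntegral.integral_add hi1 hi2, I2_add]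
  have h2 := I2_add k 0 T (-b)
  simp only [← sub_eq_add_neg] at h2
  rw [h2]
  have h3 := I2_neg k b
  have h4 : I2 k (T + b) ≤ I2 k (T + |β|) := I2_mono k (by linarith [le_abs_self b])
  have h5 : I2 k (T - b) ≤ I2 k (T + |β|) := I2_mono k (by linarith [neg_abs_le b])
  simp only [zero_add, zero_sub]
  rw [h3]
  linarith

/-- comparison with the cut off correlation -/
lemma edge (k : ℕ) (β : ℝ) {T : ℝ} (hT : Real.exp 1 ≤ T) :
    ‖Qk k β T - RT k β T‖ ≤ (T * Real.log T ^ (k ^ 2))⁻¹ *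
      ((I2 k (2 * |β|) - I2 k (-|β|)) + (I2 k (T + |β|) - I2 k (T - 2 * |β|))) := by
  have hexp1 : (2:ℝ) ≤ Real.exp 1 := by have := Real.add_one_le_exp (1:ℝ); linarith
  have hT0 : 0 < T := by linarith
  have hL1 : 1 ≤ Real.log T := by
    rw [Real.le_log_iff_exp_le hT0]; exact hT
  rw [Qk_fz]
  unfold RT
  rw [← mul_sub, norm_mul, norm_cast_inv (by positivity)]
  refine mul_le_mul_of_nonneg_left ?_ (by positivity)
  set b := β / Real.log T with hb
  have hbβ : |b| ≤ |β| := by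
    rw [hb, abs_div, abs_of_pos (by linarith : 0 < Real.log T)]
    exact div_le_self (abs_nonneg _) hL1
  have hb0 := abs_nonneg b
  rw [show 2 * β / Real.log T = 2 * b by rw [hb]; ring, AC_shift,
    intervalIntegral.integral_of_le hT0.le, ← integral_indicator measurableSet_Ioc]
  set φ : ℝ → ℂ := fun t => fz k (t + b) * conj (fz k (t - b)) with hφ
  set hh : ℝ → ℝ := fun t => (‖fz k (t + b)‖ ^ 2 + ‖fz k (t - b)‖ ^ 2) / 2 with hhh
  have hhc : Continuous hh := by
    have h1 := (fz_cont k)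
    exact ((((h1.comp (continuous_add_const b)).norm).pow 2).add
      (((h1.comp (continuous_sub_right b)).norm).pow 2)).div_const 2
  have hh0 : ∀ t, 0 ≤ hh t := fun t => by simp only [hhh]; positivity
  have hφc : Continuous φ := ((fz_cont k).comp (continuous_add_const b)).mul
    (Complex.continuous_conj.comp ((fz_cont k).comp (continuous_sub_right b)))
  have hφi : Integrable ((Ioc 0 T).indicator φ) := by
    rw [integrable_indicator_iff measurableSet_Ioc]
    exact (hφc.integrableOn_Icc (a := 0) (b := T)).mono_set Ioc_subset_Icc_self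
  obtain ⟨M, hM⟩ := Ft_bounded k T
  have hFi : Integrable fun s : ℝ => Ft k T (s + b) * conj (Ft k T (s - b)) := by
    have h1 : Integrable fun s : ℝ => Ft k T (s + b) := (Ft_integrable k T).comp_add_right b
    have h2 : Integrable fun s : ℝ => Ft k T (s - b) := (Ft_integrable k T).comp_sub_right b
    refine h1.mul_bdd (c := M) ?_ (Eventually.of_forall fun s => ?_)
    · exact Complex.continuous_conj.comp_aestronglyMeasurable h2.aestronglyMeasurable
    · rw [RCLike.norm_conj]; exact hM _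
  rw [← integral_sub hφi hFi]
  have hind : ∀ a c : ℝ, Integrable ((Ioc a c).indicator hh) := by
    intro a c
    rw [integrable_indicator_iff measurableSet_Ioc]
    exact (hhc.integrableOn_Icc (a := a) (b := c)).mono_set Ioc_subset_Icc_self
  have hbd : ∀ s : ℝ, ‖(Ioc 0 T).indicator φ s - Ft k T (s + b) * conj (Ft k T (s - b))‖ ≤
      (Ioc 0 |b|).indicator hh s + (Ioc (T - |b|) T).indicator hh s := by
    intro s
    have n1 : 0 ≤ (Ioc 0 |b|).indicator hh s := indicator_nonneg (fun t _ => hh0 t) s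
    have n2 : 0 ≤ (Ioc (T - |b|) T).indicator hh s := indicator_nonneg (fun t _ => hh0 t) s
    have a1 := le_abs_self b
    have a2 := neg_abs_le b
    by_cases hS : s + b ∈ Ioc 0 T ∧ s - b ∈ Ioc 0 T
    · have hs : s ∈ Ioc 0 T := by
        obtain ⟨⟨p1, p2⟩, ⟨p3, p4⟩⟩ := hS
        exact ⟨by linarith, by linarith⟩
      unfold Ft
      rw [indicator_of_mem hs, indicator_of_mem hS.1, indicator_of_mem hS.2, sub_self, norm_zero]
      exact add_nonneg n1 n2
    · have hz : Ft k T (s + b) * conj (Ft k T (s - b)) = 0 := by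
        unfold Ft
        rw [not_and_or] at hS
        rcases hS with h | h
        · rw [indicator_of_notMem h, zero_mul]
        · rw [indicator_of_notMem h, map_zero, mul_zero]
      rw [hz, sub_zero]
      by_cases hs : s ∈ Ioc 0 T
      · rw [indicator_of_mem hs]
        have hle : ‖φ s‖ ≤ hh s := prod_le_half _ _
        by_cases hs1 : s ≤ |b|
        · rw [indicator_of_mem (show s ∈ Ioc 0 |b| from ⟨hs.1, hs1⟩)]
          linarith
        · have hs2 : T - |b| < s := by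
            by_contra hcon
            rw [not_lt] at hcon
            rw [not_le] at hs1
            exact hS ⟨⟨by linarith, by linarith⟩, ⟨by linarith, by linarith⟩⟩
          rw [indicator_of_mem (show s ∈ Ioc (T - |b|) T from ⟨hs2, hs.2⟩)]
          linarith
      · rw [indicator_of_notMem hs, norm_zero]
        exact add_nonneg n1 n2
  refine (norm_integral_le_of_norm_le ((hind 0 |b|).add (hind (T - |b|) T))
    (Eventually.of_forall hbd)).trans ?_
  have hint : ∀ a c : ℝ, a ≤ c → ∫ s, (Ioc a c).indicator hh s =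
      ((I2 k (c + b) - I2 k (a + b)) + (I2 k (c - b) - I2 k (a - b))) / 2 := by
    intro a c hac
    rw [integral_indicator measurableSet_Ioc, ← intervalIntegral.integral_of_le hac]
    simp only [hhh]
    have hi1 : IntervalIntegrable (fun t : ℝ => ‖fz k (t + b)‖ ^ 2) volume a c :=
      (((fz_cont k).comp (continuous_add_const b)).norm.pow 2).intervalIntegrable _ _
    have hi2 : IntervalIntegrable (fun t : ℝ => ‖fz k (t - b)‖ ^ 2) volume a c :=
      (((fz_cont k).comp (continuous_sub_right b)).norm.pow 2).intervalIntegrable _ _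
    rw [intervalIntegral.integral_div, intervalIntegral.integral_add hi1 hi2, I2_add]
    have h2 := I2_add k a c (-b)
    simp only [← sub_eq_add_neg] at h2
    rw [h2]
  have hsum : ∫ s, ((Ioc 0 |b|).indicator hh + (Ioc (T - |b|) T).indicator hh) s =
      (∫ s, (Ioc 0 |b|).indicator hh s) + ∫ s, (Ioc (T - |b|) T).indicator hh s :=
    integral_add (hind _ _) (hind _ _)
  rw [hsum, hint _ _ hb0, hint _ _ (by linarith)]
  have a1 := le_abs_self b
  have a2 := neg_abs_le b
  have m := I2_mono k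
  have c1 : I2 k (|b| + b) ≤ I2 k (2 * |β|) := m (by linarith)
  have c2 : I2 k (|b| - b) ≤ I2 k (2 * |β|) := m (by linarith)
  have c3 : I2 k (-|β|) ≤ I2 k (0 + b) := m (by linarith)
  have c4 : I2 k (-|β|) ≤ I2 k (0 - b) := m (by linarith)
  have c5 : I2 k (T + b) ≤ I2 k (T + |β|) := m (by linarith)
  have c6 : I2 k (T - b) ≤ I2 k (T + |β|) := m (by linarith)
  have c7 : I2 k (T - 2 * |β|) ≤ I2 k (T - |b| + b) := m (by linarith)
  have c8 : I2 k (T - 2 * |β|) ≤ I2 k (T - |b| - b) := m (by linarith)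
  linarith

end
end MP069854

namespace MP069854
open Filter Topology Complex Set MeasureTheory
open scoped ComplexConjugate ContDiff

section
variable {k : ℕ} {g : ℝ → ℂ} {A B : ℝ}

/-- normalised second moment -/
noncomputable def Jn (k : ℕ) (T : ℝ) : ℝ := (T * Real.log T ^ (k ^ 2))⁻¹ * I2 k T

lemma tlog_atTop (K : ℕ) : Tendsto (fun T : ℝ => T * Real.log T ^ K) atTop atTop := by
  refine tendsto_atTop_mono' atTop ?_ tendsto_id
  filter_upwards [eventually_ge_atTop (Real.exp 1)] with T hT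
  have hexp1 : (2:ℝ) ≤ Real.exp 1 := by have := Real.add_one_le_exp (1:ℝ); linarith
  have hT0 : 0 < T := by linarith
  have hL1 : 1 ≤ Real.log T := by rw [Real.le_log_iff_exp_le hT0]; exact hT
  exact le_mul_of_one_le_right hT0.le (one_le_pow₀ hL1)

lemma ratio_lim (K : ℕ) (s : ℝ) :
    Tendsto (fun T : ℝ => (T * Real.log T ^ K)⁻¹ * ((T + s) * Real.log (T + s) ^ K)) atTop (𝓝 1) := by
  have h1 : Tendsto (fun T : ℝ => 1 + s * T⁻¹) atTop (𝓝 1) := by
    have := ((tendsto_inv_atTop_zero (𝕜 := ℝ)).const_mul s).const_add 1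
    rwa [mul_zero, add_zero] at this
  have h2 : Tendsto (fun T : ℝ => Real.log (1 + s * T⁻¹)) atTop (𝓝 0) := by
    have := (Real.continuousAt_log (x := 1) one_ne_zero).tendsto.comp h1
    rwa [Real.log_one] at this
  have h3 : Tendsto (fun T : ℝ => 1 + Real.log (1 + s * T⁻¹) * (Real.log T)⁻¹) atTop (𝓝 1) := by
    have := (h2.mul (tendsto_inv_atTop_zero.comp Real.tendsto_log_atTop)).const_add 1
    rwa [mul_zero, add_zero] at this
  have h4 := h1.mul (h3.pow K)
  rw [one_pow, mul_one] at h4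
  refine h4.congr' ?_
  filter_upwards [eventually_gt_atTop (1:ℝ), h1.eventually (lt_mem_nhds (show (0:ℝ) < 1 by norm_num))]
    with T hT hs
  have hT0 : 0 < T := by linarith
  have hL := Real.log_pos hT
  have e1 : T + s = T * (1 + s * T⁻¹) := by field_simp
  rw [e1, Real.log_mul hT0.ne' hs.ne']
  have e2 : Real.log T + Real.log (1 + s * T⁻¹) =
    Real.log T * (1 + Real.log (1 + s * T⁻¹) * (Real.log T)⁻¹) := by
    field_simp
  rw [e2, mul_pow]
  field_simp

lemma slow {q : ℝ} (hJ : Tendsto (Jn k) atTop (𝓝 q)) (s : ℝ) :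
    Tendsto (fun T : ℝ => (T * Real.log T ^ (k ^ 2))⁻¹ * I2 k (T + s)) atTop (𝓝 q) := by
  have h1 := (ratio_lim (k ^ 2) s).mul (hJ.comp (tendsto_atTop_add_const_right atTop s tendsto_id))
  rw [one_mul] at h1
  refine h1.congr' ?_
  filter_upwards [eventually_gt_atTop (1 + |s|)] with T hT
  have h2 : 1 < T + s := by linarith [neg_abs_le s]
  have hL := Real.log_pos h2
  simp only [Function.comp, id, Jn]
  have : (T + s) * Real.log (T + s) ^ (k ^ 2) ≠ 0 := by positivity
  field_simp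

lemma growth {c : ℝ} (hJ : ∀ᶠ T : ℝ in atTop, Jn k T ≤ c) :
    ∃ C T0 : ℝ, 0 ≤ C ∧ Real.exp 1 ≤ T0 ∧ ∀ T, T0 ≤ T → ∀ s, 0 ≤ s →
      (T * Real.log T ^ (k ^ 2))⁻¹ * I2 k (T + s) ≤ C * (1 + s) ^ (k ^ 2 + 1) := by
  obtain ⟨T1, hT1⟩ := eventually_atTop.1 hJ
  refine ⟨|c|, max T1 (Real.exp 1), by positivity, le_max_right _ _, ?_⟩
  intro T hT s hs
  have hexp1 : (2:ℝ) ≤ Real.exp 1 := by have := Real.add_one_le_exp (1:ℝ); linarith
  have hTe : Real.exp 1 ≤ T := (le_max_right _ _).trans hT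
  have hT0 : 0 < T := by linarith
  have hL1 : 1 ≤ Real.log T := by rw [Real.le_log_iff_exp_le hT0]; exact hTe
  have h2 : Jn k (T + s) ≤ |c| := by
    have := hT1 (T + s) (by linarith [(le_max_left T1 (Real.exp 1)).trans hT])
    linarith [le_abs_self c]
  have hTs : 0 < T + s := by linarith
  have hL1s : 1 ≤ Real.log (T + s) := by
    rw [Real.le_log_iff_exp_le hTs]; linarith
  have h3 : I2 k (T + s) = (T + s) * Real.log (T + s) ^ (k ^ 2) * Jn k (T + s) := by
    unfold Jn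
    have : (T + s) * Real.log (T + s) ^ (k ^ 2) ≠ 0 := by positivity
    field_simp
  have hJ0 : 0 ≤ Jn k (T + s) := by
    unfold Jn
    have := I2_nonneg k hTs.le
    positivity
  have h4 : T + s ≤ T * (1 + s) := by nlinarith
  have h5 : Real.log (T + s) ≤ Real.log T * (1 + s) := by
    calc Real.log (T + s) ≤ Real.log (T * (1 + s)) := Real.log_le_log hTs h4
      _ = Real.log T + Real.log (1 + s) := Real.log_mul hT0.ne' (by linarith)
      _ ≤ Real.log T + s := by
        have := Real.log_le_sub_one_of_pos (show 0 < 1 + s by linarith)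
        linarith
      _ ≤ _ := by nlinarith
  rw [h3]
  calc (T * Real.log T ^ (k ^ 2))⁻¹ * ((T + s) * Real.log (T + s) ^ (k ^ 2) * Jn k (T + s))
      ≤ (T * Real.log T ^ (k ^ 2))⁻¹ * ((T * (1 + s)) * (Real.log T * (1 + s)) ^ (k ^ 2) * |c|) := by
        gcongr
    _ = _ := by
      rw [mul_pow]
      have : T ≠ 0 := hT0.ne'
      have h6 : Real.log T ^ (k ^ 2) ≠ 0 := by positivity
      field_simp
      ring

/-- the edge term -/
noncomputable def ED (k : ℕ) (β T : ℝ) : ℝ :=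
  (T * Real.log T ^ (k ^ 2))⁻¹ * (I2 k (T + |β|) - I2 k (T - 2 * |β|))

lemma ED_atTop {q : ℝ} (hJ : Tendsto (Jn k) atTop (𝓝 q)) (β : ℝ) :
    Tendsto (ED k β) atTop (𝓝 0) := by
  have h1 := slow hJ |β|
  have h2 := slow hJ (-(2 * |β|))
  have h4 := h1.sub h2
  rw [sub_self] at h4
  refine h4.congr fun T => ?_
  unfold ED
  rw [← sub_eq_add_neg]; ring

lemma RQ_point {ι : Type*} {l : Filter ι} {τ : ι → ℝ} (hτ : Tendsto τ l atTop) (β : ℝ)
    (hE : Tendsto (fun i => ED k β (τ i)) l (𝓝 0)) :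
    Tendsto (fun i => Qk k β (τ i) - RT k β (τ i)) l (𝓝 0) := by
  have h3 := ((tendsto_inv_atTop_zero.comp (tlog_atTop (k ^ 2))).mul_const
    (I2 k (2 * |β|) - I2 k (-|β|))).comp hτ
  have h4 := h3.add hE
  rw [zero_mul, add_zero] at h4
  refine squeeze_zero_norm' ?_ h4
  filter_upwards [hτ.eventually (eventually_ge_atTop (Real.exp 1))] with i hi
  refine (edge k β hi).trans (le_of_eq ?_)
  simp only [Function.comp, ED]
  ring

lemma one_add_pow_le {x : ℝ} (hx : 0 ≤ x) (n : ℕ) : (1 + x) ^ n ≤ 2 ^ n * (1 + x ^ n) := by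
  have h0 : 0 ≤ x ^ n := by positivity
  rcases le_total x 1 with h | h
  · calc (1 + x) ^ n ≤ 2 ^ n := pow_le_pow_left₀ (by linarith) (by linarith) n
      _ ≤ 2 ^ n * (1 + x ^ n) := le_mul_of_one_le_right (by positivity) (by linarith)
  · calc (1 + x) ^ n ≤ (2 * x) ^ n := pow_le_pow_left₀ (by linarith) (by linarith) n
      _ = 2 ^ n * x ^ n := mul_pow _ _ _
      _ ≤ 2 ^ n * (1 + x ^ n) := by gcongr; linarith

lemma G_poly (hg : TF g A B) (m : ℕ) :
    Integrable fun β : ℝ => ‖G g (β * I)‖ * (1 + |β|) ^ m := by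
  obtain ⟨C0, hC0, h0⟩ := TF.G_bound_right 0 hg
  obtain ⟨C2, hC2, h2⟩ := TF.G_bound_right (m + 2) hg
  refine Integrable.mono' (g := fun x => (2 ^ (m + 2) * (C0 + C2)) * (1 + x ^ 2)⁻¹)
    (integrable_inv_one_add_sq.const_mul _) ?_ ?_
  · exact ((G_line_cont hg).norm.mul (by fun_prop)).aestronglyMeasurable
  · refine Eventually.of_forall fun x => ?_
    have r0 := h0 (x * I) (by simp)
    have r2 := h2 (x * I) (by simp)
    have e1 : ‖(x : ℂ) * I‖ = |x| := by rw [norm_mul, norm_I, mul_one, norm_real, Real.norm_eq_abs]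
    have e2 : ((x : ℂ) * I).re = 0 := by simp
    rw [e1, e2, mul_zero, Real.exp_zero, mul_one] at r0 r2
    rw [pow_zero, one_mul] at r0
    rw [Real.norm_of_nonneg (by positivity), ← div_eq_mul_inv, le_div_iff₀ (by positivity)]
    have h3 := one_add_pow_le (abs_nonneg x) (m + 2)
    have h4 : 1 + x ^ 2 ≤ (1 + |x|) ^ 2 := by
      rw [← sq_abs x]; nlinarith [abs_nonneg x]
    have hn := norm_nonneg (G g (x * I))
    calc ‖G g (x * I)‖ * (1 + |x|) ^ m * (1 + x ^ 2) ≤ ‖G g (x * I)‖ * (1 + |x|) ^ m * (1 + |x|) ^ 2 := by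
          gcongr
      _ = ‖G g (x * I)‖ * (1 + |x|) ^ (m + 2) := by ring
      _ ≤ ‖G g (x * I)‖ * (2 ^ (m + 2) * (1 + |x| ^ (m + 2))) := by gcongr
      _ = 2 ^ (m + 2) * (‖G g (x * I)‖ + |x| ^ (m + 2) * ‖G g (x * I)‖) := by ring
      _ ≤ 2 ^ (m + 2) * (C0 + C2) := by gcongr

lemma RT_integrable (hg : TF g A B) {T : ℝ} (hT : 1 < T) :
    Integrable fun β : ℝ => G g (β * I) * RT k β T := by
  obtain ⟨M, hM⟩ := Ft_bounded k T
  obtain ⟨ρ, hρ0, hρi, hρ⟩ := bochner (Ft_integrable k T) hM (Ft_contAt k T)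
  have h1 := (AC_test hg (Real.log_pos hT) hρi hρ).1
  refine (h1.const_mul (((T * Real.log T ^ (k ^ 2) : ℝ) : ℂ)⁻¹)).congr
    (Eventually.of_forall fun β => ?_)
  simp only [RT]; ring

lemma RQ {ι : Type*} {l : Filter ι} [l.IsCountablyGenerated] {τ : ι → ℝ} (hτ : Tendsto τ l atTop)
    {c : ℝ} (hJ : ∀ᶠ T : ℝ in atTop, Jn k T ≤ c) (hE : ∀ β, Tendsto (fun i => ED k β (τ i)) l (𝓝 0))
    (hg : TF g A B) :
    Tendsto (fun i => (∫ β : ℝ, G g (β * I) * Qk k β (τ i)) - ∫ β : ℝ, G g (β * I) * RT k β (τ i))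
      l (𝓝 0) := by
  obtain ⟨C, T0, hC, hT0, hb⟩ := growth hJ
  have h1 : Tendsto (fun i => ∫ β : ℝ, G g (β * I) * (Qk k β (τ i) - RT k β (τ i))) l
      (𝓝 (∫ β : ℝ, (0:ℂ))) := by
    refine tendsto_integral_filter_of_dominated_convergence
      (fun β => 2 * C * (‖G g (β * I)‖ * (1 + |β|) ^ (k ^ 2 + 1))) ?_ ?_ ?_ ?_
    · filter_upwards [hτ.eventually (eventually_gt_atTop (1:ℝ))] with i hT
      refine ((Qk_integrable (k := k) hg hT).sub (RT_integrable (k := k) hg hT)).aestronglyMeasurable.congr ?_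
      exact Eventually.of_forall fun β => by simp only [Pi.sub_apply]; ring
    · filter_upwards [hτ.eventually (eventually_ge_atTop T0)] with i hT
      refine Eventually.of_forall fun β => ?_
      have e1 := (Qk_norm k β (hT0.trans hT)).trans (hb _ hT |β| (abs_nonneg β))
      have e2 : ‖RT k β (τ i)‖ ≤ C := by
        refine (RT_norm k β (hT0.trans hT)).trans ?_
        have := hb _ hT 0 le_rfl
        rwa [add_zero, add_zero, one_pow, mul_one] at this
      have e3 : C ≤ C * (1 + |β|) ^ (k ^ 2 + 1) :=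
        le_mul_of_one_le_right hC (one_le_pow₀ (by linarith [abs_nonneg β]))
      rw [norm_mul]
      calc ‖G g (β * I)‖ * ‖Qk k β (τ i) - RT k β (τ i)‖ ≤ ‖G g (β * I)‖ *
            (C * (1 + |β|) ^ (k ^ 2 + 1) + C * (1 + |β|) ^ (k ^ 2 + 1)) := by
            gcongr
            exact (norm_sub_le _ _).trans (add_le_add e1 (e2.trans e3))
        _ = _ := by ring
    · exact (G_poly hg _).const_mul _
    · refine Eventually.of_forall fun β => ?_
      have := (RQ_point hτ β (hE β)).const_mul (G g (β * I))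
      rwa [mul_zero] at this
  rw [integral_zero] at h1
  refine h1.congr' ?_
  filter_upwards [hτ.eventually (eventually_gt_atTop (1:ℝ))] with i hT
  rw [← integral_sub (Qk_integrable (k := k) hg hT) (RT_integrable (k := k) hg hT)]
  refine integral_congr_ae (Eventually.of_forall fun β => ?_)
  simp only; ring

/-- pointwise convergence implies averaged convergence -/
lemma point_imp {c : ℝ} (hJ : ∀ᶠ T : ℝ in atTop, Jn k T ≤ c) (hg : TF g A B) {V : ℝ → ℂ}
    (hV : ∀ β, Tendsto (fun T : ℝ => Qk k β T) atTop (𝓝 (V β))) :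
    Tendsto (fun T : ℝ => ∫ β : ℝ, G g (β * I) * Qk k β T) atTop
      (𝓝 (∫ β : ℝ, G g (β * I) * V β)) := by
  obtain ⟨C, T0, hC, hT0, hb⟩ := growth hJ
  refine tendsto_integral_filter_of_dominated_convergence
    (fun β => C * (‖G g (β * I)‖ * (1 + |β|) ^ (k ^ 2 + 1))) ?_ ?_ ?_ ?_
  · filter_upwards [eventually_gt_atTop (1:ℝ)] with T hT
    exact (Qk_integrable (k := k) hg hT).aestronglyMeasurable
  · filter_upwards [eventually_ge_atTop T0] with T hT
    refine Eventually.of_forall fun β => ?_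
    have e1 := (Qk_norm k β (hT0.trans hT)).trans (hb T hT |β| (abs_nonneg β))
    rw [norm_mul]
    calc ‖G g (β * I)‖ * ‖Qk k β T‖ ≤ ‖G g (β * I)‖ * (C * (1 + |β|) ^ (k ^ 2 + 1)) := by gcongr
      _ = _ := by ring
  · exact (G_poly hg _).const_mul _
  · exact Eventually.of_forall fun β => (hV β).const_mul _

end
end MP069854
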