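import Mathlib

section

namespace MP069854
open Filter Topology Complex Set
open scoped Nat

/-- a logarithm of `GammaSeq` -/
noncomputable def LG (n : ℕ) (s : ℂ) : ℂ :=
  s * Real.log n + Real.log (n !) - ∑ j ∈ Finset.range (n + 1), log (s + j)

lemma add_nat_re {s : ℂ} (hs : 0 < s.re) (j : ℕ) : 0 < (s + j).re := by
  simp only [add_re, natCast_re]; positivity

lemma add_nat_ne {s : ℂ} (hs : 0 < s.re) (j : ℕ) : s + j ≠ 0 := by
  intro h
  have := add_nat_re hs j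
  rw [h] at this
  simp at this

lemma exp_LG {n : ℕ} (hn : 1 ≤ n) {s : ℂ} (hs : 0 < s.re) : exp (LG n s) = GammaSeq s n := by
  unfold LG GammaSeq
  have hn0 : (n : ℂ) ≠ 0 := by exact_mod_cast (by omega : n ≠ 0)
  rw [exp_sub, exp_add, exp_sum]
  congr 1
  · congr 1
    · rw [cpow_def_of_ne_zero hn0, ← Complex.natCast_log, mul_comm]
    · rw [← Complex.ofReal_exp, Real.exp_log (by positivity)]
      simp
  · exact Finset.prod_congr rfl fun j _ => exp_log (add_nat_ne hs j)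

lemma hasDerivAt_LG (n : ℕ) {s : ℂ} (hs : 0 < s.re) :
    HasDerivAt (LG n) (Real.log n - ∑ j ∈ Finset.range (n + 1), (s + j)⁻¹) s := by
  unfold LG
  have h1 : HasDerivAt (fun s : ℂ => s * (Real.log n : ℂ) + (Real.log (n !) : ℂ)) (Real.log n : ℂ) s := by
    simpa using ((hasDerivAt_id s).mul_const (Real.log n : ℂ)).add_const (Real.log (n !) : ℂ)
  refine h1.sub ?_
  refine HasDerivAt.fun_sum fun j _ => ?_
  have h2 : HasDerivAt (fun s : ℂ => s + (j : ℂ)) 1 s := (hasDerivAt_id s).add_const _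
  have h3 := h2.clog (Or.inl (add_nat_re hs j))
  simpa [one_div] using h3

/-- `log (zw) = log z + log w` when both have positive real part -/
lemma log_mul_pos {z w : ℂ} (hz : 0 < z.re) (hw : 0 < w.re) : log (z * w) = log z + log w := by
  have hz0 : z ≠ 0 := by rintro rfl; simp at hz
  have hw0 : w ≠ 0 := by rintro rfl; simp at hw
  have a1 := abs_lt.1 (abs_arg_lt_pi_div_two_iff.2 (Or.inl hz))
  have a2 := abs_lt.1 (abs_arg_lt_pi_div_two_iff.2 (Or.inl hw))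
  exact log_mul hz0 hw0 ⟨by linarith [a1.1, a2.1], by linarith [a1.2, a2.2]⟩

lemma log_mul_I {z w : ℂ} (hz : 0 < z.im) (hz' : z.re = 0) (hw : 0 < w.re) :
    log (z * w) = log z + log w := by
  have hz0 : z ≠ 0 := by rintro rfl; simp at hz
  have hw0 : w ≠ 0 := by rintro rfl; simp at hw
  have a1 : arg z = Real.pi / 2 := arg_eq_pi_div_two_iff.2 ⟨hz', hz⟩
  have a2 := abs_lt.1 (abs_arg_lt_pi_div_two_iff.2 (Or.inl hw))
  exact log_mul hz0 hw0 ⟨by rw [a1]; linarith [a2.1, Real.pi_pos], by rw [a1]; linarith [a2.2]⟩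

lemma log_mul_negI {z w : ℂ} (hz : z.im < 0) (hz' : z.re = 0) (hw : 0 < w.re) :
    log (z * w) = log z + log w := by
  have hz0 : z ≠ 0 := by rintro rfl; simp at hz
  have hw0 : w ≠ 0 := by rintro rfl; simp at hw
  have a1 : arg z = -(Real.pi / 2) := arg_eq_neg_pi_div_two_iff.2 ⟨hz', hz⟩
  have a2 := abs_lt.1 (abs_arg_lt_pi_div_two_iff.2 (Or.inl hw))
  exact log_mul hz0 hw0 ⟨by rw [a1]; linarith [a2.1, Real.pi_pos], by rw [a1]; linarith [a2.2, Real.pi_pos]⟩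

lemma log_one_add_sub_le {z : ℂ} (hz : ‖z‖ ≤ 3/4) : ‖log (1 + z) - z‖ ≤ 2 * ‖z‖ ^ 2 := by
  have h := norm_log_one_add_sub_self_le (z := z) (by linarith)
  refine h.trans ?_
  have h1 : (1 - ‖z‖)⁻¹ ≤ 4 := by
    rw [inv_le_comm₀ (by linarith) (by norm_num)]; linarith
  have h2 : 0 ≤ ‖z‖ ^ 2 := by positivity
  calc ‖z‖ ^ 2 * (1 - ‖z‖)⁻¹ / 2 ≤ ‖z‖ ^ 2 * 4 / 2 := by gcongr
    _ = 2 * ‖z‖ ^ 2 := by ring

lemma sum_inv_bound {s : ℂ} (hs : 0 < s.re) (him : 2 ≤ |s.im|) (N : ℕ) :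
    ‖(∑ j ∈ Finset.range N, (s + j)⁻¹) - (log (s + N) - log s)‖ ≤
      4 * (1 / (|s.im| - 1) - 1 / (|s.im| - 1 + N)) := by
  set τ := |s.im| with hτ
  induction N with
  | zero => simp
  | succ N ih =>
    have hre := add_nat_re hs N
    have hne := add_nat_ne hs N
    have hN : (0:ℝ) ≤ N := Nat.cast_nonneg N
    have hnorm : τ ≤ ‖s + N‖ := by
      have := abs_im_le_norm (s + N)
      simpa [hτ] using this
    have hnsq : (N:ℝ) ^ 2 + τ ^ 2 ≤ ‖s + N‖ ^ 2 := by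
      have h1 : ‖s + N‖ ^ 2 = (s.re + N) ^ 2 + s.im ^ 2 := by
        rw [Complex.sq_norm, normSq_apply]; simp; ring
      rw [h1, hτ, sq_abs]
      nlinarith
    have hinv : ‖(s + N)⁻¹‖ ≤ 1/2 := by
      rw [norm_inv, inv_le_comm₀ (by linarith) (by norm_num)]; linarith
    have hstep : log (s + (N + 1 : ℕ)) = log (s + N) + log (1 + (s + N)⁻¹) := by
      rw [← log_mul_pos hre]
      · congr 1
        rw [mul_add, mul_one, mul_inv_cancel₀ hne]; push_cast; ring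
      · rw [add_re, one_re]
        have := (abs_le.1 ((abs_re_le_norm (s + N)⁻¹).trans hinv)).1
        linarith
    have h2 : ‖log (1 + (s + N)⁻¹) - (s + N)⁻¹‖ ≤
        4 * (1 / (τ - 1 + N) - 1 / (τ - 1 + (N + 1 : ℕ))) := by
      refine (log_one_add_sub_le (hinv.trans (by norm_num))).trans ?_
      rw [norm_inv, inv_pow]
      have e1 : 1 / (τ - 1 + N) - 1 / (τ - 1 + (N + 1 : ℕ)) = 1 / ((τ - 1 + N) * (τ + N)) := by
        have : τ - 1 + N ≠ 0 := by linarith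
        have : τ + N ≠ 0 := by linarith
        push_cast
        rw [show τ - 1 + ((N:ℝ) + 1) = τ + N by ring]
        field_simp
        ring
      rw [e1]
      have e2 : (‖s + N‖ ^ 2)⁻¹ ≤ 2 * (1 / ((τ - 1 + N) * (τ + N))) := by
        rw [inv_eq_one_div, mul_one_div, div_le_div_iff₀ (by nlinarith) (by nlinarith)]
        nlinarith [sq_nonneg ((N:ℝ) - τ)]
      linarith
    have e3 : (∑ j ∈ Finset.range (N + 1), (s + j)⁻¹) - (log (s + (N + 1 : ℕ)) - log s) =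
        ((∑ j ∈ Finset.range N, (s + j)⁻¹) - (log (s + N) - log s)) -
          (log (1 + (s + N)⁻¹) - (s + N)⁻¹) := by
      rw [Finset.sum_range_succ, hstep]; ring
    rw [e3]
    refine (norm_sub_le _ _).trans ?_
    linarith

lemma sum_inv_bound' {s : ℂ} (hs : 0 < s.re) (him : 2 ≤ |s.im|) (N : ℕ) :
    ‖(∑ j ∈ Finset.range N, (s + j)⁻¹) - (log (s + N) - log s)‖ ≤ 8 / |s.im| := by
  refine (sum_inv_bound hs him N).trans ?_
  have hN : (0:ℝ) ≤ N := Nat.cast_nonneg N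
  have h1 : 0 ≤ 1 / (|s.im| - 1 + N) := by
    apply div_nonneg zero_le_one; linarith
  have h2 : 1 / (|s.im| - 1) ≤ 2 / |s.im| := by
    rw [div_le_div_iff₀ (by linarith) (by linarith)]; linarith
  have h3 : 8 / |s.im| = 4 * (2 / |s.im|) := by ring
  rw [h3]; linarith

/-- the comparison function -/
noncomputable def HG (n : ℕ) (t : ℝ) (w : ℂ) : ℂ :=
  LG n (w + t * I) + LG n (w - t * I) - 2 * w * Real.log t

lemma sum_logs {t : ℝ} (ht : 8 ≤ t) {w : ℂ} (h1 : 0 < w.re) (h2 : w.re ≤ 2) (h3 : 2 * |w.im| ≤ t) :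
    ‖log (w + t * I) + log (w - t * I) - 2 * Real.log t‖ ≤ 4 * (2 + |w.im|) ^ 2 / t ^ 2 := by
  have ht0 : (0:ℝ) < t := by linarith
  have htc : (t : ℂ) ≠ 0 := by exact_mod_cast ht0.ne'
  set z : ℂ := -(I * w / t) with hz
  have hzn : ‖z‖ = ‖w‖ / t := by
    rw [hz, norm_neg, norm_div, norm_mul, norm_I, one_mul, Complex.norm_real, Real.norm_eq_abs,
      abs_of_pos ht0]
  have hw : ‖w‖ ≤ 2 + |w.im| := by
    have := Complex.norm_le_abs_re_add_abs_im w
    rw [abs_of_pos h1] at this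
    linarith
  have hz34 : ‖z‖ ≤ 3/4 := by
    rw [hzn, div_le_iff₀ ht0]; linarith
  have hre1 : 0 < (1 + z).re := by
    have := (abs_le.1 ((abs_re_le_norm z).trans hz34)).1
    rw [add_re, one_re]; linarith
  have hre2 : 0 < (1 + -z).re := by
    have := (abs_le.1 ((abs_re_le_norm z).trans hz34)).2
    rw [add_re, one_re, neg_re]; linarith
  have e1 : w + t * I = (t * I) * (1 + z) := by
    rw [hz]; field_simp
    linear_combination w * I_mul_I
  have e2 : w - t * I = (-(t * I)) * (1 + -z) := by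
    rw [hz]; field_simp
    linear_combination w * I_mul_I
  have l1 : log (w + t * I) = log (t * I) + log (1 + z) := by
    rw [e1]; exact log_mul_I (by simpa using ht0) (by simp) hre1
  have l2 : log (w - t * I) = log (-(t * I)) + log (1 + -z) := by
    rw [e2]; exact log_mul_negI (by simpa using ht0) (by simp) hre2
  have l3 : log (t * I) = Real.log t + Real.pi / 2 * I := by
    rw [log_ofReal_mul ht0 I_ne_zero, log_I]
  have l4 : log (-(t * I)) = Real.log t - Real.pi / 2 * I := by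
    rw [show -((t:ℂ) * I) = t * (-I) by ring, log_ofReal_mul ht0 (by simp), log_neg_I]
    ring
  have e3 : log (w + t * I) + log (w - t * I) - 2 * Real.log t =
      (log (1 + z) - z) + (log (1 + -z) - -z) := by
    rw [l1, l2, l3, l4]; ring
  rw [e3]
  refine (norm_add_le _ _).trans ?_
  have b1 := log_one_add_sub_le hz34
  have b2 := log_one_add_sub_le (z := -z) (by rwa [norm_neg])
  rw [norm_neg] at b2
  have b3 : ‖z‖ ^ 2 ≤ (2 + |w.im|) ^ 2 / t ^ 2 := by
    rw [hzn, div_pow]; gcongr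
  calc _ ≤ 4 * ‖z‖ ^ 2 := by linarith
    _ ≤ 4 * ((2 + |w.im|) ^ 2 / t ^ 2) := by gcongr
    _ = _ := by ring

end MP069854

end

section

namespace MP069854
open Filter Topology Complex Set
open scoped Nat

lemma log_add_nat_sub {n : ℕ} (hn1 : 1 ≤ n) {z : ℂ} (hn : 2 * ‖z‖ ≤ n) :
    ‖log (z + n) - Real.log n‖ ≤ 2 * ‖z‖ / n := by
  have hn0 : (0:ℝ) < n := by exact_mod_cast hn1
  have hnc : (n : ℂ) ≠ 0 := by exact_mod_cast hn0.ne'
  have hz : ‖z / n‖ ≤ 1/2 := by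
    rw [norm_div, Complex.norm_natCast, div_le_iff₀ hn0]; linarith
  have hne : 1 + z / n ≠ 0 := by
    intro h
    have h1 : z / n = -1 := by linear_combination h
    rw [h1, norm_neg, norm_one] at hz
    norm_num at hz
  have e1 : z + n = ((n : ℝ) : ℂ) * (1 + z / n) := by
    push_cast; field_simp; ring
  rw [e1, log_ofReal_mul hn0 hne, add_sub_cancel_left]
  refine (norm_log_one_add_half_le_self hz).trans ?_
  rw [norm_div, Complex.norm_natCast]
  have : 0 ≤ ‖z‖ / n := by positivity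
  calc 3 / 2 * (‖z‖ / n) ≤ 2 * (‖z‖ / n) := by linarith
    _ = _ := by ring

lemma hasDerivAt_HG (n : ℕ) (t : ℝ) {w : ℂ} (hw : 0 < w.re) :
    HasDerivAt (HG n t) ((Real.log n - ∑ j ∈ Finset.range (n + 1), (w + t * I + j)⁻¹) +
      (Real.log n - ∑ j ∈ Finset.range (n + 1), (w - t * I + j)⁻¹) - 2 * Real.log t) w := by
  unfold HG
  have h1 : HasDerivAt (fun w : ℂ => w + t * I) 1 w := (hasDerivAt_id w).add_const _
  have h2 : HasDerivAt (fun w : ℂ => w - t * I) 1 w := (hasDerivAt_id w).sub_const _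
  have h3 : HasDerivAt (fun w : ℂ => 2 * w * (Real.log t : ℂ)) (2 * (Real.log t : ℂ)) w := by
    have := ((hasDerivAt_id w).const_mul (2:ℂ)).mul_const (Real.log t : ℂ)
    simpa using this
  have h4 := (hasDerivAt_LG n (s := w + t * I) (by simpa using hw)).comp w h1
  have h5 := (hasDerivAt_LG n (s := w - t * I) (by simpa using hw)).comp w h2
  rw [mul_one] at h4 h5
  exact (h4.add h5).sub h3

lemma HG_deriv_bound {n : ℕ} {t : ℝ} (ht : 8 ≤ t) (hn : 2 * (3 + 2 * t) ≤ n) {w : ℂ}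
    (h1 : 0 < w.re) (h2 : w.re ≤ 2) (h3 : 2 * |w.im| ≤ t) :
    ‖(Real.log n - ∑ j ∈ Finset.range (n + 1), (w + t * I + j)⁻¹) +
      (Real.log n - ∑ j ∈ Finset.range (n + 1), (w - t * I + j)⁻¹) - 2 * Real.log t‖ ≤
      32 / t + 4 * (2 + |w.im|) ^ 2 / t ^ 2 + 4 * (3 + 2 * t) / n := by
  have ht0 : (0:ℝ) < t := by linarith
  have hn0 : (0:ℝ) < n := by linarith
  have hn1 : 1 ≤ n := by
    have : (0:ℝ) < n := hn0
    exact_mod_cast this
  have hwn : ‖w‖ ≤ 2 + |w.im| := by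
    have := Complex.norm_le_abs_re_add_abs_im w
    rw [abs_of_pos h1] at this
    linarith
  have htn : ‖(t : ℂ) * I‖ = t := by simp [abs_of_pos ht0]
  have key : ∀ s : ℂ, 0 < s.re → t / 2 ≤ |s.im| → ‖s + 1‖ ≤ 3 + 2 * t →
      ‖(Real.log n - ∑ j ∈ Finset.range (n + 1), (s + j)⁻¹) - log s‖ ≤
        16 / t + 2 * (3 + 2 * t) / n := by
    intro s hs him hs1
    have a1 := sum_inv_bound' hs (by linarith) (n + 1)
    have a2 := log_add_nat_sub hn1 (z := s + 1) (by linarith)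
    have e1 : s + (n + 1 : ℕ) = s + 1 + n := by push_cast; ring
    rw [e1] at a1
    have e2 : (Real.log n - ∑ j ∈ Finset.range (n + 1), (s + j)⁻¹) - log s =
        -((∑ j ∈ Finset.range (n + 1), (s + j)⁻¹) - (log (s + 1 + n) - log s)) -
          (log (s + 1 + n) - Real.log n) := by ring
    rw [e2]
    refine (norm_sub_le _ _).trans ?_
    rw [norm_neg]
    have a3 : 8 / |s.im| ≤ 16 / t := by
      rw [div_le_div_iff₀ (by linarith) ht0]; linarith
    have a4 : 2 * ‖s + 1‖ / n ≤ 2 * (3 + 2 * t) / n := by gcongr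
    linarith
  have ab := abs_le.1 (le_refl |w.im|)
  have k1 := key (w + t * I) (by simpa using h1) (by
    have : (w + t * I).im = w.im + t := by simp
    rw [this]
    refine le_trans ?_ (le_abs_self _); linarith [ab.1]) (by
    refine (norm_add_le _ _).trans ?_
    rw [norm_one]
    have := norm_add_le w (t * I)
    rw [htn] at this; linarith)
  have k2 := key (w - t * I) (by simpa using h1) (by
    have : (w - t * I).im = w.im - t := by simp
    rw [this]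
    refine le_trans ?_ (neg_le_abs _); linarith [ab.2]) (by
    refine (norm_add_le _ _).trans ?_
    rw [norm_one]
    have := norm_sub_le w (t * I)
    rw [htn] at this; linarith)
  have k3 := sum_logs ht h1 h2 h3
  set X := (Real.log n : ℂ) - ∑ j ∈ Finset.range (n + 1), (w + t * I + j)⁻¹
  set Y := (Real.log n : ℂ) - ∑ j ∈ Finset.range (n + 1), (w - t * I + j)⁻¹
  have e : X + Y - 2 * Real.log t = (X - log (w + t * I)) + (Y - log (w - t * I)) +
    (log (w + t * I) + log (w - t * I) - 2 * Real.log t) := by ring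
  rw [e]
  refine (norm_add_le _ _).trans ?_
  have k4 := norm_add_le (X - log (w + t * I)) (Y - log (w - t * I))
  have e5 : 32 / t + 4 * (2 + |w.im|) ^ 2 / t ^ 2 + 4 * (3 + 2 * t) / n =
    (16 / t + 2 * (3 + 2 * t) / n) + (16 / t + 2 * (3 + 2 * t) / n) + 4 * (2 + |w.im|) ^ 2 / t ^ 2 := by
    ring
  rw [e5]
  linarith

lemma HG_diff {n : ℕ} {t : ℝ} (ht : 8 ≤ t) (hn : 2 * (3 + 2 * t) ≤ n) {w w' : ℂ} {y : ℝ}
    (h1 : 1/2 ≤ w.re) (h2 : w.re ≤ 2) (h3 : |w.im| ≤ y) (h1' : 1/2 ≤ w'.re) (h2' : w'.re ≤ 2)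
    (h3' : |w'.im| ≤ y) (hy : 2 * y ≤ t) :
    ‖HG n t w - HG n t w'‖ ≤
      (32 / t + 4 * (2 + y) ^ 2 / t ^ 2 + 4 * (3 + 2 * t) / n) * ‖w - w'‖ := by
  let S : Set ℂ := Icc (1/2) 2 ×ℂ Icc (-y) y
  have hS : Convex ℝ S :=
    ((convex_Icc (1/2:ℝ) 2).is_linear_preimage (f := fun z : ℂ => z.re) reLm.isLinear).inter
      ((convex_Icc (-y) y).is_linear_preimage (f := fun z : ℂ => z.im) imLm.isLinear)
  have hw : w ∈ S := by
    rw [mem_reProdIm]; exact ⟨⟨h1, h2⟩, abs_le.1 h3⟩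
  have hw' : w' ∈ S := by
    rw [mem_reProdIm]; exact ⟨⟨h1', h2'⟩, abs_le.1 h3'⟩
  refine hS.norm_image_sub_le_of_norm_hasDerivWithin_le (f := HG n t) (f' := fun w : ℂ =>
    (Real.log n - ∑ j ∈ Finset.range (n + 1), (w + t * I + j)⁻¹) +
      (Real.log n - ∑ j ∈ Finset.range (n + 1), (w - t * I + j)⁻¹) - 2 * Real.log t) ?_ ?_ hw' hw
  · intro z hz
    rw [mem_reProdIm] at hz
    exact (hasDerivAt_HG n t (by linarith [hz.1.1])).hasDerivWithinAt
  · intro z hz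
    rw [mem_reProdIm] at hz
    have hzi : |z.im| ≤ y := abs_le.2 hz.2
    refine (HG_deriv_bound ht hn (by linarith [hz.1.1]) hz.1.2 (by linarith)).trans ?_
    gcongr

/-- normalised ratio of Gamma products -/
noncomputable def rr (t : ℝ) (w w' : ℂ) : ℂ :=
  Gamma (w + t * I) * Gamma (w - t * I) / (Gamma (w' + t * I) * Gamma (w' - t * I)) *
    exp (-(2 * (w - w') * Real.log t))

lemma rr_tendsto (t : ℝ) {w w' : ℂ} (hw : 0 < w.re) (hw' : 0 < w'.re) :
    Tendsto (fun n : ℕ => exp (HG n t w - HG n t w')) atTop (𝓝 (rr t w w')) := by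
  have g1 := GammaSeq_tendsto_Gamma (w + t * I)
  have g2 := GammaSeq_tendsto_Gamma (w - t * I)
  have g3 := GammaSeq_tendsto_Gamma (w' + t * I)
  have g4 := GammaSeq_tendsto_Gamma (w' - t * I)
  have n3 : Gamma (w' + t * I) ≠ 0 := Gamma_ne_zero_of_re_pos (by simpa using hw')
  have n4 : Gamma (w' - t * I) ≠ 0 := Gamma_ne_zero_of_re_pos (by simpa using hw')
  have h := (((g1.mul g2).div (g3.mul g4) (mul_ne_zero n3 n4)).mul_const
    (exp (-(2 * (w - w') * Real.log t))))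
  refine h.congr' ?_
  filter_upwards [eventually_ge_atTop 1] with n hn
  simp only [Pi.div_apply]
  rw [← exp_LG hn (s := w + t * I) (by simpa using hw), ← exp_LG hn (s := w - t * I) (by simpa using hw),
    ← exp_LG hn (s := w' + t * I) (by simpa using hw'), ← exp_LG hn (s := w' - t * I) (by simpa using hw'),
    ← exp_add, ← exp_add, ← exp_sub, ← exp_add]
  congr 1
  unfold HG
  ring

/-- the modulus of continuity bound -/
lemma HG_limsup {t : ℝ} (ht : 8 ≤ t) {w w' : ℂ} {y : ℝ}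
    (h1 : 1/2 ≤ w.re) (h2 : w.re ≤ 2) (h3 : |w.im| ≤ y) (h1' : 1/2 ≤ w'.re) (h2' : w'.re ≤ 2)
    (h3' : |w'.im| ≤ y) (hy : 2 * y ≤ t) {M : ℝ}
    (hM : (32 / t + 4 * (2 + y) ^ 2 / t ^ 2) * ‖w - w'‖ < M) :
    ∀ᶠ n : ℕ in atTop, ‖HG n t w - HG n t w'‖ ≤ M := by
  have hlim : Tendsto (fun n : ℕ => (32 / t + 4 * (2 + y) ^ 2 / t ^ 2 + 4 * (3 + 2 * t) / n) * ‖w - w'‖)
      atTop (𝓝 ((32 / t + 4 * (2 + y) ^ 2 / t ^ 2 + 0) * ‖w - w'‖)) := by
    refine Tendsto.mul_const _ (Tendsto.const_add _ ?_)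
    exact tendsto_const_div_atTop_nhds_zero_nat _
  rw [add_zero] at hlim
  have hev := hlim.eventually (gt_mem_nhds hM)
  have hev2 : ∀ᶠ n : ℕ in atTop, 2 * (3 + 2 * t) ≤ (n : ℝ) :=
    tendsto_natCast_atTop_atTop.eventually (eventually_ge_atTop _)
  filter_upwards [hev, hev2] with n hn1 hn2
  exact (HG_diff ht hn2 h1 h2 h3 h1' h2' h3' hy).trans hn1.le

lemma rr_norm {t : ℝ} (ht : 8 ≤ t) {w w' : ℂ} {y : ℝ}
    (h1 : 1/2 ≤ w.re) (h2 : w.re ≤ 2) (h3 : |w.im| ≤ y) (h1' : 1/2 ≤ w'.re) (h2' : w'.re ≤ 2)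
    (h3' : |w'.im| ≤ y) (hy : 2 * y ≤ t) {M : ℝ}
    (hM : (32 / t + 4 * (2 + y) ^ 2 / t ^ 2) * ‖w - w'‖ < M) :
    ‖rr t w w'‖ ≤ Real.exp M := by
  refine le_of_tendsto (rr_tendsto t (by linarith) (by linarith)).norm ?_
  filter_upwards [HG_limsup ht h1 h2 h3 h1' h2' h3' hy hM] with n hn
  rw [Complex.norm_exp]
  exact Real.exp_le_exp.2 ((Complex.re_le_norm _).trans hn)

lemma rr_sub_one {t : ℝ} (ht : 8 ≤ t) {w w' : ℂ} {y : ℝ}
    (h1 : 1/2 ≤ w.re) (h2 : w.re ≤ 2) (h3 : |w.im| ≤ y) (h1' : 1/2 ≤ w'.re) (h2' : w'.re ≤ 2)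
    (h3' : |w'.im| ≤ y) (hy : 2 * y ≤ t) {M : ℝ} (hM1 : M ≤ 1)
    (hM : (32 / t + 4 * (2 + y) ^ 2 / t ^ 2) * ‖w - w'‖ < M) :
    ‖rr t w w' - 1‖ ≤ 2 * M := by
  refine le_of_tendsto ((rr_tendsto t (by linarith) (by linarith)).sub_const 1).norm ?_
  filter_upwards [HG_limsup ht h1 h2 h3 h1' h2' h3' hy hM] with n hn
  refine (norm_exp_sub_one_le (hn.trans hM1)).trans ?_
  linarith

end MP069854

end
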