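import Mathlib

section

namespace MP069854
open Filter Topology Real Finset

/-- `d_k(n)`: the number of ways of writing `n` as an ordered product of `k` positive integers. -/
def dk (k n : ℕ) : ℕ := (Nat.finMulAntidiag k n).card

lemma dk_zero_right (k : ℕ) : dk k 0 = 0 := by simp [dk]

lemma dk_succ (k n : ℕ) : dk (k + 1) n = ∑ x ∈ n.divisorsAntidiagonal, dk k x.2 := by
  classical
  unfold dk
  rw [← card_sigma]
  refine card_bij' (fun f _ => (⟨(f 0, ∏ i : Fin k, f i.succ), Fin.tail f⟩ : Σ _ : ℕ × ℕ, Fin k → ℕ))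
    (fun x _ => Fin.cons x.1.1 x.2) ?_ ?_ ?_ ?_
  · intro f hf
    rw [Nat.mem_finMulAntidiag] at hf
    rw [mem_sigma]
    constructor
    · rw [Nat.mem_divisorsAntidiagonal]
      refine ⟨?_, hf.2⟩
      rw [← hf.1, Fin.prod_univ_succ]
    · rw [Nat.mem_finMulAntidiag]
      refine ⟨rfl, ?_⟩
      intro h0
      apply hf.2
      have h0' : ∏ i : Fin k, f i.succ = 0 := h0
      rw [← hf.1, Fin.prod_univ_succ, h0', mul_zero]
  · intro x hx
    rw [mem_sigma, Nat.mem_divisorsAntidiagonal, Nat.mem_finMulAntidiag] at hx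
    rw [Nat.mem_finMulAntidiag]
    refine ⟨?_, hx.1.2⟩
    rw [Fin.prod_univ_succ]
    simp only [Fin.cons_zero, Fin.cons_succ]
    rw [hx.2.1, hx.1.1]
  · intro f hf
    simp
  · intro x hx
    rw [mem_sigma, Nat.mem_divisorsAntidiagonal, Nat.mem_finMulAntidiag] at hx
    obtain ⟨⟨a, b⟩, f⟩ := x
    simp only [Fin.cons_zero, Fin.cons_succ, Fin.tail_cons]
    simp only at hx
    rw [hx.2.1]

lemma dk_eq_zeta_pow (k n : ℕ) : dk k n = (ArithmeticFunction.zeta ^ k) n := by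
  induction k generalizing n with
  | zero =>
    rw [pow_zero]
    rcases eq_or_ne n 1 with rfl | h
    · simp [dk, Nat.finMulAntidiag_one]
    · rw [ArithmeticFunction.one_apply_ne h]
      rcases eq_or_ne n 0 with rfl | h0
      · simp [dk]
      · simp [dk, Nat.finMulAntidiag_zero_left h]
  | succ k ih =>
    rw [dk_succ, pow_succ', ArithmeticFunction.mul_apply]
    refine sum_congr rfl ?_
    intro x hx
    rw [ih]
    have : x.1 ≠ 0 := by
      have := Nat.fst_mem_divisors_of_mem_antidiagonal hx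
      exact (Nat.pos_of_mem_divisors this).ne'
    rw [ArithmeticFunction.zeta_apply_ne this, one_mul]

lemma dk_one_right (k : ℕ) : dk k 1 = 1 := by simp [dk, Nat.finMulAntidiag_one]

lemma dk_mul_coprime (k : ℕ) {m n : ℕ} (h : m.Coprime n) : dk k (m * n) = dk k m * dk k n := by
  rw [dk_eq_zeta_pow, dk_eq_zeta_pow, dk_eq_zeta_pow]
  exact (ArithmeticFunction.isMultiplicative_zeta.pow).map_mul_of_coprime h

lemma dk_prime_pow {p : ℕ} (hp : p.Prime) (k m : ℕ) : dk k (p ^ m) = k.multichoose m := by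
  induction k generalizing m with
  | zero =>
    cases m with
    | zero => simp [dk_one_right]
    | succ m =>
      rw [Nat.multichoose_zero_succ]
      unfold dk
      rw [Nat.finMulAntidiag_zero_left, card_empty]
      exact (Nat.one_lt_pow (Nat.succ_ne_zero m) hp.one_lt).ne'
  | succ k ih =>
    rw [dk_succ]
    have h1 : ∑ x ∈ (p ^ m).divisorsAntidiagonal, dk k x.2 = ∑ i ∈ range (m + 1), k.multichoose i := by
      rw [Nat.sum_divisorsAntidiagonal' (fun _ b => dk k b), Nat.sum_divisors_prime_pow hp]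
      exact sum_congr rfl fun i _ => ih i
    rw [h1]
    induction m with
    | zero => simp
    | succ m ihm =>
      rw [sum_range_succ, ihm, Nat.multichoose_succ_succ]
      · ring
      · rw [Nat.sum_divisorsAntidiagonal' (fun _ b => dk k b), Nat.sum_divisors_prime_pow hp]
        exact sum_congr rfl fun i _ => ih i

lemma multichoose_le (k m : ℕ) : k.multichoose m ≤ (m + 1) ^ k := by
  induction k generalizing m with
  | zero => cases m <;> simp
  | succ k ih =>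
    induction m with
    | zero => simp
    | succ m ihm =>
      rw [Nat.multichoose_succ_succ]
      have h1 := ih (m + 1)
      have h2 : (m + 1) ^ (k + 1) ≤ (m + 1 + 1) ^ k * (m + 1) := by
        rw [pow_succ]
        exact Nat.mul_le_mul_right _ (Nat.pow_le_pow_left (by omega) _)
      calc k.multichoose (m + 1) + (k + 1).multichoose m
          ≤ (m + 1 + 1) ^ k + (m + 1 + 1) ^ k * (m + 1) := by omega
        _ = (m + 1 + 1) ^ (k + 1) := by ring

/-- The local series `∑ d_k(p^m)^2 x^m`. -/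
noncomputable def S (k : ℕ) (x : ℝ) : ℝ := ∑' m : ℕ, (k.multichoose m : ℝ) ^ 2 * x ^ m

lemma S_summable (k : ℕ) {x : ℝ} (hx0 : 0 ≤ x) (hx : x ≤ 1 / 2) :
    Summable fun m : ℕ => (k.multichoose m : ℝ) ^ 2 * x ^ m := by
  have h1 : Summable fun m : ℕ => ((m + 1 : ℕ) : ℝ) ^ (2 * k) * (1 / 2 : ℝ) ^ (m + 1) :=
    (summable_nat_add_iff (f := fun m : ℕ => (m : ℝ) ^ (2 * k) * (1 / 2 : ℝ) ^ m) 1).2
      (summable_pow_mul_geometric_of_norm_lt_one (2 * k) (r := (1/2 : ℝ)) (by norm_num))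
  refine Summable.of_nonneg_of_le (fun m => by positivity) ?_ (h1.mul_left 2)
  intro m
  have h2 : (k.multichoose m : ℝ) ≤ ((m + 1 : ℕ) : ℝ) ^ k := by exact_mod_cast multichoose_le k m
  have h3 : x ^ m ≤ (1/2 : ℝ) ^ m := pow_le_pow_left₀ hx0 hx m
  calc (k.multichoose m : ℝ) ^ 2 * x ^ m ≤ (((m + 1 : ℕ) : ℝ) ^ k) ^ 2 * (1/2) ^ m := by gcongr
    _ = 2 * (((m + 1 : ℕ) : ℝ) ^ (2 * k) * (1 / 2 : ℝ) ^ (m + 1)) := by
      rw [← pow_mul, mul_comm k 2, pow_succ]; ring

/-- The tail of the local series. -/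
noncomputable def R (k : ℕ) (x : ℝ) : ℝ := ∑' m : ℕ, (k.multichoose (m + 2) : ℝ) ^ 2 * x ^ m

lemma R_summable (k : ℕ) {x : ℝ} (hx0 : 0 ≤ x) (hx : x ≤ 1 / 2) :
    Summable fun m : ℕ => (k.multichoose (m + 2) : ℝ) ^ 2 * x ^ m := by
  have h1 : Summable fun m : ℕ => (k.multichoose (m + 2) : ℝ) ^ 2 * (1/2 : ℝ) ^ (m + 2) :=
    (summable_nat_add_iff (f := fun m : ℕ => (k.multichoose m : ℝ) ^ 2 * (1 / 2 : ℝ) ^ m) 2).2
      (S_summable k (x := 1/2) (by norm_num) le_rfl)
  refine Summable.of_nonneg_of_le (fun m => by positivity) ?_ (h1.mul_left 4)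
  intro m
  have h3 : x ^ m ≤ (1/2 : ℝ) ^ m := pow_le_pow_left₀ hx0 hx m
  calc (k.multichoose (m + 2) : ℝ) ^ 2 * x ^ m ≤ (k.multichoose (m + 2) : ℝ) ^ 2 * (1/2) ^ m := by
        gcongr
    _ = 4 * ((k.multichoose (m + 2) : ℝ) ^ 2 * (1/2 : ℝ) ^ (m + 2)) := by
      rw [pow_add]; ring

lemma S_eq (k : ℕ) {x : ℝ} (hx0 : 0 ≤ x) (hx : x ≤ 1 / 2) :
    S k x = 1 + (k : ℝ) ^ 2 * x + x ^ 2 * R k x := by
  have h := (S_summable k hx0 hx).sum_add_tsum_nat_add 2
  unfold S R
  rw [← h, sum_range_succ, sum_range_one, ← tsum_mul_left]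
  have h0 : (k.multichoose 0 : ℝ) = 1 := by simp
  have h1 : (k.multichoose 1 : ℝ) = k := by simp
  rw [h0, h1]
  congr 1
  · ring
  · refine tsum_congr fun m => ?_
    rw [pow_add]; ring

lemma R_nonneg (k : ℕ) {x : ℝ} (hx0 : 0 ≤ x) : 0 ≤ R k x :=
  tsum_nonneg fun m => by positivity

lemma R_le (k : ℕ) {x : ℝ} (hx0 : 0 ≤ x) (hx : x ≤ 1 / 2) : R k x ≤ R k (1/2) := by
  refine Summable.tsum_le_tsum ?_ (R_summable k hx0 hx) (R_summable k (by norm_num) le_rfl)
  intro m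
  have h3 : x ^ m ≤ (1/2 : ℝ) ^ m := pow_le_pow_left₀ hx0 hx m
  gcongr

/-- The local factor `(1-x)^(k^2) S(x)`. -/
noncomputable def H (k : ℕ) (x : ℝ) : ℝ := (1 - x) ^ (k ^ 2) * S k x

lemma one_sub_pow_bounds (K : ℕ) {x : ℝ} (hx0 : 0 ≤ x) (hx : x ≤ 1) :
    1 - K * x ≤ (1 - x) ^ K ∧ (1 - x) ^ K ≤ 1 - K * x + K ^ 2 * x ^ 2 := by
  induction K with
  | zero => simp
  | succ K ih =>
    obtain ⟨h1, h2⟩ := ih
    have hx1 : 0 ≤ 1 - x := by linarith only [hx]
    constructor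
    · rw [pow_succ]
      have := mul_le_mul_of_nonneg_right h1 hx1
      push_cast
      nlinarith only [mul_nonneg (Nat.cast_nonneg (α := ℝ) K) (mul_nonneg hx0 hx0), this, hx0]
    · rw [pow_succ]
      have := mul_le_mul_of_nonneg_right h2 hx1
      push_cast
      have hK : (0:ℝ) ≤ K := Nat.cast_nonneg K
      nlinarith only [mul_nonneg hK (mul_nonneg hx0 hx0), mul_nonneg (mul_nonneg hK hK) (mul_nonneg (mul_nonneg hx0 hx0) hx0), this, hK, hx0]

lemma S_ge_one (k : ℕ) {x : ℝ} (hx0 : 0 ≤ x) (hx : x ≤ 1 / 2) : 1 ≤ S k x := by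
  rw [S_eq k hx0 hx]
  have := R_nonneg k hx0
  have : 0 ≤ x ^ 2 * R k x := by positivity
  have : 0 ≤ (k:ℝ) ^ 2 * x := by positivity
  linarith

lemma S_le (k : ℕ) {x : ℝ} (hx0 : 0 ≤ x) (hx : x ≤ 1 / 2) :
    S k x ≤ 1 + ((k:ℝ) ^ 2 + R k (1/2)) * x := by
  rw [S_eq k hx0 hx]
  have h1 := R_nonneg k hx0
  have h2 := R_le k hx0 hx
  have h3 : x ^ 2 * R k x ≤ x * R k (1/2) := by
    have : x ^ 2 ≤ x := by nlinarith only [hx0, hx]
    calc x ^ 2 * R k x ≤ x * R k x := by gcongr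
      _ ≤ x * R k (1/2) := by gcongr
  linarith only [h3]

lemma H_bound (k : ℕ) : ∃ C : ℝ, 0 ≤ C ∧ ∀ x : ℝ, 0 ≤ x → x ≤ 1/2 → |H k x - 1| ≤ C * x ^ 2 := by
  set K : ℝ := (k:ℝ) ^ 2 with hK
  have hK0 : 0 ≤ K := by positivity
  set M := R k (1/2) with hM
  have hM0 : 0 ≤ M := R_nonneg k (by norm_num)
  refine ⟨K ^ 2 + K ^ 3 + M + K^2, by positivity, ?_⟩
  intro x hx0 hx
  obtain ⟨h1, h2⟩ := one_sub_pow_bounds (k ^ 2) hx0 (by linarith only [hx])
  have hKc : ((k ^ 2 : ℕ) : ℝ) = K := by push_cast; rfl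
  rw [hKc] at h1 h2
  have hR0 := R_nonneg k hx0
  have hR1 := R_le k hx0 hx
  rw [← hM] at hR1
  have hp0 : 0 ≤ (1 - x) ^ (k ^ 2) := pow_nonneg (by linarith only [hx]) _
  have hp1 : (1 - x) ^ (k ^ 2) ≤ 1 := pow_le_one₀ (by linarith only [hx]) (by linarith only [hx0])
  have hH : H k x = (1 - x) ^ (k ^ 2) * (1 + K * x) + x ^ 2 * ((1 - x) ^ (k ^ 2) * R k x) := by
    unfold H; rw [S_eq k hx0 hx]; ring
  set P := (1 - x) ^ (k ^ 2) with hP
  have h3 : 0 ≤ P * R k x := mul_nonneg hp0 hR0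
  have h4 : P * R k x ≤ M := by
    calc P * R k x ≤ 1 * R k x := by gcongr
      _ ≤ M := by linarith only [hR1]
  have h5 : (1 - K * x) * (1 + K * x) ≤ P * (1 + K * x) := by
    apply mul_le_mul_of_nonneg_right h1; positivity
  have h6 : P * (1 + K * x) ≤ (1 - K * x + K ^ 2 * x ^ 2) * (1 + K * x) := by
    apply mul_le_mul_of_nonneg_right h2; positivity
  have hx2 : 0 ≤ x ^ 2 := by positivity
  have h7 : x ^ 2 * (P * R k x) ≤ x ^ 2 * M := mul_le_mul_of_nonneg_left h4 hx2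
  have h8 : 0 ≤ x ^ 2 * (P * R k x) := mul_nonneg hx2 h3
  have h9 : K ^ 3 * x ^ 3 ≤ K ^ 3 * x ^ 2 := by
    apply mul_le_mul_of_nonneg_left _ (by positivity)
    nlinarith only [hx]
  have h10 : 0 ≤ K ^ 3 * x ^ 2 := by positivity
  rw [hH, abs_le]
  constructor
  · nlinarith only [h5, h6, h7, h8, h9]
  · nlinarith only [h1, h2, h6, h7, h9]

lemma H_pos (k : ℕ) {x : ℝ} (hx0 : 0 ≤ x) (hx : x ≤ 1 / 2) : (1/2 : ℝ) ^ (k ^ 2) ≤ H k x := by
  unfold H
  have h1 := S_ge_one k hx0 hx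
  have h2 : (1/2 : ℝ) ^ (k ^ 2) ≤ (1 - x) ^ (k ^ 2) := pow_le_pow_left₀ (by norm_num) (by linarith only [hx]) _
  calc (1/2 : ℝ) ^ (k ^ 2) = (1/2 : ℝ) ^ (k ^ 2) * 1 := (mul_one _).symm
    _ ≤ (1 - x) ^ (k ^ 2) * S k x :=
      mul_le_mul h2 h1 zero_le_one (pow_nonneg (by linarith only [hx]) _)

lemma logH_bound (k : ℕ) : ∃ C : ℝ, 0 ≤ C ∧ ∀ x : ℝ, 0 ≤ x → x ≤ 1/2 →
    |Real.log (H k x)| ≤ C * x ^ 2 := by
  obtain ⟨C, hC0, hC⟩ := H_bound k
  set c := (1/2 : ℝ) ^ (k ^ 2) with hc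
  have hc0 : 0 < c := by positivity
  have hc1 : c ≤ 1 := pow_le_one₀ (by norm_num) (by norm_num)
  refine ⟨C / c, by positivity, ?_⟩
  intro x hx0 hx
  have h1 := hC x hx0 hx
  have h2 := H_pos k hx0 hx
  rw [← hc] at h2
  have hH0 : 0 < H k x := lt_of_lt_of_le hc0 h2
  have h3 : Real.log (H k x) ≤ H k x - 1 := Real.log_le_sub_one_of_pos hH0
  have h4 : 1 - (H k x)⁻¹ ≤ Real.log (H k x) := Real.one_sub_inv_le_log_of_pos hH0
  have h5 : |H k x - 1| ≤ C * x ^ 2 / c := by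
    calc |H k x - 1| ≤ C * x ^ 2 := h1
      _ ≤ C * x ^ 2 / c := by
        rw [le_div_iff₀ hc0]
        exact mul_le_of_le_one_right (by positivity) hc1
  rw [abs_le] at h5 ⊢
  have h6 : C / c * x ^ 2 = C * x ^ 2 / c := by ring
  rw [h6]
  constructor
  · refine le_trans ?_ h4
    have h7 : 1 - (H k x)⁻¹ = (H k x - 1) / H k x := by field_simp
    rw [h7]
    rw [neg_le_iff_add_nonneg, ← sub_nonneg]
    have h8 : -(C * x ^ 2) ≤ H k x - 1 := (abs_le.1 h1).1
    have h9 : -(C * x ^ 2) / H k x ≤ (H k x - 1) / H k x := by gcongr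
    have h10 : C * x ^ 2 / H k x ≤ C * x ^ 2 / c := by gcongr
    rw [neg_div] at h9
    linarith only [h9, h10]
  · exact h3.trans h5.2

end MP069854

end

section

namespace MP069854
open Filter Topology MeasureTheory Real Set

/-- The density `y^(K-1)/(K-1)!`. -/
noncomputable def wt (K : ℕ) (y : ℝ) : ℝ := y ^ (K - 1) / (K - 1).factorial

lemma wt_nonneg (K : ℕ) {y : ℝ} (hy : 0 < y) : 0 ≤ wt K y := by
  unfold wt; positivity

lemma wt_continuous (K : ℕ) : Continuous (wt K) := by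
  unfold wt; fun_prop

lemma integral_wt_exp {K : ℕ} (hK : 1 ≤ K) {r : ℝ} (hr : 0 < r) :
    ∫ y in Ioi (0:ℝ), exp (-(r * y)) * wt K y = (r ^ K)⁻¹ := by
  have h := Real.integral_rpow_mul_exp_neg_mul_Ioi (a := K) (r := r) (by exact_mod_cast hK) hr
  have h2 : ∫ y in Ioi (0:ℝ), exp (-(r * y)) * wt K y =
      ((K - 1).factorial : ℝ)⁻¹ * ∫ t in Ioi (0:ℝ), t ^ ((K:ℝ) - 1) * exp (-(r * t)) := by
    rw [← integral_const_mul]
    refine setIntegral_congr_fun measurableSet_Ioi ?_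
    intro y _
    simp only [wt]
    have : y ^ ((K:ℝ) - 1) = y ^ (K - 1) := by
      rw [show (K:ℝ) - 1 = ((K - 1 : ℕ) : ℝ) by push_cast [Nat.cast_sub hK]; ring, rpow_natCast]
    rw [this]; ring
  rw [h2, h]
  obtain ⟨m, rfl⟩ : ∃ m, K = m + 1 := ⟨K - 1, by omega⟩
  have : Gamma ((m + 1 : ℕ) : ℝ) = m.factorial := by
    push_cast; exact Real.Gamma_nat_eq_factorial m
  rw [this, rpow_natCast, Nat.add_sub_cancel]
  have hm : (m.factorial : ℝ) ≠ 0 := by positivity
  field_simp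
  rw [← mul_pow, one_div, inv_mul_cancel₀ hr.ne', one_pow]

lemma integrableOn_wt_exp {K : ℕ} (hK : 1 ≤ K) {r : ℝ} (hr : 0 < r) :
    IntegrableOn (fun y => exp (-(r * y)) * wt K y) (Ioi (0:ℝ)) := by
  by_contra h
  have := integral_wt_exp hK hr
  rw [integral_undef h] at this
  have : 0 < (r ^ K)⁻¹ := by positivity
  linarith

/-- Data of a nonnegative measure `∑ a n δ_{lam n}` whose Laplace transform is `~ A s^{-K}`. -/
structure KData (a lam : ℕ → ℝ) (K : ℕ) (A : ℝ) : Prop where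
  hK : 1 ≤ K
  a0 : ∀ n, 0 ≤ a n
  l0 : ∀ n, 0 ≤ lam n
  sum : ∀ s : ℝ, 0 < s → Summable fun n => a n * exp (-(s * lam n))
  lim : Tendsto (fun s : ℝ => s ^ K * ∑' n, a n * exp (-(s * lam n))) (𝓝[>] 0) (𝓝 A)

namespace KData
variable {a lam : ℕ → ℝ} {K : ℕ} {A : ℝ}

lemma A_nonneg (h : KData a lam K A) : 0 ≤ A := by
  refine ge_of_tendsto h.lim ?_
  filter_upwards [self_mem_nhdsWithin] with s hs
  have : (0:ℝ) < s := hs
  exact mul_nonneg (by positivity) (tsum_nonneg fun n => mul_nonneg (h.a0 n) (exp_pos _).le)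

lemma exp_mem (h : KData a lam K A) {s : ℝ} (hs : 0 < s) (n : ℕ) :
    exp (-(s * lam n)) ∈ Icc (0:ℝ) 1 :=
  ⟨(exp_pos _).le, exp_le_one_iff.2 (by have := mul_nonneg hs.le (h.l0 n); linarith only [this])⟩

lemma poly_summable (h : KData a lam K A) (P : Polynomial ℝ) {s : ℝ} (hs : 0 < s) :
    Summable fun n => a n * exp (-(s * lam n)) * P.eval (exp (-(s * lam n))) := by
  induction P using Polynomial.induction_on' with
  | add p q hp hq =>
    refine (hp.add hq).congr ?_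
    intro n; simp [mul_add]
  | monomial m c =>
    have h1 := (h.sum ((m + 1) * s) (by positivity)).mul_right c
    refine h1.congr ?_
    intro n
    simp only [Polynomial.eval_monomial]
    have : exp (-((m + 1) * s * lam n)) = exp (-(s * lam n)) * exp (-(s * lam n)) ^ m := by
      rw [← Real.exp_nat_mul, ← Real.exp_add]; congr 1; ring
    rw [this]; ring

lemma poly_integrable (h : KData a lam K A) (P : Polynomial ℝ) :
    IntegrableOn (fun y => exp (-y) * P.eval (exp (-y)) * wt K y) (Ioi (0:ℝ)) := by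
  induction P using Polynomial.induction_on' with
  | add p q hp hq =>
    refine (hp.add hq).congr ?_
    refine Eventually.of_forall fun n => ?_
    simp only [Pi.add_apply, Polynomial.eval_add]; ring
  | monomial m c =>
    have h1 := (integrableOn_wt_exp h.hK (r := (m:ℝ) + 1) (by positivity)).const_mul c
    refine h1.congr ?_
    refine Eventually.of_forall fun y => ?_
    simp only [Polynomial.eval_monomial]
    have : exp (-((m + 1) * y)) = exp (-y) * exp (-y) ^ m := by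
      rw [← Real.exp_nat_mul, ← Real.exp_add]; congr 1; ring
    rw [this]; ring

lemma poly_lim (h : KData a lam K A) (P : Polynomial ℝ) :
    Tendsto (fun s : ℝ => s ^ K * ∑' n, a n * exp (-(s * lam n)) * P.eval (exp (-(s * lam n))))
      (𝓝[>] 0) (𝓝 (A * ∫ y in Ioi (0:ℝ), exp (-y) * P.eval (exp (-y)) * wt K y)) := by
  induction P using Polynomial.induction_on' with
  | add p q hp hq =>
    have h3 : (∫ y in Ioi (0:ℝ), exp (-y) * (p + q).eval (exp (-y)) * wt K y) =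
        (∫ y in Ioi (0:ℝ), exp (-y) * p.eval (exp (-y)) * wt K y) +
        ∫ y in Ioi (0:ℝ), exp (-y) * q.eval (exp (-y)) * wt K y := by
      rw [← integral_add (h.poly_integrable p) (h.poly_integrable q)]
      refine integral_congr_ae (Eventually.of_forall fun y => ?_)
      simp only [Polynomial.eval_add]; ring
    rw [h3, mul_add]
    refine (hp.add hq).congr' ?_
    filter_upwards [self_mem_nhdsWithin] with s hs
    rw [← mul_add, ← (h.poly_summable p hs).tsum_add (h.poly_summable q hs)]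
    congr 1
    refine tsum_congr fun n => ?_
    simp [mul_add]
  | monomial m c =>
    have hm : (0:ℝ) < (m:ℝ) + 1 := by positivity
    have h3 : (∫ y in Ioi (0:ℝ), exp (-y) * (Polynomial.monomial m c).eval (exp (-y)) * wt K y) =
        c * (((m:ℝ) + 1) ^ K)⁻¹ := by
      rw [← integral_wt_exp h.hK hm, ← integral_const_mul]
      refine integral_congr_ae (Eventually.of_forall fun y => ?_)
      simp only [Polynomial.eval_monomial]
      have : exp (-((m + 1) * y)) = exp (-y) * exp (-y) ^ m := by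
        rw [← Real.exp_nat_mul, ← Real.exp_add]; congr 1; ring
      rw [this]; ring
    rw [h3]
    have h4 : Tendsto (fun s : ℝ => ((m:ℝ) + 1) * s) (𝓝[>] 0) (𝓝[>] 0) := by
      refine tendsto_nhdsWithin_iff.2 ⟨?_, ?_⟩
      · have : Tendsto (fun s : ℝ => ((m:ℝ) + 1) * s) (𝓝 0) (𝓝 (((m:ℝ) + 1) * 0)) :=
          (continuous_const.mul continuous_id).tendsto 0
        rw [mul_zero] at this
        exact this.mono_left nhdsWithin_le_nhds
      · filter_upwards [self_mem_nhdsWithin] with s hs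
        exact mul_pos hm hs
    have h5 := ((h.lim.comp h4).const_mul (c * (((m:ℝ) + 1) ^ K)⁻¹))
    have h6 : c * (((m:ℝ) + 1) ^ K)⁻¹ * A = A * (c * (((m:ℝ) + 1) ^ K)⁻¹) := by ring
    rw [h6] at h5
    refine h5.congr' ?_
    filter_upwards [self_mem_nhdsWithin] with s hs
    simp only [Function.comp]
    have h7 : ∑' n, a n * exp (-(s * lam n)) * (Polynomial.monomial m c).eval (exp (-(s * lam n)))
        = (∑' n, a n * exp (-((m + 1) * s * lam n))) * c := by
      rw [← tsum_mul_right]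
      refine tsum_congr fun n => ?_
      simp only [Polynomial.eval_monomial]
      have : exp (-((m + 1) * s * lam n)) = exp (-(s * lam n)) * exp (-(s * lam n)) ^ m := by
        rw [← Real.exp_nat_mul, ← Real.exp_add]; congr 1; ring
      rw [this]; ring
    rw [h7, mul_pow]
    field_simp

/-- Karamata's theorem for continuous functions on `[0,1]`. -/
lemma cont_lim (h : KData a lam K A) (f : ℝ → ℝ) (hf : ContinuousOn f (Icc 0 1)) :
    IntegrableOn (fun y => exp (-y) * f (exp (-y)) * wt K y) (Ioi (0:ℝ)) ∧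
    (∀ s : ℝ, 0 < s → Summable fun n => a n * exp (-(s * lam n)) * f (exp (-(s * lam n)))) ∧
    Tendsto (fun s : ℝ => s ^ K * ∑' n, a n * exp (-(s * lam n)) * f (exp (-(s * lam n))))
      (𝓝[>] 0) (𝓝 (A * ∫ y in Ioi (0:ℝ), exp (-y) * f (exp (-y)) * wt K y)) := by
  obtain ⟨M, hM⟩ := (isCompact_Icc (a := (0:ℝ)) (b := 1)).exists_bound_of_continuousOn hf
  have hexp : ∀ y : ℝ, 0 < y → exp (-y) ∈ Icc (0:ℝ) 1 := fun y hy =>
    ⟨(exp_pos _).le, exp_le_one_iff.2 (by linarith only [hy])⟩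
  have hint : IntegrableOn (fun y => exp (-y) * f (exp (-y)) * wt K y) (Ioi (0:ℝ)) := by
    have h1 := (integrableOn_wt_exp h.hK (r := 1) one_pos).const_mul M
    refine Integrable.mono' h1 ?_ ?_
    · refine ContinuousOn.aestronglyMeasurable ?_ measurableSet_Ioi
      refine ContinuousOn.mul (ContinuousOn.mul (by fun_prop) ?_) (wt_continuous K).continuousOn
      exact hf.comp (by fun_prop) (fun y hy => hexp y hy)
    · filter_upwards [self_mem_ae_restrict measurableSet_Ioi] with y hy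
      have hy' : (0:ℝ) < y := hy
      have h2 := hM _ (hexp y hy)
      rw [norm_mul, norm_mul, Real.norm_eq_abs, Real.norm_eq_abs, Real.norm_eq_abs,
        abs_of_pos (exp_pos _), abs_of_nonneg (wt_nonneg K hy'), one_mul]
      rw [Real.norm_eq_abs] at h2
      have h3 := mul_le_mul_of_nonneg_left h2 (mul_nonneg (exp_pos (-y)).le (wt_nonneg K hy'))
      nlinarith only [h3]
  have hsum : ∀ s : ℝ, 0 < s →
      Summable fun n => a n * exp (-(s * lam n)) * f (exp (-(s * lam n))) := by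
    intro s hs
    refine Summable.of_norm_bounded ((h.sum s hs).mul_right M) ?_
    intro n
    rw [norm_mul, Real.norm_of_nonneg (mul_nonneg (h.a0 n) (exp_pos _).le)]
    exact mul_le_mul_of_nonneg_left (hM _ (h.exp_mem hs n)) (mul_nonneg (h.a0 n) (exp_pos _).le)
  refine ⟨hint, hsum, ?_⟩
  rw [Metric.tendsto_nhds]
  intro ε hε
  set δ := ε / (4 * (A + 2)) with hδ
  have hA := h.A_nonneg
  have hδ0 : 0 < δ := by positivity
  obtain ⟨P, hP⟩ := exists_polynomial_near_of_continuousOn 0 1 f hf δ hδ0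
  have h1 := (Metric.tendsto_nhds.1 (h.poly_lim P)) (ε / 4) (by positivity)
  have h2 : ∀ᶠ s in 𝓝[>] (0:ℝ), s ^ K * ∑' n, a n * exp (-(s * lam n)) < A + 1 :=
    h.lim.eventually (gt_mem_nhds (by linarith only []))
  filter_upwards [h1, h2, self_mem_nhdsWithin] with s hs1 hs2 hs
  have hs' : (0:ℝ) < s := hs
  rw [Real.dist_eq] at hs1 ⊢
  -- difference of sums
  have h3 : |s ^ K * ∑' n, a n * exp (-(s * lam n)) * f (exp (-(s * lam n))) -
      s ^ K * ∑' n, a n * exp (-(s * lam n)) * P.eval (exp (-(s * lam n)))| ≤ δ * (A + 1) := by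
    rw [← mul_sub, abs_mul, abs_of_pos (pow_pos hs' K),
      ← (hsum s hs').tsum_sub (h.poly_summable P hs')]
    have h4 : |∑' n, (a n * exp (-(s * lam n)) * f (exp (-(s * lam n))) -
        a n * exp (-(s * lam n)) * P.eval (exp (-(s * lam n))))| ≤
        ∑' n, a n * exp (-(s * lam n)) * δ := by
      rw [← Real.norm_eq_abs]
      refine tsum_of_norm_bounded ((h.sum s hs').mul_right δ).hasSum ?_
      intro n
      rw [← mul_sub, norm_mul, Real.norm_of_nonneg (mul_nonneg (h.a0 n) (exp_pos _).le)]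
      refine mul_le_mul_of_nonneg_left ?_ (mul_nonneg (h.a0 n) (exp_pos _).le)
      rw [Real.norm_eq_abs, abs_sub_comm]
      exact (hP _ (h.exp_mem hs' n)).le
    calc s ^ K * |∑' n, (a n * exp (-(s * lam n)) * f (exp (-(s * lam n))) -
        a n * exp (-(s * lam n)) * P.eval (exp (-(s * lam n))))|
        ≤ s ^ K * ∑' n, a n * exp (-(s * lam n)) * δ :=
          mul_le_mul_of_nonneg_left h4 (pow_pos hs' K).le
      _ = δ * (s ^ K * ∑' n, a n * exp (-(s * lam n))) := by rw [tsum_mul_right]; ring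
      _ ≤ δ * (A + 1) := mul_le_mul_of_nonneg_left hs2.le hδ0.le
  have h5 : |A * (∫ y in Ioi (0:ℝ), exp (-y) * P.eval (exp (-y)) * wt K y) -
      A * ∫ y in Ioi (0:ℝ), exp (-y) * f (exp (-y)) * wt K y| ≤ A * δ := by
    rw [← mul_sub, abs_mul, abs_of_nonneg hA, ← integral_sub (h.poly_integrable P) hint]
    refine mul_le_mul_of_nonneg_left ?_ hA
    have h6 : ∫ y in Ioi (0:ℝ), exp (-(1 * y)) * wt K y = 1 := by
      rw [integral_wt_exp h.hK one_pos]; simp
    have h7 : δ = ∫ y in Ioi (0:ℝ), (exp (-(1 * y)) * wt K y) * δ := by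
      rw [integral_mul_const, h6, one_mul]
    rw [h7, ← Real.norm_eq_abs]
    refine norm_integral_le_of_norm_le ((integrableOn_wt_exp h.hK one_pos).mul_const δ) ?_
    filter_upwards [self_mem_ae_restrict measurableSet_Ioi] with y hy
    have hy' : (0:ℝ) < y := hy
    have h8 : exp (-y) * P.eval (exp (-y)) * wt K y - exp (-y) * f (exp (-y)) * wt K y =
        exp (-(1 * y)) * wt K y * (P.eval (exp (-y)) - f (exp (-y))) := by
      rw [one_mul]; ring
    rw [h8, norm_mul, Real.norm_of_nonneg (mul_nonneg (exp_pos _).le (wt_nonneg K hy'))]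
    exact mul_le_mul_of_nonneg_left (hP _ (hexp y hy)).le
      (mul_nonneg (exp_pos _).le (wt_nonneg K hy'))
  have h10 : δ * (4 * (A + 2)) = ε := by rw [hδ]; field_simp
  rw [abs_le] at h3 h5
  rw [abs_lt] at hs1 ⊢
  constructor <;> nlinarith only [h3.1, h3.2, h5.1, h5.2, hs1.1, hs1.2, mul_nonneg hδ0.le hA, hδ0, hs1, h3, h5, h10]

/-- Karamata's theorem for real test functions: `h` continuous with support in `(-∞, R]`. -/
lemma test_lim (hd : KData a lam K A) (h : ℝ → ℝ) (hc : Continuous h) {R : ℝ}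
    (hR : ∀ y, R < y → h y = 0) :
    IntegrableOn (fun y => h y * wt K y) (Ioi (0:ℝ)) ∧
    (∀ s : ℝ, 0 < s → Summable fun n => a n * h (s * lam n)) ∧
    Tendsto (fun s : ℝ => s ^ K * ∑' n, a n * h (s * lam n)) (𝓝[>] 0)
      (𝓝 (A * ∫ y in Ioi (0:ℝ), h y * wt K y)) := by
  let f : ℝ → ℝ := fun x => if x ≤ 0 then 0 else h (-Real.log x) / x
  have hf : ContinuousOn f (Icc 0 1) := by
    have h1 : ∀ x : ℝ, 0 < x → ContinuousAt f x := by
      intro x hx
      have h2 : f =ᶠ[𝓝 x] fun x => h (-Real.log x) / x := by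
        filter_upwards [lt_mem_nhds hx] with z hz
        simp only [f, not_le.2 hz, if_false]
      refine ContinuousAt.congr ?_ h2.symm
      refine ContinuousAt.div ?_ continuousAt_id hx.ne'
      exact hc.continuousAt.comp (Real.continuousAt_log hx.ne').neg
    have h0 : ContinuousAt f 0 := by
      have h2 : f =ᶠ[𝓝 0] fun _ => 0 := by
        filter_upwards [gt_mem_nhds (exp_pos (-(R+1)))] with z hz
        simp only [f]
        split_ifs with hz0
        · rfl
        · rw [hR, zero_div]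
          have hz1 : 0 < z := not_le.1 hz0
          have := Real.log_lt_log hz1 hz
          rw [Real.log_exp] at this
          linarith only [this]
      exact ContinuousAt.congr continuousAt_const h2.symm
    intro x hx
    rcases eq_or_lt_of_le hx.1 with h3 | h3
    · rw [← h3]; exact h0.continuousWithinAt
    · exact (h1 x h3).continuousWithinAt
  have hkey : ∀ y : ℝ, exp (-y) * f (exp (-y)) = h y := by
    intro y
    simp only [f, not_le.2 (exp_pos (-y)), if_false, Real.log_exp, neg_neg]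
    field_simp
  obtain ⟨h1, h2, h3⟩ := hd.cont_lim f hf
  have h4 : ∀ s : ℝ, ∀ n, a n * exp (-(s * lam n)) * f (exp (-(s * lam n))) =
      a n * h (s * lam n) := by
    intro s n; rw [mul_assoc, hkey]
  simp only [h4] at h2 h3
  simp only [hkey] at h1 h3
  exact ⟨h1, h2, h3⟩

/-- Karamata's theorem for complex test functions. -/
lemma test_lim_complex (hd : KData a lam K A) (h : ℝ → ℂ) (hc : Continuous h) {R : ℝ}
    (hR : ∀ y, R < y → h y = 0) :
    (∀ s : ℝ, 0 < s → Summable fun n => (a n : ℂ) * h (s * lam n)) ∧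
    Tendsto (fun s : ℝ => (s : ℂ) ^ K * ∑' n, (a n : ℂ) * h (s * lam n)) (𝓝[>] 0)
      (𝓝 (A * ∫ y in Ioi (0:ℝ), h y * wt K y)) := by
  obtain ⟨r1, r2, r3⟩ := hd.test_lim (fun y => (h y).re) (Complex.continuous_re.comp hc)
    (R := R) (fun y hy => by simp [hR y hy])
  obtain ⟨i1, i2, i3⟩ := hd.test_lim (fun y => (h y).im) (Complex.continuous_im.comp hc)
    (R := R) (fun y hy => by simp [hR y hy])
  have hsplit : ∀ (s : ℝ) (n : ℕ), (a n : ℂ) * h (s * lam n) =
      ((a n * (h (s * lam n)).re : ℝ) : ℂ) + ((a n * (h (s * lam n)).im : ℝ) : ℂ) * Complex.I := by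
    intro s n
    conv_lhs => rw [← Complex.re_add_im (h (s * lam n))]
    push_cast; ring
  have hs : ∀ s : ℝ, 0 < s → Summable fun n => (a n : ℂ) * h (s * lam n) := by
    intro s hs
    simp only [hsplit]
    exact (Complex.summable_ofReal.2 (r2 s hs)).add
      ((Complex.summable_ofReal.2 (i2 s hs)).mul_right _)
  refine ⟨hs, ?_⟩
  have h5 : (∫ y in Ioi (0:ℝ), h y * wt K y) =
      ((∫ y in Ioi (0:ℝ), (h y).re * wt K y : ℝ) : ℂ) +
      ((∫ y in Ioi (0:ℝ), (h y).im * wt K y : ℝ) : ℂ) * Complex.I := by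
    rw [← integral_complex_ofReal, ← integral_complex_ofReal, ← integral_mul_const,
      ← integral_add]
    · refine integral_congr_ae (Eventually.of_forall fun y => ?_)
      simp only
      conv_lhs => rw [← Complex.re_add_im (h y)]
      push_cast; ring
    · exact r1.ofReal
    · exact i1.ofReal.mul_const _
  have h6 := ((Complex.continuous_ofReal.tendsto _).comp r3).add
    (((Complex.continuous_ofReal.tendsto _).comp i3).mul_const Complex.I)
  rw [h5]
  have h7 : ((A * ∫ y in Ioi (0:ℝ), (h y).re * wt K y : ℝ) : ℂ) +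
      ((A * ∫ y in Ioi (0:ℝ), (h y).im * wt K y : ℝ) : ℂ) * Complex.I =
      A * (((∫ y in Ioi (0:ℝ), (h y).re * wt K y : ℝ) : ℂ) +
      ((∫ y in Ioi (0:ℝ), (h y).im * wt K y : ℝ) : ℂ) * Complex.I) := by
    push_cast; ring
  rw [h7] at h6
  refine h6.congr' ?_
  filter_upwards [self_mem_nhdsWithin] with s hs0
  simp only [Function.comp, hsplit]
  rw [Summable.tsum_add (Complex.summable_ofReal.2 (r2 s hs0))
    ((Complex.summable_ofReal.2 (i2 s hs0)).mul_right _), tsum_mul_right,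
    ← Complex.ofReal_tsum, ← Complex.ofReal_tsum]
  push_cast; ring

end KData
end MP069854

end

section

namespace MP069854
open Filter Topology Real Finset

/-- The arithmetic factor `a_k`. -/
noncomputable def arith (k : ℕ) : ℝ :=
  ∏' p : Nat.Primes, (1 - 1 / ((p : ℕ) : ℝ)) ^ (k ^ 2) *
    ∑' m : ℕ, (dk k ((p : ℕ) ^ m) : ℝ) ^ 2 / ((p : ℕ) : ℝ) ^ m

lemma arith_eq (k : ℕ) : arith k = ∏' p : Nat.Primes, H k (((p : ℕ) : ℝ)⁻¹) := by
  unfold arith H S
  refine tprod_congr fun p => ?_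
  rw [one_div]
  congr 1
  refine tsum_congr fun m => ?_
  rw [dk_prime_pow p.2, inv_pow, div_eq_mul_inv]

lemma prime_inv_le (p : Nat.Primes) : ((p : ℕ) : ℝ)⁻¹ ≤ 1 / 2 := by
  rw [one_div]
  apply inv_anti₀ (by norm_num)
  exact_mod_cast p.2.two_le

/-- `d_k(n)^2 n^{-s}` -/
noncomputable def fs (k : ℕ) (s : ℝ) (n : ℕ) : ℝ := (dk k n : ℝ) ^ 2 * (n : ℝ) ^ (-s)

lemma fs_zero (k : ℕ) (s : ℝ) : fs k s 0 = 0 := by simp [fs, dk_zero_right]

lemma fs_one (k : ℕ) (s : ℝ) : fs k s 1 = 1 := by simp [fs, dk_one_right]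

lemma fs_nonneg (k : ℕ) (s : ℝ) (n : ℕ) : 0 ≤ fs k s n := by unfold fs; positivity

lemma fs_mul (k : ℕ) (s : ℝ) {m n : ℕ} (h : m.Coprime n) :
    fs k s (m * n) = fs k s m * fs k s n := by
  unfold fs
  rw [dk_mul_coprime k h]
  push_cast
  rw [mul_rpow (Nat.cast_nonneg _) (Nat.cast_nonneg _)]
  ring

lemma fs_prime_pow (k : ℕ) (s : ℝ) {p : ℕ} (hp : p.Prime) (m : ℕ) :
    fs k s (p ^ m) = (k.multichoose m : ℝ) ^ 2 * ((p : ℝ) ^ (-s)) ^ m := by
  unfold fs
  rw [dk_prime_pow hp]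
  push_cast
  congr 1
  rw [← rpow_natCast (p:ℝ) m, ← rpow_mul (Nat.cast_nonneg _), ← rpow_natCast ((p:ℝ) ^ (-s)) m,
    ← rpow_mul (Nat.cast_nonneg _)]
  congr 1; ring

lemma prime_rpow_le {p : ℕ} (hp : p.Prime) {s : ℝ} (hs : 1 ≤ s) : (p : ℝ) ^ (-s) ≤ 1 / 2 := by
  have h2 : (2:ℝ) ≤ p := by exact_mod_cast hp.two_le
  calc (p : ℝ) ^ (-s) ≤ (p : ℝ) ^ (-1 : ℝ) :=
        rpow_le_rpow_of_exponent_le (by linarith only [h2]) (by linarith only [hs])
    _ = (p : ℝ)⁻¹ := by rw [rpow_neg_one]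
    _ ≤ 1 / 2 := by rw [one_div]; exact inv_anti₀ (by norm_num) h2

lemma fs_summable (k : ℕ) {s : ℝ} (hs : 1 < s) : Summable (fs k s) := by
  have hpp : ∀ {p : ℕ}, p.Prime → Summable fun n => ‖fs k s (p ^ n)‖ := by
    intro p hp
    refine (S_summable k (x := (p:ℝ) ^ (-s)) (by positivity) (prime_rpow_le hp hs.le)).congr ?_
    intro m
    rw [Real.norm_of_nonneg (fs_nonneg _ _ _), fs_prime_pow k s hp]
  have h1 := fun N => EulerProduct.summable_and_hasSum_smoothNumbers_prod_primesBelow_tsum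
    (fs_one k s) (fun {m n} h => fs_mul k s (m := m) (n := n) h) hpp N
  set M := (k:ℝ) ^ 2 + R k (1/2) with hM
  have hM0 : 0 ≤ M := by have := R_nonneg k (x := 1/2) (by norm_num); positivity
  have hsum : Summable fun p : Nat.Primes => ((p : ℕ) : ℝ) ^ (-s) :=
    Nat.Primes.summable_rpow.2 (by linarith only [hs])
  set B := ∑' p : Nat.Primes, ((p : ℕ) : ℝ) ^ (-s) with hB
  have hprod : ∀ N : ℕ, ∏ p ∈ N.primesBelow, ∑' n : ℕ, fs k s (p ^ n) ≤ exp (M * B) := by
    intro N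
    have h2 : ∀ p ∈ N.primesBelow, ∑' n : ℕ, fs k s (p ^ n) ≤ exp (M * (p:ℝ) ^ (-s)) := by
      intro p hp
      have hp' := Nat.prime_of_mem_primesBelow hp
      have h3 : ∑' n : ℕ, fs k s (p ^ n) = S k ((p:ℝ) ^ (-s)) := by
        unfold S
        exact tsum_congr fun m => fs_prime_pow k s hp' m
      rw [h3]
      refine (S_le k (by positivity) (prime_rpow_le hp' hs.le)).trans ?_
      have := add_one_le_exp (M * (p:ℝ) ^ (-s))
      linarith only [this]
    calc ∏ p ∈ N.primesBelow, ∑' n : ℕ, fs k s (p ^ n)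
        ≤ ∏ p ∈ N.primesBelow, exp (M * (p:ℝ) ^ (-s)) :=
          prod_le_prod (fun p _ => tsum_nonneg fun n => fs_nonneg _ _ _) h2
      _ = exp (M * ∑ p ∈ N.primesBelow, (p:ℝ) ^ (-s)) := by rw [← exp_sum, mul_sum]
      _ ≤ exp (M * B) := by
        apply exp_le_exp.2
        apply mul_le_mul_of_nonneg_left _ hM0
        have h4 : ∑ p ∈ N.primesBelow, (p:ℝ) ^ (-s) =
            ∑ p ∈ (N.primesBelow.subtype Nat.Prime), ((p : ℕ) : ℝ) ^ (-s) := by
          rw [sum_subtype_of_mem (f := fun p : ℕ => (p:ℝ) ^ (-s))]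
          intro x hx
          exact Nat.prime_of_mem_primesBelow hx
        rw [h4]
        exact Summable.sum_le_tsum (f := fun p : Nat.Primes => ((p : ℕ) : ℝ) ^ (-s)) _
          (fun p _ => by positivity) hsum
  refine summable_of_sum_range_le (c := exp (M * B)) (fs_nonneg k s) ?_
  intro N
  obtain ⟨h5, h6⟩ := h1 N
  refine le_trans ?_ (hprod N)
  -- the sum over range N is bounded by the sum over N-smooth numbers
  have h7 : ∑ i ∈ range N, fs k s i = ∑ i ∈ (range N).filter (· ∈ Nat.smoothNumbers N), fs k s i := by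
    rw [sum_filter_of_ne]
    intro i hi hne
    have hi0 : i ≠ 0 := by rintro rfl; exact hne (fs_zero k s)
    exact Nat.mem_smoothNumbers_of_lt (Nat.pos_of_ne_zero hi0) (mem_range.1 hi)
  rw [h7]
  have h8 : ∑ i ∈ (range N).filter (· ∈ Nat.smoothNumbers N), fs k s i =
      ∑ i ∈ ((range N).filter (· ∈ Nat.smoothNumbers N)).subtype (· ∈ Nat.smoothNumbers N),
        fs k s (i : ℕ) := by
    rw [sum_subtype_of_mem]
    intro x hx
    exact (mem_filter.1 hx).2
  rw [h8]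
  exact sum_le_hasSum _ (fun i _ => fs_nonneg _ _ _) h6

/-- `∑ n^{-s}` -/
noncomputable def Zs (s : ℝ) : ℝ := ∑' n : ℕ, 1 / (n : ℝ) ^ s

lemma Zs_hasProd {s : ℝ} (hs : 1 < s) :
    HasProd (fun p : Nat.Primes => (1 - ((p : ℕ) : ℝ) ^ (-s))⁻¹) (Zs s) := by
  let f : ℕ →*₀ ℝ :=
    { toFun := fun n => (n : ℝ) ^ (-s)
      map_zero' := by simp [zero_rpow (show -s ≠ 0 by linarith)]
      map_one' := by simp
      map_mul' := fun m n => by
        push_cast
        exact mul_rpow (Nat.cast_nonneg _) (Nat.cast_nonneg _) }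
  have h1 : Summable fun n : ℕ => ‖f n‖ := by
    refine ((Real.summable_one_div_nat_rpow (p := s)).2 hs).congr ?_
    intro n
    have hfn : 0 ≤ f n := by
      show (0:ℝ) ≤ (n:ℝ) ^ (-s)
      positivity
    rw [Real.norm_of_nonneg hfn]
    show 1 / (n:ℝ) ^ s = (n:ℝ) ^ (-s)
    rw [rpow_neg (Nat.cast_nonneg _), one_div]
  have h2 := EulerProduct.eulerProduct_completely_multiplicative_hasProd h1
  have h3 : ∑' n : ℕ, f n = Zs s := by
    unfold Zs
    refine tsum_congr fun n => ?_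
    show (n:ℝ) ^ (-s) = 1 / (n:ℝ) ^ s
    rw [rpow_neg (Nat.cast_nonneg _), one_div]
  rw [← h3]
  exact h2

lemma fs_hasProd (k : ℕ) {s : ℝ} (hs : 1 < s) :
    HasProd (fun p : Nat.Primes => S k (((p : ℕ) : ℝ) ^ (-s))) (∑' n, fs k s n) := by
  have h := EulerProduct.eulerProduct_hasProd (fs_one k s)
    (fun {m n} h => fs_mul k s (m := m) (n := n) h)
    ((fs_summable k hs).congr fun n => (Real.norm_of_nonneg (fs_nonneg _ _ _)).symm) (fs_zero k s)
  refine h.congr_fun ?_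
  intro p
  unfold S
  exact tsum_congr fun m => (fs_prime_pow k s p.2 m).symm

/-- The Euler product of the quotient. -/
noncomputable def P (k : ℕ) (s : ℝ) : ℝ := ∏' p : Nat.Primes, H k (((p : ℕ) : ℝ) ^ (-s))

lemma rpow_mem {s : ℝ} (hs : 1 ≤ s) (p : Nat.Primes) :
    0 ≤ ((p : ℕ) : ℝ) ^ (-s) ∧ ((p : ℕ) : ℝ) ^ (-s) ≤ 1 / 2 :=
  ⟨by positivity, prime_rpow_le p.2 hs⟩

lemma H_pos' (k : ℕ) {x : ℝ} (hx0 : 0 ≤ x) (hx : x ≤ 1 / 2) : 0 < H k x :=
  lt_of_lt_of_le (by positivity) (H_pos k hx0 hx)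

lemma fs_factor (k : ℕ) {s : ℝ} (hs : 1 < s) : ∑' n, fs k s n = Zs s ^ (k ^ 2) * P k s := by
  have h1 := (Zs_hasProd hs).pow (k ^ 2)
  have h2 := fs_hasProd k hs
  have hZ : Zs s ≠ 0 := by
    have : Summable fun n : ℕ => 1 / (n : ℝ) ^ s := Real.summable_one_div_nat_rpow.2 hs
    have h3 : (1:ℝ) ≤ Zs s := by
      have h4 := this.le_tsum 1 (fun n _ => by positivity)
      simpa [Zs] using h4
    linarith only [h3]
  have h3 := h2.div₀ h1 (pow_ne_zero _ hZ)
  have h4 : ∀ p : Nat.Primes, S k (((p : ℕ) : ℝ) ^ (-s)) / ((1 - ((p : ℕ) : ℝ) ^ (-s))⁻¹) ^ (k ^ 2) =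
      H k (((p : ℕ) : ℝ) ^ (-s)) := by
    intro p
    unfold H
    rw [inv_pow, div_inv_eq_mul, mul_comm]
  have h5 : HasProd (fun p : Nat.Primes => H k (((p : ℕ) : ℝ) ^ (-s)))
      ((∑' n, fs k s n) / Zs s ^ (k ^ 2)) := h3.congr_fun fun p => (h4 p).symm
  have h6 : P k s = (∑' n, fs k s n) / Zs s ^ (k ^ 2) := h5.tprod_eq
  rw [h6, mul_div_cancel₀ _ (pow_ne_zero _ hZ)]

lemma logH_summable_bound : Summable fun p : Nat.Primes => (((p : ℕ) : ℝ) ^ (-1:ℝ)) ^ 2 := by
  have : Summable fun p : Nat.Primes => ((p : ℕ) : ℝ) ^ (-2:ℝ) :=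
    Nat.Primes.summable_rpow.2 (by norm_num)
  refine this.congr ?_
  intro p
  rw [← rpow_natCast, ← rpow_mul (Nat.cast_nonneg _)]
  norm_num

lemma P_eq_exp (k : ℕ) {s : ℝ} (hs : 1 ≤ s) :
    P k s = exp (∑' p : Nat.Primes, Real.log (H k (((p : ℕ) : ℝ) ^ (-s)))) := by
  obtain ⟨C, hC0, hC⟩ := logH_bound k
  unfold P
  rw [Real.rexp_tsum_eq_tprod]
  · intro p
    exact H_pos' k (rpow_mem hs p).1 (rpow_mem hs p).2
  · refine Summable.of_norm_bounded (logH_summable_bound.mul_left C) ?_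
    intro p
    rw [Real.norm_eq_abs]
    refine (hC _ (rpow_mem hs p).1 (rpow_mem hs p).2).trans ?_
    gcongr
    exact_mod_cast p.2.one_le

lemma tendsto_P (k : ℕ) : Tendsto (P k) (𝓝[>] 1) (𝓝 (arith k)) := by
  obtain ⟨C, hC0, hC⟩ := logH_bound k
  have h1 : arith k = P k 1 := by
    rw [arith_eq]; unfold P
    refine tprod_congr fun p => ?_
    rw [rpow_neg_one]
  rw [h1, P_eq_exp k le_rfl]
  have h2 : Tendsto (fun s : ℝ => exp (∑' p : Nat.Primes, Real.log (H k (((p : ℕ) : ℝ) ^ (-s)))))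
      (𝓝[>] 1) (𝓝 (exp (∑' p : Nat.Primes, Real.log (H k (((p : ℕ) : ℝ) ^ (-1:ℝ)))))) := by
    refine (Real.continuous_exp.tendsto _).comp ?_
    refine tendsto_tsum_of_dominated_convergence (logH_summable_bound.mul_left C) ?_ ?_
    · intro p
      -- continuity of H at p^{-1}
      have hp0 : (0:ℝ) < (p : ℕ) := by exact_mod_cast p.2.pos
      have hcont : ContinuousOn (H k) (Set.Icc 0 (1/2)) := by
        unfold H
        refine ContinuousOn.mul (by fun_prop) ?_
        unfold S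
        refine continuousOn_tsum (u := fun m => (k.multichoose m : ℝ) ^ 2 * (1/2 : ℝ) ^ m)
          (fun m => by fun_prop) (S_summable k (by norm_num) le_rfl) ?_
        intro m x hx
        rw [Real.norm_of_nonneg (by have := hx.1; positivity)]
        have := pow_le_pow_left₀ hx.1 hx.2 m
        gcongr
      have h3 : Tendsto (fun s : ℝ => ((p : ℕ) : ℝ) ^ (-s)) (𝓝[>] 1)
          (𝓝[Set.Icc 0 (1/2)] (((p : ℕ) : ℝ) ^ (-1:ℝ))) := by
        refine tendsto_nhdsWithin_iff.2 ⟨?_, ?_⟩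
        · have : Continuous fun s : ℝ => ((p : ℕ) : ℝ) ^ (-s) := by
            refine continuous_const.rpow (by fun_prop) ?_
            intro s; left; exact hp0.ne'
          exact (this.tendsto 1).mono_left nhdsWithin_le_nhds
        · filter_upwards [self_mem_nhdsWithin] with s hs
          exact rpow_mem (le_of_lt hs) p
      have h4 := (hcont _ (rpow_mem le_rfl p)).tendsto.comp h3
      exact (Real.continuousAt_log (H_pos' k (rpow_mem le_rfl p).1 (rpow_mem le_rfl p).2).ne').tendsto.comp h4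
    · filter_upwards [self_mem_nhdsWithin] with s hs p
      have hs' : (1:ℝ) ≤ s := le_of_lt hs
      rw [Real.norm_eq_abs]
      refine (hC _ (rpow_mem hs' p).1 (rpow_mem hs' p).2).trans ?_
      gcongr
      exact_mod_cast p.2.one_le
  refine h2.congr' ?_
  filter_upwards [self_mem_nhdsWithin] with s hs
  exact (P_eq_exp k (le_of_lt hs)).symm

/-- The Karamata data for `∑ d_k(n)^2/n`. -/
theorem zetaData {k : ℕ} (hk : 1 ≤ k) :
    KData (fun n => (dk k n : ℝ) ^ 2 / n) (fun n => Real.log n) (k ^ 2) (arith k) := by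
  have hterm : ∀ s : ℝ, 0 < s → ∀ n : ℕ, (dk k n : ℝ) ^ 2 / n * exp (-(s * Real.log n)) =
      fs k (1 + s) n := by
    intro s hs n
    rcases eq_or_ne n 0 with rfl | hn
    · simp [fs, dk_zero_right]
    · have hn0 : (0:ℝ) < n := by positivity
      unfold fs
      rw [rpow_def_of_pos hn0, div_eq_mul_inv, mul_assoc]
      congr 1
      have : (n:ℝ)⁻¹ = exp (-Real.log n) := by rw [Real.exp_neg, Real.exp_log hn0]
      rw [this, ← Real.exp_add]; congr 1; ring
  refine ⟨Nat.one_le_pow _ _ hk, fun n => by positivity, fun n => Real.log_natCast_nonneg n, ?_, ?_⟩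
  · intro s hs
    exact (fs_summable k (s := 1 + s) (by linarith only [hs])).congr fun n => (hterm s hs n).symm
  · have h1 : Tendsto (fun s : ℝ => 1 + s) (𝓝[>] 0) (𝓝[>] 1) := by
      refine tendsto_nhdsWithin_iff.2 ⟨?_, ?_⟩
      · have : Tendsto (fun s : ℝ => 1 + s) (𝓝 0) (𝓝 (1 + 0)) :=
          (continuous_const.add continuous_id).tendsto 0
        rw [add_zero] at this
        exact this.mono_left nhdsWithin_le_nhds
      · filter_upwards [self_mem_nhdsWithin] with s hs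
        have : (0:ℝ) < s := hs
        show (1:ℝ) < 1 + s
        linarith only [this]
    have h2 := ((tendsto_sub_mul_tsum_nat_rpow.comp h1).pow (k ^ 2)).mul ((tendsto_P k).comp h1)
    rw [one_pow, one_mul] at h2
    refine h2.congr' ?_
    filter_upwards [self_mem_nhdsWithin] with s hs
    have hs' : (0:ℝ) < s := hs
    simp only [Function.comp]
    rw [tsum_congr (hterm s hs'), fs_factor k (by linarith only [hs'])]
    unfold Zs
    rw [add_sub_cancel_left, mul_pow]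
    ring

lemma arith_multipliable (k : ℕ) : Multipliable fun p : Nat.Primes =>
    (1 - 1 / ((p : ℕ) : ℝ)) ^ (k ^ 2) *
    ∑' m : ℕ, (dk k ((p : ℕ) ^ m) : ℝ) ^ 2 / ((p : ℕ) : ℝ) ^ m := by
  have h1 : (fun p : Nat.Primes => (1 - 1 / ((p : ℕ) : ℝ)) ^ (k ^ 2) *
    ∑' m : ℕ, (dk k ((p : ℕ) ^ m) : ℝ) ^ 2 / ((p : ℕ) : ℝ) ^ m) =
      fun p : Nat.Primes => H k (((p : ℕ) : ℝ)⁻¹) := by
    funext p
    unfold H S
    rw [one_div]
    congr 1
    refine tsum_congr fun m => ?_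
    rw [dk_prime_pow p.2, inv_pow, div_eq_mul_inv]
  rw [h1]
  obtain ⟨C, hC, hb⟩ := logH_bound k
  refine Real.multipliable_of_summable_log (fun p => ?_) ?_
  · exact H_pos' k (by positivity) (prime_inv_le p)
  · refine Summable.of_norm_bounded (g := fun p : Nat.Primes => C * (((p : ℕ) : ℝ) ^ (-1:ℝ)) ^ 2)
      (logH_summable_bound.mul_left C) ?_
    intro p
    have := hb (((p : ℕ) : ℝ)⁻¹) (by positivity) (prime_inv_le p)
    rw [Real.norm_eq_abs, Real.rpow_neg_one]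
    exact this

end MP069854

end

section

namespace MP069854
open Filter Topology Complex Set

/-- Euler–Maclaurin term. -/
noncomputable def vt (n : ℕ) (s : ℂ) : ℂ :=
  (s - 1) * ((n : ℂ) + 1) ^ (-s) + (((n : ℂ) + 2) ^ (1 - s) - ((n : ℂ) + 1) ^ (1 - s))

lemma cast_add_ne (n : ℕ) (a : ℝ) (ha : 0 < a) : ((n : ℂ) + a) ≠ 0 := by
  have : ((n : ℂ) + a) = ((n + a : ℝ) : ℂ) := by push_cast; ring
  rw [this]
  exact_mod_cast (by positivity : (n:ℝ) + a ≠ 0)

lemma vt_differentiable (n : ℕ) : Differentiable ℂ (vt n) := by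
  unfold vt
  have h1 : ((n : ℂ) + 1) ≠ 0 := by simpa using cast_add_ne n 1 one_pos
  have h2 : ((n : ℂ) + 2) ≠ 0 := by simpa using cast_add_ne n 2 two_pos
  refine Differentiable.add (Differentiable.mul (by fun_prop) ?_) (Differentiable.sub ?_ ?_)
  · exact fun s => (DifferentiableAt.const_cpow (by fun_prop) (Or.inl h1))
  · exact fun s => (DifferentiableAt.const_cpow (by fun_prop) (Or.inl h2))
  · exact fun s => (DifferentiableAt.const_cpow (by fun_prop) (Or.inl h1))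

lemma hasDerivAt_cpow_line (n : ℕ) (x : ℝ) (hx : 0 ≤ x) (c : ℂ) :
    HasDerivAt (fun x : ℝ => ((n : ℂ) + 1 + x) ^ c) (c * ((n : ℂ) + 1 + x) ^ (c - 1)) x := by
  have h1 : HasDerivAt (fun x : ℝ => ((n : ℂ) + 1 + x)) 1 x := by
    simpa using (Complex.ofRealCLM.hasDerivAt (x := x)).const_add ((n : ℂ) + 1)
  have h2 : ((n : ℂ) + 1 + x) ∈ slitPlane := by
    left
    have : ((n : ℂ) + 1 + x).re = (n : ℝ) + 1 + x := by simp
    rw [this]; positivity
  have h3 : HasDerivAt (fun z : ℂ => z ^ c) (c * ((n : ℂ) + 1 + x) ^ (c - 1) * 1) ((n : ℂ) + 1 + x) :=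
    (hasDerivAt_id _).cpow_const h2
  have h4 := h3.comp_of_eq x h1 rfl
  rw [mul_one, mul_one] at h4
  exact h4

lemma norm_cpow_line (n : ℕ) (x : ℝ) (hx : 0 ≤ x) (c : ℂ) :
    ‖((n : ℂ) + 1 + x) ^ c‖ = ((n : ℝ) + 1 + x) ^ c.re := by
  have : ((n : ℂ) + 1 + x) = (((n : ℝ) + 1 + x : ℝ) : ℂ) := by push_cast; ring
  rw [this, Complex.norm_cpow_eq_rpow_re_of_pos (by positivity)]

lemma vt_bound (n : ℕ) (s : ℂ) (hs : -1 ≤ s.re) :
    ‖vt n s‖ ≤ ‖s - 1‖ * ‖s‖ * ((n : ℝ) + 1) ^ (-s.re - 1) := by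
  -- inner difference
  have h1 : ∀ x : ℝ, x ∈ Icc (0:ℝ) 1 →
      ‖((n : ℂ) + 1 + x) ^ (-s) - ((n : ℂ) + 1) ^ (-s)‖ ≤ ‖s‖ * ((n : ℝ) + 1) ^ (-s.re - 1) := by
    intro x hx
    have h2 := Convex.norm_image_sub_le_of_norm_hasDerivWithin_le (𝕜 := ℝ)
      (f := fun x : ℝ => ((n : ℂ) + 1 + x) ^ (-s)) (f' := fun x : ℝ => -s * ((n : ℂ) + 1 + x) ^ (-s - 1))
      (s := Icc (0:ℝ) 1) (x := 0) (y := x) (C := ‖s‖ * ((n : ℝ) + 1) ^ (-s.re - 1))
      (fun y hy => (hasDerivAt_cpow_line n y hy.1 (-s)).hasDerivWithinAt)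
      (fun y hy => by
        rw [norm_mul, norm_neg, norm_cpow_line n y hy.1]
        apply mul_le_mul_of_nonneg_left _ (norm_nonneg _)
        have h3 : (-s - 1).re = -s.re - 1 := by simp
        rw [h3]
        apply Real.rpow_le_rpow_of_nonpos (by positivity) (by linarith only [hy.1, hy]) (by linarith only [hs]))
      (convex_Icc 0 1) (by simp) hx
    simp only [ofReal_zero, add_zero] at h2
    refine h2.trans ?_
    have h4 : ‖x - 0‖ ≤ 1 := by
      rw [sub_zero, Real.norm_eq_abs, abs_of_nonneg hx.1]; exact hx.2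
    calc ‖s‖ * ((n : ℝ) + 1) ^ (-s.re - 1) * ‖x - 0‖
        ≤ ‖s‖ * ((n : ℝ) + 1) ^ (-s.re - 1) * 1 := by gcongr
      _ = _ := mul_one _
  have h5 : vt n s = (fun x : ℝ => (s - 1) * ((n : ℂ) + 1) ^ (-s) * x + ((n : ℂ) + 1 + x) ^ (1 - s)) 1 -
      (fun x : ℝ => (s - 1) * ((n : ℂ) + 1) ^ (-s) * x + ((n : ℂ) + 1 + x) ^ (1 - s)) 0 := by
    simp only [vt, ofReal_one, ofReal_zero, mul_one, mul_zero, add_zero, zero_add]
    rw [show (n : ℂ) + 1 + 1 = n + 2 by ring]
    ring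
  rw [h5]
  have hmain := Convex.norm_image_sub_le_of_norm_hasDerivWithin_le (𝕜 := ℝ)
    (f := fun x : ℝ => (s - 1) * ((n : ℂ) + 1) ^ (-s) * x + ((n : ℂ) + 1 + x) ^ (1 - s))
    (f' := fun x : ℝ => (s - 1) * ((n : ℂ) + 1) ^ (-s) + (1 - s) * ((n : ℂ) + 1 + x) ^ (1 - s - 1))
    (s := Icc (0:ℝ) 1) (x := 0) (y := 1) (C := ‖s - 1‖ * ‖s‖ * ((n : ℝ) + 1) ^ (-s.re - 1))
    ?_ ?_ (convex_Icc 0 1) (by simp) (by simp)
  · simpa using hmain
  · intro x hx
    have h6 := hasDerivAt_cpow_line n x hx.1 (1 - s)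
    have h7 : HasDerivAt (fun x : ℝ => (s - 1) * ((n : ℂ) + 1) ^ (-s) * (x : ℂ))
        ((s - 1) * ((n : ℂ) + 1) ^ (-s)) x := by
      simpa using (Complex.ofRealCLM.hasDerivAt (x := x)).const_mul ((s - 1) * ((n : ℂ) + 1) ^ (-s))
    exact (h7.add h6).hasDerivWithinAt
  · intro x hx
    have h8 : (s - 1) * ((n : ℂ) + 1) ^ (-s) + (1 - s) * ((n : ℂ) + 1 + x) ^ (1 - s - 1) =
        -((s - 1) * (((n : ℂ) + 1 + x) ^ (-s) - ((n : ℂ) + 1) ^ (-s))) := by
      rw [show (1 - s - 1) = -s by ring]; ring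
    rw [h8, norm_neg, norm_mul, mul_assoc]
    exact mul_le_mul_of_nonneg_left (h1 x hx) (norm_nonneg _)

lemma rpow_summable {σ : ℝ} (hσ : 0 < σ) : Summable fun n : ℕ => ((n : ℝ) + 1) ^ (-σ - 1) := by
  have h := (summable_nat_add_iff 1).2 (Real.summable_nat_rpow.2 (show -σ - 1 < -1 by linarith only [hσ]))
  refine h.congr ?_
  intro n; push_cast; rfl

lemma vt_summable {s : ℂ} (hs : 0 < s.re) : Summable fun n => vt n s :=
  Summable.of_norm_bounded ((rpow_summable hs).mul_left (‖s - 1‖ * ‖s‖))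
    (fun n => vt_bound n s (by linarith only [hs]))

lemma vt_tsum_differentiableAt {s₀ : ℂ} (hs : 0 < s₀.re) :
    DifferentiableAt ℂ (fun s => ∑' n, vt n s) s₀ := by
  set V : Set ℂ := {s : ℂ | s₀.re / 2 < s.re} ∩ Metric.ball 0 (‖s₀‖ + 1) with hV
  have hVo : IsOpen V := (isOpen_lt continuous_const continuous_re).inter Metric.isOpen_ball
  have hmem : s₀ ∈ V := by
    refine ⟨?_, ?_⟩
    · show s₀.re / 2 < s₀.re
      linarith only [hs]
    · rw [mem_ball_zero_iff]; linarith only []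
  have h1 : DifferentiableOn ℂ (fun s => ∑' n, vt n s) V := by
    refine Complex.differentiableOn_tsum_of_summable_norm
      (u := fun n : ℕ => (‖s₀‖ + 2) * (‖s₀‖ + 1) * ((n : ℝ) + 1) ^ (-(s₀.re / 2) - 1))
      ((rpow_summable (by linarith only [hs])).mul_left _) (fun n => (vt_differentiable n).differentiableOn) hVo ?_
    intro n w hw
    have hw1 : s₀.re / 2 < w.re := hw.1
    have hw2 : ‖w‖ < ‖s₀‖ + 1 := by simpa using hw.2
    refine (vt_bound n w (by linarith only [hs, hw1])).trans ?_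
    have h2 : ‖w - 1‖ ≤ ‖s₀‖ + 2 := by
      calc ‖w - 1‖ ≤ ‖w‖ + ‖(1:ℂ)‖ := norm_sub_le _ _
        _ ≤ _ := by rw [norm_one]; linarith only [hw2]
    have h3 : ((n : ℝ) + 1) ^ (-w.re - 1) ≤ ((n : ℝ) + 1) ^ (-(s₀.re / 2) - 1) :=
      Real.rpow_le_rpow_of_exponent_le (by linarith only [Nat.cast_nonneg (α := ℝ) n]) (by linarith only [hw1])
    gcongr
  exact (h1 s₀ hmem).differentiableAt (hVo.mem_nhds hmem)

lemma vt_tsum_of_one_lt {s : ℂ} (hs : 1 < s.re) :
    ∑' n, vt n s = (s - 1) * riemannZeta s - 1 := by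
  have hs0 : 0 < s.re := by linarith only [hs]
  have h1 : HasSum (fun n : ℕ => (s - 1) * ((n : ℂ) + 1) ^ (-s)) ((s - 1) * riemannZeta s) := by
    rw [zeta_eq_tsum_one_div_nat_add_one_cpow hs]
    have h2 : Summable fun n : ℕ => 1 / ((n : ℂ) + 1) ^ s := by
      have := (summable_nat_add_iff 1).2 (Complex.summable_one_div_nat_cpow.2 hs)
      refine this.congr ?_
      intro n; push_cast; rfl
    refine (h2.hasSum.mul_left (s - 1)).congr_fun ?_
    intro n
    rw [cpow_neg, one_div]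
  have h3 : Summable fun n : ℕ => (((n : ℂ) + 2) ^ (1 - s) - ((n : ℂ) + 1) ^ (1 - s)) := by
    refine ((vt_summable hs0).sub h1.summable).congr ?_
    intro n; unfold vt; ring
  have h4 : HasSum (fun n : ℕ => (((n : ℂ) + 2) ^ (1 - s) - ((n : ℂ) + 1) ^ (1 - s))) (0 - 1) := by
    rw [h3.hasSum_iff_tendsto_nat]
    have h5 : ∀ N : ℕ, ∑ n ∈ Finset.range N, (((n : ℂ) + 2) ^ (1 - s) - ((n : ℂ) + 1) ^ (1 - s)) =
        ((N : ℂ) + 1) ^ (1 - s) - 1 := by
      intro N
      have := Finset.sum_range_sub (fun n : ℕ => ((n : ℂ) + 1) ^ (1 - s)) N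
      simp only [Nat.cast_zero, zero_add, one_cpow] at this
      rw [← this]
      refine Finset.sum_congr rfl fun n _ => ?_
      push_cast
      rw [show (n : ℂ) + 1 + 1 = n + 2 by ring]
    simp only [h5]
    refine Tendsto.sub_const ?_ 1
    rw [tendsto_zero_iff_norm_tendsto_zero]
    have h6 : ∀ N : ℕ, ‖((N : ℂ) + 1) ^ (1 - s)‖ = ((N : ℝ) + 1) ^ (-(s.re - 1)) := by
      intro N
      have := norm_cpow_line N 0 le_rfl (1 - s)
      simp only [ofReal_zero, add_zero] at this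
      rw [this]; congr 1; simp
    simp only [h6]
    have h7 : Tendsto (fun N : ℕ => (N : ℝ) + 1) atTop atTop :=
      tendsto_atTop_add_const_right _ _ tendsto_natCast_atTop_atTop
    exact (tendsto_rpow_neg_atTop (by linarith only [hs] : 0 < s.re - 1)).comp h7
  have h8 := h1.add h4
  rw [show (s - 1) * riemannZeta s - 1 = (s - 1) * riemannZeta s + (0 - 1) by ring]
  exact h8.tsum_eq

lemma zeta_formula {s : ℂ} (hs : 0 < s.re) (h1 : s ≠ 1) :
    (s - 1) * riemannZeta s = 1 + ∑' n, vt n s := by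
  have hU : IsOpen {s : ℂ | 0 < s.re} := isOpen_lt continuous_const continuous_re
  have hA : AnalyticOnNhd ℂ riemannZeta₁ {s : ℂ | 0 < s.re} :=
    (differentiable_riemannZeta₁.differentiableOn).analyticOnNhd hU
  have hB : AnalyticOnNhd ℂ (fun s => 1 + ∑' n, vt n s) {s : ℂ | 0 < s.re} := by
    refine DifferentiableOn.analyticOnNhd ?_ hU
    intro z hz
    exact ((vt_tsum_differentiableAt hz).const_add 1).differentiableWithinAt
  have hpre : IsPreconnected {s : ℂ | 0 < s.re} := (convex_halfSpace_re_gt 0).isPreconnected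
  have hmem : (2 : ℂ) ∈ {s : ℂ | 0 < s.re} := by simp
  have heq : riemannZeta₁ =ᶠ[𝓝 2] fun s => 1 + ∑' n, vt n s := by
    have : {s : ℂ | 1 < s.re} ∈ 𝓝 (2 : ℂ) :=
      (isOpen_lt continuous_const continuous_re).mem_nhds (by simp)
    filter_upwards [this] with z hz
    have hz1 : z ≠ 1 := by rintro rfl; simp at hz
    rw [vt_tsum_of_one_lt hz]
    rw [riemannZeta_eq_inv_sub_mul hz1]
    have : z - 1 ≠ 0 := sub_ne_zero.2 hz1
    field_simp
    ring
  have h2 := hA.eqOn_of_preconnected_of_eventuallyEq hB hpre hmem heq hs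
  simp only at h2
  rw [← h2, riemannZeta_eq_inv_sub_mul h1]
  have : s - 1 ≠ 0 := sub_ne_zero.2 h1
  field_simp

/-- Polynomial growth of `ζ` in the half plane `Re s ≥ 1/2`. -/
lemma zeta_growth : ∃ C : ℝ, 1 ≤ C ∧ ∀ s : ℂ, 1/2 ≤ s.re → s ≠ 1 →
    ‖riemannZeta s‖ ≤ 1 / ‖s - 1‖ + C * ‖s‖ := by
  set C := ∑' n : ℕ, ((n : ℝ) + 1) ^ (-(1/2 : ℝ) - 1) with hC
  have hsum := rpow_summable (show (0:ℝ) < 1/2 by norm_num)
  refine ⟨C, ?_, ?_⟩
  · have := hsum.le_tsum 0 (fun n _ => by positivity)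
    simpa [hC] using this
  · intro s hs h1
    have hs0 : 0 < s.re := by linarith only [hs]
    have hne : 0 < ‖s - 1‖ := norm_pos_iff.2 (sub_ne_zero.2 h1)
    have h2 : ‖(s - 1) * riemannZeta s‖ ≤ 1 + ‖s - 1‖ * ‖s‖ * C := by
      rw [zeta_formula hs0 h1]
      refine (norm_add_le _ _).trans ?_
      rw [norm_one]
      gcongr
      rw [hC, ← tsum_mul_left]
      refine tsum_of_norm_bounded (hsum.mul_left _).hasSum ?_
      intro n
      refine (vt_bound n s (by linarith only [hs0])).trans ?_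
      have : ((n : ℝ) + 1) ^ (-s.re - 1) ≤ ((n : ℝ) + 1) ^ (-(1/2:ℝ) - 1) :=
        Real.rpow_le_rpow_of_exponent_le (by linarith only [Nat.cast_nonneg (α := ℝ) n]) (by linarith only [hs])
      gcongr
    rw [norm_mul] at h2
    have h3 : ‖riemannZeta s‖ ≤ (1 + ‖s - 1‖ * ‖s‖ * C) / ‖s - 1‖ := by
      rw [le_div_iff₀ hne, mul_comm]; exact h2
    refine h3.trans (le_of_eq ?_)
    field_simp

/-- `‖ζ(s)‖ ≤ C‖s‖` for `Re s ≥ 1/2`, away from `1`. -/
lemma zeta_growth' : ∃ C : ℝ, 1 ≤ C ∧ ∀ s : ℂ, 1/2 ≤ s.re → 1/2 ≤ ‖s - 1‖ →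
    ‖riemannZeta s‖ ≤ C * ‖s‖ := by
  obtain ⟨C, hC1, hC⟩ := zeta_growth
  refine ⟨C + 4, by linarith only [hC1], ?_⟩
  intro s hs h1
  have hne : s ≠ 1 := by rintro rfl; norm_num at h1
  refine (hC s hs hne).trans ?_
  have h2 : 1 / ‖s - 1‖ ≤ 2 := by
    rw [div_le_iff₀ (by linarith only [h1])]; linarith only [h1]
  have h3 : 1/2 ≤ ‖s‖ := hs.trans ((le_abs_self _).trans (abs_re_le_norm s))
  nlinarith only [h2, h3]

end MP069854

end
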