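import Mathlib
import Pool.Agent.Lib.MP_069854_nt.Part01
import Pool.Agent.Lib.MP_069854_nt.Part02

section

namespace MP069854
open Filter Topology Complex Set MeasureTheory
open scoped ContDiff FourierTransform

/-- The two-sided Laplace transform. -/
noncomputable def G (g : ℝ → ℂ) (w : ℂ) : ℂ := ∫ u : ℝ, g u * exp (u * w)

/-- Smooth functions supported in `[A,B]`. -/
structure TF (g : ℝ → ℂ) (A B : ℝ) : Prop where
  smooth : ContDiff ℝ ∞ g
  supp : tsupport g ⊆ Icc A B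

namespace TF
variable {g : ℝ → ℂ} {A B : ℝ}

lemma hcs (h : TF g A B) : HasCompactSupport g :=
  HasCompactSupport.of_support_subset_isCompact isCompact_Icc ((subset_tsupport g).trans h.supp)

lemma cont (h : TF g A B) : Continuous g := h.smooth.continuous

lemma zero_of (h : TF g A B) {u : ℝ} (hu : ¬ (A ≤ u ∧ u ≤ B)) : g u = 0 := by
  by_contra hne
  exact hu (h.supp (subset_tsupport g hne))

lemma der (h : TF g A B) : TF (deriv g) A B := by
  refine ⟨?_, ?_⟩
  · have := h.smooth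
    exact (contDiff_infty_iff_deriv.1 this).2
  · refine (closure_minimal ?_ (isClosed_tsupport g)).trans h.supp
    exact support_deriv_subset

lemma refl (h : TF g A B) : TF (fun u => g (-u)) (-B) (-A) := by
  refine ⟨h.smooth.comp contDiff_neg, ?_⟩
  refine closure_minimal ?_ isClosed_Icc
  intro u hu
  have := h.supp (subset_tsupport g (show g (-u) ≠ 0 from hu))
  exact ⟨by linarith [this.2], by linarith [this.1]⟩

lemma integrable_mul_exp (h : TF g A B) (w : ℂ) : Integrable fun u : ℝ => g u * exp (u * w) := by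
  refine Continuous.integrable_of_hasCompactSupport ?_ (h.hcs.mul_right)
  exact h.cont.mul (by fun_prop)

lemma G_deriv (h : TF g A B) (w : ℂ) : G (deriv g) w = -w * G g w := by
  have hd : ∀ x : ℝ, HasDerivAt g (deriv g x) x := fun x =>
    ((h.smooth.differentiable (by simp)) x).hasDerivAt
  have he : ∀ x : ℝ, HasDerivAt (fun u : ℝ => exp (u * w)) (exp (x * w) * w) x := by
    intro x
    have h1 : HasDerivAt (fun u : ℝ => (u : ℂ) * w) w x := by
      simpa using (Complex.ofRealCLM.hasDerivAt (x := x)).mul_const w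
    exact h1.cexp
  have h2 := integral_mul_deriv_eq_deriv_mul_of_integrable (u := g) (v := fun u : ℝ => exp (u * w))
    (u' := deriv g) (v' := fun x : ℝ => exp (x * w) * w) (fun x _ => hd x) (fun x _ => he x)
    ?_ (h.der.integrable_mul_exp w) (h.integrable_mul_exp w)
  · unfold G
    have h3 : ∫ x : ℝ, deriv g x * exp (x * w) = - ∫ x : ℝ, g x * (exp (x * w) * w) := by
      rw [h2, neg_neg]
    rw [h3, ← integral_const_mul, ← integral_neg]
    refine integral_congr_ae (Eventually.of_forall fun x => ?_)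
    simp only; ring
  · have := (h.integrable_mul_exp w).mul_const w
    refine this.congr (Eventually.of_forall fun x => ?_)
    simp only [Pi.mul_apply]; ring

lemma G_refl (w : ℂ) : G (fun u => g (-u)) w = G g (-w) := by
  unfold G
  rw [← integral_neg_eq_self]
  refine integral_congr_ae (Eventually.of_forall fun x => ?_)
  simp

lemma G_bound_right (M : ℕ) : ∀ {g : ℝ → ℂ} {A B : ℝ}, TF g A B →
    ∃ C : ℝ, 0 ≤ C ∧ ∀ w : ℂ, 0 ≤ w.re → ‖w‖ ^ M * ‖G g w‖ ≤ C * Real.exp (B * w.re) := by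
  induction M with
  | zero =>
    intro g A B h
    refine ⟨∫ u, ‖g u‖, integral_nonneg fun _ => norm_nonneg _, ?_⟩
    intro w hw
    rw [pow_zero, one_mul]
    unfold G
    rw [← integral_mul_const]
    refine norm_integral_le_of_norm_le ?_ (Eventually.of_forall fun u => ?_)
    · exact ((h.cont.norm).integrable_of_hasCompactSupport h.hcs.norm).mul_const _
    · rw [norm_mul, norm_exp]
      by_cases hu : A ≤ u ∧ u ≤ B
      · apply mul_le_mul_of_nonneg_left _ (norm_nonneg _)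
        apply Real.exp_le_exp.2
        have : ((u : ℂ) * w).re = u * w.re := by simp
        rw [this]
        exact mul_le_mul_of_nonneg_right hu.2 hw
      · rw [h.zero_of hu]; simp
  | succ M ih =>
    intro g A B h
    obtain ⟨C, hC0, hC⟩ := ih h.der
    refine ⟨C, hC0, ?_⟩
    intro w hw
    have := hC w hw
    rw [h.G_deriv, norm_mul, norm_neg] at this
    calc ‖w‖ ^ (M + 1) * ‖G g w‖ = ‖w‖ ^ M * (‖w‖ * ‖G g w‖) := by ring
      _ ≤ _ := this

lemma G_bound_left (M : ℕ) (h : TF g A B) :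
    ∃ C : ℝ, 0 ≤ C ∧ ∀ w : ℂ, w.re ≤ 0 → ‖w‖ ^ M * ‖G g w‖ ≤ C * Real.exp (A * w.re) := by
  obtain ⟨C, hC0, hC⟩ := G_bound_right M h.refl
  refine ⟨C, hC0, ?_⟩
  intro w hw
  have := hC (-w) (by simpa using hw)
  rw [G_refl, norm_neg, neg_neg] at this
  refine this.trans (le_of_eq ?_)
  congr 2; simp

lemma G_differentiable (h : TF g A B) : Differentiable ℂ (G g) := by
  intro w₀
  have h1 := hasDerivAt_integral_of_dominated_loc_of_deriv_le (𝕜 := ℂ) (μ := volume)
    (F := fun (w : ℂ) (u : ℝ) => g u * exp (u * w)) (F' := fun (w : ℂ) (u : ℝ) => g u * (exp (u * w) * u))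
    (x₀ := w₀) (s := Metric.ball w₀ 1) (bound := fun u => ‖g u‖ * (Real.exp (|u| * (‖w₀‖ + 1)) * |u|))
    (Metric.ball_mem_nhds _ one_pos) ?_ (h.integrable_mul_exp w₀) ?_ ?_ ?_ ?_
  · exact h1.2.differentiableAt
  · exact Eventually.of_forall fun w => (h.integrable_mul_exp w).aestronglyMeasurable
  · refine Continuous.aestronglyMeasurable ?_
    exact h.cont.mul (by fun_prop)
  · refine Eventually.of_forall fun u w hw => ?_
    rw [norm_mul, norm_mul, norm_exp, Complex.norm_real, Real.norm_eq_abs]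
    apply mul_le_mul_of_nonneg_left _ (norm_nonneg _)
    apply mul_le_mul_of_nonneg_right _ (abs_nonneg _)
    apply Real.exp_le_exp.2
    have h2 : ((u : ℂ) * w).re = u * w.re := by simp
    rw [h2]
    have h3 : ‖w‖ ≤ ‖w₀‖ + 1 := by
      have := norm_sub_norm_le w w₀
      have h4 : ‖w - w₀‖ < 1 := by simpa [dist_eq_norm] using hw
      linarith
    calc u * w.re ≤ |u * w.re| := le_abs_self _
      _ = |u| * |w.re| := abs_mul _ _
      _ ≤ |u| * (‖w₀‖ + 1) := by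
        apply mul_le_mul_of_nonneg_left _ (abs_nonneg _)
        exact (abs_re_le_norm w).trans h3
  · refine Continuous.integrable_of_hasCompactSupport ?_ (h.hcs.norm.mul_right)
    exact h.cont.norm.mul (by fun_prop)
  · refine Eventually.of_forall fun u w _ => ?_
    have h5 : HasDerivAt (fun w : ℂ => (u : ℂ) * w) u w := by
      simpa using (hasDerivAt_id w).const_mul (u : ℂ)
    exact (h5.cexp).const_mul (g u)

/-- Decay along vertical lines. -/
lemma G_vert_integrable (h : TF g A B) (a : ℝ) : Integrable fun x : ℝ => G g (a + x * I) := by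
  have hcont : Continuous fun x : ℝ => G g (a + x * I) :=
    h.G_differentiable.continuous.comp (by fun_prop)
  obtain ⟨C0, hC0, h0⟩ := G_bound_right 0 h
  obtain ⟨C2, hC2, h2⟩ := G_bound_right 2 h
  obtain ⟨D0, hD0, d0⟩ := h.G_bound_left 0
  obtain ⟨D2, hD2, d2⟩ := h.G_bound_left 2
  set E := (C0 + C2 + D0 + D2) * (Real.exp (B * a) + Real.exp (A * a)) with hE
  refine Integrable.mono' (g := fun x => E * (1 + x ^ 2)⁻¹)
    (integrable_inv_one_add_sq.const_mul E) hcont.aestronglyMeasurable ?_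
  refine Eventually.of_forall fun x => ?_
  have hre : ((a : ℂ) + x * I).re = a := by simp
  have him : ((a : ℂ) + x * I).im = x := by simp
  have hx : x ^ 2 ≤ ‖(a : ℂ) + x * I‖ ^ 2 := by
    rw [← Complex.normSq_eq_norm_sq, Complex.normSq_apply, hre, him]; nlinarith [sq_nonneg a]
  have key : (1 + x ^ 2) * ‖G g (a + x * I)‖ ≤ E := by
    have eB := Real.exp_pos (B * a)
    have eA := Real.exp_pos (A * a)
    rcases le_total 0 a with ha | ha
    · have r0 := h0 (a + x * I) (by rw [hre]; exact ha)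
      have r2 := h2 (a + x * I) (by rw [hre]; exact ha)
      rw [hre, pow_zero, one_mul] at r0
      rw [hre] at r2
      have r3 : x ^ 2 * ‖G g (a + x * I)‖ ≤ C2 * Real.exp (B * a) :=
        (mul_le_mul_of_nonneg_right hx (norm_nonneg _)).trans r2
      rw [hE]
      have p1 := mul_nonneg (add_nonneg hD0 hD2) eB.le
      have p2 := mul_nonneg (add_nonneg (add_nonneg (add_nonneg hC0 hC2) hD0) hD2) eA.le
      nlinarith
    · have r0 := d0 (a + x * I) (by rw [hre]; exact ha)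
      have r2 := d2 (a + x * I) (by rw [hre]; exact ha)
      rw [hre, pow_zero, one_mul] at r0
      rw [hre] at r2
      have r3 : x ^ 2 * ‖G g (a + x * I)‖ ≤ D2 * Real.exp (A * a) :=
        (mul_le_mul_of_nonneg_right hx (norm_nonneg _)).trans r2
      rw [hE]
      have p1 := mul_nonneg (add_nonneg hC0 hC2) eA.le
      have p2 := mul_nonneg (add_nonneg (add_nonneg (add_nonneg hC0 hC2) hD0) hD2) eB.le
      nlinarith
  have hpos : 0 < 1 + x ^ 2 := by positivity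
  rw [← div_eq_mul_inv, le_div_iff₀ hpos, mul_comm]
  exact key

/-- Fourier inversion on vertical lines. -/
lemma inversion (h : TF g A B) (a v : ℝ) :
    ∫ x : ℝ, G g (a + x * I) * exp (-(x * v) * I) = 2 * Real.pi * (Real.exp (a * v) * g v) := by
  set f : ℝ → ℂ := fun u => g u * exp (u * a) with hf
  have hfc : Continuous f := h.cont.mul (by fun_prop)
  have hfi : Integrable f := h.integrable_mul_exp a
  have hG : ∀ x : ℝ, G g (a + x * I) = 𝓕⁻ f (x / (2 * Real.pi)) := by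
    intro x
    rw [Real.fourierInv_eq']
    unfold G
    refine integral_congr_ae (Eventually.of_forall fun u => ?_)
    simp only [hf, smul_eq_mul]
    rw [mul_left_comm, ← exp_add]
    congr 2
    have hpi : (Real.pi : ℝ) ≠ 0 := Real.pi_ne_zero
    have h1 : (2 * Real.pi * inner ℝ u (x / (2 * Real.pi)) : ℝ) = u * x := by
      simp only [RCLike.inner_apply, conj_trivial]
      field_simp
    rw [h1]; push_cast; ring
  have hF : ∀ x : ℝ, 𝓕 f (x) = G g (a + (-(2 * Real.pi * x) : ℝ) * I) := by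
    intro x
    rw [Real.fourier_eq']
    unfold G
    refine integral_congr_ae (Eventually.of_forall fun u => ?_)
    simp only [hf, smul_eq_mul]
    rw [mul_left_comm, ← exp_add]
    congr 2
    have h1 : (-2 * Real.pi * inner ℝ u x : ℝ) = -(2 * Real.pi * x) * u := by
      simp only [RCLike.inner_apply, conj_trivial]; ring
    rw [h1]; push_cast; ring
  have hFi : Integrable (𝓕 f) := by
    have h2 : 𝓕 f = fun x : ℝ => G g (a + (-(2 * Real.pi * x) : ℝ) * I) := funext hF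
    rw [h2]
    have h3 := (h.G_vert_integrable a).comp_mul_left' (R := -(2 * Real.pi)) (by
      have := Real.pi_pos; linarith)
    refine h3.congr (Eventually.of_forall fun x => ?_)
    simp only; congr 2; push_cast; ring
  have hinv := hfc.fourier_fourierInv_eq hfi hFi
  have hinv' := congrFun hinv v
  rw [Real.fourier_eq'] at hinv'
  have h4 : ∫ x : ℝ, G g (a + x * I) * exp (-(x * v) * I) =
      ∫ x : ℝ, (fun y : ℝ => exp ((-2 * Real.pi * inner ℝ y v : ℝ) * I) • 𝓕⁻ f y) ((2 * Real.pi)⁻¹ * x) := by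
    refine integral_congr_ae (Eventually.of_forall fun x => ?_)
    simp only [smul_eq_mul]
    rw [hG x, mul_comm]
    have hpi : (Real.pi : ℝ) ≠ 0 := Real.pi_ne_zero
    have h5 : (-2 * Real.pi * inner ℝ ((2 * Real.pi)⁻¹ * x) v : ℝ) = -(x * v) := by
      simp only [RCLike.inner_apply, conj_trivial]
      field_simp
    rw [h5, div_eq_inv_mul]
    push_cast; ring
  have h6 := Measure.integral_comp_mul_left
    (fun y : ℝ => exp ((-2 * Real.pi * inner ℝ y v : ℝ) * I) • 𝓕⁻ f y) ((2 * Real.pi)⁻¹)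
  rw [h4, h6, hinv']
  simp only [hf]
  rw [inv_inv, abs_of_pos (by positivity)]
  rw [Complex.real_smul]
  push_cast
  rw [mul_comm (v : ℂ) (a : ℂ)]
  ring

end TF
end MP069854

end

section

namespace MP069854
open Filter Topology Real Finset

lemma dk_exp_summable_sq (k : ℕ) {θ : ℝ} (hθ : 0 < θ) :
    Summable fun n : ℕ => (dk k n : ℝ) ^ 2 * exp (-((1 + θ) * Real.log n)) := by
  refine (fs_summable k (s := 1 + θ) (by linarith)).congr ?_
  intro n
  rcases eq_or_ne n 0 with rfl | hn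
  · simp [fs, dk_zero_right]
  · have hn0 : (0:ℝ) < n := by positivity
    unfold fs
    rw [rpow_def_of_pos hn0]
    congr 2; ring

lemma dk_exp_summable (k : ℕ) {θ : ℝ} (hθ : 0 < θ) :
    Summable fun n : ℕ => (dk k n : ℝ) * exp (-((1 + θ) * Real.log n)) := by
  refine Summable.of_nonneg_of_le (fun n => by positivity) ?_ (dk_exp_summable_sq k hθ)
  intro n
  apply mul_le_mul_of_nonneg_right _ (exp_pos _).le
  rcases Nat.eq_zero_or_pos (dk k n) with h | h
  · rw [h]; simp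
  · have : (1:ℝ) ≤ dk k n := by exact_mod_cast h
    nlinarith

lemma two_sided_harmonic (R m : ℕ) (hm : m ∈ Icc 1 R) :
    ∑ n ∈ (Icc 1 R).filter (· ≠ m), 1 / |(n:ℝ) - m| ≤ 2 * (1 + Real.log R) := by
  classical
  have hm1 := (mem_Icc.1 hm).1
  have hm2 := (mem_Icc.1 hm).2
  have hH : ∑ j ∈ Icc 1 R, 1 / (j:ℝ) ≤ 1 + Real.log R := by
    have := harmonic_le_one_add_log R
    rw [harmonic_eq_sum_Icc] at this
    push_cast at this
    simpa using this
  have hsplit : (Icc 1 R).filter (· ≠ m) = (Icc 1 R).filter (· < m) ∪ (Icc 1 R).filter (m < ·) := by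
    ext n; simp only [mem_filter, mem_union, mem_Icc, ne_eq]; omega
  rw [hsplit, sum_union]
  · have h1 : ∑ n ∈ (Icc 1 R).filter (· < m), 1 / |(n:ℝ) - m| ≤ ∑ j ∈ Icc 1 R, 1 / (j:ℝ) := by
      have h2 : ∑ n ∈ (Icc 1 R).filter (· < m), 1 / |(n:ℝ) - m| =
          ∑ j ∈ ((Icc 1 R).filter (· < m)).image (fun n => m - n), 1 / (j:ℝ) := by
        rw [sum_image]
        · refine sum_congr rfl fun n hn => ?_
          have hn' := (mem_filter.1 hn).2
          rw [Nat.cast_sub hn'.le]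
          rw [abs_sub_comm, abs_of_pos]
          have : (n:ℝ) < m := by exact_mod_cast hn'
          linarith
        · intro a ha b hb hab
          have ha' := (mem_filter.1 ha).2
          have hb' := (mem_filter.1 hb).2
          simp only at hab; omega
      rw [h2]
      refine sum_le_sum_of_subset_of_nonneg ?_ (fun j _ _ => by positivity)
      intro j hj
      rw [mem_image] at hj
      obtain ⟨n, hn, rfl⟩ := hj
      rw [mem_filter, mem_Icc] at hn
      have hn1 := hn.1.1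
      have hn2 := hn.1.2
      have hn3 := hn.2
      rw [mem_Icc]
      constructor <;> omega
    have h3 : ∑ n ∈ (Icc 1 R).filter (m < ·), 1 / |(n:ℝ) - m| ≤ ∑ j ∈ Icc 1 R, 1 / (j:ℝ) := by
      have h2 : ∑ n ∈ (Icc 1 R).filter (m < ·), 1 / |(n:ℝ) - m| =
          ∑ j ∈ ((Icc 1 R).filter (m < ·)).image (fun n => n - m), 1 / (j:ℝ) := by
        rw [sum_image]
        · refine sum_congr rfl fun n hn => ?_
          have hn' := (mem_filter.1 hn).2
          rw [Nat.cast_sub hn'.le]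
          rw [abs_of_pos]
          have : (m:ℝ) < n := by exact_mod_cast hn'
          linarith
        · intro a ha b hb hab
          have ha' := (mem_filter.1 ha).2
          have hb' := (mem_filter.1 hb).2
          simp only at hab; omega
      rw [h2]
      refine sum_le_sum_of_subset_of_nonneg ?_ (fun j _ _ => by positivity)
      intro j hj
      rw [mem_image] at hj
      obtain ⟨n, hn, rfl⟩ := hj
      rw [mem_filter, mem_Icc] at hn
      have hn1 := hn.1.1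
      have hn2 := hn.1.2
      have hn3 := hn.2
      rw [mem_Icc]
      constructor <;> omega
    linarith
  · rw [disjoint_filter]
    intro x _ hx; omega

/-- The weight `(mn)^{-1/2}`. -/
noncomputable def rho (x : ℕ × ℕ) : ℝ := exp (-((Real.log x.1 + Real.log x.2) / 2))

/-- The square-root trick for near-diagonal terms. -/
lemma near_sum (k : ℕ) {θ : ℝ} (hθ : 0 < θ) : ∃ C : ℝ, 0 ≤ C ∧ ∀ R : ℕ,
    ∑ m ∈ Icc 1 R, ∑ n ∈ (Icc 1 R).filter (· ≠ m), (dk k m : ℝ) * dk k n / |(n:ℝ) - m| ≤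
      C * (R:ℝ) ^ (1 + 2 * θ) := by
  set D := ∑' n : ℕ, (dk k n : ℝ) ^ 2 * exp (-((1 + θ) * Real.log n)) with hD
  have hD0 : 0 ≤ D := tsum_nonneg fun n => by positivity
  refine ⟨2 * (1 + 1 / θ) * D, by positivity, ?_⟩
  intro R
  rcases Nat.eq_zero_or_pos R with rfl | hR
  · simp; positivity
  have hR0 : (0:ℝ) < R := by exact_mod_cast hR
  have hR1 : (1:ℝ) ≤ R := by exact_mod_cast hR
  -- AM-GM
  have h1 : ∑ m ∈ Icc 1 R, ∑ n ∈ (Icc 1 R).filter (· ≠ m), (dk k m : ℝ) * dk k n / |(n:ℝ) - m| ≤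
      ∑ m ∈ Icc 1 R, ∑ n ∈ (Icc 1 R).filter (· ≠ m),
        ((dk k m : ℝ) ^ 2 / 2 * (1 / |(n:ℝ) - m|) + (dk k n : ℝ) ^ 2 / 2 * (1 / |(n:ℝ) - m|)) := by
    refine sum_le_sum fun m _ => sum_le_sum fun n _ => ?_
    have h2 : (dk k m : ℝ) * dk k n ≤ (dk k m : ℝ) ^ 2 / 2 + (dk k n : ℝ) ^ 2 / 2 := by
      nlinarith [sq_nonneg ((dk k m : ℝ) - dk k n)]
    rw [← add_mul, div_eq_mul_one_div]
    exact mul_le_mul_of_nonneg_right h2 (by positivity)
  have h3 : ∑ m ∈ Icc 1 R, ∑ n ∈ (Icc 1 R).filter (· ≠ m), (dk k n : ℝ) ^ 2 / 2 * (1 / |(n:ℝ) - m|) =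
      ∑ m ∈ Icc 1 R, ∑ n ∈ (Icc 1 R).filter (· ≠ m), (dk k m : ℝ) ^ 2 / 2 * (1 / |(n:ℝ) - m|) := by
    simp only [sum_filter]
    rw [sum_comm]
    refine sum_congr rfl fun m _ => sum_congr rfl fun n _ => ?_
    rw [abs_sub_comm]
    by_cases h : n = m
    · simp [h]
    · rw [if_pos (Ne.symm h), if_pos h]
  have h4 : ∑ m ∈ Icc 1 R, ∑ n ∈ (Icc 1 R).filter (· ≠ m), (dk k m : ℝ) ^ 2 / 2 * (1 / |(n:ℝ) - m|) ≤
      ∑ m ∈ Icc 1 R, (dk k m : ℝ) ^ 2 / 2 * (2 * (1 + Real.log R)) := by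
    refine sum_le_sum fun m hm => ?_
    rw [← mul_sum]
    exact mul_le_mul_of_nonneg_left (two_sided_harmonic R m hm) (by positivity)
  have h5 : ∑ m ∈ Icc 1 R, (dk k m : ℝ) ^ 2 ≤ D * (R:ℝ) ^ (1 + θ) := by
    calc ∑ m ∈ Icc 1 R, (dk k m : ℝ) ^ 2
        ≤ ∑ m ∈ Icc 1 R, (dk k m : ℝ) ^ 2 * exp (-((1 + θ) * Real.log m)) * (R:ℝ) ^ (1 + θ) := by
          refine sum_le_sum fun m hm => ?_
          have hm1 : (1:ℝ) ≤ m := by exact_mod_cast (mem_Icc.1 hm).1
          have hm2 : (m:ℝ) ≤ R := by exact_mod_cast (mem_Icc.1 hm).2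
          rw [mul_assoc]
          refine le_mul_of_one_le_right (by positivity) ?_
          rw [rpow_def_of_pos hR0, ← exp_add]
          apply one_le_exp
          have := Real.log_le_log (by linarith) hm2
          nlinarith
      _ = (∑ m ∈ Icc 1 R, (dk k m : ℝ) ^ 2 * exp (-((1 + θ) * Real.log m))) * (R:ℝ) ^ (1 + θ) := by
          rw [sum_mul]
      _ ≤ D * (R:ℝ) ^ (1 + θ) := by
          apply mul_le_mul_of_nonneg_right _ (by positivity)
          exact (dk_exp_summable_sq k hθ).sum_le_tsum _ (fun n _ => by positivity)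
  have h6 : 1 + Real.log R ≤ (1 + 1 / θ) * (R:ℝ) ^ θ := by
    have h7 := Real.log_le_rpow_div hR0.le hθ
    have h8 : (1:ℝ) ≤ (R:ℝ) ^ θ := Real.one_le_rpow hR1 hθ.le
    have h9 : (1 + 1 / θ) * (R:ℝ) ^ θ = (R:ℝ) ^ θ + (R:ℝ) ^ θ / θ := by ring
    rw [h9]; linarith
  have h10 : (R:ℝ) ^ (1 + 2 * θ) = (R:ℝ) ^ (1 + θ) * (R:ℝ) ^ θ := by
    rw [← rpow_add hR0]; congr 1; ring
  calc ∑ m ∈ Icc 1 R, ∑ n ∈ (Icc 1 R).filter (· ≠ m), (dk k m : ℝ) * dk k n / |(n:ℝ) - m|
      ≤ ∑ m ∈ Icc 1 R, ∑ n ∈ (Icc 1 R).filter (· ≠ m),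
        ((dk k m : ℝ) ^ 2 / 2 * (1 / |(n:ℝ) - m|) + (dk k n : ℝ) ^ 2 / 2 * (1 / |(n:ℝ) - m|)) := h1
    _ = 2 * ∑ m ∈ Icc 1 R, ∑ n ∈ (Icc 1 R).filter (· ≠ m),
          (dk k m : ℝ) ^ 2 / 2 * (1 / |(n:ℝ) - m|) := by
        simp only [sum_add_distrib]
        rw [h3]; ring
    _ ≤ 2 * ∑ m ∈ Icc 1 R, (dk k m : ℝ) ^ 2 / 2 * (2 * (1 + Real.log R)) := by linarith
    _ = 2 * (1 + Real.log R) * ∑ m ∈ Icc 1 R, (dk k m : ℝ) ^ 2 := by
        rw [← sum_mul, ← sum_div]; ring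
    _ ≤ 2 * ((1 + 1 / θ) * (R:ℝ) ^ θ) * (D * (R:ℝ) ^ (1 + θ)) := by
        have h11 : 0 ≤ ∑ m ∈ Icc 1 R, (dk k m : ℝ) ^ 2 := sum_nonneg fun _ _ => by positivity
        have h12 : 0 ≤ (1 + 1 / θ) * (R:ℝ) ^ θ := by positivity
        exact mul_le_mul (by linarith) h5 h11 (by positivity)
    _ = 2 * (1 + 1 / θ) * D * (R:ℝ) ^ (1 + 2 * θ) := by rw [h10]; ring

lemma term_bound {m n : ℕ} (hm : 1 ≤ m) (hmn : m < n) :
    rho (m, n) / |Real.log n - Real.log m| ≤ 2 * rho (m, n) + if n < 2 * m then 2 / |(n:ℝ) - m| else 0 := by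
  have hm0 : (0:ℝ) < m := by exact_mod_cast hm
  have hn0 : (0:ℝ) < n := by exact_mod_cast (by omega : 0 < n)
  have hlt : (m:ℝ) < n := by exact_mod_cast hmn
  have hlog : 0 < Real.log n - Real.log m := by
    have := Real.log_lt_log hm0 hlt; linarith
  rw [abs_of_pos hlog]
  have hrho : 0 < rho (m, n) := exp_pos _
  split_ifs with h
  · -- near diagonal
    have h2 : (n:ℝ) < 2 * m := by exact_mod_cast h
    have h3 : ((n:ℝ) - m) / n ≤ Real.log n - Real.log m := by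
      rw [← Real.log_div hn0.ne' hm0.ne']
      have := Real.one_sub_inv_le_log_of_pos (show (0:ℝ) < n / m by positivity)
      have h4 : 1 - ((n:ℝ) / m)⁻¹ = (n - m) / n := by field_simp
      linarith
    have h5 : 0 < (n:ℝ) - m := by linarith
    have h6 : rho (m, n) * n ≤ 2 := by
      unfold rho
      have h7 : (n:ℝ) = exp (Real.log n) := (Real.exp_log hn0).symm
      have h8 : (2:ℝ) = exp (Real.log 2) := (Real.exp_log two_pos).symm
      calc exp (-((Real.log m + Real.log n) / 2)) * n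
          = exp (-((Real.log m + Real.log n) / 2)) * exp (Real.log n) := by rw [Real.exp_log hn0]
        _ = exp ((Real.log n - Real.log m) / 2) := by rw [← exp_add]; congr 1; ring
        _ ≤ exp (Real.log 2) := by
          apply exp_le_exp.2
          have : Real.log n ≤ Real.log (2 * m) := Real.log_le_log hn0 h2.le
          rw [Real.log_mul two_ne_zero hm0.ne'] at this
          have h9 := Real.log_pos (show (1:ℝ) < 2 by norm_num)
          linarith
        _ = 2 := Real.exp_log two_pos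
    rw [abs_of_pos h5]
    have h10 : rho (m, n) / (Real.log n - Real.log m) ≤ 2 / ((n:ℝ) - m) := by
      calc rho (m, n) / (Real.log n - Real.log m) ≤ rho (m, n) / (((n:ℝ) - m) / n) := by
            gcongr
        _ = rho (m, n) * n / (n - m) := by field_simp
        _ ≤ 2 / ((n:ℝ) - m) := by gcongr
    linarith
  · -- far from the diagonal
    have h2 : 2 * (m:ℝ) ≤ n := by exact_mod_cast (not_lt.1 h)
    have h3 : Real.log 2 ≤ Real.log n - Real.log m := by
      have : Real.log (2 * m) ≤ Real.log n := Real.log_le_log (by positivity) h2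
      rw [Real.log_mul two_ne_zero hm0.ne'] at this
      linarith
    have h4 : (1/2 : ℝ) ≤ Real.log 2 := by have := Real.log_two_gt_d9; linarith
    rw [add_zero, div_le_iff₀ hlog]
    nlinarith

lemma rho_symm (m n : ℕ) : rho (m, n) = rho (n, m) := by unfold rho; rw [add_comm]

lemma term_bound' {m n : ℕ} (hm : 1 ≤ m) (hn : 1 ≤ n) (hmn : m ≠ n) :
    rho (m, n) / |Real.log n - Real.log m| ≤
      2 * rho (m, n) + if n < 2 * m ∧ m < 2 * n then 2 / |(n:ℝ) - m| else 0 := by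
  rcases lt_or_gt_of_ne hmn with h | h
  · refine (term_bound hm h).trans ?_
    gcongr
    by_cases h1 : n < 2 * m
    · rw [if_pos h1, if_pos ⟨h1, by omega⟩]
    · rw [if_neg h1, if_neg (fun h2 => h1 h2.1)]
  · have := term_bound hn h
    rw [rho_symm n m, abs_sub_comm] at this
    refine this.trans ?_
    gcongr
    by_cases h1 : m < 2 * n
    · rw [if_pos h1, if_pos ⟨by omega, h1⟩, abs_sub_comm]
    · rw [if_neg h1, if_neg (fun h2 => h1 h2.2)]

/-- The off-diagonal bound. -/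
theorem off_diag (k : ℕ) {θ : ℝ} (hθ : 0 < θ) : ∃ C : ℝ, 0 ≤ C ∧ ∀ (V : ℝ) (F : Finset (ℕ × ℕ)),
    (∀ x ∈ F, 1 ≤ x.1 ∧ 1 ≤ x.2 ∧ x.1 ≠ x.2 ∧ Real.log x.1 + Real.log x.2 ≤ V) →
    ∑ x ∈ F, (dk k x.1 : ℝ) * dk k x.2 * (rho x / |Real.log x.2 - Real.log x.1|) ≤
      C * exp ((1/2 + θ) * V) := by
  classical
  obtain ⟨C₁, hC₁, hnear⟩ := near_sum k hθ
  set D := ∑' n : ℕ, (dk k n : ℝ) * exp (-((1 + θ) * Real.log n)) with hD
  have hsum := dk_exp_summable k hθ
  have hD0 : 0 ≤ D := tsum_nonneg fun n => by positivity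
  refine ⟨2 * D ^ 2 + 2 * C₁ * (2:ℝ) ^ (1/2 + θ), by positivity, ?_⟩
  intro V F hF
  have h1 : ∑ x ∈ F, (dk k x.1 : ℝ) * dk k x.2 * (rho x / |Real.log x.2 - Real.log x.1|) ≤
      ∑ x ∈ F, ((dk k x.1 : ℝ) * dk k x.2 * (2 * rho x) +
        (dk k x.1 : ℝ) * dk k x.2 * (if x.2 < 2 * x.1 ∧ x.1 < 2 * x.2 then 2 / |(x.2:ℝ) - x.1| else 0)) := by
    refine sum_le_sum fun x hx => ?_
    obtain ⟨ha, hb, hc, hd⟩ := hF x hx
    rw [← mul_add]
    exact mul_le_mul_of_nonneg_left (term_bound' ha hb hc) (by positivity)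
  -- far part
  have h2 : ∑ x ∈ F, (dk k x.1 : ℝ) * dk k x.2 * (2 * rho x) ≤ 2 * D ^ 2 * exp ((1/2 + θ) * V) := by
    have h3 : ∀ x ∈ F, (dk k x.1 : ℝ) * dk k x.2 * (2 * rho x) ≤
        2 * exp ((1/2 + θ) * V) * (((dk k x.1 : ℝ) * exp (-((1 + θ) * Real.log x.1))) *
          ((dk k x.2 : ℝ) * exp (-((1 + θ) * Real.log x.2)))) := by
      intro x hx
      obtain ⟨ha, hb, hc, hd⟩ := hF x hx
      have h4 : rho x ≤ exp ((1/2 + θ) * V) * (exp (-((1 + θ) * Real.log x.1)) *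
          exp (-((1 + θ) * Real.log x.2))) := by
        unfold rho
        rw [← exp_add, ← exp_add]
        apply exp_le_exp.2
        nlinarith
      calc (dk k x.1 : ℝ) * dk k x.2 * (2 * rho x)
          ≤ (dk k x.1 : ℝ) * dk k x.2 * (2 * (exp ((1/2 + θ) * V) * (exp (-((1 + θ) * Real.log x.1)) *
          exp (-((1 + θ) * Real.log x.2))))) := by gcongr
        _ = _ := by ring
    refine (sum_le_sum h3).trans ?_
    rw [← mul_sum]
    have h5 : ∑ x ∈ F, ((dk k x.1 : ℝ) * exp (-((1 + θ) * Real.log x.1))) *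
          ((dk k x.2 : ℝ) * exp (-((1 + θ) * Real.log x.2))) ≤ D ^ 2 := by
      have h6 : F ⊆ (F.image Prod.fst) ×ˢ (F.image Prod.snd) := by
        intro x hx
        rw [mem_product]
        exact ⟨mem_image_of_mem _ hx, mem_image_of_mem _ hx⟩
      refine (sum_le_sum_of_subset_of_nonneg h6 (fun x _ _ => by positivity)).trans ?_
      rw [sum_product]
      simp only
      rw [← sum_mul_sum, sq]
      exact mul_le_mul (hsum.sum_le_tsum _ fun n _ => by positivity)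
        (hsum.sum_le_tsum _ fun n _ => by positivity) (sum_nonneg fun n _ => by positivity) hD0
    calc 2 * exp ((1/2 + θ) * V) * _ ≤ 2 * exp ((1/2 + θ) * V) * D ^ 2 := by gcongr
      _ = _ := by ring
  -- near part
  set R := ⌊Real.sqrt 2 * exp (V / 2)⌋₊ with hR
  have h7 : ∑ x ∈ F, (dk k x.1 : ℝ) * dk k x.2 *
      (if x.2 < 2 * x.1 ∧ x.1 < 2 * x.2 then 2 / |(x.2:ℝ) - x.1| else 0) ≤
      2 * C₁ * (2:ℝ) ^ (1/2 + θ) * exp ((1/2 + θ) * V) := by
    have h8 : ∑ x ∈ F, (dk k x.1 : ℝ) * dk k x.2 *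
        (if x.2 < 2 * x.1 ∧ x.1 < 2 * x.2 then 2 / |(x.2:ℝ) - x.1| else 0) =
        ∑ x ∈ F.filter (fun x => x.2 < 2 * x.1 ∧ x.1 < 2 * x.2),
          2 * ((dk k x.1 : ℝ) * dk k x.2 / |(x.2:ℝ) - x.1|) := by
      rw [sum_filter]
      refine sum_congr rfl fun x _ => ?_
      split_ifs with h
      · ring
      · simp
    rw [h8]
    have h9 : F.filter (fun x => x.2 < 2 * x.1 ∧ x.1 < 2 * x.2) ⊆
        (Icc 1 R ×ˢ Icc 1 R).filter (fun x => x.2 ≠ x.1) := by
      intro x hx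
      rw [mem_filter] at hx
      obtain ⟨hxF, hx1, hx2⟩ := hx
      obtain ⟨ha, hb, hc, hd⟩ := hF x hxF
      have ha0 : (0:ℝ) < x.1 := by exact_mod_cast ha
      have hb0 : (0:ℝ) < x.2 := by exact_mod_cast hb
      have hprod : (x.1:ℝ) * x.2 ≤ exp V := by
        rw [← Real.exp_log (mul_pos ha0 hb0), Real.log_mul ha0.ne' hb0.ne']
        exact exp_le_exp.2 hd
      have hx1' : (x.2:ℝ) < 2 * x.1 := by exact_mod_cast hx1
      have hx2' : (x.1:ℝ) < 2 * x.2 := by exact_mod_cast hx2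
      have hsq : (Real.sqrt 2 * exp (V / 2)) ^ 2 = 2 * exp V := by
        rw [mul_pow, Real.sq_sqrt (by norm_num), ← Real.exp_nat_mul]
        congr 2; push_cast; ring
      have hle : ∀ y z : ℝ, 0 < y → 0 < z → y * z ≤ exp V → y < 2 * z → y ≤ Real.sqrt 2 * exp (V / 2) := by
        intro y z hy hz hyz hyz2
        apply le_of_sq_le_sq _ (by positivity)
        rw [hsq]
        nlinarith
      rw [mem_filter, mem_product, mem_Icc, mem_Icc]
      refine ⟨⟨⟨ha, ?_⟩, ⟨hb, ?_⟩⟩, fun h => hc h.symm⟩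
      · exact Nat.le_floor (hle _ _ ha0 hb0 hprod hx2')
      · exact Nat.le_floor (hle _ _ hb0 ha0 (by rw [mul_comm]; exact hprod) hx1')
    refine (sum_le_sum_of_subset_of_nonneg h9 (fun x _ _ => by positivity)).trans ?_
    rw [← mul_sum]
    have h10 : ∑ x ∈ (Icc 1 R ×ˢ Icc 1 R).filter (fun x => x.2 ≠ x.1),
        ((dk k x.1 : ℝ) * dk k x.2 / |(x.2:ℝ) - x.1|) =
        ∑ m ∈ Icc 1 R, ∑ n ∈ (Icc 1 R).filter (· ≠ m), (dk k m : ℝ) * dk k n / |(n:ℝ) - m| := by
      rw [sum_filter, sum_product]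
      refine sum_congr rfl fun m _ => ?_
      rw [sum_filter]
    rw [h10]
    have h11 := hnear R
    have h12 : (R:ℝ) ^ (1 + 2 * θ) ≤ (2:ℝ) ^ (1/2 + θ) * exp ((1/2 + θ) * V) := by
      have h13 : (R:ℝ) ≤ Real.sqrt 2 * exp (V / 2) := Nat.floor_le (by positivity)
      calc (R:ℝ) ^ (1 + 2 * θ) ≤ (Real.sqrt 2 * exp (V / 2)) ^ (1 + 2 * θ) :=
            rpow_le_rpow (Nat.cast_nonneg _) h13 (by linarith)
        _ = (2:ℝ) ^ (1/2 + θ) * exp ((1/2 + θ) * V) := by
          rw [mul_rpow (by positivity) (by positivity), Real.sqrt_eq_rpow, ← rpow_mul (by norm_num),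
            ← Real.exp_mul]
          congr 2 <;> ring
    calc 2 * _ ≤ 2 * (C₁ * (R:ℝ) ^ (1 + 2 * θ)) := by linarith
      _ ≤ 2 * (C₁ * ((2:ℝ) ^ (1/2 + θ) * exp ((1/2 + θ) * V))) := by gcongr
      _ = _ := by ring
  refine h1.trans ?_
  rw [sum_add_distrib]
  calc _ ≤ 2 * D ^ 2 * exp ((1/2 + θ) * V) + 2 * C₁ * (2:ℝ) ^ (1/2 + θ) * exp ((1/2 + θ) * V) :=
        add_le_add h2 h7
    _ = _ := by ring

end MP069854

namespace MP069854
open Filter Topology Complex Set MeasureTheory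

/-- `n^{-s}` written with the real logarithm. -/
noncomputable def npow (n : ℕ) (s : ℂ) : ℂ := exp (-(s * Real.log n))

lemma npow_norm (n : ℕ) (s : ℂ) : ‖npow n s‖ = Real.exp (-(s.re * Real.log n)) := by
  unfold npow
  rw [norm_exp, neg_re, re_mul_ofReal]

lemma dterm_norm (k n : ℕ) (s : ℂ) :
    ‖(dk k n : ℂ) * npow n s‖ = (dk k n : ℝ) * Real.exp (-(s.re * Real.log n)) := by
  rw [norm_mul, npow_norm, Complex.norm_natCast]

lemma dterm_summable (k : ℕ) {s : ℂ} (hs : 1 < s.re) :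
    Summable fun n : ℕ => ‖(dk k n : ℂ) * npow n s‖ := by
  simp only [dterm_norm]
  have := dk_exp_summable k (θ := s.re - 1) (by linarith)
  refine this.congr fun n => ?_
  congr 2; ring

lemma LS_aux (k : ℕ) {s : ℂ} (hs : 1 < s.re) :
    LSeriesSummable (fun n => (((ArithmeticFunction.zeta ^ k : ArithmeticFunction ℕ) :
      ArithmeticFunction ℂ) n)) s ∧
    LSeries (fun n => (((ArithmeticFunction.zeta ^ k : ArithmeticFunction ℕ) :
      ArithmeticFunction ℂ) n)) s = riemannZeta s ^ k := by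
  induction k with
  | zero =>
    rw [pow_zero, pow_zero, ArithmeticFunction.natCoe_one]
    constructor
    · rw [ArithmeticFunction.one_eq_delta]
      refine (summable_of_ne_finset_zero (s := {1}) ?_)
      intro n hn
      rw [Finset.mem_singleton] at hn
      rw [LSeries.term_def]
      split_ifs with h
      · rfl
      · simp [LSeries.delta, hn]
    · rw [ArithmeticFunction.one_eq_delta, LSeries_delta]; rfl
  | succ k ih =>
    rw [pow_succ, ArithmeticFunction.natCoe_mul, pow_succ]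
    have hz : LSeriesSummable (fun n => ((ArithmeticFunction.zeta : ArithmeticFunction ℂ) n)) s :=
      ArithmeticFunction.LSeriesSummable_zeta_iff.2 hs
    refine ⟨ArithmeticFunction.LSeriesSummable_mul ih.1 hz, ?_⟩
    rw [ArithmeticFunction.LSeries_mul' ih.1 hz, ih.2]
    congr 1
    exact ArithmeticFunction.LSeries_zeta_eq_riemannZeta hs

lemma zeta_pow_eq (k : ℕ) {s : ℂ} (hs : 1 < s.re) :
    riemannZeta s ^ k = ∑' n : ℕ, (dk k n : ℂ) * npow n s := by
  rw [← (LS_aux k hs).2]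
  unfold LSeries
  refine tsum_congr fun n => ?_
  rw [LSeries.term_def]
  split_ifs with h
  · rw [h, dk_zero_right]; simp
  · have hc : (((ArithmeticFunction.zeta ^ k : ArithmeticFunction ℕ) :
      ArithmeticFunction ℂ) n) = (dk k n : ℂ) := by
      rw [ArithmeticFunction.natCoe_apply, dk_eq_zeta_pow]
    rw [hc, div_eq_mul_inv, ← cpow_neg]
    congr 1
    unfold npow
    have hn : (n : ℂ) ≠ 0 := by exact_mod_cast h
    rw [cpow_def_of_ne_zero hn]
    congr 1
    rw [← Complex.natCast_log]; ring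

/-- `ζ(s+it)^k ζ(s-it)^k` -/
noncomputable def Z (k : ℕ) (t : ℝ) (s : ℂ) : ℂ :=
  riemannZeta (s + t * I) ^ k * riemannZeta (s - t * I) ^ k

lemma Z_differentiableAt (k : ℕ) (t : ℝ) {s : ℂ} (h1 : s + t * I ≠ 1) (h2 : s - t * I ≠ 1) :
    DifferentiableAt ℂ (Z k t) s := by
  unfold Z
  have d1 : DifferentiableAt ℂ (fun s : ℂ => riemannZeta (s + t * I)) s :=
    (differentiableAt_riemannZeta h1).comp s (by fun_prop)
  have d2 : DifferentiableAt ℂ (fun s : ℂ => riemannZeta (s - t * I)) s :=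
    (differentiableAt_riemannZeta h2).comp s (by fun_prop)
  exact (d1.pow k).mul (d2.pow k)

/-- growth of `Z` -/
lemma Z_growth (k : ℕ) : ∃ C : ℝ, 1 ≤ C ∧ ∀ (t : ℝ) (s : ℂ), 0 ≤ t → 1/2 ≤ s.re → s.re ≤ 2 →
    1/2 ≤ ‖s + t * I - 1‖ → 1/2 ≤ ‖s - t * I - 1‖ →
    ‖Z k t s‖ ≤ C * (2 + |s.im| + t) ^ (2 * k) := by
  obtain ⟨C, hC1, hC⟩ := zeta_growth'
  refine ⟨C ^ (2 * k), one_le_pow₀ hC1, ?_⟩
  intro t s ht hs1 hs2 h1 h2
  have hre : (s + t * I).re = s.re := by simp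
  have hre' : (s - t * I).re = s.re := by simp
  have n0 : ‖s‖ ≤ 2 + |s.im| := by
    have := Complex.norm_le_abs_re_add_abs_im s
    have h3 : |s.re| ≤ 2 := by rw [abs_of_nonneg (by linarith)]; exact hs2
    linarith
  have ht' : ‖(t : ℂ) * I‖ = t := by simp [abs_of_nonneg ht]
  have n1 : ‖s + t * I‖ ≤ 2 + |s.im| + t := by
    refine (norm_add_le _ _).trans ?_; rw [ht']; linarith
  have n2 : ‖s - t * I‖ ≤ 2 + |s.im| + t := by
    refine (norm_sub_le _ _).trans ?_; rw [ht']; linarith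
  have b1 := (hC (s + t * I) (by rw [hre]; exact hs1) h1).trans
    (mul_le_mul_of_nonneg_left n1 (by linarith))
  have b2 := (hC (s - t * I) (by rw [hre']; exact hs1) h2).trans
    (mul_le_mul_of_nonneg_left n2 (by linarith))
  unfold Z
  rw [norm_mul, norm_pow, norm_pow]
  calc ‖riemannZeta (s + t * I)‖ ^ k * ‖riemannZeta (s - t * I)‖ ^ k
      ≤ (C * (2 + |s.im| + t)) ^ k * (C * (2 + |s.im| + t)) ^ k := by gcongr
    _ = C ^ (2 * k) * (2 + |s.im| + t) ^ (2 * k) := by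
      rw [← pow_add, ← two_mul, mul_pow]

lemma dist_one_of_re {s : ℂ} (h : s.re = 1/2) : 1/2 ≤ ‖s - 1‖ := by
  have := abs_re_le_norm (s - 1)
  have h2 : (s - 1).re = -(1/2) := by simp [h]; norm_num
  rw [h2] at this
  norm_num at this ⊢
  exact this

lemma dist_one_of_im {s : ℂ} (h : 1 ≤ |s.im|) : 1/2 ≤ ‖s - 1‖ := by
  have := abs_im_le_norm (s - 1)
  have h2 : (s - 1).im = s.im := by simp
  rw [h2] at this
  linarith

/-- on the critical line -/
lemma Z_crit (k : ℕ) : ∃ C : ℝ, 1 ≤ C ∧ ∀ (t y : ℝ), 0 ≤ t →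
    ‖Z k t (1/2 + y * I)‖ ≤ C * (2 + |y| + t) ^ (2 * k) := by
  obtain ⟨C, hC1, hC⟩ := Z_growth k
  refine ⟨C, hC1, ?_⟩
  intro t y ht
  have := hC t (1/2 + y * I) ht (by simp) (by simp; norm_num) (dist_one_of_re (by simp))
    (dist_one_of_re (by simp))
  simpa using this

/-- away from the real axis -/
lemma Z_box (k : ℕ) : ∃ C : ℝ, 1 ≤ C ∧ ∀ (t : ℝ) (s : ℂ), 0 ≤ t → 1/2 ≤ s.re → s.re ≤ 2 →
    |s.im| + 1 ≤ t → ‖Z k t s‖ ≤ C * (2 + |s.im| + t) ^ (2 * k) := by
  obtain ⟨C, hC1, hC⟩ := Z_growth k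
  refine ⟨C, hC1, ?_⟩
  intro t s ht h1 h2 h3
  refine hC t s ht h1 h2 (dist_one_of_im ?_) (dist_one_of_im ?_)
  · have : (s + t * I).im = s.im + t := by simp
    rw [this]
    have h4 := neg_abs_le s.im
    rw [abs_of_nonneg (by linarith)]; linarith
  · have : (s - t * I).im = s.im - t := by simp
    rw [this]
    have h4 := le_abs_self s.im
    rw [abs_of_nonpos (by linarith)]; linarith

lemma zeta_pow_norm (k : ℕ) {s : ℂ} (hs : 1 < s.re) :
    ‖riemannZeta s ^ k‖ ≤ ∑' n : ℕ, (dk k n : ℝ) * Real.exp (-(s.re * Real.log n)) := by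
  rw [zeta_pow_eq k hs]
  refine (norm_tsum_le_tsum_norm (dterm_summable k hs)).trans (le_of_eq ?_)
  exact tsum_congr fun n => dterm_norm k n s

/-- bound on the line `Re s = c > 1` -/
lemma Z_right (k : ℕ) {c : ℝ} (hc : 1 < c) : ∃ C : ℝ, 0 ≤ C ∧ ∀ (t y : ℝ),
    ‖Z k t (c + y * I)‖ ≤ C := by
  refine ⟨(∑' n : ℕ, (dk k n : ℝ) * Real.exp (-(c * Real.log n))) ^ 2, sq_nonneg _, ?_⟩
  intro t y
  unfold Z
  rw [norm_mul, sq]
  have h1 : ((c : ℂ) + y * I + t * I).re = c := by simp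
  have h2 : ((c : ℂ) + y * I - t * I).re = c := by simp
  have b1 := zeta_pow_norm k (s := (c : ℂ) + y * I + t * I) (by rw [h1]; exact hc)
  have b2 := zeta_pow_norm k (s := (c : ℂ) + y * I - t * I) (by rw [h2]; exact hc)
  rw [h1] at b1; rw [h2] at b2
  exact mul_le_mul b1 b2 (norm_nonneg _) (tsum_nonneg fun n => by positivity)

/-- double Dirichlet series -/
lemma Z_hasSum (k : ℕ) (t : ℝ) {s : ℂ} (hs : 1 < s.re) :
    (Summable fun x : ℕ × ℕ => ‖((dk k x.1 : ℂ) * npow x.1 (s + t * I)) *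
      ((dk k x.2 : ℂ) * npow x.2 (s - t * I))‖) ∧
    Z k t s = ∑' x : ℕ × ℕ, ((dk k x.1 : ℂ) * npow x.1 (s + t * I)) *
      ((dk k x.2 : ℂ) * npow x.2 (s - t * I)) := by
  have h1 : 1 < (s + t * I).re := by simpa using hs
  have h2 : 1 < (s - t * I).re := by simpa using hs
  have s1 := dterm_summable k h1
  have s2 := dterm_summable k h2
  constructor
  · exact Summable.mul_norm (f := fun n : ℕ => (dk k n : ℂ) * npow n (s + t * I))
      (g := fun n : ℕ => (dk k n : ℂ) * npow n (s - t * I)) s1 s2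
  · have h3 := tsum_mul_tsum_of_summable_norm (f := fun n : ℕ => (dk k n : ℂ) * npow n (s + t * I))
      (g := fun n : ℕ => (dk k n : ℂ) * npow n (s - t * I)) s1 s2
    rw [← h3, ← zeta_pow_eq k h1, ← zeta_pow_eq k h2]
    rfl

/-- The Dirichlet polynomial produced by a test function. -/
noncomputable def DP (k : ℕ) (h : ℝ → ℂ) (L t : ℝ) (x : ℕ × ℕ) : ℂ :=
  (dk k x.1 : ℂ) * dk k x.2 * rho x * h ((Real.log x.1 + Real.log x.2) / L) *
    exp (((Real.log x.2 - Real.log x.1) * t : ℝ) * I)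

/-- Main evaluation on the line `Re s = c`. -/
lemma main_eval (k : ℕ) {h : ℝ → ℂ} {A B : ℝ} (hh : TF h A B) {L c : ℝ} (hL : 0 < L) (hc : 1 < c)
    (t : ℝ) :
    L * ∫ y : ℝ, G h ((L * (c - 1/2) : ℝ) + (L * y : ℝ) * I) * Z k t (c + y * I) =
      2 * Real.pi * ∑' x : ℕ × ℕ, DP k h L t x := by
  set a : ℝ := L * (c - 1/2) with ha
  -- scaled integrability
  have hGi : Integrable fun y : ℝ => G h ((a : ℝ) + (L * y : ℝ) * I) := by
    have := (hh.G_vert_integrable a).comp_mul_left' (R := L) hL.ne'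
    exact this
  let F : ℕ × ℕ → ℝ → ℂ := fun x y => G h ((a : ℝ) + (L * y : ℝ) * I) *
    (((dk k x.1 : ℂ) * npow x.1 ((c + y * I) + t * I)) * ((dk k x.2 : ℂ) * npow x.2 ((c + y * I) - t * I)))
  have hre : ∀ y : ℝ, ((c : ℂ) + y * I).re = c := by intro y; simp
  have hnorm : ∀ x y, ‖F x y‖ = ‖G h ((a : ℝ) + (L * y : ℝ) * I)‖ *
      (((dk k x.1 : ℝ) * Real.exp (-(c * Real.log x.1))) * ((dk k x.2 : ℝ) * Real.exp (-(c * Real.log x.2)))) := by
    intro x y
    simp only [F]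
    rw [norm_mul, norm_mul, dterm_norm, dterm_norm]
    congr 4 <;> simp
  have hcontn : ∀ (n : ℕ) (b : ℂ), Continuous fun y : ℝ => npow n ((c + y * I) + b) := by
    intro n b; unfold npow; fun_prop
  have hFi : ∀ x, Integrable (F x) := by
    intro x
    refine Integrable.mono' (g := fun y => ‖G h ((a : ℝ) + (L * y : ℝ) * I)‖ *
      (((dk k x.1 : ℝ) * Real.exp (-(c * Real.log x.1))) * ((dk k x.2 : ℝ) * Real.exp (-(c * Real.log x.2)))))
      (hGi.norm.mul_const _) ?_ (Eventually.of_forall fun y => (hnorm x y).le)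
    refine hGi.aestronglyMeasurable.mul (Continuous.aestronglyMeasurable ?_)
    refine Continuous.mul (continuous_const.mul (hcontn _ _)) (continuous_const.mul ?_)
    have := hcontn x.2 (-(t * I))
    simpa [sub_eq_add_neg] using this
  have hs0 := dk_exp_summable k (θ := c - 1) (by linarith)
  have hs1 : Summable fun n : ℕ => (dk k n : ℝ) * Real.exp (-(c * Real.log n)) := by
    refine hs0.congr fun n => ?_
    congr 2; ring
  have hs2 : Summable fun x : ℕ × ℕ => ((dk k x.1 : ℝ) * Real.exp (-(c * Real.log x.1))) *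
      ((dk k x.2 : ℝ) * Real.exp (-(c * Real.log x.2))) :=
    hs1.mul_of_nonneg hs1 (fun n => by positivity) (fun n => by positivity)
  have hFs : Summable fun x => ∫ y, ‖F x y‖ := by
    have : ∀ x, ∫ y, ‖F x y‖ = (∫ y, ‖G h ((a : ℝ) + (L * y : ℝ) * I)‖) *
      (((dk k x.1 : ℝ) * Real.exp (-(c * Real.log x.1))) * ((dk k x.2 : ℝ) * Real.exp (-(c * Real.log x.2)))) := by
      intro x
      rw [← integral_mul_const]
      exact integral_congr_ae (Eventually.of_forall fun y => hnorm x y)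
    simp only [this]
    exact hs2.mul_left _
  have hkey := hasSum_integral_of_summable_integral_norm hFi hFs
  have hint : ∫ y : ℝ, G h ((a : ℝ) + (L * y : ℝ) * I) * Z k t (c + y * I) = ∫ y, ∑' x, F x y := by
    refine integral_congr_ae (Eventually.of_forall fun y => ?_)
    simp only [F]
    rw [tsum_mul_left]
    congr 1
    exact (Z_hasSum k t (s := c + y * I) (by rw [hre]; exact hc)).2
  rw [hint, ← hkey.tsum_eq, ← tsum_mul_left, ← tsum_mul_left]
  refine tsum_congr fun x => ?_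
  -- single term
  obtain ⟨m, n⟩ := x
  set v : ℝ := (Real.log m + Real.log n) / L with hv
  have h1 : ∫ y : ℝ, F (m, n) y = ((dk k m : ℂ) * dk k n * exp (-(c * (Real.log m + Real.log n))) *
      exp (((Real.log n - Real.log m) * t : ℝ) * I)) *
      ∫ y : ℝ, (fun z : ℝ => G h ((a : ℝ) + z * I) * exp (-(z * v) * I)) (L * y) := by
    rw [← integral_const_mul]
    refine integral_congr_ae (Eventually.of_forall fun y => ?_)
    simp only [F, npow]
    have hLv : ((L * y : ℝ) : ℂ) * v = y * (Real.log m + Real.log n) := by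
      rw [hv]; push_cast
      have : (L : ℂ) ≠ 0 := by exact_mod_cast hL.ne'
      field_simp
    rw [hLv]
    have e1 : exp (-((((c:ℂ) + y * I) + t * I) * Real.log m)) * exp (-((((c:ℂ) + y * I) - t * I) * Real.log n)) =
        exp (-(c * (Real.log m + Real.log n))) * exp (((Real.log n - Real.log m) * t : ℝ) * I) *
        exp (-(y * (Real.log m + Real.log n)) * I) := by
      rw [← exp_add, ← exp_add, ← exp_add]
      congr 1; push_cast; ring
    calc _ = G h ((a : ℝ) + (L * y : ℝ) * I) * ((dk k m : ℂ) * dk k n) *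
          (exp (-((((c:ℂ) + y * I) + t * I) * Real.log m)) * exp (-((((c:ℂ) + y * I) - t * I) * Real.log n))) := by ring
      _ = _ := by rw [e1]; ring
  have h2 := Measure.integral_comp_mul_left
    (fun z : ℝ => G h ((a : ℝ) + z * I) * exp (-(z * v) * I)) L
  rw [h1, h2, hh.inversion a v]
  unfold DP rho
  rw [abs_of_pos (inv_pos.2 hL), Complex.real_smul]
  have e2 : ((Real.exp (-((Real.log m + Real.log n) / 2)) : ℝ) : ℂ) =
      exp (-(c * (Real.log m + Real.log n))) * (Real.exp (a * v) : ℝ) := by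
    rw [Complex.ofReal_exp, Complex.ofReal_exp, ← exp_add]
    congr 1
    have : a * v = (c - 1/2) * (Real.log m + Real.log n) := by
      rw [ha, hv]; field_simp
    rw [this]; push_cast; ring
  simp only
  rw [e2]
  have hL' : (L : ℂ) ≠ 0 := by exact_mod_cast hL.ne'
  push_cast
  field_simp
  rfl

end MP069854

namespace MP069854
open Filter Topology Complex Set MeasureTheory

lemma integrable_of_decay {F : ℝ → ℂ} (hm : AEStronglyMeasurable F volume) {D : ℝ}
    (h : ∀ y, ‖F y‖ * (1 + |y|) ^ 2 ≤ D) : Integrable F := by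
  refine Integrable.mono' (g := fun y => D * (1 + y ^ 2)⁻¹)
    (integrable_inv_one_add_sq.const_mul D) hm ?_
  refine Eventually.of_forall fun y => ?_
  rw [← div_eq_mul_inv, le_div_iff₀ (by positivity)]
  refine le_trans ?_ (h y)
  apply mul_le_mul_of_nonneg_left _ (norm_nonneg _)
  nlinarith [abs_nonneg y, sq_abs y]

lemma tail_bound {F : ℝ → ℂ} (hm : AEStronglyMeasurable F volume) {D Y : ℝ} {q : ℕ} (hY : 1 ≤ Y)
    (h : ∀ y, ‖F y‖ * (1 + |y|) ^ (q + 2) ≤ D) :
    ‖(∫ y, F y) - ∫ y in (-Y)..Y, F y‖ ≤ D * Real.pi / Y ^ q := by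
  have hD : 0 ≤ D := le_trans (by positivity) (h 0)
  have hF : Integrable F := by
    refine integrable_of_decay hm (D := D) fun y => ?_
    refine le_trans ?_ (h y)
    apply mul_le_mul_of_nonneg_left _ (norm_nonneg _)
    exact pow_le_pow_right₀ (by linarith [abs_nonneg y]) (by omega)
  rw [intervalIntegral.integral_of_le (by linarith)]
  have h1 := integral_add_compl (s := Ioc (-Y) Y) (f := F) measurableSet_Ioc hF
  rw [← h1, add_sub_cancel_left]
  have h2 : D * Real.pi / Y ^ q = ∫ y : ℝ, D / Y ^ q * (1 + y ^ 2)⁻¹ := by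
    rw [integral_const_mul, integral_univ_inv_one_add_sq]; ring
  rw [h2]
  refine (norm_integral_le_of_norm_le (g := fun y => D / Y ^ q * (1 + y ^ 2)⁻¹)
    ((integrable_inv_one_add_sq.const_mul _).integrableOn) ?_).trans ?_
  · filter_upwards [self_mem_ae_restrict measurableSet_Ioc.compl] with y hy
    have hy' : Y ≤ |y| := by
      by_contra hcon
      rw [not_le, abs_lt] at hcon
      exact hy ⟨hcon.1, hcon.2.le⟩
    have hY0 : 0 < Y ^ q := by positivity
    rw [← div_eq_mul_inv, le_div_iff₀ (by positivity), le_div_iff₀ hY0]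
    refine le_trans ?_ (h y)
    rw [mul_assoc]
    apply mul_le_mul_of_nonneg_left _ (norm_nonneg _)
    have e1 : 1 + y ^ 2 ≤ (1 + |y|) ^ 2 := by nlinarith [abs_nonneg y, sq_abs y]
    have e2 : Y ^ q ≤ (1 + |y|) ^ q := pow_le_pow_left₀ (by linarith) (by linarith) q
    calc (1 + y ^ 2) * Y ^ q ≤ (1 + |y|) ^ 2 * (1 + |y|) ^ q := by gcongr
      _ = (1 + |y|) ^ (q + 2) := by ring
  · refine setIntegral_le_integral (integrable_inv_one_add_sq.const_mul _) ?_
    exact Eventually.of_forall fun y => by positivity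

namespace TF
variable {g : ℝ → ℂ} {A B : ℝ}

lemma decay (h : TF g A B) (M : ℕ) : ∃ C : ℝ, 0 ≤ C ∧ ∀ a x : ℝ, 0 ≤ a →
    ‖G g ((a : ℝ) + (x : ℝ) * I)‖ * (1 + |x|) ^ M ≤ C * Real.exp (B * a) := by
  obtain ⟨C0, hC0, h0⟩ := G_bound_right 0 h
  obtain ⟨C1, hC1, h1⟩ := G_bound_right M h
  refine ⟨2 ^ M * (C0 + C1), by positivity, ?_⟩
  intro a x ha
  have hre : ((a : ℂ) + x * I).re = a := by simp
  have him : ((a : ℂ) + x * I).im = x := by simp
  have r0 := h0 (a + x * I) (by rw [hre]; exact ha)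
  have r1 := h1 (a + x * I) (by rw [hre]; exact ha)
  rw [hre] at r0 r1
  rw [pow_zero, one_mul] at r0
  have hx : |x| ≤ ‖(a : ℂ) + x * I‖ := by
    have := abs_im_le_norm ((a : ℂ) + x * I)
    rwa [him] at this
  have e1 : (1 + |x|) ^ M ≤ 2 ^ M * (1 + ‖(a : ℂ) + x * I‖ ^ M) := by
    rcases le_total |x| 1 with hx1 | hx1
    · calc (1 + |x|) ^ M ≤ 2 ^ M := pow_le_pow_left₀ (by positivity) (by linarith) M
        _ = 2 ^ M * 1 := (mul_one _).symm
        _ ≤ _ := by gcongr; linarith [pow_nonneg (norm_nonneg ((a : ℂ) + x * I)) M]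
    · calc (1 + |x|) ^ M ≤ (2 * |x|) ^ M := pow_le_pow_left₀ (by positivity) (by linarith) M
        _ = 2 ^ M * |x| ^ M := mul_pow _ _ _
        _ ≤ 2 ^ M * ‖(a : ℂ) + x * I‖ ^ M := by gcongr
        _ ≤ _ := by gcongr; linarith
  calc ‖G g (a + x * I)‖ * (1 + |x|) ^ M
      ≤ ‖G g (a + x * I)‖ * (2 ^ M * (1 + ‖(a : ℂ) + x * I‖ ^ M)) := by gcongr
    _ = 2 ^ M * (‖G g (a + x * I)‖ + ‖(a : ℂ) + x * I‖ ^ M * ‖G g (a + x * I)‖) := by ring
    _ ≤ 2 ^ M * (C0 * Real.exp (B * a) + C1 * Real.exp (B * a)) := by gcongr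
    _ = _ := by ring

/-- decay with the scaling `x = L y`, `L ≥ 1`. -/
lemma decay' (h : TF g A B) (M : ℕ) : ∃ C : ℝ, 0 ≤ C ∧ ∀ L a y : ℝ, 1 ≤ L → 0 ≤ a →
    ‖G g ((a : ℝ) + (L * y : ℝ) * I)‖ * (1 + |y|) ^ M ≤ C * Real.exp (B * a) := by
  obtain ⟨C, hC, hd⟩ := h.decay M
  refine ⟨C, hC, ?_⟩
  intro L a y hL ha
  refine le_trans ?_ (hd a (L * y) ha)
  apply mul_le_mul_of_nonneg_left _ (norm_nonneg _)
  apply pow_le_pow_left₀ (by positivity)
  rw [abs_mul, abs_of_pos (show (0:ℝ) < L by linarith)]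
  nlinarith [abs_nonneg y]

lemma shift (h : TF g A B) (τ : ℝ) : TF (fun u => g (u - τ)) (A + τ) (B + τ) := by
  refine ⟨h.smooth.comp (contDiff_id.sub contDiff_const), ?_⟩
  refine closure_minimal ?_ isClosed_Icc
  intro u hu
  have := h.supp (subset_tsupport g (show g (u - τ) ≠ 0 from hu))
  exact ⟨by linarith [this.1], by linarith [this.2]⟩

lemma G_shift (g : ℝ → ℂ) (τ : ℝ) (w : ℂ) : G (fun u => g (u - τ)) w = exp (τ * w) * G g w := by
  unfold G
  have h1 := integral_sub_right_eq_self (μ := volume) (fun u : ℝ => g u * exp ((u + τ : ℝ) * w)) τ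
  have h2 : ∫ u : ℝ, g (u - τ) * exp (u * w) =
      ∫ u : ℝ, (fun u : ℝ => g u * exp ((u + τ : ℝ) * w)) (u - τ) := by
    refine integral_congr_ae (Eventually.of_forall fun u => ?_)
    simp
  rw [h2, h1, ← integral_const_mul]
  refine integral_congr_ae (Eventually.of_forall fun u => ?_)
  simp only
  rw [show (((u + τ : ℝ)) : ℂ) * w = τ * w + u * w by push_cast; ring, exp_add]
  ring

end TF

/-- `log (t/2π)` -/
noncomputable def ell (t : ℝ) : ℝ := Real.log (t / (2 * Real.pi))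

/-- A family of factors approximating `(t/2π)^{κ(s-1/2)}`. -/
structure Fam (κ : ℝ) (Ψ : ℝ → ℂ → ℂ) : Prop where
  κ0 : 0 ≤ κ
  cont : ∀ t : ℝ, Continuous fun y : ℝ => Ψ t (1/2 + y * I)
  crit : ∀ t y : ℝ, ‖Ψ t (1/2 + y * I)‖ ≤ 1
  diff : ∀ (t : ℝ) (s : ℂ), 1/2 ≤ s.re → |s.im| + 1 ≤ t → DifferentiableAt ℂ (Ψ t) s
  approx : ∃ (C : ℝ) (a : ℕ), 0 ≤ C ∧ ∀ (t : ℝ) (s : ℂ), 1/2 ≤ s.re → s.re ≤ 2 → 2 ≤ t →
    2 * |s.im| ≤ t → ‖Ψ t s - exp (κ * ell t * (s - 1/2))‖ ≤
      C * (1 + |s.im|) ^ a * Real.exp (κ * ell t * (s.re - 1/2)) / t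

/-- the integrand on vertical lines -/
noncomputable def FF (k : ℕ) (g : ℝ → ℂ) (Ψ : ℝ → ℂ → ℂ) (L t : ℝ) (s : ℂ) : ℂ :=
  G g (L * (s - 1/2)) * Ψ t s * Z k t s

/-- The inner integral. -/
noncomputable def JJ (k : ℕ) (g : ℝ → ℂ) (Ψ : ℝ → ℂ → ℂ) (L t : ℝ) : ℂ :=
  ∫ α : ℝ, G g (α * I) * Ψ t (1/2 + (α / L : ℝ) * I) * Z k t (1/2 + (α / L : ℝ) * I)

lemma JJ_eq (k : ℕ) (g : ℝ → ℂ) (Ψ : ℝ → ℂ → ℂ) {L : ℝ} (hL : 0 < L) (t : ℝ) :
    JJ k g Ψ L t = L * ∫ y : ℝ, FF k g Ψ L t (1/2 + y * I) := by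
  have h1 := Measure.integral_comp_mul_left (fun α : ℝ =>
    G g (α * I) * Ψ t (1/2 + (α / L : ℝ) * I) * Z k t (1/2 + (α / L : ℝ) * I)) L
  have h2 : ∫ y : ℝ, FF k g Ψ L t (1/2 + y * I) = ∫ y : ℝ, (fun α : ℝ =>
    G g (α * I) * Ψ t (1/2 + (α / L : ℝ) * I) * Z k t (1/2 + (α / L : ℝ) * I)) (L * y) := by
    refine integral_congr_ae (Eventually.of_forall fun y => ?_)
    simp only [FF]
    rw [mul_div_cancel_left₀ _ hL.ne']
    congr 3
    push_cast; ring
  rw [h2, h1, abs_of_pos (inv_pos.2 hL), Complex.real_smul]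
  unfold JJ
  rw [← mul_assoc, ← Complex.ofReal_mul, mul_inv_cancel₀ hL.ne', Complex.ofReal_one, one_mul]

lemma Z_cont_line (k : ℕ) (t : ℝ) : Continuous fun y : ℝ => Z k t (1/2 + y * I) := by
  rw [continuous_iff_continuousAt]
  intro y
  have h : DifferentiableAt ℂ (Z k t) (1/2 + y * I) := by
    apply Z_differentiableAt
    · intro h
      have := congrArg Complex.re h
      simp at this
    · intro h
      have := congrArg Complex.re h
      simp at this
  exact ContinuousAt.comp (f := fun y : ℝ => (1/2 + y * I : ℂ)) (g := Z k t) h.continuousAt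
    (by fun_prop)

end MP069854

end

section

namespace MP069854
open Filter Topology Complex Set
open scoped ComplexConjugate

/-- the factor of the functional equation: `ζ(1-s) = chi s * ζ(s)` -/
noncomputable def chi (s : ℂ) : ℂ := 2 * (2 * Real.pi) ^ (-s) * Gamma s * cos (Real.pi * s / 2)

lemma twopi_ne : (2 * Real.pi : ℂ) ≠ 0 := by
  have := Real.pi_ne_zero
  exact mul_ne_zero two_ne_zero (by exact_mod_cast this)

lemma twopi_arg : (2 * Real.pi : ℂ).arg ≠ Real.pi := by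
  have h : (2 * Real.pi : ℂ) = ((2 * Real.pi : ℝ) : ℂ) := by push_cast; rfl
  rw [h, arg_ofReal_of_nonneg (by positivity)]
  exact Real.pi_ne_zero.symm

lemma chi_conj (s : ℂ) : chi (conj s) = conj (chi s) := by
  unfold chi
  have h1 : (2 * Real.pi : ℂ) ^ (-conj s) = conj ((2 * Real.pi : ℂ) ^ (-s)) := by
    rw [← map_neg, cpow_conj _ _ twopi_arg, map_mul, map_ofNat, conj_ofReal]
  have h2 : cos (Real.pi * conj s / 2) = conj (cos (Real.pi * s / 2)) := by
    rw [← cos_conj, map_div₀, map_mul, map_ofNat, conj_ofReal]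
  rw [h1, Gamma_conj, h2, map_mul, map_mul, map_mul, map_ofNat]

lemma sin_half (v : ℝ) : sin (Real.pi * (1/2 + v * I)) = Real.cosh (Real.pi * v) := by
  rw [show (Real.pi : ℂ) * (1/2 + v * I) = Real.pi * v * I + Real.pi / 2 by ring, sin_add_pi_div_two,
    cos_mul_I]
  push_cast; rfl

lemma re_half_eq {s : ℂ} (hs : s.re = 1/2) : s = 1/2 + s.im * I := by
  apply Complex.ext <;> simp [hs]

lemma chi_mul_one_sub {s : ℂ} (hs : s.re = 1/2) : chi s * chi (1 - s) = 1 := by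
  have h1 : sin (Real.pi * s) ≠ 0 := by
    rw [re_half_eq hs, sin_half]
    exact_mod_cast (Real.cosh_pos _).ne'
  have h2 := Gamma_mul_Gamma_one_sub s
  have h3 : cos (Real.pi * (1 - s) / 2) = sin (Real.pi * s / 2) := by
    rw [show (Real.pi : ℂ) * (1 - s) / 2 = Real.pi / 2 - Real.pi * s / 2 by ring, cos_pi_div_two_sub]
  have h4 : sin (Real.pi * s) = 2 * sin (Real.pi * s / 2) * cos (Real.pi * s / 2) := by
    rw [← sin_two_mul]; congr 1; ring
  have h5 : (2 * Real.pi : ℂ) ^ (-s) * (2 * Real.pi : ℂ) ^ (-(1 - s)) = (2 * Real.pi : ℂ)⁻¹ := by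
    rw [← cpow_add _ _ twopi_ne, show -s + -(1 - s) = (-1:ℂ) by ring, cpow_neg_one]
  unfold chi
  rw [h3]
  have hpi : (Real.pi : ℂ) ≠ 0 := by exact_mod_cast Real.pi_ne_zero
  calc _ = 2 * ((2 * Real.pi : ℂ) ^ (-s) * (2 * Real.pi : ℂ) ^ (-(1 - s))) *
        (Gamma s * Gamma (1 - s)) * (2 * sin (Real.pi * s / 2) * cos (Real.pi * s / 2)) := by ring
    _ = 2 * (2 * Real.pi : ℂ)⁻¹ * (Real.pi / sin (Real.pi * s)) * sin (Real.pi * s) := by
        rw [h5, h2, ← h4]
    _ = 1 := by field_simp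

lemma chi_norm {s : ℂ} (hs : s.re = 1/2) : ‖chi s‖ = 1 := by
  have h1 : conj s = 1 - s := by
    apply Complex.ext <;> simp [hs]; norm_num
  have h2 := chi_mul_one_sub hs
  rw [← h1, chi_conj, mul_conj, ← ofReal_one, ofReal_inj, normSq_eq_norm_sq] at h2
  have h3 := norm_nonneg (chi s)
  nlinarith

lemma zeta_one_sub {s : ℂ} (hs : s.re = 1/2) : riemannZeta (1 - s) = chi s * riemannZeta s := by
  unfold chi
  refine riemannZeta_one_sub ?_ ?_
  · intro n h
    rw [h] at hs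
    simp at hs
    have : (0:ℝ) ≤ n := Nat.cast_nonneg n
    linarith
  · rintro rfl
    norm_num at hs

/-- product of the two factors -/
noncomputable def Xt (t : ℝ) (w : ℂ) : ℂ := chi (w + t * I) * chi (w - t * I)

lemma Xt_norm (t y : ℝ) : ‖Xt t (1/2 + y * I)‖ = 1 := by
  unfold Xt
  rw [norm_mul, chi_norm (by simp), chi_norm (by simp), one_mul]

lemma Z_refl (k : ℕ) (t y : ℝ) :
    Z k t (1/2 - y * I) = Xt t (1/2 + y * I) ^ k * Z k t (1/2 + y * I) := by
  unfold Z Xt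
  have h1 : (1/2 - y * I + t * I : ℂ) = 1 - (1/2 + y * I - t * I) := by ring
  have h2 : (1/2 - y * I - t * I : ℂ) = 1 - (1/2 + y * I + t * I) := by ring
  rw [h1, h2, zeta_one_sub (by simp), zeta_one_sub (by simp)]
  ring

lemma Xt_eq {t : ℝ} {w : ℂ} : Xt t w = 2 * (2 * Real.pi : ℂ) ^ (-(2 * w)) *
    (Gamma (w + t * I) * Gamma (w - t * I)) * (cosh (Real.pi * t) + cos (Real.pi * w)) := by
  unfold Xt chi
  have h1 : (2 * Real.pi : ℂ) ^ (-(2 * w)) =
      (2 * Real.pi : ℂ) ^ (-(w + t * I)) * (2 * Real.pi : ℂ) ^ (-(w - t * I)) := by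
    rw [← cpow_add _ _ twopi_ne]; congr 1; ring
  have h2 : cosh (Real.pi * t) + cos (Real.pi * w) =
      2 * cos (Real.pi * (w + t * I) / 2) * cos (Real.pi * (w - t * I) / 2) := by
    rw [← cos_mul_I, cos_add_cos, show ((Real.pi : ℂ) * t * I + Real.pi * w) / 2 =
      Real.pi * (w + t * I) / 2 by ring, show ((Real.pi : ℂ) * t * I - Real.pi * w) / 2 =
      -(Real.pi * (w - t * I) / 2) by ring, cos_neg]
  rw [h1, h2]; ring

lemma norm_cos_le (z : ℂ) : ‖cos z‖ ≤ Real.cosh z.im := by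
  rw [cos, norm_div, Real.cosh_eq]
  have h1 := norm_add_le (exp (z * I)) (exp (-z * I))
  rw [norm_exp, norm_exp] at h1
  simp only [mul_re, I_re, I_im, mul_zero, mul_one, zero_sub, neg_re, neg_im, neg_neg] at h1
  have h2 : ‖(2:ℂ)‖ = 2 := by simp
  rw [h2]
  linarith

lemma Gamma_half_prod (t : ℝ) : Gamma (1/2 + t * I) * Gamma (1/2 - t * I) =
    Real.pi / cosh (Real.pi * t) := by
  have h := Gamma_mul_Gamma_one_sub (1/2 + t * I)
  rw [sin_half, show (1 - (1/2 + t * I) : ℂ) = 1/2 - t * I by ring] at h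
  rw [h]; push_cast; rfl

lemma exp_ell {t : ℝ} (ht : 0 < t) (z : ℂ) :
    exp (z * Real.log t) * (2 * Real.pi : ℂ) ^ (-z) = exp (z * ell t) := by
  have h1 : (ell t : ℂ) = Real.log t - Real.log (2 * Real.pi) := by
    unfold ell
    rw [Real.log_div ht.ne' (by positivity)]; push_cast; ring
  have h2 : (2 * Real.pi : ℂ) = ((2 * Real.pi : ℝ) : ℂ) := by push_cast; rfl
  rw [cpow_def_of_ne_zero twopi_ne, h2, ← Complex.ofReal_log (by positivity), ← exp_add, h1]
  congr 1; ring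

/-- first form: relative to `1/2` -/
lemma Xt_half {t : ℝ} (ht : 0 < t) (w : ℂ) :
    Xt t w = exp ((2 * w - 1) * ell t) * (rr t w (1/2) * (1 + cos (Real.pi * w) / cosh (Real.pi * t))) := by
  have hc : cosh (Real.pi * t : ℂ) ≠ 0 := by
    have : cosh (Real.pi * t : ℂ) = ((Real.cosh (Real.pi * t) : ℝ) : ℂ) := by push_cast; rfl
    rw [this]; exact_mod_cast (Real.cosh_pos _).ne'
  have hpi : (Real.pi : ℂ) ≠ 0 := by exact_mod_cast Real.pi_ne_zero
  rw [Xt_eq, ← exp_ell ht]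
  unfold rr
  rw [Gamma_half_prod]
  have e1 : exp (-(2 * (w - 1/2) * Real.log t)) * exp ((2 * w - 1) * Real.log t) = 1 := by
    rw [← exp_add, ← exp_zero]; congr 1; ring
  have e2 : (2 * Real.pi : ℂ) ^ (-(2 * w - 1)) = (2 * Real.pi : ℂ) ^ (-(2 * w)) * (2 * Real.pi) := by
    rw [show -(2 * w - 1) = -(2 * w) + 1 by ring, cpow_add _ _ twopi_ne, cpow_one]
  rw [e2]
  have e3 : cosh (Real.pi * t : ℂ) + cos (Real.pi * w) =
    cosh (Real.pi * t : ℂ) * (1 + cos (Real.pi * w) / cosh (Real.pi * t)) := by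
    field_simp
  rw [e3]
  have e4 : ∀ A C D E F G P : ℂ, P ≠ 0 → C ≠ 0 → E * F = 1 →
    2 * A * D * (C * G) = F * (A * (2 * P)) * (D / (P / C) * E * G) := by
    intro A C D E F G P hP hC hEF
    field_simp
    linear_combination (-A * D * G) * hEF
  exact e4 _ _ _ _ _ _ _ hpi hc e1

/-- second form: horizontal comparison -/
lemma Xt_horiz {t : ℝ} (ht : 0 < t) {w w' : ℂ} (hw' : 0 < w'.re)
    (hne : cosh (Real.pi * t : ℂ) + cos (Real.pi * w') ≠ 0) :
    Xt t w = Xt t w' * (exp (2 * (w - w') * ell t) * rr t w w' *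
      ((cosh (Real.pi * t) + cos (Real.pi * w)) / (cosh (Real.pi * t) + cos (Real.pi * w')))) := by
  rw [Xt_eq, Xt_eq, ← exp_ell ht]
  unfold rr
  have n3 : Gamma (w' + t * I) ≠ 0 := Gamma_ne_zero_of_re_pos (by simpa using hw')
  have n4 : Gamma (w' - t * I) ≠ 0 := Gamma_ne_zero_of_re_pos (by simpa using hw')
  have e1 : exp (-(2 * (w - w') * Real.log t)) * exp (2 * (w - w') * Real.log t) = 1 := by
    rw [← exp_add, ← exp_zero]; congr 1; ring
  have e2 : (2 * Real.pi : ℂ) ^ (-(2 * w)) =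
      (2 * Real.pi : ℂ) ^ (-(2 * w')) * (2 * Real.pi : ℂ) ^ (-(2 * (w - w'))) := by
    rw [← cpow_add _ _ twopi_ne]; congr 1; ring
  rw [e2]
  have e4 : ∀ A B D D1 D2 E F C C' : ℂ, D1 ≠ 0 → D2 ≠ 0 → C' ≠ 0 → E * F = 1 →
    2 * (A * B) * D * C = 2 * A * (D1 * D2) * C' * (F * B * (D / (D1 * D2) * E) * (C / C')) := by
    intro A B D D1 D2 E F C C' h1 h2 h3 hEF
    field_simp
    linear_combination (-A * B * D * C) * hEF
  exact e4 _ _ _ _ _ _ _ _ _ n3 n4 hne e1

end MP069854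

end

section

namespace MP069854
open Filter Topology Complex Set MeasureTheory

/-- comparison factor with the exact exponential -/
noncomputable def F2 (k : ℕ) (g : ℝ → ℂ) (κ L t : ℝ) (s : ℂ) : ℂ :=
  G g (L * (s - 1/2)) * exp (κ * ell t * (s - 1/2)) * Z k t s

lemma ell_le {t T : ℝ} (ht : 0 < t) (htT : t ≤ T) : ell t ≤ Real.log T := by
  unfold ell
  apply Real.log_le_log (by positivity)
  have h2 : (1:ℝ) ≤ 2 * Real.pi := by have := Real.pi_gt_three; linarith
  calc t / (2 * Real.pi) ≤ t / 1 := by gcongr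
    _ ≤ T := by linarith

lemma arg_eq (L c y : ℝ) : (L : ℂ) * ((c : ℂ) + y * I - 1/2) = ((L * (c - 1/2) : ℝ) : ℂ) + ((L * y : ℝ) : ℂ) * I := by
  push_cast; ring

section
variable {k : ℕ} {κ : ℝ} {Ψ : ℝ → ℂ → ℂ} {g : ℝ → ℂ} {A B : ℝ}

lemma stepA (hΨ : Fam κ Ψ) (hg : TF g A B) (q : ℕ) : ∃ C : ℝ, 0 ≤ C ∧ ∀ L t T Y : ℝ, 1 ≤ L →
    0 ≤ t → t ≤ T → 2 ≤ T → 1 ≤ Y →
    ‖(∫ y : ℝ, FF k g Ψ L t (1/2 + y * I)) - ∫ y in (-Y)..Y, FF k g Ψ L t (1/2 + y * I)‖ ≤
      C * T ^ (2 * k) / Y ^ q := by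
  obtain ⟨C1, hC1, h1⟩ := hg.decay' (q + 2 + 2 * k)
  obtain ⟨C2, hC2, h2⟩ := Z_crit k
  refine ⟨C1 * (C2 * 2 ^ (2 * k)) * Real.pi, by positivity, ?_⟩
  intro L t T Y hL ht htT hT hY
  have hb : ∀ y : ℝ, ‖FF k g Ψ L t (1/2 + y * I)‖ * (1 + |y|) ^ (q + 2) ≤
      C1 * (C2 * 2 ^ (2 * k)) * T ^ (2 * k) := by
    intro y
    have e1 := h1 L 0 y hL le_rfl
    rw [mul_zero, Real.exp_zero, mul_one] at e1
    have e2 := hΨ.crit t y
    have e3 := h2 t y ht
    have e4 : (2 + |y| + t) ^ (2 * k) ≤ 2 ^ (2 * k) * T ^ (2 * k) * (1 + |y|) ^ (2 * k) := by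
      rw [← mul_pow, ← mul_pow]
      apply pow_le_pow_left₀ (by positivity)
      nlinarith [abs_nonneg y]
    have e5 : FF k g Ψ L t (1/2 + y * I) =
        G g (((0:ℝ) : ℂ) + ((L * y : ℝ) : ℂ) * I) * Ψ t (1/2 + y * I) * Z k t (1/2 + y * I) := by
      unfold FF
      congr 3
      push_cast; ring
    rw [e5, norm_mul, norm_mul]
    calc ‖G g (((0:ℝ) : ℂ) + ((L * y : ℝ) : ℂ) * I)‖ * ‖Ψ t (1/2 + y * I)‖ * ‖Z k t (1/2 + y * I)‖ *
          (1 + |y|) ^ (q + 2)
        ≤ ‖G g (((0:ℝ) : ℂ) + ((L * y : ℝ) : ℂ) * I)‖ * 1 *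
          (C2 * (2 ^ (2 * k) * T ^ (2 * k) * (1 + |y|) ^ (2 * k))) * (1 + |y|) ^ (q + 2) := by
          gcongr
          exact e3.trans (by gcongr)
      _ = (‖G g (((0:ℝ) : ℂ) + ((L * y : ℝ) : ℂ) * I)‖ * (1 + |y|) ^ (q + 2 + 2 * k)) *
          (C2 * 2 ^ (2 * k) * T ^ (2 * k)) := by ring
      _ ≤ C1 * (C2 * 2 ^ (2 * k) * T ^ (2 * k)) := by gcongr
      _ = _ := by ring
  have hm : AEStronglyMeasurable (fun y : ℝ => FF k g Ψ L t (1/2 + y * I)) volume := by
    refine Continuous.aestronglyMeasurable ?_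
    unfold FF
    refine Continuous.mul (Continuous.mul ?_ (hΨ.cont t)) (Z_cont_line k t)
    exact hg.G_differentiable.continuous.comp (by fun_prop)
  refine (tail_bound hm hY hb).trans (le_of_eq ?_)
  ring

lemma FF_diff (hΨ : Fam κ Ψ) (hg : TF g A B) (L t : ℝ) {s : ℂ} (h1 : 1/2 ≤ s.re)
    (h2 : |s.im| + 1 ≤ t) : DifferentiableAt ℂ (FF k g Ψ L t) s := by
  have i1 := neg_abs_le s.im
  have i2 := le_abs_self s.im
  unfold FF
  refine DifferentiableAt.mul (DifferentiableAt.mul ?_ (hΨ.diff t s h1 h2)) ?_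
  · exact (hg.G_differentiable _).comp s (by fun_prop)
  · apply Z_differentiableAt
    · intro h
      have := congrArg Complex.im h
      simp at this
      linarith
    · intro h
      have := congrArg Complex.im h
      simp at this
      linarith

lemma Psi_bound (hΨ : Fam κ Ψ) : ∃ (C : ℝ) (a : ℕ), 0 ≤ C ∧ ∀ (t T : ℝ) (s : ℂ), 1/2 ≤ s.re →
    s.re ≤ 2 → 2 ≤ t → t ≤ T → 2 * |s.im| ≤ t →
    ‖Ψ t s‖ ≤ C * (1 + |s.im|) ^ a * Real.exp (κ * (3/2) * Real.log T) := by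
  obtain ⟨C, a, hC, h⟩ := hΨ.approx
  refine ⟨C + 1, a, by linarith, ?_⟩
  intro t T s h1 h2 h3 h4 h5
  have e1 := h t s h1 h2 h3 h5
  have hlog : 0 ≤ Real.log T := Real.log_nonneg (by linarith)
  have e2 : κ * ell t * (s.re - 1/2) ≤ κ * (3/2) * Real.log T := by
    have e3 := ell_le (by linarith : 0 < t) h4
    have hκ := hΨ.κ0
    have e4 : κ * ell t ≤ κ * Real.log T := mul_le_mul_of_nonneg_left e3 hκ
    have e5 : κ * ell t * (s.re - 1/2) ≤ κ * Real.log T * (s.re - 1/2) :=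
      mul_le_mul_of_nonneg_right e4 (by linarith)
    have e6 : κ * Real.log T * (s.re - 1/2) ≤ κ * Real.log T * (3/2) :=
      mul_le_mul_of_nonneg_left (by linarith) (by positivity)
    linarith
  have e7 : ‖exp (κ * ell t * (s - 1/2))‖ = Real.exp (κ * ell t * (s.re - 1/2)) := by
    rw [norm_exp]
    congr 1
    have : ((κ : ℂ) * ell t * (s - 1/2)) = ((κ * ell t : ℝ) : ℂ) * (s - 1/2) := by push_cast; ring
    rw [this, re_ofReal_mul]
    simp
  have e8 : 1 ≤ (1 + |s.im|) ^ a := one_le_pow₀ (by linarith [abs_nonneg s.im])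
  have e9 : Real.exp (κ * ell t * (s.re - 1/2)) ≤ Real.exp (κ * (3/2) * Real.log T) :=
    Real.exp_le_exp.2 e2
  have e10 := norm_sub_norm_le (Ψ t s) (exp (κ * ell t * (s - 1/2)))
  rw [e7] at e10
  have e11 : C * (1 + |s.im|) ^ a * Real.exp (κ * ell t * (s.re - 1/2)) / t ≤
      C * (1 + |s.im|) ^ a * Real.exp (κ * ell t * (s.re - 1/2)) :=
    div_le_self (by positivity) (by linarith)
  calc ‖Ψ t s‖ ≤ C * (1 + |s.im|) ^ a * Real.exp (κ * ell t * (s.re - 1/2)) +
        Real.exp (κ * ell t * (s.re - 1/2)) := by linarith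
    _ ≤ C * (1 + |s.im|) ^ a * Real.exp (κ * ell t * (s.re - 1/2)) +
        (1 + |s.im|) ^ a * Real.exp (κ * ell t * (s.re - 1/2)) := by
        have := mul_le_mul_of_nonneg_right e8 (Real.exp_pos (κ * ell t * (s.re - 1/2))).le
        linarith
    _ = (C + 1) * (1 + |s.im|) ^ a * Real.exp (κ * ell t * (s.re - 1/2)) := by ring
    _ ≤ _ := by gcongr

/-- horizontal bound -/
lemma stepB_bound (hΨ : Fam κ Ψ) (hg : TF g A B) (q : ℕ) : ∃ C : ℝ, 0 ≤ C ∧
    ∀ t T Y x v : ℝ, Real.exp 1 ≤ T → 1 ≤ Y → 2 * Y ≤ t → t ≤ T → 1/2 ≤ x → x ≤ 2 → |v| = Y →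
    ‖FF k g Ψ (Real.log T) t (x + v * I)‖ ≤
      C * Real.exp ((3/2) * (|B| + κ) * Real.log T) * T ^ (2 * k) / Y ^ q := by
  obtain ⟨C1, a, hC1, h1⟩ := Psi_bound hΨ
  obtain ⟨C2, hC2, h2⟩ := hg.decay' (q + a)
  obtain ⟨C3, hC3, h3⟩ := Z_box k
  refine ⟨C2 * C1 * (C3 * 4 ^ (2 * k)), by positivity, ?_⟩
  intro t T Y x v hT hY ht htT hx1 hx2 hv
  have hexp1 : (2:ℝ) ≤ Real.exp 1 := by have := Real.add_one_le_exp (1:ℝ); linarith
  have hT2 : 2 ≤ T := hexp1.trans hT
  have hlog : 1 ≤ Real.log T := by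
    rw [Real.le_log_iff_exp_le (by linarith)]; exact hT
  have hre : ((x : ℂ) + v * I).re = x := by simp
  have him : ((x : ℂ) + v * I).im = v := by simp
  have e1 := h1 t T (x + v * I) (by rw [hre]; exact hx1) (by rw [hre]; exact hx2) (by linarith) htT
    (by rw [him, hv]; exact ht)
  rw [him, hv] at e1
  have e2 := h2 (Real.log T) (Real.log T * (x - 1/2)) v hlog (mul_nonneg (by linarith) (by linarith))
  rw [hv, ← arg_eq] at e2
  have e3 := h3 t (x + v * I) (by linarith) (by rw [hre]; exact hx1) (by rw [hre]; exact hx2)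
    (by rw [him, hv]; linarith)
  rw [him, hv] at e3
  have e4 : (2 + Y + t) ^ (2 * k) ≤ 4 ^ (2 * k) * T ^ (2 * k) := by
    rw [← mul_pow]
    apply pow_le_pow_left₀ (by linarith)
    linarith
  have e5 : Real.exp (B * (Real.log T * (x - 1/2))) ≤ Real.exp (|B| * (3/2) * Real.log T) := by
    apply Real.exp_le_exp.2
    have e6 : B * (Real.log T * (x - 1/2)) ≤ |B| * (Real.log T * (x - 1/2)) :=
      mul_le_mul_of_nonneg_right (le_abs_self B) (mul_nonneg (by linarith) (by linarith))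
    have e7 : |B| * (Real.log T * (x - 1/2)) ≤ |B| * (Real.log T * (3/2)) := by gcongr; linarith
    linarith
  have hYq : 0 < Y ^ q := by positivity
  have hYp : Y ^ q ≤ (1 + Y) ^ q := pow_le_pow_left₀ (by linarith) (by linarith) q
  rw [le_div_iff₀ hYq]
  unfold FF
  rw [norm_mul, norm_mul]
  have e8 : Real.exp ((3/2) * (|B| + κ) * Real.log T) =
      Real.exp (|B| * (3/2) * Real.log T) * Real.exp (κ * (3/2) * Real.log T) := by
    rw [← Real.exp_add]; congr 1; ring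
  rw [e8]
  set E1 := Real.exp (|B| * (3/2) * Real.log T)
  set E2 := Real.exp (κ * (3/2) * Real.log T)
  set N1 := ‖G g ((Real.log T : ℝ) * ((x : ℂ) + v * I - 1/2))‖
  set N2 := ‖Ψ t (x + v * I)‖
  set N3 := ‖Z k t (x + v * I)‖
  calc N1 * N2 * N3 * Y ^ q ≤ N1 * (C1 * (1 + Y) ^ a * E2) * (C3 * (4 ^ (2 * k) * T ^ (2 * k))) *
        (1 + Y) ^ q := by
        gcongr
        exact e3.trans (by gcongr)
    _ = (N1 * (1 + Y) ^ (q + a)) * (C1 * E2 * (C3 * (4 ^ (2 * k) * T ^ (2 * k)))) := by ring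
    _ ≤ (C2 * E1) * (C1 * E2 * (C3 * (4 ^ (2 * k) * T ^ (2 * k)))) := by
        refine mul_le_mul_of_nonneg_right (e2.trans ?_) (by positivity)
        exact mul_le_mul_of_nonneg_left e5 hC2
    _ = _ := by ring

/-- moving the segment -/
lemma stepB (hΨ : Fam κ Ψ) (hg : TF g A B) (q : ℕ) {c : ℝ} (hc : 1/2 ≤ c) (hc2 : c ≤ 2) :
    ∃ C : ℝ, 0 ≤ C ∧ ∀ t T Y : ℝ, Real.exp 1 ≤ T → 1 ≤ Y → 2 * Y ≤ t → t ≤ T →
    ‖(∫ y in (-Y)..Y, FF k g Ψ (Real.log T) t (1/2 + y * I)) -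
      ∫ y in (-Y)..Y, FF k g Ψ (Real.log T) t (c + y * I)‖ ≤
      C * Real.exp ((3/2) * (|B| + κ) * Real.log T) * T ^ (2 * k) / Y ^ q := by
  obtain ⟨C, hC, hb⟩ := stepB_bound (k := k) hΨ hg q
  refine ⟨3 * C, by positivity, ?_⟩
  intro t T Y hT hY ht htT
  set f := FF k g Ψ (Real.log T) t with hf
  have hrect := Complex.integral_boundary_rect_eq_zero_of_differentiableOn f
    (⟨1/2, -Y⟩ : ℂ) (⟨c, Y⟩ : ℂ) ?_
  · simp only at hrect
    set Eb := C * Real.exp ((3/2) * (|B| + κ) * Real.log T) * T ^ (2 * k) / Y ^ q with hEb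
    have hEb0 : 0 ≤ Eb := by
      have hT0 : 0 < T := lt_of_lt_of_le (Real.exp_pos 1) hT
      positivity
    have b1 : ‖∫ x in (1/2 : ℝ)..c, f (x + ((-Y : ℝ) : ℂ) * I)‖ ≤ Eb * |c - 1/2| := by
      refine intervalIntegral.norm_integral_le_of_norm_le_const ?_
      intro x hx
      rw [uIoc_of_le hc] at hx
      exact hb t T Y x (-Y) hT hY ht htT hx.1.le (hx.2.trans hc2) (by rw [abs_neg, abs_of_pos]; linarith)
    have b2 : ‖∫ x in (1/2 : ℝ)..c, f (x + (Y : ℂ) * I)‖ ≤ Eb * |c - 1/2| := by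
      refine intervalIntegral.norm_integral_le_of_norm_le_const ?_
      intro x hx
      rw [uIoc_of_le hc] at hx
      exact hb t T Y x Y hT hY ht htT hx.1.le (hx.2.trans hc2) (by rw [abs_of_pos]; linarith)
    have e1 : (∫ y in (-Y)..Y, f (1/2 + y * I)) - ∫ y in (-Y)..Y, f (c + y * I) =
        -I * ((∫ x in (1/2 : ℝ)..c, f (x + ((-Y : ℝ) : ℂ) * I)) -
          ∫ x in (1/2 : ℝ)..c, f (x + (Y : ℂ) * I)) := by
      simp only [smul_eq_mul] at hrect
      have e2 : (((1/2 : ℝ)) : ℂ) = 1/2 := by push_cast; ring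
      simp only [e2] at hrect
      linear_combination I * hrect + ((∫ y in (-Y)..Y, f (1/2 + y * I)) -
        (∫ y in (-Y)..Y, f (c + y * I))) * I_mul_I
    rw [e1, norm_mul, norm_neg, norm_I, one_mul]
    refine (norm_sub_le _ _).trans ?_
    have e3 : |c - 1/2| ≤ 3/2 := by rw [abs_of_nonneg (by linarith)]; linarith
    calc _ ≤ Eb * |c - 1/2| + Eb * |c - 1/2| := add_le_add b1 b2
      _ ≤ Eb * (3/2) + Eb * (3/2) := by gcongr
      _ = _ := by rw [hEb]; ring
  · intro s hs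
    rw [mem_reProdIm] at hs
    simp only at hs
    rw [uIcc_of_le hc, uIcc_of_le (by linarith : -Y ≤ Y)] at hs
    refine (FF_diff hΨ hg _ _ hs.1.1 ?_).differentiableWithinAt
    have : |s.im| ≤ Y := abs_le.2 ⟨hs.2.1, hs.2.2⟩
    linarith

end

end MP069854

end
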