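import Mathlib
import Pool.Agent.Lib.MP_069854_nt.Part03

section

namespace MP069854
open Filter Topology Complex Set MeasureTheory

section
variable {k : ℕ} {κ : ℝ} {Ψ : ℝ → ℂ → ℂ} {g : ℝ → ℂ} {A B : ℝ}

lemma norm_exp_ell (κ t c : ℝ) (s : ℂ) (hs : s.re = c) :
    ‖exp (κ * ell t * (s - 1/2))‖ = Real.exp (κ * ell t * (c - 1/2)) := by
  rw [norm_exp]
  congr 1
  have : ((κ : ℂ) * ell t * (s - 1/2)) = ((κ * ell t : ℝ) : ℂ) * (s - 1/2) := by push_cast; ring
  rw [this, re_ofReal_mul, ← hs]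
  simp

lemma exp_ell_le {κ t T c : ℝ} (hκ : 0 ≤ κ) (ht : 0 < t) (htT : t ≤ T) (hc : 1/2 ≤ c) :
    Real.exp (κ * ell t * (c - 1/2)) ≤ Real.exp (κ * (c - 1/2) * Real.log T) := by
  apply Real.exp_le_exp.2
  have e3 := ell_le ht htT
  have e4 : κ * ell t ≤ κ * Real.log T := mul_le_mul_of_nonneg_left e3 hκ
  have e5 : κ * ell t * (c - 1/2) ≤ κ * Real.log T * (c - 1/2) :=
    mul_le_mul_of_nonneg_right e4 (by linarith only [hc])
  linarith only [e5]

/-- replacing `Ψ` by the exponential on the segment at `Re s = c` -/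
lemma stepC (hΨ : Fam κ Ψ) (hg : TF g A B) {c : ℝ} (hc : 1 < c) (hc2 : c ≤ 2) :
    ∃ C : ℝ, 0 ≤ C ∧ ∀ t T Y : ℝ, Real.exp 1 ≤ T → 1 ≤ Y → 2 * Y ≤ t → t ≤ T →
    ‖(∫ y in (-Y)..Y, FF k g Ψ (Real.log T) t (c + y * I)) -
      ∫ y in (-Y)..Y, F2 k g κ (Real.log T) t (c + y * I)‖ ≤
      C * Real.exp ((B + κ) * (c - 1/2) * Real.log T) / t := by
  obtain ⟨C1, a, hC1, h1⟩ := hΨ.approx
  obtain ⟨C2, hC2, h2⟩ := hg.decay' (a + 2)
  obtain ⟨C3, hC3, h3⟩ := Z_right k hc
  refine ⟨C2 * C1 * C3 * Real.pi, by (clear * - hC1 hC2 hC3; positivity), ?_⟩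
  intro t T Y hT hY ht htT
  have hexp1 : (2:ℝ) ≤ Real.exp 1 := by have := Real.add_one_le_exp (1:ℝ); linarith only [this]
  have hlog : 1 ≤ Real.log T := by
    rw [Real.le_log_iff_exp_le (by linarith only [hY, ht, htT])]; exact hT
  have ht0 : 0 < t := by linarith only [hY, ht]
  have hre : ∀ y : ℝ, ((c : ℂ) + y * I).re = c := by intro y; simp
  have him : ∀ y : ℝ, ((c : ℂ) + y * I).im = y := by intro y; simp
  set E := Real.exp (B * (Real.log T * (c - 1/2))) with hE
  set E' := Real.exp (κ * (c - 1/2) * Real.log T) with hE'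
  have hEE : Real.exp ((B + κ) * (c - 1/2) * Real.log T) = E * E' := by
    rw [hE, hE', ← Real.exp_add]; congr 1; ring
  have hcont : ∀ y ∈ uIcc (-Y) Y, |y| + 1 ≤ t := by
    intro y hy
    rw [uIcc_of_le (by linarith only [hY])] at hy
    have : |y| ≤ Y := abs_le.2 hy
    linarith only [hY, ht, this]
  have hcF : ContinuousOn (fun y : ℝ => FF k g Ψ (Real.log T) t (c + y * I)) (uIcc (-Y) Y) := by
    intro y hy
    have hd := FF_diff (k := k) hΨ hg (Real.log T) t (s := (c : ℂ) + y * I) (by rw [hre]; linarith only [hc])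
      (by rw [him]; exact hcont y hy)
    exact (ContinuousAt.comp (f := fun y : ℝ => ((c : ℂ) + y * I)) (g := FF k g Ψ (Real.log T) t)
      hd.continuousAt (by fun_prop)).continuousWithinAt
  have hcZ : ∀ y : ℝ, ContinuousAt (fun y : ℝ => Z k t (c + y * I)) y := by
    intro y
    have hd : DifferentiableAt ℂ (Z k t) ((c : ℂ) + y * I) := by
      apply Z_differentiableAt
      · intro h
        have := congrArg Complex.re h
        simp at this
        linarith only [hc, this]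
      · intro h
        have := congrArg Complex.re h
        simp at this
        linarith only [hc, this]
    exact ContinuousAt.comp (f := fun y : ℝ => ((c : ℂ) + y * I)) (g := Z k t)
      hd.continuousAt (by fun_prop)
  have hcF2 : Continuous (fun y : ℝ => F2 k g κ (Real.log T) t (c + y * I)) := by
    unfold F2
    refine Continuous.mul (Continuous.mul ?_ (by fun_prop)) (continuous_iff_continuousAt.2 hcZ)
    exact hg.G_differentiable.continuous.comp (by fun_prop)
  rw [← intervalIntegral.integral_sub hcF.intervalIntegrable (hcF2.intervalIntegrable _ _)]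
  have hpt : ∀ y : ℝ, |y| ≤ Y → ‖FF k g Ψ (Real.log T) t (c + y * I) -
      F2 k g κ (Real.log T) t (c + y * I)‖ ≤ C2 * C1 * C3 * (E * E') / t * (1 + y ^ 2)⁻¹ := by
    intro y hy
    have e1 := h1 t (c + y * I) (by rw [hre]; linarith only [hc]) (by rw [hre]; exact hc2) (by linarith only [hY, ht])
      (by rw [him]; linarith only [ht, hy])
    rw [him, hre] at e1
    have e2 := h2 (Real.log T) (Real.log T * (c - 1/2)) y hlog (mul_nonneg (by linarith only [hlog]) (by linarith only [hc]))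
    rw [← arg_eq] at e2
    have e3 := h3 t y
    have e4 := exp_ell_le (c := c) hΨ.κ0 ht0 htT (by linarith only [hc])
    have e5 : FF k g Ψ (Real.log T) t (c + y * I) - F2 k g κ (Real.log T) t (c + y * I) =
        G g ((Real.log T : ℝ) * ((c : ℂ) + y * I - 1/2)) *
        (Ψ t (c + y * I) - exp (κ * ell t * ((c : ℂ) + y * I - 1/2))) * Z k t (c + y * I) := by
      unfold FF F2; ring
    rw [e5, norm_mul, norm_mul, ← div_eq_mul_inv, le_div_iff₀ (by (clear * -; positivity)), le_div_iff₀ ht0]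
    set N1 := ‖G g ((Real.log T : ℝ) * ((c : ℂ) + y * I - 1/2))‖
    set N2 := ‖Ψ t (c + y * I) - exp (κ * ell t * ((c : ℂ) + y * I - 1/2))‖
    set N3 := ‖Z k t (c + y * I)‖
    have e6 : N2 * t ≤ C1 * (1 + |y|) ^ a * E' := by
      have := (le_div_iff₀ ht0).1 e1
      refine this.trans ?_
      (clear * - hC1 e4; gcongr)
    have e7 : 1 + y ^ 2 ≤ (1 + |y|) ^ 2 := by nlinarith only [abs_nonneg y, sq_abs y]
    calc N1 * N2 * N3 * (1 + y ^ 2) * t = N1 * (N2 * t) * N3 * (1 + y ^ 2) := by ring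
      _ ≤ N1 * (C1 * (1 + |y|) ^ a * E') * C3 * (1 + |y|) ^ 2 := by (clear * - hC1 hC3 e3 e6 e7; gcongr)
      _ = (N1 * (1 + |y|) ^ (a + 2)) * (C1 * E' * C3) := by ring
      _ ≤ (C2 * E) * (C1 * E' * C3) := mul_le_mul_of_nonneg_right e2 (by (clear * - hC1 hC3; positivity))
      _ = _ := by ring
  rw [intervalIntegral.integral_of_le (by linarith only [hY])]
  have hfin : C2 * C1 * C3 * Real.pi * Real.exp ((B + κ) * (c - 1/2) * Real.log T) / t =
      ∫ y : ℝ, C2 * C1 * C3 * (E * E') / t * (1 + y ^ 2)⁻¹ := by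
    rw [integral_const_mul, integral_univ_inv_one_add_sq, hEE]; ring
  rw [hfin]
  refine (norm_integral_le_of_norm_le (g := fun y => C2 * C1 * C3 * (E * E') / t * (1 + y ^ 2)⁻¹)
    ((integrable_inv_one_add_sq.const_mul _).integrableOn) ?_).trans ?_
  · filter_upwards [self_mem_ae_restrict measurableSet_Ioc] with y hy
    exact hpt y (abs_le.2 ⟨hy.1.le, hy.2⟩)
  · refine setIntegral_le_integral (integrable_inv_one_add_sq.const_mul _) ?_
    exact Eventually.of_forall fun y => by (clear * - hC1 hC2 hC3 ht0; positivity)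

lemma F2_line_cont (hg : TF g A B) (k : ℕ) (κ L t : ℝ) {c : ℝ} (hc : 1 < c) :
    Continuous (fun y : ℝ => F2 k g κ L t (c + y * I)) := by
  have hcZ : ∀ y : ℝ, ContinuousAt (fun y : ℝ => Z k t (c + y * I)) y := by
    intro y
    have hd : DifferentiableAt ℂ (Z k t) ((c : ℂ) + y * I) := by
      apply Z_differentiableAt
      · intro h
        have := congrArg Complex.re h
        simp at this
        linarith only [hc, this]
      · intro h
        have := congrArg Complex.re h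
        simp at this
        linarith only [hc, this]
    exact ContinuousAt.comp (f := fun y : ℝ => ((c : ℂ) + y * I)) (g := Z k t)
      hd.continuousAt (by fun_prop)
  unfold F2
  refine Continuous.mul (Continuous.mul ?_ (by fun_prop)) (continuous_iff_continuousAt.2 hcZ)
  exact hg.G_differentiable.continuous.comp (by fun_prop)

/-- tail at `Re s = c` -/
lemma stepD (hκ : 0 ≤ κ) (hg : TF g A B) (q : ℕ) {c : ℝ} (hc : 1 < c) (hc2 : c ≤ 2) :
    ∃ C : ℝ, 0 ≤ C ∧ ∀ t T Y : ℝ, Real.exp 1 ≤ T → 1 ≤ Y → 0 < t → t ≤ T →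
    ‖(∫ y : ℝ, F2 k g κ (Real.log T) t (c + y * I)) -
      ∫ y in (-Y)..Y, F2 k g κ (Real.log T) t (c + y * I)‖ ≤
      C * Real.exp ((3/2) * (|B| + κ) * Real.log T) / Y ^ q := by
  obtain ⟨C2, hC2, h2⟩ := hg.decay' (q + 2)
  obtain ⟨C3, hC3, h3⟩ := Z_right k hc
  refine ⟨C2 * C3 * Real.pi, by (clear * - hC2 hC3; positivity), ?_⟩
  intro t T Y hT hY ht htT
  have hexp1 : (2:ℝ) ≤ Real.exp 1 := by have := Real.add_one_le_exp (1:ℝ); linarith only [this]
  have hlog : 1 ≤ Real.log T := by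
    rw [Real.le_log_iff_exp_le (by linarith only [hT, hexp1])]; exact hT
  have hb : ∀ y : ℝ, ‖F2 k g κ (Real.log T) t (c + y * I)‖ * (1 + |y|) ^ (q + 2) ≤
      C2 * C3 * Real.exp ((3/2) * (|B| + κ) * Real.log T) := by
    intro y
    have e2 := h2 (Real.log T) (Real.log T * (c - 1/2)) y hlog (mul_nonneg (by linarith only [hlog]) (by linarith only [hc]))
    rw [← arg_eq] at e2
    have e3 := h3 t y
    have e4 := exp_ell_le (c := c) hκ ht htT (by linarith only [hc])
    have e5 := norm_exp_ell κ t c ((c : ℂ) + y * I) (by simp)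
    have e6 : Real.exp (B * (Real.log T * (c - 1/2))) * Real.exp (κ * (c - 1/2) * Real.log T) ≤
        Real.exp ((3/2) * (|B| + κ) * Real.log T) := by
      rw [← Real.exp_add]
      apply Real.exp_le_exp.2
      have e7 : B * (Real.log T * (c - 1/2)) ≤ |B| * (Real.log T * (c - 1/2)) :=
        mul_le_mul_of_nonneg_right (le_abs_self B) (mul_nonneg (by linarith only [hlog]) (by linarith only [hc]))
      have e8 : |B| * (Real.log T * (c - 1/2)) ≤ |B| * (Real.log T * (3/2)) := by gcongr; linarith only [hc2]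
      have e9 : κ * (c - 1/2) * Real.log T ≤ κ * (3/2) * Real.log T := by
        gcongr; linarith only [hc2]
      linarith only [e7, e8, e9]
    unfold F2
    rw [norm_mul, norm_mul, e5]
    set N1 := ‖G g ((Real.log T : ℝ) * ((c : ℂ) + y * I - 1/2))‖
    set N3 := ‖Z k t (c + y * I)‖
    calc N1 * Real.exp (κ * ell t * (c - 1/2)) * N3 * (1 + |y|) ^ (q + 2)
        ≤ N1 * Real.exp (κ * (c - 1/2) * Real.log T) * C3 * (1 + |y|) ^ (q + 2) := by (clear * - e4 e3; gcongr)
      _ = (N1 * (1 + |y|) ^ (q + 2)) * (Real.exp (κ * (c - 1/2) * Real.log T) * C3) := by ring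
      _ ≤ (C2 * Real.exp (B * (Real.log T * (c - 1/2)))) *
          (Real.exp (κ * (c - 1/2) * Real.log T) * C3) :=
          mul_le_mul_of_nonneg_right e2 (by (clear * - hC3; positivity))
      _ = C2 * C3 * (Real.exp (B * (Real.log T * (c - 1/2))) *
          Real.exp (κ * (c - 1/2) * Real.log T)) := by ring
      _ ≤ _ := by (clear * - hC2 hC3 e6; gcongr)
  refine (tail_bound (F2_line_cont hg k κ _ t hc).aestronglyMeasurable hY hb).trans (le_of_eq ?_)
  ring

/-- identification of the full integral at `Re s = c` -/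
lemma stepE (hg : TF g A B) (κ : ℝ) {L t c : ℝ} (hL : 0 < L) (hc : 1 < c) :
    L * ∫ y : ℝ, F2 k g κ L t (c + y * I) =
      2 * Real.pi * ∑' x : ℕ × ℕ, DP k (fun u => g (u - κ * ell t / L)) L t x := by
  rw [← main_eval k (hg.shift (κ * ell t / L)) hL hc t]
  congr 1
  refine integral_congr_ae (Eventually.of_forall fun y => ?_)
  simp only [F2]
  rw [TF.G_shift, ← arg_eq]
  have hL' : (L : ℂ) ≠ 0 := by exact_mod_cast hL.ne'
  have : ((κ * ell t / L : ℝ) : ℂ) * ((L : ℂ) * ((c : ℂ) + y * I - 1/2)) =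
      κ * ell t * ((c : ℂ) + y * I - 1/2) := by
    push_cast; field_simp
  rw [this]; ring

/-- The contour shift, all together. -/
theorem shift_main (k : ℕ) (hΨ : Fam κ Ψ) (hg : TF g A B) {c : ℝ} (hc : 1 < c) (hc2 : c ≤ 2) :
    ∃ C : ℝ, 0 ≤ C ∧ ∀ t T : ℝ, Real.exp 1 ≤ T →
      2 * Real.exp (Real.log T / (2 * k + 2)) ≤ t → t ≤ T →
      ‖JJ k g Ψ (Real.log T) t - 2 * Real.pi *
        ∑' x : ℕ × ℕ, DP k (fun u => g (u - κ * ell t / Real.log T)) (Real.log T) t x‖ ≤
      C * (Real.log T * Real.exp ((B + κ) * (c - 1/2) * Real.log T) / t + 1 / T) := by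
  set b : ℕ := ⌈(3/2) * (|B| + κ)⌉₊ + 2 * k with hb
  set q : ℕ := (2 * k + 2) * (b + 2) with hq
  obtain ⟨CA, hCA, hA⟩ := stepA (k := k) hΨ hg q
  obtain ⟨CB, hCB, hB⟩ := stepB (k := k) hΨ hg q (c := c) (by linarith only [hc]) hc2
  obtain ⟨CC, hCC, hC⟩ := stepC (k := k) hΨ hg hc hc2
  obtain ⟨CD, hCD, hD⟩ := stepD (k := k) hΨ.κ0 hg q hc hc2
  refine ⟨CA + CB + CC + CD, by (clear * - hCA hCB hCC hCD; positivity), ?_⟩
  intro t T hT ht htT
  set L := Real.log T with hLdef
  set Y := Real.exp (L / (2 * k + 2)) with hY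
  have hexp1 : (2:ℝ) ≤ Real.exp 1 := by have := Real.add_one_le_exp (1:ℝ); linarith only [this]
  have hT0 : 0 < T := by linarith only [hT, hexp1]
  have hL1 : 1 ≤ L := by
    rw [hLdef, Real.le_log_iff_exp_le hT0]; exact hT
  have hk0 : (0:ℝ) < 2 * k + 2 := by (clear * -; positivity)
  have hY1 : 1 ≤ Y := Real.one_le_exp (by (clear * - hL1; positivity))
  have ht0 : 0 < t := by linarith only [ht, hY1]
  have a1 := hA L t T Y hL1 ht0.le htT (by linarith only [hT, hexp1]) hY1
  have b1 := hB t T Y hT hY1 ht htT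
  have c1 := hC t T Y hT hY1 ht htT
  have d1 := hD t T Y hT hY1 ht0 htT
  rw [← hLdef] at b1 c1 d1
  rw [JJ_eq k g Ψ (by linarith only [hL1] : 0 < L) t, ← stepE hg κ (by linarith only [hL1] : 0 < L) hc, ← mul_sub, norm_mul,
    Complex.norm_real, Real.norm_eq_abs, abs_of_pos (by linarith only [hL1] : 0 < L)]
  set I0 := ∫ y : ℝ, FF k g Ψ L t (1/2 + y * I)
  set I1 := ∫ y in (-Y)..Y, FF k g Ψ L t (1/2 + y * I)
  set I2 := ∫ y in (-Y)..Y, FF k g Ψ L t (c + y * I)
  set I3 := ∫ y in (-Y)..Y, F2 k g κ L t (c + y * I)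
  set I4 := ∫ y : ℝ, F2 k g κ L t (c + y * I)
  have htri : ‖I0 - I4‖ ≤ ‖I0 - I1‖ + ‖I1 - I2‖ + ‖I2 - I3‖ + ‖I4 - I3‖ := by
    have : I0 - I4 = (I0 - I1) + (I1 - I2) + (I2 - I3) - (I4 - I3) := by ring
    rw [this]
    refine (norm_sub_le _ _).trans ?_
    gcongr
    exact norm_add₃_le
  -- power bookkeeping
  have hTexp : T = Real.exp L := (Real.exp_log hT0).symm
  have hYq : Y ^ q = Real.exp ((b + 2) * L) := by
    rw [hY, ← Real.exp_nat_mul, hq]
    congr 1
    push_cast
    field_simp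
  set W := Real.exp ((3/2) * (|B| + κ) * L) with hW
  have hW1 : 1 ≤ W := Real.one_le_exp (by
    have := hΨ.κ0
    have := abs_nonneg B
    positivity)
  have hWT : W * T ^ (2 * k) ≤ Real.exp (b * L) := by
    rw [hTexp, ← Real.exp_nat_mul, hW, ← Real.exp_add]
    apply Real.exp_le_exp.2
    have h1 : (3/2) * (|B| + κ) ≤ ⌈(3/2) * (|B| + κ)⌉₊ := Nat.le_ceil _
    have h2 : (b : ℝ) = ⌈(3/2) * (|B| + κ)⌉₊ + 2 * k := by rw [hb]; push_cast; ring
    rw [h2]
    push_cast
    nlinarith only [hL1, h1]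
  have hsmall : L * (W * T ^ (2 * k)) / Y ^ q ≤ 1 / T := by
    rw [hYq, hTexp, div_le_div_iff₀ (Real.exp_pos _) (Real.exp_pos _), one_mul]
    rw [← hTexp]
    have h3 : L ≤ Real.exp L := by have := Real.add_one_le_exp L; linarith only [this]
    calc L * (W * T ^ (2 * k)) * T ≤ Real.exp L * Real.exp (b * L) * T := by (clear * - hT0 hWT h3; gcongr)
      _ = Real.exp L * Real.exp (b * L) * Real.exp L := by rw [← hTexp]
      _ = Real.exp ((b + 2) * L) := by rw [← Real.exp_add, ← Real.exp_add]; congr 1; ring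
  have hT1 : 1 ≤ T ^ (2 * k) := one_le_pow₀ (by linarith only [hT, hexp1])
  have hYq0 : 0 < Y ^ q := by (clear * -; positivity)
  have a2 : L * ‖I0 - I1‖ ≤ CA * (1 / T) := by
    calc L * ‖I0 - I1‖ ≤ L * (CA * T ^ (2 * k) / Y ^ q) := by (clear * - hL1 a1; gcongr)
      _ ≤ L * (CA * (W * T ^ (2 * k)) / Y ^ q) := by
          gcongr
          exact le_mul_of_one_le_left (by (clear * - hT0; positivity)) hW1
      _ = CA * (L * (W * T ^ (2 * k)) / Y ^ q) := by ring
      _ ≤ _ := by (clear * - hCA hsmall; gcongr)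
  have b2 : L * ‖I1 - I2‖ ≤ CB * (1 / T) := by
    calc L * ‖I1 - I2‖ ≤ L * (CB * W * T ^ (2 * k) / Y ^ q) := by (clear * - hL1 b1; gcongr)
      _ = CB * (L * (W * T ^ (2 * k)) / Y ^ q) := by ring
      _ ≤ _ := by (clear * - hCB hsmall; gcongr)
  have d2 : L * ‖I4 - I3‖ ≤ CD * (1 / T) := by
    calc L * ‖I4 - I3‖ ≤ L * (CD * W / Y ^ q) := by (clear * - hL1 d1; gcongr)
      _ ≤ L * (CD * (W * T ^ (2 * k)) / Y ^ q) := by
          gcongr
          exact le_mul_of_one_le_right (by positivity) hT1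
      _ = CD * (L * (W * T ^ (2 * k)) / Y ^ q) := by ring
      _ ≤ _ := by (clear * - hCD hsmall; gcongr)
  have c2 : L * ‖I2 - I3‖ ≤ CC * (L * Real.exp ((B + κ) * (c - 1/2) * L) / t) := by
    calc L * ‖I2 - I3‖ ≤ L * (CC * Real.exp ((B + κ) * (c - 1/2) * L) / t) := by (clear * - hL1 c1; gcongr)
      _ = _ := by ring
  have hX0 : 0 ≤ L * Real.exp ((B + κ) * (c - 1/2) * L) / t := by (clear * - hL1 ht0; positivity)
  have hT' : 0 ≤ 1 / T := by (clear * - hT0; positivity)
  calc L * ‖I0 - I4‖ ≤ L * (‖I0 - I1‖ + ‖I1 - I2‖ + ‖I2 - I3‖ + ‖I4 - I3‖) := by (clear * - hL1 htri; gcongr)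
    _ = L * ‖I0 - I1‖ + L * ‖I1 - I2‖ + L * ‖I2 - I3‖ + L * ‖I4 - I3‖ := by ring
    _ ≤ CA * (1 / T) + CB * (1 / T) + CC * (L * Real.exp ((B + κ) * (c - 1/2) * L) / t) + CD * (1 / T) := by
        linarith only [a2, b2, d2, c2]
    _ ≤ _ := by nlinarith only [mul_nonneg hCA hX0, mul_nonneg hCB hX0, mul_nonneg hCD hX0,
        mul_nonneg hCC hT', hCA, hCB, hCC, hCD, hX0, hT']

end

end MP069854

end

section

namespace MP069854
open Filter Topology Complex Set MeasureTheory

section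
variable {k : ℕ} {κ : ℝ} {Ψ : ℝ → ℂ → ℂ} {g : ℝ → ℂ} {A B : ℝ}

lemma TF.bounded (hg : TF g A B) : ∃ C : ℝ, 0 ≤ C ∧ ∀ u, ‖g u‖ ≤ C := by
  obtain ⟨C, hC⟩ := hg.hcs.exists_bound_of_continuous hg.cont
  exact ⟨C, (norm_nonneg _).trans (hC 0), hC⟩

lemma TF.lip (hg : TF g A B) : ∃ C : ℝ, 0 ≤ C ∧ ∀ u v, ‖g u - g v‖ ≤ C * |u - v| := by
  obtain ⟨C, hC0, hC⟩ := hg.der.bounded
  refine ⟨C, hC0, ?_⟩
  intro u v
  have h := Convex.norm_image_sub_le_of_norm_deriv_le (f := g) (s := univ) (x := v) (y := u) (C := C)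
    (fun x _ => (hg.smooth.differentiable (by simp)) x) (fun x _ => hC x) convex_univ trivial trivial
  simpa using h

/-- oscillatory integral -/
lemma osc (hg : TF g A B) (hκ : 0 ≤ κ) : ∃ C : ℝ, 0 ≤ C ∧ ∀ (T y0 v lam : ℝ), Real.exp 1 ≤ T →
    1 ≤ y0 → y0 ≤ T → lam ≠ 0 →
    ‖∫ t in y0..T, g (v - κ * ell t / Real.log T) * exp ((lam * t : ℝ) * I)‖ ≤ C / |lam| := by
  obtain ⟨G0, hG0, h0⟩ := hg.bounded
  obtain ⟨G1, hG1, h1⟩ := hg.der.bounded
  refine ⟨2 * G0 + κ * G1, by (clear * - hκ hG0 hG1; positivity), ?_⟩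
  intro T y0 v lam hT hy0 hyT hlam
  set L := Real.log T with hL
  have hexp1 : (2:ℝ) ≤ Real.exp 1 := by have := Real.add_one_le_exp (1:ℝ); linarith only [this]
  have hT0 : 0 < T := by linarith only [hT, hexp1]
  have hL1 : 1 ≤ L := by
    rw [hL, Real.le_log_iff_exp_le hT0]; exact hT
  have hL0 : 0 < L := by linarith only [hL1]
  have hpos : ∀ t ∈ uIcc y0 T, 0 < t := by
    intro t ht
    rw [uIcc_of_le hyT] at ht
    linarith only [ht.1, hy0, ht]
  have hlamI : (lam : ℂ) * I ≠ 0 := mul_ne_zero (by exact_mod_cast hlam) I_ne_zero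
  have hell : ∀ t ∈ uIcc y0 T, HasDerivAt (fun t => v - κ * ell t / L) (-(κ / (t * L))) t := by
    intro t ht
    have ht0 := hpos t ht
    unfold ell
    have e1 : HasDerivAt (fun t : ℝ => Real.log (t / (2 * Real.pi))) (1 / t) t := by
      have e2 : HasDerivAt (fun t : ℝ => t / (2 * Real.pi)) (1 / (2 * Real.pi)) t :=
        (hasDerivAt_id t).div_const _
      have e3 := e2.log (by (clear * - ht0; positivity))
      convert e3 using 1
      field_simp
    have e4 := ((e1.const_mul κ).div_const L).const_sub v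
    have e5 : -(κ / (t * L)) = -(κ * (1 / t) / L) := by
      have := hL0.ne'; have := ht0.ne'; field_simp
    rw [e5]
    exact e4
  have hu : ∀ t ∈ uIcc y0 T, HasDerivAt (fun t : ℝ => g (v - κ * ell t / L))
      ((-(κ / (t * L)) : ℝ) • deriv g (v - κ * ell t / L)) t := by
    intro t ht
    have e1 : HasDerivAt g (deriv g (v - κ * ell t / L)) (v - κ * ell t / L) :=
      ((hg.smooth.differentiable (by simp)) _).hasDerivAt
    exact e1.scomp t (hell t ht)
  have hv : ∀ t ∈ uIcc y0 T, HasDerivAt (fun t : ℝ => exp ((lam * t : ℝ) * I) / (lam * I))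
      (exp ((lam * t : ℝ) * I)) t := by
    intro t _
    have e1 : HasDerivAt (fun t : ℝ => ((lam * t : ℝ) : ℂ) * I) (lam * I) t := by
      have e2 : HasDerivAt (fun t : ℝ => ((lam * t : ℝ) : ℂ)) (lam : ℂ) t := by
        have := ((hasDerivAt_id t).const_mul lam).ofReal_comp
        simpa using this
      exact e2.mul_const I
    have e3 := e1.cexp.div_const (lam * I)
    rw [mul_div_cancel_right₀ _ hlamI] at e3
    exact e3
  have hcell : ContinuousOn (fun t : ℝ => v - κ * ell t / L) (uIcc y0 T) :=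
    fun t ht => (hell t ht).continuousAt.continuousWithinAt
  have hcu' : ContinuousOn (fun t : ℝ => (-(κ / (t * L)) : ℝ) • deriv g (v - κ * ell t / L)) (uIcc y0 T) := by
    refine ContinuousOn.smul (f := fun t : ℝ => -(κ / (t * L)))
      (g := fun t : ℝ => deriv g (v - κ * ell t / L)) ?_ (hg.der.cont.comp_continuousOn hcell)
    refine ContinuousOn.neg (ContinuousOn.div continuousOn_const (by fun_prop) ?_)
    intro t ht
    have := hpos t ht
    (clear * - hL1 this; positivity)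
  have hIBP := intervalIntegral.integral_mul_deriv_eq_deriv_mul hu hv hcu'.intervalIntegrable
    (Continuous.intervalIntegrable (by fun_prop) _ _)
  rw [hIBP]
  have hlam' : ‖(lam : ℂ) * I‖ = |lam| := by simp
  have habs : 0 < |lam| := abs_pos.2 hlam
  have n1 : ∀ t : ℝ, ‖exp ((lam * t : ℝ) * I) / (lam * I)‖ = 1 / |lam| := by
    intro t
    rw [norm_div, hlam', norm_exp_ofReal_mul_I]
  have n2 : ‖∫ t in y0..T, (-(κ / (t * L)) : ℝ) • deriv g (v - κ * ell t / L) *
      (exp ((lam * t : ℝ) * I) / (lam * I))‖ ≤ κ * G1 / |lam| := by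
    have hle : ‖∫ t in y0..T, (-(κ / (t * L)) : ℝ) • deriv g (v - κ * ell t / L) *
      (exp ((lam * t : ℝ) * I) / (lam * I))‖ ≤ ∫ t in y0..T, κ * G1 / (L * |lam|) * t⁻¹ := by
      refine intervalIntegral.norm_integral_le_of_norm_le hyT ?_ ?_
      · refine Eventually.of_forall fun t ht => ?_
        have ht0 : 0 < t := by linarith only [ht.1, hy0, ht]
        rw [norm_mul, n1, norm_smul, Real.norm_eq_abs, abs_neg, abs_of_nonneg (by (clear * - hκ hL1 ht0; positivity))]
        have := h1 (v - κ * ell t / L)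
        calc κ / (t * L) * ‖deriv g (v - κ * ell t / L)‖ * (1 / |lam|)
            ≤ κ / (t * L) * G1 * (1 / |lam|) := by (clear * - hκ hlam hL1 ht0 this; gcongr)
          _ = κ * G1 / (L * |lam|) * t⁻¹ := by field_simp
      · refine ContinuousOn.intervalIntegrable ?_
        refine continuousOn_const.mul (continuousOn_id.inv₀ ?_)
        intro t ht
        exact (hpos t ht).ne'
    refine hle.trans ?_
    rw [intervalIntegral.integral_const_mul, integral_inv_of_pos (by linarith only [hy0]) hT0]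
    have h3 : Real.log (T / y0) ≤ L := by
      rw [hL]
      apply Real.log_le_log (by (clear * - hy0 hT0; positivity))
      exact div_le_self hT0.le hy0
    calc κ * G1 / (L * |lam|) * Real.log (T / y0) ≤ κ * G1 / (L * |lam|) * L := by (clear * - hκ hG1 hlam hL1 h3; gcongr)
      _ = κ * G1 / |lam| := by field_simp
  refine (norm_sub_le _ _).trans ?_
  have n3 : ‖g (v - κ * ell T / L) * (exp ((lam * T : ℝ) * I) / (lam * I)) -
      g (v - κ * ell y0 / L) * (exp ((lam * y0 : ℝ) * I) / (lam * I))‖ ≤ 2 * G0 / |lam| := by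
    refine (norm_sub_le _ _).trans ?_
    rw [norm_mul, norm_mul, n1, n1]
    have e1 := h0 (v - κ * ell T / L)
    have e2 := h0 (v - κ * ell y0 / L)
    calc _ ≤ G0 * (1 / |lam|) + G0 * (1 / |lam|) := by (clear * - hlam e1 e2; gcongr)
      _ = _ := by ring
  calc _ ≤ 2 * G0 / |lam| + κ * G1 / |lam| := add_le_add n3 n2
    _ = _ := by ring

end

end MP069854

end

section

namespace MP069854
open Filter Topology Complex Set MeasureTheory

section
variable {k : ℕ} {κ : ℝ} {Ψ : ℝ → ℂ → ℂ} {g : ℝ → ℂ} {A B : ℝ}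

lemma kd_bound {a lam : ℕ → ℝ} {K : ℕ} {Aa : ℝ} (hd : KData a lam K Aa) (hg : TF g A B) (κ : ℝ) :
    ∃ C : ℝ, 0 ≤ C ∧ ∀ᶠ s : ℝ in 𝓝[>] 0, ∀ σ : ℝ, σ ≤ κ →
      (Summable fun n => (a n : ℂ) * g (2 * (s * lam n) - σ)) ∧
      ‖(s : ℂ) ^ K * ∑' n, (a n : ℂ) * g (2 * (s * lam n) - σ)‖ ≤ C := by
  obtain ⟨G0, hG0, h0⟩ := hg.bounded
  have hA := hd.A_nonneg
  refine ⟨G0 * Real.exp ((B + κ) / 2) * (Aa + 1), by (clear * - hG0 hA; positivity), ?_⟩
  have h2 : ∀ᶠ s in 𝓝[>] (0:ℝ), s ^ K * ∑' n, a n * Real.exp (-(s * lam n)) < Aa + 1 :=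
    hd.lim.eventually (gt_mem_nhds (by linarith only []))
  filter_upwards [h2, self_mem_nhdsWithin] with s hs2 hs σ hσ
  have hs' : (0:ℝ) < s := hs
  have hterm : ∀ n, ‖(a n : ℂ) * g (2 * (s * lam n) - σ)‖ ≤
      G0 * Real.exp ((B + κ) / 2) * (a n * Real.exp (-(s * lam n))) := by
    intro n
    rw [norm_mul, Complex.norm_real, Real.norm_of_nonneg (hd.a0 n)]
    have e1 : ‖g (2 * (s * lam n) - σ)‖ ≤ G0 * (Real.exp ((B + κ) / 2) * Real.exp (-(s * lam n))) := by
      by_cases hB : 2 * (s * lam n) - σ ≤ B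
      · have : 1 ≤ Real.exp ((B + κ) / 2) * Real.exp (-(s * lam n)) := by
          rw [← Real.exp_add]
          apply Real.one_le_exp
          linarith only [hσ, hB]
        calc ‖g (2 * (s * lam n) - σ)‖ ≤ G0 * 1 := by rw [mul_one]; exact h0 _
          _ ≤ _ := by (clear * - hG0 this; gcongr)
      · rw [hg.zero_of (fun h => hB h.2), norm_zero]; (clear * - hG0; positivity)
    calc a n * ‖g (2 * (s * lam n) - σ)‖ ≤
        a n * (G0 * (Real.exp ((B + κ) / 2) * Real.exp (-(s * lam n)))) :=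
          mul_le_mul_of_nonneg_left e1 (hd.a0 n)
      _ = _ := by ring
  have hsum := (hd.sum s hs').mul_left (G0 * Real.exp ((B + κ) / 2))
  refine ⟨Summable.of_norm_bounded hsum hterm, ?_⟩
  have h3 : ‖∑' n, (a n : ℂ) * g (2 * (s * lam n) - σ)‖ ≤
      ∑' n, G0 * Real.exp ((B + κ) / 2) * (a n * Real.exp (-(s * lam n))) :=
    tsum_of_norm_bounded hsum.hasSum hterm
  rw [norm_mul, norm_pow, Complex.norm_real, Real.norm_of_nonneg hs'.le]
  rw [tsum_mul_left] at h3
  calc s ^ K * ‖∑' n, (a n : ℂ) * g (2 * (s * lam n) - σ)‖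
      ≤ s ^ K * (G0 * Real.exp ((B + κ) / 2) * ∑' n, (a n * Real.exp (-(s * lam n)))) := by (clear * - hs' h3; gcongr)
    _ = G0 * Real.exp ((B + κ) / 2) * (s ^ K * ∑' n, (a n * Real.exp (-(s * lam n)))) := by ring
    _ ≤ _ := by (clear * - hG0 hs2; gcongr)

lemma kd_unif {a lam : ℕ → ℝ} {K : ℕ} {Aa : ℝ} (hd : KData a lam K Aa) (hg : TF g A B) (κ : ℝ) :
    Tendsto (fun p : ℝ × ℝ => (p.1 : ℂ) ^ K * ∑' n, (a n : ℂ) * g (2 * (p.1 * lam n) - p.2))
      (𝓝[>] 0 ×ˢ 𝓝 κ) (𝓝 (Aa * ∫ y in Ioi (0:ℝ), g (2 * y - κ) * wt K y)) := by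
  obtain ⟨C, hC0, hC⟩ := hg.lip
  have hA := hd.A_nonneg
  have hR : ∀ y : ℝ, (B + κ) / 2 < y → g (2 * y - κ) = 0 := by
    intro y hy
    exact hg.zero_of (fun h => by linarith only [h.2, hy, h])
  obtain ⟨hs1, ht1⟩ := hd.test_lim_complex (fun y => g (2 * y - κ))
    (hg.cont.comp (by fun_prop)) hR
  have ht2 : Tendsto (fun p : ℝ × ℝ => (p.1 : ℂ) ^ K * ∑' n, (a n : ℂ) * g (2 * (p.1 * lam n) - κ))
      (𝓝[>] 0 ×ˢ 𝓝 κ) (𝓝 (Aa * ∫ y in Ioi (0:ℝ), g (2 * y - κ) * wt K y)) :=
    ht1.comp tendsto_fst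
  have hdiff : Tendsto (fun p : ℝ × ℝ =>
      ((p.1 : ℂ) ^ K * ∑' n, (a n : ℂ) * g (2 * (p.1 * lam n) - p.2)) -
      ((p.1 : ℂ) ^ K * ∑' n, (a n : ℂ) * g (2 * (p.1 * lam n) - κ)))
      (𝓝[>] 0 ×ˢ 𝓝 κ) (𝓝 0) := by
    set M := C * Real.exp ((B + κ + 1) / 2) * (Aa + 1) with hM
    have hz : Tendsto (fun p : ℝ × ℝ => M * |p.2 - κ|) (𝓝[>] 0 ×ˢ 𝓝 κ) (𝓝 0) := by
      have h1 : Tendsto (fun x : ℝ => M * |x - κ|) (𝓝 κ) (𝓝 (M * |κ - κ|)) :=
        (Continuous.tendsto (by fun_prop) κ)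
      rw [sub_self, abs_zero, mul_zero] at h1
      exact h1.comp tendsto_snd
    refine squeeze_zero_norm' ?_ hz
    have h2 : ∀ᶠ s in 𝓝[>] (0:ℝ), s ^ K * ∑' n, a n * Real.exp (-(s * lam n)) < Aa + 1 :=
      hd.lim.eventually (gt_mem_nhds (by linarith only []))
    obtain ⟨Cb, _, hb⟩ := kd_bound hd hg (κ + 1)
    have h3 : ∀ᶠ σ in 𝓝 κ, |σ - κ| < 1 := by
      have : Tendsto (fun σ : ℝ => |σ - κ|) (𝓝 κ) (𝓝 |κ - κ|) := Continuous.tendsto (by fun_prop) κ
      rw [sub_self, abs_zero] at this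
      exact this.eventually (gt_mem_nhds one_pos)
    filter_upwards [(h2.and (hb.and self_mem_nhdsWithin)).prod_mk h3] with p hp
    obtain ⟨⟨hp1, hp2, hp3⟩, hp4⟩ := hp
    have hs' : (0:ℝ) < p.1 := hp3
    have hσ := abs_lt.1 hp4
    have sm1 := (hp2 p.2 (by linarith only [hσ])).1
    have sm2 := (hp2 κ (by linarith only [])).1
    rw [← mul_sub, ← sm1.tsum_sub sm2]
    have hterm : ∀ n, ‖(a n : ℂ) * g (2 * (p.1 * lam n) - p.2) - (a n : ℂ) * g (2 * (p.1 * lam n) - κ)‖ ≤
        C * Real.exp ((B + κ + 1) / 2) * |p.2 - κ| * (a n * Real.exp (-(p.1 * lam n))) := by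
      intro n
      rw [← mul_sub, norm_mul, Complex.norm_real, Real.norm_of_nonneg (hd.a0 n)]
      have e1 : ‖g (2 * (p.1 * lam n) - p.2) - g (2 * (p.1 * lam n) - κ)‖ ≤
          C * |p.2 - κ| * (Real.exp ((B + κ + 1) / 2) * Real.exp (-(p.1 * lam n))) := by
        by_cases hB : p.1 * lam n ≤ (B + κ + 1) / 2
        · have : 1 ≤ Real.exp ((B + κ + 1) / 2) * Real.exp (-(p.1 * lam n)) := by
            rw [← Real.exp_add]
            apply Real.one_le_exp
            linarith only [hB]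
          have e2 := hC (2 * (p.1 * lam n) - p.2) (2 * (p.1 * lam n) - κ)
          have e3 : 2 * (p.1 * lam n) - p.2 - (2 * (p.1 * lam n) - κ) = -(p.2 - κ) := by ring
          rw [e3, abs_neg] at e2
          calc _ ≤ C * |p.2 - κ| * 1 := by rw [mul_one]; exact e2
            _ ≤ _ := by (clear * - hC0 this; gcongr)
        · rw [not_le] at hB
          rw [hg.zero_of (fun h => by linarith only [h.2, hσ, hB, h]), hg.zero_of (fun h => by linarith only [h.2, hB, h]),
            sub_self, norm_zero]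
          (clear * - hC0; positivity)
      calc a n * _ ≤ a n * (C * |p.2 - κ| * (Real.exp ((B + κ + 1) / 2) * Real.exp (-(p.1 * lam n)))) :=
            mul_le_mul_of_nonneg_left e1 (hd.a0 n)
        _ = _ := by ring
    have hsum := (hd.sum p.1 hs').mul_left (C * Real.exp ((B + κ + 1) / 2) * |p.2 - κ|)
    have h4 := tsum_of_norm_bounded hsum.hasSum hterm
    rw [norm_mul, norm_pow, Complex.norm_real, Real.norm_of_nonneg hs'.le]
    rw [tsum_mul_left] at h4
    calc p.1 ^ K * _ ≤ p.1 ^ K * (C * Real.exp ((B + κ + 1) / 2) * |p.2 - κ| *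
          ∑' n, (a n * Real.exp (-(p.1 * lam n)))) := by (clear * - hp3 h4; gcongr)
      _ = C * Real.exp ((B + κ + 1) / 2) * |p.2 - κ| * (p.1 ^ K * ∑' n, (a n * Real.exp (-(p.1 * lam n)))) := by
          ring
      _ ≤ C * Real.exp ((B + κ + 1) / 2) * |p.2 - κ| * (Aa + 1) := by (clear * - hC0 hp1; gcongr)
      _ = _ := by rw [hM]; ring
  have := hdiff.add ht2
  rw [zero_add] at this
  refine this.congr fun p => ?_
  ring

/-- diagonal sum -/
noncomputable def Dg (k : ℕ) (g : ℝ → ℂ) (κ L t : ℝ) : ℂ :=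
  ∑' n : ℕ, ((((dk k n : ℝ) ^ 2 / n : ℝ)) : ℂ) * g (2 * (L⁻¹ * Real.log n) - κ * ell t / L)

/-- The finite off-diagonal set. -/
noncomputable def Foff (V : ℝ) : Finset (ℕ × ℕ) :=
  ((Finset.range (⌊Real.exp |V|⌋₊ + 1)) ×ˢ (Finset.range (⌊Real.exp |V|⌋₊ + 1))).filter
    (fun x => 1 ≤ x.1 ∧ 1 ≤ x.2 ∧ x.1 ≠ x.2 ∧ Real.log x.1 + Real.log x.2 ≤ V)

lemma DP_zero {L V t T : ℝ} (hg : TF g A B) (hκ : 0 ≤ κ) (hL : L = Real.log T) (hL0 : 0 < L)
    (ht : 0 < t) (htT : t ≤ T) (hV : V = (B + κ) * L) {x : ℕ × ℕ}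
    (hx : ¬ (1 ≤ x.1 ∧ 1 ≤ x.2 ∧ Real.log x.1 + Real.log x.2 ≤ V)) :
    DP k (fun u => g (u - κ * ell t / L)) L t x = 0 := by
  unfold DP
  by_cases h1 : x.1 = 0
  · rw [h1, dk_zero_right]; simp
  by_cases h2 : x.2 = 0
  · rw [h2, dk_zero_right]; simp
  have h3 : V < Real.log x.1 + Real.log x.2 := by
    by_contra hcon
    exact hx ⟨Nat.one_le_iff_ne_zero.2 h1, Nat.one_le_iff_ne_zero.2 h2, not_lt.1 hcon⟩
  have h4 : B < (Real.log x.1 + Real.log x.2) / L - κ * ell t / L := by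
    have e1 := ell_le ht htT
    rw [← hL] at e1
    rw [← sub_div, lt_div_iff₀ hL0]
    have e2 : κ * ell t ≤ κ * L := mul_le_mul_of_nonneg_left e1 hκ
    rw [hV] at h3
    nlinarith only [h3, e2]
  have h5 : g ((Real.log x.1 + Real.log x.2) / L - κ * ell t / L) = 0 :=
    hg.zero_of (fun h => by linarith only [h.2, h4, h])
  simp only [h5, mul_zero, zero_mul]

lemma DP_diag (g : ℝ → ℂ) (L t σ : ℝ) (n : ℕ) : DP k (fun u => g (u - σ)) L t (n, n) =
    ((((dk k n : ℝ) ^ 2 / n : ℝ)) : ℂ) * g (2 * (L⁻¹ * Real.log n) - σ) := by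
  unfold DP rho
  rcases eq_or_ne n 0 with rfl | hn
  · simp [dk_zero_right]
  have hn0 : (0:ℝ) < n := by (clear * - hn; positivity)
  have h1 : Real.exp (-((Real.log n + Real.log n) / 2)) = (n:ℝ)⁻¹ := by
    rw [show -((Real.log n + Real.log n) / 2) = -Real.log n by ring, Real.exp_neg, Real.exp_log hn0]
  simp only
  rw [h1, sub_self, zero_mul]
  have h2 : (Real.log n + Real.log n) / L = 2 * (L⁻¹ * Real.log n) := by ring
  rw [h2]
  push_cast
  simp only [zero_mul, exp_zero, mul_one]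
  ring

/-- splitting of the double sum -/
lemma DP_split {L t T : ℝ} (hg : TF g A B) (hκ : 0 ≤ κ) (hL : L = Real.log T) (hL0 : 0 < L)
    (ht : 0 < t) (htT : t ≤ T) :
    ∑' x : ℕ × ℕ, DP k (fun u => g (u - κ * ell t / L)) L t x =
      Dg k g κ L t + ∑ x ∈ Foff ((B + κ) * L), DP k (fun u => g (u - κ * ell t / L)) L t x := by
  classical
  set V := (B + κ) * L with hV
  set N := ⌊Real.exp |V|⌋₊ + 1 with hN
  set f := DP k (fun u => g (u - κ * ell t / L)) L t with hf
  have hlt : ∀ m n : ℕ, 1 ≤ m → 1 ≤ n → Real.log m + Real.log n ≤ V → m < N := by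
    intro m n hm hn hmn
    have hn1 : 0 ≤ Real.log n := Real.log_nonneg (by exact_mod_cast hn)
    have hm0 : (0:ℝ) < m := by exact_mod_cast hm
    have h1 : (m:ℝ) ≤ Real.exp |V| := by
      rw [← Real.exp_log hm0]
      apply Real.exp_le_exp.2
      linarith only [le_abs_self V, hmn, hn1]
    have := Nat.le_floor h1
    omega
  have hz : ∀ x : ℕ × ℕ, x ∉ (Finset.range N ×ˢ Finset.range N) → f x = 0 := by
    intro x hx
    apply DP_zero hg hκ hL hL0 ht htT hV
    intro h
    apply hx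
    rw [Finset.mem_product, Finset.mem_range, Finset.mem_range]
    exact ⟨hlt x.1 x.2 h.1 h.2.1 h.2.2, hlt x.2 x.1 h.2.1 h.1 (by rw [add_comm]; exact h.2.2)⟩
  rw [tsum_eq_sum hz]
  rw [← Finset.sum_filter_add_sum_filter_not _ (fun x : ℕ × ℕ => x.1 = x.2)]
  congr 1
  · have h2 : Dg k g κ L t = ∑ n ∈ Finset.range N,
        ((((dk k n : ℝ) ^ 2 / n : ℝ)) : ℂ) * g (2 * (L⁻¹ * Real.log n) - κ * ell t / L) := by
      unfold Dg
      refine tsum_eq_sum ?_
      intro n hn
      rw [← DP_diag g L t (κ * ell t / L) n]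
      apply hz
      rw [Finset.mem_product]
      exact fun h => hn h.1
    rw [h2]
    symm
    refine Finset.sum_bij (fun n _ => (n, n)) ?_ ?_ ?_ ?_
    · intro n hn
      rw [Finset.mem_filter, Finset.mem_product]
      exact ⟨⟨hn, hn⟩, rfl⟩
    · intro a _ b _ hab
      exact (Prod.mk.inj hab).1
    · intro x hx
      rw [Finset.mem_filter, Finset.mem_product] at hx
      refine ⟨x.1, hx.1.1, ?_⟩
      exact Prod.ext rfl hx.2
    · intro n _
      exact (DP_diag g L t (κ * ell t / L) n).symm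
  · refine (Finset.sum_subset ?_ ?_).symm
    · intro x hx
      unfold Foff at hx
      rw [Finset.mem_filter] at hx ⊢
      exact ⟨hx.1, hx.2.2.2.1⟩
    · intro x hx hx2
      rw [Finset.mem_filter] at hx
      apply DP_zero hg hκ hL hL0 ht htT hV
      intro h
      apply hx2
      unfold Foff
      rw [Finset.mem_filter]
      exact ⟨hx.1, h.1, h.2.1, hx.2, h.2.2⟩

end

end MP069854

end

section

namespace MP069854
open Filter Topology Complex Set MeasureTheory

section
variable {k : ℕ} {κ : ℝ} {Ψ : ℝ → ℂ → ℂ} {g : ℝ → ℂ} {A B : ℝ}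

/-- crude bound for all `t` -/
lemma JJ_bound (hΨ : Fam κ Ψ) (hg : TF g A B) : ∃ C : ℝ, 0 ≤ C ∧ ∀ L t : ℝ, 1 ≤ L → 0 ≤ t →
    ‖JJ k g Ψ L t‖ ≤ C * (1 + t) ^ (2 * k) := by
  obtain ⟨C1, hC1, h1⟩ := hg.decay (2 + 2 * k)
  obtain ⟨C2, hC2, h2⟩ := Z_crit k
  refine ⟨C1 * (C2 * 2 ^ (2 * k)) * Real.pi, by (clear * - hC1 hC2; positivity), ?_⟩
  intro L t hL ht
  unfold JJ
  have hfin : C1 * (C2 * 2 ^ (2 * k)) * Real.pi * (1 + t) ^ (2 * k) =
      ∫ y : ℝ, C1 * (C2 * 2 ^ (2 * k)) * (1 + t) ^ (2 * k) * (1 + y ^ 2)⁻¹ := by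
    rw [integral_const_mul, integral_univ_inv_one_add_sq]; ring
  rw [hfin]
  refine norm_integral_le_of_norm_le (integrable_inv_one_add_sq.const_mul _)
    (Eventually.of_forall fun y => ?_)
  have e1 := h1 0 y le_rfl
  rw [mul_zero, Real.exp_zero, mul_one] at e1
  have e2 := hΨ.crit t (y / L)
  have e3 := h2 t (y / L) ht
  have hyL : |y / L| ≤ |y| := by
    rw [abs_div, abs_of_pos (by linarith only [hL] : (0:ℝ) < L)]
    exact div_le_self (abs_nonneg y) hL
  have e4 : (2 + |y / L| + t) ^ (2 * k) ≤ 2 ^ (2 * k) * (1 + t) ^ (2 * k) * (1 + |y|) ^ (2 * k) := by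
    rw [← mul_pow, ← mul_pow]
    apply pow_le_pow_left₀ (by (clear * - ht; positivity))
    nlinarith only [abs_nonneg y, ht, hyL]
  have e5 : G g ((y : ℂ) * I) = G g (((0:ℝ) : ℂ) + (y : ℂ) * I) := by
    congr 1; push_cast; ring
  rw [e5, norm_mul, norm_mul, ← div_eq_mul_inv, le_div_iff₀ (by (clear * -; positivity))]
  have e7 : 1 + y ^ 2 ≤ (1 + |y|) ^ 2 := by nlinarith only [abs_nonneg y, sq_abs y]
  set N1 := ‖G g (((0:ℝ) : ℂ) + (y : ℂ) * I)‖
  calc N1 * ‖Ψ t (1/2 + (y / L : ℝ) * I)‖ * ‖Z k t (1/2 + (y / L : ℝ) * I)‖ * (1 + y ^ 2)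
      ≤ N1 * 1 * (C2 * (2 ^ (2 * k) * (1 + t) ^ (2 * k) * (1 + |y|) ^ (2 * k))) * (1 + |y|) ^ 2 := by
        gcongr
        exact e3.trans (by (clear * - hC2 e4; gcongr))
    _ = (N1 * (1 + |y|) ^ (2 + 2 * k)) * (C2 * 2 ^ (2 * k) * (1 + t) ^ (2 * k)) := by ring
    _ ≤ C1 * (C2 * 2 ^ (2 * k) * (1 + t) ^ (2 * k)) := by (clear * - hC2 ht e1; gcongr)
    _ = _ := by ring

lemma tendsto_exp_neg_mul {γ : ℝ} (hγ : 0 < γ) :
    Tendsto (fun T : ℝ => Real.exp (-(γ * Real.log T))) atTop (𝓝 0) := by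
  refine Real.tendsto_exp_atBot.comp (tendsto_neg_atTop_atBot.comp ?_)
  exact Real.tendsto_log_atTop.const_mul_atTop hγ

/-- part 1 -/
lemma part1 (hΨ : Fam κ Ψ) (hg : TF g A B) :
    Tendsto (fun T : ℝ => ((T * Real.log T ^ (k ^ 2) : ℝ) : ℂ)⁻¹ *
      ∫ t in (0:ℝ)..(2 * Real.exp (Real.log T / (2 * k + 2))), JJ k g Ψ (Real.log T) t) atTop (𝓝 0) := by
  obtain ⟨C, hC, hb⟩ := JJ_bound (k := k) hΨ hg
  have hlim := (tendsto_exp_neg_mul (γ := 1 / (2 * (k:ℝ) + 2)) (by (clear * -; positivity))).const_mul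
    (C * 3 ^ (2 * k + 1))
  rw [mul_zero] at hlim
  refine squeeze_zero_norm' ?_ hlim
  filter_upwards [eventually_ge_atTop (Real.exp 1)] with T hT
  set L := Real.log T with hLdef
  have hexp1 : (2:ℝ) ≤ Real.exp 1 := by have := Real.add_one_le_exp (1:ℝ); linarith only [this]
  have hT0 : 0 < T := by linarith only [hT, hexp1]
  have hL1 : 1 ≤ L := by
    rw [hLdef, Real.le_log_iff_exp_le hT0]; exact hT
  have hk0 : (0:ℝ) < 2 * k + 2 := by (clear * -; positivity)
  set Y := Real.exp (L / (2 * k + 2)) with hY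
  have hY1 : 1 ≤ Y := Real.one_le_exp (by (clear * - hL1; positivity))
  have h1 : ‖∫ t in (0:ℝ)..(2 * Y), JJ k g Ψ L t‖ ≤ C * (1 + 2 * Y) ^ (2 * k) * |2 * Y - 0| := by
    refine intervalIntegral.norm_integral_le_of_norm_le_const ?_
    intro t ht
    rw [uIoc_of_le (by linarith only [hY1])] at ht
    refine (hb L t hL1 ht.1.le).trans ?_
    have : (1 + t) ^ (2 * k) ≤ (1 + 2 * Y) ^ (2 * k) :=
      pow_le_pow_left₀ (by linarith only [ht.1, ht]) (by linarith only [ht.2, ht]) _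
    (clear * - hC this; gcongr)
  have h2 : ‖∫ t in (0:ℝ)..(2 * Y), JJ k g Ψ L t‖ ≤ C * 3 ^ (2 * k + 1) * Y ^ (2 * k + 1) := by
    refine h1.trans ?_
    rw [sub_zero, abs_of_pos (by positivity)]
    have e1 : (1 + 2 * Y) ^ (2 * k) ≤ (3 * Y) ^ (2 * k) := pow_le_pow_left₀ (by positivity) (by linarith only [hY1]) _
    calc C * (1 + 2 * Y) ^ (2 * k) * (2 * Y) ≤ C * (3 * Y) ^ (2 * k) * (3 * Y) := by
          gcongr; linarith only []
      _ = C * ((3 * Y) ^ (2 * k + 1)) := by ring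
      _ = _ := by rw [mul_pow]; ring
  rw [norm_mul, norm_inv, Complex.norm_real, Real.norm_of_nonneg (by (clear * - hT0 hL1; positivity))]
  have hLk : 1 ≤ L ^ (k ^ 2) := one_le_pow₀ hL1
  have hYT : Y ^ (2 * k + 1) = T * Real.exp (-(1 / (2 * (k:ℝ) + 2) * L)) := by
    have hTe : T = Real.exp L := (Real.exp_log hT0).symm
    rw [hY, ← Real.exp_nat_mul]
    nth_rw 1 [hTe]
    rw [← Real.exp_add]
    congr 1
    push_cast
    field_simp
    ring
  rw [inv_mul_le_iff₀ (by (clear * - hT0 hL1; positivity))]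
  calc ‖∫ t in (0:ℝ)..(2 * Y), JJ k g Ψ L t‖ ≤ C * 3 ^ (2 * k + 1) * Y ^ (2 * k + 1) := h2
    _ = T * 1 * (C * 3 ^ (2 * k + 1) * Real.exp (-(1 / (2 * (k:ℝ) + 2) * L))) := by rw [hYT]; ring
    _ ≤ T * L ^ (k ^ 2) * (C * 3 ^ (2 * k + 1) * Real.exp (-(1 / (2 * (k:ℝ) + 2) * L))) := by (clear * - hC hT0 hLk; gcongr)

/-- part 3: off-diagonal -/
lemma part3 (hκ : 0 ≤ κ) (hg : TF g A B) (hB : B + κ < 2) :
    Tendsto (fun T : ℝ => ((T * Real.log T ^ (k ^ 2) : ℝ) : ℂ)⁻¹ *
      ∑ x ∈ Foff ((B + κ) * Real.log T), ∫ t in (2 * Real.exp (Real.log T / (2 * k + 2)))..T,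
        DP k (fun u => g (u - κ * ell t / Real.log T)) (Real.log T) t x) atTop (𝓝 0) := by
  set η : ℝ := min (1/4) ((2 - (B + κ)) / 8) with hη
  have hη0 : 0 < η := lt_min (by norm_num) (by linarith only [hB])
  have hη1 : η ≤ (2 - (B + κ)) / 8 := min_le_right _ _
  have hη2 : η ≤ 1/4 := min_le_left _ _
  have hγ : (1/2 + η) * (B + κ) < 1 := by
    rcases le_total 0 (B + κ) with h | h
    · nlinarith only [hB, hη0, hη1]
    · nlinarith only [hB, hη0, hη1]
  obtain ⟨C1, hC1, h1⟩ := osc hg hκ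
  obtain ⟨C2, hC2, h2⟩ := off_diag k hη0
  have hlim := (tendsto_exp_neg_mul (γ := 1 - (1/2 + η) * (B + κ)) (by linarith only [hγ])).const_mul (C1 * C2)
  rw [mul_zero] at hlim
  refine squeeze_zero_norm' ?_ hlim
  have hev : ∀ᶠ T : ℝ in atTop, 2 * Real.exp (Real.log T / (2 * k + 2)) ≤ T := by
    have hk2 : (0:ℝ) < 1/2 := by norm_num
    filter_upwards [eventually_ge_atTop (4:ℝ)] with T hT
    have hT0 : 0 < T := by linarith only [hη0, hη2, hT]
    have h3 : Real.exp (Real.log T / (2 * k + 2)) ≤ Real.exp (Real.log T * (1/2)) := by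
      apply Real.exp_le_exp.2
      rw [div_eq_mul_inv]
      have hlog : 0 ≤ Real.log T := Real.log_nonneg (by linarith only [hη0, hη2, hT])
      apply mul_le_mul_of_nonneg_left _ hlog
      rw [one_div]
      exact inv_anti₀ two_pos (by linarith only [Nat.cast_nonneg (α := ℝ) k])
    have h4 : Real.exp (Real.log T * (1/2)) = Real.sqrt T := by
      rw [Real.sqrt_eq_rpow, Real.rpow_def_of_pos hT0]
    rw [h4] at h3
    have h5 : 2 ≤ Real.sqrt T := by
      rw [show (2:ℝ) = Real.sqrt 4 by rw [show (4:ℝ) = 2 ^ 2 by norm_num, Real.sqrt_sq two_pos.le]]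
      exact Real.sqrt_le_sqrt hT
    have h6 : Real.sqrt T * Real.sqrt T = T := Real.mul_self_sqrt hT0.le
    nlinarith only [hη0, hη2, hT, h3, h5, h6]
  filter_upwards [eventually_ge_atTop (Real.exp 1), hev] with T hT hyT
  set L := Real.log T with hLdef
  have hexp1 : (2:ℝ) ≤ Real.exp 1 := by have := Real.add_one_le_exp (1:ℝ); linarith only [this]
  have hT0 : 0 < T := by linarith only [hη0, hη2, hT, hexp1]
  have hL1 : 1 ≤ L := by
    rw [hLdef, Real.le_log_iff_exp_le hT0]; exact hT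
  set y0 := 2 * Real.exp (L / (2 * k + 2)) with hy0
  have hy1 : 1 ≤ y0 := by
    have : 1 ≤ Real.exp (L / (2 * k + 2)) := Real.one_le_exp (by (clear * - hL1; positivity))
    linarith only [hη0, hη2, this]
  have hterm : ∀ x ∈ Foff ((B + κ) * L),
      ‖∫ t in y0..T, DP k (fun u => g (u - κ * ell t / L)) L t x‖ ≤
        C1 * ((dk k x.1 : ℝ) * dk k x.2 * (rho x / |Real.log x.2 - Real.log x.1|)) := by
    intro x hx
    unfold Foff at hx
    rw [Finset.mem_filter] at hx
    have hne : Real.log x.2 - Real.log x.1 ≠ 0 := by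
      intro h
      apply hx.2.2.2.1
      have ha : (0:ℝ) < x.1 := by exact_mod_cast hx.2.1
      have hb : (0:ℝ) < x.2 := by exact_mod_cast hx.2.2.1
      have := Real.log_injOn_pos (mem_Ioi.2 hb) (mem_Ioi.2 ha) (by linarith only [h])
      exact_mod_cast this.symm
    have e1 := h1 T y0 ((Real.log x.1 + Real.log x.2) / L) (Real.log x.2 - Real.log x.1) hT hy1 hyT hne
    have e2 : ∫ t in y0..T, DP k (fun u => g (u - κ * ell t / L)) L t x =
        ((dk k x.1 : ℂ) * dk k x.2 * rho x) *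
        ∫ t in y0..T, g ((Real.log x.1 + Real.log x.2) / L - κ * ell t / L) *
          exp (((Real.log x.2 - Real.log x.1) * t : ℝ) * I) := by
      rw [← intervalIntegral.integral_const_mul]
      refine intervalIntegral.integral_congr fun t _ => ?_
      simp only [DP]; ring
    rw [e2, norm_mul]
    have e3 : ‖(dk k x.1 : ℂ) * dk k x.2 * rho x‖ = (dk k x.1 : ℝ) * dk k x.2 * rho x := by
      rw [norm_mul, norm_mul, Complex.norm_natCast, Complex.norm_natCast, Complex.norm_real,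
        Real.norm_of_nonneg (show 0 ≤ rho x from (Real.exp_pos _).le)]
    rw [e3]
    have hrho : 0 < rho x := Real.exp_pos _
    calc (dk k x.1 : ℝ) * dk k x.2 * rho x * _ ≤
        (dk k x.1 : ℝ) * dk k x.2 * rho x * (C1 / |Real.log x.2 - Real.log x.1|) := by (clear * - e1 hrho; gcongr)
      _ = _ := by ring
  have h3 : ‖∑ x ∈ Foff ((B + κ) * L), ∫ t in y0..T, DP k (fun u => g (u - κ * ell t / L)) L t x‖ ≤
      C1 * (C2 * Real.exp ((1/2 + η) * ((B + κ) * L))) := by
    refine (norm_sum_le _ _).trans ((Finset.sum_le_sum hterm).trans ?_)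
    rw [← Finset.mul_sum]
    refine mul_le_mul_of_nonneg_left (h2 _ _ ?_) hC1
    intro x hx
    unfold Foff at hx
    rw [Finset.mem_filter] at hx
    exact ⟨hx.2.1, hx.2.2.1, hx.2.2.2.1, hx.2.2.2.2⟩
  rw [norm_mul, norm_inv, Complex.norm_real, Real.norm_of_nonneg (by (clear * - hT0 hL1; positivity))]
  have hLk : 1 ≤ L ^ (k ^ 2) := one_le_pow₀ hL1
  rw [inv_mul_le_iff₀ (by (clear * - hT0 hL1; positivity))]
  have hTe : Real.exp ((1/2 + η) * ((B + κ) * L)) =
      T * Real.exp (-((1 - (1/2 + η) * (B + κ)) * L)) := by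
    have hTe : T = Real.exp L := (Real.exp_log hT0).symm
    nth_rw 1 [hTe]
    rw [← Real.exp_add]; congr 1; ring
  calc _ ≤ C1 * (C2 * Real.exp ((1/2 + η) * ((B + κ) * L))) := h3
    _ = T * 1 * (C1 * C2 * Real.exp (-((1 - (1/2 + η) * (B + κ)) * L))) := by rw [hTe]; ring
    _ ≤ T * L ^ (k ^ 2) * (C1 * C2 * Real.exp (-((1 - (1/2 + η) * (B + κ)) * L))) := by (clear * - hC1 hC2 hT0 hLk; gcongr)

lemma y0_le (k : ℕ) : ∀ᶠ T : ℝ in atTop, 2 * Real.exp (Real.log T / (2 * k + 2)) ≤ T := by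
  filter_upwards [eventually_ge_atTop (4:ℝ)] with T hT
  have hT0 : 0 < T := by linarith only [hT]
  have h3 : Real.exp (Real.log T / (2 * k + 2)) ≤ Real.exp (Real.log T * (1/2)) := by
    apply Real.exp_le_exp.2
    rw [div_eq_mul_inv]
    have hlog : 0 ≤ Real.log T := Real.log_nonneg (by linarith only [hT])
    apply mul_le_mul_of_nonneg_left _ hlog
    rw [one_div]
    exact inv_anti₀ two_pos (by linarith only [Nat.cast_nonneg (α := ℝ) k])
  have h4 : Real.exp (Real.log T * (1/2)) = Real.sqrt T := by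
    rw [Real.sqrt_eq_rpow, Real.rpow_def_of_pos hT0]
  rw [h4] at h3
  have h5 : 2 ≤ Real.sqrt T := by
    rw [show (2:ℝ) = Real.sqrt 4 by rw [show (4:ℝ) = 2 ^ 2 by norm_num, Real.sqrt_sq two_pos.le]]
    exact Real.sqrt_le_sqrt hT
  have h6 : Real.sqrt T * Real.sqrt T = T := Real.mul_self_sqrt hT0.le
  nlinarith only [hT, h3, h5, h6]

lemma ell_contOn {a b : ℝ} (ha : 0 < a) (hab : a ≤ b) : ContinuousOn ell (uIcc a b) := by
  intro t ht
  rw [uIcc_of_le hab] at ht
  have ht0 : 0 < t := by linarith only [ht.1, ha, ht]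
  unfold ell
  refine ContinuousAt.continuousWithinAt ?_
  exact ContinuousAt.log (by fun_prop) (by (clear * - ht0; positivity))

lemma DP_contOn (hg : TF g A B) (L : ℝ) (x : ℕ × ℕ) {a b : ℝ} (ha : 0 < a) (hab : a ≤ b) :
    ContinuousOn (fun t => DP k (fun u => g (u - κ * ell t / L)) L t x) (uIcc a b) := by
  unfold DP
  refine ContinuousOn.mul (ContinuousOn.mul continuousOn_const ?_) (by fun_prop)
  refine hg.cont.comp_continuousOn (ContinuousOn.sub continuousOn_const ?_)
  exact (continuousOn_const.mul (ell_contOn ha hab)).div_const _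

/-- finite version of the diagonal sum -/
noncomputable def DgN (k : ℕ) (g : ℝ → ℂ) (κ L : ℝ) (N : ℕ) (t : ℝ) : ℂ :=
  ∑ n ∈ Finset.range N, ((((dk k n : ℝ) ^ 2 / n : ℝ)) : ℂ) * g (2 * (L⁻¹ * Real.log n) - κ * ell t / L)

lemma Dg_eq_DgN {L t T : ℝ} (hg : TF g A B) (hκ : 0 ≤ κ) (hL : L = Real.log T) (hL0 : 0 < L)
    (ht : 0 < t) (htT : t ≤ T) :
    Dg k g κ L t = DgN k g κ L (⌊Real.exp |(B + κ) * L|⌋₊ + 1) t := by
  set V := (B + κ) * L with hV
  set N := ⌊Real.exp |V|⌋₊ + 1 with hN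
  unfold Dg DgN
  refine tsum_eq_sum ?_
  intro n hn
  rw [← DP_diag g L t (κ * ell t / L) n]
  apply DP_zero hg hκ hL hL0 ht htT hV
  intro h
  apply hn
  rw [Finset.mem_range]
  have hn1 : 0 ≤ Real.log n := Real.log_nonneg (by exact_mod_cast h.1)
  have hm0 : (0:ℝ) < n := by exact_mod_cast h.1
  have h1 : (n:ℝ) ≤ Real.exp |V| := by
    rw [← Real.exp_log hm0]
    apply Real.exp_le_exp.2
    have := h.2.2
    linarith only [le_abs_self V, h, hn1]
  have := Nat.le_floor h1
  omega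

lemma DgN_contOn (hg : TF g A B) (L : ℝ) (N : ℕ) {a b : ℝ} (ha : 0 < a) (hab : a ≤ b) :
    ContinuousOn (DgN k g κ L N) (uIcc a b) := by
  unfold DgN
  refine continuousOn_finsetSum _ fun n _ => continuousOn_const.mul ?_
  refine hg.cont.comp_continuousOn (ContinuousOn.sub continuousOn_const ?_)
  exact (continuousOn_const.mul (ell_contOn ha hab)).div_const _

lemma DgN_measurable (hg : TF g A B) (L : ℝ) (N : ℕ) : Measurable (DgN k g κ L N) := by
  unfold DgN
  refine Finset.measurable_fun_sum _ fun n _ => measurable_const.mul ?_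
  refine hg.cont.measurable.comp (measurable_const.sub ?_)
  refine (measurable_const.mul ?_).div_const _
  unfold ell
  exact Real.measurable_log.comp (measurable_id.div_const _)

/-- The remainder after the contour shift. -/
noncomputable def Rem (k : ℕ) (g : ℝ → ℂ) (Ψ : ℝ → ℂ → ℂ) (κ L t : ℝ) : ℂ :=
  JJ k g Ψ L t - 2 * Real.pi * ∑' x : ℕ × ℕ, DP k (fun u => g (u - κ * ell t / L)) L t x

/-- part 2: the remainder -/
lemma part2 (hΨ : Fam κ Ψ) (hg : TF g A B) (hB : B + κ < 2) :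
    Tendsto (fun T : ℝ => ((T * Real.log T ^ (k ^ 2) : ℝ) : ℂ)⁻¹ *
      ∫ t in (2 * Real.exp (Real.log T / (2 * k + 2)))..T, Rem k g Ψ κ (Real.log T) t) atTop (𝓝 0) := by
  set η : ℝ := min (1/4) ((2 - (B + κ)) / 8) with hη
  have hη0 : 0 < η := lt_min (by norm_num) (by linarith only [hB])
  have hη1 : η ≤ (2 - (B + κ)) / 8 := min_le_right _ _
  have hη2 : η ≤ 1/4 := min_le_left _ _
  have hγ : (1/2 + η) * (B + κ) < 1 := by
    rcases le_total 0 (B + κ) with h | h
    · nlinarith only [hB, hη0, hη1]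
    · nlinarith only [hB, hη0, hη1]
  obtain ⟨C, hC, hsh⟩ := shift_main k hΨ hg (c := 1 + η) (by linarith only [hη0]) (by linarith only [hη0, hη2])
  set γ := 1 - (1/2 + η) * (B + κ) with hγdef
  have hγ0 : 0 < γ := by linarith only [hγ, hγdef]
  set δ := γ / 4 with hδ
  have hδ0 : 0 < δ := by (clear * - hγ; positivity)
  have hlim1 := (tendsto_exp_neg_mul (γ := γ / 2) (by linarith only [hγ, hγdef])).const_mul (C * δ⁻¹ ^ 2)
  have hlim2 := (tendsto_exp_neg_mul (γ := 1) one_pos).const_mul C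
  have hlim := hlim1.add hlim2
  simp only [mul_zero, add_zero] at hlim
  refine squeeze_zero_norm' ?_ hlim
  filter_upwards [eventually_ge_atTop (Real.exp 1), y0_le k] with T hT hyT
  set L := Real.log T with hLdef
  have hexp1 : (2:ℝ) ≤ Real.exp 1 := by have := Real.add_one_le_exp (1:ℝ); linarith only [this]
  have hT0 : 0 < T := by linarith only [hη0, hη2, hT, hexp1]
  have hL1 : 1 ≤ L := by
    rw [hLdef, Real.le_log_iff_exp_le hT0]; exact hT
  set y0 := 2 * Real.exp (L / (2 * k + 2)) with hy0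
  have hy1 : 1 ≤ y0 := by
    have : 1 ≤ Real.exp (L / (2 * k + 2)) := Real.one_le_exp (by (clear * - hL1; positivity))
    linarith only [hη0, hη2, this]
  set E := Real.exp ((B + κ) * ((1 + η) - 1/2) * L) with hE
  have h1 : ‖∫ t in y0..T, Rem k g Ψ κ L t‖ ≤ ∫ t in y0..T, (C * (L * E) * t⁻¹ + C / T) := by
    refine intervalIntegral.norm_integral_le_of_norm_le hyT ?_ ?_
    · refine Eventually.of_forall fun t ht => ?_
      refine (hsh t T hT ht.1.le ht.2).trans (le_of_eq ?_)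
      ring
    · refine ContinuousOn.intervalIntegrable ?_
      refine ContinuousOn.add (continuousOn_const.mul (continuousOn_id.inv₀ ?_)) continuousOn_const
      intro t ht
      rw [uIcc_of_le hyT] at ht
      exact (by linarith only [ht.1, hη0, hη2, hy1, ht] : (0:ℝ) < t).ne'
  have h2 : ∫ t in y0..T, (C * (L * E) * t⁻¹ + C / T) = C * (L * E) * Real.log (T / y0) + C / T * (T - y0) := by
    rw [intervalIntegral.integral_add, intervalIntegral.integral_const_mul,
      integral_inv_of_pos (by linarith only [hη0, hη2, hy1]) hT0, intervalIntegral.integral_const, smul_eq_mul]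
    · ring
    · refine ContinuousOn.intervalIntegrable (continuousOn_const.mul (continuousOn_id.inv₀ ?_))
      intro t ht
      rw [uIcc_of_le hyT] at ht
      exact (by linarith only [ht.1, hη0, hη2, hy1, ht] : (0:ℝ) < t).ne'
    · exact intervalIntegrable_const
  have h3 : Real.log (T / y0) ≤ L := by
    rw [hLdef]
    apply Real.log_le_log (by (clear * - hT0; positivity))
    exact div_le_self hT0.le hy1
  have h4 : ‖∫ t in y0..T, Rem k g Ψ κ L t‖ ≤ C * (L * E) * L + C := by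
    refine h1.trans ?_
    rw [h2]
    have e1 : C / T * (T - y0) ≤ C := by
      rw [div_mul_eq_mul_div, div_le_iff₀ hT0]
      exact mul_le_mul_of_nonneg_left (by linarith only [hη0, hη2, hy1]) hC
    have e2 : C * (L * E) * Real.log (T / y0) ≤ C * (L * E) * L := by (clear * - hC hL1 h3; gcongr)
    linarith only [e1, e2]
  rw [norm_mul, norm_inv, Complex.norm_real, Real.norm_of_nonneg (by (clear * - hT0 hL1; positivity))]
  have hLk : 1 ≤ L ^ (k ^ 2) := one_le_pow₀ hL1
  rw [inv_mul_le_iff₀ (by (clear * - hT0 hL1; positivity))]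
  have hTe : T = Real.exp L := (Real.exp_log hT0).symm
  have hLexp : L ≤ δ⁻¹ * Real.exp (δ * L) := by
    rw [inv_mul_eq_div, le_div_iff₀ hδ0]
    have := Real.add_one_le_exp (δ * L)
    linarith only [hη0, hη2, this]
  have hE2 : E * L ^ 2 ≤ T * (δ⁻¹ ^ 2 * Real.exp (-(γ / 2 * L))) := by
    have e1 : L ^ 2 ≤ (δ⁻¹ * Real.exp (δ * L)) ^ 2 := pow_le_pow_left₀ (by linarith only [hη0, hη2, hL1]) hLexp 2
    calc E * L ^ 2 ≤ E * (δ⁻¹ * Real.exp (δ * L)) ^ 2 := by (clear * - e1; gcongr)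
      _ = δ⁻¹ ^ 2 * (E * (Real.exp (δ * L) * Real.exp (δ * L))) := by ring
      _ = δ⁻¹ ^ 2 * (Real.exp L * Real.exp (-(γ / 2 * L))) := by
          rw [hE, ← Real.exp_add, ← Real.exp_add, ← Real.exp_add]
          congr 2
          rw [hδ, hγdef]; ring
      _ = _ := by rw [← hTe]; ring
  have hone : 1 = T * Real.exp (-(1 * L)) := by
    nth_rw 1 [hTe]
    rw [← Real.exp_add]; simp
  calc ‖∫ t in y0..T, Rem k g Ψ κ L t‖ ≤ C * (L * E) * L + C := h4
    _ = C * (E * L ^ 2) + C * 1 := by ring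
    _ ≤ C * (T * (δ⁻¹ ^ 2 * Real.exp (-(γ / 2 * L)))) + C * (T * Real.exp (-(1 * L))) := by
        rw [← hone]
        (clear * - hC hE2; gcongr)
    _ = T * 1 * (C * δ⁻¹ ^ 2 * Real.exp (-(γ / 2 * L)) + C * Real.exp (-(1 * L))) := by ring
    _ ≤ T * L ^ (k ^ 2) * (C * δ⁻¹ ^ 2 * Real.exp (-(γ / 2 * L)) + C * Real.exp (-(1 * L))) := by
        (clear * - hγ hC hT0 hLk; gcongr)

end

end MP069854

namespace MP069854
open Filter Topology Complex Set MeasureTheory

section
variable {k : ℕ} {κ : ℝ} {Ψ : ℝ → ℂ → ℂ} {g : ℝ → ℂ} {A B : ℝ}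

lemma tendsto_inv_log : Tendsto (fun T : ℝ => (Real.log T)⁻¹) atTop (𝓝[>] 0) :=
  tendsto_inv_atTop_nhdsGT_zero.comp Real.tendsto_log_atTop

lemma tendsto_ell (κ : ℝ) {x : ℝ} (hx : 0 < x) :
    Tendsto (fun T : ℝ => κ * ell (T * x) / Real.log T) atTop (𝓝 κ) := by
  have h1 : Tendsto (fun T : ℝ => κ * (1 + Real.log (x / (2 * Real.pi)) * (Real.log T)⁻¹)) atTop
      (𝓝 (κ * (1 + Real.log (x / (2 * Real.pi)) * 0))) := by
    refine Tendsto.const_mul _ (Tendsto.const_add _ (Tendsto.const_mul _ ?_))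
    exact tendsto_inv_log.mono_right nhdsWithin_le_nhds
  rw [mul_zero, add_zero, mul_one] at h1
  refine h1.congr' ?_
  filter_upwards [eventually_gt_atTop (1:ℝ)] with T hT
  have hL : 0 < Real.log T := Real.log_pos hT
  have h2 : ell (T * x) = Real.log T + Real.log (x / (2 * Real.pi)) := by
    unfold ell
    rw [mul_div_assoc, Real.log_mul (by linarith only [hT]) (by (clear * - hx; positivity))]
  rw [h2]
  field_simp

/-- part 4: the diagonal -/
lemma part4 (hk : 1 ≤ k) (hκ : 0 ≤ κ) (hg : TF g A B) :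
    Tendsto (fun T : ℝ => ((T * Real.log T ^ (k ^ 2) : ℝ) : ℂ)⁻¹ *
      ∫ t in (2 * Real.exp (Real.log T / (2 * k + 2)))..T, Dg k g κ (Real.log T) t) atTop
      (𝓝 (arith k * ∫ y in Ioi (0:ℝ), g (2 * y - κ) * wt (k ^ 2) y)) := by
  set ℓ : ℂ := arith k * ∫ y in Ioi (0:ℝ), g (2 * y - κ) * wt (k ^ 2) y with hℓ
  have hd := zetaData hk
  obtain ⟨C, hC, hb⟩ := kd_bound hd hg κ
  let y0 : ℝ → ℝ := fun T => 2 * Real.exp (Real.log T / (2 * k + 2))
  let NN : ℝ → ℕ := fun T => ⌊Real.exp |(B + κ) * Real.log T|⌋₊ + 1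
  let φ : ℝ → ℝ → ℂ := fun T x => (Ioc (y0 T / T) 1).indicator
    (fun x => ((Real.log T)⁻¹ : ℂ) ^ (k ^ 2) * DgN k g κ (Real.log T) (NN T) (T * x)) x
  have hlim : Tendsto (fun T : ℝ => ∫ x in Ioc (0:ℝ) 1, φ T x) atTop (𝓝 (∫ x in Ioc (0:ℝ) 1, ℓ)) := by
    refine tendsto_integral_filter_of_dominated_convergence (fun _ => C) ?_ ?_ ?_ ?_
    · refine Eventually.of_forall fun T => ?_
      refine Measurable.aestronglyMeasurable ?_
      refine Measurable.indicator ?_ measurableSet_Ioc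
      exact measurable_const.mul ((DgN_measurable hg _ _).comp (measurable_const.mul measurable_id))
    · filter_upwards [tendsto_inv_log.eventually hb, eventually_ge_atTop (Real.exp 1)] with T hT1 hT
      have hexp1 : (2:ℝ) ≤ Real.exp 1 := by have := Real.add_one_le_exp (1:ℝ); linarith only [this]
      have hT0 : 0 < T := by linarith only [hT, hexp1]
      have hL1 : 1 ≤ Real.log T := by
        rw [Real.le_log_iff_exp_le hT0]; exact hT
      refine Eventually.of_forall fun x => ?_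
      simp only [φ]
      by_cases hx : x ∈ Ioc (y0 T / T) 1
      · rw [indicator_of_mem hx]
        have hy0 : 0 < y0 T / T := by simp only [y0]; (clear * - hT0; positivity)
        have hx0 : 0 < x := hy0.trans hx.1
        have hTx : T * x ≤ T := by nlinarith only [hx.2, hT, hexp1, hx]
        rw [← Dg_eq_DgN hg hκ rfl (by linarith only [hL1]) (by (clear * - hT0 hx0; positivity)) hTx]
        have hσ : κ * ell (T * x) / Real.log T ≤ κ := by
          rw [div_le_iff₀ (by linarith only [hL1])]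
          exact mul_le_mul_of_nonneg_left (ell_le (by (clear * - hT0 hx0; positivity)) hTx) hκ
        have := (hT1 _ hσ).2
        rw [Complex.ofReal_inv] at this
        exact this
      · rw [indicator_of_notMem hx, norm_zero]; exact hC
    · exact integrableOn_const (by simp)
    · filter_upwards [self_mem_ae_restrict measurableSet_Ioc] with x hx
      have hx0 : 0 < x := hx.1
      have h1 : Tendsto (fun T : ℝ => ((Real.log T)⁻¹, κ * ell (T * x) / Real.log T)) atTop
          (𝓝[>] 0 ×ˢ 𝓝 κ) := tendsto_inv_log.prodMk (tendsto_ell κ hx0)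
      have h2 := (kd_unif hd hg κ).comp h1
      refine h2.congr' ?_
      -- y0 T / T < x eventually
      have h3 : Tendsto (fun T : ℝ => y0 T / T) atTop (𝓝 0) := by
        have hγ : 0 < 1 - 1 / (2 * (k:ℝ) + 2) := by
          rw [sub_pos, div_lt_one (by (clear * - hk; positivity))]
          linarith only [Nat.cast_nonneg (α := ℝ) k]
        have h4 := (tendsto_exp_neg_mul hγ).const_mul 2
        rw [mul_zero] at h4
        refine h4.congr' ?_
        filter_upwards [eventually_gt_atTop (0:ℝ)] with T hT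
        simp only [y0]
        have hTe : T⁻¹ = Real.exp (-Real.log T) := by rw [Real.exp_neg, Real.exp_log hT]
        rw [div_eq_mul_inv _ T, hTe, mul_assoc, ← Real.exp_add]
        congr 2
        field_simp
        ring
      filter_upwards [h3.eventually (gt_mem_nhds hx0), eventually_ge_atTop (Real.exp 1)] with T hT1 hT
      have hexp1 : (2:ℝ) ≤ Real.exp 1 := by have := Real.add_one_le_exp (1:ℝ); linarith only [this]
      have hT0 : 0 < T := by linarith only [hT, hexp1]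
      have hL1 : 1 ≤ Real.log T := by
        rw [Real.le_log_iff_exp_le hT0]; exact hT
      have hTx : T * x ≤ T := by nlinarith only [hx.2, hx, hT, hexp1]
      simp only [φ, Function.comp]
      rw [indicator_of_mem (show x ∈ Ioc (y0 T / T) 1 from ⟨hT1, hx.2⟩),
        ← Dg_eq_DgN hg hκ rfl (by linarith only [hL1]) (by (clear * - hx0 hT0; positivity)) hTx, Complex.ofReal_inv]
      rfl
  have hconst : ∫ x in Ioc (0:ℝ) 1, ℓ = ℓ := by
    rw [setIntegral_const]; simp
  rw [hconst] at hlim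
  refine hlim.congr' ?_
  filter_upwards [eventually_ge_atTop (Real.exp 1), y0_le k] with T hT hyT
  have hexp1 : (2:ℝ) ≤ Real.exp 1 := by have := Real.add_one_le_exp (1:ℝ); linarith only [this]
  have hT0 : 0 < T := by linarith only [hT, hexp1]
  have hL1 : 1 ≤ Real.log T := by
    rw [Real.le_log_iff_exp_le hT0]; exact hT
  have hy0 : 0 < y0 T := by simp only [y0]; positivity
  have hyT' : y0 T / T ≤ 1 := (div_le_one hT0).2 hyT
  have e1 : ∫ x in Ioc (0:ℝ) 1, φ T x = ∫ x in Ioc (y0 T / T) 1,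
      ((Real.log T)⁻¹ : ℂ) ^ (k ^ 2) * DgN k g κ (Real.log T) (NN T) (T * x) := by
    simp only [φ]
    rw [setIntegral_indicator measurableSet_Ioc]
    congr 2
    rw [inter_eq_right]
    exact Ioc_subset_Ioc_left (by (clear * - hT0; positivity))
  rw [e1, integral_const_mul, ← intervalIntegral.integral_of_le hyT',
    intervalIntegral.integral_comp_mul_left _ hT0.ne', mul_one, mul_div_cancel₀ _ hT0.ne',
    Complex.real_smul]
  have e2 : ∫ t in (y0 T)..T, DgN k g κ (Real.log T) (NN T) t = ∫ t in (y0 T)..T, Dg k g κ (Real.log T) t := by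
    refine intervalIntegral.integral_congr fun t ht => ?_
    rw [uIcc_of_le hyT] at ht
    exact (Dg_eq_DgN hg hκ rfl (by linarith only [hL1]) (lt_of_lt_of_le hy0 ht.1) ht.2).symm
  rw [e2]
  push_cast
  rw [mul_inv, inv_pow]
  ring

/-- **Core theorem.** -/
theorem core (hk : 1 ≤ k) (hΨ : Fam κ Ψ) (hg : TF g A B) (hB : B + κ < 2)
    (hint : ∀ T : ℝ, Real.exp 1 ≤ T →
      IntervalIntegrable (fun t => JJ k g Ψ (Real.log T) t) volume 0 T) :
    Tendsto (fun T : ℝ => ((T * Real.log T ^ (k ^ 2) : ℝ) : ℂ)⁻¹ *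
      ∫ t in (0:ℝ)..T, JJ k g Ψ (Real.log T) t) atTop
      (𝓝 (2 * Real.pi * (arith k * ∫ y in Ioi (0:ℝ), g (2 * y - κ) * wt (k ^ 2) y))) := by
  have h1 := part1 (k := k) hΨ hg
  have h2 := part2 (k := k) hΨ hg hB
  have h3 := (part3 (k := k) hΨ.κ0 hg hB).const_mul (2 * (Real.pi : ℂ))
  have h4 := (part4 hk hΨ.κ0 hg).const_mul (2 * (Real.pi : ℂ))
  have h5 := ((h1.add h2).add h3).add h4
  rw [mul_zero, add_zero, add_zero, zero_add] at h5
  refine h5.congr' ?_
  filter_upwards [eventually_ge_atTop (Real.exp 1), y0_le k] with T hT hyT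
  set L := Real.log T with hL
  have hexp1 : (2:ℝ) ≤ Real.exp 1 := by have := Real.add_one_le_exp (1:ℝ); linarith only [this]
  have hT0 : 0 < T := by linarith only [hT, hexp1]
  have hL1 : 1 ≤ L := by
    rw [hL, Real.le_log_iff_exp_le hT0]; exact hT
  have hL0 : 0 < L := by linarith only [hL1]
  set y0 := 2 * Real.exp (L / (2 * k + 2)) with hy0
  have hy0' : 0 < y0 := by (clear * -; positivity)
  have hI := hint T hT
  have hI1 : IntervalIntegrable (fun t => JJ k g Ψ L t) volume 0 y0 :=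
    hI.mono_set (by rw [uIcc_of_le hy0'.le, uIcc_of_le hT0.le]; exact Icc_subset_Icc_right hyT)
  have hI2 : IntervalIntegrable (fun t => JJ k g Ψ L t) volume y0 T :=
    hI.mono_set (by rw [uIcc_of_le hyT, uIcc_of_le hT0.le]; exact Icc_subset_Icc_left hy0'.le)
  have hDg : IntervalIntegrable (fun t => Dg k g κ L t) volume y0 T := by
    have h6 : IntervalIntegrable (DgN k g κ L (⌊Real.exp |(B + κ) * L|⌋₊ + 1)) volume y0 T :=
      (DgN_contOn hg L _ hy0' hyT).intervalIntegrable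
    refine h6.congr ?_
    intro t ht
    rw [uIoc_of_le hyT] at ht
    exact (Dg_eq_DgN hg hΨ.κ0 hL hL0 (hy0'.trans ht.1) ht.2).symm
  have hDP : ∀ x ∈ Foff ((B + κ) * L), IntervalIntegrable
      (fun t => DP k (fun u => g (u - κ * ell t / L)) L t x) volume y0 T :=
    fun x _ => (DP_contOn hg L x hy0' hyT).intervalIntegrable
  have hOff : IntervalIntegrable (fun t => ∑ x ∈ Foff ((B + κ) * L),
      DP k (fun u => g (u - κ * ell t / L)) L t x) volume y0 T := by
    refine ContinuousOn.intervalIntegrable ?_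
    exact continuousOn_finsetSum _ fun x _ => DP_contOn hg L x hy0' hyT
  have hRem : IntervalIntegrable (fun t => Rem k g Ψ κ L t) volume y0 T := by
    have h6 := hI2.sub ((hDg.add hOff).const_mul (2 * (Real.pi : ℂ)))
    refine h6.congr ?_
    intro t ht
    rw [uIoc_of_le hyT] at ht
    show JJ k g Ψ L t - 2 * (Real.pi : ℂ) * (Dg k g κ L t + ∑ x ∈ Foff ((B + κ) * L),
      DP k (fun u => g (u - κ * ell t / L)) L t x) = Rem k g Ψ κ L t
    unfold Rem
    rw [DP_split hg hΨ.κ0 hL hL0 (hy0'.trans ht.1) ht.2]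
  have e1 : ∫ t in y0..T, JJ k g Ψ L t = (∫ t in y0..T, Rem k g Ψ κ L t) +
      2 * Real.pi * ((∫ t in y0..T, Dg k g κ L t) +
        ∑ x ∈ Foff ((B + κ) * L), ∫ t in y0..T, DP k (fun u => g (u - κ * ell t / L)) L t x) := by
    rw [← intervalIntegral.integral_finsetSum hDP, ← intervalIntegral.integral_add hDg hOff,
      ← intervalIntegral.integral_const_mul, ← intervalIntegral.integral_add hRem
        ((hDg.add hOff).const_mul _)]
    refine intervalIntegral.integral_congr fun t ht => ?_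
    rw [uIcc_of_le hyT] at ht
    simp only [Rem]
    rw [DP_split hg hΨ.κ0 hL hL0 (lt_of_lt_of_le hy0' ht.1) ht.2]
    ring
  rw [← intervalIntegral.integral_add_adjacent_intervals hI1 hI2, e1]
  ring

end

end MP069854

namespace MP069854
open Filter Topology Complex Set MeasureTheory

/-- `Q_k(α,T)` -/
noncomputable def Qk (k : ℕ) (α T : ℝ) : ℂ :=
  ((T * Real.log T ^ (k ^ 2) : ℝ) : ℂ)⁻¹ *
    ∫ t in (0:ℝ)..T, riemannZeta (1/2 + I * α / Real.log T + I * t) ^ k *
      riemannZeta (1/2 + I * α / Real.log T - I * t) ^ k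

lemma Qk_eq (k : ℕ) (α T : ℝ) : Qk k α T = ((T * Real.log T ^ (k ^ 2) : ℝ) : ℂ)⁻¹ *
    ∫ t in (0:ℝ)..T, Z k t (1/2 + (α / Real.log T : ℝ) * I) := by
  unfold Qk Z
  congr 1
  refine intervalIntegral.integral_congr fun t _ => ?_
  push_cast
  congr 3 <;> ring

lemma Z_cont2 (k : ℕ) (L : ℝ) :
    Continuous fun p : ℝ × ℝ => Z k p.2 (1/2 + (p.1 / L : ℝ) * I) := by
  have hz : Continuous fun y : ℝ => riemannZeta (1/2 + y * I) := by
    rw [continuous_iff_continuousAt]
    intro y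
    have h : DifferentiableAt ℂ riemannZeta (1/2 + y * I) := by
      apply differentiableAt_riemannZeta
      intro h
      have := congrArg Complex.re h
      simp at this
    exact ContinuousAt.comp (f := fun y : ℝ => (1/2 + y * I : ℂ)) (g := riemannZeta) h.continuousAt
      (by fun_prop)
  have e : (fun p : ℝ × ℝ => Z k p.2 (1/2 + (p.1 / L : ℝ) * I)) = fun p : ℝ × ℝ =>
      riemannZeta (1/2 + ((p.1 / L + p.2 : ℝ) : ℂ) * I) ^ k *
      riemannZeta (1/2 + ((p.1 / L - p.2 : ℝ) : ℂ) * I) ^ k := by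
    funext p
    unfold Z
    congr 3 <;> (push_cast; ring)
  rw [e]
  refine (Continuous.pow (hz.comp (f := fun p : ℝ × ℝ => p.1 / L + p.2) (by fun_prop)) k).mul
    (Continuous.pow (hz.comp (f := fun p : ℝ × ℝ => p.1 / L - p.2) (by fun_prop)) k)

section
variable {k : ℕ} {g : ℝ → ℂ} {A B : ℝ}

/-- trivial family -/
lemma fam_one : Fam 0 (fun _ _ => (1 : ℂ)) where
  κ0 := le_rfl
  cont := fun _ => continuous_const
  crit := fun _ _ => by simp
  diff := fun _ _ _ _ => differentiableAt_const _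
  approx := ⟨0, 0, le_rfl, fun t s _ _ _ _ => by simp⟩

lemma G_line_cont (hg : TF g A B) : Continuous fun α : ℝ => G g (α * I) :=
  hg.G_differentiable.continuous.comp (by fun_prop)

lemma prod_integrable (hg : TF g A B) {L T : ℝ} (hL : 0 < L) (hT : 0 ≤ T) :
    Integrable (fun p : ℝ × ℝ => G g (p.1 * I) * Z k p.2 (1/2 + (p.1 / L : ℝ) * I))
      ((volume : Measure ℝ).prod (volume.restrict (Ioc 0 T))) := by
  obtain ⟨C, hC1, hC⟩ := Z_crit k
  obtain ⟨D, hD0, hD⟩ := hg.decay (2 * k + 2)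
  have hint : Integrable (fun p : ℝ × ℝ => (D * C * (2 + 1 / L + T) ^ (2 * k) * (1 + p.1 ^ 2)⁻¹) * (1:ℝ))
      ((volume : Measure ℝ).prod (volume.restrict (Ioc 0 T))) := by
    refine Integrable.mul_prod (f := fun y : ℝ => D * C * (2 + 1 / L + T) ^ (2 * k) * (1 + y ^ 2)⁻¹)
      (g := fun _ : ℝ => (1:ℝ)) (integrable_inv_one_add_sq.const_mul _) ?_
    exact integrableOn_const (by simp)
  refine hint.mono' ?_ ?_
  · refine Continuous.aestronglyMeasurable ?_
    exact ((G_line_cont hg).comp continuous_fst).mul (Z_cont2 k L)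
  · have hae : ∀ᵐ p : ℝ × ℝ ∂((volume : Measure ℝ).prod (volume.restrict (Ioc 0 T))),
        p.2 ∈ Ioc 0 T := by
      have h1 : ∀ᵐ t : ℝ ∂(volume.restrict (Ioc 0 T)), t ∈ Ioc 0 T :=
        self_mem_ae_restrict measurableSet_Ioc
      exact (Measure.quasiMeasurePreserving_snd (μ := (volume : Measure ℝ))
        (ν := volume.restrict (Ioc 0 T))).ae h1
    filter_upwards [hae] with p hp
    have h1 := hC p.2 (p.1 / L) hp.1.le
    have h2 := hD 0 p.1 le_rfl
    rw [mul_zero, Real.exp_zero, mul_one] at h2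
    rw [show ((0:ℝ):ℂ) + (p.1:ℂ) * I = p.1 * I by simp] at h2
    have h3 : (2 + |p.1 / L| + p.2) ^ (2 * k) ≤ ((2 + 1 / L + T) * (1 + |p.1|)) ^ (2 * k) := by
      have hp1 := hp.1
      refine pow_le_pow_left₀ (by (clear * - hp1; positivity)) ?_ _
      rw [abs_div, abs_of_pos hL]
      have := abs_nonneg p.1
      have h4 : |p.1| / L = 1 / L * |p.1| := by ring
      have h5 : 0 ≤ 1 / L := by (clear * - hL; positivity)
      rw [h4]
      nlinarith only [hp.2, mul_nonneg h5 this, mul_nonneg hT this, hT, hp, this, h5]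
    rw [norm_mul, mul_one, ← div_eq_mul_inv, le_div_iff₀ (by (clear * -; positivity))]
    calc ‖G g (p.1 * I)‖ * ‖Z k p.2 (1/2 + (p.1 / L : ℝ) * I)‖ * (1 + p.1 ^ 2)
        ≤ ‖G g (p.1 * I)‖ * (C * ((2 + 1 / L + T) * (1 + |p.1|)) ^ (2 * k)) * (1 + |p.1|) ^ 2 := by
          gcongr
          · exact h1.trans (by (clear * - hC1 h3; gcongr))
          · nlinarith only [abs_nonneg p.1, sq_abs p.1]
      _ = C * (2 + 1 / L + T) ^ (2 * k) * (‖G g (p.1 * I)‖ * (1 + |p.1|) ^ (2 * k + 2)) := by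
          rw [mul_pow, pow_add]; ring
      _ ≤ C * (2 + 1 / L + T) ^ (2 * k) * D := by (clear * - hL hT hC1 h2; gcongr)
      _ = _ := by ring

lemma JJ_one_intervalIntegrable (hg : TF g A B) {L T : ℝ} (hL : 0 < L) (hT : 0 ≤ T) :
    IntervalIntegrable (fun t => JJ k g (fun _ _ => (1:ℂ)) L t) volume 0 T := by
  rw [intervalIntegrable_iff_integrableOn_Ioc_of_le hT]
  have h := (prod_integrable (k := k) hg hL hT).integral_prod_right
  refine h.congr (Eventually.of_forall fun t => ?_)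
  simp only [JJ, mul_one]

lemma fubini (hg : TF g A B) {L T : ℝ} (hL : 0 < L) (hT : 0 ≤ T) :
    ∫ t in (0:ℝ)..T, JJ k g (fun _ _ => (1:ℂ)) L t =
      ∫ α : ℝ, G g (α * I) * ∫ t in (0:ℝ)..T, Z k t (1/2 + (α / L : ℝ) * I) := by
  have h := integral_integral_swap (f := fun (α : ℝ) (t : ℝ) =>
    G g (α * I) * Z k t (1/2 + (α / L : ℝ) * I)) (prod_integrable (k := k) hg hL hT)
  rw [intervalIntegral.integral_of_le hT]
  simp only [JJ, mul_one]
  rw [← h]
  refine integral_congr_ae (Eventually.of_forall fun α => ?_)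
  simp only
  rw [intervalIntegral.integral_of_le hT, integral_const_mul]

lemma Qk_integrable (hg : TF g A B) {T : ℝ} (hT : 1 < T) :
    Integrable fun α : ℝ => G g (α * I) * Qk k α T := by
  have hL := Real.log_pos hT
  have h := (prod_integrable (k := k) hg hL (T := T) (by linarith only [hT])).integral_prod_left
  refine (h.const_mul (((T * Real.log T ^ (k ^ 2) : ℝ) : ℂ)⁻¹)).congr
    (Eventually.of_forall fun α => ?_)
  simp only
  rw [Qk_eq, integral_const_mul, intervalIntegral.integral_of_le (by linarith only [hT])]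
  ring

lemma Qk_integral (hg : TF g A B) {T : ℝ} (hT : 1 < T) :
    ∫ α : ℝ, G g (α * I) * Qk k α T = ((T * Real.log T ^ (k ^ 2) : ℝ) : ℂ)⁻¹ *
      ∫ t in (0:ℝ)..T, JJ k g (fun _ _ => (1:ℂ)) (Real.log T) t := by
  rw [fubini hg (Real.log_pos hT) (by linarith only [hT]), ← integral_const_mul]
  refine integral_congr_ae (Eventually.of_forall fun α => ?_)
  simp only
  rw [Qk_eq]; ring

/-- **Low frequencies.** -/
theorem low_side (hk : 1 ≤ k) (hg : TF g A B) (hB : B < 2) :
    Tendsto (fun T : ℝ => ∫ α : ℝ, G g (α * I) * Qk k α T) atTop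
      (𝓝 (2 * Real.pi * (arith k * ∫ y in Ioi (0:ℝ), g (2 * y) * wt (k ^ 2) y))) := by
  have h := core (k := k) hk fam_one hg (by simpa using hB) (fun T hT => by
    have : (0:ℝ) < Real.exp 1 := Real.exp_pos 1
    have h1 : 1 < T := lt_of_lt_of_le (by have := Real.add_one_le_exp (1:ℝ); linarith only [this]) hT
    exact JJ_one_intervalIntegrable hg (Real.log_pos h1) (by linarith only [h1]))
  simp only [sub_zero] at h
  refine h.congr' ?_
  filter_upwards [eventually_gt_atTop (1:ℝ)] with T hT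
  rw [Qk_integral hg hT]

end

end MP069854

end

section

namespace MP069854
open Filter Topology Complex Set MeasureTheory
open scoped ComplexConjugate

lemma cosh_ratio {t y : ℝ} (ht : 0 < t) (hy : 2 * |y| ≤ t) :
    Real.cosh (Real.pi * y) / Real.cosh (Real.pi * t) ≤ 2 / t := by
  have hpi := Real.pi_gt_three
  have h1 : Real.cosh (Real.pi * y) ≤ Real.exp (Real.pi * t / 2) := by
    rw [Real.cosh_eq]
    have a := abs_le.1 (le_refl |y|)
    have e1 : Real.exp (Real.pi * y) ≤ Real.exp (Real.pi * t / 2) :=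
      Real.exp_le_exp.2 (by nlinarith only [a.2, hy, hpi, a])
    have e2 : Real.exp (-(Real.pi * y)) ≤ Real.exp (Real.pi * t / 2) :=
      Real.exp_le_exp.2 (by nlinarith only [a.1, hy, hpi, a])
    linarith only [e1, e2]
  have h2 : Real.exp (Real.pi * t) / 2 ≤ Real.cosh (Real.pi * t) := by
    rw [Real.cosh_eq]
    have := Real.exp_pos (-(Real.pi * t))
    linarith only [this]
  have h3 : Real.exp (Real.pi * t) = Real.exp (Real.pi * t / 2) * Real.exp (Real.pi * t / 2) := by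
    rw [← Real.exp_add]; congr 1; ring
  have h4 : t ≤ Real.exp (Real.pi * t / 2) := by
    have := Real.add_one_le_exp (Real.pi * t / 2)
    nlinarith only [ht, hpi, this]
  rw [div_le_div_iff₀ (Real.cosh_pos _) ht]
  have hE := Real.exp_pos (Real.pi * t / 2)
  calc Real.cosh (Real.pi * y) * t ≤ Real.exp (Real.pi * t / 2) * Real.exp (Real.pi * t / 2) := by
        (clear * - ht h1 h4; gcongr)
    _ = 2 * (Real.exp (Real.pi * t) / 2) := by rw [h3]; ring
    _ ≤ 2 * Real.cosh (Real.pi * t) := by (clear * - h2; gcongr)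

lemma cosh_cast (t : ℝ) : cosh (Real.pi * t : ℂ) = ((Real.cosh (Real.pi * t) : ℝ) : ℂ) := by
  push_cast; rfl

lemma norm_cos_pi_le (w : ℂ) : ‖cos (Real.pi * w)‖ ≤ Real.cosh (Real.pi * w.im) := by
  have := norm_cos_le (Real.pi * w)
  simpa using this

lemma cos_half_im (y : ℝ) : (cos (Real.pi * (1/2 + y * I))).re = 0 := by
  rw [show (Real.pi : ℂ) * (1/2 + y * I) = Real.pi * y * I + Real.pi / 2 by ring,
    cos_add_pi_div_two, sin_mul_I]
  have : (sinh (Real.pi * y : ℂ)) = ((Real.sinh (Real.pi * y) : ℝ) : ℂ) := by push_cast; rfl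
  rw [this, neg_re, mul_I_re, ofReal_im]; simp

/-- crude bound -/
lemma Xt_crude {t : ℝ} (ht : 8 ≤ t) {w : ℂ} (h1 : 1/2 ≤ w.re) (h2 : w.re ≤ 2) (h3 : 2 * |w.im| ≤ t) :
    ‖Xt t w‖ ≤ 2 * Real.exp 10 * Real.exp ((2 * w.re - 1) * ell t) := by
  have ht0 : 0 < t := by linarith only [ht]
  have hcp := Real.cosh_pos (Real.pi * t)
  set w' : ℂ := 1/2 + w.im * I with hw'
  have hre' : w'.re = 1/2 := by simp [hw']
  have him' : w'.im = w.im := by simp [hw']
  have hden : Real.cosh (Real.pi * t) ≤ ‖cosh (Real.pi * t : ℂ) + cos (Real.pi * w')‖ := by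
    refine le_trans ?_ (re_le_norm _)
    rw [add_re, hw', cos_half_im, add_zero, cosh_cast, ofReal_re]
  have hne : cosh (Real.pi * t : ℂ) + cos (Real.pi * w') ≠ 0 := by
    intro h
    rw [h, norm_zero] at hden
    linarith only [hcp, hden]
  have hnum : ‖cosh (Real.pi * t : ℂ) + cos (Real.pi * w)‖ ≤ 2 * Real.cosh (Real.pi * t) := by
    refine (norm_add_le _ _).trans ?_
    have e1 : ‖cosh (Real.pi * t : ℂ)‖ = Real.cosh (Real.pi * t) := by
      rw [cosh_cast, norm_real, Real.norm_eq_abs, abs_of_pos hcp]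
    have e2 : Real.cosh (Real.pi * w.im) ≤ Real.cosh (Real.pi * t) := by
      rw [Real.cosh_le_cosh, abs_mul, abs_mul, abs_of_pos ht0]
      have := abs_nonneg w.im
      gcongr; linarith only [ht, h3]
    have := norm_cos_pi_le w
    rw [e1]; linarith only [e2, this]
  rw [Xt_horiz ht0 (w := w) (w' := w') (by rw [hre']; norm_num) hne, norm_mul, norm_mul, norm_mul, norm_div,
    Xt_norm, one_mul]
  have e1 : w - w' = ((w.re - 1/2 : ℝ) : ℂ) := by
    apply Complex.ext <;> simp [hw']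
  have hwd : ‖w - w'‖ ≤ 3/2 := by
    rw [e1, norm_real, Real.norm_eq_abs, abs_of_nonneg (by linarith only [h1])]
    linarith only [h2]
  have hr : ‖rr t w w'‖ ≤ Real.exp 10 := by
    refine rr_norm ht h1 h2 (le_refl |w.im|) (by rw [hre']) (by rw [hre']; norm_num)
      (by rw [him']) h3 ?_
    have e1 : 32 / t ≤ 4 := by rw [div_le_iff₀ ht0]; linarith only [ht]
    have e2 : 4 * (2 + |w.im|) ^ 2 / t ^ 2 ≤ 9/4 := by
      rw [div_le_iff₀ (by (clear * - ht; positivity))]
      nlinarith only [abs_nonneg w.im, ht, h3]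
    calc (32 / t + 4 * (2 + |w.im|) ^ 2 / t ^ 2) * ‖w - w'‖ ≤ (4 + 9/4) * (3/2) := by (clear * - hwd e1 e2; gcongr)
      _ < 10 := by norm_num
  have he : ‖exp (2 * (w - w') * ell t)‖ = Real.exp ((2 * w.re - 1) * ell t) := by
    rw [show (2 * (w - w') * (ell t : ℂ)) = (((2 * w.re - 1) * ell t : ℝ) : ℂ) by
      rw [e1]; push_cast; ring, norm_exp, ofReal_re]
  have hq : ‖cosh (Real.pi * t : ℂ) + cos (Real.pi * w)‖ / ‖cosh (Real.pi * t : ℂ) + cos (Real.pi * w')‖ ≤ 2 := by
    rw [div_le_iff₀ (by linarith only [hcp, hden])]; linarith only [hden, hnum]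
  rw [he]
  calc Real.exp ((2 * w.re - 1) * ell t) * ‖rr t w w'‖ * _
      ≤ Real.exp ((2 * w.re - 1) * ell t) * Real.exp 10 * 2 := by (clear * - hne hr hq; gcongr)
    _ = _ := by ring

lemma Xt_approx : ∃ C : ℝ, 1 ≤ C ∧ ∀ (t : ℝ) (w : ℂ), 8 ≤ t → 1/2 ≤ w.re → w.re ≤ 2 →
    2 * |w.im| ≤ t → ∃ ρ : ℂ, Xt t w = exp ((2 * w - 1) * ell t) * ρ ∧ ‖ρ‖ ≤ C ∧
      ‖ρ - 1‖ ≤ C * (1 + |w.im|) ^ 3 / t := by
  refine ⟨(2 * Real.exp 10 + 5) * 97, ?_, ?_⟩
  · have := Real.exp_pos 10; linarith only [this]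
  intro t w ht h1 h2 h3
  have ht0 : 0 < t := by linarith only [ht]
  set y := |w.im| with hy
  have hy0 : 0 ≤ y := abs_nonneg _
  set c : ℂ := cos (Real.pi * w) / cosh (Real.pi * t) with hc
  have hcn : ‖c‖ ≤ 2 / t := by
    rw [hc, norm_div, cosh_cast, norm_real, Real.norm_eq_abs, abs_of_pos (Real.cosh_pos _)]
    refine le_trans ?_ (cosh_ratio ht0 h3)
    have := (Real.cosh_pos (Real.pi * t)).le
    exact div_le_div_of_nonneg_right (norm_cos_pi_le w) this
  have hX := Xt_half ht0 w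
  have hcr := Xt_crude ht h1 h2 h3
  refine ⟨rr t w (1/2) * (1 + c), hX, ?_, ?_⟩
  · rw [hX, norm_mul] at hcr
    have he : ‖exp ((2 * w - 1) * ell t)‖ = Real.exp ((2 * w.re - 1) * ell t) := by
      rw [norm_exp]; congr 1
      simp
    rw [he, mul_comm (2 * Real.exp 10)] at hcr
    have h4 := le_of_mul_le_mul_left hcr (Real.exp_pos _)
    have := Real.exp_pos 10
    linarith only [h4, this]
  · set M : ℝ := 97 * (1 + y) ^ 3 / t with hM
    have hM0 : 0 ≤ M := by (clear * - ht; positivity)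
    have hwn : ‖w - 1/2‖ ≤ 2 * (1 + y) := by
      have h5 := Complex.norm_le_abs_re_add_abs_im (w - 1/2)
      have h6 : (w - 1/2).re = w.re - 1/2 := by simp
      have h7 : (w - 1/2).im = w.im := by simp
      rw [h6, h7, abs_of_nonneg (by linarith only [h1])] at h5
      linarith only [h2, hy0, h5]
    have hlt : (32 / t + 4 * (2 + y) ^ 2 / t ^ 2) * ‖w - 1/2‖ < M := by
      have e1 : 4 * (2 + y) ^ 2 / t ^ 2 ≤ 16 * (1 + y) ^ 2 / t := by
        rw [div_le_div_iff₀ (by (clear * - ht; positivity)) ht0]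
        have e2 : (2 + y) ^ 2 ≤ 4 * (1 + y) ^ 2 := by nlinarith only [hy0]
        have e3 : t ≤ t ^ 2 := by nlinarith only [ht]
        calc 4 * (2 + y) ^ 2 * t ≤ 4 * (4 * (1 + y) ^ 2) * t ^ 2 := by (clear * - ht e2 e3; gcongr)
          _ = _ := by ring
      have e4 : 32 / t ≤ 32 * (1 + y) ^ 2 / t := by
        gcongr; nlinarith only [hy0]
      calc (32 / t + 4 * (2 + y) ^ 2 / t ^ 2) * ‖w - 1/2‖
          ≤ (32 * (1 + y) ^ 2 / t + 16 * (1 + y) ^ 2 / t) * (2 * (1 + y)) := by (clear * - ht hwn e1 e4; gcongr)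
        _ = 96 * (1 + y) ^ 3 / t := by ring
        _ < M := by
          rw [hM]; gcongr; norm_num
    have h2t : 2 / t ≤ M := by
      rw [hM]; gcongr
      have : 1 ≤ (1 + y) ^ 3 := one_le_pow₀ (by linarith only [hy0])
      linarith only [this]
    have h2t1 : 2 / t ≤ 1 := by rw [div_le_one ht0]; linarith only [ht]
    have hfin : ‖rr t w (1/2) * (1 + c) - 1‖ ≤ (2 * Real.exp 10 + 5) * M := by
      rcases le_total M 1 with hM1 | hM1
      · have hr := rr_sub_one ht h1 h2 (le_refl |w.im|) (w' := 1/2) (by simp) (by simp; norm_num)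
          (by simp) h3 hM1 hlt
        have e1 : rr t w (1/2) * (1 + c) - 1 = (rr t w (1/2) - 1) * (1 + c) + c := by ring
        rw [e1]
        refine (norm_add_le _ _).trans ?_
        rw [norm_mul]
        have e2 : ‖1 + c‖ ≤ 2 := by
          refine (norm_add_le _ _).trans ?_
          rw [norm_one]; linarith only [hcn, h2t1]
        have := Real.exp_pos 10
        calc ‖rr t w (1/2) - 1‖ * ‖1 + c‖ + ‖c‖ ≤ (2 * M) * 2 + M := by
              gcongr; exact hcn.trans h2t
          _ = 5 * M := by ring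
          _ ≤ _ := by nlinarith only [hM0, this]
      · refine (norm_sub_le _ _).trans ?_
        rw [norm_one]
        rw [hX, norm_mul] at hcr
        have he : ‖exp ((2 * w - 1) * ell t)‖ = Real.exp ((2 * w.re - 1) * ell t) := by
          rw [norm_exp]; congr 1
          simp
        rw [he, mul_comm (2 * Real.exp 10)] at hcr
        have h4 := le_of_mul_le_mul_left hcr (Real.exp_pos _)
        have := Real.exp_pos 10
        nlinarith only [hM1, h4, this]
    refine hfin.trans (le_of_eq ?_)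
    rw [hM]; ring

lemma pow_sub_one_le {z : ℂ} {C : ℝ} (hC : 1 ≤ C) (hz : ‖z‖ ≤ C) (k : ℕ) :
    ‖z ^ k - 1‖ ≤ k * C ^ k * ‖z - 1‖ := by
  induction k with
  | zero => simp
  | succ k ih =>
    have e1 : z ^ (k + 1) - 1 = z ^ k * (z - 1) + (z ^ k - 1) := by ring
    rw [e1]
    refine (norm_add_le _ _).trans ?_
    rw [norm_mul, norm_pow]
    have h1 : ‖z‖ ^ k ≤ C ^ k := pow_le_pow_left₀ (norm_nonneg _) hz k
    have h2 : C ^ k ≤ C ^ (k + 1) := pow_le_pow_right₀ hC (by omega)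
    have h3 : (0:ℝ) ≤ k := Nat.cast_nonneg k
    have h4 := norm_nonneg (z - 1)
    calc ‖z‖ ^ k * ‖z - 1‖ + ‖z ^ k - 1‖ ≤ C ^ (k + 1) * ‖z - 1‖ + k * C ^ (k + 1) * ‖z - 1‖ := by
          have : (k:ℝ) * C ^ k * ‖z - 1‖ ≤ k * C ^ (k + 1) * ‖z - 1‖ := by (clear * - h2; gcongr)
          have h5 : ‖z‖ ^ k * ‖z - 1‖ ≤ C ^ (k + 1) * ‖z - 1‖ := by
            gcongr; exact h1.trans h2
          linarith only [ih, this, h5]
      _ = _ := by push_cast; ring

/-- the family for the high frequencies -/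
noncomputable def Psi (k : ℕ) (t : ℝ) (s : ℂ) : ℂ := if t ≤ 8 then 1 else Xt t s ^ k

lemma chi_diff {s : ℂ} (hs : 0 < s.re) : DifferentiableAt ℂ chi s := by
  unfold chi
  have hg : DifferentiableAt ℂ Gamma s := by
    refine differentiableAt_Gamma s ?_
    intro m h
    rw [h] at hs
    simp at hs
    have : (0:ℝ) ≤ m := Nat.cast_nonneg m
    linarith only [hs]
  have hp : DifferentiableAt ℂ (fun s : ℂ => (2 * Real.pi : ℂ) ^ (-s)) s :=
    (differentiableAt_id.neg).const_cpow (Or.inl twopi_ne)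
  have hc : DifferentiableAt ℂ (fun s : ℂ => cos (Real.pi * s / 2)) s := by fun_prop
  exact ((hp.const_mul 2).mul hg).mul hc

lemma Xt_diff (t : ℝ) {s : ℂ} (hs : 0 < s.re) : DifferentiableAt ℂ (Xt t) s := by
  unfold Xt
  have h1 : DifferentiableAt ℂ (fun w : ℂ => chi (w + t * I)) s :=
    DifferentiableAt.comp (f := fun w : ℂ => w + t * I) s
      (chi_diff (s := s + t * I) (by simpa using hs)) (differentiableAt_id.add_const _)
  have h2 : DifferentiableAt ℂ (fun w : ℂ => chi (w - t * I)) s :=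
    DifferentiableAt.comp (f := fun w : ℂ => w - t * I) s
      (chi_diff (s := s - t * I) (by simpa using hs)) (differentiableAt_id.sub_const _)
  exact h1.mul h2

lemma fam_Psi (k : ℕ) : Fam (2 * k) (Psi k) where
  κ0 := by (clear * -; positivity)
  cont := by
    intro t
    unfold Psi
    split_ifs with h
    · exact continuous_const
    · refine Continuous.pow ?_ k
      rw [continuous_iff_continuousAt]
      intro y
      exact ContinuousAt.comp (f := fun y : ℝ => (1/2 + y * I : ℂ)) (g := Xt t)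
        (Xt_diff t (by simp)).continuousAt (by fun_prop)
  crit := by
    intro t y
    unfold Psi
    split_ifs with h
    · simp
    · rw [norm_pow, Xt_norm, one_pow]
  diff := by
    intro t s hs _
    unfold Psi
    split_ifs with h
    · exact differentiableAt_const _
    · exact (Xt_diff t (by linarith only [hs])).pow k
  approx := by
    obtain ⟨C, hC1, hC⟩ := Xt_approx
    set κ : ℝ := 2 * k with hκ
    have hκ0 : 0 ≤ κ := by (clear * -; positivity)
    refine ⟨8 * (Real.exp (9/2 * κ) + 1) + k * C ^ k * C, 3, by (clear * - hC1; positivity), ?_⟩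
    intro t s h1 h2 ht h3
    have ht0 : 0 < t := by linarith only [ht]
    set y := |s.im| with hy
    have hy0 : 0 ≤ y := abs_nonneg _
    have hy3 : 1 ≤ (1 + y) ^ 3 := one_le_pow₀ (by linarith only [hy0])
    set E := Real.exp (κ * ell t * (s.re - 1/2)) with hE
    have hE0 : 0 < E := Real.exp_pos _
    have hEn : ‖exp (κ * ell t * (s - 1/2))‖ = E := by
      rw [norm_exp, hE]; congr 1
      have : ((κ : ℂ) * ell t * (s - 1/2)) = ((κ * ell t : ℝ) : ℂ) * (s - 1/2) := by push_cast; ring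
      rw [this, re_ofReal_mul]; simp
    unfold Psi
    split_ifs with h
    · have hell : -3 ≤ ell t := by
        unfold ell
        rw [Real.log_div ht0.ne' (by (clear * -; positivity)), Real.log_mul (by norm_num) Real.pi_ne_zero]
        have a1 : Real.log 2 ≤ Real.log t := Real.log_le_log (by norm_num) ht
        have a2 : Real.log Real.pi ≤ Real.pi - 1 := Real.log_le_sub_one_of_pos Real.pi_pos
        have a3 := Real.pi_lt_four
        linarith only [a1, a2, a3]
      have hE1 : 1 ≤ Real.exp (9/2 * κ) * E := by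
        rw [hE, ← Real.exp_add]
        apply Real.one_le_exp
        have b1 : 0 ≤ s.re - 1/2 := by linarith only [h1]
        have b2 : s.re - 1/2 ≤ 3/2 := by linarith only [h2]
        nlinarith only [mul_nonneg hκ0 b1, mul_nonneg hκ0 (by linarith : 0 ≤ 3/2 - (s.re - 1/2)), hκ0, h2, hell, b1]
      refine (norm_sub_le _ _).trans ?_
      rw [norm_one, hEn]
      have h5 : 1 + E ≤ (Real.exp (9/2 * κ) + 1) * E := by nlinarith only [hE1]
      refine h5.trans ?_
      rw [le_div_iff₀ ht0]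
      have h6 : 0 ≤ (k:ℝ) * C ^ k * C := by (clear * - hC1; positivity)
      calc (Real.exp (9/2 * κ) + 1) * E * t ≤ (Real.exp (9/2 * κ) + 1) * E * 8 := by (clear * - h; gcongr)
        _ = 8 * (Real.exp (9/2 * κ) + 1) * 1 * E := by ring
        _ ≤ (8 * (Real.exp (9/2 * κ) + 1) + k * C ^ k * C) * (1 + y) ^ 3 * E := by
          gcongr
          linarith only [h6]
    · obtain ⟨ρ, r1, r2, r3⟩ := hC t s (by linarith only [not_le.1 h, h]) h1 h2 h3
      have e1 : exp ((2 * s - 1) * ell t) ^ k = exp (κ * ell t * (s - 1/2)) := by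
        rw [← exp_nat_mul, hκ]; congr 1; push_cast; ring
      rw [r1, mul_pow, e1]
      have e2 : exp (κ * ell t * (s - 1/2)) * ρ ^ k - exp (κ * ell t * (s - 1/2)) =
        exp (κ * ell t * (s - 1/2)) * (ρ ^ k - 1) := by ring
      rw [e2, norm_mul, hEn]
      have h5 := pow_sub_one_le hC1 r2 k
      have h6 : 0 ≤ 8 * (Real.exp (9/2 * κ) + 1) := by positivity
      calc E * ‖ρ ^ k - 1‖ ≤ E * (k * C ^ k * (C * (1 + y) ^ 3 / t)) := by
            gcongr
            exact h5.trans (by (clear * - hC1 r3; gcongr))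
        _ = (k * C ^ k * C) * (1 + y) ^ 3 * E / t := by ring
        _ ≤ _ := by
          gcongr
          linarith only [h6]

end MP069854

end

section

namespace MP069854
open Matrix Finset

section
variable {N j : ℕ}

/-- tensor power of a matrix -/
noncomputable def TT (j : ℕ) (M : Matrix (Fin N) (Fin N) ℂ) :
    Matrix (Fin j → Fin N) (Fin j → Fin N) ℂ :=
  Matrix.of fun w v => ∏ i, M (w i) (v i)

lemma TT_apply (M : Matrix (Fin N) (Fin N) ℂ) (w v : Fin j → Fin N) :
    TT j M w v = ∏ i, M (w i) (v i) := rfl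

lemma TT_mul (A B : Matrix (Fin N) (Fin N) ℂ) : TT j (A * B) = TT j A * TT j B := by
  ext w v
  simp only [TT_apply, Matrix.mul_apply]
  rw [Finset.prod_univ_sum]
  simp [Finset.prod_mul_distrib, Fintype.piFinset_univ]

lemma TT_diagonal (d : Fin N → ℂ) :
    TT j (diagonal d) = diagonal fun v : Fin j → Fin N => ∏ i, d (v i) := by
  ext w v
  rw [TT_apply]
  by_cases h : w = v
  · subst h; simp
  · rw [diagonal_apply_ne _ h]
    obtain ⟨i, hi⟩ := Function.ne_iff.1 h
    exact Finset.prod_eq_zero (mem_univ i) (diagonal_apply_ne _ hi)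

lemma TT_one : TT j (1 : Matrix (Fin N) (Fin N) ℂ) = 1 := by
  rw [← diagonal_one, TT_diagonal]; simp

lemma TT_conjTranspose (M : Matrix (Fin N) (Fin N) ℂ) : TT j Mᴴ = (TT j M)ᴴ := by
  ext w v
  simp [TT_apply, conjTranspose_apply]

/-- permutation of tensor factors -/
noncomputable def PP (N : ℕ) (π : Equiv.Perm (Fin j)) :
    Matrix (Fin j → Fin N) (Fin j → Fin N) ℂ :=
  Matrix.of fun w v => if w = v ∘ π.symm then 1 else 0

lemma PP_apply (π : Equiv.Perm (Fin j)) (w v : Fin j → Fin N) :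
    PP N π w v = if w = v ∘ π.symm then 1 else 0 := rfl

lemma eq_comp_symm_iff (π : Equiv.Perm (Fin j)) (w v : Fin j → Fin N) :
    w = v ∘ π.symm ↔ v = w ∘ π := by
  constructor
  · rintro rfl; ext i; simp
  · rintro rfl; ext i; simp

lemma PP_comm (π : Equiv.Perm (Fin j)) (M : Matrix (Fin N) (Fin N) ℂ) :
    PP N π * TT j M = TT j M * PP N π := by
  ext w v
  simp only [Matrix.mul_apply, PP_apply, mul_ite, mul_one, mul_zero, ite_mul, one_mul, zero_mul]
  simp_rw [eq_comp_symm_iff π w]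
  rw [Finset.sum_ite_eq' univ (w ∘ π) (fun x => TT j M x v),
    Finset.sum_ite_eq' univ (v ∘ π.symm) (fun x => TT j M w x)]
  simp only [mem_univ, if_true, TT_apply, Function.comp]
  rw [← Equiv.prod_comp π (fun i => M (w i) (v (π.symm i)))]
  simp

/-- matrix of a self-map of the index set -/
noncomputable def Cf (f : Fin N → Fin N) : Matrix (Fin N) (Fin N) ℂ :=
  Matrix.of fun x y => if x = f y then 1 else 0

lemma TT_Cf (f : Fin N → Fin N) (x v : Fin j → Fin N) :
    TT j (Cf f) x v = if x = f ∘ v then 1 else 0 := by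
  rw [TT_apply]
  simp only [Cf, of_apply]
  split_ifs with h
  · subst h; simp
  · obtain ⟨i, hi⟩ := Function.ne_iff.1 h
    exact Finset.prod_eq_zero (mem_univ i) (if_neg hi)

/-- commutation with all tensor powers of unitary matrices -/
def Com (A : Matrix (Fin j → Fin N) (Fin j → Fin N) ℂ) : Prop :=
  ∀ V : Matrix (Fin N) (Fin N) ℂ, V ∈ unitaryGroup (Fin N) ℂ → A * TT j V = TT j V * A

lemma Com.sub {A B : Matrix (Fin j → Fin N) (Fin j → Fin N) ℂ} (hA : Com A) (hB : Com B) :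
    Com (A - B) := by
  intro V hV
  rw [sub_mul, mul_sub, hA V hV, hB V hV]

lemma Com.perm (π : Equiv.Perm (Fin j)) : Com (PP N π) := fun V _ => PP_comm π V

lemma Com.mul {A B : Matrix (Fin j → Fin N) (Fin j → Fin N) ℂ} (hA : Com A) (hB : Com B) :
    Com (A * B) := by
  intro V hV
  rw [Matrix.mul_assoc, hB V hV, ← Matrix.mul_assoc, hA V hV, Matrix.mul_assoc]

lemma Com.smul {A : Matrix (Fin j → Fin N) (Fin j → Fin N) ℂ} (hA : Com A) (c : ℂ) :
    Com (c • A) := by
  intro V hV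
  rw [Matrix.smul_mul, Matrix.mul_smul, hA V hV]

lemma Com.sum {ι : Type*} {s : Finset ι} {A : ι → Matrix (Fin j → Fin N) (Fin j → Fin N) ℂ}
    (hA : ∀ i ∈ s, Com (A i)) : Com (∑ i ∈ s, A i) := by
  intro V hV
  rw [Finset.sum_mul, Finset.mul_sum]
  exact Finset.sum_congr rfl fun i hi => hA i hi V hV

/-- number of occurrences -/
def cnt (v : Fin j → Fin N) (a : Fin N) : ℕ := #{i | v i = a}

lemma prod_cnt (d : Fin N → ℂ) (v : Fin j → Fin N) : ∏ i, d (v i) = ∏ a, d a ^ cnt v a := by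
  rw [← Finset.prod_fiberwise (s := univ) (g := v)]
  refine Finset.prod_congr rfl fun a _ => ?_
  rw [Finset.prod_congr rfl (g := fun _ => d a), Finset.prod_const]
  · rfl
  · intro i hi
    rw [(mem_filter.1 hi).2]

lemma diag_unitary {d : Fin N → ℂ} (hd : ∀ a, ‖d a‖ = 1) : diagonal d ∈ unitaryGroup (Fin N) ℂ := by
  rw [mem_unitaryGroup_iff, star_eq_conjTranspose, diagonal_conjTranspose, diagonal_mul_diagonal,
    ← diagonal_one]
  congr 1
  funext a
  have : d a * star (d a) = 1 := by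
    rw [← starRingEnd_apply, Complex.mul_conj, Complex.normSq_eq_norm_sq, hd a]; simp
  simpa using this

/-- weights -/
lemma Com.weight {A : Matrix (Fin j → Fin N) (Fin j → Fin N) ℂ} (hA : Com A)
    {w v : Fin j → Fin N} (h : A w v ≠ 0) (a : Fin N) : cnt w a = cnt v a := by
  have hj : ((j + 1 : ℕ) : ℂ) ≠ 0 := by exact_mod_cast Nat.succ_ne_zero j
  have hprim := Complex.isPrimitiveRoot_exp (j + 1) (Nat.succ_ne_zero j)
  set ζ := Complex.exp (2 * Real.pi * Complex.I / ((j + 1 : ℕ) : ℂ)) with hζ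
  have hζ1 : ‖ζ‖ = 1 := by
    refine hprim.norm'_eq_one (Nat.succ_ne_zero j)
  let d : Fin N → ℂ := fun b => if b = a then ζ else 1
  have hd : ∀ b, ‖d b‖ = 1 := by
    intro b; simp only [d]; split_ifs
    · exact hζ1
    · simp
  have h1 := congrFun (congrFun (hA _ (diag_unitary hd)) w) v
  rw [TT_diagonal, mul_diagonal, diagonal_mul] at h1
  have h2 : ∀ v : Fin j → Fin N, ∏ i, d (v i) = ζ ^ cnt v a := by
    intro v
    rw [prod_cnt, Finset.prod_eq_single a]
    · simp [d]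
    · intro b _ hb; simp [d, hb]
    · simp
  rw [h2, h2, mul_comm] at h1
  have h3 := mul_right_cancel₀ h h1
  have hle : ∀ v : Fin j → Fin N, cnt v a < j + 1 := by
    intro v
    unfold cnt
    have := Finset.card_le_univ (α := Fin j) {i | v i = a}
    simp at this
    omega
  exact (hprim.pow_inj (hle v) (hle w) h3).symm

lemma Com.diagonal {A : Matrix (Fin j → Fin N) (Fin j → Fin N) ℂ} (hA : Com A) (d : Fin N → ℂ) :
    A * TT j (diagonal d) = TT j (diagonal d) * A := by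
  ext w v
  rw [TT_diagonal, mul_diagonal, diagonal_mul]
  by_cases h : A w v = 0
  · rw [h]; ring
  · rw [prod_cnt, prod_cnt]
    have : ∏ a, d a ^ cnt w a = ∏ a, d a ^ cnt v a :=
      Finset.prod_congr rfl fun a _ => by rw [hA.weight h a]
    rw [this, mul_comm]

lemma Cf_perm_unitary (ρ : Equiv.Perm (Fin N)) : Cf ρ ∈ unitaryGroup (Fin N) ℂ := by
  rw [mem_unitaryGroup_iff']
  ext y y'
  rw [star_eq_conjTranspose, Matrix.mul_apply]
  simp only [conjTranspose_apply, Cf, of_apply]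
  rw [Finset.sum_eq_single (ρ y)]
  · by_cases h : y = y'
    · subst h; simp
    · have : ρ y ≠ ρ y' := fun h' => h (ρ.injective h')
      rw [if_neg this, Matrix.one_apply_ne h]; simp
  · intro b _ hb
    rw [if_neg hb]; simp
  · simp

/-- a rotation -/
noncomputable def Rot (a b : Fin N) : Matrix (Fin N) (Fin N) ℂ :=
  1 - (1/5 : ℂ) • (single a a 1 + single b b 1) + (3/5 : ℂ) • (single b a 1 - single a b 1)

lemma Rot_unitary {a b : Fin N} (hab : a ≠ b) : Rot a b ∈ unitaryGroup (Fin N) ℂ := by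
  rw [mem_unitaryGroup_iff, star_eq_conjTranspose]
  set E : Matrix (Fin N) (Fin N) ℂ := single a a 1 + single b b 1 with hE
  set J : Matrix (Fin N) (Fin N) ℂ := single b a 1 - single a b 1 with hJ
  have hEH : Eᴴ = E := by rw [hE, conjTranspose_add, conjTranspose_single, conjTranspose_single]; simp
  have hJH : Jᴴ = -J := by
    rw [hJ, conjTranspose_sub, conjTranspose_single, conjTranspose_single]; simp
  have hEE : E * E = E := by
    rw [hE]
    simp [add_mul, mul_add, single_mul_single_of_ne, hab, hab.symm]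
  have hEJ : E * J = J := by
    rw [hE, hJ]
    simp [add_mul, mul_sub, single_mul_single_of_ne, hab, hab.symm]
  have hJE : J * E = J := by
    rw [hE, hJ]
    simp [sub_mul, mul_add, single_mul_single_of_ne, hab, hab.symm]
    abel
  have hJJ : J * J = -E := by
    rw [hE, hJ]
    simp [sub_mul, mul_sub, single_mul_single_of_ne, hab, hab.symm]
    abel
  have hR : Rot a b = 1 - (1/5 : ℂ) • E + (3/5 : ℂ) • J := rfl
  have hs5 : star (1/5 : ℂ) = 1/5 := by
    rw [← starRingEnd_apply, map_div₀, map_one, map_ofNat]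
  have hs35 : star (3/5 : ℂ) = 3/5 := by
    rw [← starRingEnd_apply, map_div₀, map_ofNat, map_ofNat]
  rw [hR, conjTranspose_add, conjTranspose_sub, conjTranspose_smul, conjTranspose_smul, hEH, hJH,
    conjTranspose_one, hs5, hs35]
  have : (1 - (1/5 : ℂ) • E + (3/5 : ℂ) • J) * (1 - (1/5 : ℂ) • E + (3/5 : ℂ) • -J) =
      1 - (2/5 : ℂ) • E + (1/25 : ℂ) • (E * E) - (9/25 : ℂ) • (J * J) +
        (3/25 : ℂ) • (E * J) - (3/25 : ℂ) • (J * E) := by
    simp only [add_mul, mul_add, sub_mul, mul_sub, one_mul, mul_one, smul_mul_smul_comm, smul_neg,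
      mul_neg]
    module
  rw [this, hEE, hEJ, hJE, hJJ]
  module

/-- the collapse `b ↦ a` -/
lemma collapse_eq {a b : Fin N} (hab : a ≠ b) :
    Cf (Function.update id b a) = diagonal (fun x => if x = b then 0 else 1) * Rot b a *
      diagonal (fun x => if x = b then (5/3 : ℂ) else if x = a then 5/4 else 1) := by
  ext x y
  rw [mul_diagonal, diagonal_mul]
  simp only [Cf, of_apply, Rot, Matrix.add_apply, Matrix.sub_apply, Matrix.smul_apply, single_apply, one_apply,
    smul_eq_mul]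
  by_cases hy : y = b
  · subst hy
    rw [Function.update_self]
    by_cases hx : x = a
    · subst hx; simp [hab, hab.symm]; 
    · by_cases hx' : x = y
      · subst hx'; simp [hab, hab.symm]
      · simp [hx, hx', Ne.symm hx, Ne.symm hx', hab.symm]
  · rw [Function.update_of_ne hy]
    by_cases hx : x = b
    · subst hx; simp [Ne.symm hy]
    · by_cases hya : y = a
      · subst hya
        by_cases hxy : x = y
        · subst hxy; simp [hy, Ne.symm hy]; norm_num
        · simp [hx, hy, Ne.symm hx, Ne.symm hy, hxy, Ne.symm hxy]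
      · by_cases hxy : x = y
        · subst hxy; simp [hy, Ne.symm hy, hya, Ne.symm hya]
        · simp [hx, hy, Ne.symm hy, Ne.symm hx, hxy, hya, Ne.symm hya]

lemma Com.collapse {A : Matrix (Fin j → Fin N) (Fin j → Fin N) ℂ} (hA : Com A) {a b : Fin N}
    (hab : a ≠ b) : A * TT j (Cf (Function.update id b a)) = TT j (Cf (Function.update id b a)) * A := by
  rw [collapse_eq hab, TT_mul, TT_mul, ← Matrix.mul_assoc, ← Matrix.mul_assoc, hA.diagonal,
    Matrix.mul_assoc (TT j _) A, hA _ (Rot_unitary hab.symm), ← Matrix.mul_assoc,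
    Matrix.mul_assoc _ A, hA.diagonal, ← Matrix.mul_assoc]

/-- transport of vanishing columns -/
lemma col_zero {A : Matrix (Fin j → Fin N) (Fin j → Fin N) ℂ} {f : Fin N → Fin N}
    (hc : A * TT j (Cf f) = TT j (Cf f) * A) {v : Fin j → Fin N} (hv : ∀ w, A w v = 0) :
    ∀ w, A w (f ∘ v) = 0 := by
  intro w
  have h1 := congrFun (congrFun hc w) v
  rw [Matrix.mul_apply, Matrix.mul_apply] at h1
  simp only [TT_Cf, mul_ite, mul_one, mul_zero] at h1
  rw [Finset.sum_ite_eq' univ (f ∘ v)] at h1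
  simp only [mem_univ, if_true] at h1
  rw [h1]
  exact Finset.sum_eq_zero fun x _ => by rw [hv x, mul_zero]

end

end MP069854

end
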