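import Pool.Agent.Lib.MP_069854_nt.Part02
import Pool.Agent.Lib.MP_069854_nt.Part03
import Pool.Agent.Lib.MP_069854_nt.Part05

section

namespace MP069854
open Matrix Finset

section
variable {N j : ℕ}

lemma exists_perm_comp {v w : Fin j → Fin N} (hv : Function.Injective v)
    (hw : Function.Injective w) : ∃ ρ : Equiv.Perm (Fin N), v = ρ ∘ w := by
  classical
  let e : {x // x ∈ Set.range w} ≃ {x // x ∈ Set.range v} :=
    (Equiv.ofInjective w hw).symm.trans (Equiv.ofInjective v hv)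
  refine ⟨e.extendSubtype, ?_⟩
  ext1 i
  rw [Function.comp, Equiv.extendSubtype_apply_of_mem e (w i) ⟨i, rfl⟩]
  have : (⟨w i, ⟨i, rfl⟩⟩ : {x // x ∈ Set.range w}) = Equiv.ofInjective w hw i := rfl
  rw [this]
  simp [e]

lemma cols_zero {A : Matrix (Fin j → Fin N) (Fin j → Fin N) ℂ} (hA : Com A) (hN : j ≤ N)
    (h0 : ∀ w, A w (Fin.castLE hN) = 0) : A = 0 := by
  have hinj : ∀ v : Fin j → Fin N, Function.Injective v → ∀ w, A w v = 0 := by
    intro v hv
    obtain ⟨ρ, rfl⟩ := exists_perm_comp hv (Fin.castLE_injective hN)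
    exact col_zero (hA _ (Cf_perm_unitary ρ)) h0
  have hall : ∀ m : ℕ, ∀ v : Fin j → Fin N, j ≤ (univ.image v).card + m → ∀ w, A w v = 0 := by
    intro m
    induction m with
    | zero =>
      intro v hv
      refine hinj v ?_
      have h1 : (univ.image v).card = (univ : Finset (Fin j)).card := by
        refine le_antisymm card_image_le ?_
        simpa using hv
      have h2 := Finset.card_image_iff.1 h1
      exact fun x y hxy => h2 (by simp) (by simp) hxy
    | succ m ih =>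
      intro v hv
      by_cases hvi : Function.Injective v
      · exact hinj v hvi
      · rw [Function.not_injective_iff] at hvi
        obtain ⟨i, i', hii, hne⟩ := hvi
        have hlt : (univ.image v).card < j := by
          by_contra hcon
          have h1 : (univ.image v).card = (univ : Finset (Fin j)).card := by
            refine le_antisymm card_image_le ?_
            simpa using not_lt.1 hcon
          have h2 := Finset.card_image_iff.1 h1
          exact hne (h2 (by simp) (by simp) hii)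
        obtain ⟨b, hb⟩ : ∃ b, b ∉ univ.image v := by
          by_contra hcon
          push Not at hcon
          have h3 : univ.image v = univ := Finset.eq_univ_iff_forall.2 hcon
          rw [h3, Finset.card_univ, Fintype.card_fin] at hlt
          omega
        have hbv : ∀ x, v x ≠ b := fun x hx => hb (mem_image.2 ⟨x, mem_univ x, hx⟩)
        set v' := Function.update v i b with hv'
        have hcard : (univ.image v).card + 1 ≤ (univ.image v').card := by
          rw [← Finset.card_insert_of_notMem hb]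
          apply Finset.card_le_card
          intro x hx
          rw [mem_insert] at hx
          rw [mem_image]
          rcases hx with rfl | hx
          · exact ⟨i, mem_univ i, by rw [hv', Function.update_self]⟩
          · obtain ⟨y, _, rfl⟩ := mem_image.1 hx
            by_cases hy : y = i
            · exact ⟨i', mem_univ i', by rw [hv', Function.update_of_ne hne.symm, hy, hii]⟩
            · exact ⟨y, mem_univ y, by rw [hv', Function.update_of_ne hy]⟩
        have hcomp : v = Function.update id b (v i) ∘ v' := by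
          ext1 x
          rw [Function.comp]
          by_cases hx : x = i
          · subst hx; rw [hv', Function.update_self, Function.update_self]
          · rw [hv', Function.update_of_ne hx, Function.update_of_ne (hbv x), id]
        rw [hcomp]
        exact col_zero (hA.collapse (hbv i)) (ih v' (by omega))
  ext w v
  exact hall j v (by omega) w

/-- **The commutant.** -/
theorem Com.eq_sum {A : Matrix (Fin j → Fin N) (Fin j → Fin N) ℂ} (hA : Com A) (hN : j ≤ N) :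
    A = ∑ π : Equiv.Perm (Fin j), A (Fin.castLE hN ∘ π.symm) (Fin.castLE hN) • PP N π := by
  set w0 : Fin j → Fin N := Fin.castLE hN with hw0
  have hinj0 : Function.Injective w0 := Fin.castLE_injective hN
  rw [← sub_eq_zero]
  refine cols_zero (hA.sub (Com.sum fun π _ => (Com.perm π).smul _)) hN ?_
  intro w
  rw [← hw0, Matrix.sub_apply, Matrix.sum_apply]
  simp only [Matrix.smul_apply, PP_apply, smul_eq_mul, mul_ite, mul_one, mul_zero]
  by_cases hσ : ∃ σ : Equiv.Perm (Fin j), w = w0 ∘ σ.symm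
  · obtain ⟨σ, rfl⟩ := hσ
    rw [Finset.sum_eq_single σ]
    · simp
    · intro π _ hπ
      rw [if_neg]
      intro h
      apply hπ
      ext i
      have h1 := congrFun h (π i)
      simp only [Function.comp, Equiv.symm_apply_apply] at h1
      have h2 := hinj0 h1
      have h3 : π i = σ i := by
        rw [← Equiv.apply_symm_apply σ (π i), h2]
      rw [h3]
    · simp
  · rw [Finset.sum_eq_zero (fun π _ => if_neg fun h => hσ ⟨π, h⟩), sub_zero]
    by_contra hne
    apply hσ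
    have hw := hA.weight hne
    have hcnt0 : ∀ a, cnt w0 a ≤ 1 := by
      intro a
      unfold cnt
      rw [Finset.card_le_one]
      intro x hx y hy
      exact hinj0 (by rw [(mem_filter.1 hx).2, (mem_filter.1 hy).2])
    have hex : ∀ i, ∃ i', w i = w0 i' := by
      intro i
      have h1 : 0 < cnt w0 (w i) := by
        rw [← hw]
        exact Finset.card_pos.2 ⟨i, by simp⟩
      obtain ⟨i', hi'⟩ := Finset.card_pos.1 h1
      exact ⟨i', (mem_filter.1 hi').2.symm⟩
    choose f hf using hex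
    have hfi : Function.Injective f := by
      intro x y hxy
      have h1 : w x = w y := by rw [hf x, hf y, hxy]
      have h2 : cnt w (w x) ≤ 1 := by rw [hw]; exact hcnt0 _
      unfold cnt at h2
      rw [Finset.card_le_one] at h2
      exact h2 x (by simp) y (by simp [h1])
    let e := Equiv.ofBijective f (Finite.injective_iff_bijective.1 hfi)
    refine ⟨e.symm, ?_⟩
    ext1 i
    rw [hf i]; rfl

lemma castLE_comp_inj (hN : j ≤ N) (π σ : Equiv.Perm (Fin j)) :
    (Fin.castLE hN ∘ π = Fin.castLE hN ∘ σ) ↔ π = σ := by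
  constructor
  · intro h
    ext i
    have := Fin.castLE_injective hN (congrFun h i)
    rw [this]
  · rintro rfl; rfl

end

end MP069854

end

section

namespace MP069854
open Matrix Finset Polynomial

section minors
variable {n : Type*} [Fintype n] [DecidableEq n]

lemma sum_submatrix (M : Matrix n n ℂ) (j : ℕ) :
    ∑ w : Fin j → n, (M.submatrix w w).det =
      (j.factorial : ℂ) * ∑ s ∈ Finset.univ.powersetCard j,
        (M.submatrix (Subtype.val : s → n) (Subtype.val : s → n)).det := by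
  rw [← Finset.sum_fiberwise (s := univ) (g := fun w : Fin j → n => univ.image w), Finset.mul_sum,
    ← Finset.sum_subset (Finset.subset_univ (Finset.univ.powersetCard j))]
  · refine Finset.sum_congr rfl fun s hs => ?_
    have hcard := (Finset.mem_powersetCard.1 hs).2
    let e0 : Fin j ≃ s := (s.equivFinOfCardEq hcard).symm
    have hterm : ∀ π : Equiv.Perm (Fin j),
        (M.submatrix (fun i => ((e0 (π i) : s) : n)) (fun i => ((e0 (π i) : s) : n))).det =
          (M.submatrix (Subtype.val : s → n) (Subtype.val : s → n)).det := by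
      intro π
      have h1 := Matrix.det_submatrix_equiv_self (π.trans e0)
        (M.submatrix (Subtype.val : s → n) (Subtype.val : s → n))
      rw [← h1]; rfl
    have hbij : ∑ w ∈ univ.filter (fun w : Fin j → n => univ.image w = s), (M.submatrix w w).det =
        ∑ π : Equiv.Perm (Fin j),
          (M.submatrix (fun i => ((e0 (π i) : s) : n)) (fun i => ((e0 (π i) : s) : n))).det := by
      symm
      refine Finset.sum_bij (fun π _ => fun i => ((e0 (π i) : s) : n)) ?_ ?_ ?_ ?_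
      · intro π _
        rw [mem_filter]
        refine ⟨mem_univ _, ?_⟩
        ext x
        rw [mem_image]
        constructor
        · rintro ⟨i, _, rfl⟩; exact (e0 (π i)).2
        · intro hx
          refine ⟨π.symm (e0.symm ⟨x, hx⟩), mem_univ _, by simp⟩
      · intro π _ π' _ h
        ext i
        have h1 := congrFun h i
        have h2 := e0.injective (Subtype.ext h1)
        rw [h2]
      · intro w hw
        have hw' := (mem_filter.1 hw).2
        have hmem : ∀ i, w i ∈ s := fun i => by rw [← hw']; exact mem_image_of_mem w (mem_univ i)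
        let f : Fin j → Fin j := fun i => e0.symm ⟨w i, hmem i⟩
        have hfs : Function.Surjective f := by
          intro y
          have h1 : ((e0 y : s) : n) ∈ univ.image w := by rw [hw']; exact (e0 y).2
          obtain ⟨i, _, hi⟩ := mem_image.1 h1
          refine ⟨i, ?_⟩
          simp only [f]
          rw [Equiv.symm_apply_eq]
          exact Subtype.ext hi
        refine ⟨Equiv.ofBijective f (Finite.surjective_iff_bijective.1 hfs), mem_univ _, ?_⟩
        funext i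
        simp [f]
      · intro π _; rfl
    rw [hbij, Finset.sum_congr rfl fun π _ => hterm π, Finset.sum_const, Finset.card_univ,
      Fintype.card_perm, Fintype.card_fin, nsmul_eq_mul]
  · intro s _ hs
    refine Finset.sum_eq_zero fun w hw => ?_
    have hw' := (mem_filter.1 hw).2
    have hcard : (univ.image w).card ≠ j := by
      intro h
      apply hs
      rw [Finset.mem_powersetCard]
      exact ⟨Finset.subset_univ _, by rw [← hw']; exact h⟩
    have hninj : ¬ Function.Injective w := by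
      intro h
      apply hcard
      rw [Finset.card_image_of_injective _ h]; simp
    rw [Function.not_injective_iff] at hninj
    obtain ⟨a, b, hab, hne⟩ := hninj
    refine Matrix.det_zero_of_row_eq hne ?_
    funext x
    simp [Matrix.submatrix_apply, hab]

lemma coeff_minor (M : Matrix n n ℂ) (j : ℕ) :
    (j.factorial : ℂ) * (det (1 + (X : ℂ[X]) • M.map C)).coeff j =
      ∑ σ : Equiv.Perm (Fin j), ((Equiv.Perm.sign σ : ℤ) : ℂ) *
        ∑ w : Fin j → n, ∏ i, M (w (σ i)) (w i) := by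
  rw [Matrix.coeff_det_one_add_X_smul_eq_sum_minors, ← sum_submatrix]
  simp_rw [Matrix.det_apply, Finset.mul_sum]
  rw [Finset.sum_comm]
  refine Finset.sum_congr rfl fun σ _ => Finset.sum_congr rfl fun w _ => ?_
  rw [Units.smul_def, zsmul_eq_mul]
  rfl

end minors

section
variable {N j k : ℕ}

/-- coefficients of `det(1 - zU)^k` -/
noncomputable def aj (k : ℕ) (U : Matrix (Fin N) (Fin N) ℂ) (j : ℕ) : ℂ :=
  ((U.charpolyRev) ^ k).coeff j

lemma charpolyRev_pow (U : Matrix (Fin N) (Fin N) ℂ) (k : ℕ) :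
    U.charpolyRev ^ k =
      det (1 + (X : ℂ[X]) • (blockDiagonal (fun _ : Fin k => -U)).map C) := by
  have h1 : (1 + (X : ℂ[X]) • (blockDiagonal (fun _ : Fin k => -U)).map C) =
      blockDiagonal (fun _ : Fin k => 1 - (X : ℂ[X]) • U.map C) := by
    rw [blockDiagonal_map, ← blockDiagonal_smul, ← blockDiagonal_one, ← blockDiagonal_add]
    · congr 1
      funext i
      ext a b
      simp [sub_eq_add_neg]
    · simp
  rw [h1, det_blockDiagonal]
  simp [charpolyRev]

/-- number of colourings fixed by `σ` -/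
def fixk (k : ℕ) (σ : Equiv.Perm (Fin j)) : ℕ := #{u : Fin j → Fin k | u ∘ σ = u}

/-- coefficient of the permutation `σ` -/
noncomputable def kap (k : ℕ) (σ : Equiv.Perm (Fin j)) : ℂ :=
  (-1) ^ j * ((Equiv.Perm.sign σ : ℤ) : ℂ) * (fixk k σ : ℂ) / (j.factorial : ℂ)

/-- representing matrix -/
noncomputable def KK (N k j : ℕ) : Matrix (Fin j → Fin N) (Fin j → Fin N) ℂ :=
  ∑ σ : Equiv.Perm (Fin j), kap k σ • PP N σ

lemma PP_mul_apply (σ : Equiv.Perm (Fin j)) (M : Matrix (Fin j → Fin N) (Fin j → Fin N) ℂ)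
    (w v : Fin j → Fin N) : (PP N σ * M) w v = M (w ∘ σ) v := by
  simp only [Matrix.mul_apply, PP_apply, ite_mul, one_mul, zero_mul]
  simp_rw [eq_comp_symm_iff σ w]
  rw [Finset.sum_ite_eq' univ (w ∘ σ) (fun x => M x v)]
  simp

lemma aj_eq (k : ℕ) (U : Matrix (Fin N) (Fin N) ℂ) (j : ℕ) :
    aj k U j = (KK N k j * TT j U).trace := by
  have hfac : (j.factorial : ℂ) ≠ 0 := by exact_mod_cast Nat.factorial_ne_zero j
  have h1 := coeff_minor (blockDiagonal (fun _ : Fin k => -U)) j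
  rw [← charpolyRev_pow] at h1
  have h2 : ∀ σ : Equiv.Perm (Fin j), ∑ w : Fin j → Fin N × Fin k,
      ∏ i, blockDiagonal (fun _ : Fin k => -U) (w (σ i)) (w i) =
      (-1) ^ j * (fixk k σ : ℂ) * ∑ v : Fin j → Fin N, ∏ i, U (v (σ i)) (v i) := by
    intro σ
    rw [← (Equiv.arrowProdEquivProdArrow (Fin j) (fun _ => Fin N) (fun _ => Fin k)).symm.sum_comp,
      Fintype.sum_prod_type]
    have h3 : ∀ (v : Fin j → Fin N) (u : Fin j → Fin k),
        ∏ i, blockDiagonal (fun _ : Fin k => -U)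
          ((Equiv.arrowProdEquivProdArrow (Fin j) (fun _ => Fin N) (fun _ => Fin k)).symm (v, u) (σ i))
          ((Equiv.arrowProdEquivProdArrow (Fin j) (fun _ => Fin N) (fun _ => Fin k)).symm (v, u) i) =
        if u ∘ σ = u then (-1) ^ j * ∏ i, U (v (σ i)) (v i) else 0 := by
      intro v u
      simp only [Equiv.arrowProdEquivProdArrow_symm_apply, blockDiagonal_apply]
      split_ifs with h
      · have h4 : ∀ i, u (σ i) = u i := fun i => congrFun h i
        rw [Finset.prod_congr rfl (g := fun i => (-1) * U (v (σ i)) (v i)) (fun i _ => by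
          rw [if_pos (h4 i)]; simp), Finset.prod_mul_distrib]
        simp
      · obtain ⟨i, hi⟩ := Function.ne_iff.1 h
        exact Finset.prod_eq_zero (mem_univ i) (if_neg hi)
    simp_rw [h3]
    rw [Finset.mul_sum]
    refine Finset.sum_congr rfl fun v _ => ?_
    rw [← Finset.sum_filter, Finset.sum_const, nsmul_eq_mul]
    unfold fixk
    ring
  simp_rw [h2] at h1
  have h5 : (KK N k j * TT j U).trace = ∑ σ : Equiv.Perm (Fin j), kap k σ *
      ∑ v : Fin j → Fin N, ∏ i, U (v (σ i)) (v i) := by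
    unfold KK
    rw [Matrix.sum_mul, Matrix.trace_sum]
    refine Finset.sum_congr rfl fun σ _ => ?_
    rw [Matrix.smul_mul, Matrix.trace_smul, smul_eq_mul]
    congr 1
    unfold Matrix.trace
    refine Finset.sum_congr rfl fun w _ => ?_
    rw [diag_apply, PP_mul_apply, TT_apply]; rfl
  rw [h5]
  apply mul_left_cancel₀ hfac
  unfold aj
  rw [h1, Finset.mul_sum]
  refine Finset.sum_congr rfl fun σ _ => ?_
  unfold kap
  field_simp

end

end MP069854

end

section

namespace MP069854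
open Finset

section
variable {α : Type} [Fintype α] [DecidableEq α] {j : ℕ}

/-- the multiset of values -/
def toSym (w : Fin j → α) : Sym α j := ⟨(univ : Finset (Fin j)).val.map w, by simp⟩

lemma toSym_comp (w : Fin j → α) (σ : Equiv.Perm (Fin j)) : toSym (w ∘ σ) = toSym w := by
  apply Subtype.ext
  show (univ : Finset (Fin j)).val.map (w ∘ σ) = (univ : Finset (Fin j)).val.map w
  rw [← Multiset.map_map]
  congr 1
  have := congrArg Finset.val (Finset.map_univ_equiv σ)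
  rwa [Finset.map_val] at this

lemma exists_of_toSym {w w' : Fin j → α} (h : toSym w = toSym w') :
    ∃ σ : Equiv.Perm (Fin j), w = w' ∘ σ := by
  have h1 : (univ : Finset (Fin j)).val.map w = (univ : Finset (Fin j)).val.map w' :=
    congrArg Subtype.val h
  have h2 : ∀ a, Fintype.card {i // w i = a} = Fintype.card {i // w' i = a} := by
    intro a
    have h3 := congrArg (Multiset.count a) h1
    rw [Multiset.count_map, Multiset.count_map] at h3
    rw [Fintype.card_subtype, Fintype.card_subtype, Finset.card_def, Finset.card_def]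
    simp only [Finset.filter_val]
    convert h3 using 3 <;> exact eq_comm
  refine ⟨Equiv.ofFiberEquiv (fun a => Fintype.equivOfCardEq (h2 a)), ?_⟩
  ext1 i
  exact (Equiv.ofFiberEquiv_map _ i).symm

lemma toSym_surj : Function.Surjective (toSym : (Fin j → α) → Sym α j) := by
  intro s
  obtain ⟨m, hm⟩ := s
  induction m using Quotient.inductionOn with
  | h l =>
    have hl : l.length = j := by simpa using hm
    subst hl
    refine ⟨fun i => l.get i, ?_⟩
    apply Subtype.ext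
    show (univ : Finset (Fin l.length)).val.map (fun i => l.get i) = (l : Multiset α)
    rw [Fin.univ_val_map, List.ofFn_get]

theorem sum_fix (α : Type) [Fintype α] [DecidableEq α] (j : ℕ) :
    ∑ σ : Equiv.Perm (Fin j), #{w : Fin j → α | w ∘ σ = w} =
      (Fintype.card α).multichoose j * j.factorial := by
  classical
  let Gp := (Equiv.Perm (Fin j))ᵈᵐᵃ
  letI : Fintype Gp := Fintype.ofEquiv _ (DomMulAct.mk : Equiv.Perm (Fin j) ≃ Gp)
  have hb := MulAction.sum_card_fixedBy_eq_card_orbits_mul_card_group Gp (Fin j → α)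
  have e1 : ∑ g : Gp, Fintype.card (MulAction.fixedBy (Fin j → α) g) =
      ∑ σ : Equiv.Perm (Fin j), #{w : Fin j → α | w ∘ σ = w} := by
    rw [← (DomMulAct.mk : Equiv.Perm (Fin j) ≃ Gp).sum_comp]
    refine Finset.sum_congr rfl fun σ _ => ?_
    rw [Fintype.card_subtype]
    congr 1
  have e2 : Fintype.card (Quotient (MulAction.orbitRel Gp (Fin j → α))) =
      (Fintype.card α).multichoose j := by
    rw [← Sym.card_sym_eq_multichoose]
    refine Fintype.card_congr (Equiv.ofBijective (Quotient.lift toSym ?_) ⟨?_, ?_⟩)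
    · intro w w' h
      obtain ⟨g, hg⟩ := h
      rw [← hg]
      exact toSym_comp w' (DomMulAct.mk.symm g)
    · intro q q'
      induction q using Quotient.inductionOn with
      | h w =>
        induction q' using Quotient.inductionOn with
        | h w' =>
          intro h
          obtain ⟨σ, hσ⟩ := exists_of_toSym (w := w) (w' := w') h
          exact Quotient.sound ⟨DomMulAct.mk σ, hσ.symm⟩
    · intro s
      obtain ⟨w, hw⟩ := toSym_surj s
      exact ⟨Quotient.mk _ w, hw⟩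
  have e3 : Fintype.card Gp = j.factorial := by
    rw [← Fintype.card_congr (DomMulAct.mk : Equiv.Perm (Fin j) ≃ Gp), Fintype.card_perm,
      Fintype.card_fin]
  rw [← e1, hb, e2, e3]

lemma fixk_sq (k : ℕ) (σ : Equiv.Perm (Fin j)) :
    fixk k σ ^ 2 = #{w : Fin j → Fin k × Fin k | w ∘ σ = w} := by
  unfold fixk
  rw [sq, ← Finset.card_product]
  refine Finset.card_bij (fun p _ => fun i => (p.1 i, p.2 i)) ?_ ?_ ?_
  · rintro ⟨u, u'⟩ h
    rw [Finset.mem_product, mem_filter, mem_filter] at h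
    rw [mem_filter]
    refine ⟨mem_univ _, ?_⟩
    ext1 i
    exact Prod.ext (congrFun h.1.2 i) (congrFun h.2.2 i)
  · rintro ⟨u, u'⟩ _ ⟨v, v'⟩ _ h
    have h1 : ∀ i, (u i, u' i) = (v i, v' i) := fun i => congrFun h i
    have h2 : u = v := by ext1 i; exact congrArg Prod.fst (h1 i)
    have h3 : u' = v' := by ext1 i; exact congrArg Prod.snd (h1 i)
    rw [h2, h3]
  · intro w hw
    rw [mem_filter] at hw
    refine ⟨(fun i => (w i).1, fun i => (w i).2), ?_, rfl⟩
    rw [Finset.mem_product, mem_filter, mem_filter]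
    refine ⟨⟨mem_univ _, ?_⟩, ⟨mem_univ _, ?_⟩⟩
    · ext1 i; exact congrArg Prod.fst (congrFun hw.2 i)
    · ext1 i; exact congrArg Prod.snd (congrFun hw.2 i)

lemma sum_fixk_sq (k j : ℕ) :
    ∑ σ : Equiv.Perm (Fin j), (fixk k σ) ^ 2 = (k ^ 2).multichoose j * j.factorial := by
  have := sum_fix (Fin k × Fin k) j
  rw [Fintype.card_prod, Fintype.card_fin] at this
  rw [sq k, ← this]
  exact Finset.sum_congr rfl fun σ _ => fixk_sq k σ

lemma fixk_conj (k : ℕ) (π σ : Equiv.Perm (Fin j)) : fixk k (π * σ * π⁻¹) = fixk k σ := by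
  unfold fixk
  refine Finset.card_bij (fun u _ => u ∘ π) ?_ ?_ ?_
  · intro u hu
    rw [mem_filter] at hu ⊢
    refine ⟨mem_univ _, ?_⟩
    ext1 i
    have := congrFun hu.2 (π i)
    simpa using this
  · intro u _ v _ h
    ext1 i
    have := congrFun h (π.symm i)
    simpa using this
  · intro u hu
    rw [mem_filter] at hu
    refine ⟨u ∘ π.symm, ?_, ?_⟩
    · rw [mem_filter]
      refine ⟨mem_univ _, ?_⟩
      ext1 i
      have := congrFun hu.2 (π.symm i)
      simpa [Equiv.Perm.inv_def] using this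
    · ext1 i; simp

lemma kap_conj (k : ℕ) (π σ : Equiv.Perm (Fin j)) : kap k (π * σ * π⁻¹) = kap k σ := by
  have hs : Equiv.Perm.sign (π * σ * π⁻¹) = Equiv.Perm.sign σ := by
    rw [Equiv.Perm.sign_mul, Equiv.Perm.sign_mul, Equiv.Perm.sign_inv,
      mul_comm (Equiv.Perm.sign π), mul_assoc, Int.units_mul_self, mul_one]
  unfold kap
  rw [fixk_conj, hs]

end

end MP069854

end

section

namespace MP069854
open Matrix Finset MeasureTheory
open scoped ComplexConjugate

section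
variable {N j k : ℕ}

lemma compact_unitary (N : ℕ) : CompactSpace (unitaryGroup (Fin N) ℂ) := by
  rw [← isCompact_univ_iff, Subtype.isCompact_iff, Set.image_univ, Subtype.range_val]
  have hc : IsCompact (Set.pi Set.univ fun _ : Fin N => Set.pi Set.univ fun _ : Fin N =>
      Metric.closedBall (0:ℂ) 1) :=
    isCompact_univ_pi fun _ => isCompact_univ_pi fun _ => isCompact_closedBall 0 1
  refine IsCompact.of_isClosed_subset hc ?_ ?_
  · have hcl : IsClosed {U : Matrix (Fin N) (Fin N) ℂ | U * star U = 1} :=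
      isClosed_eq (by fun_prop) continuous_const
    convert hcl using 1
    ext U
    exact mem_unitaryGroup_iff
  · intro U hU i _ j _
    rw [mem_closedBall_zero_iff]
    exact entry_norm_bound_of_unitary hU i j

lemma PP_mul (π σ : Equiv.Perm (Fin j)) : PP N π * PP N σ = PP N (π * σ) := by
  ext w v
  rw [PP_mul_apply, PP_apply, PP_apply]
  congr 1
  rw [eq_iff_iff, eq_comp_symm_iff, eq_comp_symm_iff]
  constructor
  · rintro rfl; rfl
  · rintro rfl; rfl

lemma PP_transpose (π : Equiv.Perm (Fin j)) : (PP N π)ᵀ = PP N π⁻¹ := by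
  ext w v
  rw [transpose_apply, PP_apply, PP_apply]
  congr 1
  rw [eq_iff_iff, eq_comp_symm_iff]
  exact Iff.rfl

lemma kap_conj' (k : ℕ) (σ : Equiv.Perm (Fin j)) : conj (kap k σ) = kap k σ := by
  unfold kap
  simp

lemma KK_transpose (N k j : ℕ) : (KK N k j)ᵀ = ∑ σ : Equiv.Perm (Fin j), kap k σ • PP N σ⁻¹ := by
  unfold KK
  rw [transpose_sum]
  refine Finset.sum_congr rfl fun σ _ => ?_
  rw [transpose_smul, PP_transpose]

lemma KK_real (N k j : ℕ) (w v : Fin j → Fin N) : conj (KK N k j w v) = KK N k j w v := by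
  unfold KK
  rw [Matrix.sum_apply, map_sum]
  refine Finset.sum_congr rfl fun σ _ => ?_
  rw [Matrix.smul_apply, smul_eq_mul, map_mul, kap_conj', PP_apply]
  split_ifs <;> simp

lemma Com_KK (N k j : ℕ) : Com (KK N k j) := Com.sum fun σ _ => (Com.perm σ).smul _

lemma Com_KKT (N k j : ℕ) : Com (KK N k j)ᵀ := by
  rw [KK_transpose]
  exact Com.sum fun σ _ => (Com.perm σ⁻¹).smul _

/-- the algebraic part of the second-moment computation -/
lemma alg_sum (k : ℕ) (hN : j ≤ N) :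
    ∑ π : Equiv.Perm (Fin j), (KK N k j * PP N π * (KK N k j)ᵀ) (Fin.castLE hN ∘ π.symm)
      (Fin.castLE hN) = ((k ^ 2).multichoose j : ℂ) := by
  have h1 : ∀ π : Equiv.Perm (Fin j), (KK N k j * PP N π * (KK N k j)ᵀ) (Fin.castLE hN ∘ π.symm)
      (Fin.castLE hN) = ∑ τ : Equiv.Perm (Fin j), kap k τ ^ 2 := by
    intro π
    have h2 : KK N k j * PP N π * (KK N k j)ᵀ = ∑ τ : Equiv.Perm (Fin j),
        ∑ σ : Equiv.Perm (Fin j), (kap k σ * kap k τ) • PP N (σ * π * τ⁻¹) := by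
      rw [KK_transpose, Finset.mul_sum]
      refine Finset.sum_congr rfl fun τ _ => ?_
      unfold KK
      rw [Finset.sum_mul, Finset.sum_mul]
      refine Finset.sum_congr rfl fun σ _ => ?_
      rw [Matrix.smul_mul, Matrix.smul_mul, Matrix.mul_smul, PP_mul, PP_mul, smul_smul]
    rw [h2, Matrix.sum_apply]
    refine Finset.sum_congr rfl fun τ _ => ?_
    rw [Matrix.sum_apply, Finset.sum_eq_single (π * τ * π⁻¹)]
    · rw [Matrix.smul_apply, PP_apply, if_pos, kap_conj, smul_eq_mul, mul_one, sq]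
      congr 1
      have : π * τ * π⁻¹ * π * τ⁻¹ = π := by group
      rw [this]
    · intro σ _ hσ
      rw [Matrix.smul_apply, PP_apply, if_neg, smul_zero]
      intro h
      apply hσ
      have h3 := (castLE_comp_inj hN (π.symm) ((σ * π * τ⁻¹).symm)).1 h
      have h4 : π = σ * π * τ⁻¹ := Equiv.symm_bijective.injective h3
      calc σ = (σ * π * τ⁻¹) * τ * π⁻¹ := by group
        _ = π * τ * π⁻¹ := by rw [← h4]
    · simp
  rw [Finset.sum_congr rfl fun π _ => h1 π, Finset.sum_const, Finset.card_univ, Fintype.card_perm,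
    Fintype.card_fin, nsmul_eq_mul]
  have hfac : (j.factorial : ℂ) ≠ 0 := by exact_mod_cast Nat.factorial_ne_zero j
  have h5 : ∀ τ : Equiv.Perm (Fin j), kap k τ ^ 2 = ((fixk k τ ^ 2 : ℕ) : ℂ) / (j.factorial : ℂ) ^ 2 := by
    intro τ
    unfold kap
    have h6 : (((Equiv.Perm.sign τ : ℤ) : ℂ)) ^ 2 = 1 := by
      rcases Int.units_eq_one_or (Equiv.Perm.sign τ) with h | h <;> simp [h]
    have h7 : ((-1 : ℂ) ^ j) ^ 2 = 1 := by
      rw [← pow_mul, mul_comm, pow_mul]; norm_num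
    rw [div_pow, mul_pow, mul_pow, h6, h7]
    push_cast; ring
  simp_rw [h5]
  rw [← Finset.sum_div, ← Nat.cast_sum, sum_fixk_sq]
  push_cast
  field_simp

lemma TT_cont (w v : Fin j → Fin N) :
    Continuous fun U : unitaryGroup (Fin N) ℂ => TT j (U : Matrix (Fin N) (Fin N) ℂ) w v := by
  simp only [TT_apply]
  refine continuous_finsetProd _ fun i _ => ?_
  exact (continuous_apply_apply (w i) (v i)).comp continuous_subtype_val

lemma TT_unitary {V : Matrix (Fin N) (Fin N) ℂ} (hV : V ∈ unitaryGroup (Fin N) ℂ) :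
    TT j V * (TT j V)ᴴ = 1 ∧ (TT j V)ᴴ * TT j V = 1 := by
  have h1 := mem_unitaryGroup_iff.1 hV
  have h2 := mem_unitaryGroup_iff'.1 hV
  rw [star_eq_conjTranspose] at h1 h2
  constructor
  · rw [← TT_conjTranspose, ← TT_mul, h1, TT_one]
  · rw [← TT_conjTranspose, ← TT_mul, h2, TT_one]

lemma trace_KK (U : Matrix (Fin N) (Fin N) ℂ) :
    aj k U j = ∑ w, ∑ x, KK N k j w x * TT j U x w := by
  rw [aj_eq]
  unfold Matrix.trace
  refine Finset.sum_congr rfl fun w _ => ?_
  rw [diag_apply, Matrix.mul_apply]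

variable [MeasurableSpace (unitaryGroup (Fin N) ℂ)] [BorelSpace (unitaryGroup (Fin N) ℂ)]
  (μ : Measure (unitaryGroup (Fin N) ℂ)) [IsProbabilityMeasure μ] [μ.IsHaarMeasure]

lemma integrable_cont {F : unitaryGroup (Fin N) ℂ → ℂ} (hF : Continuous F) : Integrable F μ := by
  have := compact_unitary N
  exact hF.integrable_of_hasCompactSupport (HasCompactSupport.of_compactSpace F)

/-- second moments of the tensor powers -/
noncomputable def gg (x y w v : Fin j → Fin N) : ℂ :=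
  ∫ U : unitaryGroup (Fin N) ℂ, TT j (U : Matrix (Fin N) (Fin N) ℂ) x w *
    conj (TT j (U : Matrix (Fin N) (Fin N) ℂ) y v) ∂μ

lemma gg_int (x y w v : Fin j → Fin N) :
    Integrable (fun U : unitaryGroup (Fin N) ℂ => TT j (U : Matrix (Fin N) (Fin N) ℂ) x w *
    conj (TT j (U : Matrix (Fin N) (Fin N) ℂ) y v)) μ :=
  integrable_cont μ ((TT_cont x w).mul (Complex.continuous_conj.comp (TT_cont y v)))

lemma gg_com (w v : Fin j → Fin N) : Com (Matrix.of fun x y => gg μ x y w v) := by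
  intro V hV
  set A : Matrix (Fin j → Fin N) (Fin j → Fin N) ℂ := Matrix.of fun x y => gg μ x y w v with hA
  have key : TT j V * A * (TT j V)ᴴ = A := by
    ext x y
    rw [Matrix.mul_apply]
    have h1 : ∀ y', (TT j V * A) x y' * (TT j V)ᴴ y' y =
        ∫ U : unitaryGroup (Fin N) ℂ, ∑ x', TT j V x x' * (TT j (U : Matrix (Fin N) (Fin N) ℂ) x' w *
          conj (TT j (U : Matrix (Fin N) (Fin N) ℂ) y' v)) * conj (TT j V y y') ∂μ := by
      intro y'
      rw [integral_finsetSum _ fun x' _ => ((gg_int μ x' y' w v).const_mul _).mul_const _,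
        Matrix.mul_apply, Finset.sum_mul]
      refine Finset.sum_congr rfl fun x' _ => ?_
      rw [integral_mul_const, integral_const_mul, conjTranspose_apply]
      rfl
    rw [Finset.sum_congr rfl fun y' _ => h1 y', ← integral_finsetSum _ fun y' _ =>
      integrable_finsetSum _ fun x' _ => ((gg_int μ x' y' w v).const_mul _).mul_const _]
    have h2 := integral_mul_left_eq_self (μ := μ) (fun U : unitaryGroup (Fin N) ℂ =>
      TT j (U : Matrix (Fin N) (Fin N) ℂ) x w * conj (TT j (U : Matrix (Fin N) (Fin N) ℂ) y v)) ⟨V, hV⟩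
    rw [hA, of_apply, gg, ← h2]
    refine integral_congr_ae (Filter.Eventually.of_forall fun U => ?_)
    simp only
    rw [show ((((⟨V, hV⟩ : unitaryGroup (Fin N) ℂ) * U : unitaryGroup (Fin N) ℂ)) :
      Matrix (Fin N) (Fin N) ℂ) = V * (U : Matrix (Fin N) (Fin N) ℂ) from rfl, TT_mul,
      Matrix.mul_apply, Matrix.mul_apply, map_sum, Finset.sum_mul_sum, Finset.sum_comm]
    refine Finset.sum_congr rfl fun x' _ => Finset.sum_congr rfl fun y' _ => ?_
    rw [map_mul]; ring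
  have h3 := (TT_unitary (j := j) hV).2
  calc A * TT j V = TT j V * A * (TT j V)ᴴ * TT j V := by rw [key]
    _ = TT j V * A * ((TT j V)ᴴ * TT j V) := by rw [Matrix.mul_assoc (TT j V * A)]
    _ = TT j V * A := by rw [h3, Matrix.mul_one]

lemma gg_apply {B : Matrix (Fin j → Fin N) (Fin j → Fin N) ℂ} (hB : Com B) (x y : Fin j → Fin N) :
    ∑ w, ∑ v, gg μ x y w v * B w v = B x y := by
  have h1 : ∀ w v, gg μ x y w v * B w v = ∫ U : unitaryGroup (Fin N) ℂ,
      TT j (U : Matrix (Fin N) (Fin N) ℂ) x w * conj (TT j (U : Matrix (Fin N) (Fin N) ℂ) y v) * B w v ∂μ := by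
    intro w v
    rw [integral_mul_const]; rfl
  have h2 : ∑ w, ∑ v, gg μ x y w v * B w v = ∫ U : unitaryGroup (Fin N) ℂ, ∑ w, ∑ v,
      TT j (U : Matrix (Fin N) (Fin N) ℂ) x w *
        conj (TT j (U : Matrix (Fin N) (Fin N) ℂ) y v) * B w v ∂μ := by
    rw [integral_finsetSum _ fun w _ => integrable_finsetSum _ fun v _ =>
      (gg_int μ x y w v).mul_const (B w v)]
    refine Finset.sum_congr rfl fun w _ => ?_
    rw [integral_finsetSum _ fun v _ => (gg_int μ x y w v).mul_const (B w v)]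
    exact Finset.sum_congr rfl fun v _ => h1 w v
  rw [h2]
  have h3 : ∀ U : unitaryGroup (Fin N) ℂ, ∑ w, ∑ v, TT j (U : Matrix (Fin N) (Fin N) ℂ) x w *
        conj (TT j (U : Matrix (Fin N) (Fin N) ℂ) y v) * B w v = B x y := by
    intro U
    have h4 : TT j (U : Matrix (Fin N) (Fin N) ℂ) * B * (TT j (U : Matrix (Fin N) (Fin N) ℂ))ᴴ = B := by
      rw [← hB _ U.2, Matrix.mul_assoc, (TT_unitary U.2).1, Matrix.mul_one]
    have h5 := congrFun (congrFun h4 x) y
    rw [← h5, Matrix.mul_apply]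
    simp_rw [Matrix.mul_apply, Finset.sum_mul, conjTranspose_apply]
    rw [Finset.sum_comm]
    refine Finset.sum_congr rfl fun w _ => Finset.sum_congr rfl fun v _ => ?_
    rw [starRingEnd_apply]; ring
  simp_rw [h3]
  simp

/-- **Second moments of the coefficients in the stable range.** -/
theorem second_moment (k : ℕ) (hN : j ≤ N) :
    ∫ U : unitaryGroup (Fin N) ℂ, aj k (U : Matrix (Fin N) (Fin N) ℂ) j *
      conj (aj k (U : Matrix (Fin N) (Fin N) ℂ) j) ∂μ = ((k ^ 2).multichoose j : ℂ) := by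
  have h1 : ∀ U : unitaryGroup (Fin N) ℂ, aj k (U : Matrix (Fin N) (Fin N) ℂ) j *
      conj (aj k (U : Matrix (Fin N) (Fin N) ℂ) j) = ∑ w, ∑ v, ∑ x, ∑ y,
        KK N k j w x * KK N k j v y * (TT j (U : Matrix (Fin N) (Fin N) ℂ) x w *
          conj (TT j (U : Matrix (Fin N) (Fin N) ℂ) y v)) := by
    intro U
    rw [trace_KK, map_sum, Finset.sum_mul_sum]
    refine Finset.sum_congr rfl fun w _ => Finset.sum_congr rfl fun v _ => ?_
    rw [map_sum, Finset.sum_mul_sum]
    refine Finset.sum_congr rfl fun x _ => Finset.sum_congr rfl fun y _ => ?_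
    rw [map_mul, KK_real]; ring
  simp_rw [h1]
  have i1 : ∀ w v x y, Integrable (fun U : unitaryGroup (Fin N) ℂ =>
      KK N k j w x * KK N k j v y * (TT j (U : Matrix (Fin N) (Fin N) ℂ) x w *
          conj (TT j (U : Matrix (Fin N) (Fin N) ℂ) y v))) μ := fun w v x y =>
    (gg_int μ x y w v).const_mul _
  rw [integral_finsetSum _ fun w _ => integrable_finsetSum _ fun v _ => integrable_finsetSum _
    fun x _ => integrable_finsetSum _ fun y _ => i1 w v x y]
  have h2 : ∀ w, ∫ U : unitaryGroup (Fin N) ℂ, ∑ v, ∑ x, ∑ y,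
      KK N k j w x * KK N k j v y * (TT j (U : Matrix (Fin N) (Fin N) ℂ) x w *
          conj (TT j (U : Matrix (Fin N) (Fin N) ℂ) y v)) ∂μ =
      ∑ v, ∑ x, ∑ y, KK N k j w x * KK N k j v y * gg μ x y w v := by
    intro w
    rw [integral_finsetSum _ fun v _ => integrable_finsetSum _
      fun x _ => integrable_finsetSum _ fun y _ => i1 w v x y]
    refine Finset.sum_congr rfl fun v _ => ?_
    rw [integral_finsetSum _ fun x _ => integrable_finsetSum _ fun y _ => i1 w v x y]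
    refine Finset.sum_congr rfl fun x _ => ?_
    rw [integral_finsetSum _ fun y _ => i1 w v x y]
    refine Finset.sum_congr rfl fun y _ => ?_
    rw [integral_const_mul]; rfl
  simp_rw [h2]
  set w0 : Fin j → Fin N := Fin.castLE hN with hw0
  have h3 : ∀ x y w v, gg μ x y w v = ∑ π : Equiv.Perm (Fin j),
      gg μ (w0 ∘ π.symm) w0 w v * PP N π x y := by
    intro x y w v
    have h4 := congrFun (congrFun ((gg_com μ w v).eq_sum hN) x) y
    rw [of_apply, Matrix.sum_apply] at h4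
    rw [h4]
    refine Finset.sum_congr rfl fun π _ => ?_
    rw [Matrix.smul_apply, smul_eq_mul]; rfl
  have h5 : ∀ w v, ∑ x, ∑ y, KK N k j w x * KK N k j v y * gg μ x y w v =
      ∑ π : Equiv.Perm (Fin j), gg μ (w0 ∘ π.symm) w0 w v *
        (KK N k j * PP N π * (KK N k j)ᵀ) w v := by
    intro w v
    have h6 : ∀ x y, KK N k j w x * KK N k j v y * gg μ x y w v =
        ∑ π : Equiv.Perm (Fin j), gg μ (w0 ∘ π.symm) w0 w v * (KK N k j w x * PP N π x y * KK N k j v y) := by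
      intro x y
      rw [h3 x y w v, Finset.mul_sum]
      refine Finset.sum_congr rfl fun π _ => ?_
      ring
    simp_rw [h6]
    rw [Finset.sum_congr rfl fun x _ => Finset.sum_comm, Finset.sum_comm]
    refine Finset.sum_congr rfl fun π _ => ?_
    rw [Matrix.mul_apply]
    simp_rw [Matrix.mul_apply, transpose_apply, Finset.sum_mul, Finset.mul_sum]
    rw [Finset.sum_comm]
  simp_rw [h5]
  rw [Finset.sum_congr rfl fun w _ => Finset.sum_comm, Finset.sum_comm]
  rw [← alg_sum k hN]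
  refine Finset.sum_congr rfl fun π _ => ?_
  exact gg_apply μ (((Com_KK N k j).mul (Com.perm π)).mul (Com_KKT N k j)) _ _

end

end MP069854

end

section

namespace MP069854
open Filter Topology Complex Set MeasureTheory
open scoped ComplexConjugate

section
variable {k : ℕ} {g : ℝ → ℂ} {A B : ℝ}

lemma JJ_refl (k : ℕ) (g : ℝ → ℂ) {L t : ℝ} (ht : 8 < t) :
    JJ k (fun u => g (-u)) (Psi k) L t = JJ k g (fun _ _ => (1:ℂ)) L t := by
  unfold JJ
  have h := integral_neg_eq_self (μ := (volume : Measure ℝ)) (fun α : ℝ =>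
    G g (α * I) * 1 * Z k t (1/2 + (α / L : ℝ) * I))
  rw [← h]
  refine integral_congr_ae (Eventually.of_forall fun α => ?_)
  simp only [Psi, if_neg (not_le.2 ht)]
  rw [TF.G_refl, mul_assoc, ← Z_refl, mul_one]
  congr 2
  · push_cast; ring
  · push_cast; ring

lemma JJ_Psi_low (k : ℕ) (g : ℝ → ℂ) {L t : ℝ} (ht : t ≤ 8) :
    JJ k g (Psi k) L t = JJ k g (fun _ _ => (1:ℂ)) L t := by
  unfold JJ
  simp only [Psi, if_pos ht]

lemma JJ_Psi_int (hg : TF g A B) {L T : ℝ} (hL : 0 < L) (hT : 0 ≤ T) :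
    IntervalIntegrable (fun t => JJ k (fun u => g (-u)) (Psi k) L t) volume 0 T := by
  have hT8 : T ≤ max T 8 := le_max_left _ _
  have h8 : (8:ℝ) ≤ max T 8 := le_max_right _ _
  have hbig : IntervalIntegrable (fun t => JJ k (fun u => g (-u)) (Psi k) L t) volume 0 (max T 8) := by
    refine IntervalIntegrable.trans (b := 8) ?_ ?_
    · refine (JJ_one_intervalIntegrable (k := k) hg.refl hL (T := 8) (by norm_num)).congr ?_
      intro t ht
      rw [uIoc_of_le (by norm_num)] at ht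
      exact (JJ_Psi_low k _ ht.2).symm
    · have h1 := JJ_one_intervalIntegrable (k := k) hg hL (T := max T 8) (by linarith only [h8])
      have h2 : IntervalIntegrable (fun t => JJ k g (fun _ _ => (1:ℂ)) L t) volume 8 (max T 8) :=
        h1.mono_set (by
          rw [uIcc_of_le h8, uIcc_of_le (by linarith only [h8])]; exact Icc_subset_Icc_left (by norm_num))
      refine h2.congr ?_
      intro t ht
      rw [uIoc_of_le h8] at ht
      exact (JJ_refl k g ht.1).symm
  exact hbig.mono_set (by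
    rw [uIcc_of_le hT, uIcc_of_le (by linarith only [h8])]; exact Icc_subset_Icc_right hT8)

/-- **High frequencies.** -/
theorem high_side (hk : 1 ≤ k) (hg : TF g A B) (hA : 2 * (k:ℝ) - 2 < A) :
    Tendsto (fun T : ℝ => ∫ α : ℝ, G g (α * I) * Qk k α T) atTop
      (𝓝 (2 * Real.pi * (arith k * ∫ y in Ioi (0:ℝ), g (2 * k - 2 * y) * wt (k ^ 2) y))) := by
  have h := core (k := k) hk (fam_Psi k) hg.refl (by linarith only [hA]) (fun T hT => by
    have : (0:ℝ) < Real.exp 1 := Real.exp_pos 1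
    have h1 : 1 < T := lt_of_lt_of_le (by have := Real.add_one_le_exp (1:ℝ); linarith only [this]) hT
    exact JJ_Psi_int hg (Real.log_pos h1) (by linarith only [h1]))
  obtain ⟨C1, hC1, hb1⟩ := JJ_bound (k := k) (fam_Psi k) hg.refl
  obtain ⟨C2, hC2, hb2⟩ := JJ_bound (k := k) fam_one hg
  have hdiff : Tendsto (fun T : ℝ => ((T * Real.log T ^ (k ^ 2) : ℝ) : ℂ)⁻¹ *
      ((∫ t in (0:ℝ)..8, JJ k g (fun _ _ => (1:ℂ)) (Real.log T) t) -
       ∫ t in (0:ℝ)..8, JJ k (fun u => g (-u)) (Psi k) (Real.log T) t)) atTop (𝓝 0) := by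
    have hlim : Tendsto (fun T : ℝ => (C1 + C2) * 9 ^ (2 * k) * 8 * T⁻¹) atTop (𝓝 0) := by
      have := (tendsto_inv_atTop_zero (𝕜 := ℝ)).const_mul ((C1 + C2) * 9 ^ (2 * k) * 8)
      rwa [mul_zero] at this
    refine squeeze_zero_norm' ?_ hlim
    filter_upwards [eventually_ge_atTop (Real.exp 1)] with T hT
    have hexp1 : (2:ℝ) ≤ Real.exp 1 := by have := Real.add_one_le_exp (1:ℝ); linarith only [this]
    have hT0 : 0 < T := by linarith only [hT, hexp1]
    have hL1 : 1 ≤ Real.log T := by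
      rw [Real.le_log_iff_exp_le hT0]; exact hT
    have hLk : 1 ≤ Real.log T ^ (k ^ 2) := one_le_pow₀ hL1
    have bd : ∀ (F : ℝ → ℂ) (C : ℝ), 0 ≤ C → (∀ t, 0 ≤ t → ‖F t‖ ≤ C * (1 + t) ^ (2 * k)) →
        ‖∫ t in (0:ℝ)..8, F t‖ ≤ C * 9 ^ (2 * k) * 8 := by
      intro F C hC hF
      have := intervalIntegral.norm_integral_le_of_norm_le_const (f := F) (a := 0) (b := 8)
        (C := C * 9 ^ (2 * k)) (fun t ht => by
          rw [uIoc_of_le (by norm_num)] at ht
          refine (hF t ht.1.le).trans ?_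
          have : (1 + t) ^ (2 * k) ≤ 9 ^ (2 * k) :=
            pow_le_pow_left₀ (by linarith only [ht.1, ht]) (by linarith only [ht.2, ht]) _
          (clear * - hC this; gcongr))
      simpa using this
    have b1 := bd _ C1 hC1 (fun t ht => hb1 (Real.log T) t hL1 ht)
    have b2 := bd _ C2 hC2 (fun t ht => hb2 (Real.log T) t hL1 ht)
    rw [norm_mul, norm_inv, norm_real, Real.norm_eq_abs, abs_of_pos (by (clear * - hT0 hL1; positivity)), mul_inv]
    have h5 : (Real.log T ^ (k ^ 2))⁻¹ ≤ 1 := inv_le_one_of_one_le₀ hLk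
    have h6 : 0 ≤ (Real.log T ^ (k ^ 2))⁻¹ := by (clear * - hL1; positivity)
    have h7 : 0 < T⁻¹ := by (clear * - hT0; positivity)
    calc T⁻¹ * (Real.log T ^ (k ^ 2))⁻¹ * _ ≤ T⁻¹ * 1 * (C2 * 9 ^ (2 * k) * 8 + C1 * 9 ^ (2 * k) * 8) := by
          gcongr
          exact (norm_sub_le _ _).trans (add_le_add b2 b1)
      _ = _ := by ring
  have hsum := h.add hdiff
  rw [add_zero] at hsum
  have hfun : ∀ y : ℝ, g (-(2 * y - 2 * k)) = g (2 * k - 2 * y) := fun y => by congr 1; ring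
  simp only [hfun] at hsum
  refine hsum.congr' ?_
  filter_upwards [eventually_gt_atTop (8:ℝ)] with T hT
  have hT1 : 1 < T := by linarith only [hT]
  have hL := Real.log_pos hT1
  rw [Qk_integral hg hT1, ← mul_add]
  congr 1
  have i1 := JJ_Psi_int (k := k) hg hL (T := T) (by linarith only [hT])
  have i2 := JJ_one_intervalIntegrable (k := k) hg hL (T := T) (by linarith only [hT])
  have i1a := i1.mono_set (show uIcc (0:ℝ) 8 ⊆ uIcc 0 T by
    rw [uIcc_of_le (by norm_num), uIcc_of_le (by linarith only [hT])]; exact Icc_subset_Icc_right hT.le)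
  have i1b := i1.mono_set (show uIcc (8:ℝ) T ⊆ uIcc 0 T by
    rw [uIcc_of_le hT.le, uIcc_of_le (by linarith only [hT])]; exact Icc_subset_Icc_left (by norm_num))
  have i2a := i2.mono_set (show uIcc (0:ℝ) 8 ⊆ uIcc 0 T by
    rw [uIcc_of_le (by norm_num), uIcc_of_le (by linarith only [hT])]; exact Icc_subset_Icc_right hT.le)
  have i2b := i2.mono_set (show uIcc (8:ℝ) T ⊆ uIcc 0 T by
    rw [uIcc_of_le hT.le, uIcc_of_le (by linarith only [hT])]; exact Icc_subset_Icc_left (by norm_num))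
  rw [← intervalIntegral.integral_add_adjacent_intervals i1a i1b,
    ← intervalIntegral.integral_add_adjacent_intervals i2a i2b]
  have e : ∫ t in (8:ℝ)..T, JJ k (fun u => g (-u)) (Psi k) (Real.log T) t =
      ∫ t in (8:ℝ)..T, JJ k g (fun _ _ => (1:ℂ)) (Real.log T) t := by
    rw [intervalIntegral.integral_of_le hT.le, intervalIntegral.integral_of_le hT.le]
    refine setIntegral_congr_fun measurableSet_Ioc fun t ht => ?_
    exact JJ_refl k g ht.1
  rw [e]; ring

end

end MP069854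

end

section

namespace MP069854
open Matrix Finset MeasureTheory Polynomial
open scoped ComplexConjugate

section
variable {N k : ℕ}

lemma eval_charpolyRev' (U : Matrix (Fin N) (Fin N) ℂ) (z : ℂ) :
    U.charpolyRev.eval z = det (1 - z • U) := by
  rw [charpolyRev, ← coe_evalRingHom, RingHom.map_det]
  congr 1
  ext i j
  rcases eq_or_ne i j with hij | hij
  · subst hij; simp; ring
  · simp [hij]; ring

lemma charpolyRev_natDegree (U : Matrix (Fin N) (Fin N) ℂ) : U.charpolyRev.natDegree ≤ N := by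
  rw [← reverse_charpoly]
  refine (reverse_natDegree_le _).trans ?_
  rw [charpoly_natDegree_eq_dim, Fintype.card_fin]

lemma det_pow_eq (U : Matrix (Fin N) (Fin N) ℂ) (k : ℕ) (z : ℂ) :
    det (1 - z • U) ^ k = ∑ j ∈ range (k * N + 1), aj k U j * z ^ j := by
  rw [← eval_charpolyRev', ← Polynomial.eval_pow]
  refine Polynomial.eval_eq_sum_range' ?_ z
  have h1 := natDegree_pow_le (p := U.charpolyRev) (n := k)
  have h2 := Nat.mul_le_mul_left k (charpolyRev_natDegree U)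
  (clear * - h1 h2; omega)

lemma det_star_pow_eq (U : Matrix (Fin N) (Fin N) ℂ) (k : ℕ) (z : ℂ) :
    det (1 - z • star U) ^ k = ∑ j ∈ range (k * N + 1), conj (aj k U j) * z ^ j := by
  have h1 : det (1 - z • star U) = conj (det (1 - conj z • U)) := by
    rw [starRingEnd_apply, ← det_conjTranspose]
    congr 1
    rw [conjTranspose_sub, conjTranspose_one, conjTranspose_smul, star_eq_conjTranspose]
    simp
  rw [h1, ← map_pow, det_pow_eq, map_sum]
  refine Finset.sum_congr rfl fun j _ => ?_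
  rw [map_mul, map_pow, Complex.conj_conj]

lemma aj_smul (U : Matrix (Fin N) (Fin N) ℂ) (ζ : ℂ) (k j : ℕ) :
    aj k (ζ • U) j = ζ ^ j * aj k U j := by
  rw [aj_eq, aj_eq]
  have h1 : TT j (ζ • U) = ζ ^ j • TT j U := by
    ext w v
    rw [TT_apply, Matrix.smul_apply, TT_apply, smul_eq_mul]
    simp only [Matrix.smul_apply, smul_eq_mul]
    rw [Finset.prod_mul_distrib]; simp
  rw [h1, Matrix.mul_smul, trace_smul, smul_eq_mul]

lemma reverse_pow' (f : ℂ[X]) (k : ℕ) : f.reverse ^ k = (f ^ k).reverse := by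
  induction k with
  | zero =>
    rw [pow_zero, pow_zero]
    have := reverse_C (1:ℂ)
    simpa using this.symm
  | succ k ih => rw [pow_succ, pow_succ, reverse_mul_of_domain, ih]

/-- symmetry of the coefficients -/
lemma aj_symm {U : Matrix (Fin N) (Fin N) ℂ} (hU : U ∈ unitaryGroup (Fin N) ℂ) {j : ℕ}
    (hj : j ≤ k * N) : ∃ u : ℂ, ‖u‖ = 1 ∧ conj (aj k U (k * N - j)) = u * aj k U j := by
  have hU1 := mem_unitaryGroup_iff.1 hU
  have hinv : U⁻¹ = star U := Matrix.inv_eq_right_inv hU1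
  have hunit : IsUnit U := by
    rw [Matrix.isUnit_iff_isUnit_det]
    exact (Matrix.isUnit_iff_isUnit_det U).1 ⟨⟨U, star U, hU1, mem_unitaryGroup_iff'.1 hU⟩, rfl⟩
  have h1 := charpoly_inv U hunit
  have h2 : U⁻¹.charpoly = U.charpoly.map (starRingEnd ℂ) := by
    rw [hinv, star_eq_conjTranspose, ← Matrix.charpoly_map]
    rw [show Uᴴ = (U.map (starRingEnd ℂ))ᵀ by ext a b; simp [conjTranspose_apply]]
    exact Matrix.charpoly_transpose _
  rw [h2, Fintype.card_fin] at h1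
  have h3 := congrArg (fun p : ℂ[X] => p ^ k) h1
  rw [← Polynomial.map_pow, mul_pow] at h3
  set c : ℂ := ((-1) ^ N * Ring.inverse U.det) ^ k with hc
  have h4 : ((-1 : ℂ[X]) ^ N * C (Ring.inverse U.det)) ^ k = C c := by
    rw [hc]; simp
  rw [h4] at h3
  have h5 := congrArg (fun p : ℂ[X] => p.coeff j) h3
  simp only [coeff_map, coeff_C_mul] at h5
  refine ⟨c, ?_, ?_⟩
  · have hdet : ‖U.det‖ = 1 := by
      have h6 := congrArg det hU1
      rw [det_mul, star_eq_conjTranspose, det_conjTranspose, det_one, ← starRingEnd_apply,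
        Complex.mul_conj, Complex.normSq_eq_norm_sq] at h6
      have h7 : ‖U.det‖ ^ 2 = 1 := by exact_mod_cast h6
      nlinarith only [norm_nonneg U.det, h7]
    rw [hc, norm_pow, norm_mul, norm_pow, norm_neg, norm_one, one_pow, one_mul,
      Ring.inverse_eq_inv', norm_inv, hdet, inv_one, one_pow]
  · unfold aj
    rw [← h5]
    congr 1
    rw [← reverse_charpoly]
    have hrev : (U.charpoly.reverse) ^ k = (U.charpoly ^ k).reverse := reverse_pow' _ k
    have hdeg : (U.charpoly ^ k).natDegree = k * N := by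
      rw [natDegree_pow, charpoly_natDegree_eq_dim, Fintype.card_fin]
    rw [hrev, coeff_reverse, hdeg, revAt_le (by omega)]
    congr 1
    (clear * - hj hdeg; omega)

end

end MP069854

end

section

namespace MP069854
open Matrix Finset MeasureTheory Filter Topology
open scoped ComplexConjugate

section
variable {N k : ℕ}

lemma aj_cont (k j : ℕ) :
    Continuous fun U : unitaryGroup (Fin N) ℂ => aj k (U : Matrix (Fin N) (Fin N) ℂ) j := by
  simp only [trace_KK]
  exact continuous_finsetSum _ fun w _ => continuous_finsetSum _ fun x _ =>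
    continuous_const.mul (TT_cont x w)

variable [MeasurableSpace (unitaryGroup (Fin N) ℂ)] [BorelSpace (unitaryGroup (Fin N) ℂ)]
  (μ : Measure (unitaryGroup (Fin N) ℂ)) [IsProbabilityMeasure μ] [μ.IsHaarMeasure]

lemma aj_int (k j l : ℕ) : Integrable (fun U : unitaryGroup (Fin N) ℂ =>
    aj k (U : Matrix (Fin N) (Fin N) ℂ) j * conj (aj k (U : Matrix (Fin N) (Fin N) ℂ) l)) μ :=
  integrable_cont μ ((aj_cont k j).mul (Complex.continuous_conj.comp (aj_cont k l)))

/-- second moments -/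
noncomputable def mm (k j l : ℕ) : ℂ := ∫ U : unitaryGroup (Fin N) ℂ,
    aj k (U : Matrix (Fin N) (Fin N) ℂ) j * conj (aj k (U : Matrix (Fin N) (Fin N) ℂ) l) ∂μ

lemma mm_orth {j l : ℕ} (h : j ≠ l) : mm μ k j l = 0 := by
  have hjl : ((j : ℝ) - l) ≠ 0 := sub_ne_zero.2 (by exact_mod_cast h)
  set θ : ℝ := Real.pi / ((j : ℝ) - l) with hθ
  set ζ : ℂ := Complex.exp (θ * Complex.I) with hζ
  have hζn : ‖ζ‖ = 1 := Complex.norm_exp_ofReal_mul_I θ
  have hV : diagonal (fun _ : Fin N => ζ) ∈ unitaryGroup (Fin N) ℂ := diag_unitary fun _ => hζn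
  have h1 := integral_mul_left_eq_self (μ := μ) (fun U : unitaryGroup (Fin N) ℂ =>
    aj k (U : Matrix (Fin N) (Fin N) ℂ) j * conj (aj k (U : Matrix (Fin N) (Fin N) ℂ) l)) ⟨_, hV⟩
  have h2 : ∀ U : unitaryGroup (Fin N) ℂ,
      ((((⟨_, hV⟩ : unitaryGroup (Fin N) ℂ) * U : unitaryGroup (Fin N) ℂ)) :
      Matrix (Fin N) (Fin N) ℂ) = ζ • (U : Matrix (Fin N) (Fin N) ℂ) := by
    intro U
    rw [smul_eq_diagonal_mul]; rfl
  simp_rw [h2, aj_smul] at h1
  have h3 : ζ ^ j * conj (ζ ^ l) = -1 := by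
    rw [map_pow, hζ, ← Complex.exp_conj, ← Complex.exp_nat_mul, ← Complex.exp_nat_mul,
      ← Complex.exp_add, ← Complex.exp_pi_mul_I]
    congr 1
    rw [map_mul, Complex.conj_I, Complex.conj_ofReal, hθ]
    have : ((j : ℂ) - l) ≠ 0 := by exact_mod_cast hjl
    push_cast
    field_simp
    ring
  have h4 : ∀ U : unitaryGroup (Fin N) ℂ, ζ ^ j * aj k (U : Matrix (Fin N) (Fin N) ℂ) j *
      conj (ζ ^ l * aj k (U : Matrix (Fin N) (Fin N) ℂ) l) =
      -(aj k (U : Matrix (Fin N) (Fin N) ℂ) j * conj (aj k (U : Matrix (Fin N) (Fin N) ℂ) l)) := by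
    intro U
    rw [map_mul]
    linear_combination (aj k (U : Matrix (Fin N) (Fin N) ℂ) j *
      conj (aj k (U : Matrix (Fin N) (Fin N) ℂ) l)) * h3
  simp_rw [h4] at h1
  rw [integral_neg] at h1
  have h5 : mm μ k j l = -mm μ k j l := h1.symm
  have h6 : (2:ℂ) * mm μ k j l = 0 := by linear_combination h5
  simpa using h6

lemma mm_symm {j : ℕ} (hj : j ≤ k * N) : mm μ k (k * N - j) (k * N - j) = mm μ k j j := by
  unfold mm
  refine integral_congr_ae (Eventually.of_forall fun U => ?_)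
  simp only
  obtain ⟨u, hu, h1⟩ := aj_symm U.2 hj
  rw [Complex.mul_conj, Complex.mul_conj, Complex.normSq_eq_norm_sq, Complex.normSq_eq_norm_sq]
  have h2 := congrArg norm h1
  rw [Complex.norm_conj, norm_mul, hu, one_mul] at h2
  rw [h2]

lemma mm_low {j : ℕ} (hj : j ≤ N) : mm μ k j j = ((k ^ 2).multichoose j : ℂ) :=
  second_moment μ k hj

/-- `W_k(α,N)` -/
noncomputable def Wk (k : ℕ) (α : ℝ) : ℂ :=
  ((N : ℂ) ^ (k ^ 2))⁻¹ * ∫ U : unitaryGroup (Fin N) ℂ,
    det (1 - Complex.exp (-Complex.I * α / N) • (U : Matrix (Fin N) (Fin N) ℂ)) ^ k *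
    det (1 - Complex.exp (-Complex.I * α / N) • star (U : Matrix (Fin N) (Fin N) ℂ)) ^ k ∂μ

lemma Wk_eq (k : ℕ) (α : ℝ) : Wk μ k α = ((N : ℂ) ^ (k ^ 2))⁻¹ *
    ∑ j ∈ range (k * N + 1), mm μ k j j * Complex.exp (-(α * (2 * j / N : ℝ)) * Complex.I) := by
  unfold Wk
  congr 1
  set z := Complex.exp (-Complex.I * α / N) with hz
  have h1 : ∀ U : unitaryGroup (Fin N) ℂ, det (1 - z • (U : Matrix (Fin N) (Fin N) ℂ)) ^ k *
      det (1 - z • star (U : Matrix (Fin N) (Fin N) ℂ)) ^ k =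
      ∑ j ∈ range (k * N + 1), ∑ l ∈ range (k * N + 1), z ^ j * z ^ l *
        (aj k (U : Matrix (Fin N) (Fin N) ℂ) j * conj (aj k (U : Matrix (Fin N) (Fin N) ℂ) l)) := by
    intro U
    rw [det_pow_eq, det_star_pow_eq, Finset.sum_mul_sum]
    refine Finset.sum_congr rfl fun j _ => Finset.sum_congr rfl fun l _ => ?_
    ring
  simp_rw [h1]
  rw [integral_finsetSum _ fun j _ => integrable_finsetSum _ fun l _ => (aj_int μ k j l).const_mul _]
  refine Finset.sum_congr rfl fun j hj => ?_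
  rw [integral_finsetSum _ fun l _ => (aj_int μ k j l).const_mul _, Finset.sum_eq_single j]
  · rw [integral_const_mul]
    have h2 : z ^ j * z ^ j = Complex.exp (-(α * (2 * j / N : ℝ)) * Complex.I) := by
      rw [hz, ← Complex.exp_nat_mul, ← Complex.exp_add]
      congr 1
      push_cast; ring
    rw [h2, mul_comm]; rfl
  · intro l _ hl
    rw [integral_const_mul]
    have := mm_orth (k := k) μ (Ne.symm hl)
    unfold mm at this
    rw [this, mul_zero]
  · intro h; exact absurd hj h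

section
variable {g : ℝ → ℂ} {A B : ℝ}

lemma G_exp_integrable (hg : TF g A B) (v : ℝ) :
    Integrable fun α : ℝ => G g (α * Complex.I) * Complex.exp (-(α * v) * Complex.I) := by
  have h1 : Integrable fun α : ℝ => G g (α * Complex.I) := by
    have := hg.G_vert_integrable 0
    simpa using this
  refine h1.mul_bdd (c := 1) ?_ ?_
  · exact (by fun_prop : Continuous fun α : ℝ => Complex.exp (-(α * v) * Complex.I)).aestronglyMeasurable
  · refine Eventually.of_forall fun α => ?_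
    rw [show (-((α:ℂ) * v) * Complex.I) = ((-(α * v) : ℝ) : ℂ) * Complex.I by push_cast; ring,
      Complex.norm_exp_ofReal_mul_I]

lemma Wk_integrable (hg : TF g A B) (k : ℕ) :
    Integrable fun α : ℝ => G g (α * Complex.I) * Wk μ k α := by
  have h : Integrable fun α : ℝ => ∑ j ∈ range (k * N + 1), (((N : ℂ) ^ (k ^ 2))⁻¹ * mm μ k j j) *
      (G g (α * Complex.I) * Complex.exp (-(α * (2 * j / N : ℝ)) * Complex.I)) :=
    integrable_finsetSum _ fun j _ => (G_exp_integrable hg _).const_mul _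
  refine h.congr (Eventually.of_forall fun α => ?_)
  simp only
  rw [Wk_eq, ← mul_assoc, Finset.mul_sum]
  refine Finset.sum_congr rfl fun j _ => ?_
  ring

lemma Wk_integral (hg : TF g A B) (k : ℕ) :
    ∫ α : ℝ, G g (α * Complex.I) * Wk μ k α = ((N : ℂ) ^ (k ^ 2))⁻¹ *
      ∑ j ∈ range (k * N + 1), mm μ k j j * (2 * Real.pi * g (2 * j / N)) := by
  have h : ∀ α : ℝ, G g (α * Complex.I) * Wk μ k α =
      ∑ j ∈ range (k * N + 1), (((N : ℂ) ^ (k ^ 2))⁻¹ * mm μ k j j) *
      (G g (α * Complex.I) * Complex.exp (-(α * (2 * j / N : ℝ)) * Complex.I)) := by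
    intro α
    rw [Wk_eq, ← mul_assoc, Finset.mul_sum]
    refine Finset.sum_congr rfl fun j _ => ?_
    ring
  simp_rw [h]
  rw [integral_finsetSum _ fun j _ => (G_exp_integrable hg _).const_mul _, Finset.mul_sum]
  refine Finset.sum_congr rfl fun j _ => ?_
  rw [integral_const_mul]
  have h1 := hg.inversion 0 (2 * j / N)
  simp only [zero_mul, Real.exp_zero, Complex.ofReal_one, one_mul, Complex.ofReal_zero, zero_add] at h1
  rw [h1]; ring

end

end

/-- KData for the random matrix side -/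
lemma rmtData {K : ℕ} (hK : 1 ≤ K) :
    KData (fun j => (K.multichoose j : ℝ)) (fun j => (j : ℝ)) K 1 := by
  obtain ⟨m, rfl⟩ : ∃ m, K = m + 1 := ⟨K - 1, by omega⟩
  have hterm : ∀ (s : ℝ) (j : ℕ), ((m + 1).multichoose j : ℝ) * Real.exp (-(s * j)) =
      ((j + m).choose m : ℝ) * Real.exp (-s) ^ j := by
    intro s j
    rw [Nat.multichoose_eq, show m + 1 + j - 1 = j + m by (clear * - hK; omega), ← Real.exp_nat_mul]
    congr 1
    · rw [Nat.choose_symm_of_eq_add (by omega : j + m = j + m)]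
    · congr 1; ring
  have hsum : ∀ s : ℝ, 0 < s → HasSum (fun j : ℕ => ((m + 1).multichoose j : ℝ) * Real.exp (-(s * j)))
      (1 / (1 - Real.exp (-s)) ^ (m + 1)) := by
    intro s hs
    simp_rw [hterm]
    refine hasSum_choose_mul_geometric_of_norm_lt_one m ?_
    rw [Real.norm_eq_abs, abs_of_pos (Real.exp_pos _), Real.exp_lt_one_iff]
    linarith only [hs]
  refine ⟨by omega, fun n => Nat.cast_nonneg _, fun n => Nat.cast_nonneg _,
    fun s hs => (hsum s hs).summable, ?_⟩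
  have hd : HasDerivAt (fun s : ℝ => 1 - Real.exp (-s)) 1 0 := by
    have := ((Real.hasDerivAt_exp (-0)).comp (0:ℝ) (hasDerivAt_neg (0:ℝ))).const_sub 1
    simpa using this
  have h1 := hd.tendsto_slope
  have h2 : Tendsto (fun s : ℝ => (slope (fun s : ℝ => 1 - Real.exp (-s)) 0 s)⁻¹ ^ (m + 1))
      (𝓝[>] 0) (𝓝 1) := by
    have h3 := ((h1.mono_left (nhdsWithin_mono 0 (fun x hx => ne_of_gt hx :
      Set.Ioi (0:ℝ) ⊆ {0}ᶜ))).inv₀ one_ne_zero).pow (m + 1)
    simpa using h3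
  refine h2.congr' ?_
  filter_upwards [self_mem_nhdsWithin] with s hs
  have hs0 : (0:ℝ) < s := hs
  rw [(hsum s hs0).tsum_eq, slope_def_field]
  have h3 : 1 - Real.exp (-s) ≠ 0 := by
    have : Real.exp (-s) < 1 := by rw [Real.exp_lt_one_iff]; linarith only [hs0]
    linarith only [this]
  simp only [neg_zero, Real.exp_zero, sub_self, sub_zero]
  rw [inv_div, div_pow]; ring

end MP069854

end

section

namespace MP069854
open Matrix Finset MeasureTheory Filter Topology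
open scoped ComplexConjugate

section
variable {k : ℕ} {g : ℝ → ℂ} {A B : ℝ}

lemma tendsto_inv_nat : Tendsto (fun N : ℕ => ((N : ℝ))⁻¹) atTop (𝓝[>] 0) :=
  tendsto_inv_atTop_nhdsGT_zero.comp tendsto_natCast_atTop_atTop

variable [∀ N, MeasurableSpace (unitaryGroup (Fin N) ℂ)] [∀ N, BorelSpace (unitaryGroup (Fin N) ℂ)]
  (μ : ∀ N, Measure (unitaryGroup (Fin N) ℂ)) [∀ N, IsProbabilityMeasure (μ N)]
  [∀ N, (μ N).IsHaarMeasure]

/-- **Low frequencies, random matrix side.** -/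
theorem Wk_low (hk : 1 ≤ k) (hg : TF g A B) (hB : B < 2) :
    Tendsto (fun N : ℕ => ∫ α : ℝ, G g (α * Complex.I) * Wk (μ N) k α) atTop
      (𝓝 (2 * Real.pi * ∫ y in Set.Ioi (0:ℝ), g (2 * y) * wt (k ^ 2) y)) := by
  have hK : 1 ≤ k ^ 2 := Nat.one_le_pow _ _ hk
  have h1 := ((rmtData hK).test_lim_complex (fun y => g (2 * y)) (hg.cont.comp (by fun_prop))
    (R := 1) (fun y hy => hg.zero_of (by intro h; linarith only [h.2, hB, hy, h]))).2
  have h2 := (h1.comp tendsto_inv_nat).const_mul (2 * (Real.pi : ℂ))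
  rw [Complex.ofReal_one, one_mul] at h2
  refine h2.congr' ?_
  filter_upwards [eventually_ge_atTop 1] with N hN
  have hN0 : (0:ℝ) < N := by exact_mod_cast hN
  simp only [Function.comp]
  rw [Wk_integral (μ N) hg k]
  have hz : ∀ j : ℕ, N ≤ j → g (2 * ((N : ℝ)⁻¹ * j)) = 0 := by
    intro j hj
    apply hg.zero_of
    intro h
    have h3 : (1:ℝ) ≤ (N : ℝ)⁻¹ * j := by
      rw [inv_mul_eq_div, le_div_iff₀ hN0, one_mul]; exact_mod_cast hj
    linarith only [h.2, hB, h, h3]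
  rw [tsum_eq_sum (s := range (k * N + 1)), Complex.ofReal_inv, Complex.ofReal_natCast, inv_pow,
    mul_left_comm, Finset.mul_sum]
  · congr 1
    refine Finset.sum_congr rfl fun j _ => ?_
    have e1 : (2 * (j:ℝ) / N) = 2 * ((N : ℝ)⁻¹ * j) := by rw [inv_mul_eq_div]; ring
    rw [e1]
    by_cases hj : N ≤ j
    · rw [hz j hj]; ring
    · rw [mm_low (μ N) (by omega)]; push_cast; ring
  · intro j hj
    rw [hz j, mul_zero]
    rw [mem_range, not_lt] at hj
    nlinarith only [hk, hj]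

/-- **High frequencies, random matrix side.** -/
theorem Wk_high (hk : 1 ≤ k) (hg : TF g A B) (hA : 2 * (k:ℝ) - 2 < A) :
    Tendsto (fun N : ℕ => ∫ α : ℝ, G g (α * Complex.I) * Wk (μ N) k α) atTop
      (𝓝 (2 * Real.pi * ∫ y in Set.Ioi (0:ℝ), g (2 * k - 2 * y) * wt (k ^ 2) y)) := by
  have hK : 1 ≤ k ^ 2 := Nat.one_le_pow _ _ hk
  have h1 := ((rmtData hK).test_lim_complex (fun y => g (2 * k - 2 * y)) (hg.cont.comp (by fun_prop))
    (R := 1) (fun y hy => hg.zero_of (by intro h; linarith only [h.1, hA, hy, h]))).2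
  have h2 := (h1.comp tendsto_inv_nat).const_mul (2 * (Real.pi : ℂ))
  rw [Complex.ofReal_one, one_mul] at h2
  refine h2.congr' ?_
  filter_upwards [eventually_ge_atTop 1] with N hN
  have hN0 : (0:ℝ) < N := by exact_mod_cast hN
  simp only [Function.comp]
  rw [Wk_integral (μ N) hg k]
  have hz : ∀ j : ℕ, N ≤ j → g (2 * k - 2 * ((N : ℝ)⁻¹ * j)) = 0 := by
    intro j hj
    apply hg.zero_of
    intro h
    have h3 : (1:ℝ) ≤ (N : ℝ)⁻¹ * j := by
      rw [inv_mul_eq_div, le_div_iff₀ hN0, one_mul]; exact_mod_cast hj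
    linarith only [h.1, hA, h, h3]
  rw [tsum_eq_sum (s := range (k * N + 1)), Complex.ofReal_inv, Complex.ofReal_natCast, inv_pow,
    mul_left_comm, Finset.mul_sum]
  · congr 1
    have hR := Finset.sum_range_reflect (fun j : ℕ => mm (μ N) k j j *
      (2 * (Real.pi : ℂ) * g (2 * j / N))) (k * N + 1)
    rw [← hR]
    refine Finset.sum_congr rfl fun j hj => ?_
    have hj' : j ≤ k * N := by rw [mem_range] at hj; omega
    rw [show k * N + 1 - 1 - j = k * N - j by (clear * - hj'; omega), mm_symm (μ N) hj']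
    have e1 : (2 * ((k * N - j : ℕ) : ℝ) / N) = 2 * k - 2 * ((N : ℝ)⁻¹ * j) := by
      rw [Nat.cast_sub hj']; push_cast; field_simp
    rw [e1]
    by_cases hjN : N ≤ j
    · rw [hz j hjN]; ring
    · rw [mm_low (μ N) (by (clear * - hjN; omega))]; push_cast; ring
  · intro j hj
    rw [hz j, mul_zero]
    rw [mem_range, not_lt] at hj
    nlinarith only [hk, hj]

end

end MP069854

end

section

namespace MP069854
open Filter Topology Complex Set MeasureTheory
open scoped ContDiff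

/-- growth of `ζ` slightly to the left of the critical line -/
lemma zeta_growth4 : ∃ C : ℝ, 1 ≤ C ∧ ∀ s : ℂ, 1/4 ≤ s.re → 1/4 ≤ ‖s - 1‖ →
    ‖riemannZeta s‖ ≤ C * ‖s‖ := by
  set C := ∑' n : ℕ, ((n : ℝ) + 1) ^ (-(1/4 : ℝ) - 1) with hC
  have hsum := rpow_summable (show (0:ℝ) < 1/4 by norm_num)
  have hC1 : 1 ≤ C := by
    have := hsum.le_tsum 0 (fun n _ => by positivity)
    simpa [hC] using this
  refine ⟨C + 16, by linarith only [hC1], ?_⟩
  intro s hs h14
  have h1 : s ≠ 1 := by rintro rfl; norm_num at h14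
  have hs0 : 0 < s.re := by linarith only [hs]
  have hne : 0 < ‖s - 1‖ := norm_pos_iff.2 (sub_ne_zero.2 h1)
  have h2 : ‖(s - 1) * riemannZeta s‖ ≤ 1 + ‖s - 1‖ * ‖s‖ * C := by
    rw [zeta_formula hs0 h1]
    refine (norm_add_le _ _).trans ?_
    rw [norm_one]
    gcongr
    rw [hC, ← tsum_mul_left]
    refine tsum_of_norm_bounded (hsum.mul_left _).hasSum ?_
    intro n
    refine (vt_bound n s (by linarith only [hs0])).trans ?_
    have : ((n : ℝ) + 1) ^ (-s.re - 1) ≤ ((n : ℝ) + 1) ^ (-(1/4:ℝ) - 1) :=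
      Real.rpow_le_rpow_of_exponent_le (by linarith only [Nat.cast_nonneg (α := ℝ) n]) (by linarith only [hs])
    (clear * - h14 this; gcongr)
  rw [norm_mul] at h2
  have h3 : ‖riemannZeta s‖ ≤ (1 + ‖s - 1‖ * ‖s‖ * C) / ‖s - 1‖ := by
    rw [le_div_iff₀ hne, mul_comm]; exact h2
  have h4 : 1 / ‖s - 1‖ ≤ 4 := by
    rw [div_le_iff₀ (by linarith only [h14])]; linarith only [h14]
  have h5 : 1/4 ≤ ‖s‖ := hs.trans ((le_abs_self _).trans (abs_re_le_norm s))
  refine h3.trans ?_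
  have h6 : (1 + ‖s - 1‖ * ‖s‖ * C) / ‖s - 1‖ = 1 / ‖s - 1‖ + ‖s‖ * C := by field_simp
  rw [h6]
  nlinarith only [h4, h5]

/-- growth of `Z` in the strip `1/4 ≤ Re s ≤ 3/4` -/
lemma Z_strip (k : ℕ) : ∃ C : ℝ, 1 ≤ C ∧ ∀ (t : ℝ) (s : ℂ), 0 ≤ t → 1/4 ≤ s.re → s.re ≤ 3/4 →
    ‖Z k t s‖ ≤ C * (2 + |s.im| + t) ^ (2 * k) := by
  obtain ⟨C, hC1, hC⟩ := zeta_growth4
  refine ⟨C ^ (2 * k), one_le_pow₀ hC1, ?_⟩
  intro t s ht hs1 hs2
  have hre : (s + t * I).re = s.re := by simp
  have hre' : (s - t * I).re = s.re := by simp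
  have d : ∀ z : ℂ, z.re = s.re → 1/4 ≤ ‖z - 1‖ := by
    intro z hz
    have h1 := abs_re_le_norm (z - 1)
    have h2 : (z - 1).re = s.re - 1 := by simp [hz]
    rw [h2, abs_of_nonpos (by linarith only [hs2])] at h1
    linarith only [hs2, h1]
  have n0 : ‖s‖ ≤ 2 + |s.im| := by
    have := Complex.norm_le_abs_re_add_abs_im s
    have h3 : |s.re| ≤ 2 := by rw [abs_of_nonneg (by linarith only [hs1])]; linarith only [hs2]
    linarith only [this, h3]
  have ht' : ‖(t : ℂ) * I‖ = t := by simp [abs_of_nonneg ht]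
  have n1 : ‖s + t * I‖ ≤ 2 + |s.im| + t := by
    refine (norm_add_le _ _).trans ?_; rw [ht']; linarith only [n0]
  have n2 : ‖s - t * I‖ ≤ 2 + |s.im| + t := by
    refine (norm_sub_le _ _).trans ?_; rw [ht']; linarith only [n0]
  have b1 := (hC (s + t * I) (by rw [hre]; exact hs1) (d _ hre)).trans
    (mul_le_mul_of_nonneg_left n1 (by linarith only [hC1]))
  have b2 := (hC (s - t * I) (by rw [hre']; exact hs1) (d _ hre')).trans
    (mul_le_mul_of_nonneg_left n2 (by linarith only [hC1]))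
  unfold Z
  rw [norm_mul, norm_pow, norm_pow]
  calc ‖riemannZeta (s + t * I)‖ ^ k * ‖riemannZeta (s - t * I)‖ ^ k
      ≤ (C * (2 + |s.im| + t)) ^ k * (C * (2 + |s.im| + t)) ^ k := by (clear * - hC1 ht b1 b2; gcongr)
    _ = C ^ (2 * k) * (2 + |s.im| + t) ^ (2 * k) := by
      rw [← pow_add, ← two_mul, mul_pow]

lemma Z_diff_strip (k : ℕ) (t : ℝ) {s : ℂ} (h2 : s.re < 1) :
    DifferentiableAt ℂ (Z k t) s := by
  apply Z_differentiableAt
  · intro h
    have := congrArg Complex.re h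
    simp at this
    linarith only [h2, this]
  · intro h
    have := congrArg Complex.re h
    simp at this
    linarith only [h2, this]

lemma zeta_one_sub' {s : ℂ} (hs : 0 < s.re) (hs1 : s.re < 1) :
    riemannZeta (1 - s) = chi s * riemannZeta s := by
  unfold chi
  refine riemannZeta_one_sub ?_ ?_
  · intro n h
    rw [h] at hs
    simp at hs
    have : (0:ℝ) ≤ n := Nat.cast_nonneg n
    linarith only [hs]
  · rintro rfl
    norm_num at hs1

/-- functional equation off the critical line -/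
lemma Z_refl' (k : ℕ) (t : ℝ) {s : ℂ} (hs : 0 < s.re) (hs1 : s.re < 1) :
    Z k t (1 - s) = Xt t s ^ k * Z k t s := by
  unfold Z Xt
  have h1 : (1 - s + t * I : ℂ) = 1 - (s - t * I) := by ring
  have h2 : (1 - s - t * I : ℂ) = 1 - (s + t * I) := by ring
  rw [h1, h2, zeta_one_sub' (by simpa using hs) (by simpa using hs1),
    zeta_one_sub' (by simpa using hs) (by simpa using hs1)]
  ring

/-- Cauchy's theorem in a strip -/
lemma line_shift {f : ℂ → ℂ} {a b C : ℝ} (hab : a ≤ b) {S : Set ℂ} (hS : S.Countable)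
    (hc : ∀ z : ℂ, a ≤ z.re → z.re ≤ b → ContinuousAt f z)
    (hd : ∀ z : ℂ, a < z.re → z.re < b → z ∉ S → DifferentiableAt ℂ f z)
    (hb : ∀ z : ℂ, a ≤ z.re → z.re ≤ b → ‖f z‖ * (1 + |z.im|) ^ 2 ≤ C) :
    ∫ y : ℝ, f (a + y * I) = ∫ y : ℝ, f (b + y * I) := by
  have hC : 0 ≤ C := le_trans (by (clear * -; positivity)) (hb (a : ℂ) (by simp) (by simpa using hab))
  have hcl : ∀ x : ℝ, a ≤ x → x ≤ b → Continuous fun y : ℝ => f (x + y * I) := by
    intro x h1 h2
    rw [continuous_iff_continuousAt]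
    intro y
    exact ContinuousAt.comp (f := fun y : ℝ => (x + y * I : ℂ)) (g := f)
      (hc _ (by simpa using h1) (by simpa using h2)) (by fun_prop)
  have hint : ∀ x : ℝ, a ≤ x → x ≤ b → Integrable fun y : ℝ => f (x + y * I) := by
    intro x h1 h2
    refine integrable_of_decay (hcl x h1 h2).aestronglyMeasurable (D := C) fun y => ?_
    simpa using hb (x + y * I) (by simpa using h1) (by simpa using h2)
  have hlim : ∀ x : ℝ, a ≤ x → x ≤ b → Tendsto (fun n : ℕ => ∫ y in (-(n:ℝ))..n, f (x + y * I)) atTop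
      (𝓝 (∫ y : ℝ, f (x + y * I))) := by
    intro x h1 h2
    exact intervalIntegral_tendsto_integral (hint x h1 h2)
      (tendsto_neg_atTop_atBot.comp tendsto_natCast_atTop_atTop) tendsto_natCast_atTop_atTop
  have hdiff : Tendsto (fun n : ℕ => (∫ y in (-(n:ℝ))..n, f (a + y * I)) -
      ∫ y in (-(n:ℝ))..n, f (b + y * I)) atTop (𝓝 0) := by
    have hb0 : Tendsto (fun n : ℕ => (C * (b - a) * 2) * (1 / ((n:ℝ) + 1))) atTop (𝓝 0) := by
      have := (tendsto_one_div_add_atTop_nhds_zero_nat (𝕜 := ℝ)).const_mul (C * (b - a) * 2)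
      simpa using this
    refine squeeze_zero_norm (fun n => ?_) hb0
    have hn0 : (0:ℝ) ≤ n := Nat.cast_nonneg n
    have hrect := Complex.integral_boundary_rect_eq_zero_of_differentiable_on_off_countable f
      (⟨a, -n⟩ : ℂ) (⟨b, n⟩ : ℂ) S hS ?_ ?_
    · simp only at hrect
      have hbd : ∀ v : ℝ, |v| = n → ‖∫ x in a..b, f (x + (v : ℂ) * I)‖ ≤
          C * (1 / ((n:ℝ) + 1)) * |b - a| := by
        intro v hv
        refine intervalIntegral.norm_integral_le_of_norm_le_const ?_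
        intro x hx
        rw [uIoc_of_le hab] at hx
        have h3 := hb (x + v * I) (by simpa using hx.1.le) (by simpa using hx.2)
        have him : ((x : ℂ) + v * I).im = v := by simp
        rw [him, hv] at h3
        rw [mul_one_div, le_div_iff₀ (by (clear * -; positivity))]
        refine le_trans ?_ h3
        apply mul_le_mul_of_nonneg_left _ (norm_nonneg _)
        nlinarith only []
      have b1 := hbd (-n) (by rw [abs_neg, abs_of_nonneg hn0])
      have b2 := hbd n (abs_of_nonneg hn0)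
      rw [abs_of_nonneg (by linarith only [hab] : 0 ≤ b - a)] at b1 b2
      have e1 : (∫ y in (-(n:ℝ))..n, f (a + y * I)) - ∫ y in (-(n:ℝ))..n, f (b + y * I) =
          -I * ((∫ x in a..b, f (x + ((-(n:ℝ) : ℝ) : ℂ) * I)) -
            ∫ x in a..b, f (x + ((n:ℝ) : ℂ) * I)) := by
        simp only [smul_eq_mul] at hrect
        linear_combination I * hrect + ((∫ y in (-(n:ℝ))..n, f (a + y * I)) -
          (∫ y in (-(n:ℝ))..n, f (b + y * I))) * I_mul_I
      rw [e1, norm_mul, norm_neg, norm_I, one_mul]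
      refine (norm_sub_le _ _).trans ?_
      linarith only [b1, b2]
    · intro z hz
      rw [mem_reProdIm] at hz
      simp only at hz
      rw [uIcc_of_le hab] at hz
      exact (hc z hz.1.1 hz.1.2).continuousWithinAt
    · intro z hz
      have h1 := hz.1
      rw [mem_reProdIm] at h1
      simp only at h1
      rw [min_eq_left hab, max_eq_right hab] at h1
      exact hd z h1.1.1 h1.1.2 hz.2
  have h2 := (hlim a le_rfl hab).sub (hlim b hab le_rfl)
  have h3 := tendsto_nhds_unique h2 hdiff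
  exact sub_eq_zero.1 h3

lemma lorentz9 : ∫ y : ℝ, (9 + y ^ 2)⁻¹ = Real.pi / 3 := by
  have h1 := Measure.integral_comp_mul_left (fun y : ℝ => (1 + y ^ 2)⁻¹) (1/3 : ℝ)
  rw [integral_univ_inv_one_add_sq] at h1
  have h2 : ∀ y : ℝ, (9 + y ^ 2)⁻¹ = (1/9) * (1 + (1/3 * y) ^ 2)⁻¹ := by
    intro y
    have : (9 + y ^ 2) = 9 * (1 + (1/3 * y) ^ 2) := by ring
    rw [this, mul_inv]; norm_num
  simp_rw [h2]
  rw [integral_const_mul, h1]
  rw [smul_eq_mul, abs_of_pos (by norm_num)]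
  ring

lemma lorentz9_int : Integrable fun y : ℝ => (9 + y ^ 2)⁻¹ := by
  have h1 := (integrable_inv_one_add_sq).comp_mul_left' (R := (1/3 : ℝ)) (by norm_num)
  refine (h1.const_mul (1/9)).congr (Eventually.of_forall fun y => ?_)
  simp only
  have : (9 + y ^ 2) = 9 * (1 + (1/3 * y) ^ 2) := by ring
  rw [this, mul_inv]; norm_num

lemma ratio_formula (y : ℝ) : 4 / (4 - (1 + y * I) ^ 2) / (1 + y * I) -
    4 / (4 - (-1 + y * I) ^ 2) / (-1 + y * I) =
    (((3 * (1 + y ^ 2)⁻¹ - 3 * (9 + y ^ 2)⁻¹ : ℝ)) : ℂ) := by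
  have ne : ∀ c : ℝ, c ≠ 0 → (c : ℂ) + y * I ≠ 0 := by
    intro c hc h
    have := congrArg Complex.re h
    simp at this
    exact hc this
  have n1 : (1 : ℂ) + y * I ≠ 0 := by simpa using ne 1 one_ne_zero
  have n2 : (-1 : ℂ) + y * I ≠ 0 := by simpa using ne (-1) (by norm_num)
  have n3 : (3 : ℂ) + y * I ≠ 0 := by simpa using ne 3 (by norm_num)
  have n4 : (-3 : ℂ) + y * I ≠ 0 := by simpa using ne (-3) (by norm_num)
  have e1 : (4 : ℂ) - (1 + y * I) ^ 2 = -((-1 + y * I) * (3 + y * I)) := by ring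
  have e2 : (4 : ℂ) - (-1 + y * I) ^ 2 = -((-3 + y * I) * (1 + y * I)) := by ring
  have e3 : ((1 : ℂ) + y ^ 2) = -((1 + y * I) * (-1 + y * I)) := by
    linear_combination ((y : ℂ) ^ 2) * I_sq
  have e4 : ((9 : ℂ) + y ^ 2) = -((3 + y * I) * (-3 + y * I)) := by
    linear_combination ((y : ℂ) ^ 2) * I_sq
  push_cast
  rw [e1, e2, e3, e4]
  field_simp
  ring

/-- Cauchy's formula in the strip `|Re z| ≤ 1`. -/
lemma strip_cauchy {Φ : ℂ → ℂ} {C : ℝ} (hd : ∀ z : ℂ, |z.re| ≤ 1 → DifferentiableAt ℂ Φ z)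
    (hb : ∀ z : ℂ, |z.re| ≤ 1 → ‖Φ z‖ * (1 + |z.im|) ^ 2 ≤ C) :
    ∫ y : ℝ, (Φ (1 + y * I) / (1 + y * I) - Φ (-1 + y * I) / (-1 + y * I)) =
      2 * Real.pi * Φ 0 := by
  set E : ℂ → ℂ := fun z => Φ z - Φ 0 * (4 / (4 - z ^ 2)) with hE
  have hC : 0 ≤ C := le_trans (by (clear * -; positivity)) (hb 0 (by simp))
  have hfac : ∀ z : ℂ, (4 : ℂ) - z ^ 2 = (2 - z) * (2 + z) := fun z => by ring
  have hlow1 : ∀ z : ℂ, |z.re| ≤ 1 → 1 + |z.im| ≤ 2 * ‖2 - z‖ := by
    intro z hz
    have h1 := abs_re_le_norm (2 - z)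
    have h2 := abs_im_le_norm (2 - z)
    have h3 : (2 - z).re = 2 - z.re := by simp
    have h4 : (2 - z).im = -z.im := by simp
    rw [h3] at h1; rw [h4, abs_neg] at h2
    have h5 := le_abs_self (2 - z.re)
    have h6 := (abs_le.1 hz).2
    linarith only [h1, h2, h5, h6]
  have hlow2 : ∀ z : ℂ, |z.re| ≤ 1 → 1 + |z.im| ≤ 2 * ‖2 + z‖ := by
    intro z hz
    have h1 := abs_re_le_norm (2 + z)
    have h2 := abs_im_le_norm (2 + z)
    have h3 : (2 + z).re = 2 + z.re := by simp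
    have h4 : (2 + z).im = z.im := by simp
    rw [h3] at h1; rw [h4] at h2
    have h5 := le_abs_self (2 + z.re)
    have h6 := (abs_le.1 hz).1
    linarith only [h1, h2, h5, h6]
  have hne : ∀ z : ℂ, |z.re| ≤ 1 → (4 : ℂ) - z ^ 2 ≠ 0 := by
    intro z hz
    rw [hfac]
    have h1 := hlow1 z hz
    have h2 := hlow2 z hz
    have h3 := abs_nonneg z.im
    apply mul_ne_zero
    · exact norm_pos_iff.1 (by linarith only [h1, h3])
    · exact norm_pos_iff.1 (by linarith only [h2, h3])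
  have hEd : ∀ z : ℂ, |z.re| ≤ 1 → DifferentiableAt ℂ E z := by
    intro z hz
    refine (hd z hz).sub (DifferentiableAt.const_mul ?_ _)
    exact (differentiableAt_const _).div (by fun_prop) (hne z hz)
  have hE0 : E 0 = 0 := by simp [hE]
  have hEb : ∀ z : ℂ, |z.re| ≤ 1 → ‖E z‖ * (1 + |z.im|) ^ 2 ≤ C + ‖Φ 0‖ * 16 := by
    intro z hz
    have h1 := hlow1 z hz
    have h2 := hlow2 z hz
    have h3 := abs_nonneg z.im
    have h4 : ‖(4 : ℂ) / (4 - z ^ 2)‖ * (1 + |z.im|) ^ 2 ≤ 16 := by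
      rw [norm_div, hfac, norm_mul, div_mul_eq_mul_div, div_le_iff₀ (by
        apply mul_pos <;> linarith only [h1, h3, h2])]
      have h5 : ‖(4:ℂ)‖ = 4 := by simp
      rw [h5]
      nlinarith only [h1, h2, h3]
    calc ‖E z‖ * (1 + |z.im|) ^ 2 ≤ (‖Φ z‖ + ‖Φ 0‖ * ‖(4 : ℂ) / (4 - z ^ 2)‖) * (1 + |z.im|) ^ 2 := by
          gcongr
          rw [hE]
          refine (norm_sub_le _ _).trans ?_
          rw [norm_mul]
      _ = ‖Φ z‖ * (1 + |z.im|) ^ 2 + ‖Φ 0‖ * (‖(4 : ℂ) / (4 - z ^ 2)‖ * (1 + |z.im|) ^ 2) := by ring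
      _ ≤ _ := by
          gcongr
          exact hb z hz
  set D : ℂ → ℂ := dslope E 0 with hD
  have hDne : ∀ z : ℂ, z ≠ 0 → D z = E z / z := by
    intro z hz
    rw [hD, dslope_of_ne _ hz, slope_def_field, hE0, sub_zero, sub_zero]
  have hDc : ∀ z : ℂ, |z.re| ≤ 1 → ContinuousAt D z := by
    intro z hz
    by_cases h : z = 0
    · subst h
      exact continuousAt_dslope_same.2 (hEd 0 hz)
    · exact (continuousAt_dslope_of_ne h).2 (hEd z hz).continuousAt
  have hDd : ∀ z : ℂ, |z.re| ≤ 1 → z ≠ 0 → DifferentiableAt ℂ D z := by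
    intro z hz h
    exact (differentiableAt_dslope_of_ne h).2 (hEd z hz)
  obtain ⟨K, hK⟩ : ∃ K : ℝ, ∀ z : ℂ, |z.re| ≤ 1 → |z.im| ≤ 1 → ‖D z‖ ≤ K := by
    have hcomp : IsCompact (Icc (-1:ℝ) 1 ×ℂ Icc (-1:ℝ) 1) := isCompact_Icc.reProdIm isCompact_Icc
    obtain ⟨K, hK⟩ := hcomp.exists_bound_of_continuousOn (f := D) (fun z hz => by
      rw [mem_reProdIm] at hz
      exact (hDc z (abs_le.2 ⟨hz.1.1, hz.1.2⟩)).continuousWithinAt)
    refine ⟨K, fun z h1 h2 => hK z ?_⟩
    rw [mem_reProdIm]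
    exact ⟨abs_le.1 h1, abs_le.1 h2⟩
  have hDb : ∀ z : ℂ, |z.re| ≤ 1 → ‖D z‖ * (1 + |z.im|) ^ 2 ≤ |K| * 4 + (C + ‖Φ 0‖ * 16) := by
    intro z hz
    have h3 := abs_nonneg z.im
    have h7 : 0 ≤ C + ‖Φ 0‖ * 16 := by (clear * - hC; positivity)
    rcases le_total |z.im| 1 with h | h
    · have h4 := (hK z hz h).trans (le_abs_self K)
      have h5 : (1 + |z.im|) ^ 2 ≤ 4 := by nlinarith only [h3, h]
      calc ‖D z‖ * (1 + |z.im|) ^ 2 ≤ |K| * 4 := by (clear * - h4 h5; gcongr)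
        _ ≤ _ := by linarith only [h7]
    · have h4 : 1 ≤ ‖z‖ := h.trans (abs_im_le_norm z)
      have h5 : z ≠ 0 := by rintro rfl; simp at h4; norm_num at h4
      rw [hDne z h5, norm_div]
      have h6 : ‖E z‖ / ‖z‖ ≤ ‖E z‖ := div_le_self (norm_nonneg _) h4
      have h8 := abs_nonneg K
      calc ‖E z‖ / ‖z‖ * (1 + |z.im|) ^ 2 ≤ ‖E z‖ * (1 + |z.im|) ^ 2 := by (clear * - h h6; gcongr)
        _ ≤ C + ‖Φ 0‖ * 16 := hEb z hz
        _ ≤ _ := by linarith only [h8]
  have hshift := line_shift (f := D) (a := -1) (b := 1) (by norm_num) (S := {0}) (countable_singleton 0)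
    (fun z h1 h2 => hDc z (abs_le.2 ⟨h1, h2⟩))
    (fun z h1 h2 h3 => hDd z (abs_le.2 ⟨h1.le, h2.le⟩) h3)
    (fun z h1 h2 => hDb z (abs_le.2 ⟨h1, h2⟩))
  have hi : ∀ x : ℝ, |x| ≤ 1 → Integrable fun y : ℝ => D (x + y * I) := by
    intro x hx
    refine integrable_of_decay (Continuous.aestronglyMeasurable ?_)
      (D := |K| * 4 + (C + ‖Φ 0‖ * 16)) fun y => ?_
    · rw [continuous_iff_continuousAt]
      intro y
      exact ContinuousAt.comp (f := fun y : ℝ => (x + y * I : ℂ)) (g := D)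
        (hDc _ (by simpa using hx)) (by fun_prop)
    · simpa using hDb (x + y * I) (by simpa using hx)
  have hsub : ∫ y : ℝ, (D ((1:ℝ) + y * I) - D ((-1:ℝ) + y * I)) = 0 := by
    rw [integral_sub (hi 1 (by simp)) (hi (-1) (by simp)), hshift, sub_self]
  have hpt : ∀ y : ℝ, (Φ (1 + y * I) / (1 + y * I) - Φ (-1 + y * I) / (-1 + y * I)) =
      (D ((1:ℝ) + y * I) - D ((-1:ℝ) + y * I)) +
        Φ 0 * (((3 * (1 + y ^ 2)⁻¹ - 3 * (9 + y ^ 2)⁻¹ : ℝ)) : ℂ) := by
    intro y
    have ne : ∀ c : ℝ, c ≠ 0 → (c : ℂ) + y * I ≠ 0 := by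
      intro c hc h
      have := congrArg Complex.re h
      simp at this
      exact hc this
    have n1 : (((1:ℝ)) : ℂ) + y * I ≠ 0 := ne 1 one_ne_zero
    have n2 : (((-1:ℝ)) : ℂ) + y * I ≠ 0 := ne (-1) (by norm_num)
    rw [hDne _ n1, hDne _ n2, ← ratio_formula]
    simp only [hE]
    push_cast
    ring
  have hl : Integrable fun y : ℝ => Φ 0 * (((3 * (1 + y ^ 2)⁻¹ - 3 * (9 + y ^ 2)⁻¹ : ℝ)) : ℂ) := by
    refine Integrable.const_mul ?_ _
    exact ((integrable_inv_one_add_sq.const_mul 3).sub (lorentz9_int.const_mul 3)).ofReal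
  have hD2 : Integrable fun y : ℝ => D (((1:ℝ) : ℂ) + y * I) - D (((-1:ℝ) : ℂ) + y * I) :=
    (hi 1 (by simp)).sub (hi (-1) (by simp))
  simp_rw [hpt]
  rw [integral_add hD2 hl]
  have hsub' : ∫ y : ℝ, (D (((1:ℝ) : ℂ) + y * I) - D (((-1:ℝ) : ℂ) + y * I)) = 0 := hsub
  rw [hsub', zero_add, integral_const_mul, integral_complex_ofReal,
    integral_sub (integrable_inv_one_add_sq.const_mul 3) (lorentz9_int.const_mul 3),
    integral_const_mul, integral_const_mul, integral_univ_inv_one_add_sq, lorentz9]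
  push_cast
  ring

end MP069854


namespace MP069854
open Filter Topology Complex Set MeasureTheory
open scoped ContDiff

/-- a smooth step from `0` (for `u ≤ c`) to `1` (for `u ≥ c + 1/2`) -/
noncomputable def stepf (c : ℝ) (u : ℝ) : ℂ := ((Real.smoothTransition (2 * (u - c)) : ℝ) : ℂ)

lemma stepf_smooth (c : ℝ) : ContDiff ℝ ∞ (stepf c) := by
  unfold stepf
  exact Complex.ofRealCLM.contDiff.comp
    (Real.smoothTransition.contDiff.comp (contDiff_const.mul (contDiff_id.sub contDiff_const)))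

lemma stepf_zero {c u : ℝ} (h : u ≤ c) : stepf c u = 0 := by
  unfold stepf
  rw [Real.smoothTransition.zero_of_nonpos (by linarith only [h])]; simp

lemma stepf_one {c u : ℝ} (h : c + 1/2 ≤ u) : stepf c u = 1 := by
  unfold stepf
  rw [Real.smoothTransition.one_of_one_le (by linarith only [h])]; simp

lemma dstep_TF (c : ℝ) : TF (deriv (stepf c)) c (c + 1/2) := by
  refine ⟨(contDiff_infty_iff_deriv.1 (stepf_smooth c)).2, ?_⟩
  refine closure_minimal ?_ isClosed_Icc
  intro u hu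
  by_contra hcon
  apply hu
  rw [mem_Icc, not_and_or, not_le, not_le] at hcon
  rcases hcon with h | h
  · have : stepf c =ᶠ[𝓝 u] fun _ => 0 := by
      filter_upwards [Iio_mem_nhds h] with v hv
      exact stepf_zero (le_of_lt hv)
    rw [this.deriv_eq]; simp
  · have : stepf c =ᶠ[𝓝 u] fun _ => 1 := by
      filter_upwards [Ioi_mem_nhds h] with v hv
      exact stepf_one (le_of_lt hv)
    rw [this.deriv_eq]; simp

lemma dstep_G0 (c : ℝ) : G (deriv (stepf c)) 0 = 1 := by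
  unfold G
  have h1 : ∀ u : ℝ, deriv (stepf c) u * exp ((u : ℂ) * 0) = deriv (stepf c) u := by
    intro u; simp
  simp_rw [h1]
  have h2 : Integrable (deriv (stepf c)) :=
    (dstep_TF c).cont.integrable_of_hasCompactSupport (dstep_TF c).hcs
  have h3 := integral_of_hasDerivAt_of_tendsto (f := stepf c) (f' := deriv (stepf c)) (m := 0) (n := 1)
    (fun x => ((stepf_smooth c).differentiable (by simp) x).hasDerivAt) h2
    (by
      refine Tendsto.congr' ?_ tendsto_const_nhds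
      filter_upwards [eventually_le_atBot c] with u hu
      exact (stepf_zero hu).symm)
    (by
      refine Tendsto.congr' ?_ tendsto_const_nhds
      filter_upwards [eventually_ge_atTop (c + 1/2)] with u hu
      exact (stepf_one hu).symm)
  rw [h3]; ring

/-- plateau function, `1` on `[-1/2, 2k+1/2]` -/
noncomputable def g00 (k : ℕ) (u : ℝ) : ℂ := stepf (-1) u - stepf (2 * k + 1/2) u

lemma g00_TF (k : ℕ) : TF (g00 k) (-1) (2 * k + 1) := by
  refine ⟨(stepf_smooth _).sub (stepf_smooth _), ?_⟩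
  refine closure_minimal ?_ isClosed_Icc
  intro u hu
  have hk : (0:ℝ) ≤ k := Nat.cast_nonneg k
  by_contra hcon
  apply hu
  rw [mem_Icc, not_and_or, not_le, not_le] at hcon
  unfold g00
  rcases hcon with h | h
  · rw [stepf_zero h.le, stepf_zero (by linarith only [h]), sub_zero]
  · rw [stepf_one (by linarith only [h]), stepf_one (by linarith only [h]), sub_self]

lemma g00_one (k : ℕ) {u : ℝ} (h1 : 0 ≤ u) (h2 : u ≤ 2 * k) : g00 k u = 1 := by
  unfold g00
  rw [stepf_one (by linarith only [h1]), stepf_zero (by linarith only [h2]), sub_zero]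

lemma G_g00 (k : ℕ) (w : ℂ) : G (deriv (stepf (-1))) w - G (deriv (stepf (2 * k + 1/2))) w =
    -w * G (g00 k) w := by
  rw [← (g00_TF k).G_deriv]
  unfold G
  rw [← integral_sub ((dstep_TF (-1)).integrable_mul_exp w) ((dstep_TF _).integrable_mul_exp w)]
  refine integral_congr_ae (Eventually.of_forall fun u => ?_)
  simp only
  have : deriv (g00 k) u = deriv (stepf (-1)) u - deriv (stepf (2 * k + 1/2)) u := by
    have e : g00 k = fun u => stepf (-1) u - stepf (2 * k + 1/2) u := rfl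
    rw [e]
    exact deriv_sub ((stepf_smooth _).differentiable (by simp) u)
      ((stepf_smooth _).differentiable (by simp) u)
  rw [this]; ring

/-- the plateau function with phase -/
noncomputable def gal (k : ℕ) (α₀ : ℝ) (u : ℝ) : ℂ := exp (-(α₀ * u) * I) * g00 k u

lemma gal_TF (k : ℕ) (α₀ : ℝ) : TF (gal k α₀) (-1) (2 * k + 1) := by
  refine ⟨?_, ?_⟩
  · unfold gal
    refine ContDiff.mul ?_ (g00_TF k).smooth
    have h1 : ContDiff ℝ ∞ fun u : ℝ => (-((α₀ : ℂ) * (u : ℂ)) * I) := by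
      have : ContDiff ℝ ∞ fun u : ℝ => (u : ℂ) := Complex.ofRealCLM.contDiff
      exact ((contDiff_const.mul this).neg).mul contDiff_const
    exact h1.cexp
  · refine (closure_minimal ?_ (isClosed_tsupport (g00 k))).trans (g00_TF k).supp
    intro u hu
    exact subset_tsupport _ (right_ne_zero_of_mul (show exp (-(α₀ * u) * I) * g00 k u ≠ 0 from hu))

lemma G_gal (k : ℕ) (α₀ α : ℝ) : G (gal k α₀) (α * I) = G (g00 k) ((α - α₀ : ℝ) * I) := by
  unfold G gal
  refine integral_congr_ae (Eventually.of_forall fun u => ?_)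
  simp only
  have : exp ((u : ℂ) * ((α - α₀ : ℝ) * I)) = exp (-(α₀ * u) * I) * exp ((u : ℂ) * (α * I)) := by
    rw [← exp_add]; congr 1; push_cast; ring
  rw [this]; ring

lemma TF.decay_strip {g : ℝ → ℂ} {A B : ℝ} (h : TF g A B) (M : ℕ) : ∃ C : ℝ, 0 ≤ C ∧ ∀ z : ℂ,
    |z.re| ≤ 1 → ‖G g z‖ * (1 + |z.im|) ^ M ≤ C := by
  obtain ⟨C1, hC1, h1⟩ := h.decay M
  obtain ⟨C2, hC2, h2⟩ := h.refl.decay M
  refine ⟨C1 * Real.exp |B| + C2 * Real.exp |A|, by (clear * - hC1 hC2; positivity), ?_⟩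
  intro z hz
  have p1 : 0 ≤ C1 * Real.exp |B| := by (clear * - hC1; positivity)
  have p2 : 0 ≤ C2 * Real.exp |A| := by (clear * - hC2; positivity)
  rcases le_total 0 z.re with hr | hr
  · have := h1 z.re z.im hr
    rw [re_add_im] at this
    refine this.trans (le_trans ?_ (le_add_of_nonneg_right p2))
    gcongr
    rw [abs_of_nonneg hr] at hz
    calc B * z.re ≤ |B| * z.re := by gcongr; exact le_abs_self B
      _ ≤ |B| * 1 := by (clear * - hz; gcongr)
      _ = |B| := mul_one _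
  · have := h2 (-z.re) (-z.im) (by linarith only [hr])
    have e : ((-z.re : ℝ) : ℂ) + ((-z.im : ℝ) : ℂ) * I = -z := by
      apply Complex.ext <;> simp
    rw [e, TF.G_refl, neg_neg, abs_neg] at this
    refine this.trans (le_trans ?_ (le_add_of_nonneg_left p1))
    gcongr
    rw [abs_of_nonpos hr] at hz
    have h4 : -A ≤ |A| := neg_le_abs A
    calc -A * -z.re ≤ |A| * -z.re := by gcongr; linarith only [hr]
      _ ≤ |A| * 1 := by (clear * - hz; gcongr)
      _ = |A| := mul_one _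

/-- right end term -/
noncomputable def E1 (k : ℕ) (α₀ L t : ℝ) : ℂ :=
  ∫ y : ℝ, G (deriv (stepf (-1))) (1 + y * I) / (1 + y * I) *
    Z k t (1/2 + (1 + y * I + α₀ * I) / L)

/-- left end term -/
noncomputable def E2 (k : ℕ) (α₀ L t : ℝ) : ℂ :=
  ∫ y : ℝ, G (deriv (stepf (2 * k + 1/2))) (-1 + y * I) / (-1 + y * I) *
    Z k t (1/2 + (-1 + y * I + α₀ * I) / L)

section
variable {L : ℝ} (hL : 4 ≤ L)
include hL

lemma s_re (α₀ : ℝ) (z : ℂ) : (1/2 + (z + α₀ * I) / L : ℂ).re = 1/2 + z.re / L := by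
  have : (1/2 + (z + α₀ * I) / L : ℂ) = 1/2 + ((L⁻¹ : ℝ) : ℂ) * (z + α₀ * I) := by
    push_cast; ring
  rw [this, add_re, re_ofReal_mul]
  simp; ring

lemma s_im (α₀ : ℝ) (z : ℂ) : (1/2 + (z + α₀ * I) / L : ℂ).im = (z.im + α₀) / L := by
  have : (1/2 + (z + α₀ * I) / L : ℂ) = 1/2 + ((L⁻¹ : ℝ) : ℂ) * (z + α₀ * I) := by
    push_cast; ring
  rw [this, add_im, im_ofReal_mul]
  simp; ring

lemma s_range (α₀ : ℝ) {z : ℂ} (hz : |z.re| ≤ 1) : 1/4 ≤ (1/2 + (z + α₀ * I) / L : ℂ).re ∧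
    (1/2 + (z + α₀ * I) / L : ℂ).re ≤ 3/4 := by
  rw [s_re hL]
  have hL0 : 0 < L := by linarith only [hL]
  have h1 : |z.re / L| ≤ 1/4 := by
    rw [abs_div, abs_of_pos hL0, div_le_iff₀ hL0]; linarith only [hL, hz]
  have h2 := abs_le.1 h1
  constructor <;> linarith only [h2.1, h2.2, h2]

lemma Zs_diff (k : ℕ) (α₀ t : ℝ) {z : ℂ} (hz : |z.re| ≤ 1) :
    DifferentiableAt ℂ (fun z : ℂ => Z k t (1/2 + (z + α₀ * I) / L)) z := by
  have h := s_range hL α₀ hz
  exact DifferentiableAt.comp (g := Z k t) z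
    (Z_diff_strip k t (by linarith only [h.2, h])) (by fun_prop)

lemma Zs_bound (k : ℕ) : ∃ C : ℝ, 1 ≤ C ∧ ∀ (α₀ t : ℝ) (z : ℂ), 0 ≤ t → |z.re| ≤ 1 →
    ‖Z k t (1/2 + (z + α₀ * I) / L)‖ ≤ C * ((2 + |α₀| + t) ^ (2 * k) * (1 + |z.im|) ^ (2 * k)) := by
  obtain ⟨C, hC1, hC⟩ := Z_strip k
  refine ⟨C, hC1, ?_⟩
  intro α₀ t z ht hz
  have h := s_range hL α₀ hz
  refine (hC t _ ht h.1 h.2).trans ?_
  rw [s_im hL, ← mul_pow]
  have hL0 : 0 < L := by linarith only [hL]
  have h1 : |(z.im + α₀) / L| ≤ |z.im| + |α₀| := by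
    rw [abs_div, abs_of_pos hL0, div_le_iff₀ hL0]
    have := abs_add_le z.im α₀
    nlinarith only [abs_nonneg z.im, abs_nonneg α₀, hL, this]
  gcongr
  nlinarith only [abs_nonneg z.im, abs_nonneg α₀, ht, h1]

lemma prod_decay {g : ℝ → ℂ} {A B : ℝ} (hg : TF g A B) (k : ℕ) (α₀ t : ℝ) (ht : 0 ≤ t) :
    ∃ C : ℝ, ∀ z : ℂ, |z.re| ≤ 1 →
      ‖G g z * Z k t (1/2 + (z + α₀ * I) / L)‖ * (1 + |z.im|) ^ 2 ≤ C := by
  obtain ⟨C1, hC1, h1⟩ := hg.decay_strip (2 + 2 * k)
  obtain ⟨C2, hC2, h2⟩ := Zs_bound hL k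
  refine ⟨C1 * (C2 * (2 + |α₀| + t) ^ (2 * k)), ?_⟩
  intro z hz
  rw [norm_mul]
  have e1 := h1 z hz
  have e2 := h2 α₀ t z ht hz
  calc ‖G g z‖ * ‖Z k t (1/2 + (z + α₀ * I) / L)‖ * (1 + |z.im|) ^ 2
      ≤ ‖G g z‖ * (C2 * ((2 + |α₀| + t) ^ (2 * k) * (1 + |z.im|) ^ (2 * k))) * (1 + |z.im|) ^ 2 := by
        (clear * - e2; gcongr)
    _ = (‖G g z‖ * (1 + |z.im|) ^ (2 + 2 * k)) * (C2 * (2 + |α₀| + t) ^ (2 * k)) := by ring
    _ ≤ _ := by (clear * - ht hC2 e1; gcongr)

/-- **Representation of a shifted value.** -/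
theorem rep (k : ℕ) (α₀ t : ℝ) (ht : 0 ≤ t) :
    2 * Real.pi * Z k t (1/2 + (α₀ / L : ℝ) * I) =
      JJ k (gal k α₀) (fun _ _ => (1:ℂ)) L t + E1 k α₀ L t - E2 k α₀ L t := by
  have hL0 : 0 < L := by linarith only [hL]
  set Zs : ℂ → ℂ := fun z => Z k t (1/2 + (z + α₀ * I) / L) with hZs
  set G1 := G (deriv (stepf (-1))) with hG1
  set G2 := G (deriv (stepf (2 * k + 1/2))) with hG2
  obtain ⟨C1, hC1⟩ := prod_decay hL (dstep_TF (-1)) k α₀ t ht
  obtain ⟨C2, hC2⟩ := prod_decay hL (dstep_TF (2 * k + 1/2)) k α₀ t ht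
  obtain ⟨C0, hC0⟩ := prod_decay hL (g00_TF k) k α₀ t ht
  have d1 : ∀ z : ℂ, |z.re| ≤ 1 → DifferentiableAt ℂ (fun z => G1 z * Zs z) z := fun z hz =>
    ((dstep_TF (-1)).G_differentiable z).mul (Zs_diff hL k α₀ t hz)
  have d2 : ∀ z : ℂ, |z.re| ≤ 1 → DifferentiableAt ℂ (fun z => G2 z * Zs z) z := fun z hz =>
    ((dstep_TF (2 * k + 1/2)).G_differentiable z).mul (Zs_diff hL k α₀ t hz)
  have d0 : ∀ z : ℂ, |z.re| ≤ 1 → DifferentiableAt ℂ (fun z => G (g00 k) z * Zs z) z := fun z hz =>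
    ((g00_TF k).G_differentiable z).mul (Zs_diff hL k α₀ t hz)
  have key := strip_cauchy (Φ := fun z => G1 z * Zs z) (C := C1) d1 hC1
  have hz0 : Zs 0 = Z k t (1/2 + (α₀ / L : ℝ) * I) := by
    simp only [hZs]; congr 1; push_cast; ring
  have hG10 : G1 0 = 1 := dstep_G0 _
  beta_reduce at key
  rw [hG10, one_mul, hz0] at key
  rw [← key]
  -- integrability of the pieces
  have hcont : ∀ (f : ℂ → ℂ) (x : ℝ), |x| ≤ 1 → (∀ z : ℂ, |z.re| ≤ 1 → DifferentiableAt ℂ f z) →
      Continuous fun y : ℝ => f (x + y * I) := by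
    intro f x hx hf
    rw [continuous_iff_continuousAt]
    intro y
    exact ContinuousAt.comp (f := fun y : ℝ => (x + y * I : ℂ)) (g := f)
      (hf _ (by simpa using hx)).continuousAt (by fun_prop)
  have hint : ∀ (f : ℂ → ℂ) (x C : ℝ), |x| ≤ 1 → (∀ z : ℂ, |z.re| ≤ 1 → DifferentiableAt ℂ f z) →
      (∀ z : ℂ, |z.re| ≤ 1 → ‖f z‖ * (1 + |z.im|) ^ 2 ≤ C) → Integrable fun y : ℝ => f (x + y * I) := by
    intro f x C hx hf hb
    refine integrable_of_decay (hcont f x hx hf).aestronglyMeasurable (D := C) fun y => ?_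
    simpa using hb (x + y * I) (by simpa using hx)
  have hdivint : ∀ (f : ℂ → ℂ) (x C : ℝ), |x| = 1 → (∀ z : ℂ, |z.re| ≤ 1 → DifferentiableAt ℂ f z) →
      (∀ z : ℂ, |z.re| ≤ 1 → ‖f z‖ * (1 + |z.im|) ^ 2 ≤ C) →
      Integrable fun y : ℝ => f (x + y * I) / (x + y * I) := by
    intro f x C hx hf hb
    have hne : ∀ y : ℝ, 1 ≤ ‖(x : ℂ) + y * I‖ := by
      intro y
      have := abs_re_le_norm ((x : ℂ) + y * I)
      have h2 : ((x : ℂ) + y * I).re = x := by simp
      rw [h2, hx] at this; exact this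
    refine integrable_of_decay (D := C) ?_ fun y => ?_
    · refine Continuous.aestronglyMeasurable ?_
      refine (hcont f x hx.le hf).div (by fun_prop) fun y h => ?_
      have := hne y
      rw [h, norm_zero] at this
      linarith only [this]
    · refine le_trans ?_ (hb (x + y * I) (by simpa using hx.le))
      have him : ((x : ℂ) + y * I).im = y := by simp
      rw [him, norm_div]
      gcongr
      exact div_le_self (norm_nonneg _) (hne y)
  have i1 : Integrable fun y : ℝ => G1 (1 + y * I) * Zs (1 + y * I) / (1 + y * I) := by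
    simpa using hdivint (fun z => G1 z * Zs z) 1 C1 (by simp) d1 hC1
  have i1' : Integrable fun y : ℝ => G1 (-1 + y * I) * Zs (-1 + y * I) / (-1 + y * I) := by
    simpa using hdivint (fun z => G1 z * Zs z) (-1) C1 (by simp) d1 hC1
  have i2 : Integrable fun y : ℝ => G2 (-1 + y * I) * Zs (-1 + y * I) / (-1 + y * I) := by
    simpa using hdivint (fun z => G2 z * Zs z) (-1) C2 (by simp) d2 hC2
  have i0 : Integrable fun y : ℝ => G (g00 k) (-1 + y * I) * Zs (-1 + y * I) := by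
    simpa using hint (fun z => G (g00 k) z * Zs z) (-1) C0 (by simp) d0 hC0
  have hE1 : E1 k α₀ L t = ∫ y : ℝ, G1 (1 + y * I) * Zs (1 + y * I) / (1 + y * I) := by
    unfold E1
    refine integral_congr_ae (Eventually.of_forall fun y => ?_)
    simp only [hZs, hG1]; ring
  have hE2 : E2 k α₀ L t = ∫ y : ℝ, G2 (-1 + y * I) * Zs (-1 + y * I) / (-1 + y * I) := by
    unfold E2
    refine integral_congr_ae (Eventually.of_forall fun y => ?_)
    simp only [hZs, hG2]; ring
  have hsplit : ∫ y : ℝ, G1 (-1 + y * I) * Zs (-1 + y * I) / (-1 + y * I) =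
      (∫ y : ℝ, G2 (-1 + y * I) * Zs (-1 + y * I) / (-1 + y * I)) -
        ∫ y : ℝ, G (g00 k) (-1 + y * I) * Zs (-1 + y * I) := by
    rw [← integral_sub i2 i0]
    refine integral_congr_ae (Eventually.of_forall fun y => ?_)
    simp only
    have hne : (-1 : ℂ) + y * I ≠ 0 := by
      intro h
      have := congrArg Complex.re h
      simp at this
    have h1 := G_g00 k (-1 + y * I)
    have h2 : G1 (-1 + y * I) = G2 (-1 + y * I) - (-1 + y * I) * G (g00 k) (-1 + y * I) := by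
      rw [hG1, hG2]; linear_combination h1
    rw [h2]; field_simp
  have hshift := line_shift (f := fun z => G (g00 k) z * Zs z) (a := -1) (b := 0) (C := C0)
    (by norm_num) (S := ∅) countable_empty
    (fun z h1 h2 => (d0 z (abs_le.2 ⟨h1, by linarith only [h2]⟩)).continuousAt)
    (fun z h1 h2 _ => d0 z (abs_le.2 ⟨h1.le, by linarith only [h1, h2]⟩))
    (fun z h1 h2 => hC0 z (abs_le.2 ⟨h1, by linarith only [h2]⟩))
  have hJ : JJ k (gal k α₀) (fun _ _ => (1:ℂ)) L t =
      ∫ y : ℝ, G (g00 k) (((0:ℝ) : ℂ) + y * I) * Zs (((0:ℝ) : ℂ) + y * I) := by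
    unfold JJ
    rw [← integral_add_right_eq_self (μ := volume) _ α₀]
    refine integral_congr_ae (Eventually.of_forall fun y => ?_)
    simp only [hZs]
    rw [G_gal, mul_one]
    congr 2
    · push_cast; ring
    · push_cast; ring
  rw [integral_sub i1 i1', hE1, hE2, hJ, hsplit, ← hshift]
  have e : ∀ y : ℝ, (((-1:ℝ)) : ℂ) + y * I = -1 + y * I := fun y => by push_cast; ring
  simp only [e]
  ring

end

end MP069854


namespace MP069854
open Filter Topology Complex Set MeasureTheory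
open scoped ContDiff

/-- one-sided kernels -/
structure KN (κ : ℝ) (M : ℕ) (D : ℝ) (H : ℂ → ℂ) : Prop where
  diff : ∀ w : ℂ, 1 ≤ w.re → DifferentiableAt ℂ H w
  bd : ∀ w : ℂ, 1 ≤ w.re → ‖H w‖ * ‖w‖ ^ M ≤ D * Real.exp (-κ * w.re)

lemma KN.D0 {κ : ℝ} {M : ℕ} {D : ℝ} {H : ℂ → ℂ} (h : KN κ M D H) : 0 ≤ D := by
  have h1 := h.bd 1 (by simp)
  have h2 : 0 ≤ D * Real.exp (-κ * (1:ℂ).re) := le_trans (by (clear * -; positivity)) h1
  exact nonneg_of_mul_nonneg_left h2 (Real.exp_pos _)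

lemma KN.of_TF {g : ℝ → ℂ} {A B κ : ℝ} (hg : TF g A B) (hB : B ≤ -κ) (M : ℕ) :
    ∃ C : ℝ, 0 ≤ C ∧ ∀ a : ℝ, KN κ M (C * (1 + |a|) ^ M) (fun w => G g (w - a * I) / (w - a * I)) := by
  obtain ⟨C, hC, h⟩ := TF.G_bound_right M hg
  refine ⟨C, hC, fun a => ⟨?_, ?_⟩⟩
  · intro w hw
    have hne : w - a * I ≠ 0 := by
      intro h
      have := congrArg Complex.re h
      simp at this
      linarith only [hw, this]
    have d1 : DifferentiableAt ℂ (fun w : ℂ => w - a * I) w := by fun_prop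
    exact ((hg.G_differentiable _).comp w d1).div d1 hne
  · intro w hw
    have hre : (w - a * I).re = w.re := by simp
    have h1 : 1 ≤ ‖w - a * I‖ := by
      have := abs_re_le_norm (w - a * I)
      rw [hre] at this
      exact hw.trans ((le_abs_self _).trans this)
    have h2 := h (w - a * I) (by rw [hre]; linarith only [hw])
    rw [hre] at h2
    have h3 : ‖w‖ ≤ (1 + |a|) * ‖w - a * I‖ := by
      have h4 : w = (w - a * I) + a * I := by ring
      have h5 : ‖w‖ ≤ ‖w - a * I‖ + |a| := by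
        conv_lhs => rw [h4]
        refine (norm_add_le _ _).trans ?_
        simp
      nlinarith only [abs_nonneg a, h1, h5]
    have h6 : Real.exp (B * w.re) ≤ Real.exp (-κ * w.re) := by
      apply Real.exp_le_exp.2
      exact mul_le_mul_of_nonneg_right hB (by linarith only [hw])
    rw [norm_div]
    calc ‖G g (w - a * I)‖ / ‖w - a * I‖ * ‖w‖ ^ M
        ≤ ‖G g (w - a * I)‖ * ((1 + |a|) * ‖w - a * I‖) ^ M := by
          gcongr
          exact div_le_self (norm_nonneg _) h1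
      _ = (1 + |a|) ^ M * (‖w - a * I‖ ^ M * ‖G g (w - a * I)‖) := by rw [mul_pow]; ring
      _ ≤ (1 + |a|) ^ M * (C * Real.exp (B * w.re)) := by (clear * - h2; gcongr)
      _ ≤ (1 + |a|) ^ M * (C * Real.exp (-κ * w.re)) := by (clear * - hC h6; gcongr)
      _ = _ := by ring

section
variable {k : ℕ} {κ : ℝ} {Ψ : ℝ → ℂ → ℂ}

lemma Y_facts (k : ℕ) {T : ℝ} (hT : Real.exp 4 ≤ T) :
    0 < T ∧ 4 ≤ Real.log T ∧ 1 ≤ Real.exp (Real.log T / (2 * k + 2)) ∧
    Real.exp (Real.log T / (2 * k + 2)) ^ (2 * k + 2) = T ∧ Real.log T ^ 2 ≤ 2 * T := by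
  have hT0 : 0 < T := lt_of_lt_of_le (Real.exp_pos 4) hT
  have hL : 4 ≤ Real.log T := by rw [Real.le_log_iff_exp_le hT0]; exact hT
  refine ⟨hT0, hL, Real.one_le_exp (by (clear * - hL; positivity)), ?_, ?_⟩
  · rw [← Real.exp_nat_mul]
    push_cast
    rw [mul_div_cancel₀ _ (by (clear * -; positivity)), Real.exp_log hT0]
  · have h1 := Real.quadratic_le_exp_of_nonneg (show 0 ≤ Real.log T by linarith only [hL])
    rw [Real.exp_log hT0] at h1
    nlinarith only [hL, h1]

lemma Psi_bound2 (hΨ : Fam κ Ψ) : ∃ (C : ℝ) (a : ℕ), 0 ≤ C ∧ ∀ (t T : ℝ) (s : ℂ), 1/2 ≤ s.re →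
    s.re ≤ 2 → 2 ≤ t → t ≤ T → 2 * |s.im| ≤ t →
    ‖Ψ t s‖ ≤ C * (1 + |s.im|) ^ a * Real.exp (κ * (s.re - 1/2) * Real.log T) := by
  obtain ⟨C, a, hC, h⟩ := hΨ.approx
  refine ⟨C + 1, a, by linarith only [hC], ?_⟩
  intro t T s h1 h2 h3 h4 h5
  have e1 := h t s h1 h2 h3 h5
  have e2 := exp_ell_le (c := s.re) hΨ.κ0 (by linarith only [h3] : 0 < t) h4 h1
  have e7 := norm_exp_ell κ t s.re s rfl
  have e8 : 1 ≤ (1 + |s.im|) ^ a := one_le_pow₀ (by linarith only [abs_nonneg s.im])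
  have e10 := norm_sub_norm_le (Ψ t s) (exp (κ * ell t * (s - 1/2)))
  rw [e7] at e10
  have e11 : C * (1 + |s.im|) ^ a * Real.exp (κ * ell t * (s.re - 1/2)) / t ≤
      C * (1 + |s.im|) ^ a * Real.exp (κ * ell t * (s.re - 1/2)) :=
    div_le_self (by (clear * - hC; positivity)) (by linarith only [h3])
  calc ‖Ψ t s‖ ≤ C * (1 + |s.im|) ^ a * Real.exp (κ * ell t * (s.re - 1/2)) +
        Real.exp (κ * ell t * (s.re - 1/2)) := by linarith only [e1, e10, e11]
    _ ≤ C * (1 + |s.im|) ^ a * Real.exp (κ * ell t * (s.re - 1/2)) +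
        (1 + |s.im|) ^ a * Real.exp (κ * ell t * (s.re - 1/2)) := by
        have := mul_le_mul_of_nonneg_right e8 (Real.exp_pos (κ * ell t * (s.re - 1/2))).le
        linarith only [this]
    _ = (C + 1) * (1 + |s.im|) ^ a * Real.exp (κ * ell t * (s.re - 1/2)) := by ring
    _ ≤ _ := by (clear * - hC e2; gcongr)

/-- **One-sided kernels see nothing** (truncated version). -/
lemma negl (k : ℕ) (hΨ : Fam κ Ψ) : ∃ (C : ℝ) (M₀ : ℕ), 0 ≤ C ∧ ∀ (M : ℕ) (H : ℂ → ℂ) (D : ℝ),
    M = M₀ → KN κ M D H → ∀ t T : ℝ, Real.exp 4 ≤ T → 2 * Real.exp (Real.log T / (2 * k + 2)) ≤ t →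
      t ≤ T →
      ‖∫ y in (-Real.exp (Real.log T / (2 * k + 2)))..Real.exp (Real.log T / (2 * k + 2)),
        H (Real.log T * ((1/2 + 1 / Real.log T : ℝ) + y * I - 1/2)) *
          Ψ t ((1/2 + 1 / Real.log T : ℝ) + y * I) * Z k t ((1/2 + 1 / Real.log T : ℝ) + y * I)‖ ≤
      C * D / Real.log T ^ 2 := by
  obtain ⟨C1, a, hC1, h1⟩ := Psi_bound2 hΨ
  obtain ⟨C3, hC3, h3⟩ := Z_box k
  obtain ⟨C4, hC4, h4⟩ := Z_right k (c := 3/2) (by norm_num)
  set M₀ : ℕ := (2 * k + 2) * (2 * k + 1) + a + 2 with hM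
  refine ⟨2 ^ M₀ * C1 * C4 * Real.pi + 2 * (2 ^ a * C1 * (C3 * 4 ^ (2 * k)) * 2), M₀, by (clear * - hC1 hC3 hC4; positivity), ?_⟩
  rintro M H D rfl hH t T hT ht htT
  have hD := hH.D0
  obtain ⟨hT0, hL4, hY1, hYT, hLT⟩ := Y_facts k hT
  set L := Real.log T with hLdef
  set Y := Real.exp (L / (2 * k + 2)) with hY
  set c0 : ℝ := 1/2 + 1 / L with hc0
  have hL0 : 0 < L := by linarith only [hL4]
  have hc0a : 1/2 ≤ c0 := by rw [hc0]; have : 0 < 1 / L := by (clear * - hL4; positivity)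
                             linarith only [this]
  have hc0b : c0 ≤ 3/4 := by
    rw [hc0]
    have : 1 / L ≤ 1/4 := by rw [div_le_div_iff₀ hL0 (by norm_num)]; linarith only [hL4]
    linarith only [this]
  have ht2 : 2 ≤ t := by linarith only [ht, hY1]
  set f : ℂ → ℂ := fun s => H (L * (s - 1/2)) * Ψ t s * Z k t s with hf
  have hwre : ∀ s : ℂ, ((L : ℂ) * (s - 1/2)).re = L * (s.re - 1/2) := by
    intro s; rw [re_ofReal_mul]; simp
  have hwim : ∀ s : ℂ, ((L : ℂ) * (s - 1/2)).im = L * s.im := by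
    intro s; rw [im_ofReal_mul]; simp
  have hw1 : ∀ s : ℂ, c0 ≤ s.re → 1 ≤ ((L : ℂ) * (s - 1/2)).re := by
    intro s hs
    rw [hwre]
    have : L * (1 / L) ≤ L * (s.re - 1/2) := by
      apply mul_le_mul_of_nonneg_left _ hL0.le
      rw [hc0] at hs; linarith only [hs]
    rwa [mul_one_div_cancel hL0.ne'] at this
  -- the product of kernel and family
  have hHΨ : ∀ s : ℂ, c0 ≤ s.re → s.re ≤ 2 → 2 * |s.im| ≤ t →
      ‖H (L * (s - 1/2)) * Ψ t s‖ * ‖(L : ℂ) * (s - 1/2)‖ ^ M₀ ≤ D * C1 * (1 + |s.im|) ^ a := by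
    intro s hs1 hs2 hs3
    have e1 := h1 t T s (by linarith only [hc0a, hs1]) hs2 ht2 htT hs3
    have e2 := hH.bd (L * (s - 1/2)) (hw1 s hs1)
    rw [hwre] at e2
    rw [norm_mul]
    have e3 : Real.exp (-κ * (L * (s.re - 1/2))) * Real.exp (κ * (s.re - 1/2) * L) = 1 := by
      rw [← Real.exp_add, ← Real.exp_zero]; congr 1; ring
    calc ‖H (L * (s - 1/2))‖ * ‖Ψ t s‖ * ‖(L : ℂ) * (s - 1/2)‖ ^ M₀
        = (‖H (L * (s - 1/2))‖ * ‖(L : ℂ) * (s - 1/2)‖ ^ M₀) * ‖Ψ t s‖ := by ring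
      _ ≤ (D * Real.exp (-κ * (L * (s.re - 1/2)))) *
          (C1 * (1 + |s.im|) ^ a * Real.exp (κ * (s.re - 1/2) * L)) := by (clear * - hD e1 e2; gcongr)
      _ = D * C1 * (1 + |s.im|) ^ a *
          (Real.exp (-κ * (L * (s.re - 1/2))) * Real.exp (κ * (s.re - 1/2) * L)) := by ring
      _ = _ := by rw [e3, mul_one]
  -- horizontal edges
  have hedge : ∀ x v : ℝ, c0 ≤ x → x ≤ 3/2 → |v| = Y →
      ‖f (x + v * I)‖ ≤ 2 ^ a * C1 * (C3 * 4 ^ (2 * k)) * 2 * D / L ^ 2 := by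
    intro x v hx1 hx2 hv
    have hre : ((x : ℂ) + v * I).re = x := by simp
    have him : ((x : ℂ) + v * I).im = v := by simp
    have e1 := hHΨ (x + v * I) (by rw [hre]; exact hx1) (by rw [hre]; linarith only [hx2])
      (by rw [him, hv]; exact ht)
    rw [him, hv] at e1
    have e2 := h3 t (x + v * I) (by linarith only [ht, hY1]) (by rw [hre]; linarith only [hc0a, hx1]) (by rw [hre]; linarith only [hx2])
      (by rw [him, hv]; linarith only [ht, hY1])
    rw [him, hv] at e2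
    have e3 : Y ≤ ‖(L : ℂ) * ((x : ℂ) + v * I - 1/2)‖ := by
      have e4 := abs_im_le_norm ((L : ℂ) * ((x : ℂ) + v * I - 1/2))
      rw [hwim, him, abs_mul, hv, abs_of_pos hL0] at e4
      nlinarith only [hL4, hY1, e4]
    have e5 : (2 + Y + t) ^ (2 * k) ≤ 4 ^ (2 * k) * T ^ (2 * k) := by
      rw [← mul_pow]
      apply pow_le_pow_left₀ (by linarith only [ht, hY1])
      linarith only [htT, ht, hY1]
    have e6 : ‖H (L * ((x : ℂ) + v * I - 1/2)) * Ψ t (x + v * I)‖ * Y ^ M₀ ≤ D * C1 * (2 * Y) ^ a := by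
      refine le_trans ?_ (e1.trans ?_)
      · (clear * - e3; gcongr)
      · gcongr; linarith only [hY1]
    have hYM : Y ^ M₀ = T ^ (2 * k + 1) * Y ^ a * Y ^ 2 := by
      rw [hM, pow_add, pow_add, pow_mul, hYT]
    have e7 : ‖H (L * ((x : ℂ) + v * I - 1/2)) * Ψ t (x + v * I)‖ * T ^ (2 * k + 1) ≤
        D * C1 * 2 ^ a := by
      have hYa : 0 < Y ^ a := by positivity
      have e8 : ‖H (L * ((x : ℂ) + v * I - 1/2)) * Ψ t (x + v * I)‖ * T ^ (2 * k + 1) * Y ^ a ≤
          D * C1 * 2 ^ a * Y ^ a := by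
        have hY2 : 1 ≤ Y ^ 2 := one_le_pow₀ hY1
        calc _ ≤ ‖H (L * ((x : ℂ) + v * I - 1/2)) * Ψ t (x + v * I)‖ * T ^ (2 * k + 1) * Y ^ a *
              Y ^ 2 := le_mul_of_one_le_right (by (clear * - hT0; positivity)) hY2
          _ = ‖H (L * ((x : ℂ) + v * I - 1/2)) * Ψ t (x + v * I)‖ * Y ^ M₀ := by rw [hYM]; ring
          _ ≤ D * C1 * (2 * Y) ^ a := e6
          _ = _ := by rw [mul_pow]; ring
      exact le_of_mul_le_mul_right e8 hYa
    have e9 : ‖f (x + v * I)‖ * T ≤ 2 ^ a * C1 * (C3 * 4 ^ (2 * k)) * D := by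
      rw [hf]
      simp only
      rw [norm_mul]
      calc ‖H (L * ((x : ℂ) + v * I - 1/2)) * Ψ t (x + v * I)‖ * ‖Z k t (x + v * I)‖ * T
          ≤ ‖H (L * ((x : ℂ) + v * I - 1/2)) * Ψ t (x + v * I)‖ *
            (C3 * (4 ^ (2 * k) * T ^ (2 * k))) * T := by
            gcongr; exact e2.trans (by (clear * - hC3 e5; gcongr))
        _ = (‖H (L * ((x : ℂ) + v * I - 1/2)) * Ψ t (x + v * I)‖ * T ^ (2 * k + 1)) *
            (C3 * 4 ^ (2 * k)) := by ring
        _ ≤ (D * C1 * 2 ^ a) * (C3 * 4 ^ (2 * k)) := by (clear * - hC3 e7; gcongr)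
        _ = _ := by ring
    rw [le_div_iff₀ (by positivity)]
    calc ‖f (x + v * I)‖ * L ^ 2 ≤ ‖f (x + v * I)‖ * (2 * T) := by (clear * - hLT; gcongr)
      _ = 2 * (‖f (x + v * I)‖ * T) := by ring
      _ ≤ 2 * (2 ^ a * C1 * (C3 * 4 ^ (2 * k)) * D) := by (clear * - e9; gcongr)
      _ = _ := by ring
  -- the right edge
  have hright : ‖∫ y in (-Y)..Y, f ((3/2 : ℝ) + y * I)‖ ≤ 2 ^ M₀ * C1 * C4 * Real.pi * D / L ^ 2 := by
    rw [intervalIntegral.integral_of_le (by linarith only [hY1])]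
    have hfin : 2 ^ M₀ * C1 * C4 * Real.pi * D / L ^ 2 =
        ∫ y : ℝ, 2 ^ M₀ * C1 * C4 * D / L ^ 2 * (1 + y ^ 2)⁻¹ := by
      rw [integral_const_mul, integral_univ_inv_one_add_sq]; ring
    rw [hfin]
    refine (norm_integral_le_of_norm_le
      (g := fun y => 2 ^ M₀ * C1 * C4 * D / L ^ 2 * (1 + y ^ 2)⁻¹)
      ((integrable_inv_one_add_sq.const_mul _).integrableOn) ?_).trans ?_
    · filter_upwards [self_mem_ae_restrict measurableSet_Ioc] with y hy
      have hyY : |y| ≤ Y := abs_le.2 ⟨hy.1.le, hy.2⟩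
      have hre : (((3/2 : ℝ) : ℂ) + y * I).re = 3/2 := by simp
      have him : (((3/2 : ℝ) : ℂ) + y * I).im = y := by simp
      have e1 := hHΨ ((3/2 : ℝ) + y * I) (by rw [hre]; linarith only [hc0b]) (by rw [hre]; norm_num)
        (by rw [him]; linarith only [ht, hyY])
      rw [him] at e1
      have e2 := h4 t y
      have e3 : L * (1 + |y|) ≤ 2 * ‖(L : ℂ) * (((3/2 : ℝ) : ℂ) + y * I - 1/2)‖ := by
        have e4 := abs_im_le_norm ((L : ℂ) * (((3/2 : ℝ) : ℂ) + y * I - 1/2))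
        have e5 := abs_re_le_norm ((L : ℂ) * (((3/2 : ℝ) : ℂ) + y * I - 1/2))
        rw [hwim, him, abs_mul, abs_of_pos hL0] at e4
        rw [hwre, hre, abs_of_pos (by (clear * - hL4; positivity))] at e5
        linarith only [e4, e5]
      set N1 := ‖H (L * (((3/2 : ℝ) : ℂ) + y * I - 1/2)) * Ψ t (((3/2 : ℝ) : ℂ) + y * I)‖ with hN1
      have e6 : N1 * (L * (1 + |y|)) ^ M₀ ≤ 2 ^ M₀ * (D * C1 * (1 + |y|) ^ a) := by
        calc N1 * (L * (1 + |y|)) ^ M₀ ≤ N1 * (2 * ‖(L : ℂ) * (((3/2 : ℝ) : ℂ) + y * I - 1/2)‖) ^ M₀ := by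
              (clear * - hL4 e3; gcongr)
          _ = 2 ^ M₀ * (N1 * ‖(L : ℂ) * (((3/2 : ℝ) : ℂ) + y * I - 1/2)‖ ^ M₀) := by
              rw [mul_pow]; ring
          _ ≤ _ := by (clear * - e1; gcongr)
      have e7 : N1 * L ^ 2 * (1 + |y|) ^ 2 ≤ 2 ^ M₀ * (D * C1) := by
        have hya : 0 < (1 + |y|) ^ a := by (clear * -; positivity)
        have e8 : N1 * L ^ 2 * (1 + |y|) ^ 2 * (1 + |y|) ^ a ≤ 2 ^ M₀ * (D * C1) * (1 + |y|) ^ a := by
          have hLM : L ^ 2 ≤ L ^ M₀ := pow_le_pow_right₀ (by linarith only [hL4]) (by (clear * -; omega))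
          have hyM : (1 + |y|) ^ 2 * (1 + |y|) ^ a ≤ (1 + |y|) ^ M₀ := by
            rw [← pow_add]
            exact pow_le_pow_right₀ (by linarith only [abs_nonneg y]) (by omega)
          calc _ = N1 * (L ^ 2 * ((1 + |y|) ^ 2 * (1 + |y|) ^ a)) := by ring
            _ ≤ N1 * (L ^ M₀ * (1 + |y|) ^ M₀) := by (clear * - hL4 hLM hyM; gcongr)
            _ = N1 * (L * (1 + |y|)) ^ M₀ := by rw [mul_pow]
            _ ≤ _ := e6
            _ = _ := by ring
        exact le_of_mul_le_mul_right e8 hya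
      have e10 : 1 + y ^ 2 ≤ (1 + |y|) ^ 2 := by nlinarith only [abs_nonneg y, sq_abs y]
      rw [← div_eq_mul_inv, le_div_iff₀ (by (clear * -; positivity)), le_div_iff₀ (by (clear * - hL4; positivity))]
      have e11 : ‖f (((3/2 : ℝ) : ℂ) + y * I)‖ ≤ N1 * C4 := by
        rw [hf]; simp only; rw [norm_mul]; (clear * - e2; gcongr)
      calc ‖f (((3/2 : ℝ) : ℂ) + y * I)‖ * (1 + y ^ 2) * L ^ 2 ≤ (N1 * C4) * (1 + |y|) ^ 2 * L ^ 2 := by
            (clear * - hC4 hL4 e10 e11; gcongr)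
        _ = C4 * (N1 * L ^ 2 * (1 + |y|) ^ 2) := by ring
        _ ≤ C4 * (2 ^ M₀ * (D * C1)) := by (clear * - hC4 e7; gcongr)
        _ = _ := by ring
    · refine setIntegral_le_integral (integrable_inv_one_add_sq.const_mul _) ?_
      exact Eventually.of_forall fun y => by (clear * - hC1 hC4 hD hL4; positivity)
  -- rectangle
  have hrect := Complex.integral_boundary_rect_eq_zero_of_differentiableOn f
    (⟨c0, -Y⟩ : ℂ) (⟨3/2, Y⟩ : ℂ) ?_
  · simp only at hrect
    set Eb := 2 ^ a * C1 * (C3 * 4 ^ (2 * k)) * 2 * D / L ^ 2 with hEb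
    have hEb0 : 0 ≤ Eb := by (clear * - hC1 hC3 hD hL4; positivity)
    have hcle : c0 ≤ 3/2 := by linarith only [hc0b]
    have b1 : ‖∫ x in c0..(3/2 : ℝ), f (x + ((-Y : ℝ) : ℂ) * I)‖ ≤ Eb * |3/2 - c0| := by
      refine intervalIntegral.norm_integral_le_of_norm_le_const ?_
      intro x hx
      rw [uIoc_of_le hcle] at hx
      exact hedge x (-Y) hx.1.le hx.2 (by rw [abs_neg, abs_of_pos]; linarith only [hY1])
    have b2 : ‖∫ x in c0..(3/2 : ℝ), f (x + (Y : ℂ) * I)‖ ≤ Eb * |3/2 - c0| := by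
      refine intervalIntegral.norm_integral_le_of_norm_le_const ?_
      intro x hx
      rw [uIoc_of_le hcle] at hx
      exact hedge x Y hx.1.le hx.2 (by rw [abs_of_pos]; linarith only [hY1])
    have e1 : (∫ y in (-Y)..Y, f (c0 + y * I)) =
        (∫ y in (-Y)..Y, f ((3/2 : ℝ) + y * I)) - I * ((∫ x in c0..(3/2 : ℝ), f (x + ((-Y : ℝ) : ℂ) * I)) -
          ∫ x in c0..(3/2 : ℝ), f (x + (Y : ℂ) * I)) := by
      simp only [smul_eq_mul] at hrect
      linear_combination I * hrect + ((∫ y in (-Y)..Y, f (c0 + y * I)) -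
        (∫ y in (-Y)..Y, f ((3/2 : ℝ) + y * I))) * I_mul_I
    have e0 : (∫ y in (-Y)..Y, H (L * ((c0 : ℂ) + y * I - 1/2)) * Ψ t (c0 + y * I) *
        Z k t (c0 + y * I)) = ∫ y in (-Y)..Y, f (c0 + y * I) := rfl
    rw [e0, e1]
    refine (norm_sub_le _ _).trans ?_
    rw [norm_mul, norm_I, one_mul]
    have e3 : |3/2 - c0| ≤ 1 := by rw [abs_of_nonneg (by linarith only [hc0b])]; linarith only [hc0a]
    have e4 := norm_sub_le (∫ x in c0..(3/2 : ℝ), f (x + ((-Y : ℝ) : ℂ) * I))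
      (∫ x in c0..(3/2 : ℝ), f (x + (Y : ℂ) * I))
    have e5 : Eb * |3/2 - c0| ≤ Eb := mul_le_of_le_one_right hEb0 e3
    have e6 : (2 ^ M₀ * C1 * C4 * Real.pi + 2 * (2 ^ a * C1 * (C3 * 4 ^ (2 * k)) * 2)) * D / L ^ 2 =
        2 ^ M₀ * C1 * C4 * Real.pi * D / L ^ 2 + 2 * Eb := by rw [hEb]; ring
    rw [e6]
    linarith only [hright, b1, b2, e4, e5]
  · intro s hs
    rw [mem_reProdIm] at hs
    simp only at hs
    rw [uIcc_of_le (by linarith only [hc0b] : c0 ≤ 3/2), uIcc_of_le (by linarith only [hY1] : -Y ≤ Y)] at hs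
    have him : |s.im| ≤ Y := abs_le.2 ⟨hs.2.1, hs.2.2⟩
    have i1 := neg_abs_le s.im
    have i2 := le_abs_self s.im
    refine DifferentiableAt.differentiableWithinAt ?_
    refine DifferentiableAt.mul (DifferentiableAt.mul ?_ (hΨ.diff t s (by linarith only [hs.1.1, hc0a, hs]) (by linarith only [ht, hY1, him]))) ?_
    · exact DifferentiableAt.comp (g := H) s (hH.diff _ (hw1 s hs.1.1)) (by fun_prop)
    · apply Z_differentiableAt
      · intro h
        have := congrArg Complex.im h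
        simp at this
        linarith only [ht, hY1, him, i1, this]
      · intro h
        have := congrArg Complex.im h
        simp at this
        linarith only [ht, hY1, him, i2, this]

end

end MP069854


namespace MP069854
open Filter Topology Complex Set MeasureTheory
open scoped ContDiff

lemma KN.mono {κ : ℝ} {M M' : ℕ} {D : ℝ} {H : ℂ → ℂ} (h : KN κ M D H) (hM : M' ≤ M) : KN κ M' D H := by
  refine ⟨h.diff, fun w hw => le_trans ?_ (h.bd w hw)⟩
  have h1 : 1 ≤ ‖w‖ := hw.trans ((le_abs_self _).trans (abs_re_le_norm w))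
  (clear * - hM h1; gcongr)

section
variable {k : ℕ} {κ : ℝ} {Ψ : ℝ → ℂ → ℂ}

lemma wlow {L : ℝ} (hL : 4 ≤ L) (y : ℝ) :
    1 ≤ ((L : ℂ) * ((1/2 + 1 / L : ℝ) + y * I - 1/2)).re ∧
    1 + |y| ≤ 2 * ‖(L : ℂ) * ((1/2 + 1 / L : ℝ) + y * I - 1/2)‖ := by
  have hL0 : 0 < L := by linarith only [hL]
  have e : (L : ℂ) * ((1/2 + 1 / L : ℝ) + y * I - 1/2) = 1 + (L * y : ℝ) * I := by
    push_cast
    have : (L : ℂ) ≠ 0 := by exact_mod_cast hL0.ne'
    field_simp
    ring
  rw [e]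
  have hre : (1 + ((L * y : ℝ) : ℂ) * I).re = 1 := by simp
  have him : (1 + ((L * y : ℝ) : ℂ) * I).im = L * y := by simp
  refine ⟨by rw [hre], ?_⟩
  have h1 := abs_re_le_norm (1 + ((L * y : ℝ) : ℂ) * I)
  have h2 := abs_im_le_norm (1 + ((L * y : ℝ) : ℂ) * I)
  rw [hre, abs_one] at h1
  rw [him, abs_mul, abs_of_pos hL0] at h2
  nlinarith only [abs_nonneg y, hL, h1, h2]

/-- pointwise decay of the integrand on the line -/
lemma line_decay {M : ℕ} {D : ℝ} {H : ℂ → ℂ} (hκ : 0 ≤ κ) (hH : KN κ M D H) {L : ℝ} (hL : 4 ≤ L)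
    {V : ℝ → ℂ} {C0 t : ℝ} (hC0 : 0 ≤ C0) (ht : 0 ≤ t) {k : ℕ}
    (hV : ∀ y, ‖V y‖ ≤ C0 * (2 + |y| + t) ^ (2 * k)) (p : ℕ) (hp : p + 2 * k ≤ M) (y : ℝ) :
    ‖H (L * ((1/2 + 1 / L : ℝ) + y * I - 1/2)) * V y‖ * (1 + |y|) ^ p ≤
      2 ^ M * C0 * D * (2 + t) ^ (2 * k) := by
  have hD := hH.D0
  obtain ⟨w1, w2⟩ := wlow hL y
  have hb := hH.bd _ w1
  set w : ℂ := (L : ℂ) * ((1/2 + 1 / L : ℝ) + y * I - 1/2) with hw
  have e1 : ‖H w‖ * ‖w‖ ^ M ≤ D := by
    refine hb.trans ?_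
    have : Real.exp (-κ * w.re) ≤ 1 := Real.exp_le_one_iff.2 (by nlinarith only [hκ, w1])
    exact mul_le_of_le_one_right hD this
  have e2 : ‖H w‖ * (1 + |y|) ^ M ≤ 2 ^ M * D := by
    calc ‖H w‖ * (1 + |y|) ^ M ≤ ‖H w‖ * (2 * ‖w‖) ^ M := by (clear * - w2; gcongr)
      _ = 2 ^ M * (‖H w‖ * ‖w‖ ^ M) := by rw [mul_pow]; ring
      _ ≤ _ := by (clear * - e1; gcongr)
  have e3 : (2 + |y| + t) ^ (2 * k) ≤ (2 + t) ^ (2 * k) * (1 + |y|) ^ (2 * k) := by
    rw [← mul_pow]
    apply pow_le_pow_left₀ (by (clear * - ht; positivity))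
    nlinarith only [abs_nonneg y, ht]
  have e4 : (1 + |y|) ^ (p + 2 * k) ≤ (1 + |y|) ^ M :=
    pow_le_pow_right₀ (by linarith only [abs_nonneg y]) hp
  rw [norm_mul]
  calc ‖H w‖ * ‖V y‖ * (1 + |y|) ^ p
      ≤ ‖H w‖ * (C0 * ((2 + t) ^ (2 * k) * (1 + |y|) ^ (2 * k))) * (1 + |y|) ^ p := by
        gcongr
        exact (hV y).trans (by (clear * - hC0 e3; gcongr))
    _ = (‖H w‖ * (1 + |y|) ^ (p + 2 * k)) * (C0 * (2 + t) ^ (2 * k)) := by ring
    _ ≤ (‖H w‖ * (1 + |y|) ^ M) * (C0 * (2 + t) ^ (2 * k)) := by (clear * - hC0 ht e4; gcongr)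
    _ ≤ (2 ^ M * D) * (C0 * (2 + t) ^ (2 * k)) := by (clear * - hC0 ht e2; gcongr)
    _ = _ := by ring

lemma crude {M : ℕ} {D : ℝ} {H : ℂ → ℂ} (hκ : 0 ≤ κ) (hH : KN κ M D H) {L : ℝ} (hL : 4 ≤ L)
    {V : ℝ → ℂ} {C0 t : ℝ} (hC0 : 0 ≤ C0) (ht : 0 ≤ t) {k : ℕ}
    (hV : ∀ y, ‖V y‖ ≤ C0 * (2 + |y| + t) ^ (2 * k)) (hp : 2 + 2 * k ≤ M) :
    ‖(L : ℂ) * ∫ y : ℝ, H (L * ((1/2 + 1 / L : ℝ) + y * I - 1/2)) * V y‖ ≤
      2 ^ M * C0 * Real.pi * D * L * (2 + t) ^ (2 * k) := by
  have hL0 : 0 < L := by linarith only [hL]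
  have hD := hH.D0
  rw [norm_mul, Complex.norm_real, Real.norm_eq_abs, abs_of_pos hL0]
  have h1 : ‖∫ y : ℝ, H (L * ((1/2 + 1 / L : ℝ) + y * I - 1/2)) * V y‖ ≤
      ∫ y : ℝ, 2 ^ M * C0 * D * (2 + t) ^ (2 * k) * (1 + y ^ 2)⁻¹ := by
    refine norm_integral_le_of_norm_le (integrable_inv_one_add_sq.const_mul _)
      (Eventually.of_forall fun y => ?_)
    rw [← div_eq_mul_inv, le_div_iff₀ (by (clear * -; positivity))]
    refine le_trans ?_ (line_decay hκ hH hL hC0 ht hV 2 hp y)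
    gcongr
    nlinarith only [abs_nonneg y, sq_abs y]
  rw [integral_const_mul, integral_univ_inv_one_add_sq] at h1
  calc _ ≤ L * (2 ^ M * C0 * D * (2 + t) ^ (2 * k) * Real.pi) := by (clear * - hL h1; gcongr)
    _ = _ := by ring

lemma endterm (k : ℕ) (hΨ : Fam κ Ψ) : ∃ (C : ℝ) (M₁ : ℕ), 0 ≤ C ∧ ∀ (M : ℕ) (H : ℂ → ℂ) (D : ℝ),
    M₁ ≤ M → KN κ M D H → ∀ (V : ℝ → ℂ) (C0 t T : ℝ), 0 ≤ C0 → Real.exp 4 ≤ T →
      2 * Real.exp (Real.log T / (2 * k + 2)) ≤ t → t ≤ T →
      (Continuous fun y : ℝ => H (Real.log T * ((1/2 + 1 / Real.log T : ℝ) + y * I - 1/2)) * V y) →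
      (∀ y, V y = Ψ t ((1/2 + 1 / Real.log T : ℝ) + y * I) *
        Z k t ((1/2 + 1 / Real.log T : ℝ) + y * I)) →
      (∀ y, ‖V y‖ ≤ C0 * (2 + |y| + t) ^ (2 * k)) →
      ‖(Real.log T : ℂ) * ∫ y : ℝ, H (Real.log T * ((1/2 + 1 / Real.log T : ℝ) + y * I - 1/2)) * V y‖ ≤
      C * 2 ^ M * (1 + C0) * D / Real.log T := by
  obtain ⟨C1, M₀, hC1, hN⟩ := negl (κ := κ) k hΨ
  set q : ℕ := (2 * k + 2) * (2 * k + 2) with hq
  refine ⟨C1 + 2 * 2 ^ (2 * k) * Real.pi, max M₀ (q + 2 + 2 * k), by (clear * - hC1; positivity), ?_⟩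
  intro M H D hM hH V C0 t T hC0 hT ht htT hcont hV hVb
  have hD := hH.D0
  obtain ⟨hT0, hL4, hY1, hYT, hLT⟩ := Y_facts k hT
  have n1 := hN M₀ H D rfl (hH.mono ((le_max_left _ _).trans hM)) t T hT ht htT
  set L := Real.log T with hLdef
  set Y := Real.exp (L / (2 * k + 2)) with hY
  have hL0 : 0 < L := by linarith only [hL4]
  have ht0 : 0 ≤ t := by linarith only [ht, hY1]
  set F : ℝ → ℂ := fun y => H (L * ((1/2 + 1 / L : ℝ) + y * I - 1/2)) * V y with hF
  have hdec : ∀ y, ‖F y‖ * (1 + |y|) ^ (q + 2) ≤ 2 ^ M * C0 * D * (2 + t) ^ (2 * k) := fun y =>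
    line_decay hΨ.κ0 hH hL4 hC0 ht0 hVb (q + 2) ((le_max_right _ _).trans hM) y
  have htail := tail_bound hcont.aestronglyMeasurable hY1 hdec
  have hYq : Y ^ q = T ^ (2 * k + 2) := by rw [hq, pow_mul, hYT]
  have hT2 : 2 ≤ T := by
    have h1 : (2:ℝ) ≤ Real.exp 4 := by have := Real.add_one_le_exp (4:ℝ); linarith only [this]
    linarith only [htT, ht, hY1]
  have htr : ∫ y in (-Y)..Y, F y = ∫ y in (-Y)..Y, H (L * ((1/2 + 1 / L : ℝ) + y * I - 1/2)) *
      Ψ t ((1/2 + 1 / L : ℝ) + y * I) * Z k t ((1/2 + 1 / L : ℝ) + y * I) := by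
    refine intervalIntegral.integral_congr fun y _ => ?_
    simp only [hF]
    rw [hV y]; ring
  have e1 : ‖∫ y in (-Y)..Y, F y‖ ≤ C1 * D / L ^ 2 := by rw [htr]; exact n1
  have e2 : 2 ^ M * C0 * D * (2 + t) ^ (2 * k) * Real.pi / Y ^ q ≤
      2 * 2 ^ (2 * k) * Real.pi * 2 ^ M * C0 * D / L ^ 2 := by
    rw [hYq, div_le_div_iff₀ (by (clear * - hT0; positivity)) (by (clear * - hL4; positivity))]
    have e3 : (2 + t) ^ (2 * k) ≤ 2 ^ (2 * k) * T ^ (2 * k) := by
      rw [← mul_pow]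
      apply pow_le_pow_left₀ (by (clear * - ht0; positivity))
      linarith only [htT, ht, hY1]
    have e4 : L ^ 2 ≤ 2 * T ^ 2 := by nlinarith only [htT, hT0, hLT, ht, hY1]
    calc 2 ^ M * C0 * D * (2 + t) ^ (2 * k) * Real.pi * L ^ 2
        ≤ 2 ^ M * C0 * D * (2 ^ (2 * k) * T ^ (2 * k)) * Real.pi * (2 * T ^ 2) := by (clear * - hC0 hD hT0 hL4 e3 e4; gcongr)
      _ = _ := by ring
  rw [norm_mul, Complex.norm_real, Real.norm_eq_abs, abs_of_pos hL0]
  have e5 : ‖∫ y : ℝ, F y‖ ≤ 2 * 2 ^ (2 * k) * Real.pi * 2 ^ M * C0 * D / L ^ 2 + C1 * D / L ^ 2 := by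
    have : (∫ y : ℝ, F y) = ((∫ y : ℝ, F y) - ∫ y in (-Y)..Y, F y) + ∫ y in (-Y)..Y, F y := by ring
    rw [this]
    exact (norm_add_le _ _).trans (add_le_add (htail.trans e2) e1)
  have h2M : (1:ℝ) ≤ 2 ^ M := one_le_pow₀ (by norm_num)
  have hfin : L * (2 * 2 ^ (2 * k) * Real.pi * 2 ^ M * C0 * D / L ^ 2 + C1 * D / L ^ 2) =
      (2 * 2 ^ (2 * k) * Real.pi * 2 ^ M * C0 * D + C1 * D) / L := by
    field_simp
  calc L * ‖∫ y : ℝ, F y‖ ≤ L * (2 * 2 ^ (2 * k) * Real.pi * 2 ^ M * C0 * D / L ^ 2 + C1 * D / L ^ 2) := by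
        (clear * - hL4 e5; gcongr)
    _ = (2 * 2 ^ (2 * k) * Real.pi * 2 ^ M * C0 * D + C1 * D) / L := hfin
    _ ≤ _ := by
        gcongr
        have p1 : 0 ≤ 2 * 2 ^ (2 * k) * Real.pi * 2 ^ M * D := by (clear * - hD; positivity)
        have p2 : C1 * D ≤ C1 * 2 ^ M * (1 + C0) * D := by
          have : 1 ≤ 2 ^ M * (1 + C0) := by nlinarith only [hC0, h2M]
          have h3 : 0 ≤ C1 * D := by (clear * - hC1 hD; positivity)
          nlinarith only [this, h3]
        nlinarith only [p1, p2]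

end

section
variable {L : ℝ} (hL : 4 ≤ L)
include hL

lemma E1_eq (k : ℕ) (α₀ t : ℝ) : E1 k α₀ L t = (L : ℂ) * ∫ y : ℝ,
    (fun w : ℂ => G (deriv (stepf (-1))) (w - α₀ * I) / (w - α₀ * I))
      (L * ((1/2 + 1 / L : ℝ) + y * I - 1/2)) * Z k t ((1/2 + 1 / L : ℝ) + y * I) := by
  have hL0 : 0 < L := by linarith only [hL]
  have hLc : (L : ℂ) ≠ 0 := by exact_mod_cast hL0.ne'
  set f : ℝ → ℂ := fun y => G (deriv (stepf (-1))) (1 + y * I) / (1 + y * I) *
    Z k t (1/2 + (1 + y * I + α₀ * I) / L) with hf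
  have h1 : E1 k α₀ L t = ∫ y : ℝ, f y := rfl
  have h2 := integral_sub_right_eq_self (μ := volume) f α₀
  have h3 := Measure.integral_comp_mul_left (fun y : ℝ => f (y - α₀)) L
  rw [h2, abs_of_pos (inv_pos.2 hL0), Complex.real_smul] at h3
  have h4 : ∫ y : ℝ, f y = (L : ℂ) * ∫ y : ℝ, f (L * y - α₀) := by
    rw [h3, ← mul_assoc, ← Complex.ofReal_mul, mul_inv_cancel₀ hL0.ne', Complex.ofReal_one, one_mul]
  rw [h1, h4]
  congr 1
  refine integral_congr_ae (Eventually.of_forall fun y => ?_)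
  simp only [hf]
  have a1 : (1 : ℂ) + ((L * y - α₀ : ℝ) : ℂ) * I = L * ((1/2 + 1 / L : ℝ) + y * I - 1/2) - α₀ * I := by
    push_cast; field_simp; ring
  have a2 : (1/2 : ℂ) + (1 + ((L * y - α₀ : ℝ) : ℂ) * I + α₀ * I) / L = (1/2 + 1 / L : ℝ) + y * I := by
    push_cast; field_simp; ring
  rw [a2, a1]

lemma E2_eq (k : ℕ) (α₀ t : ℝ) : E2 k α₀ L t = -((L : ℂ) * ∫ y : ℝ,
    (fun w : ℂ => G (fun u => deriv (stepf (2 * k + 1/2)) (-u)) (w - ((-α₀ : ℝ) : ℂ) * I) /
      (w - ((-α₀ : ℝ) : ℂ) * I))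
      (L * ((1/2 + 1 / L : ℝ) + y * I - 1/2)) * Z k t (1 - ((1/2 + 1 / L : ℝ) + y * I))) := by
  have hL0 : 0 < L := by linarith only [hL]
  have hLc : (L : ℂ) ≠ 0 := by exact_mod_cast hL0.ne'
  set f : ℝ → ℂ := fun y => G (deriv (stepf (2 * k + 1/2))) (-1 + y * I) / (-1 + y * I) *
    Z k t (1/2 + (-1 + y * I + α₀ * I) / L) with hf
  have h1 : E2 k α₀ L t = ∫ y : ℝ, f y := rfl
  have h0 := integral_neg_eq_self f (volume : Measure ℝ)
  have h2 := integral_add_right_eq_self (μ := volume) (fun y : ℝ => f (-y)) α₀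
  have h3 := Measure.integral_comp_mul_left (fun y : ℝ => f (-(y + α₀))) L
  rw [h2, h0, abs_of_pos (inv_pos.2 hL0), Complex.real_smul] at h3
  have h4 : ∫ y : ℝ, f y = (L : ℂ) * ∫ y : ℝ, f (-(L * y + α₀)) := by
    rw [h3, ← mul_assoc, ← Complex.ofReal_mul, mul_inv_cancel₀ hL0.ne', Complex.ofReal_one, one_mul]
  rw [h1, h4, ← mul_neg, ← integral_neg]
  congr 1
  refine integral_congr_ae (Eventually.of_forall fun y => ?_)
  simp only [hf]
  have a1 : (-1 : ℂ) + ((-(L * y + α₀) : ℝ) : ℂ) * I =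
      -(L * ((1/2 + 1 / L : ℝ) + y * I - 1/2) - ((-α₀ : ℝ) : ℂ) * I) := by
    push_cast; field_simp; ring
  have a2 : (1/2 : ℂ) + (-1 + ((-(L * y + α₀) : ℝ) : ℂ) * I + α₀ * I) / L =
      1 - ((1/2 + 1 / L : ℝ) + y * I) := by
    push_cast; field_simp; ring
  rw [a2, a1, ← TF.G_refl (g := deriv (stepf (2 * (k:ℝ) + 1/2))), div_neg, neg_mul]

lemma c0_range : (0:ℝ) < 1/2 + 1 / L ∧ 1/2 + 1 / L ≤ 3/4 := by
  have hL0 : 0 < L := by linarith only [hL]
  have : 1 / L ≤ 1/4 := by rw [div_le_div_iff₀ hL0 (by norm_num)]; linarith only [hL]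
  have h2 : 0 < 1 / L := by positivity
  constructor <;> linarith only [this, h2]

lemma Vcont1 (k : ℕ) (t : ℝ) : Continuous fun y : ℝ => Z k t ((1/2 + 1 / L : ℝ) + y * I) := by
  have h := c0_range hL
  rw [continuous_iff_continuousAt]
  intro y
  exact ContinuousAt.comp (f := fun y : ℝ => (((1/2 + 1 / L : ℝ) : ℂ) + y * I : ℂ)) (g := Z k t)
    (Z_diff_strip k t (by
      have : ((((1/2 + 1 / L : ℝ)) : ℂ) + y * I).re = 1/2 + 1 / L := by simp
      rw [this]; linarith only [h.2, h])).continuousAt (by fun_prop)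

lemma Vcont2 (k : ℕ) (t : ℝ) : Continuous fun y : ℝ => Z k t (1 - ((1/2 + 1 / L : ℝ) + y * I)) := by
  have h := c0_range hL
  rw [continuous_iff_continuousAt]
  intro y
  exact ContinuousAt.comp (f := fun y : ℝ => (1 - (((1/2 + 1 / L : ℝ) : ℂ) + y * I) : ℂ)) (g := Z k t)
    (Z_diff_strip k t (by
      have : (1 - (((((1/2 + 1 / L : ℝ)) : ℂ) + y * I))).re = 1 - (1/2 + 1 / L) := by simp
      rw [this]; linarith only [h.1, h])).continuousAt (by fun_prop)

lemma Hcont {κ : ℝ} {M : ℕ} {D : ℝ} {H : ℂ → ℂ} (hH : KN κ M D H) :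
    Continuous fun y : ℝ => H (L * ((1/2 + 1 / L : ℝ) + y * I - 1/2)) := by
  rw [continuous_iff_continuousAt]
  intro y
  exact ContinuousAt.comp (f := fun y : ℝ => ((L : ℂ) * ((1/2 + 1 / L : ℝ) + y * I - 1/2) : ℂ)) (g := H)
    (hH.diff _ (wlow hL y).1).continuousAt (by fun_prop)

end

lemma Vbound (k : ℕ) : ∃ C : ℝ, 1 ≤ C ∧ ∀ L t : ℝ, 4 ≤ L → 0 ≤ t → ∀ y : ℝ,
    ‖Z k t ((1/2 + 1 / L : ℝ) + y * I)‖ ≤ C * (2 + |y| + t) ^ (2 * k) ∧
    ‖Z k t (1 - ((1/2 + 1 / L : ℝ) + y * I))‖ ≤ C * (2 + |y| + t) ^ (2 * k) := by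
  obtain ⟨C, hC1, hC⟩ := Z_strip k
  refine ⟨C, hC1, fun L t hL ht y => ?_⟩
  have h := c0_range hL
  have hL0 : 0 < L := by linarith only [hL]
  have h4 : 0 < 1 / L := by (clear * - hL; positivity)
  have r1 : ((((1/2 + 1 / L : ℝ)) : ℂ) + y * I).re = 1/2 + 1 / L := by simp
  have m1 : ((((1/2 + 1 / L : ℝ)) : ℂ) + y * I).im = y := by simp
  have r2 : (1 - (((((1/2 + 1 / L : ℝ)) : ℂ) + y * I))).re = 1 - (1/2 + 1 / L) := by simp
  have m2 : (1 - (((((1/2 + 1 / L : ℝ)) : ℂ) + y * I))).im = -y := by simp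
  constructor
  · have := hC t (((1/2 + 1 / L : ℝ) : ℂ) + y * I) ht (by rw [r1]; linarith only [h, h4]) (by rw [r1]; exact h.2)
    rwa [m1] at this
  · have := hC t (1 - (((1/2 + 1 / L : ℝ) : ℂ) + y * I)) ht (by rw [r2]; linarith only [h.2, h])
      (by rw [r2]; linarith only [h.1, h, h4])
    rwa [m2, abs_neg] at this

/-- **The two end terms are negligible.** -/
theorem end_bounds (k : ℕ) : ∃ (C : ℝ) (M : ℕ), 0 ≤ C ∧
    (∀ α₀ L t : ℝ, 4 ≤ L → 0 ≤ t → ‖E1 k α₀ L t - E2 k α₀ L t‖ ≤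
      C * (1 + |α₀|) ^ M * (L * (2 + t) ^ (2 * k))) ∧
    (∀ α₀ t T : ℝ, Real.exp 4 ≤ T → 2 * Real.exp (Real.log T / (2 * k + 2)) ≤ t → t ≤ T → 8 < t →
      ‖E1 k α₀ (Real.log T) t - E2 k α₀ (Real.log T) t‖ ≤ C * (1 + |α₀|) ^ M / Real.log T) := by
  obtain ⟨C0, hC01, hV⟩ := Vbound k
  have hC0 : 0 ≤ C0 := by linarith only [hC01]
  obtain ⟨c1, M1, hc1, b1⟩ := endterm k fam_one
  obtain ⟨c2, M2, hc2, b2⟩ := endterm k (fam_Psi k)
  set M := max (max M1 M2) (2 + 2 * k) with hM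
  have t1 : TF (deriv (stepf (-1))) (-1) (-(1/2)) := by
    have := dstep_TF (-1)
    norm_num at this ⊢
    exact this
  have t2 : TF (fun u => deriv (stepf (2 * (k:ℝ) + 1/2)) (-u)) (-(2 * (k:ℝ) + 1/2 + 1/2))
      (-(2 * (k:ℝ) + 1/2)) := (dstep_TF (2 * (k:ℝ) + 1/2)).refl
  obtain ⟨K1, hK1, k1⟩ := KN.of_TF (κ := 0) t1 (by norm_num) M
  obtain ⟨K2, hK2, k2⟩ := KN.of_TF (κ := 2 * (k:ℝ)) t2 (by linarith only []) M
  refine ⟨2 ^ M * C0 * Real.pi * K1 + 2 ^ M * C0 * Real.pi * K2 +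
    (c1 * 2 ^ M * (1 + C0) * K1 + c2 * 2 ^ M * (1 + C0) * K2), M, by (clear * - hC01 hc1 hc2 hK1 hK2; positivity), ?_, ?_⟩
  · intro α₀ L t hL ht
    rw [E1_eq hL, E2_eq hL, sub_neg_eq_add]
    have a1 := crude (le_refl (0:ℝ)) (k1 α₀) hL hC0 ht (fun y => (hV L t hL ht y).1) (le_max_right _ _)
    have a2 := crude (by (clear * -; positivity) : (0:ℝ) ≤ 2 * (k:ℝ)) (k2 (-α₀)) hL hC0 ht
      (fun y => (hV L t hL ht y).2) (le_max_right _ _)
    rw [abs_neg] at a2
    refine (norm_add_le _ _).trans ((add_le_add a1 a2).trans ?_)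
    have p : 0 ≤ (c1 * 2 ^ M * (1 + C0) * K1 + c2 * 2 ^ M * (1 + C0) * K2) *
      ((1 + |α₀|) ^ M * (L * (2 + t) ^ (2 * k))) := by
      have : 0 ≤ L := by linarith only [hL]
      (clear * - hC01 hc1 hc2 hK1 hK2 hL ht; positivity)
    linarith only [p]
  · intro α₀ t T hT ht htT ht8
    obtain ⟨hT0, hL4, hY1, hYT, hLT⟩ := Y_facts k hT
    have ht0 : 0 ≤ t := by linarith only [ht8]
    rw [E1_eq hL4, E2_eq hL4, sub_neg_eq_add]
    have a1 := b1 M _ _ ((le_max_left _ _).trans (le_max_left _ _)) (k1 α₀)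
      (fun y => Z k t ((1/2 + 1 / Real.log T : ℝ) + y * I)) C0 t T hC0 hT ht htT
      ((Hcont hL4 (k1 α₀)).mul (Vcont1 hL4 k t)) (fun y => by rw [one_mul])
      (fun y => (hV _ t hL4 ht0 y).1)
    have a2 := b2 M _ _ ((le_max_right _ _).trans (le_max_left _ _)) (k2 (-α₀))
      (fun y => Z k t (1 - ((1/2 + 1 / Real.log T : ℝ) + y * I))) C0 t T hC0 hT ht htT
      ((Hcont hL4 (k2 (-α₀))).mul (Vcont2 hL4 k t)) (fun y => by
        have h := c0_range hL4
        have r1 : ((((1/2 + 1 / Real.log T : ℝ)) : ℂ) + y * I).re = 1/2 + 1 / Real.log T := by simp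
        rw [Z_refl' k t (by rw [r1]; exact h.1) (by rw [r1]; linarith only [h.2, h])]
        simp only [Psi, if_neg (not_le.2 ht8)])
      (fun y => (hV _ t hL4 ht0 y).2)
    rw [abs_neg] at a2
    refine (norm_add_le _ _).trans ((add_le_add a1 a2).trans ?_)
    rw [← add_div]
    have hL0 : 0 < Real.log T := by linarith only [hL4]
    gcongr
    have p : 0 ≤ (2 ^ M * C0 * Real.pi * K1 + 2 ^ M * C0 * Real.pi * K2) * (1 + |α₀|) ^ M := by
      (clear * - hC01 hK1 hK2; positivity)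
    linarith only [p]

end MP069854


namespace MP069854
open Filter Topology Complex Set MeasureTheory
open scoped ContDiff

/-- **Uniform representation of `Q_k(α₀,T)` by a smooth average.** -/
theorem unif_rep (k : ℕ) : ∃ (M : ℕ) (ε : ℝ → ℝ), Tendsto ε atTop (𝓝 0) ∧
    ∀ᶠ T : ℝ in atTop, ∀ α₀ : ℝ, ‖2 * Real.pi * Qk k α₀ T -
      ∫ α : ℝ, G (gal k α₀) (α * I) * Qk k α T‖ ≤ (1 + |α₀|) ^ M * ε T := by
  obtain ⟨C, M, hC, hb1, hb2⟩ := end_bounds k
  refine ⟨M, fun T => C * (12 ^ (2 * k) * 10 * (Real.log T *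
    Real.exp (-(1 / (2 * (k:ℝ) + 2)) * Real.log T)) + (Real.log T)⁻¹), ?_, ?_⟩
  · have h1 : Tendsto (fun x : ℝ => x * Real.exp (-(1 / (2 * (k:ℝ) + 2)) * x)) atTop (𝓝 0) := by
      have := tendsto_rpow_mul_exp_neg_mul_atTop_nhds_zero 1 (1 / (2 * (k:ℝ) + 2)) (by (clear * -; positivity))
      simpa only [Real.rpow_one] using this
    have h2 := (h1.comp Real.tendsto_log_atTop).const_mul ((12:ℝ) ^ (2 * k) * 10)
    have h3 := (tendsto_inv_atTop_zero.comp Real.tendsto_log_atTop)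
    have h4 := (h2.add h3).const_mul C
    simp only [mul_zero, add_zero] at h4
    exact h4
  · have hlarge : ∀ᶠ T : ℝ in atTop, 10 * Real.exp (Real.log T / (2 * k + 2)) ≤ T ∧
        Real.exp 8 ≤ T ∧ 4 ≤ Real.exp (Real.log T / (2 * (k:ℝ) + 2)) := by
      have t1 : Tendsto (fun T : ℝ => Real.exp (Real.log T / (2 * (k:ℝ) + 2))) atTop atTop :=
        Real.tendsto_exp_atTop.comp (Real.tendsto_log_atTop.atTop_div_const (by (clear * -; positivity)))
      filter_upwards [t1.eventually_ge_atTop 10, eventually_ge_atTop (Real.exp 8)] with T h1 h2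
      refine ⟨?_, h2, by linarith only [h1]⟩
      have hT4 : Real.exp 4 ≤ T := (Real.exp_le_exp.2 (by norm_num)).trans h2
      obtain ⟨hT0, hL4, hY1, hYT, hLT⟩ := Y_facts k hT4
      set Y := Real.exp (Real.log T / (2 * (k:ℝ) + 2)) with hY
      calc 10 * Y ≤ Y * Y := by (clear * - h1; gcongr)
        _ = Y ^ 2 := by ring
        _ ≤ Y ^ (2 * k + 2) := pow_le_pow_right₀ hY1 (by (clear * -; omega))
        _ = T := hYT
    filter_upwards [hlarge] with T hT α₀
    obtain ⟨hT10, hT8, hY4⟩ := hT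
    have hT4 : Real.exp 4 ≤ T := (Real.exp_le_exp.2 (by norm_num)).trans hT8
    obtain ⟨hT0, hL4, hY1, hYT, hLT⟩ := Y_facts k hT4
    have hT1 : 1 < T := lt_of_lt_of_le (by have := Real.add_one_le_exp (8:ℝ); linarith only [this]) hT8
    set L := Real.log T with hLdef
    set Y := Real.exp (L / (2 * (k:ℝ) + 2)) with hY
    have hL0 : 0 < L := by linarith only [hL4]
    set F : ℝ → ℂ := fun t => 2 * Real.pi * Z k t (1/2 + (α₀ / L : ℝ) * I) -
      JJ k (gal k α₀) (fun _ _ => (1:ℂ)) L t with hF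
    have hFE : ∀ t, 0 ≤ t → F t = E1 k α₀ L t - E2 k α₀ L t := by
      intro t ht
      simp only [hF]
      rw [rep hL4 k α₀ t ht]; ring
    have hZi : IntervalIntegrable (fun t => Z k t (1/2 + (α₀ / L : ℝ) * I)) volume 0 T := by
      refine Continuous.intervalIntegrable ?_ _ _
      exact (Z_cont2 k L).comp (f := fun t : ℝ => ((α₀, t) : ℝ × ℝ)) (by fun_prop)
    have hJi := JJ_one_intervalIntegrable (k := k) (gal_TF k α₀) hL0 (T := T) hT0.le
    have hFi : IntervalIntegrable F volume 0 T := (hZi.const_mul _).sub hJi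
    have hR : 2 * Real.pi * Qk k α₀ T - ∫ α : ℝ, G (gal k α₀) (α * I) * Qk k α T =
        ((T * L ^ (k ^ 2) : ℝ) : ℂ)⁻¹ * ∫ t in (0:ℝ)..T, F t := by
      rw [Qk_integral (gal_TF k α₀) hT1, Qk_eq, ← hLdef]
      simp only [hF]
      rw [intervalIntegral.integral_sub (hZi.const_mul _) hJi, intervalIntegral.integral_const_mul]
      ring
    have hb : 10 * Y ≤ T := hT10
    have h0b : (0:ℝ) ≤ 10 * Y := by linarith only [hY4]
    have i1 : IntervalIntegrable F volume 0 (10 * Y) := hFi.mono_set (by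
      rw [uIcc_of_le h0b, uIcc_of_le hT0.le]; exact Icc_subset_Icc_right hb)
    have i2 : IntervalIntegrable F volume (10 * Y) T := hFi.mono_set (by
      rw [uIcc_of_le hb, uIcc_of_le hT0.le]; exact Icc_subset_Icc_left h0b)
    have hA : 0 ≤ (1 + |α₀|) ^ M := by (clear * -; positivity)
    have n1 : ‖∫ t in (0:ℝ)..(10 * Y), F t‖ ≤ C * (1 + |α₀|) ^ M * (L * (12 * Y) ^ (2 * k)) * (10 * Y) := by
      have := intervalIntegral.norm_integral_le_of_norm_le_const (f := F) (a := 0) (b := 10 * Y)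
        (C := C * (1 + |α₀|) ^ M * (L * (12 * Y) ^ (2 * k))) (fun t ht => by
          rw [uIoc_of_le h0b] at ht
          rw [hFE t ht.1.le]
          refine (hb1 α₀ L t hL4 ht.1.le).trans ?_
          have : (2 + t) ^ (2 * k) ≤ (12 * Y) ^ (2 * k) :=
            pow_le_pow_left₀ (by linarith only [ht.1, ht]) (by linarith only [ht.2, hY4, ht]) _
          (clear * - hC hL4 this; gcongr))
      rwa [sub_zero, abs_of_nonneg h0b] at this
    have n2 : ‖∫ t in (10 * Y)..T, F t‖ ≤ C * (1 + |α₀|) ^ M / L * T := by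
      have := intervalIntegral.norm_integral_le_of_norm_le_const (f := F) (a := 10 * Y) (b := T)
        (C := C * (1 + |α₀|) ^ M / L) (fun t ht => by
          rw [uIoc_of_le hb] at ht
          rw [hFE t (by linarith only [ht.1, hY4, ht])]
          exact hb2 α₀ t T hT4 (by linarith only [ht.1, hY4, ht]) ht.2 (by linarith only [ht.1, hY4, ht]))
      refine this.trans ?_
      rw [abs_of_nonneg (show (0:ℝ) ≤ T - 10 * Y by linarith only [hT10])]
      have hq : 0 ≤ C * (1 + |α₀|) ^ M / L := by (clear * - hC hL4; positivity)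
      nlinarith only [hY4, hq]
    have hLk : 1 ≤ L ^ (k ^ 2) := one_le_pow₀ (by linarith only [hL4])
    have h7 : (L ^ (k ^ 2))⁻¹ ≤ 1 := inv_le_one_of_one_le₀ hLk
    rw [hR, norm_mul, norm_inv, norm_real, Real.norm_eq_abs, abs_of_pos (by positivity), mul_inv,
      ← intervalIntegral.integral_add_adjacent_intervals i1 i2]
    have hYexp : Y ^ (2 * k + 1) / T = Real.exp (-(1 / (2 * (k:ℝ) + 2)) * L) := by
      rw [← hYT, hY, ← Real.exp_nat_mul, ← Real.exp_nat_mul, ← Real.exp_sub]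
      congr 1
      push_cast
      field_simp
      ring
    calc T⁻¹ * (L ^ (k ^ 2))⁻¹ * ‖(∫ t in (0:ℝ)..(10 * Y), F t) + ∫ t in (10 * Y)..T, F t‖
        ≤ T⁻¹ * 1 * (C * (1 + |α₀|) ^ M * (L * (12 * Y) ^ (2 * k)) * (10 * Y) +
          C * (1 + |α₀|) ^ M / L * T) := by
          gcongr
          exact (norm_add_le _ _).trans (add_le_add n1 n2)
      _ = (1 + |α₀|) ^ M * (C * (12 ^ (2 * k) * 10 * (L * (Y ^ (2 * k + 1) / T)) + L⁻¹)) := by
          rw [mul_pow]
          field_simp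
          ring
      _ = _ := by rw [hYexp]

end MP069854

end
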