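import Pool.Agent.Lib.MP_069854_nt.Part04
import Pool.Agent.Lib.MP_069854_nt.Part06

section

namespace MP069854
open Filter Topology Complex Set MeasureTheory
open scoped ContDiff

lemma exists_cut {k : ℕ} (hk : 1 ≤ k) {K : Set ℝ} (hK : IsCompact K)
    (hs : ∀ u ∈ K, u < 2 ∨ 2 * (k:ℝ) - 2 < u) :
    ∃ (χ : ℝ → ℝ) (a b : ℝ), ContDiff ℝ ∞ χ ∧ b < 2 ∧ 2 * (k:ℝ) - 2 < a ∧
      (∀ u ∈ K, χ u ≠ 0 → u ≤ b) ∧ (∀ u ∈ K, χ u ≠ 1 → a ≤ u) := by
  rcases Nat.lt_or_ge 1 k with h2 | h1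
  · have hk2 : (2:ℝ) ≤ 2 * (k:ℝ) - 2 := by
      have : (2:ℝ) ≤ k := by exact_mod_cast h2
      linarith
    obtain ⟨b, hb2, hb⟩ : ∃ b < (2:ℝ), ∀ u ∈ K, u < 2 → u ≤ b := by
      by_cases hne : (K ∩ Iic 2).Nonempty
      · obtain ⟨m, hm⟩ := (hK.inter_right isClosed_Iic).exists_isGreatest hne
        refine ⟨m, ?_, fun u hu hu2 => hm.2 ⟨hu, hu2.le⟩⟩
        rcases hs m hm.1.1 with h | h
        · exact h
        · have : m ≤ 2 := hm.1.2
          linarith
      · refine ⟨1, by norm_num, fun u hu hu2 => absurd ⟨u, hu, hu2.le⟩ hne⟩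
    obtain ⟨a, ha2, ha⟩ : ∃ a > 2 * (k:ℝ) - 2, ∀ u ∈ K, 2 * (k:ℝ) - 2 < u → a ≤ u := by
      by_cases hne : (K ∩ Ici (2 * (k:ℝ) - 2)).Nonempty
      · obtain ⟨m, hm⟩ := (hK.inter_right isClosed_Ici).exists_isLeast hne
        refine ⟨m, ?_, fun u hu hu2 => hm.2 ⟨hu, hu2.le⟩⟩
        rcases hs m hm.1.1 with h | h
        · have : 2 * (k:ℝ) - 2 ≤ m := hm.1.2
          linarith
        · exact h
      · refine ⟨2 * (k:ℝ) - 1, by linarith, fun u hu hu2 => absurd ⟨u, hu, hu2.le⟩ hne⟩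
    have hab : 0 < a - b := by linarith
    refine ⟨fun u => Real.smoothTransition ((a - u) / (a - b)), a, b, ?_, hb2, ha2, ?_, ?_⟩
    · exact Real.smoothTransition.contDiff.comp ((contDiff_const.sub contDiff_id).div_const _)
    · intro u hu h
      have h3 : u < a := by
        by_contra hcon
        exact h (Real.smoothTransition.zero_of_nonpos (div_nonpos_of_nonpos_of_nonneg
          (by linarith) hab.le))
      rcases hs u hu with h4 | h4
      · exact hb u hu h4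
      · exact absurd (ha u hu h4) (not_le.2 h3)
    · intro u hu h
      have h3 : b < u := by
        by_contra hcon
        exact h (Real.smoothTransition.one_of_one_le (by
          rw [le_div_iff₀ hab]; linarith))
      rcases hs u hu with h4 | h4
      · exact absurd (hb u hu h4) (not_le.2 h3)
      · exact ha u hu h4
  · obtain rfl : k = 1 := le_antisymm h1 hk
    refine ⟨fun u => Real.smoothTransition (3/2 - u), 1/2, 3/2, ?_, by norm_num, by norm_num, ?_, ?_⟩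
    · exact Real.smoothTransition.contDiff.comp (contDiff_const.sub contDiff_id)
    · intro u _ h
      by_contra hcon
      exact h (Real.smoothTransition.zero_of_nonpos (by linarith))
    · intro u _ h
      by_contra hcon
      exact h (Real.smoothTransition.one_of_one_le (by linarith))

lemma exists_split {k : ℕ} (hk : 1 ≤ k) {g : ℝ → ℂ} (hg : ContDiff ℝ ∞ g)
    (hc : HasCompactSupport g) (hs : ∀ u ∈ tsupport g, u < 2 ∨ 2 * (k:ℝ) - 2 < u) :
    ∃ (g₁ g₂ : ℝ → ℂ) (A B A' B' : ℝ), TF g₁ A B ∧ B < 2 ∧ TF g₂ A' B' ∧ 2 * (k:ℝ) - 2 < A' ∧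
      ∀ u, g u = g₁ u + g₂ u := by
  obtain ⟨χ, a, b, hχ, hb, ha, h1, h2⟩ := exists_cut hk hc hs
  obtain ⟨R, hR⟩ := hc.isBounded.subset_closedBall (0:ℝ)
  have hRb : ∀ u ∈ tsupport g, -R ≤ u ∧ u ≤ R := by
    intro u hu
    have := hR hu
    rw [mem_closedBall_zero_iff, Real.norm_eq_abs] at this
    exact abs_le.1 this
  have hχc : ContDiff ℝ ∞ fun u : ℝ => ((χ u : ℝ) : ℂ) := Complex.ofRealCLM.contDiff.comp hχ
  refine ⟨fun u => (χ u : ℂ) * g u, fun u => (1 - (χ u : ℂ)) * g u, -R, b, a, R,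
    ⟨hχc.mul hg, ?_⟩, hb, ⟨(contDiff_const.sub hχc).mul hg, ?_⟩, ha, fun u => by ring⟩
  · refine closure_minimal ?_ isClosed_Icc
    intro u hu
    have h3 : (χ u : ℂ) * g u ≠ 0 := hu
    have h4 : u ∈ tsupport g := subset_tsupport g (right_ne_zero_of_mul h3)
    exact ⟨(hRb u h4).1, h1 u h4 (by exact_mod_cast left_ne_zero_of_mul h3)⟩
  · refine closure_minimal ?_ isClosed_Icc
    intro u hu
    have h3 : (1 - (χ u : ℂ)) * g u ≠ 0 := hu
    have h4 : u ∈ tsupport g := subset_tsupport g (right_ne_zero_of_mul h3)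
    refine ⟨h2 u h4 ?_, (hRb u h4).2⟩
    intro h5
    exact left_ne_zero_of_mul h3 (by rw [h5]; simp)

lemma G_add {g g₁ g₂ : ℝ → ℂ} {A B A' B' : ℝ} (h1 : TF g₁ A B) (h2 : TF g₂ A' B')
    (h : ∀ u, g u = g₁ u + g₂ u) (w : ℂ) : G g w = G g₁ w + G g₂ w := by
  unfold G
  rw [← integral_add (h1.integrable_mul_exp w) (h2.integrable_mul_exp w)]
  refine integral_congr_ae (Eventually.of_forall fun u => ?_)
  simp only
  rw [h u]; ring

open Matrix in
/-- **Main theorem in internal notation.** -/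
theorem main {k : ℕ} (hk : 1 ≤ k) {g : ℝ → ℂ} (hg : ContDiff ℝ ∞ g)
    (hc : HasCompactSupport g) (hs : ∀ u ∈ tsupport g, u < 2 ∨ 2 * (k:ℝ) - 2 < u)
    [∀ N, MeasurableSpace (unitaryGroup (Fin N) ℂ)] [∀ N, BorelSpace (unitaryGroup (Fin N) ℂ)]
    (μ : ∀ N, Measure (unitaryGroup (Fin N) ℂ)) [∀ N, IsProbabilityMeasure (μ N)]
    [∀ N, (μ N).IsHaarMeasure] :
    ∃ ℓ : ℂ, (∀ T : ℝ, 1 < T → Integrable fun α : ℝ => G g (α * I) * Qk k α T) ∧
      (∀ N : ℕ, Integrable fun α : ℝ => G g (α * I) * Wk (μ N) k α) ∧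
      Tendsto (fun T : ℝ => ∫ α : ℝ, G g (α * I) * Qk k α T) atTop (𝓝 (arith k * ℓ)) ∧
      Tendsto (fun N : ℕ => ∫ α : ℝ, G g (α * I) * Wk (μ N) k α) atTop (𝓝 ℓ) ∧
      ∀ 𝒲 : ℝ → ℂ, (∀ α : ℝ, Tendsto (fun N : ℕ => Wk (μ N) k α) atTop (𝓝 (𝒲 α))) →
        Integrable (fun α : ℝ => G g (α * I) * 𝒲 α) ∧ ∫ α : ℝ, G g (α * I) * 𝒲 α = ℓ := by
  obtain ⟨g₁, g₂, A, B, A', B', t1, hB, t2, hA, hsplit⟩ := exists_split hk hg hc hs
  have hG := G_add t1 t2 hsplit
  have q1 : ∀ T : ℝ, 1 < T → Integrable fun α : ℝ => G g (α * I) * Qk k α T := by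
    intro T hT
    refine ((Qk_integrable (k := k) t1 hT).add (Qk_integrable (k := k) t2 hT)).congr
      (Eventually.of_forall fun α => ?_)
    simp only [Pi.add_apply, hG]; ring
  have q2 : ∀ N : ℕ, Integrable fun α : ℝ => G g (α * I) * Wk (μ N) k α := by
    intro N
    refine ((Wk_integrable (μ N) t1 k).add (Wk_integrable (μ N) t2 k)).congr
      (Eventually.of_forall fun α => ?_)
    simp only [Pi.add_apply, hG]; ring
  have l1 := (low_side hk t1 hB).add (high_side hk t2 hA)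
  have l2 := (Wk_low μ hk t1 hB).add (Wk_high μ hk t2 hA)
  set I1 := ∫ y in Set.Ioi (0:ℝ), g₁ (2 * y) * wt (k ^ 2) y
  set I2 := ∫ y in Set.Ioi (0:ℝ), g₂ (2 * k - 2 * y) * wt (k ^ 2) y
  have l3 : Tendsto (fun N : ℕ => ∫ α : ℝ, G g (α * I) * Wk (μ N) k α) atTop
      (𝓝 (2 * Real.pi * I1 + 2 * Real.pi * I2)) := by
    refine l2.congr fun N => ?_
    rw [← integral_add (Wk_integrable (μ N) t1 k) (Wk_integrable (μ N) t2 k)]
    refine integral_congr_ae (Eventually.of_forall fun α => ?_)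
    simp only [hG]; ring
  refine ⟨2 * Real.pi * I1 + 2 * Real.pi * I2, q1, q2, ?_, l3, ?_⟩
  · have e : (arith k : ℂ) * (2 * Real.pi * I1 + 2 * Real.pi * I2) =
      2 * Real.pi * (arith k * I1) + 2 * Real.pi * (arith k * I2) := by ring
    rw [e]
    refine l1.congr' ?_
    filter_upwards [eventually_gt_atTop (1:ℝ)] with T hT
    rw [← integral_add (Qk_integrable (k := k) t1 hT) (Qk_integrable (k := k) t2 hT)]
    refine integral_congr_ae (Eventually.of_forall fun α => ?_)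
    simp only [hG]; ring
  · intro 𝒲 h𝒲
    have hbound : ∀ N : ℕ, ∀ α : ℝ, ‖Wk (μ N) k α‖ ≤ ‖Wk (μ N) k 0‖ := by
      intro N α
      have hnn : ∀ j, mm (μ N) k j j = ((‖mm (μ N) k j j‖ : ℝ) : ℂ) := by
        intro j
        have h1 : mm (μ N) k j j = ((∫ U : unitaryGroup (Fin N) ℂ,
            ‖aj k (U : Matrix (Fin N) (Fin N) ℂ) j‖ ^ 2 ∂(μ N) : ℝ) : ℂ) := by
          unfold mm
          rw [← integral_complex_ofReal]
          refine integral_congr_ae (Eventually.of_forall fun U => ?_)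
          simp only
          rw [Complex.mul_conj, Complex.normSq_eq_norm_sq]
        have h2 : 0 ≤ ∫ U : unitaryGroup (Fin N) ℂ,
            ‖aj k (U : Matrix (Fin N) (Fin N) ℂ) j‖ ^ 2 ∂(μ N) :=
          integral_nonneg fun U => by positivity
        rw [h1, Complex.norm_real, Real.norm_eq_abs, abs_of_nonneg h2]
      rw [Wk_eq, Wk_eq, norm_mul, norm_mul]
      refine mul_le_mul_of_nonneg_left ?_ (norm_nonneg _)
      have h3 : ‖∑ j ∈ Finset.range (k * N + 1), mm (μ N) k j j *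
          exp (-(((0:ℝ) : ℂ) * (2 * j / N : ℝ)) * I)‖ =
          ∑ j ∈ Finset.range (k * N + 1), ‖mm (μ N) k j j‖ := by
        have h4 : ∑ j ∈ Finset.range (k * N + 1), mm (μ N) k j j *
          exp (-(((0:ℝ) : ℂ) * (2 * j / N : ℝ)) * I) =
          ((∑ j ∈ Finset.range (k * N + 1), ‖mm (μ N) k j j‖ : ℝ) : ℂ) := by
          rw [Complex.ofReal_sum]
          refine Finset.sum_congr rfl fun j _ => ?_
          rw [← hnn j]; simp
        rw [h4, Complex.norm_real, Real.norm_eq_abs, abs_of_nonneg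
          (Finset.sum_nonneg fun j _ => norm_nonneg _)]
      rw [h3]
      refine (norm_sum_le _ _).trans (Finset.sum_le_sum fun j _ => ?_)
      rw [norm_mul, show (-((α:ℂ) * (2 * j / N : ℝ)) * I) = ((-(α * (2 * j / N)) : ℝ) : ℂ) * I by
        push_cast; ring, Complex.norm_exp_ofReal_mul_I, mul_one]
    have hGi : Integrable fun α : ℝ => G g (α * I) := by
      have e1 : Integrable fun α : ℝ => G g₁ (α * I) := by simpa using t1.G_vert_integrable 0
      have e2 : Integrable fun α : ℝ => G g₂ (α * I) := by simpa using t2.G_vert_integrable 0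
      exact (e1.add e2).congr (Eventually.of_forall fun α => by simp only [Pi.add_apply, hG])
    have hdom : Tendsto (fun N : ℕ => ∫ α : ℝ, G g (α * I) * Wk (μ N) k α) atTop
        (𝓝 (∫ α : ℝ, G g (α * I) * 𝒲 α)) := by
      refine tendsto_integral_filter_of_dominated_convergence
        (fun α => ‖G g (α * I)‖ * (‖𝒲 0‖ + 1)) ?_ ?_ ?_ ?_
      · exact Eventually.of_forall fun N => (q2 N).aestronglyMeasurable
      · have h5 := (h𝒲 0).norm.eventually (gt_mem_nhds (lt_add_one ‖𝒲 0‖))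
        filter_upwards [h5] with N hN
        refine Eventually.of_forall fun α => ?_
        rw [norm_mul]
        exact mul_le_mul_of_nonneg_left ((hbound N α).trans hN.le) (norm_nonneg _)
      · exact hGi.norm.mul_const _
      · exact Eventually.of_forall fun α => (h𝒲 α).const_mul _
    refine ⟨?_, tendsto_nhds_unique hdom l3⟩
    refine (hGi.norm.mul_const ‖𝒲 0‖).mono' ?_ ?_
    · exact aestronglyMeasurable_of_tendsto_ae atTop
        (fun N => (q2 N).aestronglyMeasurable)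
        (Eventually.of_forall fun α => (h𝒲 α).const_mul _)
    · refine Eventually.of_forall fun α => ?_
      rw [norm_mul]
      refine mul_le_mul_of_nonneg_left ?_ (norm_nonneg _)
      exact le_of_tendsto_of_tendsto (h𝒲 α).norm (h𝒲 0).norm
        (Eventually.of_forall fun N => hbound N α)

end MP069854

end

section

namespace MP069854
open Filter Topology Complex Set MeasureTheory
open scoped ContDiff FourierTransform

lemma Qk_cont (k : ℕ) (T : ℝ) : Continuous fun α : ℝ => Qk k α T := by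
  simp_rw [Qk_eq]
  refine continuous_const.mul ?_
  exact intervalIntegral.continuous_parametric_intervalIntegral_of_continuous'
    (f := fun (α t : ℝ) => Z k t (1/2 + (α / Real.log T : ℝ) * I)) (Z_cont2 k (Real.log T)) 0 T

lemma Qk_poly (k : ℕ) {T : ℝ} (hT : 1 < T) : ∃ C : ℝ, 0 ≤ C ∧ ∀ α : ℝ,
    ‖Qk k α T‖ ≤ C * (1 + |α|) ^ (2 * k) := by
  obtain ⟨C, hC1, hC⟩ := Z_crit k
  have hL := Real.log_pos hT
  set L := Real.log T with hLdef
  have hT0 : 0 < T := by linarith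
  refine ⟨(T * L ^ (k ^ 2))⁻¹ * (C * (2 + 1 / L + T) ^ (2 * k) * T), by positivity, ?_⟩
  intro α
  rw [Qk_eq, norm_mul, norm_inv, Complex.norm_real, Real.norm_eq_abs, abs_of_pos (by positivity)]
  have h1 := intervalIntegral.norm_integral_le_of_norm_le_const
    (f := fun t : ℝ => Z k t (1/2 + (α / L : ℝ) * I)) (a := 0) (b := T)
    (C := C * (2 + 1 / L + T) ^ (2 * k) * (1 + |α|) ^ (2 * k)) (fun t ht => by
      rw [uIoc_of_le hT0.le] at ht
      refine (hC t (α / L) ht.1.le).trans ?_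
      rw [mul_assoc, ← mul_pow]
      have := ht.1
      gcongr
      rw [abs_div, abs_of_pos hL]
      have h3 := abs_nonneg α
      have h4 : |α| / L = 1 / L * |α| := by ring
      have h5 : 0 ≤ 1 / L := by positivity
      rw [h4]
      nlinarith [ht.2, mul_nonneg h5 h3, mul_nonneg hT0.le h3])
  rw [sub_zero, abs_of_pos hT0] at h1
  calc (T * L ^ (k ^ 2))⁻¹ * ‖∫ t in (0:ℝ)..T, Z k t (1/2 + (α / L : ℝ) * I)‖
      ≤ (T * L ^ (k ^ 2))⁻¹ * (C * (2 + 1 / L + T) ^ (2 * k) * (1 + |α|) ^ (2 * k) * T) := by gcongr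
    _ = _ := by ring

lemma Wk_cont {N : ℕ} [MeasurableSpace (Matrix.unitaryGroup (Fin N) ℂ)]
    [BorelSpace (Matrix.unitaryGroup (Fin N) ℂ)] (μ : Measure (Matrix.unitaryGroup (Fin N) ℂ))
    [IsProbabilityMeasure μ] [μ.IsHaarMeasure] (k : ℕ) : Continuous fun α : ℝ => Wk μ k α := by
  simp_rw [Wk_eq]
  refine continuous_const.mul (continuous_finsetSum _ fun j _ => continuous_const.mul ?_)
  fun_prop

lemma Wk_bdd {N : ℕ} [MeasurableSpace (Matrix.unitaryGroup (Fin N) ℂ)]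
    [BorelSpace (Matrix.unitaryGroup (Fin N) ℂ)] (μ : Measure (Matrix.unitaryGroup (Fin N) ℂ))
    [IsProbabilityMeasure μ] [μ.IsHaarMeasure] (k : ℕ) (α : ℝ) : ‖Wk μ k α‖ ≤ ‖Wk μ k 0‖ := by
  have hnn : ∀ j, mm μ k j j = ((‖mm μ k j j‖ : ℝ) : ℂ) := by
    intro j
    have h1 : mm μ k j j = ((∫ U : Matrix.unitaryGroup (Fin N) ℂ,
        ‖aj k (U : Matrix (Fin N) (Fin N) ℂ) j‖ ^ 2 ∂μ : ℝ) : ℂ) := by
      unfold mm
      rw [← integral_complex_ofReal]
      refine integral_congr_ae (Eventually.of_forall fun U => ?_)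
      simp only
      rw [Complex.mul_conj, Complex.normSq_eq_norm_sq]
    have h2 : 0 ≤ ∫ U : Matrix.unitaryGroup (Fin N) ℂ,
        ‖aj k (U : Matrix (Fin N) (Fin N) ℂ) j‖ ^ 2 ∂μ :=
      integral_nonneg fun U => by positivity
    rw [h1, Complex.norm_real, Real.norm_eq_abs, abs_of_nonneg h2]
  rw [Wk_eq, Wk_eq, norm_mul, norm_mul]
  refine mul_le_mul_of_nonneg_left ?_ (norm_nonneg _)
  have h3 : ‖∑ j ∈ Finset.range (k * N + 1), mm μ k j j *
      exp (-(((0:ℝ) : ℂ) * (2 * j / N : ℝ)) * I)‖ =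
      ∑ j ∈ Finset.range (k * N + 1), ‖mm μ k j j‖ := by
    have h4 : ∑ j ∈ Finset.range (k * N + 1), mm μ k j j *
      exp (-(((0:ℝ) : ℂ) * (2 * j / N : ℝ)) * I) =
      ((∑ j ∈ Finset.range (k * N + 1), ‖mm μ k j j‖ : ℝ) : ℂ) := by
      rw [Complex.ofReal_sum]
      refine Finset.sum_congr rfl fun j _ => ?_
      rw [← hnn j]; simp
    rw [h4, Complex.norm_real, Real.norm_eq_abs, abs_of_nonneg
      (Finset.sum_nonneg fun j _ => norm_nonneg _)]
  rw [h3]
  refine (norm_sum_le _ _).trans (Finset.sum_le_sum fun j _ => ?_)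
  rw [norm_mul, show (-((α:ℂ) * (2 * j / N : ℝ)) * I) = ((-(α * (2 * j / N)) : ℝ) : ℂ) * I by
    push_cast; ring, Complex.norm_exp_ofReal_mul_I, mul_one]

lemma norm_exp_phase (x y : ℝ) : ‖exp (-((x : ℂ) * y) * I)‖ = 1 := by
  rw [show (-((x : ℂ) * y) * I) = ((-(x * y) : ℝ) : ℂ) * I by push_cast; ring,
    Complex.norm_exp_ofReal_mul_I]

section
variable {ν : Measure ℝ} {h : ℝ → ℂ} (hmom : ∀ n : ℕ, Integrable (fun α : ℝ => (α : ℂ) ^ n * h α) ν)
include hmom

lemma mom_h : Integrable h ν := by simpa using hmom 0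

lemma mom_abs (n : ℕ) : Integrable (fun α : ℝ => ‖α‖ ^ n * ‖h α‖) ν := by
  refine (hmom n).norm.congr (Eventually.of_forall fun α => ?_)
  simp

lemma mom_pow (n : ℕ) : Integrable (fun α : ℝ => (1 + |α|) ^ n * ‖h α‖) ν := by
  have h1 := ((mom_h hmom).norm.add (mom_abs hmom n)).const_mul ((2:ℝ) ^ n)
  refine h1.mono' ?_ (Eventually.of_forall fun α => ?_)
  · exact (by fun_prop : Continuous fun α : ℝ => (1 + |α|) ^ n).aestronglyMeasurable.mul
      (mom_h hmom).norm.aestronglyMeasurable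
  · rw [Real.norm_eq_abs, abs_of_nonneg (by positivity)]
    simp only [Pi.add_apply, Real.norm_eq_abs]
    have h2 : (1 + |α|) ^ n ≤ 2 ^ n * (1 + |α| ^ n) := by
      rcases le_total |α| 1 with h | h
      · calc (1 + |α|) ^ n ≤ 2 ^ n := pow_le_pow_left₀ (by positivity) (by linarith) n
          _ = 2 ^ n * 1 := (mul_one _).symm
          _ ≤ _ := by gcongr; linarith [pow_nonneg (abs_nonneg α) n]
      · calc (1 + |α|) ^ n ≤ (2 * |α|) ^ n := pow_le_pow_left₀ (by positivity) (by linarith) n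
          _ = 2 ^ n * |α| ^ n := mul_pow _ _ _
          _ ≤ _ := by gcongr; linarith
    calc (1 + |α|) ^ n * ‖h α‖ ≤ (2 ^ n * (1 + |α| ^ n)) * ‖h α‖ := by gcongr
      _ = _ := by ring

/-- Fourier transform of the measure `h ν` -/
noncomputable def FM (ν : Measure ℝ) (h : ℝ → ℂ) (u : ℝ) : ℂ := ∫ α : ℝ, h α * exp (-(α * u) * I) ∂ν

omit hmom in
lemma FM_eq (u : ℝ) : FM ν h u =
    VectorFourier.fourierIntegral 𝐞 ν (innerSL ℝ : ℝ →L[ℝ] ℝ →L[ℝ] ℝ).toLinearMap₁₂ h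
      (u / (2 * Real.pi)) := by
  unfold FM VectorFourier.fourierIntegral
  refine integral_congr_ae (Eventually.of_forall fun α => ?_)
  have h1 : ((innerSL ℝ : ℝ →L[ℝ] ℝ →L[ℝ] ℝ).toLinearMap₁₂ α) (u / (2 * Real.pi)) =
      α * (u / (2 * Real.pi)) := by
    change inner ℝ α (u / (2 * Real.pi)) = α * (u / (2 * Real.pi))
    simp [mul_comm]
  simp only [h1, Circle.smul_def, Real.fourierChar_apply, smul_eq_mul]
  rw [mul_comm]
  congr 2
  have hpi : (Real.pi : ℂ) ≠ 0 := by exact_mod_cast Real.pi_ne_zero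
  push_cast
  field_simp

lemma FM_smooth : ContDiff ℝ ∞ (FM ν h) := by
  have h1 := VectorFourier.contDiff_fourierIntegral (μ := ν) (N := ⊤)
    (innerSL ℝ : ℝ →L[ℝ] ℝ →L[ℝ] ℝ) (f := h) (fun n _ => mom_abs hmom n)
  have h2 : FM ν h = fun u => VectorFourier.fourierIntegral 𝐞 ν
      (innerSL ℝ : ℝ →L[ℝ] ℝ →L[ℝ] ℝ).toLinearMap₁₂ h (u / (2 * Real.pi)) := funext FM_eq
  rw [h2]
  exact h1.comp (contDiff_id.div_const _)

lemma gF_TF (k : ℕ) : TF (fun u => g00 k u * FM ν h u) (-1) (2 * k + 1) := by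
  refine ⟨(g00_TF k).smooth.mul (FM_smooth hmom), ?_⟩
  refine (closure_minimal ?_ (isClosed_tsupport (g00 k))).trans (g00_TF k).supp
  intro u hu
  exact subset_tsupport _ (left_ne_zero_of_mul (show g00 k u * FM ν h u ≠ 0 from hu))

variable [SFinite ν]

lemma G_gF (k : ℕ) (α : ℝ) : G (fun u => g00 k u * FM ν h u) (α * I) =
    ∫ α₀ : ℝ, h α₀ * G (gal k α₀) (α * I) ∂ν := by
  have hh := mom_h hmom
  have hg : Integrable (g00 k) := (g00_TF k).cont.integrable_of_hasCompactSupport (g00_TF k).hcs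
  have hprod : Integrable (fun p : ℝ × ℝ => g00 k p.1 * h p.2 *
      (exp (-(p.2 * p.1) * I) * exp (p.1 * (α * I)))) ((volume : Measure ℝ).prod ν) := by
    have h1 : Integrable (fun p : ℝ × ℝ => g00 k p.1 * h p.2) ((volume : Measure ℝ).prod ν) :=
      hg.mul_prod hh
    refine h1.mul_bdd (c := 1) ?_ ?_
    · exact (by fun_prop : Continuous fun p : ℝ × ℝ =>
        exp (-((p.2 : ℂ) * p.1) * I) * exp (p.1 * (α * I))).aestronglyMeasurable
    · refine Eventually.of_forall fun p => ?_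
      rw [norm_mul, norm_exp_phase, one_mul, show ((p.1 : ℂ) * (α * I)) = ((p.1 * α : ℝ) : ℂ) * I by
        push_cast; ring, Complex.norm_exp_ofReal_mul_I]
  have hsw := integral_integral_swap (f := fun (u : ℝ) (α₀ : ℝ) => g00 k u * h α₀ *
      (exp (-(α₀ * u) * I) * exp (u * (α * I)))) hprod
  have hl : G (fun u => g00 k u * FM ν h u) (α * I) = ∫ u : ℝ, ∫ α₀ : ℝ, g00 k u * h α₀ *
      (exp (-(α₀ * u) * I) * exp (u * (α * I))) ∂ν := by
    unfold G FM
    refine integral_congr_ae (Eventually.of_forall fun u => ?_)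
    simp only
    rw [mul_assoc, ← integral_mul_const, ← integral_const_mul]
    refine integral_congr_ae (Eventually.of_forall fun α₀ => ?_)
    simp only
    ring
  rw [hl, hsw]
  refine integral_congr_ae (Eventually.of_forall fun α₀ => ?_)
  simp only
  unfold G gal
  rw [← integral_const_mul]
  refine integral_congr_ae (Eventually.of_forall fun u => ?_)
  simp only
  ring

omit [SFinite ν] in
lemma hQ_integrable (k : ℕ) {T : ℝ} (hT : 1 < T) : Integrable (fun α => h α * Qk k α T) ν := by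
  obtain ⟨C, hC, hb⟩ := Qk_poly k hT
  refine ((mom_pow hmom (2 * k)).const_mul C).mono' ?_ (Eventually.of_forall fun α => ?_)
  · exact (mom_h hmom).aestronglyMeasurable.mul (Qk_cont k T).aestronglyMeasurable
  · rw [norm_mul]
    calc ‖h α‖ * ‖Qk k α T‖ ≤ ‖h α‖ * (C * (1 + |α|) ^ (2 * k)) := by gcongr; exact hb α
      _ = _ := by ring

lemma big_fubini (k : ℕ) {T : ℝ} (hT : 1 < T) :
    Integrable (fun α₀ => h α₀ * ∫ α : ℝ, G (gal k α₀) (α * I) * Qk k α T) ν ∧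
    ∫ α₀ : ℝ, h α₀ * (∫ α : ℝ, G (gal k α₀) (α * I) * Qk k α T) ∂ν =
      ∫ α : ℝ, G (fun u => g00 k u * FM ν h u) (α * I) * Qk k α T := by
  obtain ⟨C, hC, hb⟩ := Qk_poly k hT
  obtain ⟨D, hD, hd⟩ := (g00_TF k).decay_strip (2 * k + 2)
  have hconv := Integrable.convolution_integrand (μ := (volume : Measure ℝ)) (ν := ν)
    (ContinuousLinearMap.mul ℝ ℝ) (f := fun α₀ : ℝ => (1 + |α₀|) ^ (2 * k) * ‖h α₀‖)
    (g := fun x : ℝ => (1 + x ^ 2)⁻¹) (mom_pow hmom (2 * k)) integrable_inv_one_add_sq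
  have hprod : Integrable (fun p : ℝ × ℝ => h p.2 * (G (gal k p.2) (p.1 * I) * Qk k p.1 T))
      ((volume : Measure ℝ).prod ν) := by
    refine (hconv.const_mul (C * D)).mono' ?_ (Eventually.of_forall fun p => ?_)
    · simp_rw [G_gal]
      refine (mom_h hmom).aestronglyMeasurable.comp_snd.mul ?_
      have c1 : Continuous fun p : ℝ × ℝ => G (g00 k) ((p.1 - p.2 : ℝ) * I) :=
        (G_line_cont (g00_TF k)).comp (f := fun p : ℝ × ℝ => p.1 - p.2) (by fun_prop)
      exact (c1.mul ((Qk_cont k T).comp continuous_fst)).aestronglyMeasurable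
    · rw [norm_mul, norm_mul, G_gal]
      simp only [ContinuousLinearMap.mul_apply']
      have e1 := hd ((p.1 - p.2 : ℝ) * I) (by simp)
      have him : (((p.1 - p.2 : ℝ) : ℂ) * I).im = p.1 - p.2 := by simp
      rw [him] at e1
      have e2 := hb p.1
      have e3 : 1 + |p.1| ≤ (1 + |p.1 - p.2|) * (1 + |p.2|) := by
        have := abs_add_le (p.1 - p.2) p.2
        rw [sub_add_cancel] at this
        nlinarith [abs_nonneg (p.1 - p.2), abs_nonneg p.2]
      have e4 : 1 + (p.1 - p.2) ^ 2 ≤ (1 + |p.1 - p.2|) ^ 2 := by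
        nlinarith [abs_nonneg (p.1 - p.2), sq_abs (p.1 - p.2)]
      have e5 : ‖G (g00 k) ((p.1 - p.2 : ℝ) * I)‖ * (1 + |p.1 - p.2|) ^ (2 * k) ≤
          D * (1 + (p.1 - p.2) ^ 2)⁻¹ := by
        rw [← div_eq_mul_inv, le_div_iff₀ (by positivity)]
        refine le_trans ?_ e1
        rw [pow_add, ← mul_assoc]
        gcongr
      calc ‖h p.2‖ * (‖G (g00 k) ((p.1 - p.2 : ℝ) * I)‖ * ‖Qk k p.1 T‖)
          ≤ ‖h p.2‖ * (‖G (g00 k) ((p.1 - p.2 : ℝ) * I)‖ *
            (C * ((1 + |p.1 - p.2|) * (1 + |p.2|)) ^ (2 * k))) := by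
            gcongr
            exact e2.trans (by gcongr)
        _ = C * ‖h p.2‖ * (1 + |p.2|) ^ (2 * k) *
            (‖G (g00 k) ((p.1 - p.2 : ℝ) * I)‖ * (1 + |p.1 - p.2|) ^ (2 * k)) := by
            rw [mul_pow]; ring
        _ ≤ C * ‖h p.2‖ * (1 + |p.2|) ^ (2 * k) * (D * (1 + (p.1 - p.2) ^ 2)⁻¹) := by gcongr
        _ = _ := by ring
  constructor
  · refine hprod.integral_prod_right.congr (Eventually.of_forall fun α₀ => ?_)
    simp only
    rw [integral_const_mul]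
  · have hsw := integral_integral_swap (f := fun (α : ℝ) (α₀ : ℝ) =>
      h α₀ * (G (gal k α₀) (α * I) * Qk k α T)) hprod
    have hl : ∫ α₀ : ℝ, h α₀ * (∫ α : ℝ, G (gal k α₀) (α * I) * Qk k α T) ∂ν =
        ∫ α₀ : ℝ, (∫ α : ℝ, h α₀ * (G (gal k α₀) (α * I) * Qk k α T)) ∂ν := by
      refine integral_congr_ae (Eventually.of_forall fun α₀ => ?_)
      simp only
      rw [integral_const_mul]
    rw [hl, ← hsw]
    refine integral_congr_ae (Eventually.of_forall fun α => ?_)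
    simp only
    rw [G_gF hmom k α, ← integral_mul_const]
    refine integral_congr_ae (Eventually.of_forall fun α₀ => ?_)
    simp only
    ring

/-- the difference tends to zero -/
lemma diff_zero (k : ℕ) : Tendsto (fun T : ℝ => 2 * Real.pi * (∫ α : ℝ, h α * Qk k α T ∂ν) -
    ∫ α : ℝ, G (fun u => g00 k u * FM ν h u) (α * I) * Qk k α T) atTop (𝓝 0) := by
  obtain ⟨M, ε, hε, hU⟩ := unif_rep k
  have h1 : Tendsto (fun T => ε T * ∫ α : ℝ, (1 + |α|) ^ M * ‖h α‖ ∂ν) atTop (𝓝 0) := by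
    simpa using hε.mul_const (∫ α : ℝ, (1 + |α|) ^ M * ‖h α‖ ∂ν)
  refine squeeze_zero_norm' ?_ h1
  filter_upwards [hU, eventually_gt_atTop (1:ℝ)] with T hT hT1
  obtain ⟨i2, e2⟩ := big_fubini hmom k hT1
  have i1 := hQ_integrable hmom k hT1
  rw [← e2, ← integral_const_mul, ← integral_sub (i1.const_mul _) i2, ← integral_const_mul]
  refine norm_integral_le_of_norm_le ((mom_pow hmom M).const_mul _) (Eventually.of_forall fun α₀ => ?_)
  have e3 : 2 * (Real.pi : ℂ) * (h α₀ * Qk k α₀ T) -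
      h α₀ * ∫ α : ℝ, G (gal k α₀) (α * I) * Qk k α T =
      h α₀ * (2 * Real.pi * Qk k α₀ T - ∫ α : ℝ, G (gal k α₀) (α * I) * Qk k α T) := by ring
  rw [e3, norm_mul]
  calc _ ≤ ‖h α₀‖ * ((1 + |α₀|) ^ M * ε T) := by gcongr; exact hT α₀
    _ = _ := by ring

omit [SFinite ν] in
lemma W_exact {N : ℕ} [MeasurableSpace (Matrix.unitaryGroup (Fin N) ℂ)]
    [BorelSpace (Matrix.unitaryGroup (Fin N) ℂ)] (μ : Measure (Matrix.unitaryGroup (Fin N) ℂ))
    [IsProbabilityMeasure μ] [μ.IsHaarMeasure] (k : ℕ) :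
    2 * Real.pi * (∫ α : ℝ, h α * Wk μ k α ∂ν) =
      ∫ α : ℝ, G (fun u => g00 k u * FM ν h u) (α * I) * Wk μ k α := by
  rw [Wk_integral μ (gF_TF hmom k) k]
  have hi : ∀ j ∈ Finset.range (k * N + 1), Integrable (fun α : ℝ =>
      (((N : ℂ) ^ (k ^ 2))⁻¹ * mm μ k j j) * (h α * exp (-(α * (2 * j / N : ℝ)) * I))) ν := by
    intro j _
    refine Integrable.const_mul ?_ _
    refine (mom_h hmom).mul_bdd (c := 1) ?_ ?_
    · exact (by fun_prop : Continuous fun α : ℝ => exp (-((α : ℂ) * (2 * j / N : ℝ)) * I)).aestronglyMeasurable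
    · exact Eventually.of_forall fun α => (norm_exp_phase α (2 * j / N)).le
  have h1 : ∀ α : ℝ, h α * Wk μ k α = ∑ j ∈ Finset.range (k * N + 1),
      (((N : ℂ) ^ (k ^ 2))⁻¹ * mm μ k j j) * (h α * exp (-(α * (2 * j / N : ℝ)) * I)) := by
    intro α
    rw [Wk_eq, ← mul_assoc, Finset.mul_sum]
    refine Finset.sum_congr rfl fun j _ => ?_
    ring
  simp_rw [h1]
  rw [integral_finsetSum _ hi, Finset.mul_sum, Finset.mul_sum]
  refine Finset.sum_congr rfl fun j hj => ?_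
  rw [integral_const_mul]
  have hj' : j ≤ k * N := by rw [Finset.mem_range] at hj; omega
  have hg1 : g00 k (2 * j / N) = 1 := by
    apply g00_one
    · positivity
    · rcases Nat.eq_zero_or_pos N with rfl | hN
      · simp
      · have hN0 : (0:ℝ) < N := by exact_mod_cast hN
        rw [div_le_iff₀ hN0]
        have : (j : ℝ) ≤ k * N := by exact_mod_cast hj'
        linarith
  rw [hg1, one_mul]
  have hF : FM ν h (2 * j / N) = ∫ α : ℝ, h α * exp (-(α * (2 * j / N : ℝ)) * I) ∂ν := by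
    unfold FM
    rfl
  rw [hF]
  ring

open Matrix in
/-- **The unconditional theorem for measures of shifts.** -/
theorem mainU {k : ℕ} (hk : 1 ≤ k) {δ : ℝ} (hδ : 0 < δ)
    (hs : ∀ u : ℝ, 2 - δ < u → u < 2 * (k:ℝ) - 2 + δ → FM ν h u = 0)
    [∀ N, MeasurableSpace (unitaryGroup (Fin N) ℂ)] [∀ N, BorelSpace (unitaryGroup (Fin N) ℂ)]
    (μ : ∀ N, Measure (unitaryGroup (Fin N) ℂ)) [∀ N, IsProbabilityMeasure (μ N)]
    [∀ N, (μ N).IsHaarMeasure] :
    (∀ T : ℝ, 1 < T → Integrable (fun α : ℝ => h α * Qk k α T) ν) ∧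
      (∀ N : ℕ, Integrable (fun α : ℝ => h α * Wk (μ N) k α) ν) ∧
      ∃ ℓ : ℂ, Tendsto (fun T : ℝ => ∫ α : ℝ, h α * Qk k α T ∂ν) atTop (𝓝 (arith k * ℓ)) ∧
      Tendsto (fun N : ℕ => ∫ α : ℝ, h α * Wk (μ N) k α ∂ν) atTop (𝓝 ℓ) ∧
      ∀ 𝒲 : ℝ → ℂ, (∀ α : ℝ, Tendsto (fun N : ℕ => Wk (μ N) k α) atTop (𝓝 (𝒲 α))) →
        Integrable (fun α : ℝ => h α * 𝒲 α) ν ∧ ∫ α : ℝ, h α * 𝒲 α ∂ν = ℓ := by
  have hk0 : (1:ℝ) ≤ k := by exact_mod_cast hk
  have tf := gF_TF hmom k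
  set g : ℝ → ℂ := fun u => g00 k u * FM ν h u with hg
  have hsupp : ∀ u ∈ tsupport g, u < 2 ∨ 2 * (k:ℝ) - 2 < u := by
    intro u hu
    by_contra hcon
    rw [not_or, not_lt, not_lt] at hcon
    have hopen : ∀ᶠ v in 𝓝 u, 2 - δ < v ∧ v < 2 * (k:ℝ) - 2 + δ :=
      (lt_mem_nhds (by linarith)).and (gt_mem_nhds (by linarith))
    have hz : g =ᶠ[𝓝 u] 0 := by
      filter_upwards [hopen] with v hv
      simp only [hg, Pi.zero_apply]
      rw [hs v hv.1 hv.2, mul_zero]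
    exact notMem_tsupport_iff_eventuallyEq.2 hz hu
  obtain ⟨ℓ, -, -, h3, h4, -⟩ := main hk tf.smooth tf.hcs hsupp μ
  have hpi : (2 * Real.pi : ℂ) ≠ 0 := twopi_ne
  have wint : ∀ N : ℕ, Integrable (fun α : ℝ => h α * Wk (μ N) k α) ν := fun N =>
    (mom_h hmom).mul_bdd (c := ‖Wk (μ N) k 0‖) (Wk_cont (μ N) k).aestronglyMeasurable
      (Eventually.of_forall fun α => Wk_bdd (μ N) k α)
  refine ⟨fun T hT => hQ_integrable hmom k hT, wint, (2 * Real.pi : ℂ)⁻¹ * ℓ, ?_, ?_, ?_⟩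
  · have h0 := diff_zero hmom k
    rw [← hg] at h0
    have h5 := (h0.add h3).const_mul (2 * Real.pi : ℂ)⁻¹
    rw [zero_add] at h5
    rw [mul_left_comm]
    refine h5.congr fun T => ?_
    rw [sub_add_cancel, inv_mul_cancel_left₀ hpi]
  · have h5 := h4.const_mul (2 * Real.pi : ℂ)⁻¹
    refine h5.congr fun N => ?_
    simp only [hg]
    rw [← W_exact hmom (μ N) k]
    field_simp
  · intro 𝒲 h𝒲
    have h4' : Tendsto (fun N : ℕ => ∫ α : ℝ, h α * Wk (μ N) k α ∂ν) atTop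
        (𝓝 ((2 * Real.pi : ℂ)⁻¹ * ℓ)) := by
      have h5 := h4.const_mul (2 * Real.pi : ℂ)⁻¹
      refine h5.congr fun N => ?_
      simp only [hg]
      rw [← W_exact hmom (μ N) k]
      field_simp
    have h5 := (h𝒲 0).norm.eventually (gt_mem_nhds (lt_add_one ‖𝒲 0‖))
    have hdom : Tendsto (fun N : ℕ => ∫ α : ℝ, h α * Wk (μ N) k α ∂ν) atTop
        (𝓝 (∫ α : ℝ, h α * 𝒲 α ∂ν)) := by
      refine tendsto_integral_filter_of_dominated_convergence
        (fun α => ‖h α‖ * (‖𝒲 0‖ + 1)) ?_ ?_ ?_ ?_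
      · exact Eventually.of_forall fun N => (wint N).aestronglyMeasurable
      · filter_upwards [h5] with N hN
        refine Eventually.of_forall fun α => ?_
        rw [norm_mul]
        exact mul_le_mul_of_nonneg_left ((Wk_bdd (μ N) k α).trans hN.le) (norm_nonneg _)
      · exact (mom_h hmom).norm.mul_const _
      · exact Eventually.of_forall fun α => (h𝒲 α).const_mul _
    refine ⟨?_, tendsto_nhds_unique hdom h4'⟩
    refine ((mom_h hmom).norm.mul_const ‖𝒲 0‖).mono' ?_ ?_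
    · exact aestronglyMeasurable_of_tendsto_ae atTop
        (fun N => (wint N).aestronglyMeasurable)
        (Eventually.of_forall fun α => (h𝒲 α).const_mul _)
    · refine Eventually.of_forall fun α => ?_
      rw [norm_mul]
      refine mul_le_mul_of_nonneg_left ?_ (norm_nonneg _)
      exact le_of_tendsto_of_tendsto (h𝒲 α).norm (h𝒲 0).norm
        (Eventually.of_forall fun N => Wk_bdd (μ N) k α)

end

end MP069854

end

section

/-!
Row K07b: the second moment is `O(T log T)`, from `MP069854.mainU` with `k = 1`.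
-/

namespace K3
open Complex MeasureTheory Filter Topology Set S6
open scoped Real ComplexConjugate

/-- the value at height `T` of `Q_1(0,T)` -/
lemma k07b_Qk (T : ℝ) : MP069854.Qk 1 0 T =
    ((T * Real.log T : ℝ) : ℂ)⁻¹ * ((∫ t in (0 : ℝ)..T, ‖ze t‖ ^ 2 : ℝ) : ℂ) := by
  unfold MP069854.Qk
  rw [← intervalIntegral.integral_ofReal]
  have h1 : ((T * Real.log T ^ (1 ^ 2) : ℝ) : ℂ) = ((T * Real.log T : ℝ) : ℂ) := by
    norm_num
  rw [h1]
  congr 1
  refine intervalIntegral.integral_congr fun t _ => ?_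
  simp only [pow_one]
  have e1 : (1 / 2 + I * ((0 : ℝ) : ℂ) / Real.log T + I * t : ℂ) = 1 / 2 + t * I := by
    simp [mul_comm]
  have e2 : (1 / 2 + I * ((0 : ℝ) : ℂ) / Real.log T - I * t : ℂ) = conj (1 / 2 + t * I : ℂ) := by
    apply Complex.ext <;> simp
  rw [e1, e2, riemannZeta_conj, Complex.mul_conj, Complex.normSq_eq_norm_sq]
  rfl

theorem second_moment : ∃ C : ℝ, 0 ≤ C ∧ ∀ᶠ T : ℝ in atTop,
    ∫ t in (0 : ℝ)..T, ‖ze t‖ ^ 2 ≤ C * (T * Real.log T) := by
  letI i1 : ∀ N, MeasurableSpace (Matrix.unitaryGroup (Fin N) ℂ) := fun N => borel _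
  haveI i2 : ∀ N, BorelSpace (Matrix.unitaryGroup (Fin N) ℂ) := fun N => ⟨rfl⟩
  haveI i3 : ∀ N, CompactSpace (Matrix.unitaryGroup (Fin N) ℂ) := MP069854.compact_unitary
  let μ : ∀ N, Measure (Matrix.unitaryGroup (Fin N) ℂ) := fun N => Measure.haarMeasure ⊤
  haveI i4 : ∀ N, IsProbabilityMeasure (μ N) := fun N => by
    refine ⟨?_⟩
    have := Measure.haarMeasure_self (K₀ := (⊤ : TopologicalSpace.PositiveCompacts
      (Matrix.unitaryGroup (Fin N) ℂ)))
    simpa [μ] using this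
  haveI i5 : ∀ N, (μ N).IsHaarMeasure := fun N => by
    simp only [μ]
    infer_instance
  have hmom : ∀ n : ℕ, Integrable (fun α : ℝ => (α : ℂ) ^ n * (fun _ : ℝ => (1 : ℂ)) α)
      (Measure.dirac (0 : ℝ)) := by
    intro n
    refine integrable_dirac ?_
    simp
  obtain ⟨-, -, ℓ, h1, -⟩ := MP069854.mainU (ν := Measure.dirac (0 : ℝ)) (h := fun _ => (1 : ℂ))
    hmom (k := 1) le_rfl (δ := 1) one_pos (by
      intro u hu1 hu2
      exfalso
      norm_num at hu1 hu2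
      linarith) μ
  have h2 : Tendsto (fun T : ℝ => MP069854.Qk 1 0 T) atTop (𝓝 ((MP069854.arith 1 : ℂ) * ℓ)) := by
    refine h1.congr fun T => ?_
    rw [integral_dirac, one_mul]
  have h3 := h2.norm.eventually (gt_mem_nhds (lt_add_one ‖(MP069854.arith 1 : ℂ) * ℓ‖))
  refine ⟨‖(MP069854.arith 1 : ℂ) * ℓ‖ + 1, by positivity, ?_⟩
  filter_upwards [h3, eventually_gt_atTop 1] with T hT hT1
  have hL : 0 < Real.log T := Real.log_pos hT1
  have hTL : 0 < T * Real.log T := by positivity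
  rw [k07b_Qk, norm_mul, norm_inv, Complex.norm_real, Complex.norm_real, Real.norm_eq_abs,
    Real.norm_eq_abs, abs_of_pos hTL, inv_mul_lt_iff₀ hTL] at hT
  calc ∫ t in (0 : ℝ)..T, ‖ze t‖ ^ 2 ≤ |∫ t in (0 : ℝ)..T, ‖ze t‖ ^ 2| := le_abs_self _
    _ ≤ T * Real.log T * (‖(MP069854.arith 1 : ℂ) * ℓ‖ + 1) := hT.le
    _ = _ := by ring

end K3

end
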