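import Pool.Agent.Lib.MP_069854_nt.EQA
import Pool.Agent.Lib.MP_069854_nt.Dim
import Pool.Agent.Lib.MP_069854_nt.Part07

namespace MP069854
open Filter Topology Complex Set MeasureTheory
open scoped ComplexConjugate ContDiff

section cutoff
variable {k : ℕ} {g : ℝ → ℂ} {A B : ℝ}

/-- middle part of a test function -/
lemma split_mid (hg : TF g A B) (k : ℕ) {r : ℝ} (hr : 0 < r)
    (hz : ∀ u, |u - 2| < r ∨ |u - (2 * (k:ℝ) - 2)| < r → g u = 0) :
    ∃ g₁ g₂ : ℝ → ℂ, TF g₁ A B ∧ TF g₂ A B ∧ (∀ u, g u = g₁ u + g₂ u) ∧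
      (∀ u ∈ tsupport g₁, u < 2 ∨ 2 * (k:ℝ) - 2 < u) ∧
      (∀ u ∈ tsupport g₂, 2 < u ∧ u < 2 * (k:ℝ) - 2) := by
  set S : Set ℝ := Ioo 2 (2 * (k:ℝ) - 2) with hS
  set g₂ : ℝ → ℂ := S.indicator g with hg2
  have hsm : ContDiff ℝ ∞ g₂ := by
    rw [contDiff_iff_contDiffAt]
    intro u
    by_cases h1 : |u - 2| < r ∨ |u - (2 * (k:ℝ) - 2)| < r
    · have h2 : ∀ᶠ v in 𝓝 u, g₂ v = 0 := by
        have hopen : IsOpen {v : ℝ | |v - 2| < r ∨ |v - (2 * (k:ℝ) - 2)| < r} := by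
          refine IsOpen.union ?_ ?_
          · exact isOpen_lt (continuous_id.sub continuous_const).abs continuous_const
          · exact isOpen_lt (continuous_id.sub continuous_const).abs continuous_const
        filter_upwards [hopen.mem_nhds h1] with v hv
        rw [hg2]
        by_cases hvS : v ∈ S
        · rw [indicator_of_mem hvS, hz v hv]
        · rw [indicator_of_notMem hvS]
      exact (contDiffAt_const (c := (0:ℂ))).congr_of_eventuallyEq h2
    · have h1' : u ≠ 2 ∧ u ≠ 2 * (k:ℝ) - 2 := by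
        constructor
        · rintro rfl
          exact h1 (Or.inl (by simpa using hr))
        · rintro rfl
          exact h1 (Or.inr (by simpa using hr))
      by_cases hu : u ∈ S
      · have h2 : g₂ =ᶠ[𝓝 u] g := by
          filter_upwards [isOpen_Ioo.mem_nhds hu] with v hv
          rw [hg2, indicator_of_mem hv]
        exact hg.smooth.contDiffAt.congr_of_eventuallyEq h2
      · have hu2 : u < 2 ∨ 2 * (k:ℝ) - 2 < u := by
          by_contra hcon
          push Not at hcon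
          exact hu ⟨lt_of_le_of_ne hcon.1 h1'.1.symm, lt_of_le_of_ne hcon.2 h1'.2⟩
        have h2 : ∀ᶠ v in 𝓝 u, g₂ v = 0 := by
          rcases hu2 with h | h
          · filter_upwards [Iio_mem_nhds h] with v hv
            rw [hg2, indicator_of_notMem]
            intro hvS
            exact absurd hvS.1 (not_lt.2 (le_of_lt hv))
          · filter_upwards [Ioi_mem_nhds h] with v hv
            rw [hg2, indicator_of_notMem]
            intro hvS
            exact absurd hvS.2 (not_lt.2 (le_of_lt hv))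
        exact (contDiffAt_const (c := (0:ℂ))).congr_of_eventuallyEq h2
  have hts2 : tsupport g₂ ⊆ tsupport g := closure_mono (by
    intro u hu h0
    apply hu
    rw [hg2]
    by_cases hvS : u ∈ S
    · rw [indicator_of_mem hvS, h0]
    · rw [indicator_of_notMem hvS])
  have hts1 : tsupport (fun u => g u - g₂ u) ⊆ tsupport g := closure_mono (by
    intro u hu h0
    apply hu
    simp only [hg2]
    by_cases hvS : u ∈ S
    · rw [indicator_of_mem hvS, h0, sub_self]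
    · rw [indicator_of_notMem hvS, h0, sub_self])
  refine ⟨fun u => g u - g₂ u, g₂, ⟨hg.smooth.sub hsm, hts1.trans hg.supp⟩,
    ⟨hsm, hts2.trans hg.supp⟩, fun u => by ring, ?_, ?_⟩
  · have hcl : tsupport (fun u => g u - g₂ u) ⊆ Iic (2 - r) ∪ Ici (2 * (k:ℝ) - 2 + r) := by
      refine closure_minimal ?_ (isClosed_Iic.union isClosed_Ici)
      intro u hu
      by_cases hvS : u ∈ S
      · exact absurd (show g u - g₂ u = 0 by rw [hg2, indicator_of_mem hvS, sub_self]) hu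
      · have hgu : g u ≠ 0 := by
          intro h0
          exact hu (show g u - g₂ u = 0 by rw [hg2, indicator_of_notMem hvS, h0, sub_self])
        have h3 : ¬ (|u - 2| < r ∨ |u - (2 * (k:ℝ) - 2)| < r) := fun h => hgu (hz u h)
        push Not at h3
        by_cases h4 : u ≤ 2
        · left
          have := h3.1
          rw [abs_of_nonpos (by linarith)] at this
          show u ≤ 2 - r
          linarith
        · right
          push Not at h4
          have h5 : 2 * (k:ℝ) - 2 ≤ u := by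
            by_contra hcon
            push Not at hcon
            exact hvS ⟨h4, hcon⟩
          have := h3.2
          rw [abs_of_nonneg (by linarith)] at this
          show 2 * (k:ℝ) - 2 + r ≤ u
          linarith
    intro u hu
    rcases hcl hu with h | h
    · left; have : u ≤ 2 - r := h; linarith
    · right; have : 2 * (k:ℝ) - 2 + r ≤ u := h; linarith
  · have hcl : tsupport g₂ ⊆ Icc (2 + r) (2 * (k:ℝ) - 2 - r) := by
      refine closure_minimal ?_ isClosed_Icc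
      intro u hu
      have hvS : u ∈ S := by
        by_contra hvS
        exact hu (by rw [hg2, indicator_of_notMem hvS])
      have hgu : g u ≠ 0 := by
        intro h0
        exact hu (by rw [hg2, indicator_of_mem hvS, h0])
      have h3 : ¬ (|u - 2| < r ∨ |u - (2 * (k:ℝ) - 2)| < r) := fun h => hgu (hz u h)
      push Not at h3
      have e1 := h3.1
      have e2 := h3.2
      rw [abs_of_nonneg (by linarith [hvS.1])] at e1
      rw [abs_of_nonpos (by linarith [hvS.2])] at e2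
      exact ⟨by linarith, by linarith⟩
    intro u hu
    have := hcl hu
    exact ⟨by linarith [this.1], by linarith [this.2]⟩

/-- the cut-off function -/
lemma exists_chi (k : ℕ) {η : ℝ} (hη : 0 < η) :
    ∃ χ : ℝ → ℝ, TF (fun u => (χ u : ℂ)) (-2) (2 * k + 2) ∧ (∀ u, 0 ≤ χ u) ∧ (∀ u, χ u ≤ 1) ∧
      (∀ u : ℝ, |u - 2| < η / 2 ∨ |u - (2 * (k:ℝ) - 2)| < η / 2 → χ u = 0) ∧
      (∀ u : ℝ, 0 ≤ u → u ≤ 2 * k → η ≤ |u - 2| → η ≤ |u - (2 * (k:ℝ) - 2)| → χ u = 1) := by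
  let f : ContDiffBump (2:ℝ) := ⟨η / 2, η, by positivity, by linarith⟩
  let f' : ContDiffBump (2 * (k:ℝ) - 2) := ⟨η / 2, η, by positivity, by linarith⟩
  let X : ContDiffBump (k:ℝ) := ⟨(k:ℝ) + 1, (k:ℝ) + 2, by positivity, by linarith⟩
  have b1 : ∀ u, 0 ≤ X u ∧ X u ≤ 1 := fun u => ⟨X.nonneg, X.le_one⟩
  have b2 : ∀ u, 0 ≤ 1 - f u ∧ 1 - f u ≤ 1 := fun u =>
    ⟨by linarith [f.le_one (x := u)], by linarith [f.nonneg (x := u)]⟩
  have b3 : ∀ u, 0 ≤ 1 - f' u ∧ 1 - f' u ≤ 1 := fun u =>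
    ⟨by linarith [f'.le_one (x := u)], by linarith [f'.nonneg (x := u)]⟩
  refine ⟨fun u => X u * ((1 - f u) * (1 - f' u)), ⟨?_, ?_⟩, ?_, ?_, ?_, ?_⟩
  · refine Complex.ofRealCLM.contDiff.comp ?_
    exact X.contDiff.mul ((contDiff_const.sub f.contDiff).mul (contDiff_const.sub f'.contDiff))
  · have h1 : tsupport (fun u => ((X u * ((1 - f u) * (1 - f' u)) : ℝ) : ℂ)) ⊆ tsupport X :=
      closure_mono (fun u hu h0 => hu (by
        show ((X u * ((1 - f u) * (1 - f' u)) : ℝ) : ℂ) = 0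
        rw [h0]; simp))
    rw [X.tsupport_eq, Real.closedBall_eq_Icc] at h1
    refine h1.trans (Icc_subset_Icc ?_ ?_)
    · show -2 ≤ (k:ℝ) - ((k:ℝ) + 2); linarith
    · show (k:ℝ) + ((k:ℝ) + 2) ≤ 2 * k + 2; linarith
  · intro u
    exact mul_nonneg (b1 u).1 (mul_nonneg (b2 u).1 (b3 u).1)
  · intro u
    exact mul_le_one₀ (b1 u).2 (mul_nonneg (b2 u).1 (b3 u).1)
      (mul_le_one₀ (b2 u).2 (b3 u).1 (b3 u).2)
  · intro u hu
    rcases hu with h | h
    · have : f u = 1 := f.one_of_mem_closedBall (by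
        rw [Metric.mem_closedBall, Real.dist_eq]; exact h.le)
      simp only [this]; ring
    · have : f' u = 1 := f'.one_of_mem_closedBall (by
        rw [Metric.mem_closedBall, Real.dist_eq]; exact h.le)
      simp only [this]; ring
  · intro u h0 h1 h2 h3
    have e1 : f u = 0 := f.zero_of_le_dist (by rw [Real.dist_eq]; exact h2)
    have e2 : f' u = 0 := f'.zero_of_le_dist (by rw [Real.dist_eq]; exact h3)
    have e3 : X u = 1 := X.one_of_mem_closedBall (by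
      rw [Metric.mem_closedBall, Real.dist_eq, abs_le]
      constructor
      · show -((k:ℝ) + 1) ≤ u - k; linarith
      · show u - k ≤ (k:ℝ) + 1; linarith)
    simp only [e1, e2, e3]; ring

end cutoff

end MP069854

namespace MP069854
open Filter Topology Complex Set MeasureTheory Matrix
open scoped ComplexConjugate ContDiff

section
variable {k : ℕ} {g : ℝ → ℂ} {A B : ℝ}

lemma count_le (M : ℕ) {N : ℕ} (hN : 1 ≤ N) (c : ℝ) {η : ℝ} (hη : 0 < η) :
    (((Finset.range M).filter fun j : ℕ => |2 * (j:ℝ) / N - c| < η).card : ℝ) ≤ η * N + 1 := by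
  have hN0 : (0:ℝ) < N := by exact_mod_cast hN
  set S := (Finset.range M).filter fun j : ℕ => |2 * (j:ℝ) / N - c| < η with hS
  by_cases hne : S.Nonempty
  · set a := S.min' hne with ha
    have hsub : S ⊆ Finset.Icc a (a + ⌊η * N⌋₊) := by
      intro b hb
      have hab : a ≤ b := S.min'_le b hb
      rw [Finset.mem_Icc]
      refine ⟨hab, ?_⟩
      have h1 := (Finset.mem_filter.1 hb).2
      have h2 := (Finset.mem_filter.1 (S.min'_mem hne)).2
      rw [← ha] at h2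
      rw [abs_lt] at h1 h2
      have h3 : 2 * (b:ℝ) / N - 2 * (a:ℝ) / N < 2 * η := by linarith
      have h4 : (b:ℝ) - a < η * N := by
        rw [← sub_div, div_lt_iff₀ hN0] at h3
        linarith
      have h5 : b - a ≤ ⌊η * N⌋₊ := by
        apply Nat.le_floor
        rw [Nat.cast_sub hab]; exact h4.le
      omega
    have h6 := Finset.card_le_card hsub
    rw [Nat.card_Icc] at h6
    have h7 : (S.card : ℝ) ≤ ((⌊η * N⌋₊ + 1 : ℕ) : ℝ) := by
      have : S.card ≤ ⌊η * N⌋₊ + 1 := by omega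
      exact_mod_cast this
    have h8 := Nat.floor_le (show 0 ≤ η * N by positivity)
    push_cast at h7
    linarith
  · rw [Finset.not_nonempty_iff_eq_empty] at hne
    rw [hne]
    simp only [Finset.card_empty, Nat.cast_zero]
    positivity

variable [∀ N, MeasurableSpace (unitaryGroup (Fin N) ℂ)] [∀ N, BorelSpace (unitaryGroup (Fin N) ℂ)]
  (μ : ∀ N, Measure (unitaryGroup (Fin N) ℂ)) [∀ N, IsProbabilityMeasure (μ N)]
  [∀ N, (μ N).IsHaarMeasure]

/-- the second moments as natural numbers -/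
noncomputable def mn (k j N : ℕ) : ℕ := (mm_le μ k j N).choose

lemma mn_eq (k j N : ℕ) : mm (μ N) k j j = mn μ k j N := (mm_le μ k j N).choose_spec.1
lemma mn_le (k j N : ℕ) : mn μ k j N ≤ (k ^ 2).multichoose j := (mm_le μ k j N).choose_spec.2

/-- normalised weights -/
noncomputable def wN (k j N : ℕ) : ℝ := ((N : ℝ) ^ (k ^ 2))⁻¹ * mn μ k j N

lemma wN_nonneg (k j N : ℕ) : 0 ≤ wN μ k j N := by unfold wN; positivity

lemma Wk_w (k N : ℕ) (α : ℝ) : Wk (μ N) k α =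
    ∑ j ∈ Finset.range (k * N + 1), (wN μ k j N : ℂ) * exp (-((2 * j / N : ℝ) * α : ℝ) * I) := by
  rw [Wk_eq, Finset.mul_sum]
  refine Finset.sum_congr rfl fun j _ => ?_
  rw [mn_eq]
  unfold wN
  have : (-(α * ((2 * j / N : ℝ) : ℂ)) * I : ℂ) = (-((2 * j / N : ℝ) * α : ℝ) * I) := by
    push_cast; ring
  rw [this]
  push_cast; ring

lemma Wk_int_w (hg : TF g A B) (k N : ℕ) : (2 * Real.pi : ℂ)⁻¹ * ∫ α : ℝ, G g (α * I) * Wk (μ N) k α =
    ∑ j ∈ Finset.range (k * N + 1), (wN μ k j N : ℂ) * g (2 * j / N) := by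
  rw [Wk_integral (μ N) hg, Finset.mul_sum, Finset.mul_sum]
  refine Finset.sum_congr rfl fun j _ => ?_
  rw [mn_eq]
  unfold wN
  have := twopi_ne
  push_cast
  field_simp

lemma Wk_norm_le (k N : ℕ) (α : ℝ) : ‖Wk (μ N) k α‖ ≤ ‖Wk (μ N) k 0‖ := by
  have h0 : Wk (μ N) k 0 = ((∑ j ∈ Finset.range (k * N + 1), wN μ k j N : ℝ) : ℂ) := by
    rw [Wk_w]; simp
  rw [h0, Complex.norm_real, Real.norm_of_nonneg (Finset.sum_nonneg fun j _ => wN_nonneg μ k j N), Wk_w]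
  refine (norm_sum_le _ _).trans (Finset.sum_le_sum fun j _ => ?_)
  rw [norm_mul, Complex.norm_real, Real.norm_of_nonneg (wN_nonneg μ k j N),
    show (-((2 * j / N : ℝ) * α : ℝ) * I : ℂ) = ((-((2 * j / N : ℝ) * α) : ℝ) : ℂ) * I by push_cast; ring,
    Complex.norm_exp_ofReal_mul_I, mul_one]

lemma W_dom (hg : TF g A B) {𝒲 : ℝ → ℂ}
    (h𝒲 : ∀ α : ℝ, Tendsto (fun N : ℕ => Wk (μ N) k α) atTop (𝓝 (𝒲 α))) :
    Integrable (fun α : ℝ => G g (α * I) * 𝒲 α) ∧
    Tendsto (fun N : ℕ => ∫ α : ℝ, G g (α * I) * Wk (μ N) k α) atTop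
        (𝓝 (∫ α : ℝ, G g (α * I) * 𝒲 α)) := by
  have hGi : Integrable fun α : ℝ => G g (α * I) := by simpa using hg.G_vert_integrable 0
  constructor
  · refine (hGi.norm.mul_const ‖𝒲 0‖).mono' ?_ ?_
    · exact aestronglyMeasurable_of_tendsto_ae atTop
        (fun N => (Wk_integrable (μ N) hg k).aestronglyMeasurable)
        (Eventually.of_forall fun α => (h𝒲 α).const_mul _)
    · refine Eventually.of_forall fun α => ?_
      rw [norm_mul]
      refine mul_le_mul_of_nonneg_left ?_ (norm_nonneg _)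
      exact le_of_tendsto_of_tendsto (h𝒲 α).norm (h𝒲 0).norm
        (Eventually.of_forall fun N => Wk_norm_le μ k N α)
  · refine tendsto_integral_filter_of_dominated_convergence
      (fun α => ‖G g (α * I)‖ * (‖𝒲 0‖ + 1)) ?_ ?_ ?_ ?_
    · exact Eventually.of_forall fun N => (Wk_integrable (μ N) hg k).aestronglyMeasurable
    · have h5 := (h𝒲 0).norm.eventually (gt_mem_nhds (lt_add_one ‖𝒲 0‖))
      filter_upwards [h5] with N hN
      refine Eventually.of_forall fun α => ?_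
      rw [norm_mul]
      exact mul_le_mul_of_nonneg_left ((Wk_norm_le μ k N α).trans hN.le) (norm_nonneg _)
    · exact hGi.norm.mul_const _
    · exact Eventually.of_forall fun α => (h𝒲 α).const_mul _

/-- mass off the cut-off -/
lemma W_def {χ : ℝ → ℝ} (hg : TF (fun u => (χ u : ℂ)) A B) (k N : ℕ) :
    Wk (μ N) k 0 - (2 * Real.pi : ℂ)⁻¹ * ∫ α : ℝ, G (fun u => (χ u : ℂ)) (α * I) * Wk (μ N) k α =
    ((∑ j ∈ Finset.range (k * N + 1), wN μ k j N * (1 - χ (2 * j / N)) : ℝ) : ℂ) := by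
  rw [Wk_w, Wk_int_w μ hg, ← Finset.sum_sub_distrib]
  push_cast
  refine Finset.sum_congr rfl fun j _ => ?_
  simp only [mul_zero, neg_zero, zero_mul, exp_zero]
  ring

lemma W_ineq {χ : ℝ → ℝ} (hg : TF (fun u => (χ u : ℂ)) A B) (h1 : ∀ u, χ u ≤ 1) (k N : ℕ) (a : ℝ) :
    ‖Wk (μ N) k a - (2 * Real.pi : ℂ)⁻¹ *
      ∫ α : ℝ, G (md (fun u => (χ u : ℂ)) a) (α * I) * Wk (μ N) k α‖ ≤
    (Wk (μ N) k 0 - (2 * Real.pi : ℂ)⁻¹ *
      ∫ α : ℝ, G (fun u => (χ u : ℂ)) (α * I) * Wk (μ N) k α).re := by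
  rw [W_def μ hg, ofReal_re, Wk_w, Wk_int_w μ (hg.md a), ← Finset.sum_sub_distrib]
  refine (norm_sum_le _ _).trans (Finset.sum_le_sum fun j _ => ?_)
  have e : (wN μ k j N : ℂ) * exp (-((2 * j / N : ℝ) * a : ℝ) * I) -
      (wN μ k j N : ℂ) * md (fun u => (χ u : ℂ)) a (2 * j / N) =
      ((wN μ k j N * (1 - χ (2 * j / N)) : ℝ) : ℂ) * exp (((-((2 * j / N) * a) : ℝ) : ℂ) * I) := by
    unfold md
    push_cast; ring_nf
  rw [e, norm_mul, Complex.norm_exp_ofReal_mul_I, mul_one, Complex.norm_real, Real.norm_of_nonneg]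
  exact mul_nonneg (wN_nonneg μ k j N) (by linarith [h1 (2 * j / N)])

lemma wN_le (hk : 1 ≤ k) {j N : ℕ} (hN : 1 ≤ N) (hj : j ≤ k * N) :
    wN μ k j N ≤ ((k:ℝ) ^ 2 + k) ^ (k ^ 2 - 1) * (N : ℝ)⁻¹ := by
  have hK : 1 ≤ k ^ 2 := Nat.one_le_pow _ _ hk
  obtain ⟨m, hm⟩ : ∃ m, k ^ 2 = m + 1 := ⟨k ^ 2 - 1, by omega⟩
  have hN0 : (0:ℝ) < N := by exact_mod_cast hN
  have h1 : mn μ k j N ≤ (k ^ 2 + k * N) ^ (k ^ 2 - 1) := by
    refine (mn_le μ k j N).trans ?_
    rw [Nat.multichoose_eq, hm, show m + 1 + j - 1 = m + j by omega,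
      ← Nat.choose_symm_of_eq_add (rfl : m + j = m + j)]
    refine (Nat.choose_le_pow _ _).trans ?_
    rw [Nat.add_sub_cancel]
    exact Nat.pow_le_pow_left (by omega) m
  have h2 : (mn μ k j N : ℝ) ≤ ((k:ℝ) ^ 2 + k * N) ^ (k ^ 2 - 1) := by exact_mod_cast h1
  have h3 : (k:ℝ) ^ 2 + k * N ≤ ((k:ℝ) ^ 2 + k) * N := by
    have : (1:ℝ) ≤ N := by exact_mod_cast hN
    nlinarith [sq_nonneg (k:ℝ)]
  have h4 : (mn μ k j N : ℝ) ≤ (((k:ℝ) ^ 2 + k) * N) ^ (k ^ 2 - 1) :=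
    h2.trans (pow_le_pow_left₀ (by positivity) h3 _)
  unfold wN
  calc ((N : ℝ) ^ (k ^ 2))⁻¹ * mn μ k j N ≤ ((N : ℝ) ^ (k ^ 2))⁻¹ * (((k:ℝ) ^ 2 + k) * N) ^ (k ^ 2 - 1) := by
        gcongr
    _ = _ := by
      rw [mul_pow]
      have h5 : (N:ℝ) ^ (k ^ 2) = (N:ℝ) ^ (k ^ 2 - 1) * N := by
        rw [← pow_succ]; congr 1; omega
      rw [h5]
      field_simp

lemma W_small (hk : 1 ≤ k) {η : ℝ} (hη : 0 < η) {χ : ℝ → ℝ}
    (hg : TF (fun u => (χ u : ℂ)) A B) (h0 : ∀ u, 0 ≤ χ u)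
    (h2 : ∀ u : ℝ, 0 ≤ u → u ≤ 2 * k → η ≤ |u - 2| → η ≤ |u - (2 * (k:ℝ) - 2)| → χ u = 1)
    {N : ℕ} (hN : 1 ≤ N) :
    (Wk (μ N) k 0 - (2 * Real.pi : ℂ)⁻¹ *
      ∫ α : ℝ, G (fun u => (χ u : ℂ)) (α * I) * Wk (μ N) k α).re ≤
    2 * ((k:ℝ) ^ 2 + k) ^ (k ^ 2 - 1) * (η + (N:ℝ)⁻¹) := by
  have hN0 : (0:ℝ) < N := by exact_mod_cast hN
  set D : ℝ := ((k:ℝ) ^ 2 + k) ^ (k ^ 2 - 1) with hD
  have hD0 : 0 ≤ D := by positivity
  rw [W_def μ hg, ofReal_re]
  set S1 := (Finset.range (k * N + 1)).filter fun j : ℕ => |2 * (j:ℝ) / N - 2| < η with hS1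
  set S2 := (Finset.range (k * N + 1)).filter fun j : ℕ => |2 * (j:ℝ) / N - (2 * (k:ℝ) - 2)| < η with hS2
  have hterm : ∀ j ∈ Finset.range (k * N + 1), wN μ k j N * (1 - χ (2 * j / N)) ≤
      (if |2 * (j:ℝ) / N - 2| < η then D * (N:ℝ)⁻¹ else 0) +
      (if |2 * (j:ℝ) / N - (2 * (k:ℝ) - 2)| < η then D * (N:ℝ)⁻¹ else 0) := by
    intro j hj
    have hj' : j ≤ k * N := by rw [Finset.mem_range] at hj; omega
    have hw := wN_le μ hk hN hj'
    have hw0 := wN_nonneg μ k j N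
    have hDN : 0 ≤ D * (N:ℝ)⁻¹ := by positivity
    have hle : wN μ k j N * (1 - χ (2 * j / N)) ≤ D * (N:ℝ)⁻¹ := by
      calc wN μ k j N * (1 - χ (2 * j / N)) ≤ wN μ k j N * 1 :=
            mul_le_mul_of_nonneg_left (by linarith [h0 (2 * j / N)]) hw0
        _ ≤ _ := by rw [mul_one]; exact hw
    by_cases c1 : |2 * (j:ℝ) / N - 2| < η
    · rw [if_pos c1]
      split_ifs <;> linarith
    · by_cases c2 : |2 * (j:ℝ) / N - (2 * (k:ℝ) - 2)| < η
      · rw [if_pos c2, if_neg c1, zero_add]; exact hle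
      · rw [if_neg c1, if_neg c2]
        rw [not_lt] at c1 c2
        have hu0 : 0 ≤ 2 * (j:ℝ) / N := by positivity
        have hu1 : 2 * (j:ℝ) / N ≤ 2 * k := by
          rw [div_le_iff₀ hN0]
          have : (j:ℝ) ≤ k * N := by exact_mod_cast hj'
          linarith
        rw [h2 _ hu0 hu1 c1 c2]; simp
  refine (Finset.sum_le_sum hterm).trans ?_
  rw [Finset.sum_add_distrib, ← Finset.sum_filter, ← Finset.sum_filter, Finset.sum_const,
    Finset.sum_const, nsmul_eq_mul, nsmul_eq_mul]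
  have n1 := count_le (k * N + 1) hN 2 hη
  have n2 := count_le (k * N + 1) hN (2 * (k:ℝ) - 2) hη
  calc (S1.card : ℝ) * (D * (N:ℝ)⁻¹) + (S2.card : ℝ) * (D * (N:ℝ)⁻¹) ≤
        (η * N + 1) * (D * (N:ℝ)⁻¹) + (η * N + 1) * (D * (N:ℝ)⁻¹) := by gcongr
    _ = 2 * D * (η + (N:ℝ)⁻¹) := by field_simp; ring

end
end MP069854

namespace MP069854
open Filter Topology Complex Set MeasureTheory Matrix
open scoped ComplexConjugate ContDiff

lemma pigeon (k : ℕ) {T s : ℝ} (hs : 0 < s) {M : ℕ} (hM : 1 ≤ M) (hMT : 3 * s * M ≤ T) :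
    ∃ T' : ℝ, T - 3 * s * M ≤ T' ∧ T' ≤ T ∧ I2 k (T' + s) - I2 k (T' - 2 * s) ≤ I2 k T / M := by
  have hM0 : (0:ℝ) < M := by exact_mod_cast hM
  set f : ℕ → ℝ := fun i => I2 k (T - 3 * s * i) with hf
  have hsum := Finset.sum_range_sub' f M
  have hle : ∑ i ∈ Finset.range M, (f i - f (i + 1)) ≤ ∑ i ∈ Finset.range M, I2 k T / M := by
    rw [hsum, Finset.sum_const, Finset.card_range, nsmul_eq_mul, mul_div_cancel₀ _ hM0.ne']
    have h1 : 0 ≤ f M := I2_nonneg k (by linarith)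
    have h2 : f 0 = I2 k T := by simp [hf]
    linarith
  obtain ⟨i, hi, hfi⟩ := Finset.exists_le_of_sum_le (Finset.nonempty_range_iff.2 (by omega)) hle
  rw [Finset.mem_range] at hi
  have hi' : (i:ℝ) + 1 ≤ M := by exact_mod_cast hi
  refine ⟨T - 3 * s * i - s, ?_, ?_, ?_⟩
  · nlinarith
  · have : 0 ≤ 3 * s * (i:ℝ) := by positivity
    linarith
  · have e1 : T - 3 * s * i - s + s = T - 3 * s * i := by ring
    have e2 : T - 3 * s * i - s - 2 * s = T - 3 * s * ((i + 1 : ℕ) : ℝ) := by push_cast; ring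
    rw [e1, e2]
    exact hfi

lemma log_ratio (K : ℕ) {δ : ℝ} (h1 : δ < 1) :
    Tendsto (fun u : ℝ => (Real.log u / Real.log ((1 - δ) * u)) ^ K) atTop (𝓝 1) := by
  have h3 : Tendsto (fun u : ℝ => 1 + Real.log (1 - δ) * (Real.log u)⁻¹) atTop (𝓝 1) := by
    have := ((tendsto_inv_atTop_zero.comp Real.tendsto_log_atTop).const_mul
      (Real.log (1 - δ))).const_add 1
    rwa [mul_zero, add_zero] at this
  have h4 := (h3.inv₀ one_ne_zero).pow K
  rw [inv_one, one_pow] at h4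
  refine h4.congr' ?_
  filter_upwards [eventually_gt_atTop (1:ℝ)] with u hu
  have hu0 : 0 < u := by linarith
  have hL := Real.log_pos hu
  rw [Real.log_mul (by linarith) hu0.ne']
  congr 1
  have e : 1 + Real.log (1 - δ) * (Real.log u)⁻¹ = (Real.log (1 - δ) + Real.log u) / Real.log u := by
    field_simp; ring
  rw [e, inv_div]

section
variable {k : ℕ} {g : ℝ → ℂ} {A B : ℝ}
variable [∀ N, MeasurableSpace (unitaryGroup (Fin N) ℂ)] [∀ N, BorelSpace (unitaryGroup (Fin N) ℂ)]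
  (μ : ∀ N, Measure (unitaryGroup (Fin N) ℂ)) [∀ N, IsProbabilityMeasure (μ N)]
  [∀ N, (μ N).IsHaarMeasure]

lemma lim_ineq {χ : ℝ → ℝ} (hg : TF (fun u => (χ u : ℂ)) A B) (h1 : ∀ u, χ u ≤ 1) {𝒲 : ℝ → ℂ}
    (h𝒲 : ∀ α : ℝ, Tendsto (fun N : ℕ => Wk (μ N) k α) atTop (𝓝 (𝒲 α))) (a : ℝ) :
    ‖𝒲 a - (2 * Real.pi : ℂ)⁻¹ * ∫ α : ℝ, G (md (fun u => (χ u : ℂ)) a) (α * I) * 𝒲 α‖ ≤
    (𝒲 0 - (2 * Real.pi : ℂ)⁻¹ * ∫ α : ℝ, G (fun u => (χ u : ℂ)) (α * I) * 𝒲 α).re := by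
  have l1 := ((h𝒲 a).sub (((W_dom μ (hg.md a) h𝒲).2).const_mul (2 * Real.pi : ℂ)⁻¹)).norm
  have l2 := (Complex.continuous_re.tendsto _).comp
    ((h𝒲 0).sub (((W_dom μ hg h𝒲).2).const_mul (2 * Real.pi : ℂ)⁻¹))
  exact le_of_tendsto_of_tendsto l1 l2 (Eventually.of_forall fun N => W_ineq μ hg h1 k N a)

lemma lim_small (hk : 1 ≤ k) {η : ℝ} (hη : 0 < η) {χ : ℝ → ℝ}
    (hg : TF (fun u => (χ u : ℂ)) A B) (h0 : ∀ u, 0 ≤ χ u)
    (h2 : ∀ u : ℝ, 0 ≤ u → u ≤ 2 * k → η ≤ |u - 2| → η ≤ |u - (2 * (k:ℝ) - 2)| → χ u = 1)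
    {𝒲 : ℝ → ℂ} (h𝒲 : ∀ α : ℝ, Tendsto (fun N : ℕ => Wk (μ N) k α) atTop (𝓝 (𝒲 α))) :
    (𝒲 0 - (2 * Real.pi : ℂ)⁻¹ * ∫ α : ℝ, G (fun u => (χ u : ℂ)) (α * I) * 𝒲 α).re ≤
      2 * ((k:ℝ) ^ 2 + k) ^ (k ^ 2 - 1) * η := by
  have l2 := (Complex.continuous_re.tendsto _).comp
    ((h𝒲 0).sub (((W_dom μ hg h𝒲).2).const_mul (2 * Real.pi : ℂ)⁻¹))
  have l3 : Tendsto (fun N : ℕ => 2 * ((k:ℝ) ^ 2 + k) ^ (k ^ 2 - 1) * (η + (N:ℝ)⁻¹)) atTop
      (𝓝 (2 * ((k:ℝ) ^ 2 + k) ^ (k ^ 2 - 1) * η)) := by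
    have := ((tendsto_inv_atTop_nhds_zero_nat (𝕜 := ℝ)).const_add η).const_mul
      (2 * ((k:ℝ) ^ 2 + k) ^ (k ^ 2 - 1))
    rwa [add_zero] at this
  refine le_of_tendsto_of_tendsto l2 l3 ?_
  filter_upwards [eventually_ge_atTop 1] with N hN
  exact W_small μ hk hη hg h0 h2 hN

/-- the hypothesis on the middle frequencies -/
def MidHyp (k : ℕ) (𝒲 : ℝ → ℂ) : Prop :=
  ∀ g : ℝ → ℂ, ContDiff ℝ ∞ g → HasCompactSupport g →
    (∀ u ∈ tsupport g, 2 < u ∧ u < 2 * (k:ℝ) - 2) →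
    Tendsto (fun T : ℝ => ∫ α : ℝ, G g (α * I) * Qk k α T) atTop
      (𝓝 (arith k * ∫ α : ℝ, G g (α * I) * 𝒲 α))

lemma good (hk : 1 ≤ k) {𝒲 : ℝ → ℂ}
    (h𝒲 : ∀ α : ℝ, Tendsto (fun N : ℕ => Wk (μ N) k α) atTop (𝓝 (𝒲 α)))
    (hmid : MidHyp k 𝒲) (hg : TF g A B) {r : ℝ} (hr : 0 < r)
    (hz : ∀ u, |u - 2| < r ∨ |u - (2 * (k:ℝ) - 2)| < r → g u = 0) :
    Tendsto (fun T : ℝ => ∫ α : ℝ, G g (α * I) * Qk k α T) atTop
      (𝓝 (arith k * ∫ α : ℝ, G g (α * I) * 𝒲 α)) := by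
  obtain ⟨g₁, g₂, t1, t2, hs, s1, s2⟩ := split_mid hg k hr hz
  obtain ⟨ℓ, a1, a2, a3, a4, a5⟩ := main hk t1.smooth t1.hcs s1 μ
  have m2 := hmid g₂ t2.smooth t2.hcs s2
  rw [← (a5 𝒲 h𝒲).2] at a3
  have hG := G_add' t1 t2 hs
  have w1 := (a5 𝒲 h𝒲).1
  have w2 := (W_dom μ t2 h𝒲).1
  have e1 : ∫ α : ℝ, G g (α * I) * 𝒲 α = (∫ α : ℝ, G g₁ (α * I) * 𝒲 α) +
      ∫ α : ℝ, G g₂ (α * I) * 𝒲 α := by
    rw [← integral_add w1 w2]
    refine integral_congr_ae (Eventually.of_forall fun α => ?_)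
    simp only [hG]; ring
  rw [e1, mul_add]
  refine (a3.add m2).congr' ?_
  filter_upwards [eventually_gt_atTop (1:ℝ)] with T hT
  rw [← integral_add (Qk_integrable (k := k) t1 hT) (Qk_integrable (k := k) t2 hT)]
  refine integral_congr_ae (Eventually.of_forall fun α => ?_)
  simp only [hG]; ring

lemma RT_int (g : ℝ → ℂ) (k : ℕ) (T : ℝ) : ∫ β : ℝ, G g (β * I) * RT k β T =
    ((T * Real.log T ^ (k ^ 2) : ℝ) : ℂ)⁻¹ *
      ∫ β : ℝ, G g (β * I) * AC (Ft k T) (2 * β / Real.log T) := by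
  rw [← integral_const_mul]
  refine integral_congr_ae (Eventually.of_forall fun β => ?_)
  simp only [RT]; ring

lemma cast_re (x : ℝ) (z : ℂ) : (((x : ℝ) : ℂ)⁻¹ * z).re = x⁻¹ * z.re := by
  rw [← Complex.ofReal_inv, Complex.re_ofReal_mul]

lemma RT_pos {χ : ℝ → ℝ} (hg : TF (fun u => (χ u : ℂ)) A B) (h1 : ∀ u, χ u ≤ 1) {T : ℝ}
    (hT : 1 < T) : (∫ β : ℝ, G (fun u => (χ u : ℂ)) (β * I) * RT k β T).re ≤
      2 * Real.pi * Jn k T := by
  have hL := Real.log_pos hT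
  obtain ⟨M, hM⟩ := Ft_bounded k T
  have h := AC_pos hg h1 hL (Ft_integrable k T) hM (Ft_contAt k T)
  rw [RT_int, cast_re, Jn, ← Ft_sq k (by linarith : 0 ≤ T)]
  have hc : 0 ≤ (T * Real.log T ^ (k ^ 2))⁻¹ := by positivity
  calc (T * Real.log T ^ (k ^ 2))⁻¹ *
        (∫ β : ℝ, G (fun u => (χ u : ℂ)) (β * I) * AC (Ft k T) (2 * β / Real.log T)).re ≤
      (T * Real.log T ^ (k ^ 2))⁻¹ * (2 * Real.pi * ∫ t, ‖Ft k T t‖ ^ 2) :=
        mul_le_mul_of_nonneg_left h hc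
    _ = _ := by ring

lemma RT_ineq {χ : ℝ → ℝ} (hg : TF (fun u => (χ u : ℂ)) A B) (h1 : ∀ u, χ u ≤ 1) {T : ℝ}
    (hT : 1 < T) (a : ℝ) :
    ‖RT k a T - (2 * Real.pi : ℂ)⁻¹ *
      ∫ β : ℝ, G (md (fun u => (χ u : ℂ)) a) (β * I) * RT k β T‖ ≤
    Jn k T - (2 * Real.pi)⁻¹ * (∫ β : ℝ, G (fun u => (χ u : ℂ)) (β * I) * RT k β T).re := by
  have hL := Real.log_pos hT
  obtain ⟨M, hM⟩ := Ft_bounded k T
  have h := AC_ineq hg h1 hL a (hg.md a) (fun u => rfl) (Ft_integrable k T) hM (Ft_contAt k T)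
  have hc : 0 ≤ (T * Real.log T ^ (k ^ 2))⁻¹ := by positivity
  rw [RT_int, RT_int, cast_re, Jn, ← Ft_sq k (by linarith : 0 ≤ T)]
  have e1 : RT k a T - (2 * Real.pi : ℂ)⁻¹ * (((T * Real.log T ^ (k ^ 2) : ℝ) : ℂ)⁻¹ *
      ∫ β : ℝ, G (md (fun u => (χ u : ℂ)) a) (β * I) * AC (Ft k T) (2 * β / Real.log T)) =
      ((T * Real.log T ^ (k ^ 2) : ℝ) : ℂ)⁻¹ * (AC (Ft k T) (2 * a / Real.log T) -
        (2 * Real.pi : ℂ)⁻¹ * ∫ β : ℝ, G (md (fun u => (χ u : ℂ)) a) (β * I) *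
          AC (Ft k T) (2 * β / Real.log T)) := by
    unfold RT; ring
  rw [e1, norm_mul, norm_cast_inv (by positivity)]
  calc _ ≤ (T * Real.log T ^ (k ^ 2))⁻¹ * ((∫ t, ‖Ft k T t‖ ^ 2) - (2 * Real.pi)⁻¹ *
        (∫ β : ℝ, G (fun u => (χ u : ℂ)) (β * I) * AC (Ft k T) (2 * β / Real.log T)).re) :=
        mul_le_mul_of_nonneg_left h hc
    _ = _ := by ring

lemma Jn_nonneg {T : ℝ} (hT : 1 < T) : 0 ≤ Jn k T := by
  have hL := Real.log_pos hT
  have := I2_nonneg k (show 0 ≤ T by linarith)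
  unfold Jn; positivity

/-- the lower bound for the moment from the averaged information -/
lemma lower_J (hk : 1 ≤ k) {𝒲 : ℝ → ℂ}
    (h𝒲 : ∀ α : ℝ, Tendsto (fun N : ℕ => Wk (μ N) k α) atTop (𝓝 (𝒲 α)))
    (hmid : MidHyp k 𝒲) {c : ℝ} (hup : ∀ᶠ T : ℝ in atTop, Jn k T ≤ c) {ε : ℝ} (hε : 0 < ε) :
    ∀ᶠ T : ℝ in atTop, arith k * (𝒲 0).re - ε ≤ Jn k T := by
  have hA : 0 ≤ arith k := (zetaData hk).A_nonneg
  set q := arith k * (𝒲 0).re with hq
  by_contra hcon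
  rw [not_eventually] at hcon
  obtain ⟨u, hu, hlt⟩ := exists_seq_forall_of_frequently hcon
  have hlt' : ∀ n, Jn k (u n) < q - ε := fun n => not_le.1 (hlt n)
  have hq0 : 0 < q - ε := by
    obtain ⟨n, hn⟩ := (hu.eventually (eventually_gt_atTop (1:ℝ))).exists
    exact (Jn_nonneg hn).trans_lt (hlt' n)
  set δ : ℝ := min (1/2) (ε / (4 * (q + 1))) with hδ
  have hδ0 : 0 < δ := lt_min (by norm_num) (by apply div_pos hε; linarith)
  have hδ1 : δ ≤ 1/2 := min_le_left _ _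
  have hδ2 : δ * (4 * (q + 1)) ≤ ε := by
    rw [← le_div_iff₀ (by linarith)]; exact min_le_right _ _
  have hMt : Tendsto (fun n => ⌊δ * u n / (3 * Real.sqrt (u n))⌋₊) atTop atTop := by
    refine tendsto_nat_floor_atTop.comp ?_
    have h1 : Tendsto (fun n => δ / 3 * Real.sqrt (u n)) atTop atTop :=
      (Real.tendsto_sqrt_atTop.comp hu).const_mul_atTop (by positivity)
    refine h1.congr' ?_
    filter_upwards [hu.eventually (eventually_gt_atTop (1:ℝ))] with n hn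
    have h2 : 0 < Real.sqrt (u n) := Real.sqrt_pos.2 (by linarith)
    have h3 : u n = Real.sqrt (u n) * Real.sqrt (u n) := (Real.mul_self_sqrt (by linarith)).symm
    rw [eq_div_iff (by positivity)]
    calc δ / 3 * Real.sqrt (u n) * (3 * Real.sqrt (u n)) =
        δ * (Real.sqrt (u n) * Real.sqrt (u n)) := by ring
      _ = _ := by rw [← h3]
  set Mn : ℕ → ℕ := fun n => ⌊δ * u n / (3 * Real.sqrt (u n))⌋₊ with hMn
  have hex : ∀ n, ∃ T' : ℝ, (1 < u n ∧ 1 ≤ Mn n) → ((1 - δ) * u n ≤ T' ∧ T' ≤ u n ∧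
      I2 k (T' + Real.sqrt (u n)) - I2 k (T' - 2 * Real.sqrt (u n)) ≤ I2 k (u n) / Mn n) := by
    intro n
    by_cases hc : 1 < u n ∧ 1 ≤ Mn n
    · have h2 : 0 < Real.sqrt (u n) := Real.sqrt_pos.2 (by linarith [hc.1])
      have h3 : (Mn n : ℝ) ≤ δ * u n / (3 * Real.sqrt (u n)) :=
        Nat.floor_le (by have := hc.1; positivity)
      rw [le_div_iff₀ (by positivity)] at h3
      have h4 : 3 * Real.sqrt (u n) * Mn n ≤ δ * u n := by linarith
      obtain ⟨T', a1, a2, a3⟩ := pigeon k h2 hc.2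
        (h4.trans (show δ * u n ≤ u n by nlinarith [hc.1]))
      exact ⟨T', fun _ => ⟨by linarith, a2, a3⟩⟩
    · exact ⟨0, fun h => absurd h hc⟩
  choose τ hτ using hex
  have hev : ∀ᶠ n in atTop, 1 < u n ∧ 1 ≤ Mn n :=
    (hu.eventually (eventually_gt_atTop (1:ℝ))).and (hMt.eventually (eventually_ge_atTop 1))
  have hτt : Tendsto τ atTop atTop := by
    refine tendsto_atTop_mono' atTop ?_ (hu.const_mul_atTop (show (0:ℝ) < 1/2 by norm_num))
    filter_upwards [hev] with n hn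
    have := (hτ n hn).1
    nlinarith [hn.1]
  -- ratio bound
  have hR : ∀ᶠ n in atTop, (τ n * Real.log (τ n) ^ (k ^ 2))⁻¹ * (u n * Real.log (u n) ^ (k ^ 2)) ≤
      (1 + δ) / (1 - δ) := by
    have hlr := (log_ratio (k ^ 2) (δ := δ) (by linarith)).comp hu
    have h1 := hlr.eventually (gt_mem_nhds (show (1:ℝ) < 1 + δ by linarith))
    filter_upwards [hev, h1, hu.eventually (eventually_gt_atTop (4:ℝ)),
      hτt.eventually (eventually_gt_atTop (1:ℝ))] with n hn h2 h4 h5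
    obtain ⟨a1, a2, a3⟩ := hτ n hn
    simp only [Function.comp] at h2
    have hul := Real.log_pos hn.1
    have hτl := Real.log_pos h5
    have h6 : 1 < (1 - δ) * u n := by nlinarith
    have h7 := Real.log_pos h6
    have h8 : Real.log ((1 - δ) * u n) ≤ Real.log (τ n) := Real.log_le_log (by linarith) a1
    have h9 : Real.log (u n) / Real.log (τ n) ≤ Real.log (u n) / Real.log ((1 - δ) * u n) := by
      gcongr
    have h10 : (Real.log (u n) / Real.log (τ n)) ^ (k ^ 2) ≤ 1 + δ :=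
      (pow_le_pow_left₀ (by positivity) h9 _).trans h2.le
    have h11 : u n / τ n ≤ 1 / (1 - δ) := by
      rw [div_le_div_iff₀ (by linarith) (by linarith)]
      linarith
    have h12 : 0 ≤ u n / τ n := by have := hn.1; positivity
    calc (τ n * Real.log (τ n) ^ (k ^ 2))⁻¹ * (u n * Real.log (u n) ^ (k ^ 2)) =
        (u n / τ n) * (Real.log (u n) / Real.log (τ n)) ^ (k ^ 2) := by
          rw [div_pow, mul_inv]; ring
      _ ≤ 1 / (1 - δ) * (1 + δ) :=
          mul_le_mul h11 h10 (by positivity) (div_nonneg (by norm_num) (by linarith))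
      _ = _ := by ring
  have hIJ : ∀ n, 1 < u n → I2 k (u n) = (u n * Real.log (u n) ^ (k ^ 2)) * Jn k (u n) := by
    intro n hn
    have := Real.log_pos hn
    unfold Jn
    have : u n * Real.log (u n) ^ (k ^ 2) ≠ 0 := by positivity
    field_simp
  have hδ3 : (1 + δ) / (1 - δ) ≤ 3 := by
    rw [div_le_iff₀ (by linarith)]; linarith
  -- edges
  have hE : ∀ β, Tendsto (fun n => ED k β (τ n)) atTop (𝓝 0) := by
    intro β
    have hlim : Tendsto (fun n => 3 * q * ((Mn n : ℝ))⁻¹) atTop (𝓝 0) := by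
      have := (tendsto_inv_atTop_zero.comp (tendsto_natCast_atTop_atTop.comp hMt)).const_mul (3 * q)
      rwa [mul_zero] at this
    refine squeeze_zero' ?_ ?_ hlim
    · filter_upwards [hτt.eventually (eventually_gt_atTop (1:ℝ))] with n hn
      have := Real.log_pos hn
      unfold ED
      have h1 := I2_mono k (show τ n - 2 * |β| ≤ τ n + |β| by linarith [abs_nonneg β])
      have h2 : 0 ≤ I2 k (τ n + |β|) - I2 k (τ n - 2 * |β|) := by linarith
      positivity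
    · filter_upwards [hev, hR, hτt.eventually (eventually_gt_atTop (1:ℝ)),
        (Real.tendsto_sqrt_atTop.comp hu).eventually (eventually_ge_atTop |β|)] with n hn hRn h5 hβ
      simp only [Function.comp] at hβ
      obtain ⟨a1, a2, a3⟩ := hτ n hn
      have hτl := Real.log_pos h5
      have hMp : (0:ℝ) < Mn n := by exact_mod_cast hn.2
      have hc0 : 0 ≤ (τ n * Real.log (τ n) ^ (k ^ 2))⁻¹ := by positivity
      have b1 : I2 k (τ n + |β|) ≤ I2 k (τ n + Real.sqrt (u n)) := I2_mono k (by linarith)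
      have b2 : I2 k (τ n - 2 * Real.sqrt (u n)) ≤ I2 k (τ n - 2 * |β|) := I2_mono k (by linarith)
      unfold ED
      calc (τ n * Real.log (τ n) ^ (k ^ 2))⁻¹ * (I2 k (τ n + |β|) - I2 k (τ n - 2 * |β|)) ≤
            (τ n * Real.log (τ n) ^ (k ^ 2))⁻¹ * (I2 k (u n) / Mn n) := by
            gcongr; linarith
        _ = ((τ n * Real.log (τ n) ^ (k ^ 2))⁻¹ * (u n * Real.log (u n) ^ (k ^ 2))) * Jn k (u n) *
            (Mn n : ℝ)⁻¹ := by rw [hIJ n hn.1]; ring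
        _ ≤ 3 * q * (Mn n : ℝ)⁻¹ := by
            have hJ0 := Jn_nonneg (k := k) hn.1
            have hJq : Jn k (u n) ≤ q := by linarith [hlt' n]
            gcongr
            exact hRn.trans hδ3
  -- upper bound at τ
  have hup' : ∀ᶠ n in atTop, Jn k (τ n) ≤ q - ε / 2 := by
    filter_upwards [hev, hR, hτt.eventually (eventually_gt_atTop (1:ℝ))] with n hn hRn h5
    obtain ⟨a1, a2, a3⟩ := hτ n hn
    have hτl := Real.log_pos h5
    have hJ0 := Jn_nonneg (k := k) hn.1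
    have hc0 : 0 ≤ (τ n * Real.log (τ n) ^ (k ^ 2))⁻¹ := by positivity
    calc Jn k (τ n) ≤ (τ n * Real.log (τ n) ^ (k ^ 2))⁻¹ * I2 k (u n) :=
          mul_le_mul_of_nonneg_left (I2_mono k a2) hc0
      _ = ((τ n * Real.log (τ n) ^ (k ^ 2))⁻¹ * (u n * Real.log (u n) ^ (k ^ 2))) * Jn k (u n) := by
          rw [hIJ n hn.1]; ring
      _ ≤ (1 + δ) / (1 - δ) * (q - ε) := by
          gcongr
          · exact div_nonneg (by linarith) (by linarith)
          · exact (hlt' n).le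
      _ ≤ q - ε / 2 := by
          rw [div_mul_eq_mul_div, div_le_iff₀ (by linarith)]
          nlinarith
  -- positivity
  set D : ℝ := ((k:ℝ) ^ 2 + k) ^ (k ^ 2 - 1) with hD
  have hD0 : 0 ≤ D := by positivity
  set η : ℝ := ε / (8 * (arith k * D + 1)) with hη
  have hη0 : 0 < η := by
    apply div_pos hε
    have := mul_nonneg hA hD0
    linarith
  have hη1 : arith k * (2 * D * η) ≤ ε / 4 := by
    have hpos : 0 < 8 * (arith k * D + 1) := by
      have := mul_nonneg hA hD0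
      linarith
    have h1 : η * (8 * (arith k * D + 1)) = ε := div_mul_cancel₀ _ hpos.ne'
    nlinarith
  obtain ⟨χ, t0, c0, c1, c2, c3⟩ := exists_chi k hη0
  have hgood := good μ hk h𝒲 hmid t0 (r := η / 2) (by positivity) (fun u hu => by
    show ((χ u : ℝ) : ℂ) = 0
    rw [c2 u hu]; simp)
  have hRQ := RQ hτt hup hE t0
  have hRTlim := (hgood.comp hτt).sub hRQ
  rw [sub_zero] at hRTlim
  have hre := (Complex.continuous_re.tendsto _).comp hRTlim
  have hsm := lim_small μ hk hη0 t0 c0 c3 h𝒲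
  set w : ℂ := ∫ α : ℝ, G (fun u => (χ u : ℂ)) (α * I) * 𝒲 α with hw
  have hwre : ((arith k : ℂ) * w).re = arith k * w.re := Complex.re_ofReal_mul _ _
  have h2pi : (0:ℝ) < 2 * Real.pi := by positivity
  have hsm' : (𝒲 0).re - (2 * Real.pi)⁻¹ * w.re ≤ 2 * D * η := by
    have e : ((2 * Real.pi : ℂ)⁻¹ * w).re = (2 * Real.pi)⁻¹ * w.re := by
      rw [show (2 * Real.pi : ℂ)⁻¹ = (((2 * Real.pi : ℝ)) : ℂ)⁻¹ by push_cast; rfl, cast_re]
    rw [sub_re, e] at hsm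
    exact hsm
  have hlow : 2 * Real.pi * (q - ε / 2) < ((arith k : ℂ) * w).re := by
    rw [hwre]
    have h1 : w.re = 2 * Real.pi * ((2 * Real.pi)⁻¹ * w.re) := by field_simp
    rw [h1]
    have h3 : (𝒲 0).re - 2 * D * η ≤ (2 * Real.pi)⁻¹ * w.re := by linarith
    calc 2 * Real.pi * (q - ε / 2) < 2 * Real.pi * (q - ε / 4) := by
          apply mul_lt_mul_of_pos_left _ h2pi; linarith
      _ ≤ 2 * Real.pi * (arith k * ((𝒲 0).re - 2 * D * η)) := by
          apply mul_le_mul_of_nonneg_left _ h2pi.le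
          rw [mul_sub]; linarith
      _ ≤ 2 * Real.pi * (arith k * ((2 * Real.pi)⁻¹ * w.re)) := by gcongr
      _ = _ := by ring
  have hfin := hre.eventually (lt_mem_nhds hlow)
  obtain ⟨n, hn1, hn2, hn3⟩ :=
    ((hfin.and hup').and (hτt.eventually (eventually_gt_atTop (1:ℝ)))).exists.imp
      (fun n h => (⟨h.1.1, h.1.2, h.2⟩ : _ ∧ _ ∧ _))
  simp only [Function.comp] at hn1
  have h1 := RT_pos (k := k) t0 c1 hn3
  have e : (∫ α : ℝ, G (fun u => (χ u : ℂ)) (α * I) * Qk k α (τ n)) -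
      ((∫ β : ℝ, G (fun u => (χ u : ℂ)) (β * I) * Qk k β (τ n)) -
        ∫ β : ℝ, G (fun u => (χ u : ℂ)) (β * I) * RT k β (τ n)) =
      ∫ β : ℝ, G (fun u => (χ u : ℂ)) (β * I) * RT k β (τ n) := by ring
  rw [e] at hn1
  have h2 : 2 * Real.pi * Jn k (τ n) ≤ 2 * Real.pi * (q - ε / 2) :=
    mul_le_mul_of_nonneg_left hn2 h2pi.le
  linarith

end
end MP069854

namespace MP069854
open Filter Topology Complex Set MeasureTheory Matrix
open scoped ComplexConjugate ContDiff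

lemma TF_of_hcs {g : ℝ → ℂ} (hg : ContDiff ℝ ∞ g) (hc : HasCompactSupport g) :
    ∃ R : ℝ, TF g (-R) R := by
  obtain ⟨R, hR⟩ := hc.isBounded.subset_closedBall (0:ℝ)
  refine ⟨R, hg, ?_⟩
  intro u hu
  have := hR hu
  rw [mem_closedBall_zero_iff, Real.norm_eq_abs] at this
  exact abs_le.1 this

section
variable {k : ℕ} {g : ℝ → ℂ} {A B : ℝ}
variable [∀ N, MeasurableSpace (unitaryGroup (Fin N) ℂ)] [∀ N, BorelSpace (unitaryGroup (Fin N) ℂ)]
  (μ : ∀ N, Measure (unitaryGroup (Fin N) ℂ)) [∀ N, IsProbabilityMeasure (μ N)]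
  [∀ N, (μ N).IsHaarMeasure]

/-- averaged information plus the sharp upper bound for the moment give the pointwise asymptotics -/
theorem point (hk : 1 ≤ k) {𝒲 : ℝ → ℂ}
    (h𝒲 : ∀ α : ℝ, Tendsto (fun N : ℕ => Wk (μ N) k α) atTop (𝓝 (𝒲 α)))
    (hmid : MidHyp k 𝒲)
    (hup : ∀ ε : ℝ, 0 < ε → ∀ᶠ T : ℝ in atTop, Jn k T ≤ arith k * (𝒲 0).re + ε) (a : ℝ) :
    Tendsto (fun T : ℝ => Qk k a T) atTop (𝓝 (arith k * 𝒲 a)) := by
  have hA : 0 ≤ arith k := (zetaData hk).A_nonneg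
  have hup1 := hup 1 one_pos
  set q := arith k * (𝒲 0).re with hq
  have hJ : Tendsto (Jn k) atTop (𝓝 q) := by
    rw [tendsto_order]
    constructor
    · intro c hc
      filter_upwards [lower_J μ hk h𝒲 hmid hup1 (ε := (q - c) / 2) (by linarith)] with T hT
      linarith
    · intro c hc
      filter_upwards [hup ((c - q) / 2) (by linarith)] with T hT
      linarith
  have hE := ED_atTop hJ
  have hRT : Tendsto (fun T : ℝ => RT k a T) atTop (𝓝 (arith k * 𝒲 a)) := by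
    rw [Metric.tendsto_nhds]
    intro ε hε
    set D : ℝ := ((k:ℝ) ^ 2 + k) ^ (k ^ 2 - 1) with hD
    have hD0 : 0 ≤ D := by positivity
    have hpos : 0 < 8 * (arith k * D + 1) := by
      have := mul_nonneg hA hD0
      linarith
    set η : ℝ := ε / (8 * (arith k * D + 1)) with hη
    have hη0 : 0 < η := div_pos hε hpos
    have hη1 : arith k * (2 * D * η) ≤ ε / 4 := by
      have h1 : η * (8 * (arith k * D + 1)) = ε := div_mul_cancel₀ _ hpos.ne'
      nlinarith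
    obtain ⟨χ, t0, c0, c1, c2, c3⟩ := exists_chi k hη0
    have tm := t0.md a
    have g0 := good μ hk h𝒲 hmid t0 (r := η / 2) (by positivity) (fun u hu => by
      show ((χ u : ℝ) : ℂ) = 0
      rw [c2 u hu]; simp)
    have gm := good μ hk h𝒲 hmid tm (r := η / 2) (by positivity) (fun u hu => by
      show ((χ u : ℝ) : ℂ) * _ = 0
      rw [c2 u hu]; simp)
    have r0 := g0.sub (RQ tendsto_id hup1 (fun β => hE β) t0)
    have rm := gm.sub (RQ tendsto_id hup1 (fun β => hE β) tm)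
    rw [sub_zero] at r0 rm
    have li := lim_ineq μ t0 c1 h𝒲 a
    have ls := lim_small μ hk hη0 t0 c0 c3 h𝒲
    set w0 : ℂ := ∫ α : ℝ, G (fun u => (χ u : ℂ)) (α * I) * 𝒲 α with hw0
    set wm : ℂ := ∫ α : ℝ, G (md (fun u => (χ u : ℂ)) a) (α * I) * 𝒲 α with hwm
    set V : ℝ := (𝒲 0 - (2 * Real.pi : ℂ)⁻¹ * w0).re with hV
    have hpi : (2 * Real.pi : ℂ)⁻¹ = (((2 * Real.pi : ℝ)) : ℂ)⁻¹ := by push_cast; rfl
    have hVe : V = (𝒲 0).re - (2 * Real.pi)⁻¹ * w0.re := by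
      rw [hV, sub_re, hpi, cast_re]
    have hwre : ((arith k : ℂ) * w0).re = arith k * w0.re := Complex.re_ofReal_mul _ _
    have l1 : Tendsto (fun T : ℝ => Jn k T - (2 * Real.pi)⁻¹ *
        (∫ β : ℝ, G (fun u => (χ u : ℂ)) (β * I) * RT k β T).re) atTop (𝓝 (arith k * V)) := by
      have h1 := hJ.sub (((Complex.continuous_re.tendsto _).comp r0).const_mul (2 * Real.pi)⁻¹)
      rw [hwre] at h1
      have e : q - (2 * Real.pi)⁻¹ * (arith k * w0.re) = arith k * V := by rw [hVe, hq]; ring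
      rw [e] at h1
      refine h1.congr fun T => ?_
      simp only [Function.comp, id]
      congr 3
      ring
    have l2 : Tendsto (fun T : ℝ => ‖(2 * Real.pi : ℂ)⁻¹ *
        (∫ β : ℝ, G (md (fun u => (χ u : ℂ)) a) (β * I) * RT k β T) -
        (2 * Real.pi : ℂ)⁻¹ * (arith k * wm)‖) atTop (𝓝 0) := by
      have h1 := ((rm.const_mul (2 * Real.pi : ℂ)⁻¹).sub_const
        ((2 * Real.pi : ℂ)⁻¹ * (arith k * wm))).norm
      rw [sub_self, norm_zero] at h1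
      refine h1.congr fun T => ?_
      simp only [id]
      congr 3
      ring
    have l3 := l1.add l2
    rw [add_zero] at l3
    have h4 : arith k * V < ε / 2 := by
      have := mul_le_mul_of_nonneg_left ls hA
      linarith
    filter_upwards [l3.eventually (gt_mem_nhds h4), eventually_gt_atTop (1:ℝ)] with T hT hT1
    have h5 := RT_ineq (k := k) t0 c1 hT1 a
    have h6 : ‖(2 * Real.pi : ℂ)⁻¹ * (arith k * wm) - arith k * 𝒲 a‖ ≤ arith k * V := by
      have e : (2 * Real.pi : ℂ)⁻¹ * (arith k * wm) - arith k * 𝒲 a =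
          -((arith k : ℂ) * (𝒲 a - (2 * Real.pi : ℂ)⁻¹ * wm)) := by ring
      rw [e, norm_neg, norm_mul, Complex.norm_real, Real.norm_of_nonneg hA]
      exact mul_le_mul_of_nonneg_left li hA
    rw [dist_eq_norm]
    set x := RT k a T
    set y := (2 * Real.pi : ℂ)⁻¹ *
        (∫ β : ℝ, G (md (fun u => (χ u : ℂ)) a) (β * I) * RT k β T)
    set z := (2 * Real.pi : ℂ)⁻¹ * (arith k * wm)
    calc ‖x - arith k * 𝒲 a‖ = ‖(x - y) + (y - z) + (z - arith k * 𝒲 a)‖ := by congr 1; ring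
      _ ≤ ‖x - y‖ + ‖y - z‖ + ‖z - arith k * 𝒲 a‖ := norm_add₃_le
      _ < ε := by linarith
  have h7 := hRT.add (RQ_point tendsto_id a (hE a))
  rw [add_zero] at h7
  refine h7.congr fun T => ?_
  simp only [id]; ring

/-- **Equivalence.** -/
theorem equivalence (hk : 1 ≤ k) {𝒲 : ℝ → ℂ}
    (h𝒲 : ∀ α : ℝ, Tendsto (fun N : ℕ => Wk (μ N) k α) atTop (𝓝 (𝒲 α))) :
    (∀ α : ℝ, Tendsto (fun T : ℝ => Qk k α T) atTop (𝓝 (arith k * 𝒲 α))) ↔
    ((∀ ε : ℝ, 0 < ε → ∀ᶠ T : ℝ in atTop, Jn k T ≤ arith k * (𝒲 0).re + ε) ∧ MidHyp k 𝒲) := by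
  constructor
  · intro h
    have hJ : Tendsto (Jn k) atTop (𝓝 (arith k * (𝒲 0).re)) := by
      have h1 := (Complex.continuous_re.tendsto _).comp (h 0)
      rw [Complex.re_ofReal_mul] at h1
      refine h1.congr fun T => ?_
      simp only [Function.comp]
      rw [Qk_zero, ofReal_re]; rfl
    refine ⟨?_, ?_⟩
    · intro ε hε
      filter_upwards [hJ.eventually (gt_mem_nhds (show arith k * (𝒲 0).re <
        arith k * (𝒲 0).re + ε by linarith))] with T hT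
      exact hT.le
    · intro g hg hc _
      obtain ⟨R, t⟩ := TF_of_hcs hg hc
      have hb : ∀ᶠ T : ℝ in atTop, Jn k T ≤ arith k * (𝒲 0).re + 1 := by
        filter_upwards [hJ.eventually (gt_mem_nhds (show arith k * (𝒲 0).re <
          arith k * (𝒲 0).re + 1 by linarith))] with T hT
        exact hT.le
      have h1 := point_imp hb t h
      have e : ∫ β : ℝ, G g (β * I) * (arith k * 𝒲 β) = arith k * ∫ α : ℝ, G g (α * I) * 𝒲 α := by
        rw [← integral_const_mul]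
        refine integral_congr_ae (Eventually.of_forall fun β => ?_)
        simp only; ring
      rwa [e] at h1
  · rintro ⟨h1, h2⟩ a
    exact point μ hk h𝒲 h2 h1 a

end
end MP069854
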