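import Pool.Agent.Lib.MP_069854_nt.Part05

namespace MP069854
open Filter Topology Complex Set MeasureTheory
open scoped ComplexConjugate ContDiff

/-- `ζ(1/2+it)^k` -/
noncomputable def fz (k : ℕ) (t : ℝ) : ℂ := riemannZeta (1/2 + t * I) ^ k

lemma fz_cont (k : ℕ) : Continuous (fz k) := by
  unfold fz
  refine Continuous.pow ?_ k
  rw [continuous_iff_continuousAt]
  intro y
  have h : DifferentiableAt ℂ riemannZeta (1/2 + y * I) := by
    apply differentiableAt_riemannZeta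
    intro h
    have := congrArg Complex.re h
    simp at this
  exact ContinuousAt.comp (f := fun y : ℝ => (1/2 + y * I : ℂ)) (g := riemannZeta) h.continuousAt
    (by fun_prop)

lemma fz_growth (k : ℕ) : ∃ C : ℝ, 1 ≤ C ∧ ∀ t : ℝ, ‖fz k t‖ ≤ C * (1 + |t|) ^ k := by
  obtain ⟨C, hC1, hC⟩ := zeta_growth'
  refine ⟨C ^ k, one_le_pow₀ hC1, ?_⟩
  intro t
  unfold fz
  rw [norm_pow, ← mul_pow]
  refine pow_le_pow_left₀ (norm_nonneg _) ?_ k
  refine (hC _ (by simp) (dist_one_of_re (by simp))).trans ?_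
  refine mul_le_mul_of_nonneg_left ?_ (by linarith)
  have h1 := Complex.norm_le_abs_re_add_abs_im (1/2 + t * I)
  have h2 : (1/2 + (t:ℂ) * I).re = 1/2 := by simp
  have h3 : (1/2 + (t:ℂ) * I).im = t := by simp
  rw [h2, h3] at h1
  have h4 : |(1/2:ℝ)| = 1/2 := by norm_num
  rw [h4] at h1
  linarith

lemma fz_conj (k : ℕ) (t : ℝ) : conj (fz k t) = riemannZeta (1/2 - t * I) ^ k := by
  unfold fz
  rw [map_pow, ← riemannZeta_conj]
  congr 2
  have h2 : (starRingEnd ℂ) (2:ℂ) = 2 := map_ofNat _ 2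
  simp [sub_eq_add_neg, h2]

lemma Z_eq (k : ℕ) (t y : ℝ) : Z k t (1/2 + y * I) = fz k (t + y) * conj (fz k (t - y)) := by
  rw [fz_conj]
  unfold Z fz
  congr 3 <;> (push_cast; ring)

section
variable {g : ℝ → ℂ} {A B : ℝ}

/-- modulation -/
noncomputable def md (g : ℝ → ℂ) (d : ℝ) (u : ℝ) : ℂ := g u * exp (-(u * d : ℝ) * I)

lemma TF.md (hg : TF g A B) (d : ℝ) : TF (md g d) A B := by
  refine ⟨?_, ?_⟩
  · unfold MP069854.md
    refine hg.smooth.mul ?_
    have : (fun u : ℝ => exp (-(u * d : ℝ) * I)) = fun u : ℝ => exp ((u : ℂ) * (-(d : ℂ) * I)) := by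
      funext u; congr 1; push_cast; ring
    rw [this]
    have h1 : ContDiff ℝ ∞ fun u : ℝ => (u : ℂ) * (-(d : ℂ) * I) :=
      (Complex.ofRealCLM.contDiff).mul contDiff_const
    exact h1.cexp
  · refine (closure_mono ?_).trans hg.supp
    intro u hu h0
    apply hu
    show g u * _ = 0
    rw [h0, zero_mul]

lemma G_md (g : ℝ → ℂ) (d β : ℝ) : G (md g d) (β * I) = G g ((β - d : ℝ) * I) := by
  unfold G md
  refine integral_congr_ae (Eventually.of_forall fun u => ?_)
  simp only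
  rw [mul_assoc, ← exp_add]
  congr 2
  push_cast; ring

lemma G_add' {g g₁ g₂ : ℝ → ℂ} {A B A' B' : ℝ} (h1 : TF g₁ A B) (h2 : TF g₂ A' B')
    (h : ∀ u, g u = g₁ u + g₂ u) (w : ℂ) : G g w = G g₁ w + G g₂ w := by
  unfold G
  rw [← integral_add (h1.integrable_mul_exp w) (h2.integrable_mul_exp w)]
  refine integral_congr_ae (Eventually.of_forall fun u => ?_)
  simp only
  rw [h u]; ring

/-- bumps as test functions -/
lemma TF_bump {x0 : ℝ} (f : ContDiffBump x0) : TF (fun u => ((f u : ℝ) : ℂ)) (x0 - f.rOut) (x0 + f.rOut) := by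
  refine ⟨?_, ?_⟩
  · exact Complex.ofRealCLM.contDiff.comp f.contDiff
  · have h1 : tsupport (fun u => ((f u : ℝ) : ℂ)) ⊆ tsupport f :=
      closure_mono (fun u hu h0 => hu (by simp only at h0 ⊢; rw [h0]; simp))
    rw [f.tsupport_eq, Real.closedBall_eq_Icc] at h1
    exact h1

end
end MP069854
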