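import Pool.Agent.Lib.MP_069854_nt.CoreW
import Pool.Agent.Lib.MP_069854_nt.Part06
import Pool.Agent.Lib.MP_069854_nt.Boch
import Pool.Agent.Lib.MP_069854_nt.Fz

namespace MP069854
open Filter Topology Complex Set MeasureTheory
open scoped ComplexConjugate ContDiff

/-- smooth weights on `(0,1)` -/
structure SW (w : ℝ → ℝ) (δ : ℝ) : Prop where
  δ0 : 0 < δ
  smooth : ContDiff ℝ ∞ w
  supp : ∀ x, w x ≠ 0 → 2 * δ ≤ x ∧ x ≤ 1 - 2 * δ
  nn : ∀ x, 0 ≤ w x
  le1 : ∀ x, w x ≤ 1

namespace SW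
variable {w : ℝ → ℝ} {δ : ℝ}

lemma hcs (h : SW w δ) : HasCompactSupport w :=
  HasCompactSupport.of_support_subset_isCompact (K := Icc (2 * δ) (1 - 2 * δ)) isCompact_Icc
    (fun x hx => h.supp x hx)

lemma der_cont (h : SW w δ) : Continuous (deriv w) := by
  have := (contDiff_infty_iff_deriv.1 h.smooth).2
  exact this.continuous

lemma der_bound (h : SW w δ) : ∃ D : ℝ, 0 ≤ D ∧ ∀ x, |deriv w x| ≤ D := by
  obtain ⟨D, hD⟩ := h.hcs.deriv.exists_bound_of_continuous h.der_cont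
  exact ⟨D, (norm_nonneg _).trans (hD 0), hD⟩

lemma abs_le (h : SW w δ) (x : ℝ) : |w x| ≤ 1 := by
  rw [abs_of_nonneg (h.nn x)]; exact h.le1 x

lemma wf (h : SW w δ) (c : ℝ) : ∃ M : ℝ, WF (fun T x => w (x - c / (T * Real.log T)) ^ 2)
    (fun T x => 2 * w (x - c / (T * Real.log T)) * deriv w (x - c / (T * Real.log T)))
    (fun x => w x ^ 2) M := by
  obtain ⟨D, hD0, hD⟩ := h.der_bound
  refine ⟨1 + 2 * D, by positivity, ?_, ?_, ?_, ?_, ?_⟩
  · intro T x
    have e1 : HasDerivAt (fun x : ℝ => x - c / (T * Real.log T)) 1 x := (hasDerivAt_id x).sub_const _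
    have e2 : HasDerivAt w (deriv w (x - c / (T * Real.log T))) (x - c / (T * Real.log T)) :=
      ((h.smooth.differentiable (by simp)) _).hasDerivAt
    have e3 : HasDerivAt (fun x : ℝ => w (x - c / (T * Real.log T)))
        (deriv w (x - c / (T * Real.log T)) * 1) x := e2.comp x e1
    have e4 := e3.fun_pow 2
    have e5 : 2 * w (x - c / (T * Real.log T)) * deriv w (x - c / (T * Real.log T)) =
        ((2:ℕ) : ℝ) * w (x - c / (T * Real.log T)) ^ (2 - 1) *
          (deriv w (x - c / (T * Real.log T)) * 1) := by norm_num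
    rw [e5]
    exact e4
  · intro T
    exact (continuous_const.mul (h.smooth.continuous.comp (by fun_prop))).mul
      (h.der_cont.comp (by fun_prop))
  · intro T x
    have := h.abs_le (x - c / (T * Real.log T))
    rw [abs_pow]
    have h1 : |w (x - c / (T * Real.log T))| ^ 2 ≤ 1 ^ 2 := pow_le_pow_left₀ (abs_nonneg _) this 2
    linarith
  · intro T x
    have h1 := h.abs_le (x - c / (T * Real.log T))
    have h2 := hD (x - c / (T * Real.log T))
    rw [abs_mul, abs_mul, abs_two]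
    have h3 : |w (x - c / (T * Real.log T))| * |deriv w (x - c / (T * Real.log T))| ≤ 1 * D :=
      mul_le_mul h1 h2 (abs_nonneg _) zero_le_one
    nlinarith
  · intro x
    have h1 : Tendsto (fun T : ℝ => x - c / (T * Real.log T)) atTop (𝓝 (x - 0)) := by
      refine Tendsto.const_sub _ (Tendsto.const_div_atTop ?_ c)
      exact tendsto_id.atTop_mul_atTop₀ Real.tendsto_log_atTop
    rw [sub_zero] at h1
    exact ((h.smooth.continuous.tendsto x).comp h1).pow 2

/-- support of the shifted weight -/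
lemma shift_supp (h : SW w δ) (c : ℝ) : ∀ᶠ T : ℝ in atTop, ∀ x : ℝ,
    w (x - c / (T * Real.log T)) ≠ 0 → δ ≤ x ∧ x ≤ 1 - δ := by
  have h1 : Tendsto (fun T : ℝ => |c / (T * Real.log T)|) atTop (𝓝 |(0:ℝ)|) := by
    refine Tendsto.abs (Tendsto.const_div_atTop ?_ c)
    exact tendsto_id.atTop_mul_atTop₀ Real.tendsto_log_atTop
  rw [abs_zero] at h1
  filter_upwards [h1.eventually (gt_mem_nhds h.δ0)] with T hT x hx
  obtain ⟨a1, a2⟩ := h.supp _ hx
  have := abs_lt.1 hT
  constructor <;> linarith [this.1, this.2]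

end SW

section
variable {k : ℕ} {g : ℝ → ℂ} {A B : ℝ} {w : ℝ → ℝ} {δ : ℝ}

/-- low frequencies with weights -/
lemma avgW_low (hw : SW w δ) (c : ℝ) (hk : 1 ≤ k) (hg : TF g A B) (hB : B < 2) :
    Tendsto (fun T : ℝ => ((T * Real.log T ^ (k ^ 2) : ℝ) : ℂ)⁻¹ *
      ∫ t in (0:ℝ)..T, ((w (t / T - c / (T * Real.log T)) ^ 2 : ℝ) : ℂ) *
        JJ k g (fun _ _ => (1:ℂ)) (Real.log T) t) atTop
      (𝓝 (((∫ x in (0:ℝ)..1, w x ^ 2 : ℝ) : ℂ) *
        (2 * Real.pi * (arith k * ∫ y in Ioi (0:ℝ), g (2 * y) * wt (k ^ 2) y)))) := by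
  obtain ⟨M, hM⟩ := hw.wf c
  have h := coreW (k := k) hM hk fam_one hg (by simpa using hB) (fun T hT => by
    have : (0:ℝ) < Real.exp 1 := Real.exp_pos 1
    have h1 : 1 < T := lt_of_lt_of_le (by have := Real.add_one_le_exp (1:ℝ); linarith) hT
    exact JJ_one_intervalIntegrable hg (Real.log_pos h1) (by linarith))
  simp only [sub_zero] at h
  exact h

/-- high frequencies with weights -/
lemma avgW_high (hw : SW w δ) (c : ℝ) (hk : 1 ≤ k) (hg : TF g A B) (hA : 2 * (k:ℝ) - 2 < A) :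
    Tendsto (fun T : ℝ => ((T * Real.log T ^ (k ^ 2) : ℝ) : ℂ)⁻¹ *
      ∫ t in (0:ℝ)..T, ((w (t / T - c / (T * Real.log T)) ^ 2 : ℝ) : ℂ) *
        JJ k g (fun _ _ => (1:ℂ)) (Real.log T) t) atTop
      (𝓝 (((∫ x in (0:ℝ)..1, w x ^ 2 : ℝ) : ℂ) *
        (2 * Real.pi * (arith k * ∫ y in Ioi (0:ℝ), g (2 * k - 2 * y) * wt (k ^ 2) y)))) := by
  obtain ⟨M, hM⟩ := hw.wf c
  have h := coreW (k := k) hM hk (fam_Psi k) hg.refl (by linarith) (fun T hT => by
    have : (0:ℝ) < Real.exp 1 := Real.exp_pos 1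
    have h1 : 1 < T := lt_of_lt_of_le (by have := Real.add_one_le_exp (1:ℝ); linarith) hT
    exact JJ_Psi_int hg (Real.log_pos h1) (by linarith))
  have hfun : ∀ y : ℝ, g (-(2 * y - 2 * k)) = g (2 * k - 2 * y) := fun y => by congr 1; ring
  simp only [hfun] at h
  refine h.congr' ?_
  filter_upwards [hw.shift_supp c, eventually_gt_atTop (8:ℝ), eventually_gt_atTop (8 / δ)] with T hT hT8 hTδ
  congr 1
  refine intervalIntegral.integral_congr fun t _ => ?_
  by_cases ht : t ≤ 8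
  · have h0 : w (t / T - c / (T * Real.log T)) = 0 := by
      by_contra hne
      have h1 := (hT _ hne).1
      rw [le_div_iff₀ (by linarith)] at h1
      rw [div_lt_iff₀ hw.δ0] at hTδ
      linarith [mul_comm δ T]
    rw [h0]; simp
  · rw [JJ_refl k g (not_le.1 ht)]

/-- Fubini with weights -/
lemma fubW (hg : TF g A B) {L T M : ℝ} (hL : 0 < L) (hT : 0 ≤ T) {W : ℝ → ℝ} (hWc : Continuous W)
    (hWb : ∀ x, |W x| ≤ M) :
    Integrable (fun β : ℝ => G g (β * I) * ∫ t in (0:ℝ)..T, ((W t : ℝ) : ℂ) *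
      Z k t (1/2 + (β / L : ℝ) * I)) ∧
    ∫ β : ℝ, G g (β * I) * ∫ t in (0:ℝ)..T, ((W t : ℝ) : ℂ) * Z k t (1/2 + (β / L : ℝ) * I) =
      ∫ t in (0:ℝ)..T, ((W t : ℝ) : ℂ) * JJ k g (fun _ _ => (1:ℂ)) L t := by
  have hP : Integrable (fun p : ℝ × ℝ => G g (p.1 * I) * Z k p.2 (1/2 + (p.1 / L : ℝ) * I) *
      ((W p.2 : ℝ) : ℂ)) ((volume : Measure ℝ).prod (volume.restrict (Ioc 0 T))) := by
    refine (prod_integrable (k := k) hg hL hT).mul_bdd (c := M) ?_ ?_
    · exact (Complex.continuous_ofReal.comp (hWc.comp continuous_snd)).aestronglyMeasurable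
    · exact Eventually.of_forall fun p => by rw [Complex.norm_real]; exact hWb _
  have hin : ∀ β : ℝ, ∫ t in Ioc 0 T, G g (β * I) * Z k t (1/2 + (β / L : ℝ) * I) * ((W t : ℝ) : ℂ) =
      G g (β * I) * ∫ t in (0:ℝ)..T, ((W t : ℝ) : ℂ) * Z k t (1/2 + (β / L : ℝ) * I) := by
    intro β
    rw [intervalIntegral.integral_of_le hT, ← integral_const_mul]
    refine integral_congr_ae (Eventually.of_forall fun t => ?_)
    simp only; ring
  refine ⟨?_, ?_⟩
  · exact hP.integral_prod_left.congr (Eventually.of_forall fun β => hin β)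
  · simp_rw [← hin]
    rw [integral_integral_swap (f := fun β t : ℝ => G g (β * I) * Z k t (1/2 + (β / L : ℝ) * I) *
      ((W t : ℝ) : ℂ)) hP, intervalIntegral.integral_of_le hT]
    refine integral_congr_ae (Eventually.of_forall fun t => ?_)
    simp only
    rw [integral_mul_const, mul_comm]
    simp only [JJ, mul_one]

end
end MP069854

namespace MP069854
open Filter Topology Complex Set MeasureTheory
open scoped ComplexConjugate ContDiff

section
variable {m k : ℕ} {g : ℝ → ℂ} {A B : ℝ} {w : ℝ → ℝ} {δ : ℝ}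

/-- linear combination of shifted values of `ζ^k` -/
noncomputable def GG (k : ℕ) (α : Fin m → ℝ) (c : Fin m → ℂ) (L t : ℝ) : ℂ :=
  ∑ j, c j * fz k (t + α j / L)

lemma GG_cont (k : ℕ) (α : Fin m → ℝ) (c : Fin m → ℂ) (L : ℝ) : Continuous (GG k α c L) := by
  unfold GG
  exact continuous_finsetSum _ fun j _ => continuous_const.mul ((fz_cont k).comp (by fun_prop))

lemma GG_growth (k : ℕ) (α : Fin m → ℝ) (c : Fin m → ℂ) : ∃ C : ℝ, 0 ≤ C ∧ ∀ L t : ℝ, 1 ≤ L →
    ‖GG k α c L t‖ ≤ C * (1 + |t|) ^ k := by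
  obtain ⟨C, hC1, hC⟩ := fz_growth k
  refine ⟨∑ j, ‖c j‖ * (C * (1 + |α j|) ^ k), Finset.sum_nonneg fun j _ => by positivity, ?_⟩
  intro L t hL
  unfold GG
  refine (norm_sum_le _ _).trans ?_
  rw [Finset.sum_mul]
  refine Finset.sum_le_sum fun j _ => ?_
  rw [norm_mul]
  have h1 := hC (t + α j / L)
  have h2 : |α j / L| ≤ |α j| := by
    rw [abs_div, abs_of_pos (by linarith : (0:ℝ) < L)]
    exact div_le_self (abs_nonneg _) hL
  have h3 : 1 + |t + α j / L| ≤ (1 + |α j|) * (1 + |t|) := by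
    have := abs_add_le t (α j / L)
    nlinarith [abs_nonneg t, abs_nonneg (α j), mul_nonneg (abs_nonneg (α j)) (abs_nonneg t)]
  calc ‖c j‖ * ‖fz k (t + α j / L)‖ ≤ ‖c j‖ * (C * (1 + |t + α j / L|) ^ k) := by gcongr
    _ ≤ ‖c j‖ * (C * ((1 + |α j|) * (1 + |t|)) ^ k) := by gcongr
    _ = _ := by rw [mul_pow]; ring

/-- the weighted function -/
noncomputable def Fw (k : ℕ) (α : Fin m → ℝ) (c : Fin m → ℂ) (w : ℝ → ℝ) (T t : ℝ) : ℂ :=
  ((w (t / T) : ℝ) : ℂ) * GG k α c (Real.log T) t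

/-- the weighted correlation -/
noncomputable def MM (k : ℕ) (α : Fin m → ℝ) (c : Fin m → ℂ) (w : ℝ → ℝ) (T β : ℝ) : ℂ :=
  ∫ t : ℝ, ((w (t / T) ^ 2 : ℝ) : ℂ) * (GG k α c (Real.log T) (t + β / Real.log T) *
    conj (GG k α c (Real.log T) (t - β / Real.log T)))

lemma SW.lip (h : SW w δ) : ∃ D : ℝ, 0 ≤ D ∧ ∀ x y, |w x - w y| ≤ D * |x - y| := by
  obtain ⟨D, hD0, hD⟩ := h.der_bound
  refine ⟨D, hD0, ?_⟩
  intro x y
  have h1 := Convex.norm_image_sub_le_of_norm_deriv_le (f := w) (s := univ) (x := y) (y := x) (C := D)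
    (fun x _ => (h.smooth.differentiable (by simp)) x) (fun x _ => hD x) convex_univ trivial trivial
  simpa using h1

lemma SW.range (h : SW w δ) {T t : ℝ} (hT : 0 < T) (hw : w (t / T) ≠ 0) :
    2 * δ * T ≤ t ∧ t ≤ (1 - 2 * δ) * T := by
  obtain ⟨a1, a2⟩ := h.supp _ hw
  rw [le_div_iff₀ hT] at a1
  rw [div_le_iff₀ hT] at a2
  exact ⟨a1, a2⟩

lemma SW.cts (h : SW w δ) (T : ℝ) : HasCompactSupport fun t : ℝ => w (t / T) := by
  rcases eq_or_ne T 0 with h0 | h0
  · subst h0
    have : (fun t : ℝ => w (t / 0)) = fun _ => (0:ℝ) := by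
      funext t
      rw [div_zero]
      by_contra hne
      have := (h.supp 0 hne).1
      linarith [h.δ0]
    rw [this]
    exact HasCompactSupport.zero
  · have := h.hcs.comp_homeomorph (Homeomorph.mulRight₀ T⁻¹ (inv_ne_zero h0))
    exact this

lemma Fw_cont (h : SW w δ) (α : Fin m → ℝ) (c : Fin m → ℂ) (T : ℝ) : Continuous (Fw k α c w T) := by
  unfold Fw
  exact (Complex.continuous_ofReal.comp (h.smooth.continuous.comp (by fun_prop))).mul (GG_cont k α c _)

lemma Fw_hcs (h : SW w δ) (α : Fin m → ℝ) (c : Fin m → ℂ) (T : ℝ) :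
    HasCompactSupport (Fw k α c w T) := by
  unfold Fw
  refine HasCompactSupport.mul_right ?_
  exact (h.cts T).comp_left (g := fun x : ℝ => (x : ℂ)) (by simp)

lemma Fw_integrable (h : SW w δ) (α : Fin m → ℝ) (c : Fin m → ℂ) (T : ℝ) :
    Integrable (Fw k α c w T) :=
  (Fw_cont h α c T).integrable_of_hasCompactSupport (Fw_hcs h α c T)

set_option maxHeartbeats 2000000 in
/-- comparison of the autocorrelation and the weighted correlation -/
lemma RM_bound (h : SW w δ) (α : Fin m → ℝ) (c : Fin m → ℂ) : ∃ D K : ℝ, 0 ≤ D ∧ 0 ≤ K ∧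
    ∀ T β : ℝ, Real.exp 1 ≤ T →
    ‖AC (Fw k α c w T) (2 * β / Real.log T) - MM k α c w T β‖ ≤
      D * |β| / T * (∫ t in (0:ℝ)..T, ‖GG k α c (Real.log T) t‖ ^ 2) + K * (1 + |β|) ^ (2 * k + 1) := by
  obtain ⟨D, hD0, hD⟩ := h.lip
  obtain ⟨C, hC0, hC⟩ := GG_growth k α c
  have hδ := h.δ0
  refine ⟨2 * D, 2 * C ^ 2 / δ * (1 + 1 / δ) ^ (2 * k), by positivity, by positivity, ?_⟩
  intro T β hT
  set L := Real.log T with hL
  have hexp1 : (2:ℝ) ≤ Real.exp 1 := by have := Real.add_one_le_exp (1:ℝ); linarith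
  have hT0 : 0 < T := by linarith
  have hL1 : 1 ≤ L := by
    rw [hL, Real.le_log_iff_exp_le hT0]; exact hT
  have hL0 : 0 < L := by linarith
  set b := β / L with hb
  have hbβ : |b| ≤ |β| := by
    rw [hb, abs_div, abs_of_pos hL0]
    exact div_le_self (abs_nonneg _) hL1
  set Gf : ℝ → ℂ := GG k α c L with hGf
  have hGc : Continuous Gf := GG_cont k α c L
  have hGb : ∀ t, ‖Gf t‖ ≤ C * (1 + |t|) ^ k := fun t => hC L t hL1
  have hS0 : 0 ≤ ∫ t in (0:ℝ)..T, ‖Gf t‖ ^ 2 :=
    intervalIntegral.integral_nonneg hT0.le fun t _ => by positivity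
  rw [show 2 * β / L = 2 * b by rw [hb]; ring, AC_shift]
  have hFdef : ∀ t, Fw k α c w T t = ((w (t / T) : ℝ) : ℂ) * Gf t := fun t => rfl
  have hMM : MM k α c w T β = ∫ t : ℝ, ((w (t / T) ^ 2 : ℝ) : ℂ) * (Gf (t + b) * conj (Gf (t - b))) := rfl
  have hMc : Continuous fun t : ℝ => ((w (t / T) ^ 2 : ℝ) : ℂ) * (Gf (t + b) * conj (Gf (t - b))) := by
    refine Continuous.mul (Complex.continuous_ofReal.comp
      ((h.smooth.continuous.comp (by fun_prop)).pow 2)) ?_
    exact (hGc.comp (by fun_prop)).mul (Complex.continuous_conj.comp (hGc.comp (by fun_prop)))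
  have hMi : Integrable fun t : ℝ => ((w (t / T) ^ 2 : ℝ) : ℂ) * (Gf (t + b) * conj (Gf (t - b))) := by
    refine hMc.integrable_of_hasCompactSupport (HasCompactSupport.mul_right ?_)
    exact (h.cts T).comp_left (g := fun x : ℝ => ((x ^ 2 : ℝ) : ℂ)) (by simp)
  have hFi : Integrable fun s : ℝ => Fw k α c w T (s + b) * conj (Fw k α c w T (s - b)) := by
    have hc1 : Continuous fun s : ℝ => Fw k α c w T (s + b) * conj (Fw k α c w T (s - b)) :=
      ((Fw_cont h α c T).comp (by fun_prop)).mul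
        (Complex.continuous_conj.comp ((Fw_cont h α c T).comp (by fun_prop)))
    refine hc1.integrable_of_hasCompactSupport (HasCompactSupport.mul_right ?_)
    exact (Fw_hcs h α c T).comp_homeomorph (Homeomorph.addRight b)
  have hK0 : 0 ≤ 2 * C ^ 2 / δ * (1 + 1 / δ) ^ (2 * k) * (1 + |β|) ^ (2 * k + 1) := by positivity
  have hD1 : 0 ≤ 2 * D * |β| / T * ∫ t in (0:ℝ)..T, ‖Gf t‖ ^ 2 := by positivity
  by_cases hcase : |b| ≤ δ * T
  · -- near case
    set hh : ℝ → ℝ := (Ioc 0 T).indicator fun t => ‖Gf t‖ ^ 2 with hhh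
    have hhi : Integrable hh := by
      rw [hhh, integrable_indicator_iff measurableSet_Ioc]
      exact ((hGc.norm.pow 2).integrableOn_Icc (a := 0) (b := T)).mono_set Ioc_subset_Icc_self
    have hhint : ∫ t, hh t = ∫ t in (0:ℝ)..T, ‖Gf t‖ ^ 2 := by
      rw [hhh, integral_indicator measurableSet_Ioc, intervalIntegral.integral_of_le hT0.le]
    have hh0 : ∀ t, 0 ≤ hh t := fun t => indicator_nonneg (fun t _ => by positivity) t
    rw [hMM, ← integral_sub hFi hMi]
    refine le_trans ?_ (le_add_of_nonneg_right hK0)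
    have hbd : ∀ s : ℝ, ‖Fw k α c w T (s + b) * conj (Fw k α c w T (s - b)) -
        ((w (s / T) ^ 2 : ℝ) : ℂ) * (Gf (s + b) * conj (Gf (s - b)))‖ ≤
        D * |b| / T * (hh (s + b) + hh (s - b)) := by
      intro s
      rw [hFdef, hFdef, map_mul, Complex.conj_ofReal]
      have e1 : ((w ((s + b) / T) : ℝ) : ℂ) * Gf (s + b) * (((w ((s - b) / T) : ℝ) : ℂ) * conj (Gf (s - b))) -
          ((w (s / T) ^ 2 : ℝ) : ℂ) * (Gf (s + b) * conj (Gf (s - b))) =
          ((w ((s + b) / T) * w ((s - b) / T) - w (s / T) ^ 2 : ℝ) : ℂ) *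
            (Gf (s + b) * conj (Gf (s - b))) := by push_cast; ring
      rw [e1, norm_mul, Complex.norm_real, Real.norm_eq_abs, norm_mul, RCLike.norm_conj]
      by_cases hz : w ((s + b) / T) * w ((s - b) / T) - w (s / T) ^ 2 = 0
      · rw [hz, abs_zero, zero_mul]
        have := hh0 (s + b)
        have := hh0 (s - b)
        positivity
      · have hmem : s + b ∈ Ioc 0 T ∧ s - b ∈ Ioc 0 T := by
          have hbb := abs_le.1 hcase
          by_cases hw0 : w (s / T) = 0
          · rw [hw0] at hz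
            have hz' : w ((s + b) / T) * w ((s - b) / T) ≠ 0 := by
              intro h0; apply hz; rw [h0]; ring
            have p1 := h.range hT0 (left_ne_zero_of_mul hz')
            have p2 := h.range hT0 (right_ne_zero_of_mul hz')
            have hδT : 0 < δ * T := by positivity
            refine ⟨⟨by nlinarith [p1.1], by nlinarith [p1.2]⟩, ⟨by nlinarith [p2.1], by nlinarith [p2.2]⟩⟩
          · have p1 := h.range hT0 hw0
            have hδT : 0 < δ * T := by positivity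
            refine ⟨⟨by nlinarith [p1.1], by nlinarith [p1.2]⟩, ⟨by nlinarith [p1.1], by nlinarith [p1.2]⟩⟩
        have e2 : hh (s + b) = ‖Gf (s + b)‖ ^ 2 := indicator_of_mem hmem.1 _
        have e3 : hh (s - b) = ‖Gf (s - b)‖ ^ 2 := indicator_of_mem hmem.2 _
        rw [e2, e3]
        have q1 : |w ((s + b) / T) - w (s / T)| ≤ D * (|b| / T) := by
          refine (hD _ _).trans (le_of_eq ?_)
          rw [← sub_div, add_sub_cancel_left, abs_div, abs_of_pos hT0]
        have q2 : |w ((s - b) / T) - w (s / T)| ≤ D * (|b| / T) := by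
          refine (hD _ _).trans (le_of_eq ?_)
          rw [← sub_div, show s - b - s = -b by ring, abs_div, abs_neg, abs_of_pos hT0]
        have q3 : |w ((s + b) / T) * w ((s - b) / T) - w (s / T) ^ 2| ≤ 2 * (D * (|b| / T)) := by
          have e4 : w ((s + b) / T) * w ((s - b) / T) - w (s / T) ^ 2 =
              (w ((s + b) / T) - w (s / T)) * w ((s - b) / T) +
              w (s / T) * (w ((s - b) / T) - w (s / T)) := by ring
          rw [e4]
          refine (abs_add_le _ _).trans ?_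
          rw [abs_mul, abs_mul]
          have r1 := h.abs_le ((s - b) / T)
          have r2 := h.abs_le (s / T)
          have r3 : 0 ≤ D * (|b| / T) := by positivity
          calc |w ((s + b) / T) - w (s / T)| * |w ((s - b) / T)| +
              |w (s / T)| * |w ((s - b) / T) - w (s / T)| ≤ D * (|b| / T) * 1 + 1 * (D * (|b| / T)) := by
                gcongr
            _ = _ := by ring
        have q4 : ‖Gf (s + b)‖ * ‖Gf (s - b)‖ ≤ (‖Gf (s + b)‖ ^ 2 + ‖Gf (s - b)‖ ^ 2) / 2 := by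
          nlinarith [sq_nonneg (‖Gf (s + b)‖ - ‖Gf (s - b)‖)]
        calc _ ≤ 2 * (D * (|b| / T)) * ((‖Gf (s + b)‖ ^ 2 + ‖Gf (s - b)‖ ^ 2) / 2) := by gcongr
          _ = _ := by ring
    have hbi : Integrable fun s : ℝ => D * |b| / T * (hh (s + b) + hh (s - b)) :=
      ((hhi.comp_add_right b).add (hhi.comp_sub_right b)).const_mul _
    refine (norm_integral_le_of_norm_le hbi (Eventually.of_forall hbd)).trans ?_
    rw [integral_const_mul, integral_add (hhi.comp_add_right b) (hhi.comp_sub_right b),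
      integral_add_right_eq_self hh b, integral_sub_right_eq_self hh b, hhint]
    calc D * |b| / T * ((∫ t in (0:ℝ)..T, ‖Gf t‖ ^ 2) + ∫ t in (0:ℝ)..T, ‖Gf t‖ ^ 2)
        = 2 * D * |b| / T * (∫ t in (0:ℝ)..T, ‖Gf t‖ ^ 2) := by ring
      _ ≤ 2 * D * |β| / T * (∫ t in (0:ℝ)..T, ‖Gf t‖ ^ 2) := by gcongr
  · -- far case
    rw [not_le] at hcase
    refine le_trans ?_ (le_add_of_nonneg_left hD1)
    set X : ℝ := C * (1 + T + |b|) ^ k with hX
    have hX0 : 0 ≤ X := by positivity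
    have hXi : Integrable fun s : ℝ => (Ioc 0 T).indicator (fun _ => X ^ 2) s := by
      rw [integrable_indicator_iff measurableSet_Ioc]
      exact integrableOn_const (by simp)
    have hXint : ∫ s : ℝ, (Ioc 0 T).indicator (fun _ => X ^ 2) s = T * X ^ 2 := by
      rw [integral_indicator measurableSet_Ioc, setIntegral_const]
      simp [hT0.le]
    have hFb : ∀ t, ‖Fw k α c w T t‖ ≤ X := by
      intro t
      rw [hFdef, norm_mul, Complex.norm_real, Real.norm_eq_abs]
      by_cases hw0 : w (t / T) = 0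
      · rw [hw0, abs_zero, zero_mul]; exact hX0
      · obtain ⟨p1, p2⟩ := h.range hT0 hw0
        have hδT : 0 < δ * T := by positivity
        have ht0 : 0 ≤ t := by nlinarith
        have htT : t ≤ T := by nlinarith
        have r1 := h.abs_le (t / T)
        have r2 := hGb t
        calc |w (t / T)| * ‖Gf t‖ ≤ 1 * (C * (1 + |t|) ^ k) := by gcongr
          _ ≤ X := by
            rw [one_mul, hX, abs_of_nonneg ht0]
            exact mul_le_mul_of_nonneg_left (pow_le_pow_left₀ (by linarith)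
              (by linarith [abs_nonneg b]) k) hC0
    have hF0 : ∀ t, t ∉ Ioc 0 T → Fw k α c w T t = 0 := by
      intro t ht
      rw [hFdef]
      have : w (t / T) = 0 := by
        by_contra hw0
        obtain ⟨p1, p2⟩ := h.range hT0 hw0
        apply ht
        have hδT : 0 < δ * T := by positivity
        exact ⟨by nlinarith, by nlinarith⟩
      rw [this]; simp
    have b1 : ‖∫ s : ℝ, Fw k α c w T (s + b) * conj (Fw k α c w T (s - b))‖ ≤ T * X ^ 2 := by
      have e1 : ∫ s : ℝ, Fw k α c w T (s + b) * conj (Fw k α c w T (s - b)) =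
          ∫ t : ℝ, Fw k α c w T (t + 2 * b) * conj (Fw k α c w T t) := by
        rw [← AC_shift]; rfl
      rw [e1, ← hXint]
      refine norm_integral_le_of_norm_le hXi (Eventually.of_forall fun t => ?_)
      rw [norm_mul, RCLike.norm_conj]
      by_cases ht : t ∈ Ioc 0 T
      · rw [indicator_of_mem ht, sq]
        exact mul_le_mul (hFb _) (hFb _) (norm_nonneg _) hX0
      · rw [indicator_of_notMem ht, hF0 t ht, norm_zero, mul_zero]
    have b2 : ‖MM k α c w T β‖ ≤ T * X ^ 2 := by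
      rw [hMM, ← hXint]
      refine norm_integral_le_of_norm_le hXi (Eventually.of_forall fun t => ?_)
      rw [norm_mul, norm_mul, RCLike.norm_conj, Complex.norm_real, Real.norm_eq_abs]
      by_cases hw0 : w (t / T) = 0
      · rw [hw0]
        simp only [ne_eq, OfNat.ofNat_ne_zero, not_false_eq_true, zero_pow, abs_zero, zero_mul]
        exact indicator_nonneg (fun _ _ => by positivity) _
      · obtain ⟨p1, p2⟩ := h.range hT0 hw0
        have hδT : 0 < δ * T := by positivity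
        have ht0 : 0 < t := by nlinarith
        have htT : t ≤ T := by nlinarith
        rw [indicator_of_mem (show t ∈ Ioc 0 T from ⟨ht0, htT⟩)]
        have r1 : |w (t / T) ^ 2| ≤ 1 := by
          rw [abs_pow]; exact pow_le_one₀ (abs_nonneg _) (h.abs_le _)
        have r2 : ‖Gf (t + b)‖ ≤ X := by
          refine (hGb _).trans ?_
          rw [hX]
          have := abs_add_le t b
          rw [abs_of_pos ht0] at this
          exact mul_le_mul_of_nonneg_left (pow_le_pow_left₀ (by positivity) (by linarith) k) hC0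
        have r3 : ‖Gf (t - b)‖ ≤ X := by
          refine (hGb _).trans ?_
          rw [hX]
          have := abs_sub t b
          rw [abs_of_pos ht0] at this
          exact mul_le_mul_of_nonneg_left (pow_le_pow_left₀ (by positivity) (by linarith) k) hC0
        calc |w (t / T) ^ 2| * (‖Gf (t + b)‖ * ‖Gf (t - b)‖) ≤ 1 * (X * X) := by gcongr
          _ = X ^ 2 := by ring
    refine (norm_sub_le _ _).trans ((add_le_add b1 b2).trans ?_)
    have hTb : T ≤ |b| / δ := by
      rw [le_div_iff₀ hδ]; linarith [mul_comm δ T]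
    have hXb : X ^ 2 ≤ C ^ 2 * ((1 + 1 / δ) ^ (2 * k) * (1 + |b|) ^ (2 * k)) := by
      rw [hX, mul_pow, ← pow_mul, mul_comm k 2, ← mul_pow]
      have : 1 + T + |b| ≤ (1 + 1 / δ) * (1 + |b|) := by
        have e1 : |b| / δ = 1 / δ * |b| := by ring
        rw [e1] at hTb
        have e2 : 0 < 1 / δ := by positivity
        nlinarith [abs_nonneg b]
      gcongr
    calc T * X ^ 2 + T * X ^ 2 = 2 * (T * X ^ 2) := by ring
      _ ≤ 2 * (|b| / δ * (C ^ 2 * ((1 + 1 / δ) ^ (2 * k) * (1 + |b|) ^ (2 * k)))) := by gcongr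
      _ = 2 * C ^ 2 / δ * (1 + 1 / δ) ^ (2 * k) * (|b| * (1 + |b|) ^ (2 * k)) := by ring
      _ ≤ 2 * C ^ 2 / δ * (1 + 1 / δ) ^ (2 * k) * ((1 + |β|) * (1 + |β|) ^ (2 * k)) := by
        gcongr
        linarith [abs_nonneg β]
      _ = _ := by ring

end
end MP069854

namespace MP069854
open Filter Topology Complex Set MeasureTheory
open scoped ComplexConjugate ContDiff

section
variable {m k : ℕ} {g : ℝ → ℂ} {A B : ℝ} {w : ℝ → ℝ} {δ : ℝ}

lemma MM_expand (h : SW w δ) (k : ℕ) (α : Fin m → ℝ) (c : Fin m → ℂ) :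
    ∀ᶠ T : ℝ in atTop, ∀ β : ℝ, MM k α c w T β = ∑ i, ∑ j, c i * conj (c j) *
      ∫ t in (0:ℝ)..T, ((w (t / T - (α i + α j) / 2 / (T * Real.log T)) ^ 2 : ℝ) : ℂ) *
        Z k t (1/2 + ((β + (α i - α j) / 2) / Real.log T : ℝ) * I) := by
  have hsupp : ∀ᶠ T : ℝ in atTop, ∀ i j : Fin m, ∀ x : ℝ,
      w (x - (α i + α j) / 2 / (T * Real.log T)) ≠ 0 → δ ≤ x ∧ x ≤ 1 - δ := by
    rw [eventually_all]; intro i
    rw [eventually_all]; intro j
    exact h.shift_supp _
  filter_upwards [hsupp, eventually_gt_atTop (1:ℝ)] with T hT hT1 β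
  have hT0 : 0 < T := by linarith
  have hL0 : 0 < Real.log T := Real.log_pos hT1
  set L := Real.log T with hL
  have hδ := h.δ0
  have hint : ∀ i j : Fin m, Integrable fun t : ℝ => ((w (t / T) ^ 2 : ℝ) : ℂ) *
      (fz k (t + β / L + α i / L) * conj (fz k (t - β / L + α j / L))) := by
    intro i j
    have hc : Continuous fun t : ℝ => ((w (t / T) ^ 2 : ℝ) : ℂ) *
        (fz k (t + β / L + α i / L) * conj (fz k (t - β / L + α j / L))) := by
      refine Continuous.mul (Complex.continuous_ofReal.comp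
        ((h.smooth.continuous.comp (by fun_prop)).pow 2)) ?_
      exact ((fz_cont k).comp (by fun_prop)).mul
        (Complex.continuous_conj.comp ((fz_cont k).comp (by fun_prop)))
    refine hc.integrable_of_hasCompactSupport (HasCompactSupport.mul_right ?_)
    exact (h.cts T).comp_left (g := fun x : ℝ => ((x ^ 2 : ℝ) : ℂ)) (by simp)
  have e1 : MM k α c w T β = ∑ i, ∑ j, c i * conj (c j) * ∫ t : ℝ, ((w (t / T) ^ 2 : ℝ) : ℂ) *
      (fz k (t + β / L + α i / L) * conj (fz k (t - β / L + α j / L))) := by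
    have e3 : ∀ t : ℝ, ((w (t / T) ^ 2 : ℝ) : ℂ) * (GG k α c L (t + β / L) *
        conj (GG k α c L (t - β / L))) = ∑ i, ∑ j, c i * conj (c j) * (((w (t / T) ^ 2 : ℝ) : ℂ) *
        (fz k (t + β / L + α i / L) * conj (fz k (t - β / L + α j / L)))) := by
      intro t
      unfold GG
      rw [map_sum, Finset.sum_mul_sum, Finset.mul_sum]
      refine Finset.sum_congr rfl fun i _ => ?_
      rw [Finset.mul_sum]
      refine Finset.sum_congr rfl fun j _ => ?_
      rw [map_mul]; ring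
    unfold MM
    simp_rw [← hL, e3]
    rw [integral_finsetSum _ fun i _ => integrable_finsetSum _ fun j _ => (hint i j).const_mul _]
    refine Finset.sum_congr rfl fun i _ => ?_
    rw [integral_finsetSum _ fun j _ => (hint i j).const_mul _]
    refine Finset.sum_congr rfl fun j _ => ?_
    rw [integral_const_mul]
  rw [e1]
  refine Finset.sum_congr rfl fun i _ => Finset.sum_congr rfl fun j _ => ?_
  congr 1
  rw [← integral_sub_right_eq_self (fun t : ℝ => ((w (t / T) ^ 2 : ℝ) : ℂ) *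
      (fz k (t + β / L + α i / L) * conj (fz k (t - β / L + α j / L)))) ((α i + α j) / 2 / L)]
  have e2 : ∀ t : ℝ, ((w ((t - (α i + α j) / 2 / L) / T) ^ 2 : ℝ) : ℂ) *
      (fz k (t - (α i + α j) / 2 / L + β / L + α i / L) *
        conj (fz k (t - (α i + α j) / 2 / L - β / L + α j / L))) =
      ((w (t / T - (α i + α j) / 2 / (T * L)) ^ 2 : ℝ) : ℂ) *
        Z k t (1/2 + ((β + (α i - α j) / 2) / L : ℝ) * I) := by
    intro t
    rw [Z_eq]
    congr 1
    · congr 3
      field_simp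
    · congr 2
      · ring
      · congr 1; ring
  simp_rw [e2]
  rw [intervalIntegral.integral_of_le hT0.le, setIntegral_eq_integral_of_forall_compl_eq_zero]
  intro t ht
  have : w (t / T - (α i + α j) / 2 / (T * L)) = 0 := by
    by_contra hne
    obtain ⟨p1, p2⟩ := hT i j _ hne
    apply ht
    rw [le_div_iff₀ hT0] at p1
    rw [div_le_iff₀ hT0] at p2
    have : 0 < δ * T := by positivity
    exact ⟨by linarith, by nlinarith⟩
  rw [this]; simp

/-- limit of the main term -/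
lemma main_lim (h : SW w δ) (k : ℕ) (α : Fin m → ℝ) (c : Fin m → ℂ) (hg : TF g A B) {I0 : ℂ} {Φ : ℝ → ℂ}
    (hΦ : ∀ d cc : ℝ, Tendsto (fun T : ℝ => ((T * Real.log T ^ (k ^ 2) : ℝ) : ℂ)⁻¹ *
      ∫ t in (0:ℝ)..T, ((w (t / T - cc / (T * Real.log T)) ^ 2 : ℝ) : ℂ) *
        JJ k (md g d) (fun _ _ => (1:ℂ)) (Real.log T) t) atTop
      (𝓝 (I0 * (2 * Real.pi * (arith k * Φ d))))) :
    (∀ᶠ T : ℝ in atTop, Integrable fun β : ℝ => G g (β * I) * MM k α c w T β) ∧
    Tendsto (fun T : ℝ => ((T * Real.log T ^ (k ^ 2) : ℝ) : ℂ)⁻¹ *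
      ∫ β : ℝ, G g (β * I) * MM k α c w T β) atTop
      (𝓝 (I0 * (2 * Real.pi * (arith k *
        ∑ i, ∑ j, c i * conj (c j) * Φ ((α i - α j) / 2))))) := by
  -- one term
  have key : ∀ T : ℝ, 1 < T → ∀ i j : Fin m,
      Integrable (fun β : ℝ => G g (β * I) * ∫ t in (0:ℝ)..T,
        ((w (t / T - (α i + α j) / 2 / (T * Real.log T)) ^ 2 : ℝ) : ℂ) *
        Z k t (1/2 + ((β + (α i - α j) / 2) / Real.log T : ℝ) * I)) ∧
      ∫ β : ℝ, G g (β * I) * ∫ t in (0:ℝ)..T,
        ((w (t / T - (α i + α j) / 2 / (T * Real.log T)) ^ 2 : ℝ) : ℂ) *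
        Z k t (1/2 + ((β + (α i - α j) / 2) / Real.log T : ℝ) * I) =
      ∫ t in (0:ℝ)..T, ((w (t / T - (α i + α j) / 2 / (T * Real.log T)) ^ 2 : ℝ) : ℂ) *
        JJ k (md g ((α i - α j) / 2)) (fun _ _ => (1:ℂ)) (Real.log T) t := by
    intro T hT i j
    set d := (α i - α j) / 2 with hd
    have hf := fubW (k := k) (hg.md d) (Real.log_pos hT) (by linarith : (0:ℝ) ≤ T) (M := 1)
      (W := fun t => w (t / T - (α i + α j) / 2 / (T * Real.log T)) ^ 2)
      ((h.smooth.continuous.comp (by fun_prop)).pow 2)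
      (fun x => by rw [abs_pow]; exact pow_le_one₀ (abs_nonneg _) (h.abs_le _))
    have hs : ∀ β : ℝ, G g (β * I) * (∫ t in (0:ℝ)..T,
        ((w (t / T - (α i + α j) / 2 / (T * Real.log T)) ^ 2 : ℝ) : ℂ) *
        Z k t (1/2 + ((β + d) / Real.log T : ℝ) * I)) =
        (fun β : ℝ => G (md g d) (β * I) * ∫ t in (0:ℝ)..T,
        ((w (t / T - (α i + α j) / 2 / (T * Real.log T)) ^ 2 : ℝ) : ℂ) *
        Z k t (1/2 + (β / Real.log T : ℝ) * I)) (β + d) := by
      intro β
      simp only [G_md, add_sub_cancel_right]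
    constructor
    · simp_rw [hs]
      exact hf.1.comp_add_right d
    · simp_rw [hs]
      rw [integral_add_right_eq_self (fun β : ℝ => G (md g d) (β * I) * ∫ t in (0:ℝ)..T,
        ((w (t / T - (α i + α j) / 2 / (T * Real.log T)) ^ 2 : ℝ) : ℂ) *
        Z k t (1/2 + (β / Real.log T : ℝ) * I)) d]
      exact hf.2
  have hdist : ∀ T β : ℝ, G g (β * I) * (∑ i, ∑ j, c i * conj (c j) *
      ∫ t in (0:ℝ)..T, ((w (t / T - (α i + α j) / 2 / (T * Real.log T)) ^ 2 : ℝ) : ℂ) *
        Z k t (1/2 + ((β + (α i - α j) / 2) / Real.log T : ℝ) * I)) =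
      ∑ i, ∑ j, c i * conj (c j) * (G g (β * I) *
      ∫ t in (0:ℝ)..T, ((w (t / T - (α i + α j) / 2 / (T * Real.log T)) ^ 2 : ℝ) : ℂ) *
        Z k t (1/2 + ((β + (α i - α j) / 2) / Real.log T : ℝ) * I)) := by
    intro T β
    rw [Finset.mul_sum]
    refine Finset.sum_congr rfl fun i _ => ?_
    rw [Finset.mul_sum]
    refine Finset.sum_congr rfl fun j _ => ?_
    ring
  refine ⟨?_, ?_⟩
  · filter_upwards [MM_expand h k α c, eventually_gt_atTop (1:ℝ)] with T hT hT1
    simp_rw [hT, hdist]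
    exact integrable_finsetSum _ fun i _ => integrable_finsetSum _ fun j _ =>
      ((key T hT1 i j).1).const_mul _
  · have hsum : Tendsto (fun T : ℝ => ∑ i, ∑ j, c i * conj (c j) *
        (((T * Real.log T ^ (k ^ 2) : ℝ) : ℂ)⁻¹ * ∫ t in (0:ℝ)..T,
          ((w (t / T - (α i + α j) / 2 / (T * Real.log T)) ^ 2 : ℝ) : ℂ) *
        JJ k (md g ((α i - α j) / 2)) (fun _ _ => (1:ℂ)) (Real.log T) t)) atTop
        (𝓝 (∑ i, ∑ j, c i * conj (c j) * (I0 * (2 * Real.pi * (arith k * Φ ((α i - α j) / 2)))))) :=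
      tendsto_finsetSum _ fun i _ => tendsto_finsetSum _ fun j _ => (hΦ _ _).const_mul _
    have hval : ∑ i, ∑ j, c i * conj (c j) * (I0 * (2 * Real.pi * (arith k * Φ ((α i - α j) / 2)))) =
        I0 * (2 * Real.pi * (arith k * ∑ i, ∑ j, c i * conj (c j) * Φ ((α i - α j) / 2))) := by
      simp_rw [Finset.mul_sum]
      refine Finset.sum_congr rfl fun i _ => Finset.sum_congr rfl fun j _ => ?_
      ring
    rw [hval] at hsum
    refine hsum.congr' ?_
    filter_upwards [MM_expand h k α c, eventually_gt_atTop (1:ℝ)] with T hT hT1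
    simp_rw [hT, hdist]
    rw [integral_finsetSum _ fun i _ => integrable_finsetSum _ fun j _ =>
      ((key T hT1 i j).1).const_mul _, Finset.mul_sum]
    refine Finset.sum_congr rfl fun i _ => ?_
    rw [integral_finsetSum _ fun j _ => ((key T hT1 i j).1).const_mul _, Finset.mul_sum]
    refine Finset.sum_congr rfl fun j _ => ?_
    rw [integral_const_mul, (key T hT1 i j).2]
    ring

end
end MP069854

namespace MP069854
open Filter Topology Complex Set MeasureTheory
open scoped ComplexConjugate ContDiff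

section
variable {m k : ℕ} {A B : ℝ} {w : ℝ → ℝ} {δ : ℝ}

/-- normalised mean square -/
noncomputable def SS (k : ℕ) (α : Fin m → ℝ) (c : Fin m → ℂ) (T : ℝ) : ℝ :=
  (T * Real.log T ^ (k ^ 2))⁻¹ * ∫ t in (0:ℝ)..T, ‖GG k α c (Real.log T) t‖ ^ 2

lemma Fw_sq_le (h : SW w δ) (α : Fin m → ℝ) (c : Fin m → ℂ) {T : ℝ} (hT : 0 < T) :
    ∫ t, ‖Fw k α c w T t‖ ^ 2 ≤ ∫ t in (0:ℝ)..T, ‖GG k α c (Real.log T) t‖ ^ 2 := by
  rw [intervalIntegral.integral_of_le hT.le, ← integral_indicator measurableSet_Ioc]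
  have hδ := h.δ0
  have hi : Integrable ((Ioc 0 T).indicator fun t => ‖GG k α c (Real.log T) t‖ ^ 2) := by
    rw [integrable_indicator_iff measurableSet_Ioc]
    exact ((((GG_cont k α c _).norm).pow 2).integrableOn_Icc (a := 0) (b := T)).mono_set
      Ioc_subset_Icc_self
  refine integral_mono_of_nonneg (Eventually.of_forall fun t => by positivity) hi
    (Eventually.of_forall fun t => ?_)
  simp only
  unfold Fw
  rw [norm_mul, Complex.norm_real, Real.norm_eq_abs, mul_pow]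
  by_cases hw0 : w (t / T) = 0
  · rw [hw0]
    simp only [abs_zero, ne_eq, OfNat.ofNat_ne_zero, not_false_eq_true, zero_pow, zero_mul]
    exact indicator_nonneg (fun _ _ => by positivity) _
  · obtain ⟨p1, p2⟩ := h.range hT hw0
    have hδT : 0 < δ * T := by positivity
    rw [indicator_of_mem (show t ∈ Ioc 0 T from ⟨by nlinarith, by nlinarith⟩)]
    refine mul_le_of_le_one_left (by positivity) ?_
    exact pow_le_one₀ (abs_nonneg _) (h.abs_le _)

lemma lower_main (h : SW w δ) (α : Fin m → ℝ) (c : Fin m → ℂ) {χ : ℝ → ℝ}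
    (hχ : TF (fun u => (χ u : ℂ)) A B) (hχ1 : ∀ u, χ u ≤ 1) {ℓ : ℂ}
    (hi : ∀ᶠ T : ℝ in atTop, Integrable fun β : ℝ => G (fun u => (χ u : ℂ)) (β * I) * MM k α c w T β)
    (hl : Tendsto (fun T : ℝ => ((T * Real.log T ^ (k ^ 2) : ℝ) : ℂ)⁻¹ *
      ∫ β : ℝ, G (fun u => (χ u : ℂ)) (β * I) * MM k α c w T β) atTop (𝓝 ℓ))
    {ε : ℝ} (hε : 0 < ε) :
    ∀ᶠ T : ℝ in atTop, ℓ.re / (2 * Real.pi) - ε ≤ SS k α c T := by
  obtain ⟨D, K, hD0, hK0, hRM⟩ := RM_bound (k := k) h α c
  obtain ⟨C, hC0, hC⟩ := hχ.decay (2 * k + 3)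
  set gχ : ℝ → ℂ := fun u => (χ u : ℂ) with hgχ
  have hpi := Real.pi_pos
  -- the limiting lower bound
  have hlim : Tendsto (fun T : ℝ => (((((T * Real.log T ^ (k ^ 2) : ℝ) : ℂ)⁻¹ *
      ∫ β : ℝ, G gχ (β * I) * MM k α c w T β)).re - C * Real.pi * K * T⁻¹) /
      (2 * Real.pi + C * Real.pi * D * T⁻¹)) atTop (𝓝 (ℓ.re / (2 * Real.pi))) := by
    have a1 : Tendsto (fun T : ℝ => ((((T * Real.log T ^ (k ^ 2) : ℝ) : ℂ)⁻¹ *
      ∫ β : ℝ, G gχ (β * I) * MM k α c w T β)).re) atTop (𝓝 ℓ.re) :=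
      (Complex.continuous_re.tendsto _).comp hl
    have a2 : Tendsto (fun T : ℝ => C * Real.pi * K * T⁻¹) atTop (𝓝 0) := by
      have := (tendsto_inv_atTop_zero (𝕜 := ℝ)).const_mul (C * Real.pi * K)
      rwa [mul_zero] at this
    have a3 : Tendsto (fun T : ℝ => 2 * Real.pi + C * Real.pi * D * T⁻¹) atTop (𝓝 (2 * Real.pi)) := by
      have := ((tendsto_inv_atTop_zero (𝕜 := ℝ)).const_mul (C * Real.pi * D)).const_add (2 * Real.pi)
      rwa [mul_zero, add_zero] at this
    have a4 := (a1.sub a2).div a3 (by positivity)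
    rwa [sub_zero] at a4
  have hev := hlim.eventually (lt_mem_nhds (show ℓ.re / (2 * Real.pi) - ε < ℓ.re / (2 * Real.pi) by linarith))
  filter_upwards [hev, hi, eventually_ge_atTop (Real.exp 1)] with T hT1 hT2 hT
  refine hT1.le.trans ?_
  have hexp1 : (2:ℝ) ≤ Real.exp 1 := by have := Real.add_one_le_exp (1:ℝ); linarith
  have hT0 : 0 < T := by linarith
  have hL1 : 1 ≤ Real.log T := by
    rw [Real.le_log_iff_exp_le hT0]; exact hT
  have hL0 : 0 < Real.log T := by linarith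
  have hLk : 1 ≤ Real.log T ^ (k ^ 2) := one_le_pow₀ hL1
  set S0 := ∫ t in (0:ℝ)..T, ‖GG k α c (Real.log T) t‖ ^ 2 with hS0
  have hS0' : 0 ≤ S0 := intervalIntegral.integral_nonneg hT0.le fun t _ => by positivity
  set F := Fw k α c w T with hF
  obtain ⟨M, hM⟩ := (Fw_hcs (k := k) h α c T).exists_bound_of_continuous (Fw_cont h α c T)
  have hFi := Fw_integrable (k := k) h α c T
  have hFc : ∀ᵐ t : ℝ, ContinuousAt F t := Eventually.of_forall fun t => (Fw_cont h α c T).continuousAt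
  obtain ⟨ρ, hρ0, hρi, hρ⟩ := bochner hFi hM hFc
  have hACi := (AC_test hχ hL0 hρi hρ).1
  have hpos := AC_pos hχ hχ1 hL0 hFi hM hFc
  have hpos2 : (∫ β : ℝ, G gχ (β * I) * AC F (2 * β / Real.log T)).re ≤ 2 * Real.pi * S0 :=
    hpos.trans (mul_le_mul_of_nonneg_left (Fw_sq_le h α c hT0) (by positivity))
  have hdiff : ‖(∫ β : ℝ, G gχ (β * I) * AC F (2 * β / Real.log T)) -
      ∫ β : ℝ, G gχ (β * I) * MM k α c w T β‖ ≤ C * Real.pi * (D * S0 / T + K) := by
    rw [← integral_sub hACi hT2]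
    have hfin : C * Real.pi * (D * S0 / T + K) =
        ∫ y : ℝ, C * (D * S0 / T + K) * (1 + y ^ 2)⁻¹ := by
      rw [integral_const_mul, integral_univ_inv_one_add_sq]; ring
    rw [hfin]
    refine norm_integral_le_of_norm_le (integrable_inv_one_add_sq.const_mul _)
      (Eventually.of_forall fun β => ?_)
    rw [← mul_sub, norm_mul, ← div_eq_mul_inv, le_div_iff₀ (by positivity)]
    have e1 := hC 0 β le_rfl
    rw [mul_zero, Real.exp_zero, mul_one] at e1
    rw [show ((0:ℝ):ℂ) + (β:ℂ) * I = β * I by simp] at e1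
    have e2 := hRM T β hT
    have hb0 := abs_nonneg β
    have e3 : D * |β| / T * S0 + K * (1 + |β|) ^ (2 * k + 1) ≤
        (D * S0 / T + K) * (1 + |β|) ^ (2 * k + 1) := by
      have e4 : |β| ≤ (1 + |β|) ^ (2 * k + 1) := by
        have : (1 + |β|) ^ 1 ≤ (1 + |β|) ^ (2 * k + 1) := pow_le_pow_right₀ (by linarith) (by omega)
        rw [pow_one] at this
        linarith
      have e5 : D * |β| / T * S0 = D * S0 / T * |β| := by ring
      rw [e5, add_mul]
      have e6 : 0 ≤ D * S0 / T := by positivity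
      have := mul_le_mul_of_nonneg_left e4 e6
      linarith
    have e7 : 1 + β ^ 2 ≤ (1 + |β|) ^ 2 := by nlinarith [sq_abs β]
    calc ‖G gχ (β * I)‖ * ‖AC F (2 * β / Real.log T) - MM k α c w T β‖ * (1 + β ^ 2)
        ≤ ‖G gχ (β * I)‖ * ((D * S0 / T + K) * (1 + |β|) ^ (2 * k + 1)) * (1 + |β|) ^ 2 := by
          gcongr
          exact e2.trans e3
      _ = (‖G gχ (β * I)‖ * (1 + |β|) ^ (2 * k + 3)) * (D * S0 / T + K) := by ring
      _ ≤ C * (D * S0 / T + K) := by gcongr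
  have hre : (∫ β : ℝ, G gχ (β * I) * MM k α c w T β).re ≤
      2 * Real.pi * S0 + C * Real.pi * (D * S0 / T + K) := by
    have h1 := abs_re_le_norm ((∫ β : ℝ, G gχ (β * I) * AC F (2 * β / Real.log T)) -
      ∫ β : ℝ, G gχ (β * I) * MM k α c w T β)
    rw [sub_re] at h1
    have h2 := (abs_le.1 (h1.trans hdiff)).1
    linarith
  rw [div_le_iff₀ (by positivity)]
  have hinv : ((T * Real.log T ^ (k ^ 2) : ℝ) : ℂ)⁻¹ = (((T * Real.log T ^ (k ^ 2))⁻¹ : ℝ) : ℂ) := by
    push_cast; rfl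
  rw [hinv, re_ofReal_mul]
  have hX : 0 < T * Real.log T ^ (k ^ 2) := by positivity
  have hXi : (T * Real.log T ^ (k ^ 2))⁻¹ ≤ T⁻¹ := by
    apply inv_anti₀ hT0
    exact le_mul_of_one_le_right hT0.le hLk
  have hXp : 0 < (T * Real.log T ^ (k ^ 2))⁻¹ := by positivity
  have h3 := mul_le_mul_of_nonneg_left hre hXp.le
  unfold SS
  rw [← hS0]
  have h4 : (T * Real.log T ^ (k ^ 2))⁻¹ * (C * Real.pi * K) ≤ T⁻¹ * (C * Real.pi * K) := by gcongr
  have h5 : (T * Real.log T ^ (k ^ 2))⁻¹ * (2 * Real.pi * S0 + C * Real.pi * (D * S0 / T + K)) =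
      (T * Real.log T ^ (k ^ 2))⁻¹ * S0 * (2 * Real.pi + C * Real.pi * D * T⁻¹) +
      (T * Real.log T ^ (k ^ 2))⁻¹ * (C * Real.pi * K) := by
    rw [div_eq_mul_inv]; ring
  rw [h5] at h3
  linarith

end
end MP069854

namespace MP069854
open Filter Topology Complex Set MeasureTheory
open scoped ComplexConjugate ContDiff

section
variable {m k : ℕ} {g : ℝ → ℂ} {A B : ℝ}

/-- `∑ c_j e^{-iα_j y}` -/
noncomputable def PP1 (α : Fin m → ℝ) (c : Fin m → ℂ) (y : ℝ) : ℂ :=
  ∑ j, c j * exp (-(α j * y : ℝ) * I)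

lemma PP1_cont (α : Fin m → ℝ) (c : Fin m → ℂ) : Continuous (PP1 α c) := by
  unfold PP1
  fun_prop

lemma PP1_sq (α : Fin m → ℝ) (c : Fin m → ℂ) (y : ℝ) : ((‖PP1 α c y‖ ^ 2 : ℝ) : ℂ) =
    ∑ i, ∑ j, c i * conj (c j) * exp (-((2 * y) * ((α i - α j) / 2) : ℝ) * I) := by
  rw [← Complex.normSq_eq_norm_sq, ← Complex.mul_conj]
  unfold PP1
  rw [map_sum, Finset.sum_mul_sum]
  refine Finset.sum_congr rfl fun i _ => Finset.sum_congr rfl fun j _ => ?_
  rw [map_mul, ← Complex.exp_conj]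
  have e1 : exp (-((2 * y) * ((α i - α j) / 2) : ℝ) * I) =
      exp (-(α i * y : ℝ) * I) * exp (conj (-(α j * y : ℝ) * I)) := by
    rw [← Complex.exp_add]
    congr 1
    rw [map_mul, map_neg, Complex.conj_ofReal, Complex.conj_I]
    push_cast; ring
  rw [e1]; ring

lemma sumPhi (hg : Continuous g) {θ : ℝ → ℝ} (hθ : Continuous θ)
    (hcs : HasCompactSupport fun y => g (θ y)) (α : Fin m → ℝ) (c : Fin m → ℂ) (K : ℕ) :
    ∑ i, ∑ j, c i * conj (c j) *
      ∫ y in Ioi (0:ℝ), md g ((α i - α j) / 2) (θ y) * wt K y =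
    ∫ y in Ioi (0:ℝ), g (θ y) * ((‖PP1 α c (θ y / 2)‖ ^ 2 : ℝ) : ℂ) * wt K y := by
  have hint : ∀ i j : Fin m, IntegrableOn (fun y => md g ((α i - α j) / 2) (θ y) * (wt K y : ℂ))
      (Ioi (0:ℝ)) := by
    intro i j
    refine Integrable.integrableOn ?_
    have hc : Continuous fun y => md g ((α i - α j) / 2) (θ y) * (wt K y : ℂ) := by
      unfold md
      refine Continuous.mul (Continuous.mul (hg.comp hθ) (by fun_prop)) ?_
      exact Complex.continuous_ofReal.comp (wt_continuous K)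
    refine hc.integrable_of_hasCompactSupport (HasCompactSupport.mul_right ?_)
    unfold md
    exact HasCompactSupport.mul_right hcs
  have e : ∀ y : ℝ, g (θ y) * ((‖PP1 α c (θ y / 2)‖ ^ 2 : ℝ) : ℂ) * wt K y =
      ∑ i, ∑ j, c i * conj (c j) * (md g ((α i - α j) / 2) (θ y) * wt K y) := by
    intro y
    rw [PP1_sq, Finset.mul_sum, Finset.sum_mul]
    refine Finset.sum_congr rfl fun i _ => ?_
    rw [Finset.mul_sum, Finset.sum_mul]
    refine Finset.sum_congr rfl fun j _ => ?_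
    unfold md
    rw [show 2 * (θ y / 2) = θ y by ring]
    ring
  simp_rw [e]
  rw [integral_finsetSum _ fun i _ => integrable_finsetSum _ fun j _ => (hint i j).const_mul _]
  refine Finset.sum_congr rfl fun i _ => ?_
  rw [integral_finsetSum _ fun j _ => (hint i j).const_mul _]
  refine Finset.sum_congr rfl fun j _ => ?_
  rw [integral_const_mul]

/-- a real integral of the test function -/
lemma real_int (f : ℝ → ℝ) (α : Fin m → ℝ) (c : Fin m → ℂ) (θ : ℝ → ℝ) (K : ℕ) :
    ∫ y in Ioi (0:ℝ), ((f (θ y) : ℝ) : ℂ) * ((‖PP1 α c (θ y / 2)‖ ^ 2 : ℝ) : ℂ) * wt K y =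
    ((∫ y in Ioi (0:ℝ), f (θ y) * ‖PP1 α c (θ y / 2)‖ ^ 2 * wt K y : ℝ) : ℂ) := by
  rw [← integral_complex_ofReal]
  refine integral_congr_ae (Eventually.of_forall fun y => ?_)
  simp only
  push_cast; ring

/-- **Lower bound.** -/
theorem lower_bound (hk : 2 ≤ k) (α : Fin m → ℝ) (c : Fin m → ℂ) {ε : ℝ} (hε : 0 < ε) :
    ∀ᶠ T : ℝ in atTop, arith k * (∫ y in (0:ℝ)..1, (‖PP1 α c y‖ ^ 2 + ‖PP1 α c (k - y)‖ ^ 2) *
      wt (k ^ 2) y) - ε ≤ SS k α c T := by
  have hk1 : 1 ≤ k := by omega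
  have hk2 : (2:ℝ) ≤ k := by exact_mod_cast hk
  have harith : 0 ≤ arith k := (zetaData hk1).A_nonneg
  set h : ℝ → ℝ := fun y => (‖PP1 α c y‖ ^ 2 + ‖PP1 α c (k - y)‖ ^ 2) * wt (k ^ 2) y with hh
  have hhc : Continuous h := by
    have h1 := PP1_cont α c
    exact (((h1.norm).pow 2).add (((h1.comp (continuous_const.sub continuous_id)).norm).pow 2)).mul
      (wt_continuous _)
  have hprim : ∀ a : ℝ, Continuous fun b : ℝ => ∫ y in a..b, h y := fun a =>
    intervalIntegral.continuous_primitive (fun a b => hhc.intervalIntegrable a b) a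
  -- choose η
  obtain ⟨η, hη0, hη1, hη⟩ : ∃ η : ℝ, 0 < η ∧ η < 1/8 ∧
      arith k * (∫ y in (0:ℝ)..1, h y) - ε / 2 <
        (1 - 6 * η) * (arith k * ∫ y in η..(1 - η), h y) := by
    have hE : Continuous fun η : ℝ => (1 - 6 * η) * (arith k * ∫ y in η..(1 - η), h y) := by
      have e1 : (fun η : ℝ => (1 - 6 * η) * (arith k * ∫ y in η..(1 - η), h y)) =
          fun η : ℝ => (1 - 6 * η) * (arith k * ((∫ y in (0:ℝ)..(1 - η), h y) - ∫ y in (0:ℝ)..η, h y)) := by
        funext η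
        rw [intervalIntegral.integral_interval_sub_left (hhc.intervalIntegrable _ _)
          (hhc.intervalIntegrable _ _)]
      rw [e1]
      have h2 := (hprim 0).comp (continuous_const.sub continuous_id : Continuous fun η : ℝ => 1 - η)
      exact (by fun_prop : Continuous fun η : ℝ => 1 - 6 * η).mul
        (continuous_const.mul (h2.sub (hprim 0)))
    have h3 := hE.tendsto 0
    simp only [mul_zero, sub_zero, one_mul] at h3
    have h3' := h3.mono_left (nhdsWithin_le_nhds (a := (0:ℝ)) (s := Ioi 0))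
    have h4 := h3'.eventually (lt_mem_nhds
      (show arith k * (∫ y in (0:ℝ)..1, h y) - ε / 2 < arith k * (∫ y in (0:ℝ)..1, h y) by linarith))
    have h5 : ∀ᶠ η : ℝ in 𝓝[>] 0, η ∈ Ioo (0:ℝ) (1/8) := Ioo_mem_nhdsGT (by norm_num)
    obtain ⟨η, hη, hη'⟩ := (h4.and h5).exists
    exact ⟨η, hη'.1, hη'.2, hη⟩
  -- bumps
  let f1 : ContDiffBump (1:ℝ) := ⟨1 - 2 * η, 1 - η, by linarith, by linarith⟩
  let f2 : ContDiffBump (2 * (k:ℝ) - 1) := ⟨1 - 2 * η, 1 - η, by linarith, by linarith⟩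
  let fw : ContDiffBump (1/2 : ℝ) := ⟨1/2 - 3 * η, 1/2 - 2 * η, by linarith, by linarith⟩
  have hw : SW (fun x => fw x) η := by
    refine ⟨hη0, fw.contDiff, ?_, fun x => fw.nonneg, fun x => fw.le_one⟩
    intro x hx
    have h1 : x ∈ Function.support fw := hx
    rw [fw.support_eq, Metric.mem_ball, Real.dist_eq] at h1
    have h2 := abs_lt.1 h1
    have h3 : fw.rOut = 1/2 - 2 * η := rfl
    rw [h3] at h2
    constructor <;> linarith [h2.1, h2.2]
  have t1 := TF_bump f1
  have t2 := TF_bump f2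
  have r1 : f1.rOut = 1 - η := rfl
  have r2 : f2.rOut = 1 - η := rfl
  rw [r1] at t1
  rw [r2] at t2
  set g1 : ℝ → ℂ := fun u => ((f1 u : ℝ) : ℂ) with hg1
  set g2 : ℝ → ℂ := fun u => ((f2 u : ℝ) : ℂ) with hg2
  set χ : ℝ → ℝ := fun u => f1 u + f2 u with hχ
  have hχTF : TF (fun u => ((χ u : ℝ) : ℂ)) η (2 * k - η) := by
    refine ⟨?_, ?_⟩
    · have : (fun u => ((χ u : ℝ) : ℂ)) = fun u => g1 u + g2 u := by
        funext u; simp [hχ, hg1, hg2]
      rw [this]
      exact t1.smooth.add t2.smooth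
    · refine closure_minimal ?_ isClosed_Icc
      intro u hu
      have hu' : g1 u ≠ 0 ∨ g2 u ≠ 0 := by
        by_contra hcon
        push Not at hcon
        apply hu
        show ((f1 u + f2 u : ℝ) : ℂ) = 0
        rw [Complex.ofReal_add]
        show g1 u + g2 u = 0
        rw [hcon.1, hcon.2, add_zero]
      rcases hu' with h1 | h1
      · have := t1.supp (subset_tsupport _ h1)
        exact ⟨by linarith [this.1], by linarith [this.2]⟩
      · have := t2.supp (subset_tsupport _ h1)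
        exact ⟨by linarith [this.1], by linarith [this.2]⟩
  have hχ1 : ∀ u, χ u ≤ 1 := by
    intro u
    show f1 u + f2 u ≤ 1
    by_cases hu : u ≤ 2
    · have : f2 u = 0 := by
        by_contra hne
        have hmem : u ∈ Function.support f2 := hne
        rw [f2.support_eq, Metric.mem_ball, Real.dist_eq, r2] at hmem
        have := (abs_lt.1 hmem).1
        linarith
      rw [this, add_zero]; exact f1.le_one
    · have : f1 u = 0 := by
        by_contra hne
        have hmem : u ∈ Function.support f1 := hne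
        rw [f1.support_eq, Metric.mem_ball, Real.dist_eq, r1] at hmem
        have := (abs_lt.1 hmem).2
        linarith
      rw [this, zero_add]; exact f2.le_one
  have m1 := main_lim hw k α c t1 (I0 := ((∫ x in (0:ℝ)..1, fw x ^ 2 : ℝ) : ℂ))
    (Φ := fun d => ∫ y in Ioi (0:ℝ), md g1 d (2 * y) * wt (k ^ 2) y)
    (fun d cc => avgW_low hw cc hk1 (t1.md d) (by linarith))
  have m2 := main_lim hw k α c t2 (I0 := ((∫ x in (0:ℝ)..1, fw x ^ 2 : ℝ) : ℂ))
    (Φ := fun d => ∫ y in Ioi (0:ℝ), md g2 d (2 * k - 2 * y) * wt (k ^ 2) y)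
    (fun d cc => avgW_high hw cc hk1 (t2.md d) (by linarith))
  have hGsum : ∀ β : ℝ, G (fun u => ((χ u : ℝ) : ℂ)) (β * I) = G g1 (β * I) + G g2 (β * I) := by
    intro β
    exact G_add' t1 t2 (fun u => by simp [hχ, hg1, hg2]) _
  have cs1 : HasCompactSupport fun y : ℝ => g1 (2 * y) := by
    have := t1.hcs.comp_homeomorph (Homeomorph.mulLeft₀ (2:ℝ) two_ne_zero)
    exact this
  have cs2 : HasCompactSupport fun y : ℝ => g2 (2 * k - 2 * y) := by
    have h1 := t2.hcs.comp_homeomorph ((Homeomorph.mulLeft₀ (2:ℝ) two_ne_zero).trans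
      (Homeomorph.subLeft (2 * (k:ℝ))))
    exact h1
  have s1 := sumPhi t1.cont (θ := fun y => 2 * y) (by fun_prop) cs1 α c (k ^ 2)
  have s2 := sumPhi t2.cont (θ := fun y => 2 * k - 2 * y) (by fun_prop) cs2 α c (k ^ 2)
  rw [real_int (fun u => f1 u) α c (fun y => 2 * y)] at s1
  rw [real_int (fun u => f2 u) α c (fun y => 2 * k - 2 * y)] at s2
  set R1 := ∫ y in Ioi (0:ℝ), f1 (2 * y) * ‖PP1 α c (2 * y / 2)‖ ^ 2 * wt (k ^ 2) y with hR1
  set R2 := ∫ y in Ioi (0:ℝ), f2 (2 * k - 2 * y) * ‖PP1 α c ((2 * k - 2 * y) / 2)‖ ^ 2 *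
    wt (k ^ 2) y with hR2
  rw [s1] at m1
  rw [s2] at m2
  have hi : ∀ᶠ T : ℝ in atTop, Integrable fun β : ℝ => G (fun u => ((χ u : ℝ) : ℂ)) (β * I) *
      MM k α c (fun x => fw x) T β := by
    filter_upwards [m1.1, m2.1] with T h1 h2
    refine (h1.add h2).congr (Eventually.of_forall fun β => ?_)
    simp only [Pi.add_apply, hGsum]
    ring
  have hl : Tendsto (fun T : ℝ => ((T * Real.log T ^ (k ^ 2) : ℝ) : ℂ)⁻¹ *
      ∫ β : ℝ, G (fun u => ((χ u : ℝ) : ℂ)) (β * I) * MM k α c (fun x => fw x) T β) atTop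
      (𝓝 (((∫ x in (0:ℝ)..1, fw x ^ 2 : ℝ) : ℂ) * (2 * Real.pi * (arith k * (R1 : ℂ))) +
        ((∫ x in (0:ℝ)..1, fw x ^ 2 : ℝ) : ℂ) * (2 * Real.pi * (arith k * (R2 : ℂ))))) := by
    refine (m1.2.add m2.2).congr' ?_
    filter_upwards [m1.1, m2.1] with T h1 h2
    rw [← mul_add, ← integral_add h1 h2]
    congr 1
    refine integral_congr_ae (Eventually.of_forall fun β => ?_)
    simp only [hGsum]
    ring
  have hfin := lower_main hw α c hχTF hχ1 hi hl (half_pos hε)
  have hval : (((∫ x in (0:ℝ)..1, fw x ^ 2 : ℝ) : ℂ) * (2 * Real.pi * (arith k * (R1 : ℂ))) +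
        ((∫ x in (0:ℝ)..1, fw x ^ 2 : ℝ) : ℂ) * (2 * Real.pi * (arith k * (R2 : ℂ)))).re / (2 * Real.pi) =
      (∫ x in (0:ℝ)..1, fw x ^ 2) * (arith k * (R1 + R2)) := by
    have e1 : (((∫ x in (0:ℝ)..1, fw x ^ 2 : ℝ) : ℂ) * (2 * Real.pi * (arith k * (R1 : ℂ))) +
        ((∫ x in (0:ℝ)..1, fw x ^ 2 : ℝ) : ℂ) * (2 * Real.pi * (arith k * (R2 : ℂ)))) =
        (((∫ x in (0:ℝ)..1, fw x ^ 2) * (2 * Real.pi * (arith k * R1)) +
        (∫ x in (0:ℝ)..1, fw x ^ 2) * (2 * Real.pi * (arith k * R2)) : ℝ) : ℂ) := by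
      push_cast; ring
    rw [e1, Complex.ofReal_re]
    have := Real.pi_pos
    field_simp
  rw [hval] at hfin
  -- lower bounds
  have hwl : 1 - 6 * η ≤ ∫ x in (0:ℝ)..1, fw x ^ 2 := by
    have hci : Continuous fun x : ℝ => fw x ^ 2 := (fw.continuous).pow 2
    have h1 : ∫ x in (3 * η)..(1 - 3 * η), (1:ℝ) ≤ ∫ x in (3 * η)..(1 - 3 * η), fw x ^ 2 := by
      refine intervalIntegral.integral_mono_on (by linarith) intervalIntegrable_const
        (hci.intervalIntegrable _ _) ?_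
      intro x hx
      have : fw x = 1 := by
        apply fw.one_of_mem_closedBall
        rw [Metric.mem_closedBall, Real.dist_eq]
        show |x - 1/2| ≤ 1/2 - 3 * η
        rw [abs_le]
        constructor <;> linarith [hx.1, hx.2]
      rw [this]; norm_num
    rw [intervalIntegral.integral_const, smul_eq_mul, mul_one] at h1
    have h2 : ∫ x in (3 * η)..(1 - 3 * η), fw x ^ 2 ≤ ∫ x in (0:ℝ)..1, fw x ^ 2 := by
      refine intervalIntegral.integral_mono_interval (by linarith) (by linarith) (by linarith)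
        (Eventually.of_forall fun x => by positivity) (hci.intervalIntegrable _ _)
    linarith
  have hRl : ∫ y in η..(1 - η), h y ≤ R1 + R2 := by
    have i1 : IntegrableOn (fun y => f1 (2 * y) * ‖PP1 α c (2 * y / 2)‖ ^ 2 * wt (k ^ 2) y) (Ioi (0:ℝ)) := by
      refine Integrable.integrableOn ?_
      have hc1 : Continuous fun y : ℝ => f1 (2 * y) * ‖PP1 α c (2 * y / 2)‖ ^ 2 * wt (k ^ 2) y :=
        ((f1.continuous.comp (by fun_prop)).mul
          ((((PP1_cont α c).comp (by fun_prop)).norm).pow 2)).mul (wt_continuous _)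
      refine hc1.integrable_of_hasCompactSupport (HasCompactSupport.mul_right
        (HasCompactSupport.mul_right ?_))
      exact f1.hasCompactSupport.comp_homeomorph (Homeomorph.mulLeft₀ (2:ℝ) two_ne_zero)
    have i2 : IntegrableOn (fun y => f2 (2 * k - 2 * y) * ‖PP1 α c ((2 * k - 2 * y) / 2)‖ ^ 2 *
        wt (k ^ 2) y) (Ioi (0:ℝ)) := by
      refine Integrable.integrableOn ?_
      have hc1 : Continuous fun y : ℝ => f2 (2 * k - 2 * y) * ‖PP1 α c ((2 * k - 2 * y) / 2)‖ ^ 2 *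
          wt (k ^ 2) y :=
        ((f2.continuous.comp (by fun_prop)).mul
          ((((PP1_cont α c).comp (by fun_prop)).norm).pow 2)).mul (wt_continuous _)
      refine hc1.integrable_of_hasCompactSupport (HasCompactSupport.mul_right
        (HasCompactSupport.mul_right ?_))
      exact f2.hasCompactSupport.comp_homeomorph ((Homeomorph.mulLeft₀ (2:ℝ) two_ne_zero).trans
        (Homeomorph.subLeft (2 * (k:ℝ))))
    rw [hR1, hR2, ← integral_add i1 i2, intervalIntegral.integral_of_le (by linarith)]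
    have hsub : Ioc η (1 - η) ⊆ Ioi (0:ℝ) := fun y hy => hη0.trans hy.1
    have h3 : ∫ y in Ioc η (1 - η), h y = ∫ y in Ioc η (1 - η),
        (f1 (2 * y) * ‖PP1 α c (2 * y / 2)‖ ^ 2 * wt (k ^ 2) y +
        f2 (2 * k - 2 * y) * ‖PP1 α c ((2 * k - 2 * y) / 2)‖ ^ 2 * wt (k ^ 2) y) := by
      refine setIntegral_congr_fun measurableSet_Ioc fun y hy => ?_
      have e1 : f1 (2 * y) = 1 := by
        apply f1.one_of_mem_closedBall
        rw [Metric.mem_closedBall, Real.dist_eq]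
        show |2 * y - 1| ≤ 1 - 2 * η
        rw [abs_le]
        constructor <;> linarith [hy.1, hy.2]
      have e2 : f2 (2 * k - 2 * y) = 1 := by
        apply f2.one_of_mem_closedBall
        rw [Metric.mem_closedBall, Real.dist_eq]
        show |2 * (k:ℝ) - 2 * y - (2 * k - 1)| ≤ 1 - 2 * η
        rw [abs_le]
        constructor <;> linarith [hy.1, hy.2]
      rw [e1, e2, show 2 * y / 2 = y by ring, show (2 * (k:ℝ) - 2 * y) / 2 = k - y by ring]
      show (‖PP1 α c y‖ ^ 2 + ‖PP1 α c (k - y)‖ ^ 2) * wt (k ^ 2) y = _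
      ring
    rw [h3]
    refine setIntegral_mono_set (i1.add i2) ?_ (Eventually.of_forall hsub)
    filter_upwards [self_mem_ae_restrict measurableSet_Ioi] with y hy
    have hy0 : (0:ℝ) < y := hy
    have := wt_nonneg (k ^ 2) hy0
    have := f1.nonneg (x := 2 * y)
    have := f2.nonneg (x := 2 * (k:ℝ) - 2 * y)
    simp only [Pi.zero_apply]
    positivity
  have hJ0 : 0 ≤ ∫ y in η..(1 - η), h y := by
    refine intervalIntegral.integral_nonneg (by linarith) fun y hy => ?_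
    have := wt_nonneg (k ^ 2) (by linarith [hy.1] : 0 < y)
    rw [hh]; positivity
  filter_upwards [hfin] with T hT
  refine le_trans ?_ hT
  have h6 : (1 - 6 * η) * (arith k * ∫ y in η..(1 - η), h y) ≤
      (∫ x in (0:ℝ)..1, fw x ^ 2) * (arith k * (R1 + R2)) := by
    refine mul_le_mul hwl (mul_le_mul_of_nonneg_left hRl harith) (by positivity) ?_
    linarith
  linarith

end
end MP069854

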