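import Pool.Agent.Lib.MP_39df77_nt.Part20

section

/-!
# MP_069854_nt, shifted lower bound for `k = 3` (helper62): definitions

Notation: `L = log T`, `H = HH T = T / L`, `win T τ t = exp(-((t-τ)/H)²)`, `NN T = H √π L⁹`,
`B = BB (GG Ψ) T` (real coefficients), `B(t + a/L)` is `BS Ψ a T t`.
-/

namespace K3
open Complex MeasureTheory Filter Topology Set S6
open scoped Real ComplexConjugate

noncomputable section

/-- normalisation -/
def NN (T : ℝ) : ℝ := HH T * √π * Real.log T ^ 9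

/-- `ζ(1/2 + it)` -/
def ze (t : ℝ) : ℂ := riemannZeta (1 / 2 + t * I)

/-- `χ(1/2 + it)`, `conj ζ = χ ζ` on the critical line, `|χ| = 1` -/
def XX (t : ℝ) : ℂ := MP069854.chi (1 / 2 + t * I)

/-- the linear form `y - x₁ - x₂` (minus the logarithm of the frequency) -/
def th (p : ℝ × ℝ × ℝ) : ℝ := p.2.2 - p.1 - p.2.1

/-- the arithmetic constant `a_3` -/
def A3 : ℝ := MP069854.arith 3

/-- centres in `[δT, T]` -/
def Cen (δ : ℝ) (τ : ℝ → ℝ) : Prop := ∀ᶠ T : ℝ in atTop, δ * T ≤ τ T ∧ τ T ≤ T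

/-- centres in `[δT, (1-δ)T]` -/
def CenS (δ : ℝ) (τ : ℝ → ℝ) : Prop := ∀ᶠ T : ℝ in atTop, δ * T ≤ τ T ∧ τ T ≤ (1 - δ) * T

/-- smooth functions with compact support in `R` -/
structure SF (R : Set (ℝ × ℝ × ℝ)) (Ψ : ℝ × ℝ × ℝ → ℝ) : Prop where
  smooth : ContDiff ℝ (⊤ : ℕ∞) Ψ
  hcs : HasCompactSupport Ψ
  supp : tsupport Ψ ⊆ R

/-- regions for which the mixed moment `I2` is known -/
structure GoodReg (R : Set (ℝ × ℝ × ℝ)) : Prop where
  isOpen : IsOpen R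
  sub : R ⊆ Reg 1
  lim : ∀ Ψ : ℝ × ℝ × ℝ → ℝ, SF R Ψ → ∀ δ : ℝ, 0 < δ → ∀ τ : ℝ → ℝ, Cen δ τ →
    Tendsto (fun T : ℝ => I2 (GG Ψ) T (τ T) / ((NN T : ℝ) : ℂ)) atTop
      (𝓝 ((A3 * ∫ p, Ψ p * PP p : ℝ) : ℂ))

/-- The family `K T` has mean `M` in all Gaussian windows. -/
structure HasMean (K : ℝ → ℝ → ℂ) (M : ℂ) : Prop where
  cont : ∀ T, Continuous (K T)
  bdd : ∃ (C : ℝ) (A : ℕ), 0 ≤ C ∧ ∀ T : ℝ, 2 ≤ T → ∀ t, ‖K T t‖ ≤ C * (T * (1 + |t|)) ^ A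
  lim : ∀ δ : ℝ, 0 < δ → ∀ τ : ℝ → ℝ, Cen δ τ →
    Tendsto (fun T : ℝ => (∫ t : ℝ, K T t * ((win T (τ T) t : ℝ) : ℂ)) / ((NN T : ℝ) : ℂ)) atTop
      (𝓝 M)

/-- `B(t + a/L)` -/
def BS (Ψ : ℝ × ℝ × ℝ → ℝ) (a T t : ℝ) : ℂ := BB (GG Ψ) T (t + a / Real.log T)

/-- the weighted window `(τ/t) win` -/
def ww (T τ t : ℝ) : ℝ := τ / t * win T τ t

/-- `∫ Ψ PP e^{-i a θ}` -/
def mPP (Ψ : ℝ × ℝ × ℝ → ℝ) (a : ℝ) : ℂ :=
  (A3 : ℂ) * ∫ p : ℝ × ℝ × ℝ, ((Ψ p * PP p : ℝ) : ℂ) * cexp (-(((a * th p : ℝ) : ℂ) * I))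

/-- `∫ Ψ² e^{i a θ}` -/
def mSq (Ψ : ℝ × ℝ × ℝ → ℝ) (a : ℝ) : ℂ :=
  (A3 : ℂ) * ∫ p : ℝ × ℝ × ℝ, ((Ψ p ^ 2 : ℝ) : ℂ) * cexp (((a * th p : ℝ) : ℂ) * I)

/-- `P(u) = ∑ c_j e^{-i x_j u}` -/
def Pf {m : ℕ} (x : Fin m → ℝ) (c : Fin m → ℂ) (u : ℝ) : ℂ :=
  ∑ j, c j * cexp (-(((x j * u : ℝ) : ℂ) * I))

/-- `∑ c_j ζ(1/2 + i(t + x_j/L))³` -/
def Zs {m : ℕ} (x : Fin m → ℝ) (c : Fin m → ℂ) (T t : ℝ) : ℂ :=
  ∑ j, c j * ze (t + x j / Real.log T) ^ 3

/-- the constant: `∫_R (|P(s)|² + |P(3-s)|²) PP²`, `s = 1 - θ` -/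
def VR {m : ℕ} (R : Set (ℝ × ℝ × ℝ)) (x : Fin m → ℝ) (c : Fin m → ℂ) : ℝ :=
  ∫ p in R, (‖Pf x c (1 - th p)‖ ^ 2 + ‖Pf x c (2 + th p)‖ ^ 2) * PP p ^ 2

end

end K3

end

section

namespace K3
open Complex MeasureTheory Filter Topology Set S6
open scoped Real ComplexConjugate

private theorem k02ab_th : ContDiff ℝ (⊤ : ℕ∞) th := by
  unfold th
  fun_prop

/-- **K02a.** `th` is a continuous linear form. -/
theorem SF.mul_fn {R : Set (ℝ × ℝ × ℝ)} {Ψ : ℝ × ℝ × ℝ → ℝ} (h : SF R Ψ) {g : ℝ → ℝ}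
    (hg : ContDiff ℝ (⊤ : ℕ∞) g) : SF R (fun p => Ψ p * g (th p)) := by
  refine ⟨h.smooth.mul (hg.comp k02ab_th), ?_, ?_⟩
  · exact h.hcs.mul_right
  · exact (tsupport_mul_subset_left (f := Ψ) (g := fun p => g (th p))).trans h.supp

private theorem k02ab_Dv (v : ℝ × ℝ × ℝ) (hv : th v = 0) {f : ℝ × ℝ × ℝ → ℝ}
    (hf : Differentiable ℝ f) {g : ℝ → ℝ} (hg : Differentiable ℝ g) :
    Dv v (fun p => f p * g (th p)) = fun p => Dv v f p * g (th p) := by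
  funext p
  have hlin : HasFDerivAt th
      (ContinuousLinearMap.snd ℝ ℝ ℝ ∘L ContinuousLinearMap.snd ℝ ℝ (ℝ × ℝ) -
        ContinuousLinearMap.fst ℝ ℝ (ℝ × ℝ) -
        ContinuousLinearMap.fst ℝ ℝ ℝ ∘L ContinuousLinearMap.snd ℝ ℝ (ℝ × ℝ)) p := by
    have := (ContinuousLinearMap.snd ℝ ℝ ℝ ∘L ContinuousLinearMap.snd ℝ ℝ (ℝ × ℝ) -
        ContinuousLinearMap.fst ℝ ℝ (ℝ × ℝ) -
        ContinuousLinearMap.fst ℝ ℝ ℝ ∘L ContinuousLinearMap.snd ℝ ℝ (ℝ × ℝ)).hasFDerivAt (x := p)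
    exact this
  have h1 := (hg (th p)).hasDerivAt.comp_hasFDerivAt p hlin
  have h2 := (hf p).hasFDerivAt.mul h1
  have h3 : fderiv ℝ (fun p => f p * g (th p)) p = _ := h2.fderiv
  unfold Dv
  rw [h3]
  have h4 : v.2.2 - v.1 - v.2.1 = 0 := hv
  simp only [add_apply, smul_apply,
    sub_apply, ContinuousLinearMap.comp_apply, ContinuousLinearMap.coe_snd',
    ContinuousLinearMap.coe_fst', smul_eq_mul, h4, mul_zero, zero_add, Function.comp_apply]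
  ring

private theorem k02ab_smooth (v : ℝ × ℝ × ℝ) {f : ℝ × ℝ × ℝ → ℝ} (hf : ContDiff ℝ (⊤ : ℕ∞) f) :
    ContDiff ℝ (⊤ : ℕ∞) (Dv v f) := by
  have h1 : ContDiff ℝ (⊤ : ℕ∞) (fderiv ℝ f) := hf.fderiv_right (m := (⊤ : ℕ∞)) le_rfl
  exact h1.clm_apply contDiff_const

/-- **K02b.** `th (1,0,1) = th (0,1,1) = th (1,-1,0) = 0`, so each of the three directional
derivatives in `GG` satisfies `Dv v (f * g∘th) = Dv v f * g∘th` (product rule and chain rule,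
`fderiv` of `th` is `th` itself). -/
theorem GG_mul_fn {Ψ : ℝ × ℝ × ℝ → ℝ} (h : ContDiff ℝ (⊤ : ℕ∞) Ψ) {g : ℝ → ℝ}
    (hg : ContDiff ℝ (⊤ : ℕ∞) g) (p : ℝ × ℝ × ℝ) :
    GG (fun p => Ψ p * g (th p)) p = GG Ψ p * g (th p) := by
  have hgd : Differentiable ℝ g := hg.differentiable (by simp)
  have d0 : Differentiable ℝ Ψ := h.differentiable (by simp)
  have s1 := k02ab_smooth (1, -1, 0) h
  have d1 : Differentiable ℝ (Dv (1, -1, 0) Ψ) := s1.differentiable (by simp)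
  have s2 := k02ab_smooth (0, 1, 1) s1
  have d2 : Differentiable ℝ (Dv (0, 1, 1) (Dv (1, -1, 0) Ψ)) := s2.differentiable (by simp)
  unfold GG
  rw [k02ab_Dv (1, -1, 0) (by unfold th; norm_num) d0 hgd,
    k02ab_Dv (0, 1, 1) (by unfold th; norm_num) d1 hgd,
    k02ab_Dv (1, 0, 1) (by unfold th; norm_num) d2 hgd]

end K3

end

section

namespace K3
open Complex MeasureTheory Filter Topology Set S6
open scoped Real ComplexConjugate

theorem BS_cont (Ψ : ℝ × ℝ × ℝ → ℝ) (a T : ℝ) : Continuous (BS Ψ a T) := by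
  have h := S6.A68.BB_cont (GG Ψ) T
  unfold BS
  exact h.comp (by fun_prop)

theorem BS_bdd {Ψ : ℝ × ℝ × ℝ → ℝ} (h : ContDiff ℝ (⊤ : ℕ∞) Ψ) (hc : HasCompactSupport Ψ) (a : ℝ) :
    ∃ C : ℝ, 0 ≤ C ∧ ∀ T : ℝ, 1 ≤ T → ∀ t, ‖BS Ψ a T t‖ ≤ C * T ^ 3 := by
  have hGs : ContDiff ℝ (⊤ : ℕ∞) (GG Ψ) := QA_GG_Dv_smooth _ (QA_GG_Dv_smooth _ (QA_GG_Dv_smooth _ h))
  have hGc : HasCompactSupport (GG Ψ) := QA_GG_Dv_cs _ (QA_GG_Dv_cs _ (QA_GG_Dv_cs _ hc))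
  obtain ⟨M, hM⟩ := hGc.exists_bound_of_continuous hGs.continuous
  have hM0 : 0 ≤ M := (norm_nonneg _).trans (hM 0)
  refine ⟨M, hM0, fun T hT t => ?_⟩
  unfold BS BB
  refine (norm_sum_le _ _).trans ?_
  have h1 : ∀ x ∈ tri T, ‖((cf (GG Ψ) T x * (√((x.1 : ℝ) * x.2.1 * x.2.2))⁻¹ : ℝ) : ℂ) *
      cexp ((((t + a / Real.log T) *
        (Real.log x.2.2 - Real.log x.1 - Real.log x.2.1) : ℝ) : ℂ) * I)‖ ≤ M := by
    intro x hx
    rw [norm_mul, Complex.norm_exp_ofReal_mul_I, mul_one, Complex.norm_real, norm_mul]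
    have hx' := hx
    simp only [tri, Finset.mem_product, Finset.mem_Icc] at hx'
    have a1 : (1 : ℝ) ≤ x.1 := by exact_mod_cast hx'.1.1
    have a2 : (1 : ℝ) ≤ x.2.1 := by exact_mod_cast hx'.2.1.1
    have a3 : (1 : ℝ) ≤ x.2.2 := by exact_mod_cast hx'.2.2.1
    have b1 : (1 : ℝ) ≤ (x.1 : ℝ) * x.2.1 * x.2.2 := by
      have := one_le_mul_of_one_le_of_one_le a1 a2
      exact one_le_mul_of_one_le_of_one_le this a3
    have b2 : (1 : ℝ) ≤ √((x.1 : ℝ) * x.2.1 * x.2.2) := by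
      rw [show (1 : ℝ) = √1 by simp]
      exact Real.sqrt_le_sqrt b1
    have b3 : ‖(√((x.1 : ℝ) * x.2.1 * x.2.2))⁻¹‖ ≤ 1 := by
      rw [norm_inv, Real.norm_of_nonneg (Real.sqrt_nonneg _)]
      exact inv_le_one_of_one_le₀ b2
    calc ‖cf (GG Ψ) T x‖ * ‖(√((x.1 : ℝ) * x.2.1 * x.2.2))⁻¹‖ ≤ M * 1 :=
          mul_le_mul (hM _) b3 (norm_nonneg _) hM0
      _ = M := mul_one _
  refine (Finset.sum_le_sum h1).trans ?_
  rw [Finset.sum_const, nsmul_eq_mul, mul_comm]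
  refine mul_le_mul_of_nonneg_left ?_ hM0
  have hcard : ((tri T).card : ℝ) = (⌊T⌋₊ : ℝ) ^ 3 := by
    simp only [tri, Finset.card_product, Nat.card_Icc, Nat.add_sub_cancel]
    push_cast
    ring
  rw [hcard]
  have hfl : (⌊T⌋₊ : ℝ) ≤ T := Nat.floor_le (by linarith)
  exact pow_le_pow_left₀ (Nat.cast_nonneg _) hfl 3

theorem ze_cont : Continuous ze := S6.A68.zeta_half_cont

theorem ze_bdd : ∃ C : ℝ, 0 ≤ C ∧ ∀ t, ‖ze t‖ ≤ C * (1 + |t|) := by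
  obtain ⟨C, h1, hC⟩ := S6.A68.zeta_half_growth
  exact ⟨C, by linarith, hC⟩

theorem XX_cont : Continuous XX := S6.A68.chi_half_cont

theorem XX_norm (t : ℝ) : ‖XX t‖ = 1 := S6.A68.chi_half_norm t

theorem XX_ze (t : ℝ) : XX t * ze t = conj (ze t) := (S6.A68.zeta_conj_half t).symm

end K3

end

section

namespace K3
open Complex MeasureTheory Filter Topology Set S6
open scoped Real ComplexConjugate

theorem win_integrable_poly {T : ℝ} (hT : 1 < T) (τ : ℝ) (A : ℕ) :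
    Integrable fun t : ℝ => (1 + |t|) ^ A * win T τ t :=
  A68.pow_win_int hT A τ

theorem HasMean.integrable {K : ℝ → ℝ → ℂ} {M : ℂ} (h : HasMean K M) {T : ℝ} (hT : 2 ≤ T) (τ : ℝ) :
    Integrable fun t : ℝ => K T t * ((win T τ t : ℝ) : ℂ) := by
  obtain ⟨C, A, hC, hb⟩ := h.bdd
  have h1 : ∀ t, ‖K T t‖ ≤ (C * T ^ A) * (1 + |t|) ^ A := fun t => by
    have := hb T hT t
    rw [mul_pow] at this
    linarith
  have h2 := A68.int_win (by linarith : (1:ℝ) < T) (h.cont T) h1 τ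
  refine h2.congr (Eventually.of_forall fun t => ?_)
  simp only [Complex.real_smul]
  ring

private theorem k03_one_le {T t : ℝ} (hT : 2 ≤ T) : 1 ≤ T * (1 + |t|) := by
  nlinarith [abs_nonneg t]

theorem HasMean.add {K K' : ℝ → ℝ → ℂ} {M M' : ℂ} (h : HasMean K M) (h' : HasMean K' M') :
    HasMean (fun T t => K T t + K' T t) (M + M') := by
  refine ⟨fun T => (h.cont T).add (h'.cont T), ?_, ?_⟩
  · obtain ⟨C, A, hC, hb⟩ := h.bdd
    obtain ⟨C', A', hC', hb'⟩ := h'.bdd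
    refine ⟨C + C', max A A', by positivity, fun T hT t => ?_⟩
    have h1 := hb T hT t
    have h2 := hb' T hT t
    have h3 : (T * (1 + |t|)) ^ A ≤ (T * (1 + |t|)) ^ (max A A') :=
      pow_le_pow_right₀ (k03_one_le hT) (le_max_left _ _)
    have h4 : (T * (1 + |t|)) ^ A' ≤ (T * (1 + |t|)) ^ (max A A') :=
      pow_le_pow_right₀ (k03_one_le hT) (le_max_right _ _)
    calc ‖K T t + K' T t‖ ≤ ‖K T t‖ + ‖K' T t‖ := norm_add_le _ _
      _ ≤ C * (T * (1 + |t|)) ^ (max A A') + C' * (T * (1 + |t|)) ^ (max A A') := by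
          gcongr
          · exact h1.trans (by gcongr)
          · exact h2.trans (by gcongr)
      _ = _ := by ring
  · intro δ hδ τ hτ
    refine ((h.lim δ hδ τ hτ).add (h'.lim δ hδ τ hτ)).congr' ?_
    filter_upwards [eventually_ge_atTop (2 : ℝ)] with T hT
    rw [← add_div, ← integral_add (h.integrable hT _) (h'.integrable hT _)]
    congr 1
    refine integral_congr_ae (Eventually.of_forall fun t => ?_)
    simp only
    ring

theorem HasMean.const_mul {K : ℝ → ℝ → ℂ} {M : ℂ} (h : HasMean K M) (c : ℂ) :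
    HasMean (fun T t => c * K T t) (c * M) := by
  refine ⟨fun T => continuous_const.mul (h.cont T), ?_, ?_⟩
  · obtain ⟨C, A, hC, hb⟩ := h.bdd
    refine ⟨‖c‖ * C, A, by positivity, fun T hT t => ?_⟩
    rw [norm_mul, mul_assoc]
    exact mul_le_mul_of_nonneg_left (hb T hT t) (norm_nonneg _)
  · intro δ hδ τ hτ
    refine ((h.lim δ hδ τ hτ).const_mul c).congr fun T => ?_
    have h1 : (fun t : ℝ => c * K T t * ((win T (τ T) t : ℝ) : ℂ)) =
        fun t : ℝ => c * (K T t * ((win T (τ T) t : ℝ) : ℂ)) := by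
      funext t
      ring
    rw [h1, integral_const_mul, mul_div_assoc]

theorem HasMean.conj {K : ℝ → ℝ → ℂ} {M : ℂ} (h : HasMean K M) :
    HasMean (fun T t => conj (K T t)) (conj M) := by
  refine ⟨fun T => continuous_conj.comp (h.cont T), ?_, ?_⟩
  · obtain ⟨C, A, hC, hb⟩ := h.bdd
    refine ⟨C, A, hC, fun T hT t => ?_⟩
    rw [RCLike.norm_conj]
    exact hb T hT t
  · intro δ hδ τ hτ
    have h1 := (continuous_conj.tendsto M).comp (h.lim δ hδ τ hτ)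
    refine h1.congr fun T => ?_
    have h2 : (fun t : ℝ => conj (K T t) * ((win T (τ T) t : ℝ) : ℂ)) =
        fun t : ℝ => conj (K T t * ((win T (τ T) t : ℝ) : ℂ)) := by
      funext t
      rw [map_mul, conj_ofReal]
    rw [h2, integral_conj]
    simp only [Function.comp_apply, map_div₀, conj_ofReal]

/-- change for `T ≤ 1` -/
theorem HasMean.congr {K K' : ℝ → ℝ → ℂ} {M : ℂ} (h : HasMean K M) (hc : ∀ T, Continuous (K' T))
    (he : ∀ T, 1 < T → ∀ t, K' T t = K T t) : HasMean K' M := by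
  refine ⟨hc, ?_, ?_⟩
  · obtain ⟨C, A, hC, hb⟩ := h.bdd
    refine ⟨C, A, hC, fun T hT t => ?_⟩
    rw [he T (by linarith) t]
    exact hb T hT t
  · intro δ hδ τ hτ
    refine (h.lim δ hδ τ hτ).congr' ?_
    filter_upwards [eventually_gt_atTop (1 : ℝ)] with T hT
    congr 1
    refine integral_congr_ae (Eventually.of_forall fun t => ?_)
    simp only
    rw [he T hT t]

end K3

end

section

namespace K3
open Complex MeasureTheory Filter Topology Set S6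
open scoped Real ComplexConjugate Manifold

private theorem k09_sub :
    Reg 1 ⊆ Icc (0 : ℝ) 1 ×ˢ (Icc (0 : ℝ) 1 ×ˢ Icc (0 : ℝ) 1) := by
  rintro p ⟨h1, h2, h3, h4, -⟩
  refine ⟨⟨by linarith, by linarith⟩, ⟨by linarith, by linarith⟩, ⟨by linarith, by linarith⟩⟩

private theorem k09_PP {p : ℝ × ℝ × ℝ} (hp : p ∈ Reg 1) : PP p ^ 2 ≤ 1 := by
  obtain ⟨h1, h2, h3, h4, -⟩ := hp
  have a1 : 0 ≤ p.1 - p.2.1 := by linarith
  have a2 : p.1 - p.2.1 ≤ 1 := by linarith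
  have b1 : 0 ≤ 1 - p.2.2 - p.1 := by linarith
  have b2 : 1 - p.2.2 - p.1 ≤ 1 := by linarith
  have c1 : 0 ≤ 1 - p.2.2 - p.2.1 := by linarith
  have c2 : 1 - p.2.2 - p.2.1 ≤ 1 := by linarith
  have d1 : 0 ≤ PP p := by
    rw [PP]
    positivity
  have d2 : PP p ≤ 1 := by
    rw [PP]
    have e1 : (p.1 - p.2.1) * (1 - p.2.2 - p.1) ≤ 1 := mul_le_one₀ a2 b1 b2
    have e2 : (p.1 - p.2.1) * (1 - p.2.2 - p.1) * (1 - p.2.2 - p.2.1) ≤ 1 :=
      mul_le_one₀ e1 c1 c2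
    linarith
  exact pow_le_one₀ d1 d2

/-- **K09.** -/
theorem cutoffR {R : Set (ℝ × ℝ × ℝ)} (hR : IsOpen R) (hs : R ⊆ Reg 1) {w : ℝ × ℝ × ℝ → ℝ}
    (hw : Continuous w) (hw0 : ∀ p, 0 ≤ w p) {η : ℝ} (hη : 0 < η) : ∃ Ψ, SF R Ψ ∧
    (∫ p in R, w p * PP p ^ 2) - η ≤ ∫ p, w p * (2 * (Ψ p * PP p) - Ψ p ^ 2) := by
  have hbox : IsCompact (Icc (0 : ℝ) 1 ×ˢ (Icc (0 : ℝ) 1 ×ˢ Icc (0 : ℝ) 1)) :=
    isCompact_Icc.prod (isCompact_Icc.prod isCompact_Icc)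
  have hfin : volume R ≠ ⊤ :=
    ((measure_mono (hs.trans k09_sub)).trans_lt hbox.measure_lt_top).ne
  obtain ⟨W, hW⟩ := hbox.exists_bound_of_continuousOn hw.continuousOn
  set W' : ℝ := max W 1 with hW'
  have hW1 : (1 : ℝ) ≤ W' := le_max_right _ _
  have hwb : ∀ p ∈ R, w p ≤ W' := fun p hp =>
    ((le_abs_self _).trans (hW p (k09_sub (hs hp)))).trans (le_max_left _ _)
  obtain ⟨K, hKR, hK, hKm⟩ := hR.measurableSet.exists_isCompact_sdiff_lt hfin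
    (ε := ENNReal.ofReal (η / W')) (by
      have : 0 < η / W' := by positivity
      simpa using this)
  obtain ⟨L, hL, hKL, hLR⟩ := exists_compact_between hK hR hKR
  obtain ⟨χ, hχ1, hχ0, hχ⟩ := exists_contMDiffMap_one_nhds_of_subset_interior
    (n := (⊤ : ℕ∞)) 𝓘(ℝ, ℝ × ℝ × ℝ) hK.isClosed hKL
  have hχs : ContDiff ℝ (⊤ : ℕ∞) (χ : ℝ × ℝ × ℝ → ℝ) := χ.contMDiff.contDiff
  have hPPc : ContDiff ℝ (⊤ : ℕ∞) PP := by
    unfold PP
    fun_prop
  have hsub : tsupport (fun p => χ p * PP p) ⊆ L := by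
    refine closure_minimal ?_ hL.isClosed
    intro p hp
    by_contra hcon
    exact hp (by simp [hχ0 p hcon])
  have hcs : HasCompactSupport (fun p => χ p * PP p) :=
    hL.of_isClosed_subset isClosed_closure hsub
  have hsm : ContDiff ℝ (⊤ : ℕ∞) (fun p => χ p * PP p) := hχs.mul hPPc
  refine ⟨fun p => χ p * PP p, ⟨hsm, hcs, hsub.trans hLR⟩, ?_⟩
  have i1 : Integrable (fun p => w p * (2 * (χ p * PP p * PP p) - (χ p * PP p) ^ 2)) := by
    have he : (fun p => w p * (2 * (χ p * PP p * PP p) - (χ p * PP p) ^ 2)) =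
        fun p => (χ p * PP p) * (w p * (2 * PP p - χ p * PP p)) := by
      funext p
      ring
    rw [he]
    exact (hsm.continuous.mul (hw.mul ((hPPc.continuous.const_mul 2).sub
      hsm.continuous))).integrable_of_hasCompactSupport hcs.mul_right
  have iR : IntegrableOn (fun p => w p * PP p ^ 2) R := by
    have : IntegrableOn (fun p => w p * PP p ^ 2)
        (Icc (0 : ℝ) 1 ×ˢ (Icc (0 : ℝ) 1 ×ˢ Icc (0 : ℝ) 1)) :=
      (hw.mul (hPPc.continuous.pow 2)).continuousOn.integrableOn_compact hbox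
    exact this.mono_set (hs.trans k09_sub)
  have iK : IntegrableOn (fun p => w p * PP p ^ 2) K := iR.mono_set hKR
  have hsplit : ∫ p in R, w p * PP p ^ 2 =
      (∫ p in K, w p * PP p ^ 2) + ∫ p in R \ K, w p * PP p ^ 2 := by
    rw [← setIntegral_union disjoint_sdiff_right (hR.measurableSet.diff hK.measurableSet) iK
      (iR.mono_set sdiff_subset), union_sdiff_cancel hKR]
  have hsmall : ∫ p in R \ K, w p * PP p ^ 2 ≤ η := by
    have h1 : ‖∫ p in R \ K, w p * PP p ^ 2‖ ≤ W' * volume.real (R \ K) := by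
      refine norm_setIntegral_le_of_norm_le_const (hKm.trans_le le_top) ?_
      intro p hp
      rw [Real.norm_of_nonneg (mul_nonneg (hw0 p) (sq_nonneg _))]
      have := k09_PP (hs hp.1)
      calc w p * PP p ^ 2 ≤ W' * 1 := mul_le_mul (hwb p hp.1) this (sq_nonneg _) (by linarith)
        _ = W' := mul_one _
    have h2 : volume.real (R \ K) ≤ η / W' := by
      rw [Measure.real]
      exact ENNReal.toReal_le_of_le_ofReal (by positivity) hKm.le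
    have h3 := (le_abs_self _).trans h1
    have h4 : W' * volume.real (R \ K) ≤ W' * (η / W') :=
      mul_le_mul_of_nonneg_left h2 (by linarith)
    rw [mul_div_cancel₀ _ (by linarith : W' ≠ 0)] at h4
    linarith
  have hmain : ∫ p in K, w p * PP p ^ 2 ≤
      ∫ p, w p * (2 * (χ p * PP p * PP p) - (χ p * PP p) ^ 2) := by
    rw [← integral_indicator hK.measurableSet]
    refine integral_mono ((integrable_indicator_iff hK.measurableSet).2 iK) i1 ?_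
    intro p
    have hχp := hχ p
    have h0 : 0 ≤ χ p := hχp.1
    have h1 : χ p ≤ 1 := hχp.2
    have hsq : 0 ≤ PP p ^ 2 := sq_nonneg _
    by_cases hp : p ∈ K
    · rw [indicator_of_mem hp]
      have : χ p = 1 := hχ1.self_of_nhdsSet p hp
      simp only [this]
      nlinarith
    · rw [indicator_of_notMem hp]
      have : w p * (2 * (χ p * PP p * PP p) - (χ p * PP p) ^ 2) =
        w p * ((χ p + χ p * (1 - χ p)) * PP p ^ 2) := by ring
      show 0 ≤ w p * (2 * (χ p * PP p * PP p) - (χ p * PP p) ^ 2)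
      rw [this]
      have : 0 ≤ 1 - χ p := by linarith
      have := hw0 p
      positivity
  linarith

end K3

end

section

/-!
# MP_069854_nt, K3, level 0: definitions (helper62)

The plain Dirichlet polynomial `D_W(t) = ∑_{n ≤ T} d_3(n) W(log n/L) n^{-1/2-it}`, `W` continuous with
compact support in `(0,1)`.
-/

namespace K3
open Complex MeasureTheory Filter Topology Set S6
open scoped Real ComplexConjugate

noncomputable section

/-- coefficients -/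
def dc (W : ℝ → ℝ) (T : ℝ) (n : ℕ) : ℝ :=
  (MP069854.dk 3 n : ℝ) * W (Real.log n / Real.log T) * (√(n : ℝ))⁻¹

/-- `D_W(t)` -/
def DW (W : ℝ → ℝ) (T t : ℝ) : ℂ :=
  ∑ n ∈ Finset.Icc 1 ⌊T⌋₊, ((dc W T n : ℝ) : ℂ) * cexp (-(((t * Real.log n : ℝ) : ℂ) * I))

/-- admissible profiles -/
structure WF (W : ℝ → ℝ) : Prop where
  cont : Continuous W
  hcs : HasCompactSupport W
  supp : tsupport W ⊆ Ioo 0 1

/-- `D_W(t + a/L)` -/
def DS (W : ℝ → ℝ) (a T t : ℝ) : ℂ := DW W T (t + a / Real.log T)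

/-- `∫ W e^{i a s} s^8/8!` -/
def mz (W : ℝ → ℝ) (a : ℝ) : ℂ :=
  (A3 : ℂ) * ∫ s in (0 : ℝ)..1, ((W s * (s ^ 8 / Nat.factorial 8) : ℝ) : ℂ) *
    cexp (((a * s : ℝ) : ℂ) * I)

/-- `∫ W² e^{-i a s} s^8/8!` -/
def md (W : ℝ → ℝ) (a : ℝ) : ℂ :=
  (A3 : ℂ) * ∫ s in (0 : ℝ)..1, ((W s ^ 2 * (s ^ 8 / Nat.factorial 8) : ℝ) : ℂ) *
    cexp (-(((a * s : ℝ) : ℂ) * I))

/-- the half space of frequencies `s = 1 - θ > 1` -/
def Hneg : Set (ℝ × ℝ × ℝ) := {p | th p < 0}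

/-- the region `SG.RegG` (same definition) -/
def RG : Set (ℝ × ℝ × ℝ) := Reg (3 / 2) ∪
  {p | 0 < p.2.1 ∧ p.2.1 < p.1 ∧ 0 < p.2.2 ∧ p.2.1 + p.2.2 < 1 / 2 ∧
    2 * (p.1 + p.2.1) + p.2.2 < 3 / 2 ∧ p.1 + p.2.1 - p.2.2 < 1 / 2}

end

end K3

end
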