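import Pool.Agent.Lib.MP_069854_nt.Part04

section

namespace K3
open Complex MeasureTheory Filter Topology Set S6
open scoped Real ComplexConjugate

private theorem k06_cosh {Y y t : ℝ} (hy : |y| ≤ Y) (ht : 0 < t) :
    ‖cos (Real.pi * (1 / 2 + y * I)) / cosh (Real.pi * t : ℂ)‖ ≤
      (2 * Real.exp (Real.pi * Y)) / t := by
  have hc : cosh (Real.pi * t : ℂ) = ((Real.cosh (Real.pi * t) : ℝ) : ℂ) := by push_cast; rfl
  rw [hc, norm_div, Complex.norm_real, Real.norm_of_nonneg (Real.cosh_pos _).le]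
  have h1 : ‖cos (Real.pi * (1 / 2 + y * I))‖ ≤ Real.exp (Real.pi * Y) := by
    refine (MP069854.norm_cos_le _).trans ?_
    have h2 : ((Real.pi : ℂ) * (1 / 2 + y * I)).im = Real.pi * y := by
      simp
    rw [h2, ← Real.cosh_abs, abs_mul, abs_of_pos Real.pi_pos]
    have h3 : Real.cosh (Real.pi * |y|) ≤ Real.exp (Real.pi * |y|) := by
      rw [Real.cosh_eq]
      have : Real.exp (-(Real.pi * |y|)) ≤ Real.exp (Real.pi * |y|) := by
        apply Real.exp_le_exp.2
        have := mul_nonneg Real.pi_pos.le (abs_nonneg y)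
        linarith
      linarith
    refine h3.trans (Real.exp_le_exp.2 ?_)
    exact mul_le_mul_of_nonneg_left hy Real.pi_pos.le
  have h4 : t / 2 ≤ Real.cosh (Real.pi * t) := by
    rw [Real.cosh_eq]
    have h5 : t ≤ Real.exp (Real.pi * t) := by
      have h6 : Real.pi * t + 1 ≤ Real.exp (Real.pi * t) := Real.add_one_le_exp _
      have h7 : (1:ℝ) * t ≤ Real.pi * t :=
        mul_le_mul_of_nonneg_right (by linarith [Real.pi_gt_three]) ht.le
      linarith
    have := Real.exp_pos (-(Real.pi * t))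
    linarith
  rw [div_le_div_iff₀ (Real.cosh_pos _) ht]
  have h5 := mul_le_mul_of_nonneg_right h1 ht.le
  have h6 := mul_le_mul_of_nonneg_left h4 (Real.exp_pos (Real.pi * Y)).le
  linarith

private theorem k06_log {t d D : ℝ} (hd : |d| ≤ D) (ht0 : 0 < t) (ht : D ≤ t) :
    |Real.log ((t - d / 2) / (2 * Real.pi)) - Real.log (t / (2 * Real.pi))| ≤ D / t := by
  have hD : 0 ≤ D := (abs_nonneg d).trans hd
  have h1 : -D ≤ d := (abs_le.1 hd).1
  have h2 : d ≤ D := (abs_le.1 hd).2
  have ht1 : 0 < t - d / 2 := by linarith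
  have hpi : (0:ℝ) < 2 * Real.pi := by positivity
  rw [Real.log_div ht1.ne' hpi.ne', Real.log_div ht0.ne' hpi.ne']
  have h3 : Real.log (t - d / 2) - Real.log (2 * Real.pi) - (Real.log t - Real.log (2 * Real.pi)) =
      Real.log ((t - d / 2) / t) := by
    rw [Real.log_div ht1.ne' ht0.ne']
    ring
  rw [h3]
  have hr : 0 < (t - d / 2) / t := by positivity
  rw [abs_le]
  constructor
  · have h4 := Real.one_sub_inv_le_log_of_pos hr
    have h5 : ((t - d / 2) / t)⁻¹ = t / (t - d / 2) := by rw [inv_div]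
    have h6 : -(D / t) ≤ 1 - ((t - d / 2) / t)⁻¹ := by
      rw [h5]
      have h7 : 1 - t / (t - d / 2) = -(d / 2) / (t - d / 2) := by
        rw [eq_div_iff ht1.ne', sub_mul, div_mul_cancel₀ _ ht1.ne']
        ring
      rw [h7, neg_div, neg_le_neg_iff, div_le_div_iff₀ ht1 ht0]
      have h8 := mul_nonneg ht0.le (sub_nonneg.2 h2)
      have h9 := mul_nonneg hD (show 0 ≤ t - d by linarith)
      linarith
    linarith
  · have h4 := Real.log_le_sub_one_of_pos hr
    have h5 : (t - d / 2) / t - 1 = -(d / 2) / t := by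
      field_simp
      ring
    rw [h5] at h4
    refine h4.trans ?_
    apply div_le_div_of_nonneg_right _ ht0.le
    linarith

private theorem k06_exp (a : ℝ) : ‖1 - cexp ((a : ℂ) * I)‖ ≤ |a| := by
  rw [norm_sub_rev, mul_comm]
  have := Real.norm_exp_I_mul_ofReal_sub_one_le (x := a)
  rwa [Real.norm_eq_abs] at this

/-- **K06.** -/
theorem XX_shift (D : ℝ) : ∃ C t₀ : ℝ, 0 ≤ C ∧ 0 < t₀ ∧ ∀ t ≥ t₀, ∀ d : ℝ, |d| ≤ D →
    ‖XX (t - d) - XX t * cexp (-(((d * Real.log (t / (2 * π)) : ℝ) : ℂ) * I))‖ ≤ C / t := by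
  set E : ℝ := |D| with hE
  have hE0 : 0 ≤ E := abs_nonneg D
  set Y : ℝ := E / 2 with hY
  have hY0 : 0 ≤ Y := by positivity
  set C₁ : ℝ := (32 + 4 * (2 + Y) ^ 2) * Y + 1 with hC₁
  have hC₁1 : 1 ≤ C₁ := by
    have : 0 ≤ (32 + 4 * (2 + Y) ^ 2) * Y := by positivity
    linarith
  set C₂ : ℝ := 2 * Real.exp (Real.pi * Y) with hC₂
  have hC₂0 : 0 ≤ C₂ := by positivity
  refine ⟨E ^ 2 + 2 * (2 * C₁ * (1 + C₂) + C₂), 16 + 2 * E + 2 * C₁, by positivity, by positivity,
    fun t ht d hd => ?_⟩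
  have hd' : |d| ≤ E := hd.trans (le_abs_self D)
  have hda := (abs_le.1 hd').1
  have hdb := (abs_le.1 hd').2
  have ht0 : 0 < t := by linarith
  set t₁ : ℝ := t - d / 2 with ht₁
  have h1a : t / 2 ≤ t₁ := by linarith
  have h1b : 8 ≤ t₁ := by linarith
  have h1c : E ≤ t₁ := by linarith
  have h1d : C₁ ≤ t₁ := by linarith
  have h10 : 0 < t₁ := by linarith
  set y : ℝ := d / 2 with hy
  have hyY : |y| ≤ Y := by
    rw [hy, abs_div, abs_of_pos (by norm_num : (0:ℝ) < 2)]
    linarith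
  -- the product
  have e1 : MP069854.Xt t₁ (1 / 2 + y * I) = XX t * conj (XX (t - d)) := by
    unfold MP069854.Xt XX
    rw [← MP069854.chi_conj]
    congr 2
    · rw [ht₁, hy]
      push_cast
      ring
    · rw [ht₁, hy]
      apply Complex.ext
      · simp
      · simp
        ring
  have e2 := MP069854.Xt_half h10 (1 / 2 + y * I)
  set rho : ℂ := MP069854.rr t₁ (1 / 2 + y * I) (1 / 2) with hrho
  set c : ℂ := cos (Real.pi * (1 / 2 + y * I)) / cosh (Real.pi * t₁ : ℂ) with hc
  have hcn : ‖c‖ ≤ C₂ / t₁ := k06_cosh hyY h10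
  have hcn1 : ‖c‖ ≤ C₂ := hcn.trans (div_le_self hC₂0 (by linarith))
  have hrn : ‖rho - 1‖ ≤ 2 * (C₁ / t₁) := by
    refine MP069854.rr_sub_one h1b (y := Y) (by simp) ?_ (by simpa using hyY) (by norm_num)
      (by norm_num) (by simpa using hY0) (by linarith) ?_ ?_
    · simp
      norm_num
    · rw [div_le_one h10]
      exact h1d
    · have hn : ‖(1 / 2 + y * I : ℂ) - 1 / 2‖ = |y| := by
        rw [show (1 / 2 + y * I : ℂ) - 1 / 2 = y * I by ring, norm_mul, norm_I, mul_one,
          Complex.norm_real, Real.norm_eq_abs]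
      rw [hn]
      have h3 : 32 / t₁ + 4 * (2 + Y) ^ 2 / t₁ ^ 2 ≤ (32 + 4 * (2 + Y) ^ 2) / t₁ := by
        rw [add_div]
        gcongr
        have h8 := mul_le_mul_of_nonneg_right (show (1:ℝ) ≤ t₁ by linarith) h10.le
        linarith
      calc (32 / t₁ + 4 * (2 + Y) ^ 2 / t₁ ^ 2) * |y| ≤
          (32 + 4 * (2 + Y) ^ 2) / t₁ * Y := by
            apply mul_le_mul h3 hyY (abs_nonneg _)
            positivity
        _ = ((32 + 4 * (2 + Y) ^ 2) * Y) / t₁ := by ring
        _ < C₁ / t₁ := by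
            apply div_lt_div_of_pos_right _ h10
            linarith
  set Er : ℂ := rho * (1 + c) - 1 with hEr
  have hErn : ‖Er‖ ≤ 2 * (2 * C₁ * (1 + C₂) + C₂) / t := by
    have h4 : Er = (rho - 1) * (1 + c) + c := by rw [hEr]; ring
    have h5 : ‖Er‖ ≤ 2 * (C₁ / t₁) * (1 + C₂) + C₂ / t₁ := by
      rw [h4]
      refine (norm_add_le _ _).trans (add_le_add ?_ hcn)
      rw [norm_mul]
      refine mul_le_mul hrn ?_ (norm_nonneg _) (by positivity)
      refine (norm_add_le _ _).trans ?_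
      rw [norm_one]
      linarith
    refine h5.trans ?_
    have h6 : 2 * (C₁ / t₁) * (1 + C₂) + C₂ / t₁ = (2 * C₁ * (1 + C₂) + C₂) / t₁ := by ring
    rw [h6, div_le_div_iff₀ h10 ht0]
    have h7 : 0 ≤ 2 * C₁ * (1 + C₂) + C₂ := by positivity
    have h8 := mul_le_mul_of_nonneg_left h1a h7
    linarith
  -- the main identity
  have hn1 : ‖XX (t - d)‖ = 1 := XX_norm _
  have hinv : conj (XX (t - d)) * XX (t - d) = 1 := by
    rw [mul_comm, mul_conj, normSq_eq_norm_sq, hn1]
    norm_num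
  have e3 : XX t = cexp (((d * MP069854.ell t₁ : ℝ) : ℂ) * I) * (1 + Er) * XX (t - d) := by
    have e4 : XX t = XX t * conj (XX (t - d)) * XX (t - d) := by
      rw [mul_assoc, hinv, mul_one]
    rw [e4, ← e1, e2, hEr]
    congr 1
    have e5 : (2 * (1 / 2 + y * I : ℂ) - 1) * (MP069854.ell t₁ : ℂ) =
        ((d * MP069854.ell t₁ : ℝ) : ℂ) * I := by
      rw [hy]
      push_cast
      ring
    rw [e5]
    ring
  have e6 : XX (t - d) - XX t * cexp (-(((d * Real.log (t / (2 * π)) : ℝ) : ℂ) * I)) =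
      XX (t - d) * ((1 - cexp (((d * (MP069854.ell t₁ - MP069854.ell t) : ℝ) : ℂ) * I)) -
        cexp (((d * (MP069854.ell t₁ - MP069854.ell t) : ℝ) : ℂ) * I) * Er) := by
    have e7 : cexp (((d * (MP069854.ell t₁ - MP069854.ell t) : ℝ) : ℂ) * I) =
        cexp (((d * MP069854.ell t₁ : ℝ) : ℂ) * I) *
          cexp (-(((d * Real.log (t / (2 * π)) : ℝ) : ℂ) * I)) := by
      rw [← Complex.exp_add]
      congr 1
      have : MP069854.ell t = Real.log (t / (2 * π)) := rfl
      rw [← this]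
      push_cast
      ring
    rw [e7, e3]
    ring
  rw [e6, norm_mul, hn1, one_mul]
  refine (norm_sub_le _ _).trans ?_
  rw [norm_mul, Complex.norm_exp_ofReal_mul_I, one_mul, add_div]
  refine add_le_add ((k06_exp _).trans ?_) hErn
  rw [abs_mul]
  have h8 : |MP069854.ell t₁ - MP069854.ell t| ≤ E / t := by
    have := k06_log hd' ht0 (by linarith)
    exact this
  calc |d| * |MP069854.ell t₁ - MP069854.ell t| ≤ E * (E / t) :=
        mul_le_mul hd' h8 (abs_nonneg _) hE0
    _ = E ^ 2 / t := by ring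

end K3

end

section

/-! # MP_069854_nt, K3, row K10: averaging over the windows -/

namespace K3
open Complex MeasureTheory Filter Topology Set S6
open scoped Real ComplexConjugate

lemma k10_abs (x : ℝ) : |x| * Real.exp (-x ^ 2) ≤ Real.exp (-x ^ 2 / 4) := by
  have h1 : |x| ≤ Real.exp (3 * x ^ 2 / 4) := by
    have h := Real.add_one_le_exp (3 * x ^ 2 / 4)
    have h2 : |x| ^ 2 = x ^ 2 := sq_abs x
    linarith [sq_nonneg (|x| - 2 / 3)]
  calc |x| * Real.exp (-x ^ 2) ≤ Real.exp (3 * x ^ 2 / 4) * Real.exp (-x ^ 2) := by gcongr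
    _ = Real.exp (-x ^ 2 / 4) := by
        rw [← Real.exp_add]
        congr 1
        ring

lemma k10_win_point {T δ τ t : ℝ} (hT : 1 < T) (hδ : 0 < δ) (ht : δ * T / 2 ≤ t) :
    τ / t * win T τ t ≤
      win T τ t + 2 / (δ * T) * (HH T * Real.exp (-((τ - t) / HH T) ^ 2 / 4)) := by
  have hH := HH_pos hT
  have hT0 : 0 < T := by linarith
  have hdT : 0 < δ * T := by positivity
  have ht0 : 0 < t := by linarith
  have hw := A68.win_pos T τ t
  have h1 : τ / t ≤ 1 + |τ - t| * (2 / (δ * T)) := by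
    have e : τ / t = 1 + (τ - t) / t := by field_simp; ring
    rw [e]
    have h2 : (τ - t) / t ≤ |τ - t| / t := div_le_div_of_nonneg_right (le_abs_self _) ht0.le
    have h3 : |τ - t| / t ≤ |τ - t| / (δ * T / 2) :=
      div_le_div_of_nonneg_left (abs_nonneg _) (by positivity) ht
    have h4 : |τ - t| / (δ * T / 2) = |τ - t| * (2 / (δ * T)) := by field_simp
    linarith
  have h5 : |τ - t| * win T τ t ≤ HH T * Real.exp (-((τ - t) / HH T) ^ 2 / 4) := by
    have e1 : |τ - t| = HH T * |(τ - t) / HH T| := by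
      rw [abs_div, abs_of_pos hH]
      field_simp
    have e2 : win T τ t = Real.exp (-((τ - t) / HH T) ^ 2) := by
      unfold win
      congr 1
      ring
    rw [e1, e2, mul_assoc]
    exact mul_le_mul_of_nonneg_left (k10_abs _) hH.le
  calc τ / t * win T τ t ≤ (1 + |τ - t| * (2 / (δ * T))) * win T τ t :=
        mul_le_mul_of_nonneg_right h1 hw.le
    _ = win T τ t + 2 / (δ * T) * (|τ - t| * win T τ t) := by ring
    _ ≤ _ := by
        have := mul_le_mul_of_nonneg_left h5 (show 0 ≤ 2 / (δ * T) by positivity)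
        linarith

/-- mass over the centres -/
lemma k10_inner {T δ t a b : ℝ} (hT : 1 < T) (hδ : 0 < δ) (ht : δ * T / 2 ≤ t) (hab : a ≤ b) :
    ∫ τ in a..b, τ / t * win T τ t ≤ √π * HH T * (1 + 4 / (δ * Real.log T)) := by
  have hH := HH_pos hT
  have hL := Real.log_pos hT
  have hT0 : 0 < T := by linarith
  obtain ⟨w1, w2⟩ := A68.win_mass hT t
  have g1 := A68.gauss4_int hT t
  have g2 := A68.gauss4_val hT t
  have hGi : Integrable (fun τ : ℝ =>
      win T τ t + 2 / (δ * T) * (HH T * Real.exp (-((τ - t) / HH T) ^ 2 / 4))) :=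
    w1.add ((g1.const_mul (HH T)).const_mul (2 / (δ * T)))
  have hGv : ∫ τ : ℝ, (win T τ t + 2 / (δ * T) * (HH T * Real.exp (-((τ - t) / HH T) ^ 2 / 4))) =
      √π * HH T * (1 + 4 / (δ * Real.log T)) := by
    rw [integral_add w1 ((g1.const_mul (HH T)).const_mul (2 / (δ * T))), w2, integral_const_mul,
      integral_const_mul, g2]
    unfold HH
    field_simp
    ring
  have hc : Continuous (fun τ : ℝ => τ / t * win T τ t) := by
    have c1 : Continuous (fun τ : ℝ => win T τ t) :=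
      (A68.win_cont2 T).comp (continuous_id.prodMk continuous_const)
    fun_prop
  rw [← hGv, intervalIntegral.integral_of_le hab]
  have hmono : ∫ τ in Ioc a b, τ / t * win T τ t ≤ ∫ τ in Ioc a b,
      (win T τ t + 2 / (δ * T) * (HH T * Real.exp (-((τ - t) / HH T) ^ 2 / 4))) := by
    refine setIntegral_mono_on ?_ hGi.integrableOn measurableSet_Ioc fun τ _ => ?_
    · exact (hc.continuousOn.integrableOn_compact isCompact_Icc).mono_set Ioc_subset_Icc_self
    · exact k10_win_point hT hδ ht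
  refine hmono.trans ?_
  refine setIntegral_le_integral hGi (Eventually.of_forall fun τ => ?_)
  have hw := A68.win_pos T τ t
  have : 0 ≤ 2 / (δ * T) * (HH T * Real.exp (-((τ - t) / HH T) ^ 2 / 4)) := by positivity
  exact add_nonneg hw.le this

/-- the Fubini step -/
lemma k10_fubini {T δ a b m : ℝ} (hT : 1 < T) (hδ : 0 < δ) (hδ1 : δ ≤ 1) (hab : a ≤ b)
    {f : ℝ → ℝ} (hf : Continuous f) (hf0 : ∀ t, 0 ≤ f t)
    (hm : ∀ τ ∈ Icc a b, m ≤ ∫ t in (δ * T / 2)..T, f t * (τ / max t (δ * T / 2) * win T τ t)) :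
    (b - a) * m ≤ √π * HH T * (1 + 4 / (δ * Real.log T)) * ∫ t in (0:ℝ)..T, f t := by
  have hH := HH_pos hT
  have hL := Real.log_pos hT
  have hT0 : 0 < T := by linarith
  have hdT : 0 < δ * T := by positivity
  have hdT1 : δ * T / 2 ≤ T := by
    have := mul_le_mul_of_nonneg_right hδ1 hT0.le
    linarith
  have cw := A68.win_cont2 T
  have hmax : ∀ t : ℝ, max t (δ * T / 2) ≠ 0 := fun t =>
    (lt_of_lt_of_le (by positivity) (le_max_right t (δ * T / 2))).ne'
  set F : ℝ → ℝ → ℝ := fun τ t => f t * (τ / max t (δ * T / 2) * win T τ t) with hF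
  have hFc : Continuous (Function.uncurry F) := by
    have e : Function.uncurry F = fun p : ℝ × ℝ =>
      f p.2 * (p.1 / max p.2 (δ * T / 2) * win T p.1 p.2) := rfl
    rw [e]
    have c0 : Continuous (fun p : ℝ × ℝ => p.1 / max p.2 (δ * T / 2)) :=
      continuous_fst.div (continuous_snd.max continuous_const) fun p => hmax p.2
    have c1 : Continuous (fun p : ℝ × ℝ => f p.2) := hf.comp continuous_snd
    exact c1.mul (c0.mul cw)
  have hswap := intervalIntegral_intervalIntegral_swap (F := F) (a := a) (b := b)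
    (c := δ * T / 2) (d := T)
    ((hFc.continuousOn.integrableOn_compact (isCompact_uIcc.prod isCompact_uIcc)).mono_set
      (prod_mono uIoc_subset_uIcc uIoc_subset_uIcc))
  have hinner : Continuous (fun τ => ∫ t in (δ * T / 2)..T, F τ t) :=
    intervalIntegral.continuous_parametric_intervalIntegral_of_continuous' hFc _ T
  have h1 : (b - a) * m ≤ ∫ τ in a..b, ∫ t in (δ * T / 2)..T, F τ t := by
    have := intervalIntegral.integral_mono_on (μ := volume) (a := a) (b := b) (f := fun _ => m)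
      (g := fun τ => ∫ t in (δ * T / 2)..T, F τ t) hab intervalIntegrable_const
      (hinner.intervalIntegrable a b) (fun τ hτ => hm τ hτ)
    rw [intervalIntegral.integral_const, smul_eq_mul] at this
    exact this
  refine h1.trans ?_
  rw [hswap]
  have hFs : Continuous (Function.uncurry fun (t τ : ℝ) => F τ t) := hFc.comp continuous_swap
  have houter : Continuous (fun t : ℝ => ∫ τ in a..b, F τ t) :=
    intervalIntegral.continuous_parametric_intervalIntegral_of_continuous' hFs a b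
  set κ : ℝ := √π * HH T * (1 + 4 / (δ * Real.log T)) with hκ
  have hκ0 : 0 ≤ κ := by rw [hκ]; positivity
  have h2 : ∫ t in (δ * T / 2)..T, ∫ τ in a..b, F τ t ≤ ∫ t in (δ * T / 2)..T, κ * f t := by
    refine intervalIntegral.integral_mono_on hdT1 (houter.intervalIntegrable _ _)
      (Continuous.intervalIntegrable (by fun_prop) _ _) ?_
    intro t ht
    have e : ∫ τ in a..b, F τ t = f t * ∫ τ in a..b, τ / t * win T τ t := by
      rw [← intervalIntegral.integral_const_mul]
      refine intervalIntegral.integral_congr fun τ _ => ?_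
      simp only [hF]
      rw [max_eq_left ht.1]
    rw [e, mul_comm κ]
    exact mul_le_mul_of_nonneg_left (k10_inner hT hδ ht.1 hab) (hf0 t)
  refine h2.trans ?_
  rw [intervalIntegral.integral_const_mul]
  refine mul_le_mul_of_nonneg_left ?_ hκ0
  refine intervalIntegral.integral_mono_interval (by positivity) hdT1 le_rfl
    (Eventually.of_forall fun t => hf0 t) (hf.intervalIntegrable _ _)

/-- integrability of the weighted function -/
lemma k10_int {T δ C : ℝ} {A : ℕ} (hT : 1 < T) (hδ : 0 < δ) {f : ℝ → ℝ} (hf : Continuous f)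
    (hC : ∀ t, |f t| ≤ C * (1 + |t|) ^ A) (τ : ℝ) :
    Integrable (fun t : ℝ => f t * (τ / max t (δ * T / 2) * win T τ t)) := by
  have hT0 : 0 < T := by linarith
  have hdT : 0 < δ * T := by positivity
  have hpos : ∀ t : ℝ, 0 < max t (δ * T / 2) := fun t =>
    lt_of_lt_of_le (by positivity) (le_max_right t (δ * T / 2))
  have hcont : Continuous (fun t : ℝ => f t * (τ / max t (δ * T / 2))) :=
    hf.mul (continuous_const.div (continuous_id.max continuous_const) fun t => (hpos t).ne')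
  have h := A68.int_win hT (f := fun t : ℝ => f t * (τ / max t (δ * T / 2))) hcont
    (C := |τ| / (δ * T / 2) * C) (n := A) (fun t => by
      rw [Real.norm_eq_abs, abs_mul, abs_div, abs_of_pos (hpos t)]
      have h1 : |τ| / max t (δ * T / 2) ≤ |τ| / (δ * T / 2) :=
        div_le_div_of_nonneg_left (abs_nonneg _) (by positivity) (le_max_right _ _)
      calc |f t| * (|τ| / max t (δ * T / 2)) ≤ (C * (1 + |t|) ^ A) * (|τ| / (δ * T / 2)) :=
            mul_le_mul (hC t) h1 (by have := hpos t; positivity) ((abs_nonneg _).trans (hC t))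
        _ = |τ| / (δ * T / 2) * C * (1 + |t|) ^ A := by ring) τ
  refine h.congr (Eventually.of_forall fun t => ?_)
  simp only [smul_eq_mul]
  ring

/-- the tail beyond `T` -/
lemma k10_tail {C : ℝ} (hC0 : 0 ≤ C) (A : ℕ) {δ : ℝ} (hδ : 0 < δ) (hδ1 : δ ≤ 1) :
    ∃ T₀ : ℝ, ∀ T ≥ T₀, ∀ f : ℝ → ℝ, Continuous f → (∀ t, 0 ≤ f t) →
      (∀ t, f t ≤ C * (T * (1 + |t|)) ^ A) → ∀ τ, δ * T ≤ τ → τ ≤ (1 - δ) * T →
      ∫ t in Ioi T, f t * (τ / max t (δ * T / 2) * win T τ t) ≤ 1 := by
  set K : ℝ := C * ((3 : ℝ) ^ A * (A.factorial * Real.exp (3 / 2))) * (2 * √π) with hK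
  refine ⟨Real.exp (max 1 (max (4 * (2 * A + 2) / δ ^ 2) K)), fun T hT f hfc hf0 hfC τ h0 h1 => ?_⟩
  have hT0 : 0 < T := lt_of_lt_of_le (Real.exp_pos _) hT
  have hT1 : Real.exp 1 ≤ T := le_trans (Real.exp_le_exp.2 (le_max_left _ _)) hT
  have hTT : 1 < T := lt_of_lt_of_le
    (by have := Real.add_one_lt_exp (show (1:ℝ) ≠ 0 by norm_num); linarith) hT1
  have hL : max 1 (max (4 * (2 * A + 2) / δ ^ 2) K) ≤ Real.log T := by
    rw [Real.le_log_iff_exp_le hT0]; exact hT
  have hL1 : 1 ≤ Real.log T := (le_max_left _ _).trans hL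
  have hL2 : 4 * (2 * A + 2) / δ ^ 2 ≤ Real.log T :=
    ((le_max_left _ _).trans (le_max_right _ _)).trans hL
  have hL3 : K ≤ Real.log T := ((le_max_right _ _).trans (le_max_right _ _)).trans hL
  have hτ0 : 0 ≤ τ := le_trans (by positivity) h0
  have hτ1 : τ ≤ T := by
    have := mul_pos hδ hT0
    linarith
  have hH := HH_pos hTT
  have hHT := A68.HH_le hT1
  have hdT1 : δ * T / 2 ≤ T := by
    have := mul_le_mul_of_nonneg_right hδ1 hT0.le
    linarith
  have hpt : ∀ t ∈ Ioi T, f t * (τ / max t (δ * T / 2) * win T τ t) ≤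
      (C * T ^ A * ((3 * T) ^ A * (A.factorial * Real.exp (3 / 2))) *
      Real.exp (-(δ ^ 2 * Real.log T ^ 2 / 4))) * Real.exp (-((t - τ) / HH T) ^ 2 / 4) := by
    intro t ht
    have ht' : T < t := ht
    have ht0 : 0 < t := hT0.trans ht'
    have hw := A68.win_pos T τ t
    have hm : max t (δ * T / 2) = t := max_eq_left (by linarith)
    rw [hm]
    have hu : δ * Real.log T ≤ |(t - τ) / HH T| := by
      rw [abs_div, abs_of_pos hH, le_div_iff₀ hH]
      unfold HH
      have e : δ * Real.log T * (T / Real.log T) = δ * T := by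
        have : Real.log T ≠ 0 := by linarith
        field_simp
      rw [e, abs_of_nonneg (by linarith)]
      linarith
    have hu2 : δ ^ 2 * Real.log T ^ 2 ≤ ((t - τ) / HH T) ^ 2 := by
      rw [← sq_abs ((t - τ) / HH T), ← mul_pow]
      exact pow_le_pow_left₀ (by positivity) hu 2
    have hq : τ / t ≤ 1 := by rw [div_le_one ht0]; linarith
    have hq0 : 0 ≤ τ / t := by positivity
    have hτ : |τ| ≤ T := by rw [abs_of_nonneg hτ0]; exact hτ1
    calc f t * (τ / t * win T τ t) ≤ (C * (T * (1 + |t|)) ^ A) * (1 * win T τ t) := by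
          have := hfC t
          gcongr
      _ = C * T ^ A * ((1 + |t|) ^ A * win T τ t) := by rw [mul_pow]; ring
      _ ≤ C * T ^ A * (((1 + |τ| + HH T) ^ A * (A.factorial * Real.exp (3 / 2))) *
            Real.exp (-((t - τ) / HH T) ^ 2 / 2)) :=
          mul_le_mul_of_nonneg_left (A68.pow_win_le hTT A τ t) (by positivity)
      _ ≤ C * T ^ A * (((3 * T) ^ A * (A.factorial * Real.exp (3 / 2))) *
            (Real.exp (-(δ ^ 2 * Real.log T ^ 2 / 4)) * Real.exp (-((t - τ) / HH T) ^ 2 / 4))) := by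
          rw [← Real.exp_add]
          gcongr
          · linarith
          · linarith
      _ = _ := by ring
  have hfC' : ∀ t, |f t| ≤ (C * T ^ A) * (1 + |t|) ^ A := by
    intro t
    rw [abs_of_nonneg (hf0 t)]
    refine (hfC t).trans (le_of_eq ?_)
    rw [mul_pow]; ring
  have hgi := (A68.gauss4_int hTT τ).const_mul
    (C * T ^ A * ((3 * T) ^ A * (A.factorial * Real.exp (3 / 2))) *
      Real.exp (-(δ ^ 2 * Real.log T ^ 2 / 4)))
  have hle := (setIntegral_mono_on (k10_int hTT hδ hfc hfC' τ).integrableOn hgi.integrableOn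
      measurableSet_Ioi hpt).trans
      (setIntegral_le_integral hgi (Eventually.of_forall fun t => by positivity))
  refine hle.trans ?_
  rw [integral_const_mul, A68.gauss4_val hTT]
  have hexp : T ^ (2 * A + 1) * Real.exp (-(δ ^ 2 * Real.log T ^ 2 / 4)) ≤ (Real.log T)⁻¹ := by
    have e7 : T ^ (2 * A + 1) = Real.exp ((2 * A + 1) * Real.log T) := by
      have : T ^ (2 * A + 1) = Real.exp (Real.log T) ^ (2 * A + 1) := by rw [Real.exp_log hT0]
      rw [this, ← Real.exp_nat_mul]
      push_cast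
      ring_nf
    rw [e7, ← Real.exp_add]
    have h4 : (2 * A + 1) * Real.log T + -(δ ^ 2 * Real.log T ^ 2 / 4) ≤ -Real.log T := by
      have h5 : 4 * (2 * A + 2) ≤ δ ^ 2 * Real.log T := by
        rw [div_le_iff₀ (by positivity)] at hL2
        linarith
      have h6 := mul_le_mul_of_nonneg_right h5 (show 0 ≤ Real.log T by linarith)
      linarith
    refine (Real.exp_le_exp.2 h4).trans ?_
    rw [Real.exp_neg]
    have h6 : Real.log T ≤ Real.exp (Real.log T) := by
      have := Real.add_one_le_exp (Real.log T)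
      linarith
    exact inv_anti₀ (by linarith) h6
  calc C * T ^ A * ((3 * T) ^ A * (A.factorial * Real.exp (3 / 2))) *
      Real.exp (-(δ ^ 2 * Real.log T ^ 2 / 4)) * (2 * √π * HH T)
      ≤ C * T ^ A * ((3 * T) ^ A * (A.factorial * Real.exp (3 / 2))) *
      Real.exp (-(δ ^ 2 * Real.log T ^ 2 / 4)) * (2 * √π * T) := by
        gcongr
    _ = K * (T ^ (2 * A + 1) * Real.exp (-(δ ^ 2 * Real.log T ^ 2 / 4))) := by
        rw [hK, mul_pow]; ring
    _ ≤ K * (Real.log T)⁻¹ := mul_le_mul_of_nonneg_left hexp (by rw [hK]; positivity)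
    _ ≤ 1 := by
        rw [← div_eq_mul_inv, div_le_one (by linarith)]
        exact hL3

/-- uniformity in the centre -/
lemma k10_unif {J : ℝ → ℝ → ℝ} {N : ℝ → ℝ} {c δ : ℝ} (hδ1 : δ ≤ 1 / 4)
    (h : ∀ τ : ℝ → ℝ, CenS δ τ → ∀ᶠ T : ℝ in atTop, c * N T ≤ J T (τ T)) :
    ∃ T₀ : ℝ, ∀ T ≥ T₀, ∀ τ, δ * T ≤ τ → τ ≤ (1 - δ) * T → c * N T ≤ J T τ := by
  classical
  by_contra hcon
  push Not at hcon
  let bad : ℝ → ℝ → Prop := fun T τ => δ * T ≤ τ ∧ τ ≤ (1 - δ) * T ∧ J T τ < c * N T
  let τ₀ : ℝ → ℝ := fun T => if hx : ∃ τ, bad T τ then hx.choose else δ * T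
  have h1 : CenS δ τ₀ := by
    filter_upwards [eventually_ge_atTop (0:ℝ)] with T hT
    by_cases hx : ∃ τ, bad T τ
    · have e : τ₀ T = hx.choose := dif_pos hx
      rw [e]
      exact ⟨hx.choose_spec.1, hx.choose_spec.2.1⟩
    · have e : τ₀ T = δ * T := dif_neg hx
      rw [e]
      exact ⟨le_rfl, by
        have := mul_le_mul_of_nonneg_right hδ1 hT
        linarith⟩
  have h2 := h τ₀ h1
  rw [eventually_atTop] at h2
  obtain ⟨T₁, hT₁⟩ := h2
  obtain ⟨T, hT, τ, ha, hb, hlt⟩ := hcon T₁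
  have hx : ∃ τ, bad T τ := ⟨τ, ha, hb, hlt⟩
  have e : τ₀ T = hx.choose := dif_pos hx
  have h3 := hT₁ T hT
  rw [e] at h3
  exact absurd h3 (not_le.2 hx.choose_spec.2.2)

/-- **K10.** -/
theorem averaging {g : ℝ → ℝ → ℝ} (hc : ∀ T, Continuous (g T)) (h0 : ∀ T t, 0 ≤ g T t)
    (hb : ∃ (C : ℝ) (A : ℕ), 0 ≤ C ∧ ∀ T : ℝ, 2 ≤ T → ∀ t, g T t ≤ C * (T * (1 + |t|)) ^ A) {V : ℝ}
    (h : ∀ δ : ℝ, 0 < δ → δ ≤ 1 / 4 → ∀ τ : ℝ → ℝ, CenS δ τ → ∀ c' < V, ∀ᶠ T : ℝ in atTop,
      c' * NN T ≤ ∫ t in Ioi (δ * T / 2), g T t * ww T (τ T) t) :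
    ∀ c' < V, ∀ᶠ T : ℝ in atTop, c' * Real.log T ^ 9 ≤ T⁻¹ * ∫ t in (0 : ℝ)..T, g T t := by
  intro c' hc'
  rcases le_or_gt c' 0 with hneg | hpos
  · filter_upwards [eventually_ge_atTop (1:ℝ)] with T hT
    have hL : 0 ≤ Real.log T := Real.log_nonneg hT
    have h1 : c' * Real.log T ^ 9 ≤ 0 := mul_nonpos_of_nonpos_of_nonneg hneg (by positivity)
    have h2 : 0 ≤ ∫ t in (0 : ℝ)..T, g T t :=
      intervalIntegral.integral_nonneg (by linarith) fun t _ => h0 T t
    have h3 : 0 ≤ T⁻¹ * ∫ t in (0 : ℝ)..T, g T t := mul_nonneg (by positivity) h2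
    linarith
  · obtain ⟨C, A, hC0, hCb⟩ := hb
    set c2 : ℝ := (c' + V) / 2 with hc2
    have h12 : c' < c2 := by rw [hc2]; linarith
    have h2V : c2 < V := by rw [hc2]; linarith
    have hc20 : 0 < c2 := hpos.trans h12
    set δ : ℝ := (c2 - c') / (4 * c2) with hδ
    have hδ0 : 0 < δ := by rw [hδ]; exact div_pos (by linarith) (by linarith)
    have hδ1 : δ ≤ 1 / 4 := by
      rw [hδ, div_le_iff₀ (by linarith)]; linarith
    set c3 : ℝ := (c' + c2) / 2 with hc3
    have hδc : (1 - 2 * δ) * c2 = c3 := by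
      rw [hδ, hc3]; field_simp; ring
    have h13 : c' < c3 := by rw [hc3]; linarith
    obtain ⟨T₀, hT₀⟩ := k10_unif (J := fun T τ => ∫ t in Ioi (δ * T / 2), g T t * ww T τ t)
      (N := NN) (c := c2) hδ1 (fun τ hτ => h δ hδ0 hδ1 τ hτ c2 h2V)
    obtain ⟨T₁, hT₁⟩ := k10_tail hC0 A hδ0 (by linarith : δ ≤ 1)
    have hlog := Real.tendsto_log_atTop
    -- smallness of `4 / (δ L)` and of `1 / (√π H)`
    have hev1 := hlog.eventually_ge_atTop (8 * c' / (δ * (c3 - c')))
    have hlim : Tendsto (fun T : ℝ => HH T) atTop atTop := by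
      unfold HH
      have h1 : Tendsto (fun T : ℝ => Real.log T / T) atTop (𝓝 0) := by
        have := Real.isLittleO_log_id_atTop.tendsto_div_nhds_zero
        simpa using this
      have h2 : Tendsto (fun T : ℝ => Real.log T / T) atTop (𝓝[>] 0) := by
        rw [tendsto_nhdsWithin_iff]
        refine ⟨h1, ?_⟩
        filter_upwards [eventually_gt_atTop 1] with T hT
        exact div_pos (Real.log_pos hT) (by linarith)
      have h3 := h2.inv_tendsto_nhdsGT_zero
      refine h3.congr fun T => ?_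
      simp [inv_div]
    have hev2 := hlim.eventually_ge_atTop (2 / (c3 - c'))
    filter_upwards [hev1, hev2, eventually_ge_atTop T₀, eventually_ge_atTop T₁,
      eventually_ge_atTop (Real.exp 1), eventually_ge_atTop (2:ℝ)] with T hTL hTH hTa hTb hTe hT2
    have hT0 : 0 < T := by linarith
    have hTT : 1 < T := by linarith
    have hL1 : 1 ≤ Real.log T := by rw [Real.le_log_iff_exp_le hT0]; exact hTe
    have hH := HH_pos hTT
    have hπ : 0 < √π := Real.sqrt_pos.2 Real.pi_pos
    have hπ1 : 1 ≤ √π := by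
      rw [Real.one_le_sqrt]; linarith [Real.pi_gt_three]
    have hdT : 0 < δ * T := by positivity
    have hdT1 : δ * T / 2 ≤ T := by
      have := mul_le_mul_of_nonneg_right hδ1 hT0.le
      linarith
    have hgb : ∀ t, |g T t| ≤ (C * T ^ A) * (1 + |t|) ^ A := by
      intro t
      rw [abs_of_nonneg (h0 T t)]
      refine (hCb T hT2 t).trans (le_of_eq ?_)
      rw [mul_pow]; ring
    -- the integral over `[δT/2, T]`
    have hinner : ∀ τ ∈ Icc (δ * T) ((1 - δ) * T), c2 * NN T - 1 ≤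
        ∫ t in (δ * T / 2)..T, g T t * (τ / max t (δ * T / 2) * win T τ t) := by
      intro τ hτ
      have hint := k10_int hTT hδ0 (hc T) hgb τ
      have e1 : ∫ t in Ioi (δ * T / 2), g T t * ww T τ t =
          ∫ t in Ioi (δ * T / 2), g T t * (τ / max t (δ * T / 2) * win T τ t) := by
        refine setIntegral_congr_fun measurableSet_Ioi fun t ht => ?_
        have ht' : δ * T / 2 < t := ht
        simp only [ww, max_eq_left ht'.le]
      have e2 : ∫ t in Ioi (δ * T / 2), g T t * (τ / max t (δ * T / 2) * win T τ t) =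
          (∫ t in (δ * T / 2)..T, g T t * (τ / max t (δ * T / 2) * win T τ t)) +
            ∫ t in Ioi T, g T t * (τ / max t (δ * T / 2) * win T τ t) := by
        rw [intervalIntegral.integral_of_le hdT1, ← setIntegral_union (Ioc_disjoint_Ioi le_rfl)
          measurableSet_Ioi hint.integrableOn hint.integrableOn, Ioc_union_Ioi_eq_Ioi hdT1]
      have h5 := hT₀ T hTa τ hτ.1 hτ.2
      have h6 := hT₁ T hTb (g T) (hc T) (h0 T) (hCb T hT2) τ hτ.1 hτ.2
      rw [e1, e2] at h5
      linarith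
    have hmain := k10_fubini hTT hδ0 (by linarith) (a := δ * T) (b := (1 - δ) * T)
      (m := c2 * NN T - 1) (by have := mul_le_mul_of_nonneg_right hδ1 hT0.le; linarith) (hc T) (h0 T) hinner
    set X : ℝ := ∫ t in (0:ℝ)..T, g T t with hX
    set L : ℝ := Real.log T with hLdef
    have hX0 : 0 ≤ X := intervalIntegral.integral_nonneg (by linarith) fun t _ => h0 T t
    by_contra hcon
    rw [not_le] at hcon
    have hXlt : X < c' * L ^ 9 * T := by
      have := mul_lt_mul_of_pos_right hcon hT0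
      have e : T⁻¹ * X * T = X := by field_simp
      rw [e] at this
      exact this
    have hL9 : 1 ≤ L ^ 9 := one_le_pow₀ hL1
    -- (1 + 4/(δ L)) c' ≤ (c' + c3)/2
    have hε : 4 / (δ * L) * c' ≤ (c3 - c') / 2 := by
      have h7 : 8 * c' ≤ L * (δ * (c3 - c')) := by
        rwa [div_le_iff₀ (mul_pos hδ0 (by linarith))] at hTL
      rw [div_mul_eq_mul_div, div_le_iff₀ (by positivity)]
      linarith
    have hH2 : 2 ≤ HH T * (c3 - c') := by
      rwa [div_le_iff₀ (by linarith)] at hTH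
    have hkey : T * (c3 * NN T - 1) ≤ √π * HH T * (1 + 4 / (δ * L)) * X := by
      refine le_trans ?_ hmain
      have e1 : ((1 - δ) * T - δ * T) * (c2 * NN T - 1) = T * (c3 * NN T - (1 - 2 * δ)) := by
        rw [← hδc]; ring
      rw [e1]
      refine mul_le_mul_of_nonneg_left ?_ hT0.le
      linarith
    have hNN : NN T = HH T * √π * L ^ 9 := rfl
    have hup : √π * HH T * (1 + 4 / (δ * L)) * X <
        √π * HH T * ((c' + (c3 - c') / 2) * (L ^ 9 * T)) := by
      have h8 : 0 < 1 + 4 / (δ * L) := by positivity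
      calc √π * HH T * (1 + 4 / (δ * L)) * X < √π * HH T * (1 + 4 / (δ * L)) * (c' * L ^ 9 * T) := by
            gcongr
        _ = √π * HH T * ((c' + 4 / (δ * L) * c') * (L ^ 9 * T)) := by ring
        _ ≤ _ := by gcongr
    have hlow : √π * HH T * ((c' + (c3 - c') / 2) * (L ^ 9 * T)) ≤ T * (c3 * NN T - 1) := by
      rw [hNN]
      have h9 : 1 ≤ (c3 - c') / 2 * (HH T * √π * L ^ 9) := by
        have h10 : HH T * 1 ≤ HH T * √π := mul_le_mul_of_nonneg_left hπ1 hH.le
        have h11 : HH T * √π * 1 ≤ HH T * √π * L ^ 9 := mul_le_mul_of_nonneg_left hL9 (by positivity)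
        have h12 := mul_le_mul_of_nonneg_left (show HH T ≤ HH T * √π * L ^ 9 by linarith)
          (show (0:ℝ) ≤ (c3 - c') / 2 by linarith)
        linarith
      have e : √π * HH T * ((c' + (c3 - c') / 2) * (L ^ 9 * T)) =
          T * ((c3 - (c3 - c') / 2) * (HH T * √π * L ^ 9)) := by ring
      rw [e]
      refine mul_le_mul_of_nonneg_left ?_ hT0.le
      linarith
    linarith

end K3

end
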