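import Pool.Agent.Lib.MP_39df77_nt.Part17
import Pool.Agent.Lib.MP_069854_nt.Part04

section

/-!
# MP_069854_nt, row K02c
-/

namespace K3
open Complex MeasureTheory Filter Topology Set S6
open scoped Real ComplexConjugate

/-- **K02c.** `BB G T (t + a/L) = ∑ (coefficient) e^{i t fr} e^{i a fr/L}` and
`fr/L = th(log m₁/L, log m₂/L, log n/L)`; split `e^{iaθ} = cos + i sin` and use K02b. -/
theorem BS_eq {Ψ : ℝ × ℝ × ℝ → ℝ} (h : ContDiff ℝ (⊤ : ℕ∞) Ψ) (a : ℝ) {T : ℝ} (hT : 1 < T)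
    (t : ℝ) : BS Ψ a T t = BB (GG fun p => Ψ p * Real.cos (a * th p)) T t +
      I * BB (GG fun p => Ψ p * Real.sin (a * th p)) T t := by
  have hL : Real.log T ≠ 0 := (Real.log_pos hT).ne'
  have hc : ContDiff ℝ (⊤ : ℕ∞) (fun s : ℝ => Real.cos (a * s)) :=
    Real.contDiff_cos.comp (contDiff_const.mul contDiff_id)
  have hs : ContDiff ℝ (⊤ : ℕ∞) (fun s : ℝ => Real.sin (a * s)) :=
    Real.contDiff_sin.comp (contDiff_const.mul contDiff_id)
  unfold BS BB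
  rw [Finset.mul_sum, ← Finset.sum_add_distrib]
  refine Finset.sum_congr rfl fun x _ => ?_
  have h1 : cf (GG fun p => Ψ p * Real.cos (a * th p)) T x =
      cf (GG Ψ) T x * Real.cos (a * ((Real.log x.2.2 - Real.log x.1 - Real.log x.2.1) /
        Real.log T)) := by
    unfold cf
    rw [GG_mul_fn (g := fun s : ℝ => Real.cos (a * s)) h hc]
    congr 3
    unfold th
    simp only
    rw [sub_div, sub_div]
  have h2 : cf (GG fun p => Ψ p * Real.sin (a * th p)) T x =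
      cf (GG Ψ) T x * Real.sin (a * ((Real.log x.2.2 - Real.log x.1 - Real.log x.2.1) /
        Real.log T)) := by
    unfold cf
    rw [GG_mul_fn (g := fun s : ℝ => Real.sin (a * s)) h hs]
    congr 3
    unfold th
    simp only
    rw [sub_div, sub_div]
  rw [h1, h2]
  set f : ℝ := Real.log x.2.2 - Real.log x.1 - Real.log x.2.1 with hf
  set w : ℝ := (√((x.1 : ℝ) * x.2.1 * x.2.2))⁻¹ with hw
  have h3 : cexp ((((t + a / Real.log T) * f : ℝ) : ℂ) * I) =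
      cexp (((t * f : ℝ) : ℂ) * I) * (Complex.cos ((a * (f / Real.log T) : ℝ) : ℂ) +
        Complex.sin ((a * (f / Real.log T) : ℝ) : ℂ) * I) := by
    rw [← Complex.exp_mul_I, ← Complex.exp_add]
    congr 1
    have : (t + a / Real.log T) * f = t * f + a * (f / Real.log T) := by
      field_simp
    rw [this]
    push_cast
    ring
  rw [h3]
  push_cast
  ring

end K3

end

section

namespace K3
open Complex MeasureTheory Filter Topology Set S6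
open scoped Real ComplexConjugate

theorem k04a_BS0 (Ψ : ℝ × ℝ × ℝ → ℝ) (T t : ℝ) : BS Ψ 0 T t = BB (GG Ψ) T t := by
  simp [BS]

/-- the case `a = 0` -/
theorem k04a_zero {R : Set (ℝ × ℝ × ℝ)} (hR : GoodReg R) {Ψ : ℝ × ℝ × ℝ → ℝ} (h : SF R Ψ) :
    HasMean (fun T t => ((‖ze t‖ ^ 2 : ℝ) : ℂ) * ze t * conj (BB (GG Ψ) T t))
      ((A3 * ∫ p, Ψ p * PP p : ℝ) : ℂ) := by
  refine ⟨fun T => ?_, ?_, fun δ hδ τ hτ => ?_⟩
  · have h1 : Continuous fun t => BB (GG Ψ) T t := A68.BB_cont _ _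
    have h2 := ze_cont
    fun_prop
  · obtain ⟨C1, hC1, h1⟩ := ze_bdd
    obtain ⟨C2, hC2, h2⟩ := BS_bdd h.smooth h.hcs 0
    refine ⟨C1 ^ 3 * C2, 3, by positivity, fun T hT t => ?_⟩
    have h2' := h2 T (by linarith) t
    rw [k04a_BS0] at h2'
    have h1' := h1 t
    have e : ‖((‖ze t‖ ^ 2 : ℝ) : ℂ) * ze t * conj (BB (GG Ψ) T t)‖ =
        ‖ze t‖ ^ 3 * ‖BB (GG Ψ) T t‖ := by
      rw [norm_mul, norm_mul, Complex.norm_real, RCLike.norm_conj, Real.norm_of_nonneg (by positivity)]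
      ring
    rw [e]
    calc ‖ze t‖ ^ 3 * ‖BB (GG Ψ) T t‖ ≤ (C1 * (1 + |t|)) ^ 3 * (C2 * T ^ 3) := by
          gcongr
      _ = C1 ^ 3 * C2 * (T * (1 + |t|)) ^ 3 := by ring
  · have := hR.lim Ψ h δ hδ τ hτ
    refine this.congr fun T => ?_
    rw [I2]
    rfl

theorem k04a_int {Ψ : ℝ × ℝ × ℝ → ℝ} (hc : Continuous Ψ) (hs : HasCompactSupport Ψ)
    {w : ℝ × ℝ × ℝ → ℝ} (hw : Continuous w) : Integrable fun p : ℝ × ℝ × ℝ => Ψ p * w p :=
  (hc.mul hw).integrable_of_hasCompactSupport hs.mul_right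

theorem k04a_mPP {Ψ : ℝ × ℝ × ℝ → ℝ} (hc : Continuous Ψ) (hs : HasCompactSupport Ψ) (a : ℝ) :
    mPP Ψ a = ((A3 * ∫ p, Ψ p * Real.cos (a * th p) * PP p : ℝ) : ℂ) +
      (-I) * ((A3 * ∫ p, Ψ p * Real.sin (a * th p) * PP p : ℝ) : ℂ) := by
  have hth : Continuous th := by unfold th; fun_prop
  have hPP : Continuous PP := by unfold PP; fun_prop
  have i1 : Integrable fun p : ℝ × ℝ × ℝ => Ψ p * Real.cos (a * th p) * PP p := by
    have := k04a_int hc hs (w := fun p => Real.cos (a * th p) * PP p) (by fun_prop)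
    simpa [mul_assoc] using this
  have i2 : Integrable fun p : ℝ × ℝ × ℝ => Ψ p * Real.sin (a * th p) * PP p := by
    have := k04a_int hc hs (w := fun p => Real.sin (a * th p) * PP p) (by fun_prop)
    simpa [mul_assoc] using this
  have e : ∀ p : ℝ × ℝ × ℝ, ((Ψ p * PP p : ℝ) : ℂ) * cexp (-(((a * th p : ℝ) : ℂ) * I)) =
      ((Ψ p * Real.cos (a * th p) * PP p : ℝ) : ℂ) +
        (-I) * ((Ψ p * Real.sin (a * th p) * PP p : ℝ) : ℂ) := by
    intro p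
    rw [← neg_mul, Complex.exp_mul_I, Complex.cos_neg, Complex.sin_neg]
    push_cast
    ring
  unfold mPP
  simp_rw [e]
  rw [integral_add i1.ofReal (i2.ofReal.const_mul _), integral_const_mul, integral_complex_ofReal,
    integral_complex_ofReal]
  push_cast
  ring

theorem mean_cross {R : Set (ℝ × ℝ × ℝ)} (hR : GoodReg R) {Ψ : ℝ × ℝ × ℝ → ℝ} (h : SF R Ψ) (a : ℝ) :
    HasMean (fun T t => ((‖ze t‖ ^ 2 : ℝ) : ℂ) * ze t * conj (BS Ψ a T t)) (mPP Ψ a) := by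
  have hcos : ContDiff ℝ (⊤ : ℕ∞) fun u : ℝ => Real.cos (a * u) := by fun_prop
  have hsin : ContDiff ℝ (⊤ : ℕ∞) fun u : ℝ => Real.sin (a * u) := by fun_prop
  have m1 := k04a_zero hR (h.mul_fn hcos)
  have m2 := k04a_zero hR (h.mul_fn hsin)
  have m := m1.add (m2.const_mul (-I))
  rw [k04a_mPP h.smooth.continuous h.hcs a]
  refine m.congr (fun T => ?_) fun T hT t => ?_
  · have h1 := BS_cont Ψ a T
    have h2 := ze_cont
    fun_prop
  · rw [BS_eq h.smooth a hT t, map_add, map_mul, Complex.conj_I]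
    ring

end K3

end

section

namespace K3
open Complex MeasureTheory Filter Topology Set S6
open scoped Real ComplexConjugate

theorem k04b_Dv_add (v : ℝ × ℝ × ℝ) {f g : ℝ × ℝ × ℝ → ℝ} (hf : ContDiff ℝ (⊤ : ℕ∞) f)
    (hg : ContDiff ℝ (⊤ : ℕ∞) g) : Dv v (fun p => f p + g p) = fun p => Dv v f p + Dv v g p := by
  funext p
  unfold Dv
  rw [fderiv_fun_add (hf.differentiable (by simp) p) (hg.differentiable (by simp) p)]
  rfl

theorem k04b_Dv_sub (v : ℝ × ℝ × ℝ) {f g : ℝ × ℝ × ℝ → ℝ} (hf : ContDiff ℝ (⊤ : ℕ∞) f)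
    (hg : ContDiff ℝ (⊤ : ℕ∞) g) : Dv v (fun p => f p - g p) = fun p => Dv v f p - Dv v g p := by
  funext p
  unfold Dv
  rw [fderiv_fun_sub (hf.differentiable (by simp) p) (hg.differentiable (by simp) p)]
  rfl

theorem k04b_GG_add {f g : ℝ × ℝ × ℝ → ℝ} (hf : ContDiff ℝ (⊤ : ℕ∞) f)
    (hg : ContDiff ℝ (⊤ : ℕ∞) g) : GG (fun p => f p + g p) = fun p => GG f p + GG g p := by
  unfold GG
  rw [k04b_Dv_add _ hf hg, k04b_Dv_add _ (TF_GG_smooth hf _) (TF_GG_smooth hg _),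
    k04b_Dv_add _ (TF_GG_smooth (TF_GG_smooth hf _) _) (TF_GG_smooth (TF_GG_smooth hg _) _)]

theorem k04b_GG_sub {f g : ℝ × ℝ × ℝ → ℝ} (hf : ContDiff ℝ (⊤ : ℕ∞) f)
    (hg : ContDiff ℝ (⊤ : ℕ∞) g) : GG (fun p => f p - g p) = fun p => GG f p - GG g p := by
  unfold GG
  rw [k04b_Dv_sub _ hf hg, k04b_Dv_sub _ (TF_GG_smooth hf _) (TF_GG_smooth hg _),
    k04b_Dv_sub _ (TF_GG_smooth (TF_GG_smooth hf _) _) (TF_GG_smooth (TF_GG_smooth hg _) _)]

theorem k04b_BB_add (G₁ G₂ : ℝ × ℝ × ℝ → ℝ) (T t : ℝ) :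
    BB (fun p => G₁ p + G₂ p) T t = BB G₁ T t + BB G₂ T t := by
  unfold BB cf
  rw [← Finset.sum_add_distrib]
  refine Finset.sum_congr rfl fun x _ => ?_
  push_cast
  ring

theorem k04b_BB_sub (G₁ G₂ : ℝ × ℝ × ℝ → ℝ) (T t : ℝ) :
    BB (fun p => G₁ p - G₂ p) T t = BB G₁ T t - BB G₂ T t := by
  unfold BB cf
  rw [← Finset.sum_sub_distrib]
  refine Finset.sum_congr rfl fun x _ => ?_
  push_cast
  ring

theorem k04b_bc_le {G : ℝ × ℝ × ℝ → ℝ} {M : ℝ} (hM : ∀ p, ‖G p‖ ≤ M) {T : ℝ} {x : ℕ × ℕ × ℕ}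
    (hx : x ∈ tri T) : |bc G T x| ≤ M := by
  have hM0 : 0 ≤ M := (norm_nonneg _).trans (hM 0)
  obtain ⟨⟨a1, -⟩, ⟨a2, -⟩, ⟨a3, -⟩⟩ := mem_tri.1 hx
  unfold bc
  rw [abs_mul]
  have h1 : |cf G T x| ≤ M := hM _
  have h2 : 1 ≤ √((x.1 : ℝ) * x.2.1 * x.2.2) := by
    rw [show (1:ℝ) = √1 by simp]
    refine Real.sqrt_le_sqrt ?_
    have : 1 ≤ x.1 * x.2.1 * x.2.2 := Nat.one_le_iff_ne_zero.2 (by positivity)
    exact_mod_cast this
  have h3 : |(√((x.1 : ℝ) * x.2.1 * x.2.2))⁻¹| ≤ 1 := by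
    rw [abs_of_nonneg (by positivity)]
    exact inv_le_one_of_one_le₀ h2
  calc |cf G T x| * |(√((x.1 : ℝ) * x.2.1 * x.2.2))⁻¹| ≤ M * 1 := by gcongr
    _ = M := mul_one M

theorem k04b_BB_le {G : ℝ × ℝ × ℝ → ℝ} {M : ℝ} (hM : ∀ p, ‖G p‖ ≤ M) {T : ℝ} (hT : 0 ≤ T) (t : ℝ) :
    ‖BB G T t‖ ≤ M * T ^ 3 := by
  have hM0 : 0 ≤ M := (norm_nonneg _).trans (hM 0)
  rw [BB_eq]
  refine (norm_sum_le _ _).trans ?_
  have : ∀ x ∈ tri T, ‖(bc G T x : ℂ) * cexp (((t * fr x : ℝ) : ℂ) * I)‖ ≤ M := by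
    intro x hx
    rw [norm_mul, Complex.norm_exp_ofReal_mul_I, mul_one, Complex.norm_real]
    exact k04b_bc_le hM hx
  refine (Finset.sum_le_sum this).trans ?_
  rw [Finset.sum_const, nsmul_eq_mul, mul_comm]
  exact mul_le_mul_of_nonneg_left (card_tri hT) hM0

theorem k04b_int {g : ℝ → ℂ} (hg : Continuous g) {C : ℝ} (hC : ∀ t, ‖g t‖ ≤ C) {T : ℝ} (hT : 1 < T)
    (τ : ℝ) : Integrable fun t : ℝ => g t * ((win T τ t : ℝ) : ℂ) := by
  have hwc : Continuous (win T τ) := by unfold win; fun_prop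
  refine ((win_integrable hT τ).const_mul C).mono'
    (Continuous.aestronglyMeasurable (by fun_prop)) (Eventually.of_forall fun t => ?_)
  have hw : 0 ≤ win T τ t := (Real.exp_pos _).le
  rw [norm_mul, Complex.norm_real, Real.norm_of_nonneg hw]
  exact mul_le_mul_of_nonneg_right (hC t) hw

theorem k04b_prod (G₁ G₂ : ℝ × ℝ × ℝ → ℝ) (T t : ℝ) :
    BB G₁ T t * conj (BB G₂ T t) = ∑ x ∈ tri T, ∑ y ∈ tri T, ((bc G₁ T x * bc G₂ T y : ℝ) : ℂ) *
      cexp (((t * (fr x - fr y) : ℝ) : ℂ) * I) := by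
  rw [BB_eq, BB_eq, map_sum, Finset.sum_mul_sum]
  refine Finset.sum_congr rfl fun x _ => Finset.sum_congr rfl fun y _ => ?_
  rw [map_mul, conj_ofReal, ← Complex.exp_conj, map_mul, conj_ofReal, conj_I]
  have : cexp (((t * (fr x - fr y) : ℝ) : ℂ) * I) =
      cexp (((t * fr x : ℝ) : ℂ) * I) * cexp (((t * fr y : ℝ) : ℂ) * -I) := by
    rw [← Complex.exp_add]; congr 1; push_cast; ring
  rw [this]
  push_cast
  ring

theorem k04b_expand (G₁ G₂ : ℝ × ℝ × ℝ → ℝ) {T : ℝ} (hT : 1 < T) (τ : ℝ) :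
    ∫ t : ℝ, BB G₁ T t * conj (BB G₂ T t) * ((win T τ t : ℝ) : ℂ) =
      ∑ x ∈ tri T, ∑ y ∈ tri T, ((bc G₁ T x * bc G₂ T y : ℝ) : ℂ) *
      ((HH T * √π * Real.exp (-(HH T * (fr x - fr y) / 2) ^ 2) : ℝ) *
        cexp (((τ * (fr x - fr y) : ℝ) : ℂ) * I)) := by
  have hwc : Continuous (win T τ) := by unfold win; fun_prop
  have h2 : ∀ t : ℝ, BB G₁ T t * conj (BB G₂ T t) * ((win T τ t : ℝ) : ℂ) =
      ∑ x ∈ tri T, ∑ y ∈ tri T, ((bc G₁ T x * bc G₂ T y : ℝ) : ℂ) *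
        (cexp (((t * (fr x - fr y) : ℝ) : ℂ) * I) * (win T τ t : ℂ)) := by
    intro t
    rw [k04b_prod, Finset.sum_mul]
    refine Finset.sum_congr rfl fun x _ => ?_
    rw [Finset.sum_mul]
    refine Finset.sum_congr rfl fun y _ => ?_
    ring
  simp only [h2]
  have hint : ∀ x y : ℕ × ℕ × ℕ, Integrable fun t : ℝ => ((bc G₁ T x * bc G₂ T y : ℝ) : ℂ) *
        (cexp (((t * (fr x - fr y) : ℝ) : ℂ) * I) * (win T τ t : ℂ)) := by
    intro x y
    refine Integrable.const_mul ?_ _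
    refine (win_integrable hT τ).mono' (by
      refine Continuous.aestronglyMeasurable ?_
      fun_prop) (Eventually.of_forall fun t => ?_)
    rw [norm_mul, Complex.norm_exp_ofReal_mul_I, one_mul, Complex.norm_real]
    exact (Real.norm_of_nonneg (Real.exp_pos _).le).le
  rw [integral_finsetSum _ fun x _ => integrable_finsetSum _ fun y _ => hint x y]
  refine Finset.sum_congr rfl fun x _ => ?_
  rw [integral_finsetSum _ fun y _ => hint x y]
  refine Finset.sum_congr rfl fun y _ => ?_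
  rw [integral_const_mul, win_fourier hT]

/-- the off-diagonal decay -/
theorem k04b_off {G₁ G₂ : ℝ × ℝ × ℝ → ℝ} (h₁ : TF 1 G₁) (h₂ : TF 1 G₂) :
    ∀ᶠ T : ℝ in atTop, ∀ x ∈ tri T, ∀ y ∈ tri T, cf G₁ T x ≠ 0 → cf G₂ T y ≠ 0 →
      fr x - fr y = 0 ∨ Real.exp (-(HH T * (fr x - fr y) / 2) ^ 2) ≤ Real.exp (-(Real.log T) ^ 2) := by
  obtain ⟨ε₁, hε₁, hgap₁⟩ := supp_gap le_rfl h₁
  obtain ⟨ε₂, hε₂, hgap₂⟩ := supp_gap le_rfl h₂
  set ε : ℝ := min ε₁ ε₂ with hεdef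
  have hε : 0 < ε := lt_min hε₁ hε₂
  have he1 : ε ≤ ε₁ := min_le_left _ _
  have he2 : ε ≤ ε₂ := min_le_right _ _
  filter_upwards [eventually_rpow_ge hε, eventually_gt_atTop 1] with T hTε hT x hx y hy hcx hcy
  have hL := Real.log_pos hT
  have hH := HH_pos hT
  have hT0 : 0 < T := by linarith
  obtain ⟨⟨a1, -⟩, ⟨a2, -⟩, ⟨a3, -⟩⟩ := mem_tri.1 hx
  obtain ⟨⟨b1, -⟩, ⟨b2, -⟩, ⟨b3, -⟩⟩ := mem_tri.1 hy
  have p1 : (0:ℝ) < x.1 := by exact_mod_cast a1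
  have p2 : (0:ℝ) < x.2.1 := by exact_mod_cast a2
  have p3 : (0:ℝ) < x.2.2 := by exact_mod_cast a3
  have p4 : (0:ℝ) < y.1 := by exact_mod_cast b1
  have p5 : (0:ℝ) < y.2.1 := by exact_mod_cast b2
  have p6 : (0:ℝ) < y.2.2 := by exact_mod_cast b3
  have hfr : fr x - fr y = Real.log ((x.2.2 * (y.1 * y.2.1) : ℕ) : ℝ) -
      Real.log ((y.2.2 * (x.1 * x.2.1) : ℕ) : ℝ) := by
    unfold fr
    push_cast
    rw [Real.log_mul p3.ne' (by positivity), Real.log_mul p4.ne' p5.ne',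
      Real.log_mul p6.ne' (by positivity), Real.log_mul p1.ne' p2.ne']
    ring
  by_cases h : x.2.2 * (y.1 * y.2.1) = y.2.2 * (x.1 * x.2.1)
  · left
    rw [hfr, h, sub_self]
  · right
    have g1 := hgap₁ _ hcx
    have g2 := hgap₂ _ hcy
    simp only at g1 g2
    rw [← add_div, ← add_div, div_le_iff₀ hL] at g1 g2
    have g1' : Real.log x.1 + Real.log x.2.1 + Real.log x.2.2 ≤ (1 - ε) * Real.log T :=
      g1.trans (mul_le_mul_of_nonneg_right (sub_le_sub_left he1 1) hL.le)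
    have g2' : Real.log y.1 + Real.log y.2.1 + Real.log y.2.2 ≤ (1 - ε) * Real.log T :=
      g2.trans (mul_le_mul_of_nonneg_right (sub_le_sub_left he2 1) hL.le)
    have hgap2 := log_gap (a := x.2.2 * (y.1 * y.2.1)) (b := y.2.2 * (x.1 * x.2.1))
      (Nat.one_le_iff_ne_zero.2 (by positivity)) (Nat.one_le_iff_ne_zero.2 (by positivity)) h
    rw [← hfr] at hgap2
    have hprod : √(((x.2.2 * (y.1 * y.2.1) : ℕ) : ℝ) * ((y.2.2 * (x.1 * x.2.1) : ℕ) : ℝ)) ≤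
        T / T ^ ε := by
      have h1 : ((x.2.2 * (y.1 * y.2.1) : ℕ) : ℝ) * ((y.2.2 * (x.1 * x.2.1) : ℕ) : ℝ) ≤
          (T / T ^ ε) ^ 2 := by
        have h2 : (0:ℝ) < ((x.2.2 * (y.1 * y.2.1) : ℕ) : ℝ) * ((y.2.2 * (x.1 * x.2.1) : ℕ) : ℝ) := by
          push_cast; positivity
        rw [← Real.log_le_log_iff h2 (by positivity)]
        rw [Real.log_pow, Real.log_div hT0.ne' (by positivity), Real.log_rpow hT0]
        push_cast
        rw [Real.log_mul (by positivity) (by positivity), Real.log_mul p3.ne' (by positivity),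
          Real.log_mul p4.ne' p5.ne', Real.log_mul p6.ne' (by positivity),
          Real.log_mul p1.ne' p2.ne']
        linarith
      calc √(((x.2.2 * (y.1 * y.2.1) : ℕ) : ℝ) * ((y.2.2 * (x.1 * x.2.1) : ℕ) : ℝ))
          ≤ √((T / T ^ ε) ^ 2) := Real.sqrt_le_sqrt h1
        _ = T / T ^ ε := Real.sqrt_sq (by positivity)
    have hspos : 0 < √(((x.2.2 * (y.1 * y.2.1) : ℕ) : ℝ) * ((y.2.2 * (x.1 * x.2.1) : ℕ) : ℝ)) :=
      Real.sqrt_pos.2 (by push_cast; positivity)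
    have hbig : Real.log T ≤ |HH T * (fr x - fr y) / 2| := by
      rw [abs_div, abs_mul, abs_of_pos hH, abs_of_pos (show (0:ℝ) < 2 by norm_num)]
      have h1 : 1 / (2 * (T / T ^ ε)) ≤ |fr x - fr y| := by
        refine le_trans ?_ hgap2
        exact one_div_le_one_div_of_le (by positivity) (by linarith)
      have h2 : HH T * (1 / (2 * (T / T ^ ε))) / 2 ≤ HH T * |fr x - fr y| / 2 := by gcongr
      refine le_trans ?_ h2
      have h3 : HH T * (1 / (2 * (T / T ^ ε))) / 2 = T ^ ε / (4 * Real.log T) := by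
        unfold HH
        have : T ^ ε ≠ 0 := (by positivity : (0:ℝ) < T ^ ε).ne'
        field_simp
        norm_num
      rw [h3, le_div_iff₀ (by positivity)]
      exact le_trans (le_of_eq (by ring)) hTε
    refine Real.exp_le_exp.2 (neg_le_neg ?_)
    rw [← sq_abs (HH T * (fr x - fr y) / 2)]
    exact pow_le_pow_left₀ hL.le hbig 2

/-- the imaginary part is negligible -/
theorem k04b_im {G₁ G₂ : ℝ × ℝ × ℝ → ℝ} (h₁ : TF 1 G₁) (h₂ : TF 1 G₂) :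
    ∃ M : ℝ, 0 ≤ M ∧ ∀ᶠ T : ℝ in atTop, ∀ τ : ℝ,
      |(∫ t : ℝ, BB G₁ T t * conj (BB G₂ T t) * ((win T τ t : ℝ) : ℂ)).im| ≤
        HH T * √π * (M * (T ^ 6 * Real.exp (-(Real.log T) ^ 2))) := by
  obtain ⟨M₁, hM₁⟩ := h₁.hcs.exists_bound_of_continuous h₁.cont
  obtain ⟨M₂, hM₂⟩ := h₂.hcs.exists_bound_of_continuous h₂.cont
  have hM10 : 0 ≤ M₁ := (norm_nonneg _).trans (hM₁ 0)
  have hM20 : 0 ≤ M₂ := (norm_nonneg _).trans (hM₂ 0)
  refine ⟨M₁ * M₂, by positivity, ?_⟩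
  filter_upwards [k04b_off h₁ h₂, eventually_gt_atTop 1] with T hoff hT τ
  have hH := HH_pos hT
  have hT0 : 0 < T := by linarith
  have hpi : 0 < √π := Real.sqrt_pos.2 Real.pi_pos
  rw [k04b_expand G₁ G₂ hT τ, Complex.im_sum]
  have hterm : ∀ x ∈ tri T, ∀ y ∈ tri T, |(((bc G₁ T x * bc G₂ T y : ℝ) : ℂ) *
      ((HH T * √π * Real.exp (-(HH T * (fr x - fr y) / 2) ^ 2) : ℝ) *
        cexp (((τ * (fr x - fr y) : ℝ) : ℂ) * I))).im| ≤
      HH T * √π * (M₁ * M₂ * Real.exp (-(Real.log T) ^ 2)) := by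
    intro x hx y hy
    rw [Complex.im_ofReal_mul, Complex.im_ofReal_mul, Complex.exp_ofReal_mul_I_im]
    by_cases hz : bc G₁ T x * bc G₂ T y = 0
    · rw [hz, zero_mul, abs_zero]; positivity
    have hcx : cf G₁ T x ≠ 0 := left_ne_zero_of_mul (left_ne_zero_of_mul hz)
    have hcy : cf G₂ T y ≠ 0 := left_ne_zero_of_mul (right_ne_zero_of_mul hz)
    rcases hoff x hx y hy hcx hcy with h | h
    · rw [h, mul_zero τ, Real.sin_zero, mul_zero, mul_zero, abs_zero]; positivity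
    · have hs := Real.abs_sin_le_one (τ * (fr x - fr y))
      have hb1 := k04b_bc_le hM₁ hx
      have hb2 := k04b_bc_le hM₂ hy
      rw [abs_mul, abs_mul, abs_mul, abs_of_nonneg (show 0 ≤ HH T * √π *
        Real.exp (-(HH T * (fr x - fr y) / 2) ^ 2) by positivity)]
      calc |bc G₁ T x| * |bc G₂ T y| * (HH T * √π * Real.exp (-(HH T * (fr x - fr y) / 2) ^ 2) *
            |Real.sin (τ * (fr x - fr y))|)
          ≤ M₁ * M₂ * (HH T * √π * Real.exp (-(Real.log T) ^ 2) * 1) := by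
            gcongr
        _ = _ := by ring
  calc |∑ x ∈ tri T, (∑ y ∈ tri T, ((bc G₁ T x * bc G₂ T y : ℝ) : ℂ) *
      ((HH T * √π * Real.exp (-(HH T * (fr x - fr y) / 2) ^ 2) : ℝ) *
        cexp (((τ * (fr x - fr y) : ℝ) : ℂ) * I))).im|
      ≤ ∑ x ∈ tri T, ∑ y ∈ tri T, HH T * √π * (M₁ * M₂ * Real.exp (-(Real.log T) ^ 2)) := by
        refine (Finset.abs_sum_le_sum_abs _ _).trans (Finset.sum_le_sum fun x hx => ?_)
        rw [Complex.im_sum]
        exact (Finset.abs_sum_le_sum_abs _ _).trans (Finset.sum_le_sum fun y hy => hterm x hx y hy)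
    _ = ((tri T).card : ℝ) * ((tri T).card : ℝ) * (HH T * √π * (M₁ * M₂ * Real.exp (-(Real.log T) ^ 2))) := by
        simp only [Finset.sum_const, nsmul_eq_mul]; ring
    _ ≤ T ^ 3 * T ^ 3 * (HH T * √π * (M₁ * M₂ * Real.exp (-(Real.log T) ^ 2))) := by
        have := card_tri hT0.le
        gcongr
    _ = _ := by ring

/-- the real part by polarisation -/
theorem k04b_re {G₁ G₂ : ℝ × ℝ × ℝ → ℝ} (h₁ : TF 1 G₁) (h₂ : TF 1 G₂) {T : ℝ} (hT : 1 < T) (τ : ℝ) :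
    (∫ t : ℝ, BB G₁ T t * conj (BB G₂ T t) * ((win T τ t : ℝ) : ℂ)).re =
      (I1 (fun p => G₁ p + G₂ p) T τ - I1 (fun p => G₁ p - G₂ p) T τ) / 4 := by
  obtain ⟨M₁, hM₁⟩ := h₁.hcs.exists_bound_of_continuous h₁.cont
  obtain ⟨M₂, hM₂⟩ := h₂.hcs.exists_bound_of_continuous h₂.cont
  have hT0 : 0 ≤ T := by linarith
  have hwc : Continuous (win T τ) := by unfold win; fun_prop
  have hB1 := fun t => k04b_BB_le hM₁ hT0 t
  have hB2 := fun t => k04b_BB_le hM₂ hT0 t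
  have hc1 := BB_cont G₁ T
  have hc2 := BB_cont G₂ T
  have hK : Integrable fun t : ℝ => BB G₁ T t * conj (BB G₂ T t) * ((win T τ t : ℝ) : ℂ) := by
    refine k04b_int (g := fun t => BB G₁ T t * conj (BB G₂ T t)) (C := M₁ * T ^ 3 * (M₂ * T ^ 3))
      (hc1.mul (Complex.continuous_conj.comp hc2)) (fun t => ?_) hT τ
    rw [norm_mul, RCLike.norm_conj]
    exact mul_le_mul (hB1 t) (hB2 t) (norm_nonneg _) ((norm_nonneg _).trans (hB1 t))
  have hsq : ∀ G : ℝ × ℝ × ℝ → ℝ, ∀ C : ℝ, (∀ t, ‖BB G T t‖ ≤ C) →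
      Integrable fun t : ℝ => ‖BB G T t‖ ^ 2 * win T τ t := by
    intro G C hC
    have hcG := BB_cont G T
    refine ((win_integrable hT τ).const_mul (C ^ 2)).mono'
      (Continuous.aestronglyMeasurable (by fun_prop)) (Eventually.of_forall fun t => ?_)
    have hw : 0 ≤ win T τ t := (Real.exp_pos _).le
    rw [norm_mul, Real.norm_of_nonneg hw, Real.norm_of_nonneg (by positivity)]
    exact mul_le_mul_of_nonneg_right (pow_le_pow_left₀ (norm_nonneg _) (hC t) 2) hw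
  have hp := hsq (fun p => G₁ p + G₂ p) (M₁ * T ^ 3 + M₂ * T ^ 3) (fun t => by
    rw [k04b_BB_add]; exact (norm_add_le _ _).trans (add_le_add (hB1 t) (hB2 t)))
  have hm := hsq (fun p => G₁ p - G₂ p) (M₁ * T ^ 3 + M₂ * T ^ 3) (fun t => by
    rw [k04b_BB_sub]; exact (norm_sub_le _ _).trans (add_le_add (hB1 t) (hB2 t)))
  have h1 := integral_re hK
  simp only [RCLike.re_eq_complex_re] at h1
  rw [← h1]
  unfold I1
  rw [← integral_sub hp hm, ← integral_div]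
  refine integral_congr_ae (Eventually.of_forall fun t => ?_)
  simp only
  rw [k04b_BB_add, k04b_BB_sub, Complex.re_mul_ofReal, Complex.sq_norm, Complex.sq_norm,
    Complex.normSq_add, Complex.normSq_sub]
  ring

theorem k04b_TF_add {Ψ₁ Ψ₂ : ℝ × ℝ × ℝ → ℝ} (h₁ : SF (Reg 1) Ψ₁) (h₂ : SF (Reg 1) Ψ₂) :
    SF (Reg 1) (fun p => Ψ₁ p + Ψ₂ p) :=
  ⟨h₁.smooth.add h₂.smooth, h₁.hcs.add h₂.hcs, (tsupport_add _ _).trans (union_subset h₁.supp h₂.supp)⟩

theorem k04b_TF_sub {Ψ₁ Ψ₂ : ℝ × ℝ × ℝ → ℝ} (h₁ : SF (Reg 1) Ψ₁) (h₂ : SF (Reg 1) Ψ₂) :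
    SF (Reg 1) (fun p => Ψ₁ p - Ψ₂ p) :=
  ⟨h₁.smooth.sub h₂.smooth, h₁.hcs.sub h₂.hcs, (tsupport_sub _ _).trans (union_subset h₁.supp h₂.supp)⟩

theorem k04b_I1 {Ψ : ℝ × ℝ × ℝ → ℝ} (h : SF (Reg 1) Ψ) {δ : ℝ} (hδ : 0 < δ) {τ : ℝ → ℝ}
    (hτ : Cen δ τ) :
    Tendsto (fun T : ℝ => I1 (GG Ψ) T (τ T) / NN T) atTop (𝓝 (A3 * ∫ p, Ψ p ^ 2)) := by
  by_cases hδ1 : δ ≤ 1
  · have hτ' : ∀ T : ℝ, 1 ≤ T → δ * T ≤ (if δ * T ≤ τ T ∧ τ T ≤ T then τ T else T) ∧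
        (if δ * T ≤ τ T ∧ τ T ≤ T then τ T else T) ≤ T := by
      intro T hT
      split_ifs with hh
      · exact hh
      · exact ⟨by nlinarith, le_rfl⟩
    have t1 := I1_lim le_rfl (TF_GG h.smooth h.hcs h.supp) lapA hδ hτ'
    have hs1 : ∀ p, Ψ p ≠ 0 → 0 < p.2.1 ∧ p.2.1 < p.1 ∧ 0 < p.2.2 := fun p hp => by
      have := h.supp (subset_tsupport _ (Function.mem_support.2 hp))
      exact ⟨this.1, this.2.1, this.2.2.1⟩
    rw [QA_GG h.smooth h.hcs hs1] at t1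
    refine t1.congr' ?_
    filter_upwards [hτ] with T hT
    rw [if_pos hT]
    rfl
  · exfalso
    have : ∀ᶠ T : ℝ in atTop, False := by
      filter_upwards [hτ, eventually_gt_atTop 0] with T hT hT0
      have := hT.1.trans hT.2
      push Not at hδ1
      nlinarith
    exact this.exists.choose_spec

/-- **K04b.** -/
theorem mean_sq {Ψ₁ Ψ₂ : ℝ × ℝ × ℝ → ℝ} (h₁ : SF (Reg 1) Ψ₁) (h₂ : SF (Reg 1) Ψ₂) :
    HasMean (fun T t => BB (GG Ψ₁) T t * conj (BB (GG Ψ₂) T t))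
      ((A3 * ∫ p, Ψ₁ p * Ψ₂ p : ℝ) : ℂ) := by
  have g₁ := TF_GG h₁.smooth h₁.hcs h₁.supp
  have g₂ := TF_GG h₂.smooth h₂.hcs h₂.supp
  refine ⟨fun T => (BB_cont _ T).mul (Complex.continuous_conj.comp (BB_cont _ T)), ?_, ?_⟩
  · obtain ⟨M₁, hM₁⟩ := g₁.hcs.exists_bound_of_continuous g₁.cont
    obtain ⟨M₂, hM₂⟩ := g₂.hcs.exists_bound_of_continuous g₂.cont
    have hM10 : 0 ≤ M₁ := (norm_nonneg _).trans (hM₁ 0)
    have hM20 : 0 ≤ M₂ := (norm_nonneg _).trans (hM₂ 0)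
    refine ⟨M₁ * M₂, 6, by positivity, fun T hT t => ?_⟩
    have hT0 : 0 ≤ T := by linarith
    rw [norm_mul, RCLike.norm_conj]
    have e1 := k04b_BB_le hM₁ hT0 t
    have e2 := k04b_BB_le hM₂ hT0 t
    have e3 : T ≤ T * (1 + |t|) := by nlinarith [abs_nonneg t]
    calc ‖BB (GG Ψ₁) T t‖ * ‖BB (GG Ψ₂) T t‖ ≤ (M₁ * T ^ 3) * (M₂ * T ^ 3) := by gcongr
      _ = M₁ * M₂ * T ^ 6 := by ring
      _ ≤ M₁ * M₂ * (T * (1 + |t|)) ^ 6 := by gcongr
  · intro δ hδ τ hτ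
    have hp := k04b_I1 (k04b_TF_add h₁ h₂) hδ hτ
    have hm := k04b_I1 (k04b_TF_sub h₁ h₂) hδ hτ
    rw [k04b_GG_add h₁.smooth h₂.smooth] at hp
    rw [k04b_GG_sub h₁.smooth h₂.smooth] at hm
    -- the constants
    have c1 : Continuous Ψ₁ := h₁.smooth.continuous
    have c2 : Continuous Ψ₂ := h₂.smooth.continuous
    have i11 : Integrable fun p => (Ψ₁ p + Ψ₂ p) ^ 2 :=
      (Continuous.integrable_of_hasCompactSupport (by fun_prop)
        ((h₁.hcs.add h₂.hcs).comp_left (g := fun u : ℝ => u ^ 2) (by simp)))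
    have i22 : Integrable fun p => (Ψ₁ p - Ψ₂ p) ^ 2 :=
      (Continuous.integrable_of_hasCompactSupport (by fun_prop)
        ((h₁.hcs.sub h₂.hcs).comp_left (g := fun u : ℝ => u ^ 2) (by simp)))
    have hconst : (A3 * (∫ p, (Ψ₁ p + Ψ₂ p) ^ 2) - A3 * ∫ p, (Ψ₁ p - Ψ₂ p) ^ 2) / 4 =
        A3 * ∫ p, Ψ₁ p * Ψ₂ p := by
      have e1 : (∫ p, (Ψ₁ p + Ψ₂ p) ^ 2) - ∫ p, (Ψ₁ p - Ψ₂ p) ^ 2 = ∫ p, 4 * (Ψ₁ p * Ψ₂ p) := by
        rw [← integral_sub i11 i22]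
        refine integral_congr_ae (Eventually.of_forall fun p => ?_)
        simp only
        ring
      rw [← mul_sub, e1, integral_const_mul]
      ring
    have hre : Tendsto (fun T : ℝ => ((∫ t : ℝ, BB (GG Ψ₁) T t * conj (BB (GG Ψ₂) T t) *
        ((win T (τ T) t : ℝ) : ℂ)).re) / NN T) atTop (𝓝 (A3 * ∫ p, Ψ₁ p * Ψ₂ p)) := by
      rw [← hconst]
      refine ((hp.sub hm).div_const 4).congr' ?_
      filter_upwards [eventually_gt_atTop 1] with T hT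
      rw [k04b_re g₁ g₂ hT (τ T)]
      ring
    have him : Tendsto (fun T : ℝ => ((∫ t : ℝ, BB (GG Ψ₁) T t * conj (BB (GG Ψ₂) T t) *
        ((win T (τ T) t : ℝ) : ℂ)).im) / NN T) atTop (𝓝 0) := by
      obtain ⟨M, hM0, hM⟩ := k04b_im g₁ g₂
      have h3 := exp_small.const_mul M
      rw [mul_zero] at h3
      refine squeeze_zero_norm' ?_ h3
      filter_upwards [hM, eventually_ge_atTop (Real.exp 1)] with T hT1 hT
      have hL : 1 ≤ Real.log T := by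
        rw [← Real.log_exp 1]
        exact Real.log_le_log (Real.exp_pos _) hT
      have hT1' : 1 < T := one_lt_of_exp hT
      have hH := HH_pos hT1'
      have hpi : 0 < √π := Real.sqrt_pos.2 Real.pi_pos
      have hT0 : 0 < T := by linarith
      have hNN : 0 < NN T := by unfold NN; positivity
      rw [norm_div, Real.norm_eq_abs, Real.norm_of_nonneg hNN.le, div_le_iff₀ hNN]
      refine (hT1 (τ T)).trans ?_
      have h4 : 1 ≤ Real.log T ^ 9 := one_le_pow₀ hL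
      have h5 : 0 ≤ M * (T ^ 6 * Real.exp (-(Real.log T) ^ 2)) := by positivity
      have h6 : 0 < HH T * √π := by positivity
      unfold NN
      calc HH T * √π * (M * (T ^ 6 * Real.exp (-(Real.log T) ^ 2)))
          = M * (T ^ 6 * Real.exp (-(Real.log T) ^ 2)) * (HH T * √π * 1) := by ring
        _ ≤ M * (T ^ 6 * Real.exp (-(Real.log T) ^ 2)) * (HH T * √π * Real.log T ^ 9) := by
            apply mul_le_mul_of_nonneg_left _ h5
            exact mul_le_mul_of_nonneg_left h4 h6.le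
    have hcomb := ((Complex.continuous_ofReal.tendsto _).comp hre).add
      (((Complex.continuous_ofReal.tendsto _).comp him).mul_const I)
    rw [Complex.ofReal_zero, zero_mul, add_zero] at hcomb
    refine hcomb.congr fun T => ?_
    simp only [Function.comp]
    rw [← Complex.div_ofReal_re, ← Complex.div_ofReal_im, Complex.re_add_im]

end K3

end

section

namespace K3
open Complex MeasureTheory Filter Topology Set S6
open scoped Real ComplexConjugate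

private theorem k04c_cos (a : ℝ) : ContDiff ℝ (⊤ : ℕ∞) fun u : ℝ => Real.cos (a * u) := by
  fun_prop

private theorem k04c_sin (a : ℝ) : ContDiff ℝ (⊤ : ℕ∞) fun u : ℝ => Real.sin (a * u) := by
  fun_prop

private theorem k04c_th : Continuous th := by
  unfold th
  fun_prop

private theorem k04c_lin {f1 f2 f3 f4 : ℝ × ℝ × ℝ → ℂ} (h1 : Integrable f1) (h2 : Integrable f2)
    (h3 : Integrable f3) (h4 : Integrable f4) :
    (∫ p, f1 p) + -I * (∫ p, f2 p) + I * (∫ p, f3 p) + (∫ p, f4 p) =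
      ∫ p, (f1 p + -I * f2 p + I * f3 p + f4 p) := by
  have a2 : Integrable (fun p => -I * f2 p) := h2.const_mul _
  have a3 : Integrable (fun p => I * f3 p) := h3.const_mul _
  have b2 : Integrable (fun p => f1 p + -I * f2 p) := h1.add a2
  have b3 : Integrable (fun p => f1 p + -I * f2 p + I * f3 p) := b2.add a3
  rw [integral_add b3 h4, integral_add b2 a3, integral_add h1 a2, integral_const_mul,
    integral_const_mul]

/-- **K04c.** -/
theorem mean_sqS {Ψ : ℝ × ℝ × ℝ → ℝ} (h : SF (Reg 1) Ψ) (a b : ℝ) :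
    HasMean (fun T t => BS Ψ a T t * conj (BS Ψ b T t)) (mSq Ψ (a - b)) := by
  have ca : SF (Reg 1) (fun p => Ψ p * Real.cos (a * th p)) := h.mul_fn (k04c_cos a)
  have sa : SF (Reg 1) (fun p => Ψ p * Real.sin (a * th p)) := h.mul_fn (k04c_sin a)
  have cb : SF (Reg 1) (fun p => Ψ p * Real.cos (b * th p)) := h.mul_fn (k04c_cos b)
  have sb : SF (Reg 1) (fun p => Ψ p * Real.sin (b * th p)) := h.mul_fn (k04c_sin b)
  have m1 := mean_sq ca cb
  have m2 := mean_sq ca sb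
  have m3 := mean_sq sa cb
  have m4 := mean_sq sa sb
  have m := ((m1.add (m2.const_mul (-I))).add (m3.const_mul I)).add m4
  have hM : mSq Ψ (a - b) =
      ((A3 * ∫ p, (Ψ p * Real.cos (a * th p)) * (Ψ p * Real.cos (b * th p)) : ℝ) : ℂ) +
      -I * ((A3 * ∫ p, (Ψ p * Real.cos (a * th p)) * (Ψ p * Real.sin (b * th p)) : ℝ) : ℂ) +
      I * ((A3 * ∫ p, (Ψ p * Real.sin (a * th p)) * (Ψ p * Real.cos (b * th p)) : ℝ) : ℂ) +
      ((A3 * ∫ p, (Ψ p * Real.sin (a * th p)) * (Ψ p * Real.sin (b * th p)) : ℝ) : ℂ) := by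
    have hint : ∀ {f g : ℝ × ℝ × ℝ → ℝ}, SF (Reg 1) f → SF (Reg 1) g →
        Integrable (fun p => ((f p * g p : ℝ) : ℂ)) := by
      intro f g hf hg
      refine Integrable.ofReal ?_
      exact (hf.smooth.continuous.mul hg.smooth.continuous).integrable_of_hasCompactSupport
        hf.hcs.mul_right
    have e1 : ∀ {f g : ℝ × ℝ × ℝ → ℝ}, ((A3 * ∫ p, f p * g p : ℝ) : ℂ) =
        (A3 : ℂ) * ∫ p, ((f p * g p : ℝ) : ℂ) := by
      intro f g
      rw [ofReal_mul, integral_complex_ofReal]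
    rw [e1, e1, e1, e1, mSq]
    have h1 := hint ca cb
    have h2 := hint ca sb
    have h3 := hint sa cb
    have h4 := hint sa sb
    have hs : ∫ p : ℝ × ℝ × ℝ, ((Ψ p ^ 2 : ℝ) : ℂ) * cexp ((((a - b) * th p : ℝ) : ℂ) * I) =
        (∫ p, (((Ψ p * Real.cos (a * th p)) * (Ψ p * Real.cos (b * th p)) : ℝ) : ℂ)) +
        -I * (∫ p, (((Ψ p * Real.cos (a * th p)) * (Ψ p * Real.sin (b * th p)) : ℝ) : ℂ)) +
        I * (∫ p, (((Ψ p * Real.sin (a * th p)) * (Ψ p * Real.cos (b * th p)) : ℝ) : ℂ)) +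
        ∫ p, (((Ψ p * Real.sin (a * th p)) * (Ψ p * Real.sin (b * th p)) : ℝ) : ℂ) := by
      rw [k04c_lin h1 h2 h3 h4]
      refine integral_congr_ae (Eventually.of_forall fun p => ?_)
      simp only
      rw [sub_mul, exp_mul_I, ← ofReal_cos, ← ofReal_sin, Real.cos_sub, Real.sin_sub]
      push_cast
      ring
    rw [hs]
    ring
  rw [hM]
  refine m.congr (fun T => ?_) fun T hT t => ?_
  · exact (BS_cont Ψ a T).mul (continuous_conj.comp (BS_cont Ψ b T))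
  · rw [BS_eq h.smooth a hT t, BS_eq h.smooth b hT t]
    simp only [map_add, map_mul, conj_I]
    ring_nf
    rw [I_sq]
    ring

end K3

end

section

/-! Row K04d: the `χ` mean of a product of two test polynomials vanishes. -/

namespace K3
open Complex MeasureTheory Filter Topology Set S6
open scoped Real ComplexConjugate

theorem k04d_BB_eq (Ψ : ℝ × ℝ × ℝ → ℝ) (T t : ℝ) : BS Ψ 0 T t = BB (GG Ψ) T t := by
  unfold BS
  rw [zero_div, add_zero]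

/-- `∫ χ B₁ B₂ w` -/
noncomputable def k04d_I (G₁ G₂ : ℝ × ℝ × ℝ → ℝ) (T τ : ℝ) : ℂ :=
  ∫ t : ℝ, MP069854.chi (1 / 2 + t * I) * BB G₁ T t * BB G₂ T t * (win T τ t : ℂ)

theorem k04d_expand (G₁ G₂ : ℝ × ℝ × ℝ → ℝ) {T : ℝ} (hT : 1 < T) (τ : ℝ) :
    k04d_I G₁ G₂ T τ = ∑ x ∈ tri T, ∑ x' ∈ tri T, ((I3a G₁ T x * I3a G₂ T x' : ℝ) : ℂ) *
      ∫ t : ℝ, MP069854.chi (1 / 2 + t * I) * cexp (((t * (I3p x + I3p x') : ℝ) : ℂ) * I) *
        (win T τ t : ℂ) := by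
  unfold k04d_I
  have h1 : ∀ t : ℝ, MP069854.chi (1 / 2 + t * I) * BB G₁ T t * BB G₂ T t * (win T τ t : ℂ) =
      ∑ x ∈ tri T, ∑ x' ∈ tri T, ((I3a G₁ T x * I3a G₂ T x' : ℝ) : ℂ) *
        (MP069854.chi (1 / 2 + t * I) * cexp (((t * (I3p x + I3p x') : ℝ) : ℂ) * I) *
        (win T τ t : ℂ)) := by
    intro t
    rw [mul_assoc (MP069854.chi (1 / 2 + t * I)), BB, BB, Finset.sum_mul_sum, Finset.mul_sum, Finset.sum_mul]
    refine Finset.sum_congr rfl fun x _ => ?_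
    rw [Finset.mul_sum, Finset.sum_mul]
    refine Finset.sum_congr rfl fun x' _ => ?_
    have h2 : cexp (((t * (I3p x + I3p x') : ℝ) : ℂ) * I) =
        cexp (((t * (Real.log x.2.2 - Real.log x.1 - Real.log x.2.1) : ℝ) : ℂ) * I) *
        cexp (((t * (Real.log x'.2.2 - Real.log x'.1 - Real.log x'.2.1) : ℝ) : ℂ) * I) := by
      rw [← Complex.exp_add]
      congr 1
      unfold I3p
      push_cast
      ring
    rw [h2]
    unfold I3a
    push_cast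
    ring
  have h3 : ∀ x x' : ℕ × ℕ × ℕ, Integrable fun t : ℝ => ((I3a G₁ T x * I3a G₂ T x' : ℝ) : ℂ) *
        (MP069854.chi (1 / 2 + t * I) * cexp (((t * (I3p x + I3p x') : ℝ) : ℂ) * I) *
        (win T τ t : ℂ)) := by
    intro x x'
    refine Integrable.const_mul ?_ _
    refine I3aux_int_bdd hT τ (C := 1) (I3aux_chi_cont.mul (by fun_prop)) fun t => ?_
    rw [norm_mul, I3aux_cexp_norm, I3aux_chi_norm, mul_one]
  simp_rw [h1]
  rw [integral_finsetSum _ fun x _ => integrable_finsetSum _ fun x' _ => h3 x x']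
  refine Finset.sum_congr rfl fun x _ => ?_
  rw [integral_finsetSum _ fun x' _ => h3 x x']
  refine Finset.sum_congr rfl fun x' _ => ?_
  rw [integral_const_mul]

theorem k04d_bound {κ : ℝ} {G₁ G₂ : ℝ × ℝ × ℝ → ℝ} (hG₁ : TF κ G₁) (hG₂ : TF κ G₂)
    {δ : ℝ} (hδ : 0 < δ) : ∃ C T₀ : ℝ, ∀ T ≥ T₀, ∀ τ : ℝ, δ * T ≤ τ → τ ≤ T →
      ‖k04d_I G₁ G₂ T τ‖ ≤ C * T⁻¹ := by
  obtain ⟨ε₁, hε₁, hsupp₁⟩ := I3aux_supp hG₁
  obtain ⟨ε₂, hε₂, hsupp₂⟩ := I3aux_supp hG₂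
  set ε : ℝ := min ε₁ ε₂ with hεdef
  have hε : 0 < ε := lt_min hε₁ hε₂
  obtain ⟨C₁, hC₁⟩ := hG₁.cont.bounded_above_of_compact_support hG₁.hcs
  obtain ⟨C₂, hC₂⟩ := hG₂.cont.bounded_above_of_compact_support hG₂.hcs
  have hC0₁ : 0 ≤ C₁ := (norm_nonneg _).trans (hC₁ 0)
  have hC0₂ : 0 ≤ C₂ := (norm_nonneg _).trans (hC₂ 0)
  obtain ⟨T₀, hT₀⟩ := I3aux_term hδ (ε := 2 * ε) (by positivity) 7
  refine ⟨(C₁ * C₂) * (1 + 2 * π), max T₀ (Real.exp 1), ?_⟩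
  intro T hT τ hτ1 hτ2
  have hTe : Real.exp 1 ≤ T := le_trans (le_max_right _ _) hT
  have hT1 : 1 < T := lt_of_lt_of_le (by linarith [Real.add_one_lt_exp (one_ne_zero)]) hTe
  have hlog : 0 < Real.log T := Real.log_pos hT1
  rw [k04d_expand G₁ G₂ hT1]
  have hterm : ∀ x ∈ tri T, ∀ x' ∈ tri T, ‖((I3a G₁ T x * I3a G₂ T x' : ℝ) : ℂ) *
    ∫ t : ℝ, MP069854.chi (1 / 2 + t * I) * cexp (((t * (I3p x + I3p x') : ℝ) : ℂ) * I) *
      (win T τ t : ℂ)‖ ≤ (C₁ * C₂) * (1 + 2 * π) * T ^ (-7 : ℝ) := by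
    intro x hx x' hx'
    have hpos : ∀ x ∈ tri T, (1 : ℝ) ≤ x.1 ∧ (1 : ℝ) ≤ x.2.1 ∧ (1 : ℝ) ≤ x.2.2 := by
      intro x hx
      unfold tri at hx
      simp only [Finset.mem_product, Finset.mem_Icc] at hx
      exact ⟨by exact_mod_cast hx.1.1, by exact_mod_cast hx.2.1.1, by exact_mod_cast hx.2.2.1⟩
    obtain ⟨ha, hb, hc⟩ := hpos x hx
    obtain ⟨ha', hb', hc'⟩ := hpos x' hx'
    have ha0 : (0 : ℝ) < x.1 := by linarith
    have hb0 : (0 : ℝ) < x.2.1 := by linarith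
    have hc0 : (0 : ℝ) < x.2.2 := by linarith
    have ha0' : (0 : ℝ) < x'.1 := by linarith
    have hb0' : (0 : ℝ) < x'.2.1 := by linarith
    have hc0' : (0 : ℝ) < x'.2.2 := by linarith
    have hTp : 0 < T ^ (-7 : ℝ) := Real.rpow_pos_of_pos (by linarith) _
    by_cases h0 : cf G₁ T x * cf G₂ T x' = 0
    · have h1 : I3a G₁ T x * I3a G₂ T x' = 0 := by
        unfold I3a
        rw [show cf G₁ T x * (√((x.1 : ℝ) * x.2.1 * x.2.2))⁻¹ *
          (cf G₂ T x' * (√((x'.1 : ℝ) * x'.2.1 * x'.2.2))⁻¹) = (cf G₁ T x * cf G₂ T x') *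
          ((√((x.1 : ℝ) * x.2.1 * x.2.2))⁻¹ * (√((x'.1 : ℝ) * x'.2.1 * x'.2.2))⁻¹) by ring, h0,
          zero_mul]
      rw [h1]
      simp only [Complex.ofReal_zero, zero_mul, norm_zero]
      positivity
    have hx0 : cf G₁ T x ≠ 0 := left_ne_zero_of_mul h0
    have hx0' : cf G₂ T x' ≠ 0 := right_ne_zero_of_mul h0
    set y : ℝ := (x.1 * x.2.1 * (x'.1 * x'.2.1)) / (x.2.2 * x'.2.2) with hy
    have hy0 : 0 < y := by positivity
    have hlogy : -Real.log y = I3p x + I3p x' := by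
      rw [hy, Real.log_div (by positivity) (by positivity), Real.log_mul (by positivity)
        (by positivity), Real.log_mul (by positivity) (by positivity), Real.log_mul
        (by positivity) (by positivity), Real.log_mul (by positivity) (by positivity)]
      unfold I3p
      ring
    have hs : ∀ (G : ℝ × ℝ × ℝ → ℝ) (e : ℝ), ε ≤ e → (∀ p, G p ≠ 0 → p.1 + p.2.1 - p.2.2 ≤ 1 / 2 - e) →
        ∀ x : ℕ × ℕ × ℕ, cf G T x ≠ 0 → -I3p x ≤ (1 / 2 - ε) * Real.log T := by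
      intro G e he hsupp x hx
      have h1 := hsupp _ hx
      simp only at h1
      have h2 : Real.log x.1 / Real.log T + Real.log x.2.1 / Real.log T -
        Real.log x.2.2 / Real.log T = -I3p x / Real.log T := by
        unfold I3p
        ring
      rw [h2, div_le_iff₀ hlog] at h1
      refine h1.trans ?_
      gcongr
    have hyT : y ≤ T ^ (1 - 2 * ε) := by
      rw [← Real.exp_log hy0, Real.rpow_def_of_pos (by linarith)]
      apply Real.exp_le_exp.mpr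
      have h1 := hs G₁ ε₁ (min_le_left _ _) hsupp₁ x hx0
      have h2 := hs G₂ ε₂ (min_le_right _ _) hsupp₂ x' hx0'
      linarith
    have h3 := hT₀ T (le_trans (le_max_left _ _) hT) τ hτ1 hτ2 y hy0 hyT
    rw [hlogy] at h3
    rw [norm_mul, Complex.norm_real]
    refine (mul_le_mul_of_nonneg_left h3 (norm_nonneg _)).trans ?_
    have hn : ‖I3a G₁ T x * I3a G₂ T x'‖ = |cf G₁ T x| * |cf G₂ T x'| *
        ((√((x.1 : ℝ) * x.2.1 * x.2.2))⁻¹ * (√((x'.1 : ℝ) * x'.2.1 * x'.2.2))⁻¹) := by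
      unfold I3a
      rw [Real.norm_eq_abs, abs_mul, abs_mul, abs_mul, abs_of_nonneg (a := (√_)⁻¹) (by positivity),
        abs_of_nonneg (a := (√_)⁻¹) (by positivity)]
      ring
    rw [hn]
    have hcf : |cf G₁ T x| ≤ C₁ := hC₁ _
    have hcf' : |cf G₂ T x'| ≤ C₂ := hC₂ _
    have hsq1 : 1 ≤ √((x.1 : ℝ) * x.2.1 * x.2.2) := by
      rw [Real.one_le_sqrt]
      exact one_le_mul_of_one_le_of_one_le (one_le_mul_of_one_le_of_one_le ha hb) hc
    have hsq2 : 1 ≤ √((x'.1 : ℝ) * x'.2.1 * x'.2.2) := by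
      rw [Real.one_le_sqrt]
      exact one_le_mul_of_one_le_of_one_le (one_le_mul_of_one_le_of_one_le ha' hb') hc'
    set S := (√((x.1 : ℝ) * x.2.1 * x.2.2))⁻¹ * (√((x'.1 : ℝ) * x'.2.1 * x'.2.2))⁻¹ with hS
    have hS0 : 0 ≤ S := by positivity
    have hS1 : S ≤ 1 := by
      rw [hS]
      exact mul_le_one₀ (inv_le_one_of_one_le₀ hsq1) (by positivity) (inv_le_one_of_one_le₀ hsq2)
    have hSy : S * √y ≤ 1 := by
      have h4 : S * √y = (x.2.2 * x'.2.2 : ℝ)⁻¹ := by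
        rw [hS, ← mul_inv, ← Real.sqrt_mul (by positivity), ← Real.sqrt_inv,
          ← Real.sqrt_mul (by positivity)]
        rw [show ((x.1 : ℝ) * x.2.1 * x.2.2 * (x'.1 * x'.2.1 * x'.2.2))⁻¹ * y =
          ((x.2.2 * x'.2.2 : ℝ)⁻¹) ^ 2 by
            rw [hy]
            field_simp]
        exact Real.sqrt_sq (by positivity)
      rw [h4]
      exact inv_le_one_of_one_le₀ (one_le_mul_of_one_le_of_one_le hc hc')
    have hprod : |cf G₁ T x| * |cf G₂ T x'| ≤ C₁ * C₂ :=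
      mul_le_mul hcf hcf' (abs_nonneg _) hC0₁
    have hpi := Real.pi_pos
    have h5 : S * (1 + 2 * π * √y) ≤ 1 + 2 * π := by
      have : S * (1 + 2 * π * √y) = S + 2 * π * (S * √y) := by ring
      rw [this]
      refine add_le_add hS1 ?_
      calc 2 * π * (S * √y) ≤ 2 * π * 1 := mul_le_mul_of_nonneg_left hSy (by positivity)
        _ = 2 * π := mul_one _
    calc |cf G₁ T x| * |cf G₂ T x'| * S * (T ^ (-7 : ℝ) * (1 + 2 * π * √y))
        = (|cf G₁ T x| * |cf G₂ T x'|) * (S * (1 + 2 * π * √y)) * T ^ (-7 : ℝ) := by ring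
      _ ≤ (C₁ * C₂) * (1 + 2 * π) * T ^ (-7 : ℝ) := by
        refine mul_le_mul_of_nonneg_right ?_ hTp.le
        exact mul_le_mul hprod h5 (by positivity) (by positivity)
  refine (norm_sum_le _ _).trans ?_
  refine (Finset.sum_le_sum fun x hx => (norm_sum_le _ _).trans
    (Finset.sum_le_sum fun x' hx' => hterm x hx x' hx')).trans ?_
  rw [Finset.sum_const, Finset.sum_const, nsmul_eq_mul, nsmul_eq_mul]
  have hcard := I3aux_card hT1.le
  have hTpos : 0 < T := by linarith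
  have hc0 : (0 : ℝ) ≤ (tri T).card := Nat.cast_nonneg _
  have hpi := Real.pi_pos
  have hK : 0 ≤ (C₁ * C₂) * (1 + 2 * π) := by positivity
  have hTp : 0 < T ^ (-7 : ℝ) := Real.rpow_pos_of_pos (by linarith) _
  calc ((tri T).card : ℝ) * (((tri T).card : ℝ) * ((C₁ * C₂) * (1 + 2 * π) * T ^ (-7 : ℝ)))
      ≤ T ^ 3 * (T ^ 3 * ((C₁ * C₂) * (1 + 2 * π) * T ^ (-7 : ℝ))) := by gcongr
    _ = (C₁ * C₂) * (1 + 2 * π) * (T ^ 6 * T ^ (-7 : ℝ)) := by ring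
    _ = (C₁ * C₂) * (1 + 2 * π) * T⁻¹ := by
      congr 1
      rw [← Real.rpow_natCast T 6, ← Real.rpow_add hTpos, ← Real.rpow_neg_one]
      norm_num

/-- **K04d.** Bilinear version of `S6.I3_lim`: copy `I3aux_expand` and the bound `hbound`
(which is a bound for the norm) with two functions `G₁ = GG Ψ₁`, `G₂ = GG Ψ₂`. -/
theorem mean_chi {Ψ₁ Ψ₂ : ℝ × ℝ × ℝ → ℝ} (h₁ : SF (Reg 1) Ψ₁) (h₂ : SF (Reg 1) Ψ₂) :
    HasMean (fun T t => XX t * BB (GG Ψ₁) T t * BB (GG Ψ₂) T t) 0 := by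
  refine ⟨?_, ?_, ?_⟩
  · intro T
    have c1 : Continuous fun t : ℝ => BB (GG Ψ₁) T t := by
      have := BS_cont Ψ₁ 0 T
      simpa only [k04d_BB_eq] using this.congr (fun t => k04d_BB_eq Ψ₁ T t)
    have c2 : Continuous fun t : ℝ => BB (GG Ψ₂) T t := by
      have := BS_cont Ψ₂ 0 T
      simpa only [k04d_BB_eq] using this.congr (fun t => k04d_BB_eq Ψ₂ T t)
    exact (XX_cont.mul c1).mul c2
  · obtain ⟨C₁, hC₁, hb₁⟩ := BS_bdd h₁.smooth h₁.hcs 0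
    obtain ⟨C₂, hC₂, hb₂⟩ := BS_bdd h₂.smooth h₂.hcs 0
    refine ⟨C₁ * C₂, 6, by positivity, ?_⟩
    intro T hT t
    have e1 := hb₁ T (by linarith) t
    have e2 := hb₂ T (by linarith) t
    rw [k04d_BB_eq] at e1 e2
    rw [norm_mul, norm_mul, XX_norm, one_mul]
    have hT0 : 0 ≤ T := by linarith
    calc ‖BB (GG Ψ₁) T t‖ * ‖BB (GG Ψ₂) T t‖ ≤ (C₁ * T ^ 3) * (C₂ * T ^ 3) := by gcongr
      _ = C₁ * C₂ * T ^ 6 := by ring
      _ ≤ C₁ * C₂ * (T * (1 + |t|)) ^ 6 := by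
        have : T ≤ T * (1 + |t|) := by nlinarith [abs_nonneg t]
        gcongr
  · intro δ hδ τ hτ
    obtain ⟨C, T₀, hbound⟩ := k04d_bound (TF_GG h₁.smooth h₁.hcs h₁.supp)
      (TF_GG h₂.smooth h₂.hcs h₂.supp) hδ
    have hI : ∀ T : ℝ, (∫ t : ℝ, XX t * BB (GG Ψ₁) T t * BB (GG Ψ₂) T t * ((win T (τ T) t : ℝ) : ℂ)) =
        k04d_I (GG Ψ₁) (GG Ψ₂) T (τ T) := fun T => rfl
    simp only [hI]
    refine squeeze_zero_norm' (a := fun T : ℝ => C * T⁻¹) ?_ ?_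
    · filter_upwards [eventually_ge_atTop (max T₀ (Real.exp 1)), hτ] with T hT hτT
      have hTe : Real.exp 1 ≤ T := le_trans (le_max_right _ _) hT
      have hT1 : 1 < T := lt_of_lt_of_le (by linarith [Real.add_one_lt_exp (one_ne_zero)]) hTe
      have hlog1 : 1 ≤ Real.log T := by
        rw [Real.le_log_iff_exp_le (by linarith)]
        exact hTe
      have hden : 1 ≤ NN T := by
        unfold NN
        have h1 : 1 ≤ HH T := by
          unfold HH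
          rw [one_le_div (by linarith)]
          exact (Real.log_le_sub_one_of_pos (by linarith)).trans (by linarith)
        have h2 : 1 ≤ √π := by
          rw [Real.one_le_sqrt]
          linarith [Real.pi_gt_three]
        have h3 : 1 ≤ Real.log T ^ 9 := one_le_pow₀ hlog1
        exact one_le_mul_of_one_le_of_one_le (one_le_mul_of_one_le_of_one_le h1 h2) h3
      rw [norm_div, Complex.norm_real, Real.norm_of_nonneg (by linarith : (0:ℝ) ≤ NN T)]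
      refine (div_le_self (norm_nonneg _) hden).trans ?_
      exact hbound T (le_trans (le_max_left _ _) hT) (τ T) hτT.1 hτT.2
    · have : Tendsto (fun T : ℝ => C * T⁻¹) atTop (𝓝 (C * 0)) := tendsto_inv_atTop_zero.const_mul _
      rw [mul_zero] at this
      exact this

end K3

end

section

namespace K3
open Complex MeasureTheory Filter Topology Set S6
open scoped Real ComplexConjugate

private theorem k04e_cos (a : ℝ) : ContDiff ℝ (⊤ : ℕ∞) fun u : ℝ => Real.cos (a * u) := by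
  fun_prop

private theorem k04e_sin (a : ℝ) : ContDiff ℝ (⊤ : ℕ∞) fun u : ℝ => Real.sin (a * u) := by
  fun_prop

/-- **K04e.** -/
theorem mean_chiS {Ψ : ℝ × ℝ × ℝ → ℝ} (h : SF (Reg 1) Ψ) (a b : ℝ) :
    HasMean (fun T t => XX t * BS Ψ a T t * BS Ψ b T t) 0 := by
  have ca : SF (Reg 1) (fun p => Ψ p * Real.cos (a * th p)) := h.mul_fn (k04e_cos a)
  have sa : SF (Reg 1) (fun p => Ψ p * Real.sin (a * th p)) := h.mul_fn (k04e_sin a)
  have cb : SF (Reg 1) (fun p => Ψ p * Real.cos (b * th p)) := h.mul_fn (k04e_cos b)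
  have sb : SF (Reg 1) (fun p => Ψ p * Real.sin (b * th p)) := h.mul_fn (k04e_sin b)
  have m1 := mean_chi ca cb
  have m2 := mean_chi ca sb
  have m3 := mean_chi sa cb
  have m4 := mean_chi sa sb
  have m := ((m1.add (m2.const_mul I)).add (m3.const_mul I)).add (m4.const_mul (-1))
  have hM : (0 : ℂ) + I * 0 + I * 0 + -1 * 0 = 0 := by ring
  rw [hM] at m
  refine m.congr (fun T => ?_) fun T hT t => ?_
  · exact (XX_cont.mul (BS_cont Ψ a T)).mul (BS_cont Ψ b T)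
  · rw [BS_eq h.smooth a hT t, BS_eq h.smooth b hT t]
    ring_nf
    rw [I_sq]
    ring

end K3

end

section

namespace K3
open Complex MeasureTheory Filter Topology Set S6
open scoped Real ComplexConjugate

/-- standard region: `y0 < y < y1`, `s y < x₂ < t y`, `x₂ < x₁ < c y - x₂` -/
def m10_R (y0 y1 : ℝ) (s t c : ℝ → ℝ) : Set (ℝ × ℝ × ℝ) :=
  {p | (y0 < p.2.2 ∧ p.2.2 < y1) ∧ (s p.2.2 < p.2.1 ∧ p.2.1 < t p.2.2) ∧
    (p.2.1 < p.1 ∧ p.1 < c p.2.2 - p.2.1)}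

lemma m10_open (y0 y1 : ℝ) {s t c : ℝ → ℝ} (hs : Continuous s) (ht : Continuous t)
    (hc : Continuous c) : IsOpen (m10_R y0 y1 s t c) := by
  unfold m10_R
  refine IsOpen.and (IsOpen.and (isOpen_lt continuous_const (by fun_prop))
    (isOpen_lt (by fun_prop) continuous_const)) ?_
  refine IsOpen.and (IsOpen.and (isOpen_lt (by fun_prop) (by fun_prop))
    (isOpen_lt (by fun_prop) (by fun_prop))) ?_
  exact IsOpen.and (isOpen_lt (by fun_prop) (by fun_prop)) (isOpen_lt (by fun_prop) (by fun_prop))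

lemma m10_intOn {S : Set (ℝ × ℝ × ℝ)} (hS : S ⊆ Icc ((0, 0, 0) : ℝ × ℝ × ℝ) (1, 1, 1)) :
    IntegrableOn (fun p : ℝ × ℝ × ℝ => PP p ^ 2) S :=
  (v32_cont.continuousOn.integrableOn_compact
    (isCompact_Icc (a := ((0, 0, 0) : ℝ × ℝ × ℝ)) (b := (1, 1, 1)))).mono_set hS

/-- value of the integral over a standard region -/
lemma m10_val (y0 y1 : ℝ) {s t c : ℝ → ℝ} (hs : Continuous s) (ht : Continuous t)
    (hc : Continuous c) (h01 : y0 ≤ y1) (hst : ∀ y, y0 < y → y < y1 → s y ≤ t y)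
    (htc : ∀ y, y0 < y → y < y1 → t y ≤ c y / 2)
    (hI : m10_R y0 y1 s t c ⊆ Icc ((0, 0, 0) : ℝ × ℝ × ℝ) (1, 1, 1)) :
    ∫ p in m10_R y0 y1 s t c, PP p ^ 2 = ∫ y in y0..y1,
      (v32A (2 * (1 - y) - c y) (1 - y - s y) - v32A (2 * (1 - y) - c y) (1 - y - t y)) := by
  have hopen := m10_open y0 y1 hs ht hc
  set f : ℝ × ℝ × ℝ → ℝ := (m10_R y0 y1 s t c).indicator fun p => PP p ^ 2 with hf
  have hint : Integrable f := by
    rw [hf, integrable_indicator_iff hopen.measurableSet]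
    exact m10_intOn hI
  have h1 : ∫ p in m10_R y0 y1 s t c, PP p ^ 2 = ∫ p, f p := by
    rw [hf, integral_indicator hopen.measurableSet]
  rw [h1]
  have h2 : ∫ p, f p = ∫ z : ℝ × ℝ, ∫ x1 : ℝ, f (x1, z) :=
    integral_prod_symm (μ := (volume : Measure ℝ)) (ν := (volume : Measure (ℝ × ℝ))) f hint
  rw [h2]
  have h4 : Integrable (fun z : ℝ × ℝ => ∫ x1 : ℝ, f (x1, z)) :=
    Integrable.integral_prod_right (μ := (volume : Measure ℝ))
      (ν := (volume : Measure (ℝ × ℝ))) (f := f) hint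
  have h6 : ∫ z : ℝ × ℝ, ∫ x1 : ℝ, f (x1, z) = ∫ y : ℝ, ∫ x2 : ℝ, ∫ x1 : ℝ, f (x1, x2, y) :=
    integral_prod_symm (μ := (volume : Measure ℝ)) (ν := (volume : Measure ℝ)) _ h4
  rw [h6]
  -- inner integral
  have hinner : ∀ x2 y : ℝ, ∫ x1, f (x1, x2, y) = (Ioo y0 y1).indicator (fun _ =>
      (Ioo (s y) (t y)).indicator
        (fun x2 => v32F (1 - y) x2 (c y - x2) - v32F (1 - y) x2 x2) x2) y := by
    intro x2 y
    have e1 : ∀ x1, f (x1, x2, y) = (Ioo y0 y1).indicator (fun _ => (Ioo (s y) (t y)).indicator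
        (fun x2 => (Ioo x2 (c y - x2)).indicator
          (fun x1 => ((x1 - x2) * (1 - y - x1) * (1 - y - x2) / 2) ^ 2) x1) x2) y := by
      intro x1
      simp only [hf, indicator, m10_R, mem_ofPred_eq, mem_Ioo]
      split_ifs <;> first | rfl | tauto
    simp_rw [e1]
    by_cases hy : y ∈ Ioo y0 y1
    · simp only [indicator_of_mem hy]
      by_cases hx : x2 ∈ Ioo (s y) (t y)
      · simp only [indicator_of_mem hx]
        rw [integral_indicator measurableSet_Ioo]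
        have hc' : x2 ≤ c y - x2 := by
          have := htc y hy.1 hy.2
          linarith [hx.2]
        rw [← integral_Ioc_eq_integral_Ioo, ← intervalIntegral.integral_of_le hc']
        exact intervalIntegral.integral_eq_sub_of_hasDerivAt (fun x _ => v32F_deriv (1 - y) x2 x)
          (Continuous.intervalIntegrable (by fun_prop) _ _)
      · simp only [indicator_of_notMem hx, integral_zero]
    · simp only [indicator_of_notMem hy, integral_zero]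
  simp_rw [hinner]
  -- middle integral
  have hmid : ∀ y : ℝ, ∫ x2, (Ioo y0 y1).indicator (fun _ => (Ioo (s y) (t y)).indicator
        (fun x2 => v32F (1 - y) x2 (c y - x2) - v32F (1 - y) x2 x2) x2) y =
      (Ioo y0 y1).indicator (fun y =>
        (v32A (2 * (1 - y) - c y) (1 - y - s y) - v32A (2 * (1 - y) - c y) (1 - y - t y))) y := by
    intro y
    by_cases hy : y ∈ Ioo y0 y1
    · simp only [indicator_of_mem hy]
      rw [integral_indicator measurableSet_Ioo, ← integral_Ioc_eq_integral_Ioo,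
        ← intervalIntegral.integral_of_le (hst y hy.1 hy.2)]
      set b : ℝ := 2 * (1 - y) - c y with hb
      have h2 : ∀ x2, HasDerivAt (fun x => -v32A b (1 - y - x))
          (v32F (1 - y) x2 (c y - x2) - v32F (1 - y) x2 x2) x2 := by
        intro x2
        have h3 := ((v32A_deriv b (1 - y - x2)).comp_const_sub (1 - y) x2).neg
        refine h3.congr_deriv ?_
        unfold v32F
        rw [show c y = 2 * (1 - y) - b by rw [hb]; ring]
        ring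
      rw [intervalIntegral.integral_eq_sub_of_hasDerivAt (fun x _ => h2 x)
        (Continuous.intervalIntegrable (by unfold v32F; fun_prop) _ _)]
      ring
    · simp only [indicator_of_notMem hy, integral_zero]
  simp_rw [hmid]
  rw [integral_indicator measurableSet_Ioo, ← integral_Ioc_eq_integral_Ioo,
    ← intervalIntegral.integral_of_le h01]

/-- integral of a polynomial of degree 8 -/
lemma m10_poly (a0 a1 a2 a3 a4 a5 a6 a7 a8 u v : ℝ) :
    ∫ y in u..v, (a0 + a1 * y + a2 * y ^ 2 + a3 * y ^ 3 + a4 * y ^ 4 + a5 * y ^ 5 + a6 * y ^ 6 +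
      a7 * y ^ 7 + a8 * y ^ 8) =
    (a0 * v + a1 * v ^ 2 / 2 + a2 * v ^ 3 / 3 + a3 * v ^ 4 / 4 + a4 * v ^ 5 / 5 + a5 * v ^ 6 / 6 +
      a6 * v ^ 7 / 7 + a7 * v ^ 8 / 8 + a8 * v ^ 9 / 9) -
    (a0 * u + a1 * u ^ 2 / 2 + a2 * u ^ 3 / 3 + a3 * u ^ 4 / 4 + a4 * u ^ 5 / 5 + a5 * u ^ 6 / 6 +
      a6 * u ^ 7 / 7 + a7 * u ^ 8 / 8 + a8 * u ^ 9 / 9) := by
  have h3 : ∀ y : ℝ, HasDerivAt (fun v : ℝ => a0 * v ^ 1 + a1 * v ^ 2 / 2 + a2 * v ^ 3 / 3 +
      a3 * v ^ 4 / 4 + a4 * v ^ 5 / 5 + a5 * v ^ 6 / 6 + a6 * v ^ 7 / 7 + a7 * v ^ 8 / 8 +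
      a8 * v ^ 9 / 9)
      (a0 + a1 * y + a2 * y ^ 2 + a3 * y ^ 3 + a4 * y ^ 4 + a5 * y ^ 5 + a6 * y ^ 6 +
      a7 * y ^ 7 + a8 * y ^ 8) y := by
    intro y
    have h0 : ∀ n : ℕ, HasDerivAt (fun x : ℝ => x ^ n) ((n : ℝ) * y ^ (n - 1)) y :=
      fun n => hasDerivAt_pow n y
    have h4 := (((((((((h0 1).const_mul a0).add (((h0 2).const_mul a1).div_const 2)).add
      (((h0 3).const_mul a2).div_const 3)).add (((h0 4).const_mul a3).div_const 4)).add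
      (((h0 5).const_mul a4).div_const 5)).add (((h0 6).const_mul a5).div_const 6)).add
      (((h0 7).const_mul a6).div_const 7)).add (((h0 8).const_mul a7).div_const 8)).add
      (((h0 9).const_mul a8).div_const 9)
    refine h4.congr_deriv ?_
    norm_num
    ring
  rw [intervalIntegral.integral_eq_sub_of_hasDerivAt (fun x _ => h3 x)
    (Continuous.intervalIntegrable (by fun_prop) _ _)]
  ring

/-- `y < 1/6` -/
def m10_Ra : Set (ℝ × ℝ × ℝ) :=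
  m10_R 0 (1 / 6) (fun _ => 0) (fun y => (1 / 2 + y) / 2) (fun y => 1 / 2 + y)
/-- `1/6 < y < 1/2`, `x₂ < 1/2 - y` -/
def m10_Rb : Set (ℝ × ℝ × ℝ) :=
  m10_R (1 / 6) (1 / 2) (fun _ => 0) (fun y => 1 / 2 - y) (fun y => 3 / 4 - y / 2)
/-- `1/4 < y < 1/2`, `x₂ > 1/2 - y` -/
def m10_Rc : Set (ℝ × ℝ × ℝ) :=
  m10_R (1 / 4) (1 / 2) (fun y => 1 / 2 - y) (fun y => (1 - y) / 3) (fun y => 2 * (1 - y) / 3)
/-- `1/2 < y < 1` -/
def m10_Rd : Set (ℝ × ℝ × ℝ) :=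
  m10_R (1 / 2) 1 (fun _ => 0) (fun y => (1 - y) / 3) (fun y => 2 * (1 - y) / 3)

lemma m10_Ia : m10_Ra ⊆ Icc ((0, 0, 0) : ℝ × ℝ × ℝ) (1, 1, 1) := by
  rintro ⟨x1, x2, y⟩ ⟨⟨h1, h2⟩, ⟨h3, h4⟩, h5, h6⟩
  simp only at h1 h2 h3 h4 h5 h6
  refine ⟨⟨?_, ?_, ?_⟩, ⟨?_, ?_, ?_⟩⟩ <;> simp only <;> linarith

lemma m10_Ib : m10_Rb ⊆ Icc ((0, 0, 0) : ℝ × ℝ × ℝ) (1, 1, 1) := by
  rintro ⟨x1, x2, y⟩ ⟨⟨h1, h2⟩, ⟨h3, h4⟩, h5, h6⟩
  simp only at h1 h2 h3 h4 h5 h6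
  refine ⟨⟨?_, ?_, ?_⟩, ⟨?_, ?_, ?_⟩⟩ <;> simp only <;> linarith

lemma m10_Ic : m10_Rc ⊆ Icc ((0, 0, 0) : ℝ × ℝ × ℝ) (1, 1, 1) := by
  rintro ⟨x1, x2, y⟩ ⟨⟨h1, h2⟩, ⟨h3, h4⟩, h5, h6⟩
  simp only at h1 h2 h3 h4 h5 h6
  refine ⟨⟨?_, ?_, ?_⟩, ⟨?_, ?_, ?_⟩⟩ <;> simp only <;> linarith

lemma m10_Id : m10_Rd ⊆ Icc ((0, 0, 0) : ℝ × ℝ × ℝ) (1, 1, 1) := by
  rintro ⟨x1, x2, y⟩ ⟨⟨h1, h2⟩, ⟨h3, h4⟩, h5, h6⟩
  simp only at h1 h2 h3 h4 h5 h6
  refine ⟨⟨?_, ?_, ?_⟩, ⟨?_, ?_, ?_⟩⟩ <;> simp only <;> linarith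

lemma m10_va : ∫ p in m10_Ra, PP p ^ 2 = 6631579 / 174142586880 := by
  unfold m10_Ra
  rw [m10_val 0 (1 / 6) (by fun_prop) (by fun_prop) (by fun_prop) (by norm_num)
    (fun y h1 h2 => by linarith) (fun y h1 h2 => by linarith) m10_Ia]
  have : ∀ y : ℝ, (v32A (2 * (1 - y) - (1 / 2 + y)) (1 - y - 0) -
      v32A (2 * (1 - y) - (1 / 2 + y)) (1 - y - (1 / 2 + y) / 2)) =
      (173/688128 + 31/215040 * y + (-119/30720) * y ^ 2 + (-17/7680) * y ^ 3 + 67/3072 * y ^ 4 +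
        5/384 * y ^ 5 + (-89/1920) * y ^ 6 + (-59/3360) * y ^ 7 + 493/13440 * y ^ 8) := by
    intro y
    unfold v32A
    ring
  simp_rw [this]
  rw [m10_poly]
  norm_num

lemma m10_vb : ∫ p in m10_Rb, PP p ^ 2 = 158239 / 9523422720 := by
  unfold m10_Rb
  rw [m10_val (1 / 6) (1 / 2) (by fun_prop) (by fun_prop) (by fun_prop) (by norm_num)
    (fun y h1 h2 => by linarith) (fun y h1 h2 => by linarith) m10_Ib]
  have : ∀ y : ℝ, (v32A (2 * (1 - y) - (3 / 4 - y / 2)) (1 - y - 0) -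
      v32A (2 * (1 - y) - (3 / 4 - y / 2)) (1 - y - (1 / 2 - y))) =
      (1837/2752512 + (-691/143360) * y + 1167/81920 * y ^ 2 + (-199/10240) * y ^ 3 +
        11/3072 * y ^ 4 + 91/3840 * y ^ 5 + (-421/15360) * y ^ 6 + 139/13440 * y ^ 7 +
        (-89/53760) * y ^ 8) := by
    intro y
    unfold v32A
    ring
  simp_rw [this]
  rw [m10_poly]
  norm_num

lemma m10_vc : ∫ p in m10_Rc, PP p ^ 2 = 1759 / 12697896960 := by
  unfold m10_Rc
  rw [m10_val (1 / 4) (1 / 2) (by fun_prop) (by fun_prop) (by fun_prop) (by norm_num)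
    (fun y h1 h2 => by linarith) (fun y h1 h2 => by linarith) m10_Ic]
  have : ∀ y : ℝ, (v32A (2 * (1 - y) - 2 * (1 - y) / 3) (1 - y - (1 / 2 - y)) -
      v32A (2 * (1 - y) - 2 * (1 - y) / 3) (1 - y - (1 - y) / 3)) =
      (6967/352719360 + (-8303/22044960) * y + 4607/1574640 * y ^ 2 + (-2333/196830) * y ^ 3 +
        1049/39366 * y ^ 4 + (-3232/98415) * y ^ 5 + 2048/98415 * y ^ 6 + (-4096/688905) * y ^ 7 +
        512/688905 * y ^ 8) := by
    intro y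
    unfold v32A
    ring
  simp_rw [this]
  rw [m10_poly]
  norm_num

lemma m10_vd : ∫ p in m10_Rd, PP p ^ 2 = 727 / 6348948480 := by
  unfold m10_Rd
  rw [m10_val (1 / 2) 1 (by fun_prop) (by fun_prop) (by fun_prop) (by norm_num)
    (fun y h1 h2 => by linarith) (fun y h1 h2 => by linarith) m10_Id]
  have : ∀ y : ℝ, (v32A (2 * (1 - y) - 2 * (1 - y) / 3) (1 - y - 0) -
      v32A (2 * (1 - y) - 2 * (1 - y) / 3) (1 - y - (1 - y) / 3)) =
      (727/1377810 + (-2908/688905) * y + 1454/98415 * y ^ 2 + (-2908/98415) * y ^ 3 +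
        727/19683 * y ^ 4 + (-2908/98415) * y ^ 5 + 1454/98415 * y ^ 6 + (-2908/688905) * y ^ 7 +
        727/1377810 * y ^ 8) := by
    intro y
    unfold v32A
    ring
  simp_rw [this]
  rw [m10_poly]
  norm_num

def m10_V1 : Set (ℝ × ℝ × ℝ) :=
  m10_R 0 (2 / 5) (fun _ => 0) (fun y => y / 2) (fun y => y)

lemma m10_IV1 : m10_V1 ⊆ Icc ((0, 0, 0) : ℝ × ℝ × ℝ) (1, 1, 1) := by
  rintro ⟨x1, x2, y⟩ ⟨⟨h1, h2⟩, ⟨h3, h4⟩, h5, h6⟩
  simp only at h1 h2 h3 h4 h5 h6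
  refine ⟨⟨?_, ?_, ?_⟩, ⟨?_, ?_, ?_⟩⟩ <;> simp only <;> linarith

lemma m10_vV1 : ∫ p in m10_V1, PP p ^ 2 = 3487 / 1845703125 := by
  unfold m10_V1
  rw [m10_val 0 (2 / 5) (by fun_prop) (by fun_prop) (by fun_prop) (by norm_num)
    (fun y h1 h2 => by linarith) (fun y h1 h2 => by linarith) m10_IV1]
  have : ∀ y : ℝ, (v32A (2 * (1 - y) - y) (1 - y - 0) -
      v32A (2 * (1 - y) - y) (1 - y - y / 2)) =
      (0/1 + 0/1 * y + 0/1 * y ^ 2 + 0/1 * y ^ 3 + 1/96 * y ^ 4 + (-7/120) * y ^ 5 + 29/240 * y ^ 6 + (-23/210) * y ^ 7 + 493/13440 * y ^ 8) := by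
    intro y
    unfold v32A
    ring
  simp_rw [this]
  rw [m10_poly]
  norm_num

def m10_V2 : Set (ℝ × ℝ × ℝ) :=
  m10_R (2 / 5) (1 / 2) (fun _ => 0) (fun y => 1 / 2 - y) (fun y => y)

lemma m10_IV2 : m10_V2 ⊆ Icc ((0, 0, 0) : ℝ × ℝ × ℝ) (1, 1, 1) := by
  rintro ⟨x1, x2, y⟩ ⟨⟨h1, h2⟩, ⟨h3, h4⟩, h5, h6⟩
  simp only at h1 h2 h3 h4 h5 h6
  refine ⟨⟨?_, ?_, ?_⟩, ⟨?_, ?_, ?_⟩⟩ <;> simp only <;> linarith

lemma m10_vV2 : ∫ p in m10_V2, PP p ^ 2 = 12762973 / 30240000000000 := by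
  unfold m10_V2
  rw [m10_val (2 / 5) (1 / 2) (by fun_prop) (by fun_prop) (by fun_prop) (by norm_num)
    (fun y h1 h2 => by linarith) (fun y h1 h2 => by linarith) m10_IV2]
  have : ∀ y : ℝ, (v32A (2 * (1 - y) - y) (1 - y - 0) -
      v32A (2 * (1 - y) - y) (1 - y - (1 / 2 - y))) =
      ((-59/10752) + 407/4480 * y + (-813/1280) * y ^ 2 + 1557/640 * y ^ 3 + (-8489/1536) * y ^ 4 + 3617/480 * y ^ 5 + (-1429/240) * y ^ 6 + 419/168 * y ^ 7 + (-1517/3360) * y ^ 8) := by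
    intro y
    unfold v32A
    ring
  simp_rw [this]
  rw [m10_poly]
  norm_num

def m10_V3 : Set (ℝ × ℝ × ℝ) :=
  m10_R (2 / 5) (1 / 2) (fun y => 1 / 2 - y) (fun y => (1 - y) / 3) (fun y => 2 * (1 - y) / 3)

lemma m10_IV3 : m10_V3 ⊆ Icc ((0, 0, 0) : ℝ × ℝ × ℝ) (1, 1, 1) := by
  rintro ⟨x1, x2, y⟩ ⟨⟨h1, h2⟩, ⟨h3, h4⟩, h5, h6⟩
  simp only at h1 h2 h3 h4 h5 h6
  refine ⟨⟨?_, ?_, ?_⟩, ⟨?_, ?_, ?_⟩⟩ <;> simp only <;> linarith

lemma m10_vV3 : ∫ p in m10_V3, PP p ^ 2 = 1503238579 / 12400290000000000 := by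
  unfold m10_V3
  rw [m10_val (2 / 5) (1 / 2) (by fun_prop) (by fun_prop) (by fun_prop) (by norm_num)
    (fun y h1 h2 => by linarith) (fun y h1 h2 => by linarith) m10_IV3]
  have : ∀ y : ℝ, (v32A (2 * (1 - y) - 2 * (1 - y) / 3) (1 - y - (1 / 2 - y)) -
      v32A (2 * (1 - y) - 2 * (1 - y) / 3) (1 - y - (1 - y) / 3)) =
      (6967/352719360 + (-8303/22044960) * y + 4607/1574640 * y ^ 2 + (-2333/196830) * y ^ 3 + 1049/39366 * y ^ 4 + (-3232/98415) * y ^ 5 + 2048/98415 * y ^ 6 + (-4096/688905) * y ^ 7 + 512/688905 * y ^ 8) := by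
    intro y
    unfold v32A
    ring
  simp_rw [this]
  rw [m10_poly]
  norm_num

lemma m10_mb : MeasurableSet m10_Rb := (m10_open _ _ (by fun_prop) (by fun_prop) (by fun_prop)).measurableSet
lemma m10_mc : MeasurableSet m10_Rc := (m10_open _ _ (by fun_prop) (by fun_prop) (by fun_prop)).measurableSet
lemma m10_md : MeasurableSet m10_Rd := (m10_open _ _ (by fun_prop) (by fun_prop) (by fun_prop)).measurableSet
lemma m10_ma : MeasurableSet m10_Ra := (m10_open _ _ (by fun_prop) (by fun_prop) (by fun_prop)).measurableSet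
lemma m10_m2 : MeasurableSet m10_V2 := (m10_open _ _ (by fun_prop) (by fun_prop) (by fun_prop)).measurableSet
lemma m10_m3 : MeasurableSet m10_V3 := (m10_open _ _ (by fun_prop) (by fun_prop) (by fun_prop)).measurableSet

def m10_U : Set (ℝ × ℝ × ℝ) := ((m10_Ra ∪ m10_Rb) ∪ m10_Rc) ∪ m10_Rd
def m10_V : Set (ℝ × ℝ × ℝ) := ((m10_V1 ∪ m10_V2) ∪ m10_V3) ∪ m10_Rd

lemma m10_U_sub : m10_U ⊆ RG := by
  unfold m10_U RG Reg
  rintro ⟨x1, x2, y⟩ (((⟨⟨h1, h2⟩, ⟨h3, h4⟩, h5, h6⟩ | ⟨⟨h1, h2⟩, ⟨h3, h4⟩, h5, h6⟩) |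
    ⟨⟨h1, h2⟩, ⟨h3, h4⟩, h5, h6⟩) | ⟨⟨h1, h2⟩, ⟨h3, h4⟩, h5, h6⟩)
  all_goals simp only at h1 h2 h3 h4 h5 h6
  · refine Or.inr ⟨?_, ?_, ?_, ?_, ?_, ?_⟩ <;> simp only <;> linarith
  · refine Or.inr ⟨?_, ?_, ?_, ?_, ?_, ?_⟩ <;> simp only <;> linarith
  · refine Or.inl ⟨?_, ?_, ?_, ?_, ?_⟩ <;> simp only <;> linarith
  · refine Or.inl ⟨?_, ?_, ?_, ?_, ?_⟩ <;> simp only <;> linarith

lemma m10_IG : RG ⊆ Icc ((0, 0, 0) : ℝ × ℝ × ℝ) (1, 1, 1) := by
  unfold RG Reg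
  rintro ⟨x1, x2, y⟩ (⟨h1, h2, h3, h4, h5⟩ | ⟨h1, h2, h3, h4, h5, h6⟩)
  · simp only at h1 h2 h3 h4 h5
    refine ⟨⟨?_, ?_, ?_⟩, ⟨?_, ?_, ?_⟩⟩ <;> simp only <;> linarith
  · simp only at h1 h2 h3 h4 h5 h6
    refine ⟨⟨?_, ?_, ?_⟩, ⟨?_, ?_, ?_⟩⟩ <;> simp only <;> linarith

lemma m10_valU : ∫ p in m10_U, PP p ^ 2 = 6631579 / 174142586880 + 158239 / 9523422720 +
    1759 / 12697896960 + 727 / 6348948480 := by
  have d1 : Disjoint ((m10_Ra ∪ m10_Rb) ∪ m10_Rc) m10_Rd := by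
    rw [Set.disjoint_left]
    rintro ⟨x1, x2, y⟩ ((h | h) | h) h' <;>
    · have a1 := h.1.2
      have a2 := h'.1.1
      simp only at a1 a2
      linarith
  have d2 : Disjoint (m10_Ra ∪ m10_Rb) m10_Rc := by
    rw [Set.disjoint_left]
    rintro ⟨x1, x2, y⟩ (h | h) h'
    · have a1 := h.1.2
      have a2 := h'.1.1
      simp only at a1 a2
      linarith
    · have a1 := h.2.1.2
      have a2 := h'.2.1.1
      simp only at a1 a2
      linarith
  have d3 : Disjoint m10_Ra m10_Rb := by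
    rw [Set.disjoint_left]
    rintro ⟨x1, x2, y⟩ h h'
    have a1 := h.1.2
    have a2 := h'.1.1
    simp only at a1 a2
    linarith
  have i1 := m10_intOn m10_Ia
  have i2 := m10_intOn m10_Ib
  have i3 := m10_intOn m10_Ic
  have i4 := m10_intOn m10_Id
  unfold m10_U
  rw [setIntegral_union d1 m10_md ((i1.union i2).union i3) i4,
    setIntegral_union d2 m10_mc (i1.union i2) i3, setIntegral_union d3 m10_mb i1 i2,
    m10_va, m10_vb, m10_vc, m10_vd]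

lemma m10_valV : ∫ p in m10_V, PP p ^ 2 = 3487 / 1845703125 + 12762973 / 30240000000000 +
    1503238579 / 12400290000000000 + 727 / 6348948480 := by
  have d1 : Disjoint ((m10_V1 ∪ m10_V2) ∪ m10_V3) m10_Rd := by
    rw [Set.disjoint_left]
    rintro ⟨x1, x2, y⟩ ((h | h) | h) h' <;>
    · have a1 := h.1.2
      have a2 := h'.1.1
      simp only at a1 a2
      linarith
  have d2 : Disjoint (m10_V1 ∪ m10_V2) m10_V3 := by
    rw [Set.disjoint_left]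
    rintro ⟨x1, x2, y⟩ (h | h) h'
    · have a1 := h.1.2
      have a2 := h'.1.1
      simp only at a1 a2
      linarith
    · have a1 := h.2.1.2
      have a2 := h'.2.1.1
      simp only at a1 a2
      linarith
  have d3 : Disjoint m10_V1 m10_V2 := by
    rw [Set.disjoint_left]
    rintro ⟨x1, x2, y⟩ h h'
    have a1 := h.1.2
    have a2 := h'.1.1
    simp only at a1 a2
    linarith
  have i1 := m10_intOn m10_IV1
  have i2 := m10_intOn m10_IV2
  have i3 := m10_intOn m10_IV3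
  have i4 := m10_intOn m10_Id
  unfold m10_V
  rw [setIntegral_union d1 m10_md ((i1.union i2).union i3) i4,
    setIntegral_union d2 m10_m3 (i1.union i2) i3, setIntegral_union d3 m10_m2 i1 i2,
    m10_vV1, m10_vV2, m10_vV3, m10_vd]

lemma m10_null : ∀ᵐ p : ℝ × ℝ × ℝ, p.1 + p.2.1 ≠ p.2.2 ∧ p.2.2 ≠ 2 / 5 := by
  have h1 : ∀ᵐ p : ℝ × ℝ × ℝ, p.2.2 ≠ 2 / 5 := by
    have h0 : ∀ᵐ y : ℝ, y ≠ 2 / 5 := by
      rw [ae_iff]
      simp
    have h2 : ∀ᵐ z : ℝ × ℝ, z.2 ≠ 2 / 5 := Measure.quasiMeasurePreserving_snd.ae h0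
    exact Measure.quasiMeasurePreserving_snd.ae h2
  have h2 : ∀ᵐ p : ℝ × ℝ × ℝ, p.1 + p.2.1 ≠ p.2.2 := by
    let s : Submodule ℝ (ℝ × ℝ × ℝ) :=
      { carrier := {p | p.1 + p.2.1 = p.2.2}
        add_mem' := by
          intro a b ha hb
          simp only [mem_ofPred_eq, Prod.fst_add, Prod.snd_add] at *
          linarith
        zero_mem' := by simp
        smul_mem' := by
          intro c a ha
          simp only [mem_ofPred_eq, Prod.smul_fst, Prod.smul_snd, smul_eq_mul] at *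
          rw [← ha]
          ring }
    have hs : s ≠ ⊤ := by
      intro h
      have : ((1, 0, 0) : ℝ × ℝ × ℝ) ∈ s := by rw [h]; trivial
      have h3 : (1 : ℝ) + 0 = 0 := this
      norm_num at h3
    haveI i1 : (volume : Measure (ℝ × ℝ)).IsAddHaarMeasure :=
      Measure.prod.instIsAddHaarMeasure (volume : Measure ℝ) (volume : Measure ℝ)
    haveI i2 : (volume : Measure (ℝ × ℝ × ℝ)).IsAddHaarMeasure :=
      Measure.prod.instIsAddHaarMeasure (volume : Measure ℝ) (volume : Measure (ℝ × ℝ))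
    rw [ae_iff]
    have := Measure.addHaar_submodule (volume : Measure (ℝ × ℝ × ℝ)) s hs
    convert this using 2
    ext p
    simp [s]
  filter_upwards [h1, h2] with p a b
  exact ⟨b, a⟩

theorem valG1 : (2772537042697 / 72900000000 : ℝ) ≤
    2 * (Nat.factorial 9 : ℝ) * ∫ p in RG ∩ Hneg, PP p ^ 2 := by
  have hH : MeasurableSet Hneg := by
    have : IsOpen Hneg := isOpen_lt (by unfold th; fun_prop) continuous_const
    exact this.measurableSet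
  have hUm : MeasurableSet m10_U := ((m10_ma.union m10_mb).union m10_mc).union m10_md
  have hU : m10_U ⊆ Icc ((0, 0, 0) : ℝ × ℝ × ℝ) (1, 1, 1) := m10_U_sub.trans m10_IG
  have h1 : ∫ p in m10_U ∩ Hneg, PP p ^ 2 ≤ ∫ p in RG ∩ Hneg, PP p ^ 2 :=
    setIntegral_mono_set (m10_intOn (inter_subset_left.trans m10_IG))
      (Eventually.of_forall fun p => by positivity)
      (LE.le.eventuallyLE (inter_subset_inter_left _ m10_U_sub))
  have h2 : ∫ p in m10_U, PP p ^ 2 = (∫ p in m10_U ∩ Hneg, PP p ^ 2) +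
      ∫ p in m10_U \ Hneg, PP p ^ 2 := by
    rw [← integral_inter_add_sdiff hH (m10_intOn hU)]
  have hV : m10_V ⊆ Icc ((0, 0, 0) : ℝ × ℝ × ℝ) (1, 1, 1) := by
    unfold m10_V
    exact union_subset (union_subset (union_subset m10_IV1 m10_IV2) m10_IV3) m10_Id
  have h3 : ∫ p in m10_U \ Hneg, PP p ^ 2 ≤ ∫ p in m10_V, PP p ^ 2 := by
    refine setIntegral_mono_set (m10_intOn hV) (Eventually.of_forall fun p => by positivity) ?_
    clear h1 h2
    filter_upwards [m10_null] with p hp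
    rintro ⟨hpU, hpH⟩
    obtain ⟨x1, x2, y⟩ := p
    obtain ⟨n1, n2⟩ := hp
    simp only at n1 n2
    have hpH' : x1 + x2 < y := by
      have : ¬ (y - x1 - x2 < 0) := hpH
      exact lt_of_le_of_ne (by linarith) n1
    unfold m10_U at hpU
    rcases hpU with ((⟨⟨h1, h2⟩, ⟨h3, h4⟩, h5, h6⟩ | ⟨⟨h1, h2⟩, ⟨h3, h4⟩, h5, h6⟩) |
      ⟨⟨h1, h2⟩, ⟨h3, h4⟩, h5, h6⟩) | h
    · simp only at h1 h2 h3 h4 h5 h6
      refine Or.inl (Or.inl (Or.inl ⟨⟨?_, ?_⟩, ⟨?_, ?_⟩, ?_, ?_⟩)) <;> simp only <;> linarith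
    · simp only at h1 h2 h3 h4 h5 h6
      rcases lt_or_gt_of_ne n2 with h7 | h7
      · refine Or.inl (Or.inl (Or.inl ⟨⟨?_, ?_⟩, ⟨?_, ?_⟩, ?_, ?_⟩)) <;> simp only <;> linarith
      · refine Or.inl (Or.inl (Or.inr ⟨⟨?_, ?_⟩, ⟨?_, ?_⟩, ?_, ?_⟩)) <;> simp only <;> linarith
    · simp only at h1 h2 h3 h4 h5 h6
      rcases lt_or_gt_of_ne n2 with h7 | h7
      · refine Or.inl (Or.inl (Or.inl ⟨⟨?_, ?_⟩, ⟨?_, ?_⟩, ?_, ?_⟩)) <;> simp only <;> linarith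
      · refine Or.inl (Or.inr ⟨⟨?_, ?_⟩, ⟨?_, ?_⟩, ?_, ?_⟩) <;> simp only <;> linarith
    · exact Or.inr h
  rw [m10_valU] at h2
  rw [m10_valV] at h3
  have hfac : (Nat.factorial 9 : ℝ) = 362880 := by norm_num [Nat.factorial]
  rw [hfac]
  linarith

end K3

end
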