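import Pool.Agent.Lib.MP_069854_nt.Part03
import Pool.Agent.Lib.MP_39df77_nt.S6_I1_lim
import Pool.Agent.Lib.MP_069854_nt.Part04
import Pool.Agent.Lib.MP_069854_nt.Part07
import Pool.Agent.Lib.MP_069854_nt.Part08
import Pool.Agent.Lib.MP_069854_nt.Part09

section

/-!
# MP_069854_nt, shifted lower bound for `k = 3`: change of coordinates

`u = (x₂, x₁, 1 - y)`, so that `PP p = (u₂-u₁)(u₃-u₁)(u₃-u₂)/2` and `1 - th p = u₁+u₂+u₃`.
-/

namespace K3
open Complex MeasureTheory Filter Topology Set S6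
open scoped Real ComplexConjugate

noncomputable section

/-- the change of coordinates `(u₁,u₂,u₃) ↦ (x₁,x₂,y) = (u₂,u₁,1-u₃)` -/
def cc (u : ℝ × ℝ × ℝ) : ℝ × ℝ × ℝ := (u.2.1, u.1, 1 - u.2.2)

/-- as a measurable equivalence -/
def ccE : (ℝ × ℝ × ℝ) ≃ᵐ (ℝ × ℝ × ℝ) where
  toFun := cc
  invFun := fun p => (p.2.1, p.1, 1 - p.2.2)
  left_inv := fun u => by simp [cc]
  right_inv := fun u => by simp [cc]
  measurable_toFun := by
    show Measurable cc
    unfold cc
    fun_prop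
  measurable_invFun := by
    show Measurable fun p : ℝ × ℝ × ℝ => (p.2.1, p.1, 1 - p.2.2)
    fun_prop

theorem cc_mp : MeasurePreserving cc := by
  have h1 : MeasurePreserving (fun y : ℝ => 1 - y) := Measure.measurePreserving_sub_left volume (1 : ℝ)
  have h2 : MeasurePreserving (Prod.map (id : ℝ → ℝ) (Prod.map (id : ℝ → ℝ) (fun y : ℝ => 1 - y)))
      (volume : Measure (ℝ × ℝ × ℝ)) volume :=
    (MeasurePreserving.id volume).prod ((MeasurePreserving.id volume).prod h1)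
  -- swap the first two coordinates
  have h3 : MeasurePreserving (fun u : ℝ × ℝ × ℝ => ((u.1, u.2.1), u.2.2))
      (volume : Measure (ℝ × ℝ × ℝ)) (volume : Measure ((ℝ × ℝ) × ℝ)) :=
    (measurePreserving_prodAssoc (volume : Measure ℝ) (volume : Measure ℝ)
      (volume : Measure ℝ)).symm MeasurableEquiv.prodAssoc
  have h4 : MeasurePreserving (Prod.map (Prod.swap : ℝ × ℝ → ℝ × ℝ) (id : ℝ → ℝ))
      (volume : Measure ((ℝ × ℝ) × ℝ)) volume :=
    (Measure.measurePreserving_swap (μ := (volume : Measure ℝ)) (ν := (volume : Measure ℝ))).prod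
      (MeasurePreserving.id volume)
  have h5 := measurePreserving_prodAssoc (volume : Measure ℝ) (volume : Measure ℝ)
      (volume : Measure ℝ)
  have h6 := h2.comp (h5.comp (h4.comp h3))
  exact h6

theorem cc_preimage_integral {R : Set (ℝ × ℝ × ℝ)} (f : ℝ × ℝ × ℝ → ℝ) :
    ∫ p in R, f p = ∫ u in cc ⁻¹' R, f (cc u) :=
  (cc_mp.setIntegral_preimage_emb ccE.measurableEmbedding f R).symm

end

end K3

end

section

namespace K3
open Complex MeasureTheory Filter Topology Set S6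
open scoped Real ComplexConjugate

lemma k07a_vt_bound2 (n : ℕ) (s : ℂ) (hs : s.re = 1 / 2) :
    ‖MP069854.vt n s‖ ≤ 2 * ‖s - 1‖ * (1 / √((n : ℝ) + 1)) := by
  have hpos : (0 : ℝ) < (n : ℝ) + 1 := by positivity
  have hrp : ((n : ℝ) + 1) ^ (-(1 / 2 : ℝ)) = 1 / √((n : ℝ) + 1) := by
    rw [Real.rpow_neg hpos.le, ← Real.sqrt_eq_rpow, one_div]
  have h1 : ‖(s - 1) * ((n : ℂ) + 1) ^ (-s)‖ = ‖s - 1‖ * (1 / √((n : ℝ) + 1)) := by
    have h := MP069854.norm_cpow_line n 0 le_rfl (-s)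
    simp only [ofReal_zero, add_zero, neg_re, hs] at h
    rw [norm_mul, h, hrp]
  have h2 : ‖((n : ℂ) + 2) ^ (1 - s) - ((n : ℂ) + 1) ^ (1 - s)‖ ≤
      ‖s - 1‖ * (1 / √((n : ℝ) + 1)) := by
    have hm := Convex.norm_image_sub_le_of_norm_hasDerivWithin_le (𝕜 := ℝ)
      (f := fun x : ℝ => ((n : ℂ) + 1 + x) ^ (1 - s))
      (f' := fun x : ℝ => (1 - s) * ((n : ℂ) + 1 + x) ^ (1 - s - 1))
      (s := Icc (0:ℝ) 1) (x := 0) (y := 1) (C := ‖s - 1‖ * (1 / √((n : ℝ) + 1)))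
      (fun y hy => (MP069854.hasDerivAt_cpow_line n y hy.1 (1 - s)).hasDerivWithinAt)
      (fun y hy => by
        rw [norm_mul, MP069854.norm_cpow_line n y hy.1, norm_sub_rev]
        apply mul_le_mul_of_nonneg_left _ (norm_nonneg _)
        have h3 : (1 - s - 1).re = -(1 / 2 : ℝ) := by simp [hs]
        rw [h3, ← hrp]
        exact Real.rpow_le_rpow_of_nonpos (by positivity) (by linarith only [hy.1, hy]) (by norm_num))
      (convex_Icc 0 1) (by simp) (by simp)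
    have e1 : ((n : ℂ) + 1 + ((1 : ℝ) : ℂ)) = (n : ℂ) + 2 := by push_cast; ring
    have e2 : ((n : ℂ) + 1 + ((0 : ℝ) : ℂ)) = (n : ℂ) + 1 := by push_cast; ring
    simp only [e1, e2] at hm
    simpa using hm
  calc ‖MP069854.vt n s‖ ≤ ‖(s - 1) * ((n : ℂ) + 1) ^ (-s)‖ +
        ‖((n : ℂ) + 2) ^ (1 - s) - ((n : ℂ) + 1) ^ (1 - s)‖ := norm_add_le _ _
    _ ≤ ‖s - 1‖ * (1 / √((n : ℝ) + 1)) + ‖s - 1‖ * (1 / √((n : ℝ) + 1)) := by
        rw [h1]; gcongr
    _ = _ := by ring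

lemma k07a_head (N : ℕ) : ∑ n ∈ Finset.range N, 1 / √((n : ℝ) + 1) ≤ 2 * √(N : ℝ) := by
  induction N with
  | zero => simp
  | succ N ih =>
    rw [Finset.sum_range_succ]
    set a := √(N : ℝ) with ha
    set b := √((N : ℝ) + 1) with hb
    have hb0 : 0 < b := Real.sqrt_pos.2 (by positivity)
    have ha0 : 0 ≤ a := Real.sqrt_nonneg _
    have hab : a ≤ b := Real.sqrt_le_sqrt (by linarith only [])
    have ha2 : a * a = N := Real.mul_self_sqrt (by positivity)
    have hb2 : b * b = (N : ℝ) + 1 := Real.mul_self_sqrt (by positivity)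
    have h1 : 1 / b ≤ 2 * b - 2 * a := by
      rw [div_le_iff₀ hb0]
      linarith only [mul_nonneg ha0 (sub_nonneg.2 hab), sq_nonneg (b - a), ha2, hb2]
    push_cast
    linarith only [ih, h1]

lemma k07a_step (x : ℝ) (hx : 1 ≤ x) :
    (x + 1) ^ (-(1 / 2 : ℝ) - 1) ≤ 2 * (1 / √x - 1 / √(x + 1)) := by
  have h0 : 0 < x + 1 := by linarith only [hx]
  set a := √x with ha
  set b := √(x + 1) with hb
  have hb0 : 0 < b := Real.sqrt_pos.2 h0
  have ha0 : 0 < a := Real.sqrt_pos.2 (by linarith only [hx])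
  have hab : a ≤ b := Real.sqrt_le_sqrt (by linarith only [])
  have ha2 : a * a = x := Real.mul_self_sqrt (by linarith only [hx])
  have hb2 : b * b = x + 1 := Real.mul_self_sqrt h0.le
  have h1 : (x + 1) ^ (-(1 / 2 : ℝ) - 1) = 1 / (b * (x + 1)) := by
    rw [Real.rpow_sub_one h0.ne', Real.rpow_neg h0.le, ← Real.sqrt_eq_rpow, ← hb]
    field_simp
  rw [h1, ← hb2, show 2 * (1 / a - 1 / b) = 2 * (b - a) / (a * b) by field_simp]
  rw [div_le_div_iff₀ (by positivity) (by positivity)]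
  have h2 : (b - a) * (b + a) = 1 := by linarith only [ha2, hb2]
  have h3 : a * (b + a) ≤ 2 * (b * b) := by nlinarith only [ha2, hb2, hb0, hab]
  have h4 : 0 ≤ b - a := by linarith only [hab]
  have h5 : a = (b - a) * (a * (b + a)) := by
    calc a = a * 1 := by ring
      _ = a * ((b - a) * (b + a)) := by rw [h2]
      _ = _ := by ring
  have h6 : a ≤ (b - a) * (2 * (b * b)) := by
    calc a = (b - a) * (a * (b + a)) := h5
      _ ≤ _ := mul_le_mul_of_nonneg_left h3 h4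
  linarith only [mul_le_mul_of_nonneg_right h6 hb0.le, h6, hb0]

lemma k07a_tail (N : ℕ) (hN : 1 ≤ N) :
    HasSum (fun n : ℕ => 2 * (1 / √((n : ℝ) + N) - 1 / √((n : ℝ) + N + 1))) (2 / √(N : ℝ)) := by
  have hN' : (1 : ℝ) ≤ N := by exact_mod_cast hN
  rw [hasSum_iff_tendsto_nat_of_nonneg]
  · have hs : ∀ k : ℕ, ∑ n ∈ Finset.range k,
        2 * (1 / √((n : ℝ) + N) - 1 / √((n : ℝ) + N + 1)) =
        2 / √(N : ℝ) - 2 * (√((k : ℝ) + N))⁻¹ := by
      intro k
      induction k with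
      | zero => simp [div_eq_mul_inv]
      | succ k ih =>
        rw [Finset.sum_range_succ, ih]
        push_cast
        rw [show (k : ℝ) + 1 + N = k + N + 1 by ring]
        rw [one_div, one_div]
        ring
    simp only [hs]
    have h1 : Tendsto (fun k : ℕ => √((k : ℝ) + N)) atTop atTop :=
      Real.tendsto_sqrt_atTop.comp (tendsto_atTop_add_const_right _ _ tendsto_natCast_atTop_atTop)
    have h2 := (tendsto_inv_atTop_zero.comp h1).const_mul 2
    have h3 := h2.const_sub (2 / √(N : ℝ))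
    simpa using h3
  · intro n
    have h1 : √((n : ℝ) + N) ≤ √((n : ℝ) + N + 1) := Real.sqrt_le_sqrt (by linarith only [])
    have h2 : 0 < √((n : ℝ) + N) := Real.sqrt_pos.2 (by positivity)
    have h3 := one_div_le_one_div_of_le h2 h1
    linarith only [h3]

theorem ze_sq_le : ∃ C : ℝ, 0 ≤ C ∧ ∀ t, ‖ze t‖ ^ 2 ≤ C * (1 + |t|) := by
  refine ⟨324, by norm_num, fun t => ?_⟩
  set s : ℂ := 1 / 2 + t * I with hsd
  have hre : s.re = 1 / 2 := by simp [hsd]
  have hre0 : 0 < s.re := by rw [hre]; norm_num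
  have h1 : s ≠ 1 := by
    intro h
    rw [h] at hre
    norm_num at hre
  have hze : ze t = riemannZeta s := rfl
  have hs1 : 1 / 2 ≤ ‖s - 1‖ := by
    have := abs_re_le_norm (s - 1)
    rw [sub_re, hre, one_re] at this
    norm_num at this
    linarith only [this]
  have hs2 : ‖s‖ ≤ 1 / 2 + |t| := by
    refine (norm_add_le _ _).trans ?_
    rw [norm_mul, Complex.norm_I, mul_one, Complex.norm_real, Real.norm_eq_abs]
    norm_num
  have hs3 : 0 < ‖s - 1‖ := by linarith only [hs1]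
  obtain ⟨N, hN1, hN2⟩ : ∃ N : ℕ, 1 + |t| ≤ (N : ℝ) ∧ (N : ℝ) ≤ 2 + |t| := by
    refine ⟨⌈1 + |t|⌉₊, Nat.le_ceil _, ?_⟩
    have := Nat.ceil_lt_add_one (a := 1 + |t|) (by positivity)
    linarith only [this]
  have ht0 : 0 ≤ |t| := abs_nonneg t
  have hN : 1 ≤ N := by
    have : (1 : ℝ) ≤ N := by linarith only [hN1, ht0]
    exact_mod_cast this
  have hsum := MP069854.vt_summable (s := s) hre0
  have hhead : ‖∑ n ∈ Finset.range N, MP069854.vt n s‖ ≤ 2 * ‖s - 1‖ * (2 * √(N : ℝ)) := by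
    refine (norm_sum_le _ _).trans ?_
    refine (Finset.sum_le_sum fun n _ => k07a_vt_bound2 n s hre).trans ?_
    rw [← Finset.mul_sum]
    exact mul_le_mul_of_nonneg_left (k07a_head N) (by positivity)
  have htail : ‖∑' n, MP069854.vt (n + N) s‖ ≤ ‖s - 1‖ * ‖s‖ * (2 / √(N : ℝ)) := by
    refine tsum_of_norm_bounded ((k07a_tail N hN).mul_left (‖s - 1‖ * ‖s‖)) fun n => ?_
    refine (MP069854.vt_bound (n + N) s (by linarith only [hre0])).trans ?_
    refine mul_le_mul_of_nonneg_left ?_ (by positivity)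
    have := k07a_step ((n : ℝ) + N) (by
      have : (1 : ℝ) ≤ N := by linarith only [hN1, ht0]
      linarith only [Nat.cast_nonneg (α := ℝ) n, hN1, ht0])
    rw [hre]
    push_cast
    exact this
  have hz : ‖(s - 1) * riemannZeta s‖ ≤
      1 + (2 * ‖s - 1‖ * (2 * √(N : ℝ)) + ‖s - 1‖ * ‖s‖ * (2 / √(N : ℝ))) := by
    rw [MP069854.zeta_formula hre0 h1, ← hsum.sum_add_tsum_nat_add N]
    refine (norm_add_le _ _).trans ?_
    rw [norm_one]
    have := norm_add_le (∑ n ∈ Finset.range N, MP069854.vt n s) (∑' n, MP069854.vt (n + N) s)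
    linarith only [hhead, htail, this]
  set r := √(1 + |t|) with hr
  have hr0 : 0 ≤ r := Real.sqrt_nonneg _
  have hr2 : r * r = 1 + |t| := Real.mul_self_sqrt (by positivity)
  have hr1 : 1 ≤ r := by
    rw [hr]; exact Real.one_le_sqrt.2 (by linarith only [ht0])
  have hNr : √(N : ℝ) ≤ 2 * r := by
    rw [Real.sqrt_le_left (by positivity)]
    linarith only [hre, hre0, hN2, ht0, hr2]
  have hNr' : r ≤ √(N : ℝ) := Real.sqrt_le_sqrt hN1
  have hN0 : 0 < √(N : ℝ) := by linarith only [hre, hre0, hr1, hNr']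
  have hb : ‖s‖ * (2 / √(N : ℝ)) ≤ 2 * r := by
    rw [mul_div_assoc', div_le_iff₀ hN0]
    nlinarith only [hs2, hr2, hre, hre0, hr0, hNr']
  have hmain : ‖riemannZeta s‖ ≤ 2 + 8 * r + 2 * r := by
    rw [norm_mul] at hz
    have h3 : ‖s - 1‖ * ‖riemannZeta s‖ ≤ ‖s - 1‖ * (2 + 8 * r + 2 * r) := by
      refine hz.trans ?_
      have e1 : ‖s - 1‖ * ‖s‖ * (2 / √(N : ℝ)) = ‖s - 1‖ * (‖s‖ * (2 / √(N : ℝ))) := by ring
      rw [e1]
      have e2 := mul_le_mul_of_nonneg_left hb hs3.le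
      have e3 := mul_le_mul_of_nonneg_left hNr hs3.le
      linarith only [hs1, e2, e3]
    exact le_of_mul_le_mul_left h3 hs3
  have hfin : ‖riemannZeta s‖ ≤ 12 * r := by linarith only [hr1, hmain]
  rw [hze]
  have h9 := norm_nonneg (riemannZeta s)
  nlinarith only [ht0, hr2, hmain, hre, hN1, hre0, hr0, hr1, h9]
end K3

end

section

namespace K3
open Complex MeasureTheory Filter Topology Set S6
open scoped Real ComplexConjugate

theorem k07c_ze_neg (t : ℝ) : ‖ze (-t)‖ = ‖ze t‖ := by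
  have : ze (-t) = conj (ze t) := by
    unfold ze
    rw [← riemannZeta_conj]
    congr 1
    apply Complex.ext <;> simp
  rw [this, RCLike.norm_conj]

theorem k07c_core : ∃ C : ℝ, 0 ≤ C ∧ ∀ᶠ T : ℝ in atTop,
    ∫ t in (-(2 * T))..(2 * T), ‖ze t‖ ^ 2 ≤ C * (T * Real.log T) := by
  obtain ⟨C, hC, h⟩ := second_moment
  have h2 : Tendsto (fun T : ℝ => 2 * T) atTop atTop := tendsto_id.const_mul_atTop two_pos
  refine ⟨8 * C, by positivity, ?_⟩
  filter_upwards [h2.eventually h, eventually_ge_atTop 2] with T hT hT2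
  have hc : Continuous fun t : ℝ => ‖ze t‖ ^ 2 := by have := ze_cont; fun_prop
  have e1 : ∫ t in (-(2 * T))..(0 : ℝ), ‖ze t‖ ^ 2 = ∫ t in (0 : ℝ)..(2 * T), ‖ze t‖ ^ 2 := by
    have := intervalIntegral.integral_comp_neg (f := fun t : ℝ => ‖ze t‖ ^ 2) (a := 0) (b := 2 * T)
    simp only [k07c_ze_neg, neg_zero] at this
    exact this.symm
  have e2 : ∫ t in (-(2 * T))..(2 * T), ‖ze t‖ ^ 2 = 2 * ∫ t in (0 : ℝ)..(2 * T), ‖ze t‖ ^ 2 := by
    rw [← intervalIntegral.integral_add_adjacent_intervals (b := 0) (hc.intervalIntegrable _ _)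
      (hc.intervalIntegrable _ _), e1]
    ring
  have hlog : Real.log (2 * T) ≤ 2 * Real.log T := by
    rw [Real.log_mul (by norm_num) (by positivity)]
    have := Real.log_le_log (by norm_num) hT2
    linarith only [this]
  have hl0 : 0 ≤ Real.log T := Real.log_nonneg (by linarith only [hT2])
  rw [e2]
  calc 2 * ∫ t in (0 : ℝ)..(2 * T), ‖ze t‖ ^ 2 ≤ 2 * (C * (2 * T * Real.log (2 * T))) := by
        linarith only [hT]
    _ ≤ 2 * (C * (2 * T * (2 * Real.log T))) := by gcongr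
    _ = 8 * C * (T * Real.log T) := by ring

/-- the window kills everything beyond `2T` -/
theorem k07c_tail {T τ t : ℝ} (hT : 1 ≤ Real.log T) (hT0 : 0 < T) (hτ0 : 0 ≤ τ) (hτ : τ ≤ T)
    (ht : 2 * T ≤ |t|) : (1 + |t|) ^ 3 * (1 + t ^ 2) * win T τ t ≤ 16 * (3840 * Real.exp 9) := by
  have hT1 : 1 ≤ T := by
    by_contra hc
    have := Real.log_neg hT0 (not_le.1 hc)
    linarith only [hT, hT0, hc, this]
  set L := Real.log T with hL
  have hTL : T = Real.exp L := (Real.exp_log hT0).symm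
  have ht1 : 1 ≤ |t| := by linarith only [hT0, ht, hT1]
  set v : ℝ := |t| * L / (2 * T) with hv
  have hvL : L ≤ v := by
    rw [hv, le_div_iff₀ (by positivity)]
    nlinarith only [ht, hT]
  have hv0 : 0 ≤ v := by linarith only [hT, hvL]
  have htv : |t| ≤ 2 * T * v := by
    rw [hv]
    field_simp
    linarith only [hT]
  have hwin : win T τ t ≤ Real.exp (-v ^ 2) := by
    unfold win
    apply Real.exp_le_exp.2
    have h1 : |t| / 2 ≤ |t - τ| := by
      have : |t| ≤ |t - τ| + |τ| := by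
        calc |t| = |(t - τ) + τ| := by ring_nf
          _ ≤ _ := abs_add_le _ _
      rw [abs_of_nonneg hτ0] at this
      linarith only [hτ, ht, this]
    have h2 : v ≤ |(t - τ) / HH T| := by
      rw [abs_div, HH, ← hL, abs_of_pos (by positivity : 0 < T / L), hv, le_div_iff₀ (by positivity)]
      have : |t| * L / (2 * T) * (T / L) = |t| / 2 := by field_simp
      linarith only [h1, this]
    have h3 : v ^ 2 ≤ ((t - τ) / HH T) ^ 2 := by
      rw [← sq_abs ((t - τ) / HH T)]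
      exact pow_le_pow_left₀ hv0 h2 2
    linarith only [h3]
  have h5 : |t| ^ 5 ≤ 32 * (Real.exp v) ^ 5 * (120 * Real.exp v) := by
    have hTv : T ≤ Real.exp v := by
      rw [hTL]; exact Real.exp_le_exp.2 hvL
    have hv5 : v ^ 5 ≤ 120 * Real.exp v := by
      have := Real.pow_div_factorial_le_exp v hv0 5
      rw [div_le_iff₀ (by positivity)] at this
      have e : ((5 : ℕ).factorial : ℝ) = 120 := by norm_num [Nat.factorial]
      rw [e] at this
      linarith only [this]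
    calc |t| ^ 5 ≤ (2 * T * v) ^ 5 := by gcongr
      _ = 32 * T ^ 5 * v ^ 5 := by ring
      _ ≤ 32 * (Real.exp v) ^ 5 * (120 * Real.exp v) := by gcongr
  have h6 : |t| ^ 5 * win T τ t ≤ 3840 * Real.exp 9 := by
    calc |t| ^ 5 * win T τ t ≤ (32 * (Real.exp v) ^ 5 * (120 * Real.exp v)) * Real.exp (-v ^ 2) := by
          gcongr
          exact (A68.win_pos _ _ _).le
      _ = 3840 * (Real.exp (5 * v) * Real.exp v * Real.exp (-v ^ 2)) := by
          rw [← Real.exp_nat_mul]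
          push_cast
          ring
      _ = 3840 * Real.exp (5 * v + v + -v ^ 2) := by rw [Real.exp_add, Real.exp_add]
      _ ≤ 3840 * Real.exp 9 := by
          gcongr
          linarith only [sq_nonneg (v - 3)]
  have h7 : (1 + |t|) ^ 3 * (1 + t ^ 2) ≤ 16 * |t| ^ 5 := by
    have h8 : (1 + |t|) ^ 3 ≤ (2 * |t|) ^ 3 := by
      gcongr
      linarith only [hT0, ht, hT1]
    have h9 : 1 + t ^ 2 ≤ 2 * |t| ^ 2 := by
      rw [← sq_abs t]
      nlinarith only [hT1, hT0, ht]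
    calc (1 + |t|) ^ 3 * (1 + t ^ 2) ≤ (2 * |t|) ^ 3 * (2 * |t| ^ 2) := by gcongr
      _ = 16 * |t| ^ 5 := by ring
  calc (1 + |t|) ^ 3 * (1 + t ^ 2) * win T τ t ≤ 16 * |t| ^ 5 * win T τ t := by
        gcongr
        exact (A68.win_pos _ _ _).le
    _ = 16 * (|t| ^ 5 * win T τ t) := by ring
    _ ≤ _ := by gcongr

theorem k07c_win_le (T τ t : ℝ) : win T τ t ≤ 1 := by
  unfold win
  rw [Real.exp_le_one_iff]
  have := sq_nonneg ((t - τ) / HH T)
  linarith only [this]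

theorem k07c_six : ∃ C : ℝ, 0 ≤ C ∧ ∀ᶠ T : ℝ in atTop, ∀ τ : ℝ, 0 ≤ τ → τ ≤ T →
    ∫ t : ℝ, ‖ze t‖ ^ 6 * win T τ t ≤ C * (T ^ 3 * Real.log T) := by
  obtain ⟨C1, hC1, h1⟩ := ze_sq_le
  obtain ⟨C2, hC2, h2⟩ := k07c_core
  have hzc : Continuous fun t : ℝ => ‖ze t‖ ^ 2 := by have := ze_cont; fun_prop
  have hzc6 : Continuous fun t : ℝ => ‖ze t‖ ^ 6 := by have := ze_cont; fun_prop
  have h6 : ∀ t, ‖ze t‖ ^ 6 ≤ C1 ^ 3 * (1 + |t|) ^ 3 := fun t => by
    calc ‖ze t‖ ^ 6 = (‖ze t‖ ^ 2) ^ 3 := by ring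
      _ ≤ (C1 * (1 + |t|)) ^ 3 := by gcongr; exact h1 t
      _ = _ := by ring
  set K : ℝ := C1 ^ 3 * (16 * (3840 * Real.exp 9)) with hK
  have hK0 : 0 ≤ K := by positivity
  refine ⟨9 * C1 ^ 2 * C2 + K * π, by positivity, ?_⟩
  have hlog : ∀ᶠ T : ℝ in atTop, 1 ≤ Real.log T := Real.tendsto_log_atTop.eventually_ge_atTop 1
  filter_upwards [h2, eventually_ge_atTop 1, hlog] with T hT2 hT1 hL τ hτ0 hτ
  have hT0 : 0 < T := by linarith only [hT1]
  have hTT : 1 < T := by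
    rcases hT1.lt_or_eq with h | h
    · exact h
    · rw [← h, Real.log_one] at hL; linarith only [hL]
  have hpt : ∀ t, ‖ze t‖ ^ 6 * win T τ t ≤
      (Icc (-(2 * T)) (2 * T)).indicator (fun t => 9 * C1 ^ 2 * T ^ 2 * ‖ze t‖ ^ 2) t +
        K * (1 + t ^ 2)⁻¹ := by
    intro t
    by_cases ht : t ∈ Icc (-(2 * T)) (2 * T)
    · rw [indicator_of_mem ht]
      have habs : |t| ≤ 2 * T := abs_le.2 ht
      have : ‖ze t‖ ^ 6 * win T τ t ≤ 9 * C1 ^ 2 * T ^ 2 * ‖ze t‖ ^ 2 := by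
        have a1 : ‖ze t‖ ^ 4 ≤ 9 * C1 ^ 2 * T ^ 2 := by
          calc ‖ze t‖ ^ 4 = (‖ze t‖ ^ 2) ^ 2 := by ring
            _ ≤ (C1 * (1 + |t|)) ^ 2 := by gcongr; exact h1 t
            _ ≤ (C1 * (3 * T)) ^ 2 := by gcongr; linarith only [hTT, habs]
            _ = _ := by ring
        calc ‖ze t‖ ^ 6 * win T τ t = ‖ze t‖ ^ 4 * ‖ze t‖ ^ 2 * win T τ t := by ring
          _ ≤ 9 * C1 ^ 2 * T ^ 2 * ‖ze t‖ ^ 2 * 1 := by
              gcongr
              · exact (A68.win_pos _ _ _).le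
              · exact k07c_win_le T τ t
          _ = _ := by ring
      have : 0 ≤ K * (1 + t ^ 2)⁻¹ := by positivity
      linarith
    · rw [indicator_of_notMem ht, zero_add]
      have habs : 2 * T ≤ |t| := by
        by_contra hc
        exact ht (abs_le.1 (not_le.1 hc).le)
      have h3 := k07c_tail hL hT0 hτ0 hτ habs
      have hpos : 0 < 1 + t ^ 2 := by positivity
      rw [← div_eq_mul_inv, le_div_iff₀ hpos]
      calc ‖ze t‖ ^ 6 * win T τ t * (1 + t ^ 2) ≤ (C1 ^ 3 * (1 + |t|) ^ 3) * win T τ t * (1 + t ^ 2) := by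
            gcongr
            · exact (A68.win_pos _ _ _).le
            · exact h6 t
        _ = C1 ^ 3 * ((1 + |t|) ^ 3 * (1 + t ^ 2) * win T τ t) := by ring
        _ ≤ K := by rw [hK]; gcongr
  have i1 : Integrable fun t => ‖ze t‖ ^ 6 * win T τ t := by
    have := A68.int_win hTT hzc6 (C := C1 ^ 3) (n := 3) (fun t => by
      rw [Real.norm_of_nonneg (by positivity)]; exact h6 t) τ
    simpa [mul_comm] using this
  have i2 : Integrable fun t => (Icc (-(2 * T)) (2 * T)).indicator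
      (fun t => 9 * C1 ^ 2 * T ^ 2 * ‖ze t‖ ^ 2) t := by
    rw [integrable_indicator_iff measurableSet_Icc]
    exact (Continuous.integrableOn_Icc (by fun_prop))
  have i3 : Integrable fun t : ℝ => K * (1 + t ^ 2)⁻¹ := integrable_inv_one_add_sq.const_mul K
  have hI : ∫ t in Icc (-(2 * T)) (2 * T), 9 * C1 ^ 2 * T ^ 2 * ‖ze t‖ ^ 2 ≤
      9 * C1 ^ 2 * T ^ 2 * (C2 * (T * Real.log T)) := by
    rw [integral_const_mul]
    gcongr
    rw [integral_Icc_eq_integral_Ioc, ← intervalIntegral.integral_of_le (by linarith only [hTT])]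
    exact hT2
  calc ∫ t : ℝ, ‖ze t‖ ^ 6 * win T τ t ≤ ∫ t : ℝ, ((Icc (-(2 * T)) (2 * T)).indicator
        (fun t => 9 * C1 ^ 2 * T ^ 2 * ‖ze t‖ ^ 2) t + K * (1 + t ^ 2)⁻¹) :=
        integral_mono i1 (i2.add i3) hpt
    _ = (∫ t in Icc (-(2 * T)) (2 * T), 9 * C1 ^ 2 * T ^ 2 * ‖ze t‖ ^ 2) + K * π := by
        rw [integral_add i2 i3, integral_indicator measurableSet_Icc]
        congr 1
        rw [integral_const_mul, integral_univ_inv_one_add_sq]
    _ ≤ 9 * C1 ^ 2 * T ^ 2 * (C2 * (T * Real.log T)) + K * π * (T ^ 3 * Real.log T) := by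
        have : 1 ≤ T ^ 3 * Real.log T := by
          have := one_le_pow₀ hT1 (n := 3)
          nlinarith only [hL, hTT, hT1, this]
        have h0 : 0 ≤ K * π := by positivity
        nlinarith only [hI, this, h0]
    _ = (9 * C1 ^ 2 * C2 + K * π) * (T ^ 3 * Real.log T) := by ring

theorem crude {Ψ : ℝ × ℝ × ℝ → ℝ} (h : SF (Reg 1) Ψ) (a : ℝ) {δ : ℝ} (hδ : 0 < δ) {τ : ℝ → ℝ}
    (hτ : Cen δ τ) :
    Tendsto (fun T : ℝ => (∫ t : ℝ, ‖ze t‖ ^ 3 * ‖BS Ψ a T t‖ * win T (τ T) t) / (T * NN T)) atTop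
      (𝓝 0) := by
  obtain ⟨C6, hC6, h6⟩ := k07c_six
  obtain ⟨Cz, hCz, hz⟩ := ze_bdd
  obtain ⟨CB, hCB, hB⟩ := BS_bdd h.smooth h.hcs a
  have hM := mean_sqS h a a
  set M : ℂ := mSq Ψ (a - a) with hMdef
  have hlim := (hM.lim δ hδ τ hτ).norm
  have hev := hlim.eventually (Iic_mem_nhds (show ‖M‖ < ‖M‖ + 1 by linarith only []))
  have hlog3 : Tendsto (fun T : ℝ => Real.log T) atTop atTop := Real.tendsto_log_atTop
  have hg : Tendsto (fun T : ℝ => (‖M‖ + 1) / Real.log T ^ 3 + C6 / (√π * Real.log T ^ 4)) atTop (𝓝 0) := by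
    have g1 : Tendsto (fun T : ℝ => (‖M‖ + 1) / Real.log T ^ 3) atTop (𝓝 0) :=
      tendsto_const_nhds.div_atTop ((tendsto_pow_atTop (by norm_num)).comp hlog3)
    have g2 : Tendsto (fun T : ℝ => C6 / (√π * Real.log T ^ 4)) atTop (𝓝 0) :=
      tendsto_const_nhds.div_atTop (((tendsto_pow_atTop (by norm_num)).comp hlog3).const_mul_atTop
        (by positivity))
    simpa using g1.add g2
  refine squeeze_zero' ?_ ?_ hg
  · filter_upwards [eventually_ge_atTop 1] with T hT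
    refine div_nonneg (integral_nonneg fun t => ?_) ?_
    · have := (A68.win_pos T (τ T) t).le
      positivity
    · have : 0 ≤ Real.log T := Real.log_nonneg hT
      unfold NN HH
      positivity
  · filter_upwards [hev, h6, hτ, eventually_ge_atTop 2,
      hlog3.eventually_ge_atTop 1] with T hT1 hT6 hTτ hT2 hL
    have hT0 : 0 < T := by linarith only [hT2]
    have hTT : 1 < T := by linarith only [hT2]
    set L := Real.log T with hLdef
    have hL0 : 0 < L := by linarith only [hL]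
    have hNN : 0 < NN T := by
      unfold NN HH
      rw [← hLdef]
      positivity
    have hτ0 : 0 ≤ τ T := le_trans (by positivity) hTτ.1
    have h6' := hT6 (τ T) hτ0 hTτ.2
    have hzc := ze_cont
    have hBc := BS_cont Ψ a T
    have hBB : ∀ t, ‖BS Ψ a T t‖ ≤ CB * T ^ 3 := fun t => hB T (by linarith only [hT2]) t
    -- square
    have hsq : ∫ t : ℝ, ‖BS Ψ a T t‖ ^ 2 * win T (τ T) t ≤ (‖M‖ + 1) * NN T := by
      have e : ∫ t : ℝ, BS Ψ a T t * conj (BS Ψ a T t) * ((win T (τ T) t : ℝ) : ℂ) =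
          ((∫ t : ℝ, ‖BS Ψ a T t‖ ^ 2 * win T (τ T) t : ℝ) : ℂ) := by
        rw [← integral_complex_ofReal]
        congr 1
        ext t
        rw [mul_conj, normSq_eq_norm_sq]
        push_cast
        ring
      rw [e, norm_div, Complex.norm_real, Complex.norm_real, Real.norm_of_nonneg hNN.le,
        div_le_iff₀ hNN] at hT1
      exact (le_abs_self _).trans hT1
    -- integrability
    have i1 : Integrable fun t => ‖BS Ψ a T t‖ ^ 2 * win T (τ T) t := by
      have := A68.int_win hTT (f := fun t => ‖BS Ψ a T t‖ ^ 2) (by fun_prop) (C := (CB * T ^ 3) ^ 2)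
        (n := 0) (fun t => by
          rw [Real.norm_of_nonneg (by positivity), pow_zero, mul_one]
          gcongr; exact hBB t) (τ T)
      simpa [mul_comm] using this
    have i2 : Integrable fun t => ‖ze t‖ ^ 6 * win T (τ T) t := by
      have := A68.int_win hTT (f := fun t => ‖ze t‖ ^ 6) (by fun_prop) (C := Cz ^ 6)
        (n := 6) (fun t => by
          rw [Real.norm_of_nonneg (by positivity)]
          calc ‖ze t‖ ^ 6 ≤ (Cz * (1 + |t|)) ^ 6 := by gcongr; exact hz t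
            _ = _ := by ring) (τ T)
      simpa [mul_comm] using this
    have i3 : Integrable fun t => ‖ze t‖ ^ 3 * ‖BS Ψ a T t‖ * win T (τ T) t := by
      have := A68.int_win hTT (f := fun t => ‖ze t‖ ^ 3 * ‖BS Ψ a T t‖) (by fun_prop)
        (C := Cz ^ 3 * (CB * T ^ 3))
        (n := 3) (fun t => by
          rw [Real.norm_of_nonneg (by positivity)]
          calc ‖ze t‖ ^ 3 * ‖BS Ψ a T t‖ ≤ (Cz * (1 + |t|)) ^ 3 * (CB * T ^ 3) := by
                gcongr
                · exact hz t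
                · exact hBB t
            _ = _ := by ring) (τ T)
      simpa [mul_comm] using this
    set lam : ℝ := T / L ^ 3 with hlam
    have hlam0 : 0 < lam := by positivity
    have hpt : ∀ t, ‖ze t‖ ^ 3 * ‖BS Ψ a T t‖ * win T (τ T) t ≤
        lam * (‖BS Ψ a T t‖ ^ 2 * win T (τ T) t) + lam⁻¹ * (‖ze t‖ ^ 6 * win T (τ T) t) := by
      intro t
      have hw := (A68.win_pos T (τ T) t).le
      have key : ‖ze t‖ ^ 3 * ‖BS Ψ a T t‖ ≤ lam * ‖BS Ψ a T t‖ ^ 2 + lam⁻¹ * ‖ze t‖ ^ 6 := by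
        have h0 : 0 ≤ lam⁻¹ * (‖ze t‖ ^ 3 - lam * ‖BS Ψ a T t‖) ^ 2 := by positivity
        have e0 : lam⁻¹ * (‖ze t‖ ^ 3 - lam * ‖BS Ψ a T t‖) ^ 2 =
            lam⁻¹ * ‖ze t‖ ^ 6 - 2 * (‖ze t‖ ^ 3 * ‖BS Ψ a T t‖) + lam * ‖BS Ψ a T t‖ ^ 2 := by
          field_simp
          ring
        have h3 : 0 ≤ ‖ze t‖ ^ 3 * ‖BS Ψ a T t‖ := by positivity
        linarith only [h0, e0, h3]
      calc ‖ze t‖ ^ 3 * ‖BS Ψ a T t‖ * win T (τ T) t ≤
            (lam * ‖BS Ψ a T t‖ ^ 2 + lam⁻¹ * ‖ze t‖ ^ 6) * win T (τ T) t := by gcongr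
        _ = _ := by ring
    have hint : ∫ t : ℝ, ‖ze t‖ ^ 3 * ‖BS Ψ a T t‖ * win T (τ T) t ≤
        lam * ((‖M‖ + 1) * NN T) + lam⁻¹ * (C6 * (T ^ 3 * L)) := by
      calc ∫ t : ℝ, ‖ze t‖ ^ 3 * ‖BS Ψ a T t‖ * win T (τ T) t ≤
          ∫ t : ℝ, (lam * (‖BS Ψ a T t‖ ^ 2 * win T (τ T) t) + lam⁻¹ * (‖ze t‖ ^ 6 * win T (τ T) t)) :=
            integral_mono i3 ((i1.const_mul _).add (i2.const_mul _)) hpt
        _ = lam * (∫ t : ℝ, ‖BS Ψ a T t‖ ^ 2 * win T (τ T) t) +
            lam⁻¹ * ∫ t : ℝ, ‖ze t‖ ^ 6 * win T (τ T) t := by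
            rw [integral_add (i1.const_mul _) (i2.const_mul _), integral_const_mul, integral_const_mul]
        _ ≤ _ := by gcongr
    rw [div_le_iff₀ (by positivity)]
    refine hint.trans (le_of_eq ?_)
    have hN : NN T = T * √π * L ^ 8 := by
      unfold NN HH
      rw [← hLdef]
      field_simp
    have hpi : √π ≠ 0 := by positivity
    rw [hN, hlam]
    field_simp

end K3

end

section

/-!
# MP_069854_nt, shifted lower bound for `k = 3`: rows K05a to K05f (the window lemma)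
-/

namespace K3
open Complex MeasureTheory Filter Topology Set S6
open scoped Real ComplexConjugate

/-- the inner integral -/
noncomputable def AA (K : ℝ → ℝ → ℂ) (e τ : ℝ → ℝ) (T u : ℝ) : ℂ :=
  ∫ t in Ioi (e T), K T t * ((Real.exp (-(t * u / τ T)) * win T (τ T) t : ℝ) : ℂ)

namespace C5

theorem NN_pos {T : ℝ} (hT : 1 < T) : 0 < NN T := by
  unfold NN
  have h1 := A68.HH_pos hT
  have h2 : 0 < √π := Real.sqrt_pos.2 Real.pi_pos
  have h3 := Real.log_pos hT
  positivity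

theorem one_le_sqrt_pi : 1 ≤ √π := by
  rw [Real.one_le_sqrt]
  linarith only [Real.pi_gt_three]

theorem log_one_le {T : ℝ} (hT : Real.exp 1 ≤ T) : 1 ≤ Real.log T := by
  rw [Real.le_log_iff_exp_le (lt_of_lt_of_le (Real.exp_pos _) hT)]
  exact hT

theorem lt_of_exp1 {T : ℝ} (hT : Real.exp 1 ≤ T) : 1 < T :=
  lt_of_lt_of_le (by have := Real.add_one_lt_exp (show (1:ℝ) ≠ 0 by norm_num); linarith only [this]) hT

theorem T_le_NN {T : ℝ} (hT : Real.exp 1 ≤ T) : T ≤ NN T := by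
  have h1 := log_one_le hT
  have h2 := one_le_sqrt_pi
  have h0 := lt_of_exp1 hT
  unfold NN HH
  have e : T / Real.log T * √π * Real.log T ^ 9 = T * (√π * Real.log T ^ 8) := by
    field_simp
  rw [e]
  have h3 : 1 ≤ √π * Real.log T ^ 8 := by
    have := one_le_pow₀ h1 (n := 8)
    nlinarith only [h2, this]
  nlinarith only [h3, h0]

theorem exp_dom (A : ℕ) {c : ℝ} (hc : 0 < c) :
    Tendsto (fun T : ℝ => T ^ A * Real.exp (-(c * Real.log T ^ 2))) atTop (𝓝 0) := by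
  have h1 : Tendsto (fun L : ℝ => -L) atTop atBot := tendsto_neg_atTop_atBot
  have h2 : Tendsto (fun L : ℝ => Real.exp (-L)) atTop (𝓝 0) := Real.tendsto_exp_atBot.comp h1
  have h3 := h2.comp Real.tendsto_log_atTop
  refine squeeze_zero' ?_ ?_ h3
  · filter_upwards [eventually_ge_atTop (0 : ℝ)] with T hT
    positivity
  · filter_upwards [eventually_gt_atTop (1 : ℝ),
      Real.tendsto_log_atTop.eventually (eventually_ge_atTop ((A + 1) / c))] with T hT hL
    have hT0 : 0 < T := by linarith only [hT]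
    simp only [Function.comp]
    have e7 : T ^ A = Real.exp (A * Real.log T) := by
      have : T ^ A = Real.exp (Real.log T) ^ A := by rw [Real.exp_log hT0]
      rw [this, ← Real.exp_nat_mul]
    rw [e7, ← Real.exp_add]
    refine Real.exp_le_exp.2 ?_
    have hl := Real.log_pos hT
    have h5 : (A : ℝ) + 1 ≤ c * Real.log T := by
      rw [div_le_iff₀ hc] at hL
      linarith only [hL]
    nlinarith only [hl, h5]

/-- pointwise tail bound -/
theorem tail_pt {T : ℝ} (hT : Real.exp 1 ≤ T) (A : ℕ) {ρ : ℝ} (hρ : 0 ≤ ρ) {τ t : ℝ} (h0 : 0 ≤ τ)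
    (h1 : τ ≤ T) (hd : ρ * T ≤ |t - τ|) :
    (1 + |t|) ^ A * win T τ t ≤ (((3 : ℝ) ^ A * (A.factorial * Real.exp (3 / 2))) * T ^ A *
      Real.exp (-(ρ ^ 2 / 4 * Real.log T ^ 2))) * Real.exp (-((t - τ) / HH T) ^ 2 / 4) := by
  have hT1 := lt_of_exp1 hT
  have hH := A68.HH_pos hT1
  have hHT := A68.HH_le hT
  have hL := Real.log_pos hT1
  refine (A68.pow_win_le hT1 A τ t).trans ?_
  have hτ : |τ| ≤ T := by rw [abs_of_nonneg h0]; exact h1
  have hu : ρ * Real.log T ≤ |(t - τ) / HH T| := by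
    rw [abs_div, abs_of_pos hH, le_div_iff₀ hH]
    unfold HH
    calc ρ * Real.log T * (T / Real.log T) = ρ * T := by field_simp
      _ ≤ _ := hd
  have hu2 : ρ ^ 2 * Real.log T ^ 2 ≤ ((t - τ) / HH T) ^ 2 := by
    rw [← sq_abs ((t - τ) / HH T), ← mul_pow]
    exact pow_le_pow_left₀ (by positivity) hu 2
  have h3 : (1 + |τ| + HH T) ^ A ≤ (3 * T) ^ A :=
    pow_le_pow_left₀ (by positivity) (by linarith only [hT1, hHT, hτ]) A
  rw [mul_assoc (((3 : ℝ) ^ A * (A.factorial * Real.exp (3 / 2))) * T ^ A), ← Real.exp_add]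
  refine mul_le_mul ?_ (Real.exp_le_exp.2 (by linarith only [hu2])) (Real.exp_pos _).le (by positivity)
  calc (1 + |τ| + HH T) ^ A * (A.factorial * Real.exp (3 / 2)) ≤
      (3 * T) ^ A * (A.factorial * Real.exp (3 / 2)) := by gcongr
    _ = _ := by rw [mul_pow]; ring

/-- integral over a set far from the centre -/
theorem tail_set {K : ℝ → ℝ → ℂ} {C : ℝ} {A : ℕ} (hC : 0 ≤ C)
    (hcont : ∀ T, Continuous (K T))
    (hb : ∀ T : ℝ, 2 ≤ T → ∀ t, ‖K T t‖ ≤ C * (T * (1 + |t|)) ^ A) {ρ : ℝ} (hρ : 0 ≤ ρ) {T : ℝ}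
    (hT : Real.exp 1 ≤ T) {τ : ℝ} (h0 : 0 ≤ τ) (h1 : τ ≤ T) {S : Set ℝ} (hS : MeasurableSet S)
    (hSd : ∀ t ∈ S, ρ * T ≤ |t - τ|) :
    ∫ t in S, ‖K T t‖ * win T τ t ≤ (C * ((3 : ℝ) ^ A * (A.factorial * Real.exp (3 / 2))) * (2 * √π)) *
      (T ^ (2 * A + 1) * Real.exp (-(ρ ^ 2 / 4 * Real.log T ^ 2))) := by
  have hT1 := lt_of_exp1 hT
  have hT2 : 2 ≤ T := by
    have := Real.add_one_le_exp (1 : ℝ)
    linarith only [hT, this]
  have hH := A68.HH_pos hT1
  have hHT := A68.HH_le hT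
  have hbT : ∀ t, ‖K T t‖ ≤ (C * T ^ A) * (1 + |t|) ^ A := fun t => by
    refine (hb T hT2 t).trans (le_of_eq ?_)
    rw [mul_pow]; ring
  set D : ℝ := ((3 : ℝ) ^ A * (A.factorial * Real.exp (3 / 2))) * T ^ A *
      Real.exp (-(ρ ^ 2 / 4 * Real.log T ^ 2)) with hD
  have hD0 : 0 ≤ D := by positivity
  have hpt : ∀ t ∈ S, ‖K T t‖ * win T τ t ≤ (C * T ^ A) * (D * Real.exp (-((t - τ) / HH T) ^ 2 / 4)) := by
    intro t ht
    have h2 := tail_pt hT A hρ h0 h1 (hSd t ht)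
    have hw := A68.win_pos T τ t
    calc ‖K T t‖ * win T τ t ≤ ((C * T ^ A) * (1 + |t|) ^ A) * win T τ t := by
          have := hbT t
          gcongr
      _ = (C * T ^ A) * ((1 + |t|) ^ A * win T τ t) := by ring
      _ ≤ _ := mul_le_mul_of_nonneg_left h2 (by positivity)
  have hgi : Integrable fun t : ℝ => (C * T ^ A) * (D * Real.exp (-((t - τ) / HH T) ^ 2 / 4)) :=
    ((A68.gauss4_int hT1 τ).const_mul D).const_mul _
  have i0 : Integrable fun t => ‖K T t‖ * win T τ t := by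
    refine ((A68.int_win hT1 (hcont T) hbT τ).norm).congr (Eventually.of_forall fun t => ?_)
    simp only
    rw [norm_smul, Real.norm_of_nonneg (A68.win_pos T τ t).le, mul_comm]
  calc ∫ t in S, ‖K T t‖ * win T τ t ≤
      ∫ t in S, (C * T ^ A) * (D * Real.exp (-((t - τ) / HH T) ^ 2 / 4)) :=
        setIntegral_mono_on i0.integrableOn hgi.integrableOn hS hpt
    _ ≤ ∫ t, (C * T ^ A) * (D * Real.exp (-((t - τ) / HH T) ^ 2 / 4)) :=
        setIntegral_le_integral hgi (Eventually.of_forall fun t => by positivity)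
    _ = (C * T ^ A) * (D * (2 * √π * HH T)) := by
        rw [integral_const_mul, integral_const_mul, A68.gauss4_val hT1]
    _ ≤ (C * T ^ A) * (D * (2 * √π * T)) := by gcongr
    _ = _ := by
        rw [hD]; ring

end C5

open C5

/-! ### K05a -/

theorem HasMean.unif {K : ℝ → ℝ → ℂ} {M : ℂ} (h : HasMean K M) {δ : ℝ} (hδ : 0 < δ) {ε : ℝ}
    (hε : 0 < ε) : ∀ᶠ T : ℝ in atTop, ∀ τ : ℝ, δ * T ≤ τ → τ ≤ T →
      ‖(∫ t : ℝ, K T t * ((win T τ t : ℝ) : ℂ)) / ((NN T : ℝ) : ℂ) - M‖ ≤ ε := by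
  classical
  by_cases hδ1 : δ ≤ 1
  · by_contra hcon
    rw [not_eventually] at hcon
    let bad : ℝ → ℝ → Prop := fun T τ => δ * T ≤ τ ∧ τ ≤ T ∧
      ε < ‖(∫ t : ℝ, K T t * ((win T τ t : ℝ) : ℂ)) / ((NN T : ℝ) : ℂ) - M‖
    let τ₀ : ℝ → ℝ := fun T => if hx : ∃ τ, bad T τ then hx.choose else T
    have h1 : Cen δ τ₀ := by
      filter_upwards [eventually_ge_atTop (0 : ℝ)] with T hT
      by_cases hx : ∃ τ, bad T τ
      · have e : τ₀ T = hx.choose := dif_pos hx
        rw [e]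
        exact ⟨hx.choose_spec.1, hx.choose_spec.2.1⟩
      · have e : τ₀ T = T := dif_neg hx
        rw [e]
        exact ⟨by nlinarith only [hδ1, hT], le_rfl⟩
    have h2 := h.lim δ hδ τ₀ h1
    have h3 := (tendsto_iff_norm_sub_tendsto_zero.1 h2).eventually (gt_mem_nhds hε)
    obtain ⟨T, hT, hT'⟩ := (hcon.and_eventually h3).exists
    push Not at hT
    obtain ⟨τ, ha, hb, hlt⟩ := hT
    have hx : ∃ τ, bad T τ := ⟨τ, ha, hb, hlt⟩
    have e : τ₀ T = hx.choose := dif_pos hx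
    rw [e] at hT'
    exact absurd hT' (not_lt.2 hx.choose_spec.2.2.le)
  · filter_upwards [eventually_gt_atTop (0 : ℝ)] with T hT τ h1 h2
    exfalso
    push Not at hδ1
    nlinarith only [h1, h2, hT, hδ1]

/-! ### K05b -/

theorem HasMean.left_tail {K : ℝ → ℝ → ℂ} {M : ℂ} (h : HasMean K M) {ρ : ℝ} (hρ : 0 < ρ) {ε : ℝ}
    (hε : 0 < ε) : ∀ᶠ T : ℝ in atTop, ∀ τ e : ℝ, 0 ≤ τ → τ ≤ T → e ≤ τ - ρ * T →
      ∫ t in Iic e, ‖K T t‖ * win T τ t ≤ ε * NN T := by
  obtain ⟨C, A, hC, hb⟩ := h.bdd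
  have h1 := (exp_dom (2 * A + 1) (c := ρ ^ 2 / 4) (by positivity)).const_mul
    (C * ((3 : ℝ) ^ A * (A.factorial * Real.exp (3 / 2))) * (2 * √π))
  rw [mul_zero] at h1
  filter_upwards [h1.eventually (gt_mem_nhds hε), eventually_ge_atTop (Real.exp 1)] with T h2 h3
    τ e h4 h5 h6
  have hT1 := lt_of_exp1 h3
  refine (tail_set hC h.cont hb hρ.le h3 h4 h5 (S := Iic e) measurableSet_Iic fun t ht => ?_).trans ?_
  · rw [mem_Iic] at ht
    rw [abs_of_nonpos (by nlinarith only [h6, ht, hρ, h4, h5])]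
    linarith only [h6, ht]
  · refine h2.le.trans ?_
    have := T_le_NN h3
    nlinarith only [hε, hT1, this]

/-- completing the square -/
theorem exp_mul_win {T τ u t : ℝ} (hT : 1 < T) (hτ : 0 < τ) :
    Real.exp (-(t * u / τ)) * win T τ t =
      Real.exp (-u + u ^ 2 * HH T ^ 2 / (4 * τ ^ 2)) * win T (τ - u * HH T ^ 2 / (2 * τ)) t := by
  have hH := A68.HH_pos hT
  unfold win
  rw [← Real.exp_add, ← Real.exp_add]
  congr 1
  field_simp
  ring

namespace C5

/-- the inner integral in terms of a shifted window -/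
theorem AA_eq {K : ℝ → ℝ → ℂ} {M : ℂ} (h : HasMean K M) {e τ : ℝ → ℝ} {T u : ℝ} (hT : 2 ≤ T)
    (hτ : 0 < τ T) : AA K e τ T u =
      ((Real.exp (-u + u ^ 2 * HH T ^ 2 / (4 * τ T ^ 2)) : ℝ) : ℂ) *
      ((∫ t : ℝ, K T t * ((win T (τ T - u * HH T ^ 2 / (2 * τ T)) t : ℝ) : ℂ)) -
      ∫ t in Iic (e T), K T t * ((win T (τ T - u * HH T ^ 2 / (2 * τ T)) t : ℝ) : ℂ)) := by
  have hi := h.integrable hT (τ T - u * HH T ^ 2 / (2 * τ T))
  have h1 := integral_add_compl (measurableSet_Iic (a := e T)) hi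
  rw [compl_Iic] at h1
  rw [← h1, add_sub_cancel_left, ← integral_const_mul]
  unfold AA
  refine integral_congr_ae (Eventually.of_forall fun t => ?_)
  simp only
  rw [exp_mul_win (by linarith only [hT]) hτ]
  push_cast
  ring

theorem norm_tail_le {K : ℝ → ℝ → ℂ} (T τ e : ℝ) :
    ‖∫ t in Iic e, K T t * ((win T τ t : ℝ) : ℂ)‖ ≤ ∫ t in Iic e, ‖K T t‖ * win T τ t := by
  refine (norm_integral_le_integral_norm _).trans (le_of_eq ?_)
  refine integral_congr_ae (Eventually.of_forall fun t => ?_)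
  simp only
  rw [norm_mul, Complex.norm_real, Real.norm_of_nonneg (A68.win_pos T τ t).le]

end C5

/-! ### K05c -/

theorem AA_lim {K : ℝ → ℝ → ℂ} {M : ℂ} (h : HasMean K M) {δ : ℝ} (hδ : 0 < δ) {τ e : ℝ → ℝ}
    (hτ : Cen δ τ) (he : ∀ᶠ T : ℝ in atTop, δ * T / 4 ≤ e T ∧ e T ≤ 3 * δ * T / 4) {u : ℝ}
    (hu : 0 ≤ u) :
    Tendsto (fun T : ℝ => AA K e τ T u / ((NN T : ℝ) : ℂ)) atTop (𝓝 ((Real.exp (-u) : ℝ) * M)) := by
  -- the shifted centre
  set c : ℝ → ℝ := fun T => τ T - u * HH T ^ 2 / (2 * τ T) with hc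
  have hL : ∀ᶠ T : ℝ in atTop, max 1 (4 * u / δ ^ 2) ≤ Real.log T :=
    Real.tendsto_log_atTop.eventually (eventually_ge_atTop _)
  have hcen : ∀ᶠ T : ℝ in atTop, 7 * δ / 8 * T ≤ c T ∧ c T ≤ T := by
    filter_upwards [hτ, hL, eventually_gt_atTop (1 : ℝ)] with T h1 h2 h3
    have hT0 : 0 < T := by linarith only [h3]
    have hτ0 : 0 < τ T := lt_of_lt_of_le (by positivity) h1.1
    have hL1 : 1 ≤ Real.log T := (le_max_left _ _).trans h2
    have hL2 : 4 * u / δ ^ 2 ≤ Real.log T := (le_max_right _ _).trans h2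
    have hH : HH T ^ 2 = T ^ 2 / Real.log T ^ 2 := by unfold HH; rw [div_pow]
    have h4 : u * HH T ^ 2 / (2 * τ T) ≤ δ * T / 8 := by
      have h5 : u * HH T ^ 2 / (2 * τ T) ≤ u * HH T ^ 2 / (2 * (δ * T)) := by
        gcongr
        exact h1.1
      refine h5.trans ?_
      rw [hH, div_le_iff₀ (by positivity)]
      have h6 : 4 * u ≤ δ ^ 2 * Real.log T := by
        rw [div_le_iff₀ (by positivity)] at hL2
        linarith only [hL2]
      have h7 : u ≤ δ ^ 2 / 4 * Real.log T ^ 2 := by nlinarith only [sq_nonneg δ, mul_pos hδ hδ, h6, hu, hL1]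
      calc u * (T ^ 2 / Real.log T ^ 2) ≤ (δ ^ 2 / 4 * Real.log T ^ 2) * (T ^ 2 / Real.log T ^ 2) := by
            gcongr
        _ = δ * T / 8 * (2 * (δ * T)) := by field_simp; ring
    have h8 : 0 ≤ u * HH T ^ 2 / (2 * τ T) := by positivity
    simp only [hc]
    constructor
    · linarith only [h1.1, h1, h4]
    · linarith only [h1.2, h1, h8]
  -- the exponent
  have hexp : Tendsto (fun T : ℝ => Real.exp (-u + u ^ 2 * HH T ^ 2 / (4 * τ T ^ 2))) atTop
      (𝓝 (Real.exp (-u))) := by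
    have h1 : Tendsto (fun T : ℝ => u ^ 2 * HH T ^ 2 / (4 * τ T ^ 2)) atTop (𝓝 0) := by
      have h2 : Tendsto (fun T : ℝ => u ^ 2 / (4 * δ ^ 2) * (1 / Real.log T) ^ 2) atTop (𝓝 0) := by
        have h3 : Tendsto (fun T : ℝ => 1 / Real.log T) atTop (𝓝 0) :=
          Real.tendsto_log_atTop.const_div_atTop 1
        have h4 := (h3.pow 2).const_mul (u ^ 2 / (4 * δ ^ 2))
        simpa using h4
      refine squeeze_zero' (Eventually.of_forall fun T => by positivity) ?_ h2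
      filter_upwards [hτ, eventually_gt_atTop (1 : ℝ)] with T h1 h3
      have hT0 : 0 < T := by linarith only [h3]
      have hlog := Real.log_pos h3
      have hH : HH T ^ 2 = T ^ 2 / Real.log T ^ 2 := by unfold HH; rw [div_pow]
      have hsq : (δ * T) ^ 2 ≤ τ T ^ 2 := pow_le_pow_left₀ (by positivity) h1.1 2
      calc u ^ 2 * HH T ^ 2 / (4 * τ T ^ 2) ≤ u ^ 2 * HH T ^ 2 / (4 * (δ * T) ^ 2) := by gcongr
        _ = _ := by rw [hH]; field_simp
    have h5 := h1.const_add (-u)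
    rw [add_zero] at h5
    exact (Real.continuous_exp.tendsto _).comp h5
  -- the mean in the shifted window
  have hX : Tendsto (fun T : ℝ => ((∫ t : ℝ, K T t * ((win T (c T) t : ℝ) : ℂ)) -
      ∫ t in Iic (e T), K T t * ((win T (c T) t : ℝ) : ℂ)) / ((NN T : ℝ) : ℂ)) atTop (𝓝 M) := by
    rw [Metric.tendsto_nhds]
    intro ε hε
    filter_upwards [h.unif (δ := 7 * δ / 8) (by positivity) (ε := ε / 4) (by positivity),
      h.left_tail (ρ := δ / 8) (by positivity) (ε := ε / 4) (by positivity), hcen, he,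
      eventually_gt_atTop (1 : ℝ)] with T h1 h2 h3 h4 h5
    have hN := C5.NN_pos h5
    have hc0 : 0 ≤ c T := le_trans (by positivity) h3.1
    have h6 := h1 (c T) h3.1 h3.2
    have h7 := h2 (c T) (e T) hc0 h3.2 (by linarith only [h3.1, h4.2, h3, h4])
    have h8 := (norm_tail_le (K := K) T (c T) (e T)).trans h7
    rw [dist_eq_norm, sub_div, sub_right_comm]
    refine lt_of_le_of_lt (norm_sub_le _ _) ?_
    rw [norm_div, Complex.norm_real, Real.norm_of_nonneg hN.le]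
    have h9 : ‖∫ t in Iic (e T), K T t * ((win T (c T) t : ℝ) : ℂ)‖ / NN T ≤ ε / 4 := by
      rw [div_le_iff₀ hN]; exact h8
    linarith only [hε, h6, h9]
  have hprod := ((Complex.continuous_ofReal.tendsto _).comp hexp).mul hX
  refine hprod.congr' ?_
  filter_upwards [hτ, eventually_ge_atTop (2 : ℝ)] with T h1 h2
  have hτ0 : 0 < τ T := lt_of_lt_of_le (by positivity) h1.1
  rw [AA_eq h h2 hτ0]
  simp only [Function.comp, hc]
  ring

/-! ### K05d -/

theorem AA_dom {K : ℝ → ℝ → ℂ} {M : ℂ} (h : HasMean K M) {δ : ℝ} (hδ : 0 < δ) (hδ1 : δ ≤ 1)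
    {τ e : ℝ → ℝ}
    (hτ : Cen δ τ) (he : ∀ᶠ T : ℝ in atTop, δ * T / 4 ≤ e T ∧ e T ≤ 3 * δ * T / 4) :
    ∃ C c : ℝ, 0 < c ∧ ∀ᶠ T : ℝ in atTop, ∀ u : ℝ, 0 ≤ u →
      ‖AA K e τ T u‖ ≤ C * Real.exp (-(c * u)) * NN T := by
  obtain ⟨Cb, A, hCb, hb⟩ := h.bdd
  refine ⟨‖M‖ + 3, δ / 8, by positivity, ?_⟩
  have h1 := (exp_dom (2 * A + 1) (c := δ ^ 3 / 32) (by positivity)).const_mul
    (Cb * ((3 : ℝ) ^ A * (A.factorial * Real.exp (3 / 2))) * (2 * √π))
  rw [mul_zero] at h1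
  filter_upwards [h1.eventually (gt_mem_nhds one_pos), eventually_ge_atTop (Real.exp 1), hτ, he,
    h.unif (δ := 7 * δ / 8) (by positivity) (ε := 1) (by positivity),
    h.left_tail (ρ := δ / 8) (by positivity) (ε := 1) (by positivity)] with T h2 h3 h4 h5 h6 h7 u hu
  have hT1 := lt_of_exp1 h3
  have hT0 : 0 < T := by linarith only [hT1]
  have hT2 : 2 ≤ T := by
    have := Real.add_one_le_exp (1 : ℝ)
    linarith only [h3, this]
  have hN := C5.NN_pos hT1
  have hH := A68.HH_pos hT1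
  have hτ0 : 0 < τ T := lt_of_lt_of_le (by positivity) h4.1
  have hL1 := log_one_le h3
  have hM0 : 0 ≤ ‖M‖ := norm_nonneg _
  by_cases hcase : u ≤ τ T ^ 2 / (4 * HH T ^ 2)
  · -- small `u`
    rw [le_div_iff₀ (by positivity)] at hcase
    have hc1 : u * HH T ^ 2 / (2 * τ T) ≤ τ T / 8 := by
      rw [div_le_iff₀ (by positivity)]
      linarith only [hcase]
    have hc0 : 0 ≤ u * HH T ^ 2 / (2 * τ T) := by positivity
    have hlow : 7 * δ / 8 * T ≤ τ T - u * HH T ^ 2 / (2 * τ T) := by linarith only [h4.1, h4, hc1]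
    have hup : τ T - u * HH T ^ 2 / (2 * τ T) ≤ T := by linarith only [h4.2, h4, hc0]
    have hexp : Real.exp (-u + u ^ 2 * HH T ^ 2 / (4 * τ T ^ 2)) ≤ Real.exp (-(δ / 8 * u)) := by
      refine Real.exp_le_exp.2 ?_
      have : u ^ 2 * HH T ^ 2 / (4 * τ T ^ 2) ≤ u / 16 := by
        rw [div_le_iff₀ (by positivity)]
        nlinarith only [hu, hcase]
      nlinarith only [hu, this, hδ1]
    rw [AA_eq h hT2 hτ0, norm_mul, Complex.norm_real, Real.norm_of_nonneg (Real.exp_pos _).le]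
    have h8 := h6 _ hlow hup
    have h9 := (norm_tail_le (K := K) T _ (e T)).trans
      (h7 (τ T - u * HH T ^ 2 / (2 * τ T)) (e T) (le_trans (by positivity) hlow) hup
        (by linarith only [h5.2, h4, h5, hc1]))
    set X : ℂ := ∫ t : ℝ, K T t * ((win T (τ T - u * HH T ^ 2 / (2 * τ T)) t : ℝ) : ℂ) with hX
    have h10 : ‖X‖ ≤ (‖M‖ + 1) * NN T := by
      have h11 : ‖X / ((NN T : ℝ) : ℂ)‖ ≤ ‖M‖ + 1 := by
        calc ‖X / ((NN T : ℝ) : ℂ)‖ = ‖(X / ((NN T : ℝ) : ℂ) - M) + M‖ := by rw [sub_add_cancel]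
          _ ≤ ‖X / ((NN T : ℝ) : ℂ) - M‖ + ‖M‖ := norm_add_le _ _
          _ ≤ _ := by linarith only [h8]
      rw [norm_div, Complex.norm_real, Real.norm_of_nonneg hN.le, div_le_iff₀ hN] at h11
      exact h11
    have h12 := norm_sub_le X (∫ t in Iic (e T), K T t *
      ((win T (τ T - u * HH T ^ 2 / (2 * τ T)) t : ℝ) : ℂ))
    have h13 : ‖X - ∫ t in Iic (e T), K T t *
      ((win T (τ T - u * HH T ^ 2 / (2 * τ T)) t : ℝ) : ℂ)‖ ≤ (‖M‖ + 3) * NN T := by
      linarith only [hN, h9, h10, h12]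
    calc _ ≤ Real.exp (-(δ / 8 * u)) * ((‖M‖ + 3) * NN T) :=
          mul_le_mul hexp h13 (norm_nonneg _) (Real.exp_pos _).le
      _ = _ := by ring
  · -- large `u`
    push Not at hcase
    have hu1 : δ ^ 2 * Real.log T ^ 2 / 4 ≤ u := by
      refine le_trans ?_ hcase.le
      rw [div_le_div_iff₀ (by norm_num) (by positivity)]
      have hsq : (δ * T) ^ 2 ≤ τ T ^ 2 := pow_le_pow_left₀ (by positivity) h4.1 2
      have hHT : HH T * Real.log T = T := by unfold HH; field_simp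
      calc δ ^ 2 * Real.log T ^ 2 * (4 * HH T ^ 2) = 4 * (δ * (HH T * Real.log T)) ^ 2 := by ring
        _ = 4 * (δ * T) ^ 2 := by rw [hHT]
        _ ≤ τ T ^ 2 * 4 := by linarith only [hsq]
    have hfull := tail_set hCb h.cont hb (ρ := 0) le_rfl h3 hτ0.le h4.2 (S := univ)
      MeasurableSet.univ (fun t _ => by rw [zero_mul]; exact abs_nonneg _)
    rw [Measure.restrict_univ] at hfull
    have hbT : ∀ t, ‖K T t‖ ≤ (Cb * T ^ A) * (1 + |t|) ^ A := fun t => by
      refine (hb T hT2 t).trans (le_of_eq ?_)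
      rw [mul_pow]; ring
    have i0 : Integrable fun t => ‖K T t‖ * win T (τ T) t := by
      refine ((A68.int_win hT1 (h.cont T) hbT (τ T)).norm).congr (Eventually.of_forall fun t => ?_)
      simp only
      rw [norm_smul, Real.norm_of_nonneg (A68.win_pos T (τ T) t).le, mul_comm]
    have hAA : ‖AA K e τ T u‖ ≤ Real.exp (-(δ / 4 * u)) * ∫ t, ‖K T t‖ * win T (τ T) t := by
      unfold AA
      calc _ ≤ ∫ t in Ioi (e T), Real.exp (-(δ / 4 * u)) * (‖K T t‖ * win T (τ T) t) := by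
            refine norm_integral_le_of_norm_le (i0.integrableOn.const_mul _) ?_
            refine (ae_restrict_iff' measurableSet_Ioi).2 (Eventually.of_forall fun t ht => ?_)
            have hw := A68.win_pos T (τ T) t
            rw [norm_mul, Complex.norm_real, Real.norm_of_nonneg (by positivity)]
            have h8 : Real.exp (-(t * u / τ T)) ≤ Real.exp (-(δ / 4 * u)) := by
              refine Real.exp_le_exp.2 (neg_le_neg ?_)
              rw [le_div_iff₀ hτ0]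
              have h9 : δ * T / 4 ≤ t := h5.1.trans (le_of_lt ht)
              calc δ / 4 * u * τ T ≤ δ / 4 * u * T := by gcongr; exact h4.2
                _ = (δ * T / 4) * u := by ring
                _ ≤ t * u := by gcongr
            calc ‖K T t‖ * (Real.exp (-(t * u / τ T)) * win T (τ T) t) ≤
                ‖K T t‖ * (Real.exp (-(δ / 4 * u)) * win T (τ T) t) := by gcongr
              _ = _ := by ring
        _ = Real.exp (-(δ / 4 * u)) * ∫ t in Ioi (e T), ‖K T t‖ * win T (τ T) t := by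
            rw [integral_const_mul]
        _ ≤ _ := by
            refine mul_le_mul_of_nonneg_left ?_ (Real.exp_pos _).le
            refine setIntegral_le_integral i0 (Eventually.of_forall fun t => ?_)
            have hw := A68.win_pos T (τ T) t
            positivity
    have hsplit : Real.exp (-(δ / 4 * u)) ≤
        Real.exp (-(δ / 8 * u)) * Real.exp (-(δ ^ 3 / 32 * Real.log T ^ 2)) := by
      rw [← Real.exp_add]
      refine Real.exp_le_exp.2 ?_
      have : δ / 8 * (δ ^ 2 * Real.log T ^ 2 / 4) ≤ δ / 8 * u := by gcongr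
      linarith only [this]
    set Q : ℝ := Cb * ((3 : ℝ) ^ A * (A.factorial * Real.exp (3 / 2))) * (2 * √π) with hQ
    have hfull' : ∫ t, ‖K T t‖ * win T (τ T) t ≤ Q * T ^ (2 * A + 1) := by
      refine hfull.trans (le_of_eq ?_)
      simp
    have hQ0 : 0 ≤ Q := by rw [hQ]; positivity
    calc ‖AA K e τ T u‖ ≤ Real.exp (-(δ / 4 * u)) * ∫ t, ‖K T t‖ * win T (τ T) t := hAA
      _ ≤ (Real.exp (-(δ / 8 * u)) * Real.exp (-(δ ^ 3 / 32 * Real.log T ^ 2))) *
          (Q * T ^ (2 * A + 1)) := by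
          refine mul_le_mul hsplit hfull' ?_ (by positivity)
          refine integral_nonneg fun t => ?_
          have hw := A68.win_pos T (τ T) t
          positivity
      _ = Real.exp (-(δ / 8 * u)) * (Q * (T ^ (2 * A + 1) *
          Real.exp (-(δ ^ 3 / 32 * Real.log T ^ 2)))) := by ring
      _ ≤ Real.exp (-(δ / 8 * u)) * 1 := by gcongr
      _ ≤ Real.exp (-(δ / 8 * u)) * ((‖M‖ + 3) * NN T) := by
          have := T_le_NN h3
          gcongr
          nlinarith only [hT1, this, hN, hM0]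
      _ = _ := by ring

/-! ### K05e -/

namespace C5

theorem norm_cpow_I {u : ℝ} (hu : 0 < u) (y : ℝ) : ‖(u : ℂ) ^ (y * I : ℂ)‖ = 1 := by
  rw [Complex.norm_cpow_eq_rpow_re_of_pos hu]
  simp

theorem cpow_contOn (y : ℝ) : ContinuousOn (fun u : ℝ => (u : ℂ) ^ (y * I : ℂ)) (Ioi 0) := by
  refine ContinuousOn.cpow_const Complex.continuous_ofReal.continuousOn fun u hu => ?_
  rw [Complex.mem_slitPlane_iff]
  left
  simpa using hu

end C5

theorem window_fubini {K : ℝ → ℝ → ℂ} {M : ℂ} (h : HasMean K M) {T : ℝ} (hT : 2 ≤ T) {e τ : ℝ → ℝ}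
    (he : 0 < e T) (hτ : 0 < τ T) (y : ℝ) :
    ∫ t in Ioi (e T), K T t * cexp (-(((y * Real.log (t / (2 * π)) : ℝ) : ℂ) * I)) *
      ((ww T (τ T) t : ℝ) : ℂ) =
    cexp (-(((y * Real.log (τ T / (2 * π)) : ℝ) : ℂ) * I)) * (Gamma (1 + y * I))⁻¹ *
      ∫ u in Ioi (0 : ℝ), (u : ℂ) ^ (y * I : ℂ) * AA K e τ T u := by
  have hT1 : 1 < T := by linarith only [hT]
  obtain ⟨C, A, hC, hb⟩ := h.bdd
  have hbT : ∀ t, ‖K T t‖ ≤ (C * T ^ A) * (1 + |t|) ^ A := fun t => by
    refine (hb T hT t).trans (le_of_eq ?_)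
    rw [mul_pow]; ring
  have i0 : Integrable fun t => ‖K T t‖ * win T (τ T) t := by
    refine ((A68.int_win hT1 (h.cont T) hbT (τ T)).norm).congr (Eventually.of_forall fun t => ?_)
    simp only
    rw [norm_smul, Real.norm_of_nonneg (A68.win_pos T (τ T) t).le, mul_comm]
  -- Fubini
  set F : ℝ → ℝ → ℂ := fun u t => (u : ℂ) ^ (y * I : ℂ) *
    (K T t * ((Real.exp (-(t * u / τ T)) * win T (τ T) t : ℝ) : ℂ)) with hF
  have hFm : AEStronglyMeasurable (Function.uncurry F)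
      ((volume.restrict (Ioi (0 : ℝ))).prod (volume.restrict (Ioi (e T)))) := by
    rw [Measure.prod_restrict]
    have hset : MeasurableSet (Ioi (0 : ℝ) ×ˢ Ioi (e T)) := measurableSet_Ioi.prod measurableSet_Ioi
    refine ContinuousOn.aestronglyMeasurable ?_ hset
    have c1 : ContinuousOn (fun p : ℝ × ℝ => ((p.1 : ℝ) : ℂ) ^ (y * I : ℂ)) (Ioi (0 : ℝ) ×ˢ Ioi (e T)) :=
      (C5.cpow_contOn y).comp continuousOn_fst fun p hp => hp.1
    have c2 : Continuous fun p : ℝ × ℝ => K T p.2 *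
        ((Real.exp (-(p.2 * p.1 / τ T)) * win T (τ T) p.2 : ℝ) : ℂ) := by
      have c3 := (h.cont T).comp continuous_snd (X := ℝ × ℝ)
      have c4 := (A68.win_cont T (τ T)).comp continuous_snd (X := ℝ × ℝ)
      have c5 : Continuous fun p : ℝ × ℝ => K T p.2 := c3
      have c6 : Continuous fun p : ℝ × ℝ => win T (τ T) p.2 := c4
      exact c5.mul (Complex.continuous_ofReal.comp (Continuous.mul (by fun_prop) c6))
    exact c1.mul c2.continuousOn
  have hFi : Integrable (Function.uncurry F)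
      ((volume.restrict (Ioi (0 : ℝ))).prod (volume.restrict (Ioi (e T)))) := by
    have j1 : Integrable (fun u : ℝ => Real.exp (-(e T / τ T) * u)) (volume.restrict (Ioi (0 : ℝ))) :=
      exp_neg_integrableOn_Ioi 0 (div_pos he hτ)
    have j2 := j1.mul_prod (i0.integrableOn (s := Ioi (e T)))
    refine j2.mono' hFm ?_
    rw [Measure.prod_restrict]
    have hset : MeasurableSet (Ioi (0 : ℝ) ×ˢ Ioi (e T)) := measurableSet_Ioi.prod measurableSet_Ioi
    refine (ae_restrict_iff' hset).2 (Eventually.of_forall fun p hp => ?_)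
    obtain ⟨hp1, hp2⟩ := hp
    have hu : 0 < p.1 := hp1
    have ht : e T < p.2 := hp2
    have hw := A68.win_pos T (τ T) p.2
    simp only [Function.uncurry, hF]
    rw [norm_mul, C5.norm_cpow_I hu, one_mul, norm_mul, Complex.norm_real,
      Real.norm_of_nonneg (by positivity)]
    have h8 : Real.exp (-(p.2 * p.1 / τ T)) ≤ Real.exp (-(e T / τ T) * p.1) := by
      refine Real.exp_le_exp.2 ?_
      rw [neg_mul, neg_le_neg_iff, div_mul_eq_mul_div]
      gcongr
    calc ‖K T p.2‖ * (Real.exp (-(p.2 * p.1 / τ T)) * win T (τ T) p.2) ≤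
        ‖K T p.2‖ * (Real.exp (-(e T / τ T) * p.1) * win T (τ T) p.2) := by gcongr
      _ = _ := by ring
  have hswap := integral_integral_swap hFi
  have hL : ∫ u in Ioi (0 : ℝ), (u : ℂ) ^ (y * I : ℂ) * AA K e τ T u =
      ∫ u in Ioi (0 : ℝ), ∫ t in Ioi (e T), F u t := by
    refine integral_congr_ae (Eventually.of_forall fun u => ?_)
    simp only [hF]
    rw [integral_const_mul]
    rfl
  have hG : Gamma (1 + y * I) ≠ 0 := Complex.Gamma_ne_zero_of_re_pos (by simp)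
  rw [hL, hswap, ← integral_const_mul]
  refine setIntegral_congr_fun measurableSet_Ioi fun t ht => ?_
  have ht0 : 0 < t := he.trans ht
  -- the inner integral
  have hin : ∫ u in Ioi (0 : ℝ), F u t = K T t * ((win T (τ T) t : ℝ) : ℂ) *
      ((1 / ((t / τ T : ℝ) : ℂ)) ^ (1 + y * I : ℂ) * Gamma (1 + y * I)) := by
    have hm := Complex.integral_cpow_mul_exp_neg_mul_Ioi (a := 1 + y * I) (r := t / τ T)
      (by simp) (div_pos ht0 hτ)
    rw [← hm, ← integral_const_mul]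
    refine integral_congr_ae (Eventually.of_forall fun u => ?_)
    simp only [hF]
    have e1 : (1 + y * I - 1 : ℂ) = y * I := by ring
    have e2' : -((((t / τ T : ℝ) : ℂ)) * (u : ℂ)) = ((-(t * u / τ T) : ℝ) : ℂ) := by
      push_cast; ring
    rw [e1, e2', ← Complex.ofReal_exp]
    push_cast
    ring
  rw [hin]
  have hpow : (1 / ((t / τ T : ℝ) : ℂ)) ^ (1 + y * I : ℂ) = ((τ T / t : ℝ) : ℂ) *
      cexp (((y * Real.log (τ T / t) : ℝ) : ℂ) * I) := by
    have e3 : (1 / ((t / τ T : ℝ) : ℂ)) = ((τ T / t : ℝ) : ℂ) := by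
      push_cast
      rw [one_div_div]
    have hpos : 0 < τ T / t := div_pos hτ ht0
    have hne : ((τ T / t : ℝ) : ℂ) ≠ 0 := by exact_mod_cast hpos.ne'
    rw [e3, Complex.cpow_add _ _ hne, Complex.cpow_one, Complex.cpow_def_of_ne_zero hne,
      ← Complex.ofReal_log hpos.le]
    congr 2
    push_cast; ring
  rw [hpow]
  have hlog : y * Real.log (t / (2 * π)) = y * Real.log (τ T / (2 * π)) - y * Real.log (τ T / t) := by
    rw [Real.log_div ht0.ne' (by positivity), Real.log_div hτ.ne' (by positivity),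
      Real.log_div hτ.ne' ht0.ne']
    ring
  have hexp : cexp (-(((y * Real.log (t / (2 * π)) : ℝ) : ℂ) * I)) =
      cexp (-(((y * Real.log (τ T / (2 * π)) : ℝ) : ℂ) * I)) *
      cexp (((y * Real.log (τ T / t) : ℝ) : ℂ) * I) := by
    rw [← Complex.exp_add, hlog]
    congr 1
    push_cast; ring
  rw [hexp]
  unfold ww
  generalize cexp (-(((y * Real.log (τ T / (2 * π)) : ℝ) : ℂ) * I)) = E1
  generalize cexp (((y * Real.log (τ T / t) : ℝ) : ℂ) * I) = E2
  generalize hGe : Gamma (1 + y * I) = Gm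
  rw [hGe] at hG
  push_cast
  field_simp

/-! ### K05f -/

theorem HasMean.window {K : ℝ → ℝ → ℂ} {M : ℂ} (h : HasMean K M) (x : ℝ) {δ : ℝ} (hδ : 0 < δ)
    (hδ1 : δ ≤ 1) {τ e : ℝ → ℝ}
    (hτ : Cen δ τ) (he : ∀ᶠ T : ℝ in atTop, δ * T / 4 ≤ e T ∧ e T ≤ 3 * δ * T / 4) :
    Tendsto (fun T : ℝ => (∫ t in Ioi (e T), K T t *
      cexp (-(((x / Real.log T * Real.log (t / (2 * π)) : ℝ) : ℂ) * I)) *
      ((ww T (τ T) t : ℝ) : ℂ)) / ((NN T : ℝ) : ℂ)) atTop (𝓝 (cexp (-((x : ℂ) * I)) * M)) := by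
  have hy : Tendsto (fun T : ℝ => x / Real.log T) atTop (𝓝 0) :=
    Real.tendsto_log_atTop.const_div_atTop x
  -- the Gamma factor
  have hGam : Tendsto (fun T : ℝ => (Gamma (1 + ((x / Real.log T : ℝ) : ℂ) * I))⁻¹) atTop (𝓝 1) := by
    have hc : ContinuousAt Gamma 1 := (Complex.differentiableAt_Gamma_one).continuousAt
    have h1 : Tendsto (fun T : ℝ => (1 + ((x / Real.log T : ℝ) : ℂ) * I)) atTop (𝓝 1) := by
      have h2 := (((Complex.continuous_ofReal.tendsto _).comp hy).mul_const I).const_add 1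
      simpa using h2
    have h3 := (hc.tendsto.comp h1).inv₀ (by rw [Complex.Gamma_one]; exact one_ne_zero)
    rw [Complex.Gamma_one, inv_one] at h3
    exact h3
  -- the phase
  have hph : Tendsto (fun T : ℝ => cexp (-(((x / Real.log T * Real.log (τ T / (2 * π)) : ℝ) : ℂ) * I)))
      atTop (𝓝 (cexp (-((x : ℂ) * I)))) := by
    have hr : Tendsto (fun T : ℝ => x / Real.log T * Real.log (τ T / (2 * π))) atTop (𝓝 x) := by
      have h1 : Tendsto (fun T : ℝ => x + x / Real.log T * (Real.log (τ T / (2 * π)) - Real.log T))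
          atTop (𝓝 x) := by
        have hbd : ∀ᶠ T : ℝ in atTop, |Real.log (τ T / (2 * π)) - Real.log T| ≤
            |Real.log δ| + |Real.log (2 * π)| := by
          filter_upwards [hτ, eventually_gt_atTop (0 : ℝ)] with T h1 h2
          have hτ0 : 0 < τ T := lt_of_lt_of_le (by positivity) h1.1
          have h3 : Real.log δ + Real.log T ≤ Real.log (τ T) := by
            rw [← Real.log_mul hδ.ne' h2.ne']
            exact Real.log_le_log (by positivity) h1.1
          have h4 : Real.log (τ T) ≤ Real.log T := Real.log_le_log hτ0 h1.2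
          have h5 : |Real.log (τ T) - Real.log T| ≤ |Real.log δ| := by
            rw [abs_of_nonpos (by linarith only [h4])]
            have := neg_abs_le (Real.log δ)
            linarith only [h3, this]
          rw [Real.log_div hτ0.ne' (by positivity)]
          calc |Real.log (τ T) - Real.log (2 * π) - Real.log T| =
              |(Real.log (τ T) - Real.log T) - Real.log (2 * π)| := by congr 1; ring
            _ ≤ _ := (abs_sub _ _).trans (by linarith only [h5])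
        have hz : Tendsto (fun T : ℝ => x / Real.log T * (Real.log (τ T / (2 * π)) - Real.log T))
            atTop (𝓝 0) := by
          have h6 : Tendsto (fun T : ℝ => |x / Real.log T| * (|Real.log δ| + |Real.log (2 * π)|))
              atTop (𝓝 0) := by
            have h7 := hy.abs.mul_const (|Real.log δ| + |Real.log (2 * π)|)
            simpa using h7
          rw [tendsto_zero_iff_abs_tendsto_zero]
          refine squeeze_zero' (Eventually.of_forall fun T => abs_nonneg _) ?_ h6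
          filter_upwards [hbd] with T h8
          simp only [Function.comp]
          rw [abs_mul]
          gcongr
        have h9 := hz.const_add x
        rw [add_zero] at h9
        exact h9
      refine h1.congr' ?_
      filter_upwards [eventually_gt_atTop (1 : ℝ)] with T hT
      have hl := (Real.log_pos hT).ne'
      field_simp
      ring
    have hcont : Continuous fun r : ℝ => cexp (-((r : ℂ) * I)) := by fun_prop
    exact (hcont.tendsto x).comp hr
  -- the integral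
  obtain ⟨C, c, hc, hdom⟩ := AA_dom h hδ hδ1 hτ he
  have hint : Tendsto (fun T : ℝ => ∫ u in Ioi (0 : ℝ),
      ((u : ℂ) ^ (((x / Real.log T : ℝ) : ℂ) * I : ℂ) * (AA K e τ T u / ((NN T : ℝ) : ℂ)))) atTop
      (𝓝 (∫ u in Ioi (0 : ℝ), ((Real.exp (-u) : ℝ) : ℂ) * M)) := by
    refine tendsto_integral_filter_of_dominated_convergence (fun u => C * Real.exp (-c * u)) ?_ ?_
      ?_ ?_
    · refine Eventually.of_forall fun T => ?_
      refine AEStronglyMeasurable.mul ((C5.cpow_contOn _).aestronglyMeasurable measurableSet_Ioi) ?_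
      have hm : AEStronglyMeasurable (fun u => AA K e τ T u) (volume.restrict (Ioi (0 : ℝ))) := by
        unfold AA
        have c2 : Continuous fun p : ℝ × ℝ => K T p.2 *
            ((Real.exp (-(p.2 * p.1 / τ T)) * win T (τ T) p.2 : ℝ) : ℂ) := by
          have c5 : Continuous fun p : ℝ × ℝ => K T p.2 := (h.cont T).comp continuous_snd
          have c6 : Continuous fun p : ℝ × ℝ => win T (τ T) p.2 :=
            (A68.win_cont T (τ T)).comp continuous_snd
          exact c5.mul (Complex.continuous_ofReal.comp (Continuous.mul (by fun_prop) c6))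
        exact AEStronglyMeasurable.integral_prod_right'
          (ν := volume.restrict (Ioi (e T))) c2.aestronglyMeasurable
      simp only [div_eq_mul_inv]
      exact hm.mul_const _
    · filter_upwards [hdom, eventually_gt_atTop (1 : ℝ)] with T h1 h2
      refine (ae_restrict_iff' measurableSet_Ioi).2 (Eventually.of_forall fun u hu => ?_)
      have hN := C5.NN_pos h2
      rw [norm_mul, C5.norm_cpow_I hu, one_mul, norm_div, Complex.norm_real,
        Real.norm_of_nonneg hN.le, div_le_iff₀ hN]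
      refine (h1 u (le_of_lt hu)).trans (le_of_eq ?_)
      rw [neg_mul]
    · exact (exp_neg_integrableOn_Ioi 0 hc).const_mul C
    · refine (ae_restrict_iff' measurableSet_Ioi).2 (Eventually.of_forall fun u hu => ?_)
      have hu0 : (0 : ℝ) < u := hu
      have h1 := AA_lim h hδ hτ he hu0.le
      have h2 : Tendsto (fun T : ℝ => (u : ℂ) ^ (((x / Real.log T : ℝ) : ℂ) * I : ℂ)) atTop (𝓝 1) := by
        have hne : (u : ℂ) ≠ 0 := by exact_mod_cast hu0.ne'
        have h3 : Continuous fun z : ℂ => (u : ℂ) ^ z := by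
          have : (fun z : ℂ => (u : ℂ) ^ z) = fun z => cexp (Complex.log u * z) := by
            funext z; rw [Complex.cpow_def_of_ne_zero hne]
          rw [this]
          fun_prop
        have h4 : Tendsto (fun T : ℝ => (((x / Real.log T : ℝ) : ℂ) * I : ℂ)) atTop (𝓝 0) := by
          have h5 := ((Complex.continuous_ofReal.tendsto _).comp hy).mul_const I
          simpa using h5
        have h6 := (h3.tendsto 0).comp h4
        rw [Complex.cpow_zero] at h6
        exact h6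
      have h7 := h2.mul h1
      rw [one_mul] at h7
      exact h7
  have hval : ∫ u in Ioi (0 : ℝ), ((Real.exp (-u) : ℝ) : ℂ) * M = M := by
    rw [integral_mul_const, integral_complex_ofReal, integral_exp_neg_Ioi_zero]
    simp
  rw [hval] at hint
  have hall := (hph.mul hGam).mul hint
  rw [mul_one] at hall
  refine hall.congr' ?_
  filter_upwards [hτ, he, eventually_ge_atTop (2 : ℝ)] with T h1 h2 h3
  have hT0 : 0 < T := by linarith only [h3]
  have hτ0 : 0 < τ T := lt_of_lt_of_le (by positivity) h1.1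
  have he0 : 0 < e T := lt_of_lt_of_le (by positivity) h2.1
  rw [window_fubini h h3 he0 hτ0 (x / Real.log T)]
  have e1 : ∫ u in Ioi (0 : ℝ), ((u : ℂ) ^ (((x / Real.log T : ℝ) : ℂ) * I : ℂ) *
      (AA K e τ T u / ((NN T : ℝ) : ℂ))) = (∫ u in Ioi (0 : ℝ),
      ((u : ℂ) ^ (((x / Real.log T : ℝ) : ℂ) * I : ℂ) * AA K e τ T u)) / ((NN T : ℝ) : ℂ) := by
    rw [← integral_div]
    refine integral_congr_ae (Eventually.of_forall fun u => ?_)
    simp only
    rw [mul_div_assoc]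
  rw [e1, mul_div_assoc]

end K3

end

section

/-!
# MP_069854_nt, shifted lower bound for `k = 3`: rows K08a, K08b (cross terms)
-/

namespace K3
open Complex MeasureTheory Filter Topology Set S6
open scoped Real ComplexConjugate

namespace C8

theorem NN_pos {T : ℝ} (hT : 1 < T) : 0 < NN T := by
  unfold NN
  have h1 := A68.HH_pos hT
  have h2 : 0 < √π := Real.sqrt_pos.2 Real.pi_pos
  have h3 := Real.log_pos hT
  positivity

/-- integrability of `g p win` on a half line -/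
theorem gp_int {T : ℝ} (hT : 1 < T) {g : ℝ → ℂ} (hg : Continuous g) {C : ℝ} {A : ℕ}
    (hb : ∀ t, ‖g t‖ ≤ C * (1 + |t|) ^ A) (τ e : ℝ) {p : ℝ → ℂ} (hp : ContinuousOn p (Ioi e))
    {D : ℝ} (hpb : ∀ t, e < t → ‖p t‖ ≤ D) :
    IntegrableOn (fun t => g t * p t * ((win T τ t : ℝ) : ℂ)) (Ioi e) := by
  have h1 : IntegrableOn (fun t => win T τ t • g t) (Ioi e) :=
    (A68.int_win hT hg hb τ).integrableOn
  have h2 : IntegrableOn (fun t => D * ‖win T τ t • g t‖) (Ioi e) := h1.norm.const_mul D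
  have hwc := A68.win_cont T τ
  refine Integrable.mono' h2 ?_ ?_
  · have h3 : Continuous fun t => ((win T τ t : ℝ) : ℂ) := Complex.continuous_ofReal.comp hwc
    exact ((hg.continuousOn.mul hp).mul h3.continuousOn).aestronglyMeasurable measurableSet_Ioi
  · refine (ae_restrict_iff' measurableSet_Ioi).2 (Eventually.of_forall fun t ht => ?_)
    have hw := A68.win_pos T τ t
    rw [norm_mul, norm_mul, norm_smul, Complex.norm_real, Real.norm_of_nonneg hw.le]
    have h4 := hpb t ht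
    calc ‖g t‖ * ‖p t‖ * win T τ t ≤ ‖g t‖ * D * win T τ t := by gcongr
      _ = _ := by ring

/-- comparison of two weights -/
theorem cmp {T : ℝ} (hT : 1 < T) {g : ℝ → ℂ} (hg : Continuous g) {C : ℝ} {A : ℕ}
    (hb : ∀ t, ‖g t‖ ≤ C * (1 + |t|) ^ A) (τ e : ℝ) {p q : ℝ → ℂ} (hp : ContinuousOn p (Ioi e))
    (hq : ContinuousOn q (Ioi e)) {D E η : ℝ} (hpb : ∀ t, e < t → ‖p t‖ ≤ D)
    (hqb : ∀ t, e < t → ‖q t‖ ≤ E) (hpq : ∀ t, e < t → ‖p t - q t‖ ≤ η) (hη : 0 ≤ η) :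
    ‖(∫ t in Ioi e, g t * p t * ((win T τ t : ℝ) : ℂ)) -
      ∫ t in Ioi e, g t * q t * ((win T τ t : ℝ) : ℂ)‖ ≤ η * ∫ t, ‖g t‖ * win T τ t := by
  have i1 := gp_int hT hg hb τ e hp hpb
  have i2 := gp_int hT hg hb τ e hq hqb
  have i0 : Integrable fun t => ‖g t‖ * win T τ t := by
    refine ((A68.int_win hT hg hb τ).norm).congr (Eventually.of_forall fun t => ?_)
    simp only
    rw [norm_smul, Real.norm_of_nonneg (A68.win_pos T τ t).le, mul_comm]
  rw [← integral_sub i1 i2]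
  calc ‖∫ t in Ioi e, (g t * p t * ((win T τ t : ℝ) : ℂ) - g t * q t * ((win T τ t : ℝ) : ℂ))‖
      ≤ ∫ t in Ioi e, ‖(g t * p t * ((win T τ t : ℝ) : ℂ) - g t * q t * ((win T τ t : ℝ) : ℂ))‖ :=
        norm_integral_le_integral_norm _
    _ ≤ ∫ t in Ioi e, η * (‖g t‖ * win T τ t) := by
        refine setIntegral_mono_on (i1.sub i2).norm (i0.integrableOn.const_mul η) measurableSet_Ioi
          fun t ht => ?_
        have hw := A68.win_pos T τ t
        have e1 : g t * p t * ((win T τ t : ℝ) : ℂ) - g t * q t * ((win T τ t : ℝ) : ℂ) =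
            g t * (p t - q t) * ((win T τ t : ℝ) : ℂ) := by ring
        rw [e1, norm_mul, norm_mul, Complex.norm_real, Real.norm_of_nonneg hw.le]
        have h4 := hpq t ht
        calc ‖g t‖ * ‖p t - q t‖ * win T τ t ≤ ‖g t‖ * η * win T τ t := by gcongr
          _ = _ := by ring
    _ = η * ∫ t in Ioi e, ‖g t‖ * win T τ t := by rw [integral_const_mul]
    _ ≤ η * ∫ t, ‖g t‖ * win T τ t := by
        refine mul_le_mul_of_nonneg_left ?_ hη
        refine setIntegral_le_integral i0 (Eventually.of_forall fun t => ?_)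
        have hw := A68.win_pos T τ t
        positivity

theorem shift_Ioi (f : ℝ → ℂ) (a d : ℝ) :
    ∫ t in Ioi a, f (t + d) = ∫ t in Ioi (a + d), f t := by
  have h1 : ∫ t in Ioi a, f (t + d) = ∫ t, (Ioi (a + d)).indicator f (t + d) := by
    rw [← integral_indicator measurableSet_Ioi]
    refine integral_congr_ae (Eventually.of_forall fun t => ?_)
    simp only [indicator, mem_Ioi, add_lt_add_iff_right]
  rw [h1, integral_add_right_eq_self (fun t => (Ioi (a + d)).indicator f t) d,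
    integral_indicator measurableSet_Ioi]

theorem log_tendsto : Tendsto (fun T : ℝ => Real.log T) atTop atTop := Real.tendsto_log_atTop

theorem shift_small (x : ℝ) {ε : ℝ} (hε : 0 < ε) : ∀ᶠ T : ℝ in atTop, |x / Real.log T| ≤ ε := by
  have h1 : Tendsto (fun T : ℝ => x / Real.log T) atTop (𝓝 0) := log_tendsto.const_div_atTop x
  have h2 := h1.abs
  rw [abs_zero] at h2
  filter_upwards [h2.eventually (gt_mem_nhds hε)] with T h using h.le

/-- the general cross term -/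
theorem cross_genA {Y : ℝ → ℂ} (hY : Continuous Y) (hY1 : ∀ t, ‖Y t‖ = 1) {κ C₀ t₀ : ℝ}
    (hC₀ : 0 ≤ C₀)
    (hsh : ∀ t ≥ t₀, ∀ d : ℝ, |d| ≤ 1 →
      ‖Y (t - d) - Y t * cexp (-(((κ * d * Real.log (t / (2 * π)) : ℝ) : ℂ) * I))‖ ≤ C₀ / t)
    (x : ℝ) {W : ℝ → ℝ → ℂ} (hW : ∀ T, Continuous (W T))
    (hWb : ∃ (D : ℝ) (A : ℕ), 0 ≤ D ∧ ∀ T : ℝ, 1 ≤ T → ∀ t, ‖W T t‖ ≤ D * T ^ A)
    (hcr' : ∀ δ : ℝ, 0 < δ → ∀ τ : ℝ → ℝ, Cen δ τ →
      Tendsto (fun T : ℝ => (∫ t : ℝ, ‖ze t‖ ^ 3 * ‖W T t‖ * win T (τ T) t) / (T * NN T)) atTop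
        (𝓝 0)) {M : ℂ}
    (hM : HasMean (fun T t => ze t ^ 3 * Y t * W T t) M)
    {δ : ℝ} (hδ : 0 < δ) (hδ1 : δ ≤ 1 / 2) {τ : ℝ → ℝ} (hτ : CenS δ τ) :
    Tendsto (fun T : ℝ => (∫ t in Ioi (δ * T / 2), ze (t + x / Real.log T) ^ 3 *
      (Y t * W T (t + x / Real.log T)) * ((ww T (τ T) t : ℝ) : ℂ)) / ((NN T : ℝ) : ℂ)) atTop
      (𝓝 (cexp (-((κ * x : ℂ) * I)) * M)) := by
  set d : ℝ → ℝ := fun T => x / Real.log T with hd
  set τ' : ℝ → ℝ := fun T => τ T + d T with hτ'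
  set e : ℝ → ℝ := fun T => δ * T / 2 + d T with he
  -- eventual facts
  have hd1 : ∀ᶠ T : ℝ in atTop, |d T| ≤ 1 := shift_small x one_pos
  have hlarge : ∀ᶠ T : ℝ in atTop, 16 / δ ≤ T := eventually_ge_atTop _
  have hCen : Cen (3 * δ / 4) τ' := by
    filter_upwards [hτ, hd1, hlarge, eventually_ge_atTop (2 : ℝ)] with T h1 h2 h3 h4
    have h5 : 16 ≤ δ * T := by rw [div_le_iff₀ hδ] at h3; linarith only [h3]
    have h6 := abs_le.1 h2
    simp only [hτ']
    constructor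
    · linarith only [h1.1, hδ, hδ1, h1, h5, h6]
    · linarith only [h1.2, hδ, hδ1, h1, h5, h6]
  have hend : ∀ᶠ T : ℝ in atTop, 3 * δ / 4 * T / 4 ≤ e T ∧ e T ≤ 3 * (3 * δ / 4) * T / 4 := by
    filter_upwards [hd1, hlarge] with T h2 h3
    have h5 : 16 ≤ δ * T := by rw [div_le_iff₀ hδ] at h3; linarith only [h3]
    have h6 := abs_le.1 h2
    simp only [he]
    constructor <;> linarith only [hδ, hδ1, h5, h6]
  -- the main term
  have hmain := hM.window (κ * x) (δ := 3 * δ / 4) (by positivity) (by linarith only [hδ, hδ1]) hCen hend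
  have hcr := hcr' (3 * δ / 4) (by positivity) τ' hCen
  set η : ℝ → ℝ := fun T => (C₀ * (8 / δ ^ 2) + 16 / δ ^ 2 + 2 / δ) / T with hη
  have herr : Tendsto (fun T : ℝ => ((∫ t in Ioi (δ * T / 2), ze (t + x / Real.log T) ^ 3 *
      (Y t * W T (t + x / Real.log T)) * ((ww T (τ T) t : ℝ) : ℂ)) -
      ∫ t in Ioi (e T), (ze t ^ 3 * Y t * W T t) *
      cexp (-(((κ * x / Real.log T * Real.log (t / (2 * π)) : ℝ) : ℂ) * I)) *
      ((ww T (τ' T) t : ℝ) : ℂ)) / ((NN T : ℝ) : ℂ)) atTop (𝓝 0) := by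
    rw [tendsto_zero_iff_norm_tendsto_zero]
    have hup : Tendsto (fun T : ℝ => (C₀ * (8 / δ ^ 2) + 16 / δ ^ 2 + 2 / δ) *
        ((∫ t : ℝ, ‖ze t‖ ^ 3 * ‖W T t‖ * win T (τ' T) t) / (T * NN T))) atTop (𝓝 0) := by
      have := hcr.const_mul (C₀ * (8 / δ ^ 2) + 16 / δ ^ 2 + 2 / δ)
      rwa [mul_zero] at this
    refine squeeze_zero' (Eventually.of_forall fun T => norm_nonneg _) ?_ hup
    obtain ⟨Cz, hCz, hzb⟩ := ze_bdd
    obtain ⟨D, A, hD, hB⟩ := hWb
    filter_upwards [hτ, hd1, hlarge, eventually_ge_atTop (2 : ℝ), hCen,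
      eventually_ge_atTop (4 * t₀ / δ)] with T h1 h2 h3 h4 h5 h6
    have hT1 : 1 < T := by linarith only [hδ, hδ1, h4]
    have hN := NN_pos hT1
    have h7 : 16 ≤ δ * T := by rw [div_le_iff₀ hδ] at h3; linarith only [h3]
    have h8 := abs_le.1 h2
    have ht₀ : 4 * t₀ ≤ δ * T := by rw [div_le_iff₀ hδ] at h6; linarith only [h6]
    have hτ0 : 0 ≤ τ T := le_trans (by positivity) h1.1
    have hτT : τ T ≤ T := h1.2.trans (by linarith only [hδ, hδ1, h7])
    -- the substitution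
    have hsub : (∫ t in Ioi (δ * T / 2), ze (t + x / Real.log T) ^ 3 *
        (Y t * W T (t + x / Real.log T)) * ((ww T (τ T) t : ℝ) : ℂ)) =
        ∫ t in Ioi (e T), (ze t ^ 3 * W T t) * (Y (t - d T) * ((τ T / (t - d T) : ℝ) : ℂ)) *
          ((win T (τ' T) t : ℝ) : ℂ) := by
      rw [← shift_Ioi (fun t => (ze t ^ 3 * W T t) * (Y (t - d T) * ((τ T / (t - d T) : ℝ) : ℂ)) *
          ((win T (τ' T) t : ℝ) : ℂ)) (δ * T / 2) (d T)]
      refine integral_congr_ae (Eventually.of_forall fun t => ?_)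
      simp only [hd, add_sub_cancel_right]
      unfold ww win
      have e1 : t + x / Real.log T - (τ T + x / Real.log T) = t - τ T := by ring
      simp only [hτ', hd, e1]
      push_cast
      ring
    have hsub2 : (∫ t in Ioi (e T), (ze t ^ 3 * Y t * W T t) *
        cexp (-(((κ * x / Real.log T * Real.log (t / (2 * π)) : ℝ) : ℂ) * I)) *
        ((ww T (τ' T) t : ℝ) : ℂ)) = ∫ t in Ioi (e T), (ze t ^ 3 * W T t) *
        (Y t * cexp (-(((κ * d T * Real.log (t / (2 * π)) : ℝ) : ℂ) * I)) *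
          ((τ' T / t : ℝ) : ℂ)) * ((win T (τ' T) t : ℝ) : ℂ) := by
      refine integral_congr_ae (Eventually.of_forall fun t => ?_)
      simp only [hd]
      have e2 : κ * x / Real.log T = κ * (x / Real.log T) := by ring
      rw [e2]
      unfold ww
      push_cast
      ring
    rw [norm_div, hsub, hsub2, Complex.norm_real, Real.norm_of_nonneg hN.le]
    have hgb : ∀ t, ‖ze t ^ 3 * W T t‖ ≤ (Cz ^ 3 * (D * T ^ A)) * (1 + |t|) ^ 3 := by
      intro t
      rw [norm_mul, norm_pow]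
      have h9 := hzb t
      have h10 := hB T (by linarith only [hδ, hδ1, h1, h7]) t
      calc ‖ze t‖ ^ 3 * ‖W T t‖ ≤ (Cz * (1 + |t|)) ^ 3 * (D * T ^ A) := by gcongr
        _ = _ := by ring
    have heT : e T = δ * T / 2 + d T := rfl
    have het : ∀ t, e T < t → δ * T / 4 ≤ t ∧ δ * T / 2 < t - d T ∧ t₀ ≤ t := by
      intro t ht
      rw [heT] at ht
      refine ⟨by linarith only [hδ, hδ1, h7, h8, ht], by linarith only [ht], by linarith only [hδ, hδ1, h7, h8, ht₀, ht]⟩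
    have hpos4 : 0 < δ * T / 4 := by positivity
    have hcmp := cmp hT1 (g := fun t => ze t ^ 3 * W T t) ((ze_cont.pow 3).mul (hW T)) hgb (τ' T) (e T)
      (p := fun t => Y (t - d T) * ((τ T / (t - d T) : ℝ) : ℂ))
      (q := fun t => Y t * cexp (-(((κ * d T * Real.log (t / (2 * π)) : ℝ) : ℂ) * I)) *
          ((τ' T / t : ℝ) : ℂ)) (D := 2 / δ) (E := 4 * (T + 1) / (δ * T))
      (η := η T) ?_ ?_ ?_ ?_ ?_ ?_
    · rw [div_le_iff₀ hN]
      refine hcmp.trans (le_of_eq ?_)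
      simp only [hη, norm_mul, norm_pow]
      field_simp
    · -- continuity of p
      refine ContinuousOn.mul (by fun_prop) ?_
      refine Complex.continuous_ofReal.comp_continuousOn ?_
      refine ContinuousOn.div continuousOn_const (by fun_prop) fun t ht => ?_
      have := (het t ht).2.1
      have : 0 < t - d T := by linarith only [hδ, hδ1, h7, this]
      exact this.ne'
    · -- continuity of q
      have hlog : ContinuousOn (fun t : ℝ => Real.log (t / (2 * π))) (Ioi (e T)) := by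
        refine ContinuousOn.log (by fun_prop) fun t ht => ?_
        have h9 := (het t ht).1
        have : 0 < t / (2 * π) := div_pos (by linarith only [hδ, hδ1, h7, h9]) (by positivity)
        exact this.ne'
      have hdiv : ContinuousOn (fun t : ℝ => τ' T / t) (Ioi (e T)) := by
        refine ContinuousOn.div continuousOn_const continuousOn_id fun t ht => ?_
        have h9 := (het t ht).1
        have : 0 < t := by linarith only [hδ, hδ1, h7, h9]
        exact this.ne'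
      refine ContinuousOn.mul (ContinuousOn.mul hY.continuousOn ?_)
        (Complex.continuous_ofReal.comp_continuousOn hdiv)
      refine Complex.continuous_exp.comp_continuousOn (ContinuousOn.neg (ContinuousOn.mul ?_
        continuousOn_const))
      exact Complex.continuous_ofReal.comp_continuousOn (continuousOn_const.mul hlog)
    · intro t ht
      have h9 := (het t ht).2.1
      have h10 : 0 < t - d T := by linarith only [hδ, hδ1, h7, heT, ht]
      rw [norm_mul, hY1, one_mul, Complex.norm_real, Real.norm_of_nonneg (by positivity),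
        div_le_div_iff₀ h10 hδ]
      nlinarith only [heT, ht, hδ, hδ1, h1, h7]
    · intro t ht
      have h9 := (het t ht).1
      have h10 : 0 < t := by linarith only [hδ, hδ1, h7, h8, heT, ht]
      have h11 : 0 ≤ τ' T := le_trans (by positivity) h5.1
      rw [norm_mul, norm_mul, hY1, one_mul, Complex.norm_real, Real.norm_of_nonneg (by positivity),
        show -(((κ * d T * Real.log (t / (2 * π)) : ℝ) : ℂ) * I) =
          ((-(κ * d T * Real.log (t / (2 * π))) : ℝ) : ℂ) * I by push_cast; ring,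
        Complex.norm_exp_ofReal_mul_I, one_mul, div_le_div_iff₀ h10 (by positivity)]
      have h12 : τ' T ≤ T := h5.2
      calc τ' T * (δ * T) ≤ T * (δ * T) := by gcongr
        _ ≤ (T + 1) * (δ * T) := by linarith only [hδ, hδ1, h7]
        _ ≤ (T + 1) * (4 * t) := by
            refine mul_le_mul_of_nonneg_left (by linarith only [hδ, hδ1, h7, h8, heT, ht]) (by linarith only [hδ, hδ1, h1, h7])
        _ = _ := by ring
    · -- the difference
      intro t ht
      obtain ⟨h9, h10, h11⟩ := het t ht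
      have ht0 : 0 < t := by linarith only [hδ, hδ1, h7, h8, heT, ht]
      have htd : 0 < t - d T := by linarith only [hδ, hδ1, h7, heT, ht]
      set E : ℂ := cexp (-(((κ * d T * Real.log (t / (2 * π)) : ℝ) : ℂ) * I)) with hE
      have hE1 : ‖E‖ = 1 := by
        rw [hE, show -(((κ * d T * Real.log (t / (2 * π)) : ℝ) : ℂ) * I) =
          ((-(κ * d T * Real.log (t / (2 * π))) : ℝ) : ℂ) * I by push_cast; ring,
          Complex.norm_exp_ofReal_mul_I]
      have e3 : Y (t - d T) * ((τ T / (t - d T) : ℝ) : ℂ) - Y t * E * ((τ' T / t : ℝ) : ℂ) =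
          (Y (t - d T) - Y t * E) * ((τ T / (t - d T) : ℝ) : ℂ) +
          Y t * E * ((τ T / (t - d T) - τ' T / t : ℝ) : ℂ) := by
        push_cast; ring
      rw [e3]
      refine (norm_add_le _ _).trans ?_
      rw [norm_mul, norm_mul, norm_mul, hY1, hE1, one_mul, one_mul, Complex.norm_real,
        Complex.norm_real]
      have h12 := hsh t h11 (d T) h2
      have h13 : ‖τ T / (t - d T)‖ ≤ 2 / δ := by
        rw [Real.norm_of_nonneg (by positivity), div_le_div_iff₀ htd hδ]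
        nlinarith only [heT, ht, hδ, hδ1, h1, h7]
      have h14 : C₀ / t ≤ C₀ * (4 / (δ * T)) := by
        have : 1 / t ≤ 4 / (δ * T) := by
          rw [div_le_div_iff₀ ht0 (by positivity)]
          linarith only [hδ, hδ1, h7, h8, heT, ht]
        calc C₀ / t = C₀ * (1 / t) := by ring
          _ ≤ _ := mul_le_mul_of_nonneg_left this hC₀
      have h15 : ‖τ T / (t - d T) - τ' T / t‖ ≤ (16 / δ ^ 2 + 2 / δ) / T := by
        have e4 : τ T / (t - d T) - τ' T / t = d T * ((τ T + d T) / (t * (t - d T)) - 1 / (t - d T)) := by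
          have e5 : τ' T = τ T + d T := rfl
          rw [e5]
          field_simp
          ring
        rw [e4, norm_mul, Real.norm_eq_abs]
        have h16 : ‖(τ T + d T) / (t * (t - d T)) - 1 / (t - d T)‖ ≤ (16 / δ ^ 2 + 2 / δ) / T := by
          refine (norm_sub_le _ _).trans ?_
          rw [Real.norm_eq_abs, Real.norm_eq_abs, abs_div, abs_of_pos (mul_pos ht0 htd),
            abs_div, abs_one, abs_of_pos htd]
          have h17 : |τ T + d T| ≤ 2 * T := by
            rw [abs_le]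
            constructor <;> linarith only [hδ, hδ1, h1, h7, h8, h5]
          have h18 : |τ T + d T| / (t * (t - d T)) ≤ 16 / δ ^ 2 / T := by
            calc |τ T + d T| / (t * (t - d T)) ≤ (2 * T) / ((δ * T / 4) * (δ * T / 2)) := by gcongr
              _ = 16 / δ ^ 2 / T := by field_simp; ring
          have h19 : 1 / (t - d T) ≤ 2 / δ / T := by
            calc 1 / (t - d T) ≤ 1 / (δ * T / 2) := by gcongr
              _ = 2 / δ / T := by field_simp
          calc _ ≤ 16 / δ ^ 2 / T + 2 / δ / T := add_le_add h18 h19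
            _ = _ := by ring
        calc |d T| * ‖(τ T + d T) / (t * (t - d T)) - 1 / (t - d T)‖ ≤
            1 * ((16 / δ ^ 2 + 2 / δ) / T) := by gcongr
          _ = _ := one_mul _
      calc ‖Y (t - d T) - Y t * E‖ * ‖τ T / (t - d T)‖ + ‖τ T / (t - d T) - τ' T / t‖ ≤
          (C₀ * (4 / (δ * T))) * (2 / δ) + (16 / δ ^ 2 + 2 / δ) / T := by
            gcongr
            exact h12.trans h14
        _ = η T := by
            simp only [hη]
            field_simp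
            ring
    · simp only [hη]
      positivity
  have hsum := hmain.add herr
  rw [add_zero] at hsum
  have hfin : (cexp (-(((κ * x : ℝ) : ℂ) * I)) * M) = cexp (-((κ * x : ℂ) * I)) * M := by
    push_cast; rfl
  rw [hfin] at hsum
  refine hsum.congr fun T => ?_
  rw [← add_div]
  congr 1
  ring

/-- the general cross term, `B` version -/
theorem cross_gen {Y : ℝ → ℂ} (hY : Continuous Y) (hY1 : ∀ t, ‖Y t‖ = 1) {κ C₀ t₀ : ℝ}
    (hC₀ : 0 ≤ C₀)
    (hsh : ∀ t ≥ t₀, ∀ d : ℝ, |d| ≤ 1 →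
      ‖Y (t - d) - Y t * cexp (-(((κ * d * Real.log (t / (2 * π)) : ℝ) : ℂ) * I))‖ ≤ C₀ / t)
    {Ψ : ℝ × ℝ × ℝ → ℝ} (h : SF (Reg 1) Ψ) (x b : ℝ) {W : ℝ → ℝ → ℂ}
    (hW : ∀ T, Continuous (W T)) (hWn : ∀ T t, ‖W T t‖ = ‖BS Ψ (b - x) T t‖) {M : ℂ}
    (hM : HasMean (fun T t => ze t ^ 3 * Y t * W T t) M)
    {δ : ℝ} (hδ : 0 < δ) (hδ1 : δ ≤ 1 / 2) {τ : ℝ → ℝ} (hτ : CenS δ τ) :
    Tendsto (fun T : ℝ => (∫ t in Ioi (δ * T / 2), ze (t + x / Real.log T) ^ 3 *
      (Y t * W T (t + x / Real.log T)) * ((ww T (τ T) t : ℝ) : ℂ)) / ((NN T : ℝ) : ℂ)) atTop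
      (𝓝 (cexp (-((κ * x : ℂ) * I)) * M)) := by
  refine cross_genA hY hY1 hC₀ hsh x hW ?_ ?_ hM hδ hδ1 hτ
  · obtain ⟨D, hD, hB⟩ := BS_bdd h.smooth h.hcs (b - x)
    exact ⟨D, 3, hD, fun T hT t => by rw [hWn]; exact hB T hT t⟩
  · intro δ' hδ' τ' hτ'
    simp only [hWn]
    exact crude h (b - x) hδ' hτ'

end C8

/-- **K08a.** -/
theorem cross1 {R : Set (ℝ × ℝ × ℝ)} (hR : GoodReg R) {Ψ : ℝ × ℝ × ℝ → ℝ} (h : SF R Ψ) (x b : ℝ)
    {δ : ℝ} (hδ : 0 < δ) (hδ1 : δ ≤ 1 / 2) {τ : ℝ → ℝ} (hτ : CenS δ τ) :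
    Tendsto (fun T : ℝ => (∫ t in Ioi (δ * T / 2), ze (t + x / Real.log T) ^ 3 *
      (XX t * conj (BS Ψ b T t)) * ((ww T (τ T) t : ℝ) : ℂ)) / ((NN T : ℝ) : ℂ)) atTop
      (𝓝 (cexp (-((x : ℂ) * I)) * mPP Ψ (b - x))) := by
  have h' : SF (Reg 1) Ψ := ⟨h.smooth, h.hcs, h.supp.trans hR.sub⟩
  obtain ⟨C, t₀, hC, -, hsh⟩ := XX_shift 1
  have hM : HasMean (fun T t => ze t ^ 3 * XX t * conj (BS Ψ (b - x) T t)) (mPP Ψ (b - x)) := by
    have e : (fun T t => ze t ^ 3 * XX t * conj (BS Ψ (b - x) T t)) =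
        fun T t => ((‖ze t‖ ^ 2 : ℝ) : ℂ) * ze t * conj (BS Ψ (b - x) T t) := by
      funext T t
      have h1 : ((‖ze t‖ ^ 2 : ℝ) : ℂ) = ze t * conj (ze t) := by
        rw [mul_conj, normSq_eq_norm_sq]
      rw [h1, ← XX_ze]; ring
    rw [e]
    exact mean_cross hR h (b - x)
  have := C8.cross_gen XX_cont XX_norm (κ := 1) hC (fun t ht d hd => by
      rw [one_mul]; exact hsh t ht d hd) h' x b
    (W := fun T t => conj (BS Ψ (b - x) T t)) (fun T => Complex.continuous_conj.comp (BS_cont _ _ _))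
    (fun T t => RCLike.norm_conj _) hM hδ hδ1 hτ
  rw [ofReal_one, one_mul] at this
  refine this.congr fun T => ?_
  congr 1
  refine integral_congr_ae (Eventually.of_forall fun t => ?_)
  simp only
  unfold BS
  have e1 : t + x / Real.log T + (b - x) / Real.log T = t + b / Real.log T := by ring
  rw [e1]

/-- **K08b.** -/
theorem cross2 {R : Set (ℝ × ℝ × ℝ)} (hR : GoodReg R) {Ψ : ℝ × ℝ × ℝ → ℝ} (h : SF R Ψ) (x b : ℝ)
    {δ : ℝ} (hδ : 0 < δ) (hδ1 : δ ≤ 1 / 2) {τ : ℝ → ℝ} (hτ : CenS δ τ) :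
    Tendsto (fun T : ℝ => (∫ t in Ioi (δ * T / 2), ze (t + x / Real.log T) ^ 3 *
      (XX t ^ 2 * BS Ψ b T t) * ((ww T (τ T) t : ℝ) : ℂ)) / ((NN T : ℝ) : ℂ)) atTop
      (𝓝 (cexp (-((2 * x : ℂ) * I)) * conj (mPP Ψ (b - x)))) := by
  have h' : SF (Reg 1) Ψ := ⟨h.smooth, h.hcs, h.supp.trans hR.sub⟩
  obtain ⟨C, t₀, hC, -, hsh⟩ := XX_shift 1
  have hM : HasMean (fun T t => ze t ^ 3 * XX t ^ 2 * BS Ψ (b - x) T t) (conj (mPP Ψ (b - x))) := by
    have e : (fun T t => ze t ^ 3 * XX t ^ 2 * BS Ψ (b - x) T t) =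
        fun T t => conj (((‖ze t‖ ^ 2 : ℝ) : ℂ) * ze t * conj (BS Ψ (b - x) T t)) := by
      funext T t
      have h1 : ((‖ze t‖ ^ 2 : ℝ) : ℂ) = ze t * conj (ze t) := by
        rw [mul_conj, normSq_eq_norm_sq]
      rw [map_mul, map_mul, conj_ofReal, Complex.conj_conj, h1, ← XX_ze]; ring
    rw [e]
    exact (mean_cross hR h (b - x)).conj
  have := C8.cross_gen (Y := fun t => XX t ^ 2) (XX_cont.pow 2)
    (fun t => by simp only [norm_pow, XX_norm, one_pow]) (κ := 2)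
    (C₀ := 2 * C) (t₀ := t₀) (by positivity) (fun t ht d hd => by
      have h1 := hsh t ht d hd
      have h2 : cexp (-(((2 * d * Real.log (t / (2 * π)) : ℝ) : ℂ) * I)) =
          cexp (-(((d * Real.log (t / (2 * π)) : ℝ) : ℂ) * I)) ^ 2 := by
        rw [← Complex.exp_nat_mul]
        congr 1; push_cast; ring
      have hE1 : ‖cexp (-(((d * Real.log (t / (2 * π)) : ℝ) : ℂ) * I))‖ = 1 := by
        rw [show -(((d * Real.log (t / (2 * π)) : ℝ) : ℂ) * I) =
          ((-(d * Real.log (t / (2 * π))) : ℝ) : ℂ) * I by push_cast; ring,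
          Complex.norm_exp_ofReal_mul_I]
      rw [h2]
      generalize cexp (-(((d * Real.log (t / (2 * π)) : ℝ) : ℂ) * I)) = E at h1 hE1 ⊢
      have h3 : XX (t - d) ^ 2 - XX t ^ 2 * E ^ 2 =
          (XX (t - d) - XX t * E) * (XX (t - d) + XX t * E) := by ring
      rw [h3, norm_mul]
      have h4 : ‖XX (t - d) + XX t * E‖ ≤ 2 := by
        refine (norm_add_le _ _).trans ?_
        rw [norm_mul, XX_norm, XX_norm, hE1]; norm_num
      calc ‖XX (t - d) - XX t * E‖ * ‖XX (t - d) + XX t * E‖ ≤ (C / t) * 2 := by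
            have : 0 ≤ C / t := (norm_nonneg _).trans h1
            gcongr
        _ = 2 * C / t := by ring) h' x b
    (W := fun T t => BS Ψ (b - x) T t) (fun T => BS_cont _ _ _)
    (fun T t => rfl) hM hδ hδ1 hτ
  have hc : (((2 : ℝ) : ℂ) * (x : ℂ)) = 2 * (x : ℂ) := by push_cast; rfl
  rw [hc] at this
  refine this.congr fun T => ?_
  congr 1
  refine integral_congr_ae (Eventually.of_forall fun t => ?_)
  simp only
  unfold BS
  have e1 : t + x / Real.log T + (b - x) / Real.log T = t + b / Real.log T := by ring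
  rw [e1]

end K3

end

section

/-!
# MP_069854_nt, shifted lower bound for `k = 3`: assembly
-/

namespace K3
open Complex MeasureTheory Filter Topology Set S6
open scoped Real ComplexConjugate

noncomputable section

variable {m : ℕ}

/-! ### weighted window limits -/

/-- weighted window limits on `t > δT/2` -/
structure WL (δ : ℝ) (τ : ℝ → ℝ) (K : ℝ → ℝ → ℂ) (M : ℂ) : Prop where
  int : ∀ᶠ T : ℝ in atTop, IntegrableOn (fun t => K T t * ((ww T (τ T) t : ℝ) : ℂ)) (Ioi (δ * T / 2))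
  lim : Tendsto (fun T : ℝ => (∫ t in Ioi (δ * T / 2), K T t * ((ww T (τ T) t : ℝ) : ℂ)) /
    ((NN T : ℝ) : ℂ)) atTop (𝓝 M)

variable {δ : ℝ} {τ : ℝ → ℝ}

theorem WL.add {K K' : ℝ → ℝ → ℂ} {M M' : ℂ} (h : WL δ τ K M) (h' : WL δ τ K' M') :
    WL δ τ (fun T t => K T t + K' T t) (M + M') := by
  refine ⟨?_, ?_⟩
  · filter_upwards [h.int, h'.int] with T h1 h2
    refine (h1.add h2).congr (Eventually.of_forall fun t => ?_)
    simp only [Pi.add_apply]
    ring
  · refine (h.lim.add h'.lim).congr' ?_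
    filter_upwards [h.int, h'.int] with T h1 h2
    rw [← add_div, ← integral_add h1 h2]
    congr 1
    refine integral_congr_ae (Eventually.of_forall fun t => ?_)
    simp only
    ring

theorem WL.const_mul {K : ℝ → ℝ → ℂ} {M : ℂ} (h : WL δ τ K M) (c : ℂ) :
    WL δ τ (fun T t => c * K T t) (c * M) := by
  refine ⟨?_, ?_⟩
  · filter_upwards [h.int] with T h1
    refine (h1.const_mul c).congr (Eventually.of_forall fun t => ?_)
    simp only
    ring
  · refine (h.lim.const_mul c).congr fun T => ?_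
    rw [← mul_div_assoc, ← integral_const_mul]
    congr 1
    refine integral_congr_ae (Eventually.of_forall fun t => ?_)
    simp only
    ring

theorem WL.zero : WL δ τ (fun _ _ => 0) 0 := by
  refine ⟨Eventually.of_forall fun T => ?_, ?_⟩
  · simp
  · simp

theorem WL.sum {ι : Type*} (s : Finset ι) {K : ι → ℝ → ℝ → ℂ} {M : ι → ℂ}
    (h : ∀ i ∈ s, WL δ τ (K i) (M i)) :
    WL δ τ (fun T t => ∑ i ∈ s, K i T t) (∑ i ∈ s, M i) := by
  classical
  induction s using Finset.induction_on with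
  | empty => simpa using WL.zero
  | insert a s ha ih =>
    simp only [Finset.sum_insert ha]
    exact (h a (by simp)).add (ih fun i hi => h i (by simp [hi]))

theorem WL.congr {K K' : ℝ → ℝ → ℂ} {M : ℂ} (h : WL δ τ K M) (he : ∀ T t, K' T t = K T t) :
    WL δ τ K' M := by
  have : K' = K := by funext T t; exact he T t
  rwa [this]

theorem WL.conj {K : ℝ → ℝ → ℂ} {M : ℂ} (h : WL δ τ K M) :
    WL δ τ (fun T t => conj (K T t)) (conj M) := by
  have e : ∀ T t : ℝ, conj (K T t) * ((ww T (τ T) t : ℝ) : ℂ) =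
      conj (K T t * ((ww T (τ T) t : ℝ) : ℂ)) := by
    intro T t
    rw [map_mul, conj_ofReal]
  refine ⟨?_, ?_⟩
  · filter_upwards [h.int] with T h1
    have h2 : IntegrableOn (fun t => conj (K T t * ((ww T (τ T) t : ℝ) : ℂ))) (Ioi (δ * T / 2)) := by
      have := (Complex.conjCLE.toContinuousLinearMap).integrable_comp h1
      exact this
    refine h2.congr (Eventually.of_forall fun t => ?_)
    simp only
    rw [e]
  · have h2 := (Complex.continuous_conj.tendsto M).comp h.lim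
    refine h2.congr fun T => ?_
    simp only [Function.comp, map_div₀, conj_ofReal]
    congr 1
    rw [← integral_conj]
    refine integral_congr_ae (Eventually.of_forall fun t => ?_)
    simp only
    rw [e]

/-! ### integrability -/

theorem NN_pos {T : ℝ} (hT : 1 < T) : 0 < NN T := by
  unfold NN
  have h1 := A68.HH_pos hT
  have h2 : 0 < √π := Real.sqrt_pos.2 Real.pi_pos
  have h3 := Real.log_pos hT
  positivity

theorem ww_nonneg {T τ t : ℝ} (hτ : 0 ≤ τ) (ht : 0 ≤ t) : 0 ≤ ww T τ t := by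
  unfold ww
  have := A68.win_pos T τ t
  positivity

theorem ww_contOn (T τ : ℝ) {e : ℝ} (he : 0 < e) : ContinuousOn (fun t => ww T τ t) (Ioi e) := by
  unfold ww
  have := A68.win_cont T τ
  refine ContinuousOn.mul (ContinuousOn.div continuousOn_const continuousOn_id ?_) this.continuousOn
  intro t ht
  exact (he.trans ht).ne'

theorem ww_le {T τ t e : ℝ} (hτ : 0 ≤ τ) (he : 0 < e) (ht : e < t) : ww T τ t ≤ τ / e * win T τ t := by
  unfold ww
  have := A68.win_pos T τ t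
  have h1 : τ / t ≤ τ / e := div_le_div_of_nonneg_left hτ he ht.le
  exact mul_le_mul_of_nonneg_right h1 this.le

theorem ww_integrable {f : ℝ → ℂ} (hf : Continuous f) {C : ℝ} {A : ℕ}
    (hb : ∀ t, ‖f t‖ ≤ C * (1 + |t|) ^ A) {T : ℝ} (hT : 1 < T) {τ : ℝ} (hτ : 0 ≤ τ) {e : ℝ}
    (he : 0 < e) : IntegrableOn (fun t => f t * ((ww T τ t : ℝ) : ℂ)) (Ioi e) := by
  have h1 : IntegrableOn (fun t => win T τ t • f t) (Ioi e) :=
    (A68.int_win hT hf hb τ).integrableOn
  have h2 : IntegrableOn (fun t => τ / e * ‖win T τ t • f t‖) (Ioi e) := h1.norm.const_mul (τ / e)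
  refine Integrable.mono' h2 ?_ ?_
  · have h3 := Complex.continuous_ofReal.comp_continuousOn (ww_contOn T τ he)
    exact (hf.continuousOn.mul h3).aestronglyMeasurable measurableSet_Ioi
  · refine (ae_restrict_iff' measurableSet_Ioi).2 (Eventually.of_forall fun t ht => ?_)
    have hw := A68.win_pos T τ t
    have ht0 : 0 < t := he.trans ht
    rw [norm_mul, norm_smul, Complex.norm_real, Real.norm_of_nonneg (ww_nonneg hτ ht0.le),
      Real.norm_of_nonneg hw.le]
    calc ‖f t‖ * ww T τ t ≤ ‖f t‖ * (τ / e * win T τ t) :=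
          mul_le_mul_of_nonneg_left (ww_le hτ he ht) (norm_nonneg _)
      _ = _ := by ring

/-- the plain window lemma -/
theorem HasMean.WL {K : ℝ → ℝ → ℂ} {M : ℂ} (h : HasMean K M) (hδ : 0 < δ) (hδ1 : δ ≤ 1 / 2)
    (hτ : CenS δ τ) : WL δ τ K M := by
  have hC : Cen δ τ := by
    filter_upwards [hτ, eventually_gt_atTop (0 : ℝ)] with T h1 h2
    exact ⟨h1.1, h1.2.trans (by nlinarith only [hδ, h2])⟩
  have he : ∀ᶠ T : ℝ in atTop, δ * T / 4 ≤ δ * T / 2 ∧ δ * T / 2 ≤ 3 * δ * T / 4 := by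
    filter_upwards [eventually_gt_atTop (0 : ℝ)] with T h2
    constructor <;> linarith only [mul_pos hδ h2, hδ, h2]
  obtain ⟨C, A, hC0, hb⟩ := h.bdd
  refine ⟨?_, ?_⟩
  · filter_upwards [hC, eventually_ge_atTop (2 : ℝ)] with T h1 h2
    refine ww_integrable (h.cont T) (C := C * T ^ A) (A := A) (fun t => ?_) (by linarith only [hδ, hδ1, h2]) ?_ ?_
    · refine (hb T h2 t).trans (le_of_eq ?_)
      rw [mul_pow]; ring
    · exact le_trans (by positivity) h1.1
    · positivity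
  · have := h.window 0 hδ (by linarith only [hδ, hδ1]) hC he
    simp only [zero_div, zero_mul, ofReal_zero, neg_zero, Complex.exp_zero, one_mul, mul_one] at this
    exact this

/-! ### the test function -/

/-- one summand of the test function -/
def F1 (Ψ : ℝ × ℝ × ℝ → ℝ) (a T t : ℝ) : ℂ :=
  cexp (-((a : ℂ) * I)) * (conj (XX t) * BS Ψ a T t) +
    cexp (-((2 * a : ℂ) * I)) * (conj (XX t) ^ 2 * conj (BS Ψ a T t))

/-- the test function -/
def FF (Ψ : ℝ × ℝ × ℝ → ℝ) (x : Fin m → ℝ) (c : Fin m → ℂ) (T t : ℝ) : ℂ :=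
  ∑ k, c k * F1 Ψ (x k) T t

theorem ze_shift_cont (a T : ℝ) : Continuous fun t => ze (t + a / Real.log T) :=
  ze_cont.comp (by fun_prop)

/-- growth of the shifted zeta function, uniformly for `T ≥ 2` -/
theorem ze_shift_bdd (a : ℝ) : ∃ C : ℝ, 0 ≤ C ∧ ∀ T : ℝ, 2 ≤ T → ∀ t,
    ‖ze (t + a / Real.log T)‖ ≤ C * (1 + |t|) := by
  obtain ⟨C, hC, hb⟩ := ze_bdd
  refine ⟨C * (1 + |a| / Real.log 2), ?_, fun T hT t => ?_⟩
  · have : 0 < Real.log 2 := Real.log_pos (by norm_num)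
    positivity
  · refine (hb _).trans ?_
    have h2 : 0 < Real.log 2 := Real.log_pos (by norm_num)
    have hl : Real.log 2 ≤ Real.log T := Real.log_le_log (by norm_num) hT
    have h3 : |a / Real.log T| ≤ |a| / Real.log 2 := by
      rw [abs_div, abs_of_pos (h2.trans_le hl)]
      exact div_le_div_of_nonneg_left (abs_nonneg _) h2 hl
    have h4 : 1 + |t + a / Real.log T| ≤ (1 + |a| / Real.log 2) * (1 + |t|) := by
      have h5 := abs_add_le t (a / Real.log T)
      have h6 : 0 ≤ |a| / Real.log 2 := by positivity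
      nlinarith only [abs_nonneg t, h3, h5, h6]
    calc C * (1 + |t + a / Real.log T|) ≤ C * ((1 + |a| / Real.log 2) * (1 + |t|)) :=
          mul_le_mul_of_nonneg_left h4 hC
      _ = _ := by ring

theorem cross_WL1 {R : Set (ℝ × ℝ × ℝ)} (hR : GoodReg R) {Ψ : ℝ × ℝ × ℝ → ℝ} (h : SF R Ψ) (x b : ℝ)
    (hδ : 0 < δ) (hδ1 : δ ≤ 1 / 2) (hτ : CenS δ τ) :
    WL δ τ (fun T t => ze (t + x / Real.log T) ^ 3 * (XX t * conj (BS Ψ b T t)))
      (cexp (-((x : ℂ) * I)) * mPP Ψ (b - x)) := by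
  refine ⟨?_, cross1 hR h x b hδ hδ1 hτ⟩
  obtain ⟨C, hC, hz⟩ := ze_shift_bdd x
  obtain ⟨D, hD, hB⟩ := BS_bdd h.smooth h.hcs b
  filter_upwards [hτ, eventually_ge_atTop (2 : ℝ)] with T h1 h2
  refine ww_integrable (((ze_shift_cont x T).pow 3).mul (XX_cont.mul
    (Complex.continuous_conj.comp (BS_cont Ψ b T)))) (C := C ^ 3 * (D * T ^ 3)) (A := 3) (fun t => ?_)
    (by linarith only [hδ, hδ1, h2]) ?_ (by positivity)
  · have h3 := hz T h2 t
    have h4 := hB T (by linarith only [hδ, hδ1, h2]) t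
    have h5 : ‖ze (t + x / Real.log T) ^ 3 * (XX t * conj (BS Ψ b T t))‖ =
        ‖ze (t + x / Real.log T)‖ ^ 3 * ‖BS Ψ b T t‖ := by
      rw [norm_mul, norm_mul, norm_pow, XX_norm, one_mul, RCLike.norm_conj]
    calc _ = ‖ze (t + x / Real.log T)‖ ^ 3 * ‖BS Ψ b T t‖ := h5
      _ ≤ (C * (1 + |t|)) ^ 3 * (D * T ^ 3) := by
          gcongr
      _ = _ := by ring
  · exact le_trans (by positivity) h1.1

theorem cross_WL2 {R : Set (ℝ × ℝ × ℝ)} (hR : GoodReg R) {Ψ : ℝ × ℝ × ℝ → ℝ} (h : SF R Ψ) (x b : ℝ)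
    (hδ : 0 < δ) (hδ1 : δ ≤ 1 / 2) (hτ : CenS δ τ) :
    WL δ τ (fun T t => ze (t + x / Real.log T) ^ 3 * (XX t ^ 2 * BS Ψ b T t))
      (cexp (-((2 * x : ℂ) * I)) * conj (mPP Ψ (b - x))) := by
  refine ⟨?_, cross2 hR h x b hδ hδ1 hτ⟩
  obtain ⟨C, hC, hz⟩ := ze_shift_bdd x
  obtain ⟨D, hD, hB⟩ := BS_bdd h.smooth h.hcs b
  filter_upwards [hτ, eventually_ge_atTop (2 : ℝ)] with T h1 h2
  refine ww_integrable (((ze_shift_cont x T).pow 3).mul ((XX_cont.pow 2).mul
    (BS_cont Ψ b T))) (C := C ^ 3 * (D * T ^ 3)) (A := 3) (fun t => ?_)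
    (by linarith only [hδ, hδ1, h2]) ?_ (by positivity)
  · have h3 := hz T h2 t
    have h4 := hB T (by linarith only [hδ, hδ1, h2]) t
    have h5 : ‖ze (t + x / Real.log T) ^ 3 * (XX t ^ 2 * BS Ψ b T t)‖ =
        ‖ze (t + x / Real.log T)‖ ^ 3 * ‖BS Ψ b T t‖ := by
      rw [norm_mul, norm_mul, norm_pow, norm_pow, XX_norm, one_pow, one_mul]
    calc _ = ‖ze (t + x / Real.log T)‖ ^ 3 * ‖BS Ψ b T t‖ := h5
      _ ≤ (C * (1 + |t|)) ^ 3 * (D * T ^ 3) := by
          gcongr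
      _ = _ := by ring
  · exact le_trans (by positivity) h1.1

/-- limit of `Z_j conj F_k` -/
def al (Ψ : ℝ × ℝ × ℝ → ℝ) (x a : ℝ) : ℂ :=
  cexp ((a : ℂ) * I) * (cexp (-((x : ℂ) * I)) * mPP Ψ (a - x)) +
    cexp ((2 * a : ℂ) * I) * (cexp (-((2 * x : ℂ) * I)) * conj (mPP Ψ (a - x)))

/-- limit of `F_k conj F_l` -/
def be (Ψ : ℝ × ℝ × ℝ → ℝ) (a b : ℝ) : ℂ :=
  cexp (-((a : ℂ) * I)) * cexp ((b : ℂ) * I) * mSq Ψ (a - b) +
    cexp (-((2 * a : ℂ) * I)) * cexp ((2 * b : ℂ) * I) * conj (mSq Ψ (a - b))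

theorem conj_exp1 (a : ℝ) : conj (cexp (-((a : ℂ) * I))) = cexp ((a : ℂ) * I) := by
  rw [← Complex.exp_conj]; simp

theorem conj_exp2 (a : ℝ) : conj (cexp (-((2 * a : ℂ) * I))) = cexp ((2 * a : ℂ) * I) := by
  have h : ((2 * a : ℂ)) = ((2 * a : ℝ) : ℂ) := by push_cast; rfl
  rw [h, conj_exp1]

theorem conj_expR (a : ℝ) : conj (cexp ((a : ℂ) * I)) = cexp (-((a : ℂ) * I)) := by
  rw [← Complex.exp_conj]; simp

theorem XX_mul_conj (t : ℝ) : XX t * conj (XX t) = 1 := by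
  rw [mul_conj, normSq_eq_norm_sq, XX_norm]; norm_num

theorem ZF_WL {R : Set (ℝ × ℝ × ℝ)} (hR : GoodReg R) {Ψ : ℝ × ℝ × ℝ → ℝ} (h : SF R Ψ) (x a : ℝ)
    (hδ : 0 < δ) (hδ1 : δ ≤ 1 / 2) (hτ : CenS δ τ) :
    WL δ τ (fun T t => ze (t + x / Real.log T) ^ 3 * conj (F1 Ψ a T t)) (al Ψ x a) := by
  refine (((cross_WL1 hR h x a hδ hδ1 hτ).const_mul (cexp ((a : ℂ) * I))).add
    ((cross_WL2 hR h x a hδ hδ1 hτ).const_mul (cexp ((2 * a : ℂ) * I)))).congr fun T t => ?_
  unfold F1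
  simp only [map_add, map_mul, map_pow, Complex.conj_conj, conj_exp1, conj_exp2]
  ring

theorem FF_WL {R : Set (ℝ × ℝ × ℝ)} (hR : GoodReg R) {Ψ : ℝ × ℝ × ℝ → ℝ} (h : SF R Ψ) (a b : ℝ)
    (hδ : 0 < δ) (hδ1 : δ ≤ 1 / 2) (hτ : CenS δ τ) :
    WL δ τ (fun T t => F1 Ψ a T t * conj (F1 Ψ b T t)) (be Ψ a b) := by
  have h' : SF (Reg 1) Ψ := ⟨h.smooth, h.hcs, h.supp.trans hR.sub⟩
  have w1 := (mean_sqS h' a b).WL hδ hδ1 hτ
  have w2 := w1.conj
  have w3 := (mean_chiS h' a b).WL hδ hδ1 hτ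
  have w4 := w3.conj
  have hW := (((w1.const_mul (cexp (-((a : ℂ) * I)) * cexp ((b : ℂ) * I))).add
    (w2.const_mul (cexp (-((2 * a : ℂ) * I)) * cexp ((2 * b : ℂ) * I)))).add
    (w3.const_mul (cexp (-((a : ℂ) * I)) * cexp ((2 * b : ℂ) * I)))).add
    (w4.const_mul (cexp (-((2 * a : ℂ) * I)) * cexp ((b : ℂ) * I)))
  have hv : cexp (-((a : ℂ) * I)) * cexp ((b : ℂ) * I) * mSq Ψ (a - b) +
      cexp (-((2 * a : ℂ) * I)) * cexp ((2 * b : ℂ) * I) * conj (mSq Ψ (a - b)) +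
      cexp (-((a : ℂ) * I)) * cexp ((2 * b : ℂ) * I) * 0 +
      cexp (-((2 * a : ℂ) * I)) * cexp ((b : ℂ) * I) * conj 0 = be Ψ a b := by
    unfold be; simp
  rw [hv] at hW
  refine hW.congr fun T t => ?_
  unfold F1
  simp only [map_add, map_mul, map_pow, Complex.conj_conj, conj_exp1, conj_exp2]
  have hx := XX_mul_conj t
  generalize XX t = X at hx ⊢
  generalize conj X = Y at hx ⊢
  generalize BS Ψ a T t = A
  generalize BS Ψ b T t = B
  generalize conj A = A'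
  generalize conj B = B'
  generalize cexp (-((a : ℂ) * I)) = e1
  generalize cexp ((b : ℂ) * I) = e2
  generalize cexp (-((2 * a : ℂ) * I)) = e3
  generalize cexp ((2 * b : ℂ) * I) = e4
  linear_combination (e1 * e2 * A * B' + e3 * e4 * A' * B * (X * Y + 1) + e1 * e4 * X * A * B +
    e3 * e2 * Y * A' * B') * hx

/-! ### evaluation of the limits -/

theorem PP_cont : Continuous PP := by unfold PP; fun_prop
theorem th_cont : Continuous th := by unfold th; fun_prop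

theorem Pf_cont (x : Fin m → ℝ) (c : Fin m → ℂ) : Continuous (Pf x c) := by
  unfold Pf; fun_prop

theorem Pf_sq (x : Fin m → ℝ) (c : Fin m → ℂ) (u : ℝ) : ((‖Pf x c u‖ ^ 2 : ℝ) : ℂ) =
    ∑ j, ∑ k, c j * conj (c k) * cexp (-(((x j - x k) * u : ℝ) : ℂ) * I) := by
  rw [← normSq_eq_norm_sq, ← mul_conj, Pf, map_sum, Finset.sum_mul_sum]
  refine Finset.sum_congr rfl fun j _ => Finset.sum_congr rfl fun k _ => ?_
  rw [map_mul, ← Complex.exp_conj]
  have e : conj (-(((x k * u : ℝ) : ℂ) * I)) = ((x k * u : ℝ) : ℂ) * I := by simp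
  rw [e, mul_mul_mul_comm, ← Complex.exp_add]
  congr 2
  push_cast; ring

theorem al_eq {Ψ : ℝ × ℝ × ℝ → ℝ} (hc : Continuous Ψ) (hs : HasCompactSupport Ψ) (x a : ℝ) :
    al Ψ x a = (A3 : ℂ) * ∫ p : ℝ × ℝ × ℝ, ((Ψ p * PP p : ℝ) : ℂ) *
      (cexp (-(((x - a) * (1 - th p) : ℝ) : ℂ) * I) + cexp (-(((x - a) * (2 + th p) : ℝ) : ℂ) * I)) := by
  unfold al mPP
  rw [map_mul, conj_ofReal, ← integral_conj]
  have e1 : ∀ X Y E : ℂ, cexp ((a : ℂ) * I) * (cexp (-((x : ℂ) * I)) * ((A3 : ℂ) * X)) +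
      cexp ((2 * a : ℂ) * I) * (cexp (-((2 * x : ℂ) * I)) * ((A3 : ℂ) * Y)) =
      (A3 : ℂ) * ((cexp ((a : ℂ) * I) * cexp (-((x : ℂ) * I))) * X +
        (cexp ((2 * a : ℂ) * I) * cexp (-((2 * x : ℂ) * I))) * Y) := by
    intro X Y E; ring
  rw [e1 _ _ 0, ← integral_const_mul, ← integral_const_mul, ← integral_add]
  · congr 1
    refine integral_congr_ae (Eventually.of_forall fun p => ?_)
    simp only [map_mul, conj_ofReal, ← Complex.exp_conj]
    have q1 : conj (-((((a - x) * th p : ℝ) : ℂ) * I)) = (((a - x) * th p : ℝ) : ℂ) * I := by simp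
    rw [q1]
    have q2 : cexp ((a : ℂ) * I) * cexp (-((x : ℂ) * I)) *
        (((Ψ p * PP p : ℝ) : ℂ) * cexp (-((((a - x) * th p : ℝ) : ℂ) * I))) =
        ((Ψ p * PP p : ℝ) : ℂ) * cexp (-(((x - a) * (1 - th p) : ℝ) : ℂ) * I) := by
      have : cexp (-(((x - a) * (1 - th p) : ℝ) : ℂ) * I) =
          cexp ((a : ℂ) * I) * cexp (-((x : ℂ) * I)) * cexp (-((((a - x) * th p : ℝ) : ℂ) * I)) := by
        rw [← Complex.exp_add, ← Complex.exp_add]
        congr 1; push_cast; ring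
      rw [this]; ring
    have q3 : cexp ((2 * a : ℂ) * I) * cexp (-((2 * x : ℂ) * I)) *
        (((Ψ p * PP p : ℝ) : ℂ) * cexp ((((a - x) * th p : ℝ) : ℂ) * I)) =
        ((Ψ p * PP p : ℝ) : ℂ) * cexp (-(((x - a) * (2 + th p) : ℝ) : ℂ) * I) := by
      have : cexp (-(((x - a) * (2 + th p) : ℝ) : ℂ) * I) =
          cexp ((2 * a : ℂ) * I) * cexp (-((2 * x : ℂ) * I)) * cexp ((((a - x) * th p : ℝ) : ℂ) * I) := by
        rw [← Complex.exp_add, ← Complex.exp_add]
        congr 1; push_cast; ring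
      rw [this]; ring
    rw [q2, q3]; ring
  · refine Integrable.const_mul ?_ _
    have hP := PP_cont
    have ht := th_cont
    refine Continuous.integrable_of_hasCompactSupport (by fun_prop) ?_
    refine HasCompactSupport.mul_right ?_
    exact (hs.mul_right (f' := PP)).comp_left (g := fun x : ℝ => (x : ℂ)) (by simp)
  · refine Integrable.const_mul ?_ _
    have hP := PP_cont
    have ht := th_cont
    have hcm : Continuous fun p : ℝ × ℝ × ℝ => (((Ψ p * PP p : ℝ) : ℂ) *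
      cexp (-((((a - x) * th p : ℝ) : ℂ) * I))) := by fun_prop
    refine (Complex.continuous_conj.comp hcm).integrable_of_hasCompactSupport ?_
    refine HasCompactSupport.comp_left (g := fun z : ℂ => conj z) ?_ (by simp)
    refine HasCompactSupport.mul_right ?_
    exact (hs.mul_right (f' := PP)).comp_left (g := fun x : ℝ => (x : ℂ)) (by simp)

theorem be_eq {Ψ : ℝ × ℝ × ℝ → ℝ} (hc : Continuous Ψ) (hs : HasCompactSupport Ψ) (a b : ℝ) :
    be Ψ a b = (A3 : ℂ) * ∫ p : ℝ × ℝ × ℝ, ((Ψ p ^ 2 : ℝ) : ℂ) *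
      (cexp (-(((a - b) * (1 - th p) : ℝ) : ℂ) * I) + cexp (-(((a - b) * (2 + th p) : ℝ) : ℂ) * I)) := by
  unfold be mSq
  rw [map_mul, conj_ofReal, ← integral_conj]
  have e1 : ∀ X Y : ℂ, cexp (-((a : ℂ) * I)) * cexp ((b : ℂ) * I) * ((A3 : ℂ) * X) +
      cexp (-((2 * a : ℂ) * I)) * cexp ((2 * b : ℂ) * I) * ((A3 : ℂ) * Y) =
      (A3 : ℂ) * ((cexp (-((a : ℂ) * I)) * cexp ((b : ℂ) * I)) * X +
        (cexp (-((2 * a : ℂ) * I)) * cexp ((2 * b : ℂ) * I)) * Y) := by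
    intro X Y; ring
  rw [e1, ← integral_const_mul, ← integral_const_mul, ← integral_add]
  · congr 1
    refine integral_congr_ae (Eventually.of_forall fun p => ?_)
    simp only []
    have q1 : conj (((Ψ p ^ 2 : ℝ) : ℂ) * cexp ((((a - b) * th p : ℝ) : ℂ) * I)) =
        ((Ψ p ^ 2 : ℝ) : ℂ) * cexp (-((((a - b) * th p : ℝ) : ℂ) * I)) := by
      rw [map_mul, conj_ofReal, conj_expR]
    rw [q1]
    have q2 : cexp (-((a : ℂ) * I)) * cexp ((b : ℂ) * I) *
        (((Ψ p ^ 2 : ℝ) : ℂ) * cexp ((((a - b) * th p : ℝ) : ℂ) * I)) =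
        ((Ψ p ^ 2 : ℝ) : ℂ) * cexp (-(((a - b) * (1 - th p) : ℝ) : ℂ) * I) := by
      have : cexp (-(((a - b) * (1 - th p) : ℝ) : ℂ) * I) =
          cexp (-((a : ℂ) * I)) * cexp ((b : ℂ) * I) * cexp ((((a - b) * th p : ℝ) : ℂ) * I) := by
        rw [← Complex.exp_add, ← Complex.exp_add]
        congr 1; push_cast; ring
      rw [this]; ring
    have q3 : cexp (-((2 * a : ℂ) * I)) * cexp ((2 * b : ℂ) * I) *
        (((Ψ p ^ 2 : ℝ) : ℂ) * cexp (-((((a - b) * th p : ℝ) : ℂ) * I))) =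
        ((Ψ p ^ 2 : ℝ) : ℂ) * cexp (-(((a - b) * (2 + th p) : ℝ) : ℂ) * I) := by
      have : cexp (-(((a - b) * (2 + th p) : ℝ) : ℂ) * I) =
          cexp (-((2 * a : ℂ) * I)) * cexp ((2 * b : ℂ) * I) *
            cexp (-((((a - b) * th p : ℝ) : ℂ) * I)) := by
        rw [← Complex.exp_add, ← Complex.exp_add]
        congr 1; push_cast; ring
      rw [this]; ring
    rw [q2, q3]; ring
  all_goals
    refine Integrable.const_mul ?_ _
    have ht := th_cont
    have hsq : HasCompactSupport fun p => Ψ p ^ 2 := hs.comp_left (g := fun y : ℝ => y ^ 2) (by simp)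
  · refine Continuous.integrable_of_hasCompactSupport (by fun_prop) ?_
    refine HasCompactSupport.mul_right ?_
    exact hsq.comp_left (g := fun x : ℝ => (x : ℂ)) (by simp)
  · have hcm : Continuous fun p : ℝ × ℝ × ℝ => (((Ψ p ^ 2 : ℝ) : ℂ) *
      cexp ((((a - b) * th p : ℝ) : ℂ) * I)) := by fun_prop
    refine (Complex.continuous_conj.comp hcm).integrable_of_hasCompactSupport ?_
    refine HasCompactSupport.comp_left (g := fun z : ℂ => conj z) ?_ (by simp)
    refine HasCompactSupport.mul_right ?_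
    exact hsq.comp_left (g := fun x : ℝ => (x : ℂ)) (by simp)

/-- the weight -/
def wt (x : Fin m → ℝ) (c : Fin m → ℂ) (p : ℝ × ℝ × ℝ) : ℝ :=
  ‖Pf x c (1 - th p)‖ ^ 2 + ‖Pf x c (2 + th p)‖ ^ 2

theorem wt_cont (x : Fin m → ℝ) (c : Fin m → ℂ) : Continuous (wt x c) := by
  have h1 := Pf_cont x c
  have h2 := th_cont
  unfold wt
  fun_prop

theorem sum_eq (x : Fin m → ℝ) (c : Fin m → ℂ) {f : ℝ × ℝ × ℝ → ℝ} (hf : Continuous f)
    (hs : HasCompactSupport f) {γ : ℝ → ℝ → ℂ}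
    (hγ : ∀ a b, γ a b = (A3 : ℂ) * ∫ p : ℝ × ℝ × ℝ, ((f p : ℝ) : ℂ) *
      (cexp (-(((a - b) * (1 - th p) : ℝ) : ℂ) * I) + cexp (-(((a - b) * (2 + th p) : ℝ) : ℂ) * I))) :
    ∑ j, ∑ k, c j * conj (c k) * γ (x j) (x k) = ((A3 * ∫ p, f p * wt x c p : ℝ) : ℂ) := by
  have hi : ∀ a b : ℝ, Integrable fun p : ℝ × ℝ × ℝ => ((f p : ℝ) : ℂ) *
      (cexp (-(((a - b) * (1 - th p) : ℝ) : ℂ) * I) +
        cexp (-(((a - b) * (2 + th p) : ℝ) : ℂ) * I)) := by
    intro a b
    have ht := th_cont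
    refine Continuous.integrable_of_hasCompactSupport (by fun_prop) ?_
    refine HasCompactSupport.mul_right ?_
    exact hs.comp_left (g := fun x : ℝ => (x : ℂ)) (by simp)
  have h1 : ∀ j k, c j * conj (c k) * γ (x j) (x k) = (A3 : ℂ) * ∫ p : ℝ × ℝ × ℝ,
      c j * conj (c k) * (((f p : ℝ) : ℂ) * (cexp (-(((x j - x k) * (1 - th p) : ℝ) : ℂ) * I) +
        cexp (-(((x j - x k) * (2 + th p) : ℝ) : ℂ) * I))) := by
    intro j k
    rw [hγ, integral_const_mul]; ring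
  simp only [h1, ← Finset.mul_sum]
  rw [ofReal_mul]
  congr 1
  rw [← integral_complex_ofReal]
  have h2 : ∀ j, ∑ k, ∫ p : ℝ × ℝ × ℝ, c j * conj (c k) * (((f p : ℝ) : ℂ) *
      (cexp (-(((x j - x k) * (1 - th p) : ℝ) : ℂ) * I) +
        cexp (-(((x j - x k) * (2 + th p) : ℝ) : ℂ) * I))) =
      ∫ p : ℝ × ℝ × ℝ, ∑ k, c j * conj (c k) * (((f p : ℝ) : ℂ) *
      (cexp (-(((x j - x k) * (1 - th p) : ℝ) : ℂ) * I) +
        cexp (-(((x j - x k) * (2 + th p) : ℝ) : ℂ) * I))) := fun j =>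
    (integral_finsetSum _ fun k _ => (hi _ _).const_mul _).symm
  simp only [h2]
  rw [← integral_finsetSum _ fun j _ => integrable_finsetSum _ fun k _ => (hi _ _).const_mul _]
  refine integral_congr_ae (Eventually.of_forall fun p => ?_)
  simp only
  unfold wt
  rw [ofReal_mul, ofReal_add, Pf_sq, Pf_sq]
  simp only [Finset.mul_sum, mul_add, Finset.sum_add_distrib]
  congr 1
  · refine Finset.sum_congr rfl fun j _ => Finset.sum_congr rfl fun k _ => ?_
    ring
  · refine Finset.sum_congr rfl fun j _ => Finset.sum_congr rfl fun k _ => ?_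
    ring

/-! ### lower bound in one window -/

theorem window_lower {R : Set (ℝ × ℝ × ℝ)} (hR : GoodReg R) (x : Fin m → ℝ) (c : Fin m → ℂ)
    (hA : 0 < A3) (hδ : 0 < δ) (hδ1 : δ ≤ 1 / 2) (hτ : CenS δ τ) {c' : ℝ} (hc' : c' < A3 * VR R x c) :
    ∀ᶠ T : ℝ in atTop, c' * NN T ≤ ∫ t in Ioi (δ * T / 2), ‖Zs x c T t‖ ^ 2 * ww T (τ T) t := by
  -- choice of the profile
  obtain ⟨Ψ, hΨ, hcut⟩ := cutoffR hR.isOpen hR.sub (wt_cont x c) (fun p => by unfold wt; positivity)
    (η := (A3 * VR R x c - c') / (2 * A3)) (div_pos (by linarith only [hc']) (by linarith only [hA]))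
  have hVR : VR R x c = ∫ p in R, wt x c p * PP p ^ 2 := rfl
  rw [← hVR] at hcut
  have hΨc := hΨ.smooth.continuous
  -- the two limits
  set D : ℝ := A3 * ∫ p, wt x c p * (2 * (Ψ p * PP p) - Ψ p ^ 2) with hD
  have hDlt : c' < D := by
    have h1 : A3 * (VR R x c - (A3 * VR R x c - c') / (2 * A3)) ≤ D :=
      mul_le_mul_of_nonneg_left hcut hA.le
    have h2 : A3 * (VR R x c - (A3 * VR R x c - c') / (2 * A3)) = (A3 * VR R x c + c') / 2 := by
      field_simp; ring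
    linarith only [hc', h1, h2]
  have w1 : WL δ τ (fun T t => Zs x c T t * conj (FF Ψ x c T t))
      ((A3 * ∫ p, (Ψ p * PP p) * wt x c p : ℝ) : ℂ) := by
    rw [← sum_eq x c (f := fun p => Ψ p * PP p) (hΨc.mul PP_cont) (hΨ.hcs.mul_right (f' := PP))
      (γ := al Ψ) (fun a b => al_eq hΨc hΨ.hcs a b)]
    refine (WL.sum _ fun j _ => WL.sum _ fun k _ =>
      (ZF_WL hR hΨ (x j) (x k) hδ hδ1 hτ).const_mul (c j * conj (c k))).congr fun T t => ?_
    unfold Zs FF
    rw [map_sum, Finset.sum_mul_sum]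
    refine Finset.sum_congr rfl fun j _ => Finset.sum_congr rfl fun k _ => ?_
    rw [map_mul]; ring
  have w2 : WL δ τ (fun T t => FF Ψ x c T t * conj (FF Ψ x c T t))
      ((A3 * ∫ p, (Ψ p ^ 2) * wt x c p : ℝ) : ℂ) := by
    rw [← sum_eq x c (f := fun p => Ψ p ^ 2) (hΨc.pow 2)
      (hΨ.hcs.comp_left (g := fun y : ℝ => y ^ 2) (by simp))
      (γ := be Ψ) (fun a b => be_eq hΨc hΨ.hcs a b)]
    refine (WL.sum _ fun j _ => WL.sum _ fun k _ =>
      (FF_WL hR hΨ (x j) (x k) hδ hδ1 hτ).const_mul (c j * conj (c k))).congr fun T t => ?_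
    unfold FF
    rw [map_sum, Finset.sum_mul_sum]
    refine Finset.sum_congr rfl fun j _ => Finset.sum_congr rfl fun k _ => ?_
    rw [map_mul]; ring
  have w3 := (w1.const_mul 2).add (w2.const_mul (-1))
  have hDeq : (2 : ℂ) * ((A3 * ∫ p, (Ψ p * PP p) * wt x c p : ℝ) : ℂ) +
      -1 * ((A3 * ∫ p, (Ψ p ^ 2) * wt x c p : ℝ) : ℂ) = ((D : ℝ) : ℂ) := by
    have hwc := wt_cont x c
    have hPc := PP_cont
    have i1 : Integrable fun p => (Ψ p * PP p) * wt x c p :=
      Continuous.integrable_of_hasCompactSupport (by fun_prop)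
        ((hΨ.hcs.mul_right (f' := PP)).mul_right)
    have i2 : Integrable fun p => (Ψ p ^ 2) * wt x c p :=
      Continuous.integrable_of_hasCompactSupport (by fun_prop)
        ((hΨ.hcs.comp_left (g := fun y : ℝ => y ^ 2) (by simp)).mul_right)
    have : D = 2 * (A3 * ∫ p, (Ψ p * PP p) * wt x c p) - A3 * ∫ p, (Ψ p ^ 2) * wt x c p := by
      rw [hD]
      have e : ∫ p, wt x c p * (2 * (Ψ p * PP p) - Ψ p ^ 2) =
          2 * (∫ p, (Ψ p * PP p) * wt x c p) - ∫ p, (Ψ p ^ 2) * wt x c p := by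
        rw [← integral_const_mul, ← integral_sub (i1.const_mul 2) i2]
        refine integral_congr_ae (Eventually.of_forall fun p => ?_)
        simp only
        ring
      rw [e]; ring
    rw [this]; push_cast; ring
  rw [hDeq] at w3
  have hre := (Complex.continuous_re.tendsto _).comp w3.lim
  rw [ofReal_re] at hre
  have hev := hre.eventually (lt_mem_nhds hDlt)
  obtain ⟨C, hC, hZb⟩ : ∃ C : ℝ, 0 ≤ C ∧ ∀ T : ℝ, 2 ≤ T → ∀ t, ‖Zs x c T t‖ ≤ C * (1 + |t|) ^ 3 := by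
    choose C hC hb using fun j : Fin m => ze_shift_bdd (x j)
    refine ⟨∑ j, ‖c j‖ * C j ^ 3, Finset.sum_nonneg fun j _ => by
      have := hC j
      positivity, fun T hT t => ?_⟩
    unfold Zs
    refine (norm_sum_le _ _).trans ?_
    rw [Finset.sum_mul]
    refine Finset.sum_le_sum fun j _ => ?_
    rw [norm_mul, norm_pow]
    calc ‖c j‖ * ‖ze (t + x j / Real.log T)‖ ^ 3 ≤ ‖c j‖ * (C j * (1 + |t|)) ^ 3 := by
          have := hb j T hT t
          gcongr
      _ = _ := by ring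
  have hZc : ∀ T, Continuous (Zs x c T) := by
    intro T
    unfold Zs
    refine continuous_finsetSum _ fun j _ => continuous_const.mul ((ze_shift_cont (x j) T).pow 3)
  filter_upwards [hev, w3.int, hτ, eventually_ge_atTop (2 : ℝ)] with T h1 h2 h3 h4
  have hT1 : 1 < T := by linarith only [hδ, hδ1, h4]
  have hN := NN_pos hT1
  have hτ0 : 0 ≤ τ T := le_trans (by positivity) h3.1
  have he0 : 0 < δ * T / 2 := by positivity
  simp only [Function.comp] at h1
  rw [Complex.div_ofReal_re, lt_div_iff₀ hN] at h1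
  refine h1.le.trans ?_
  have hZi : IntegrableOn (fun t => ‖Zs x c T t‖ ^ 2 * ww T (τ T) t) (Ioi (δ * T / 2)) := by
    have := ww_integrable (f := fun t => ((‖Zs x c T t‖ ^ 2 : ℝ) : ℂ)) (by
      have := hZc T
      fun_prop) (C := C ^ 2) (A := 6) (fun t => by
        rw [Complex.norm_real, norm_pow, norm_norm]
        calc ‖Zs x c T t‖ ^ 2 ≤ (C * (1 + |t|) ^ 3) ^ 2 := by
              have := hZb T h4 t
              gcongr
          _ = _ := by ring) hT1 hτ0 he0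
    have h5 := this.re
    refine h5.congr (Eventually.of_forall fun t => ?_)
    simp only
    rw [← ofReal_mul]
    exact ofReal_re _
  have hre2 : (∫ t in Ioi (δ * T / 2), (2 * (Zs x c T t * conj (FF Ψ x c T t)) +
      -1 * (FF Ψ x c T t * conj (FF Ψ x c T t))) * ((ww T (τ T) t : ℝ) : ℂ)).re =
      ∫ t in Ioi (δ * T / 2), ((2 * (Zs x c T t * conj (FF Ψ x c T t)) +
      -1 * (FF Ψ x c T t * conj (FF Ψ x c T t))) * ((ww T (τ T) t : ℝ) : ℂ)).re := by
    have := integral_re h2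
    exact this.symm
  rw [hre2]
  refine setIntegral_mono_on h2.re hZi measurableSet_Ioi fun t ht => ?_
  have hw : 0 ≤ ww T (τ T) t := ww_nonneg hτ0 (he0.trans ht).le
  rw [Complex.re_mul_ofReal]
  refine mul_le_mul_of_nonneg_right ?_ hw
  have hp : 0 ≤ ‖Zs x c T t - FF Ψ x c T t‖ ^ 2 := by positivity
  generalize Zs x c T t = z at hp ⊢
  generalize FF Ψ x c T t = f at hp ⊢
  have h6 : ‖z - f‖ ^ 2 = ‖z‖ ^ 2 - 2 * (z * conj f).re + ‖f‖ ^ 2 := by
    rw [← normSq_eq_norm_sq, ← normSq_eq_norm_sq, ← normSq_eq_norm_sq, normSq_sub]; ring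
  have h7 : (2 * (z * conj f) + -1 * (f * conj f)).re = 2 * (z * conj f).re - ‖f‖ ^ 2 := by
    have e2 : ∀ w : ℂ, (2 * w).re = 2 * w.re := fun w => by rw [mul_re]; simp
    have e3 : ∀ r : ℝ, (-1 * (r : ℂ)).re = -r := fun r => by simp
    rw [mul_conj f, normSq_eq_norm_sq, add_re, e2, e3]
    ring
  rw [h7]
  linarith only [hp, h6]

/-- **Main theorem for a good region.** -/
theorem main {R : Set (ℝ × ℝ × ℝ)} (hR : GoodReg R) (hA : 0 < A3) (x : Fin m → ℝ) (c : Fin m → ℂ) :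
    ∀ c' < A3 * VR R x c, ∀ᶠ T : ℝ in atTop,
      c' * Real.log T ^ 9 ≤ T⁻¹ * ∫ t in (0 : ℝ)..T, ‖Zs x c T t‖ ^ 2 := by
  refine averaging (g := fun T t => ‖Zs x c T t‖ ^ 2) (fun T => ?_) (fun T t => by positivity) ?_
    fun δ h1 h2 τ hτ c' hc' => window_lower hR x c hA h1 (by linarith only [h1, h2]) hτ hc'
  · have : Continuous (Zs x c T) := by
      unfold Zs
      exact continuous_finsetSum _ fun j _ => continuous_const.mul ((ze_shift_cont (x j) T).pow 3)
    fun_prop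
  · choose C hC hb using fun j : Fin m => ze_shift_bdd (x j)
    refine ⟨(∑ j, ‖c j‖ * C j ^ 3) ^ 2, 6, by positivity, fun T hT t => ?_⟩
    have h1 : ‖Zs x c T t‖ ≤ (∑ j, ‖c j‖ * C j ^ 3) * (1 + |t|) ^ 3 := by
      unfold Zs
      refine (norm_sum_le _ _).trans ?_
      rw [Finset.sum_mul]
      refine Finset.sum_le_sum fun j _ => ?_
      rw [norm_mul, norm_pow]
      calc ‖c j‖ * ‖ze (t + x j / Real.log T)‖ ^ 3 ≤ ‖c j‖ * (C j * (1 + |t|)) ^ 3 := by
            have := hb j T hT t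
            gcongr
        _ = _ := by ring
    have hT1 : (1 : ℝ) ≤ T ^ 6 := one_le_pow₀ (by linarith only [hT])
    have hs : 0 ≤ ∑ j, ‖c j‖ * C j ^ 3 := Finset.sum_nonneg fun j _ => by
      have := hC j
      positivity
    calc ‖Zs x c T t‖ ^ 2 ≤ ((∑ j, ‖c j‖ * C j ^ 3) * (1 + |t|) ^ 3) ^ 2 := by gcongr
      _ = (∑ j, ‖c j‖ * C j ^ 3) ^ 2 * (1 * (1 + |t|) ^ 6) := by ring
      _ ≤ (∑ j, ‖c j‖ * C j ^ 3) ^ 2 * (T ^ 6 * (1 + |t|) ^ 6) := by gcongr
      _ = _ := by rw [mul_pow]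

end

end K3

end

section

namespace K3
open Complex MeasureTheory Filter Topology Set
open scoped Real ComplexConjugate

private lemma m01_gamma (n : ℕ) {v : ℝ} (hv : 1 ≤ v) :
    ‖Complex.Gamma (1 / 2 - n + v * I)‖ ≤ ‖Complex.Gamma (1 / 2 + v * I)‖ / v ^ n := by
  have hv0 : 0 < v := by linarith only [hv]
  induction n with
  | zero => simp
  | succ n ih =>
    set s : ℂ := 1 / 2 - ((n + 1 : ℕ) : ℂ) + v * I with hs
    have him : s.im = v := by simp [hs]
    have hs0 : s ≠ 0 := by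
      intro h
      rw [h] at him
      simp at him
      linarith only [hv, him]
    have h1 : s + 1 = 1 / 2 - n + v * I := by
      rw [hs]; push_cast; ring
    have h2 := Complex.Gamma_add_one s hs0
    rw [h1] at h2
    have h3 : v ≤ ‖s‖ := by
      have := Complex.abs_im_le_norm s
      rw [him, abs_of_pos hv0] at this
      exact this
    have h4 : v * ‖Complex.Gamma s‖ ≤ ‖Complex.Gamma (1 / 2 - n + v * I)‖ := by
      rw [h2, norm_mul]
      exact mul_le_mul_of_nonneg_right h3 (norm_nonneg _)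
    have h5 := h4.trans ih
    rw [pow_succ, ← div_div, le_div_iff₀ hv0]
    linarith only [ih, h4]

private lemma m01_pow (z : ℂ) : ‖(2 * Real.pi : ℂ) ^ (-z)‖ = (2 * Real.pi) ^ (-z.re) := by
  have h : (2 * Real.pi : ℂ) = ((2 * Real.pi : ℝ) : ℂ) := by push_cast; rfl
  rw [h, Complex.norm_cpow_eq_rpow_re_of_pos (by positivity)]
  simp

private lemma m01_cos (v : ℝ) :
    Real.cosh (Real.pi * v / 2) ≤ √2 * ‖Complex.cos (Real.pi * (1 / 2 + v * I) / 2)‖ := by
  have h0 : (Real.pi : ℂ) * (1 / 2 + v * I) / 2 =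
      ((Real.pi / 4 : ℝ) : ℂ) + ((Real.pi * v / 2 : ℝ) : ℂ) * I := by
    push_cast; ring
  have hc : Complex.cos (((Real.pi / 4 : ℝ) : ℂ) + ((Real.pi * v / 2 : ℝ) : ℂ) * I) =
      ((Real.cos (Real.pi / 4) * Real.cosh (Real.pi * v / 2) : ℝ) : ℂ) +
      ((-(Real.sin (Real.pi / 4) * Real.sinh (Real.pi * v / 2)) : ℝ) : ℂ) * I := by
    rw [Complex.cos_add_mul_I]
    push_cast
    ring
  have h1 : ‖Complex.cos (Real.pi * (1 / 2 + v * I) / 2)‖ ^ 2 =
      (Real.cosh (Real.pi * v / 2) ^ 2 + Real.sinh (Real.pi * v / 2) ^ 2) / 2 := by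
    rw [h0, hc, ← Complex.normSq_eq_norm_sq, Complex.normSq_add_mul_I, Real.cos_pi_div_four,
      Real.sin_pi_div_four]
    have : (√2 : ℝ) ^ 2 = 2 := Real.sq_sqrt (by norm_num)
    ring_nf
    rw [this]
    ring
  have h2 : (√2 : ℝ) ^ 2 = 2 := Real.sq_sqrt (by norm_num)
  have h3 : Real.cosh (Real.pi * v / 2) ^ 2 ≤
      (√2 * ‖Complex.cos (Real.pi * (1 / 2 + v * I) / 2)‖) ^ 2 := by
    rw [mul_pow, h2, h1]
    linarith only [sq_nonneg (Real.sinh (Real.pi * v / 2))]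
  exact (sq_le_sq₀ (Real.cosh_pos _).le (by positivity)).1 h3

/-- **M01.** -/
theorem chi_left (n : ℕ) : ∃ C : ℝ, 0 ≤ C ∧ ∀ v : ℝ, 1 ≤ v →
    ‖MP069854.chi (1 / 2 - n + v * I)‖ ≤ C / v ^ n := by
  refine ⟨√2 * (2 * Real.pi) ^ n, by positivity, fun v hv => ?_⟩
  have hv0 : 0 < v := by linarith only [hv]
  have hpi : (0 : ℝ) < 2 * Real.pi := by positivity
  have h1 : ‖MP069854.chi (1 / 2 + v * I)‖ = 1 := MP069854.chi_norm (by simp)
  have e1 : ‖MP069854.chi (1 / 2 + v * I)‖ = 2 * (2 * Real.pi) ^ (-(1 / 2 : ℝ)) *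
      ‖Complex.Gamma (1 / 2 + v * I)‖ * ‖Complex.cos (Real.pi * (1 / 2 + v * I) / 2)‖ := by
    unfold MP069854.chi
    rw [norm_mul, norm_mul, norm_mul, m01_pow]
    simp
  have e2 : ‖MP069854.chi (1 / 2 - n + v * I)‖ = 2 * ((2 * Real.pi) ^ (-(1 / 2 : ℝ)) *
      (2 * Real.pi) ^ n) *
      ‖Complex.Gamma (1 / 2 - n + v * I)‖ * ‖Complex.cos (Real.pi * (1 / 2 - n + v * I) / 2)‖ := by
    unfold MP069854.chi
    rw [norm_mul, norm_mul, norm_mul, m01_pow]
    have : (-((1 / 2 : ℂ) - n + v * I).re) = -(1 / 2 : ℝ) + (n : ℝ) := by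
      simp; ring
    rw [this, Real.rpow_add hpi, Real.rpow_natCast]
    simp
  have h2 := m01_gamma n hv
  have h3 : ‖Complex.cos (Real.pi * (1 / 2 - n + v * I) / 2)‖ ≤ Real.cosh (Real.pi * v / 2) := by
    have := MP069854.norm_cos_le (Real.pi * (1 / 2 - n + v * I) / 2)
    have him : ((Real.pi : ℂ) * (1 / 2 - n + v * I) / 2).im = Real.pi * v / 2 := by
      have : (Real.pi : ℂ) * (1 / 2 - n + v * I) / 2 =
        ((Real.pi * (1 / 2 - n) / 2 : ℝ) : ℂ) + ((Real.pi * v / 2 : ℝ) : ℂ) * I := by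
        push_cast; ring
      rw [this]
      simp
    rwa [him] at this
  have h4 := h3.trans (m01_cos v)
  rw [e2]
  have ha : (0 : ℝ) ≤ (2 * Real.pi) ^ (-(1 / 2 : ℝ)) := by positivity
  have hb : (0 : ℝ) ≤ (2 * Real.pi) ^ n := by positivity
  calc 2 * ((2 * Real.pi) ^ (-(1 / 2 : ℝ)) * (2 * Real.pi) ^ n) *
      ‖Complex.Gamma (1 / 2 - n + v * I)‖ * ‖Complex.cos (Real.pi * (1 / 2 - n + v * I) / 2)‖
      ≤ 2 * ((2 * Real.pi) ^ (-(1 / 2 : ℝ)) * (2 * Real.pi) ^ n) *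
      (‖Complex.Gamma (1 / 2 + v * I)‖ / v ^ n) *
      (√2 * ‖Complex.cos (Real.pi * (1 / 2 + v * I) / 2)‖) := by
        gcongr
    _ = √2 * (2 * Real.pi) ^ n / v ^ n * (2 * (2 * Real.pi) ^ (-(1 / 2 : ℝ)) *
      ‖Complex.Gamma (1 / 2 + v * I)‖ * ‖Complex.cos (Real.pi * (1 / 2 + v * I) / 2)‖) := by
        ring
    _ = √2 * (2 * Real.pi) ^ n / v ^ n := by
        rw [← e1, h1, mul_one]

end K3

end

section

/-!
# MP_069854_nt, row M02a
-/

namespace K3
open Complex MeasureTheory Filter Topology Set S6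
open scoped Real ComplexConjugate

theorem m02a_chi_diff {s : ℂ} (hs : s.im ≠ 0) : DifferentiableAt ℂ MP069854.chi s := by
  have h1 : DifferentiableAt ℂ Complex.Gamma s := by
    apply Complex.differentiableAt_Gamma
    intro m h
    rw [h] at hs
    simp at hs
  have h3 : DifferentiableAt ℂ (fun s : ℂ => (2 * π : ℂ) ^ (-s)) s :=
    (differentiableAt_id.neg).const_cpow (Or.inl MP069854.twopi_ne)
  have h4 : DifferentiableAt ℂ (fun s : ℂ => Complex.cos (π * s / 2)) s := by fun_prop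
  exact (((differentiableAt_const (2 : ℂ)).mul h3).mul h1).mul h4

theorem m02a_Gamma_le (n : ℕ) : ∀ s : ℂ, 1 ≤ s.im → ‖Complex.Gamma s‖ ≤ ‖Complex.Gamma (s + n)‖ := by
  induction n with
  | zero => intro s _; simp
  | succ n ih =>
    intro s hs
    refine (ih s hs).trans ?_
    have hne : s + n ≠ 0 := by
      intro h
      have := congrArg Complex.im h
      simp at this
      linarith only [hs, this]
    have h1 : Complex.Gamma (s + (n + 1 : ℕ)) = (s + n) * Complex.Gamma (s + n) := by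
      rw [← Complex.Gamma_add_one _ hne]
      congr 1
      push_cast
      ring
    rw [h1, norm_mul]
    have h2 : 1 ≤ ‖s + n‖ := by
      have h3 := Complex.abs_im_le_norm (s + n)
      have h4 : (s + n).im = s.im := by simp
      rw [h4] at h3
      exact hs.trans ((le_abs_self _).trans h3)
    exact le_mul_of_one_le_left (norm_nonneg _) h2

theorem m02a_chi_le (n : ℕ) : ∃ C : ℝ, 0 ≤ C ∧ ∀ s : ℂ, 1 / 2 - n ≤ s.re → s.re ≤ 1 / 2 →
    1 ≤ s.im → ‖MP069854.chi s‖ ≤ C * Real.exp (2 * s.im) := by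
  have hc : ContinuousOn Real.Gamma (Icc (1 / 2 : ℝ) (n + 1 / 2)) := by
    intro x hx
    have hx0 : (0 : ℝ) < x := by linarith only [hx.1, hx]
    exact (Real.differentiableAt_Gamma (fun m h => by
      have : (0 : ℝ) ≤ m := Nat.cast_nonneg m
      linarith only [hx0, h])).continuousAt.continuousWithinAt
  obtain ⟨C, hC⟩ := isCompact_Icc.exists_bound_of_continuousOn hc
  have hn0 : (0 : ℝ) ≤ n := Nat.cast_nonneg n
  have hC0 : 0 ≤ C := (norm_nonneg _).trans (hC (1 / 2) ⟨le_rfl, by linarith only []⟩)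
  refine ⟨2 * (2 * π) ^ (n : ℝ) * C, by positivity, ?_⟩
  intro s h1 h2 h3
  have hG : ‖Complex.Gamma s‖ ≤ C := by
    refine (m02a_Gamma_le n s h3).trans ?_
    have h4 : (s + n).re = s.re + n := by simp
    refine (r3_norm_Gamma_le (by rw [h4]; linarith only [h1])).trans ?_
    rw [h4]
    exact (le_abs_self _).trans (hC _ ⟨by linarith only [h1], by linarith only [h2]⟩)
  have h5 : ‖(2 * π : ℂ) ^ (-s)‖ ≤ (2 * π) ^ (n : ℝ) := by
    have h := Complex.norm_cpow_eq_rpow_re_of_pos (x := 2 * π) (by positivity) (-s)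
    have h6 : ‖(2 * π : ℂ) ^ (-s)‖ = (2 * π) ^ (-s).re := by
      rw [← h]
      push_cast
      rfl
    rw [h6]
    apply Real.rpow_le_rpow_of_exponent_le
    · linarith only [Real.pi_gt_three]
    · rw [Complex.neg_re]
      linarith only [h1]
  have h6 : ‖Complex.cos (π * s / 2)‖ ≤ Real.exp (2 * s.im) := by
    refine (MP069854.norm_cos_le _).trans ?_
    have h7 : ((π : ℂ) * s / 2).im = π * s.im / 2 := by
      have : (π : ℂ) * s / 2 = ((π / 2 : ℝ) : ℂ) * s := by push_cast; ring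
      rw [this, Complex.im_ofReal_mul]
      ring
    rw [h7, Real.cosh_eq]
    have h8 : 0 ≤ π * s.im / 2 := by
      have := Real.pi_pos
      positivity
    have h9 : Real.exp (-(π * s.im / 2)) ≤ Real.exp (π * s.im / 2) :=
      Real.exp_le_exp.2 (by linarith only [h8])
    have h10 : Real.exp (π * s.im / 2) ≤ Real.exp (2 * s.im) := by
      apply Real.exp_le_exp.2
      have := Real.pi_lt_four
      nlinarith only [this, h3]
    linarith only [h9, h10]
  unfold MP069854.chi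
  rw [norm_mul, norm_mul, norm_mul, Complex.norm_ofNat]
  calc 2 * ‖(2 * π : ℂ) ^ (-s)‖ * ‖Complex.Gamma s‖ * ‖Complex.cos (π * s / 2)‖
      ≤ 2 * (2 * π) ^ (n : ℝ) * C * Real.exp (2 * s.im) := by
        gcongr
    _ = _ := by ring

/-- the integrand -/
noncomputable def m02aF (j : ℕ) (T τ ξ : ℝ) (s : ℂ) : ℂ :=
  MP069854.chi s ^ j * cexp ((s - 1 / 2) * ξ) * VV T τ s

theorem m02a_diff (j : ℕ) (T τ ξ : ℝ) {s : ℂ} (hs : s.im ≠ 0) :
    DifferentiableAt ℂ (m02aF j T τ ξ) s := by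
  have h1 : DifferentiableAt ℂ (fun s : ℂ => MP069854.chi s ^ j) s := (m02a_chi_diff hs).pow j
  have h2 : DifferentiableAt ℂ (fun s : ℂ => cexp ((s - 1 / 2) * ξ)) s := by fun_prop
  have h4 : DifferentiableAt ℂ (fun s : ℂ => VV T τ s) s := by
    unfold VV
    fun_prop
  exact (h1.mul h2).mul h4

theorem m02a_norm (j : ℕ) (T τ ξ : ℝ) (s : ℂ) : ‖m02aF j T τ ξ s‖ =
    ‖MP069854.chi s‖ ^ j * Real.exp ((s.re - 1 / 2) * ξ) *
      Real.exp (((s.re - 1 / 2) ^ 2 - (s.im - τ) ^ 2) / HH T ^ 2) := by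
  unfold m02aF
  rw [norm_mul, norm_mul, norm_pow, r3_norm_VV, Complex.norm_exp]
  congr 3
  rw [Complex.re_mul_ofReal]
  simp

/-- uniform decay in the half strip -/
theorem m02a_decay (j n : ℕ) {T : ℝ} (hT : 1 < T) (τ ξ : ℝ) : ∃ K : ℝ, ∀ s : ℂ,
    1 / 2 - n ≤ s.re → s.re ≤ 1 / 2 → 1 ≤ s.im → ‖m02aF j T τ ξ s‖ ≤ K / (1 + |s.im|) ^ 2 := by
  obtain ⟨C, hC0, hC⟩ := m02a_chi_le n
  have hH : 0 < HH T := div_pos (by linarith only [hT]) (Real.log_pos hT)
  set H := HH T with hHdef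
  set a : ℝ := 2 * j + 1 with ha
  refine ⟨C ^ j * Real.exp (n * |ξ|) * (4 * Real.exp (n ^ 2 / H ^ 2 + a * |τ| + a ^ 2 * H ^ 2)), ?_⟩
  intro s h1 h2 h3
  have hn0 : (0 : ℝ) ≤ n := Nat.cast_nonneg n
  rw [abs_of_nonneg (by linarith only [h3] : (0 : ℝ) ≤ s.im), le_div_iff₀ (by positivity), m02a_norm]
  have e1 : ‖MP069854.chi s‖ ^ j ≤ C ^ j * Real.exp (2 * j * s.im) := by
    calc ‖MP069854.chi s‖ ^ j ≤ (C * Real.exp (2 * s.im)) ^ j :=
          pow_le_pow_left₀ (norm_nonneg _) (hC s h1 h2 h3) j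
      _ = C ^ j * Real.exp (2 * j * s.im) := by
          rw [mul_pow, ← Real.exp_nat_mul]
          congr 2
          ring
  have e2 : Real.exp ((s.re - 1 / 2) * ξ) ≤ Real.exp (n * |ξ|) := by
    apply Real.exp_le_exp.2
    calc (s.re - 1 / 2) * ξ ≤ |(s.re - 1 / 2) * ξ| := le_abs_self _
      _ = |s.re - 1 / 2| * |ξ| := abs_mul _ _
      _ ≤ n * |ξ| := by
          gcongr
          rw [abs_le]
          constructor <;> linarith only [h1, h2]
  have e3 : (1 + s.im) ^ 2 ≤ 4 * Real.exp s.im := by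
    have h5 : (1 + s.im) / 2 ≤ Real.exp (s.im / 2) := by
      have := Real.add_one_le_exp (s.im / 2)
      linarith only [this]
    have h6 : ((1 + s.im) / 2) ^ 2 ≤ Real.exp (s.im / 2) ^ 2 :=
      pow_le_pow_left₀ (by linarith only [h3]) h5 2
    have h7 : Real.exp (s.im / 2) ^ 2 = Real.exp s.im := by
      rw [← Real.exp_nat_mul]
      congr 1
      push_cast
      ring
    rw [h7] at h6
    linarith only [h6]
  have e4 : Real.exp (2 * j * s.im) * Real.exp (((s.re - 1 / 2) ^ 2 - (s.im - τ) ^ 2) / H ^ 2) *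
      Real.exp s.im ≤ Real.exp (n ^ 2 / H ^ 2 + a * |τ| + a ^ 2 * H ^ 2) := by
    rw [← Real.exp_add, ← Real.exp_add]
    apply Real.exp_le_exp.2
    rw [sub_div]
    have h5 : (s.re - 1 / 2) ^ 2 / H ^ 2 ≤ (n : ℝ) ^ 2 / H ^ 2 := by
      refine div_le_div_of_nonneg_right ?_ (by positivity)
      rw [← sq_abs (s.re - 1 / 2)]
      refine pow_le_pow_left₀ (abs_nonneg _) ?_ 2
      rw [abs_le]
      constructor <;> linarith only [h1, h2]
    have ht : s.im ≤ |s.im - τ| + |τ| := by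
      have := abs_add_le (s.im - τ) τ
      have h6 : s.im - τ + τ = s.im := by ring
      rw [h6] at this
      exact (le_abs_self _).trans this
    set u := |s.im - τ| with hu
    have hu2 : (s.im - τ) ^ 2 = u ^ 2 := (sq_abs _).symm
    rw [hu2]
    have ha0 : 0 ≤ a := by rw [ha]; positivity
    have hq : a * u ≤ u ^ 2 / H ^ 2 + a ^ 2 * H ^ 2 := by
      have h7 : u ^ 2 / H ^ 2 + a ^ 2 * H ^ 2 - a * u =
          (u / H - a / 2 * H) ^ 2 + (3 / 4) * (a ^ 2 * H ^ 2) := by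
        field_simp
        ring
      linarith only [sq_nonneg (u / H - a / 2 * H), mul_nonneg (sq_nonneg a) (sq_nonneg H), h7]
    have h8 : a * s.im ≤ a * u + a * |τ| := by
      have := mul_le_mul_of_nonneg_left ht ha0
      linarith only [this]
    have h9 : 2 * j * s.im + s.im = a * s.im := by rw [ha]; ring
    linarith only [h5, hq, h8]
  calc ‖MP069854.chi s‖ ^ j * Real.exp ((s.re - 1 / 2) * ξ) *
        Real.exp (((s.re - 1 / 2) ^ 2 - (s.im - τ) ^ 2) / H ^ 2) * (1 + s.im) ^ 2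
      ≤ (C ^ j * Real.exp (2 * j * s.im)) * Real.exp (n * |ξ|) *
        Real.exp (((s.re - 1 / 2) ^ 2 - (s.im - τ) ^ 2) / H ^ 2) * (4 * Real.exp s.im) := by
        gcongr
    _ = C ^ j * Real.exp (n * |ξ|) * (4 * (Real.exp (2 * j * s.im) *
        Real.exp (((s.re - 1 / 2) ^ 2 - (s.im - τ) ^ 2) / H ^ 2) * Real.exp s.im)) := by ring
    _ ≤ _ := by gcongr

theorem m02a_cont (j : ℕ) (T τ ξ σ : ℝ) :
    ContinuousOn (fun t : ℝ => m02aF j T τ ξ (σ + t * I)) (Ioi 1) := by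
  intro t ht
  have ht' : (1 : ℝ) < t := ht
  have h1 : ContinuousAt (m02aF j T τ ξ) (σ + t * I) :=
    (m02a_diff j T τ ξ (by simp; linarith only [ht'])).continuousAt
  have h2 : ContinuousAt (fun t : ℝ => (σ + t * I : ℂ)) t := by fun_prop
  exact (ContinuousAt.comp (f := fun t : ℝ => (σ + t * I : ℂ)) h1 h2).continuousWithinAt

theorem m02a_int (j n : ℕ) {T : ℝ} (hT : 1 < T) (τ ξ σ : ℝ) (h1 : 1 / 2 - n ≤ σ) (h2 : σ ≤ 1 / 2) :
    IntegrableOn (fun t : ℝ => m02aF j T τ ξ (σ + t * I)) (Ioi 1) := by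
  obtain ⟨K, hK⟩ := m02a_decay j n hT τ ξ
  have hK' : ∀ t : ℝ, t ∈ Ioi (1 : ℝ) → ‖m02aF j T τ ξ (σ + t * I)‖ ≤ K * (1 + t ^ 2)⁻¹ := by
    intro t ht
    have ht' : (1 : ℝ) < t := ht
    have h3 := hK (σ + t * I) (by simpa using h1) (by simpa using h2) (by simpa using ht'.le)
    have h4 : ((σ : ℂ) + t * I).im = t := by simp
    rw [h4] at h3
    have hK0 : 0 ≤ K := by
      by_contra hneg
      have h5 : K / (1 + |t|) ^ 2 < 0 := div_neg_of_neg_of_pos (not_le.mp hneg) (by positivity)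
      linarith only [norm_nonneg (m02aF j T τ ξ (σ + t * I)), h3, h5]
    refine h3.trans ?_
    rw [div_eq_mul_inv]
    refine mul_le_mul_of_nonneg_left (inv_anti₀ (by positivity) ?_) hK0
    linarith only [abs_nonneg t, sq_abs t]
  refine Integrable.mono' ((integrable_inv_one_add_sq.const_mul K).integrableOn)
    ((m02a_cont j T τ ξ σ).aestronglyMeasurable measurableSet_Ioi) ?_
  exact (ae_restrict_iff' measurableSet_Ioi).mpr (Eventually.of_forall hK')

theorem rect_bound (j n : ℕ) : ∃ C : ℝ, 0 ≤ C ∧ ∀ T : ℝ, Real.exp 1 ≤ T → ∀ τ ξ : ℝ,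
    ‖∫ t in Ioi (1 : ℝ), XX t ^ j * cexp (((t * ξ : ℝ) : ℂ) * I) * ((win T τ t : ℝ) : ℂ)‖ ≤
      (∫ t in Ioi (1 : ℝ), ‖MP069854.chi (1 / 2 - n + t * I)‖ ^ j * Real.exp (-(n * ξ)) *
        (Real.exp ((n : ℝ) ^ 2) * win T τ t)) +
      C * Real.exp (n * |ξ|) * (Real.exp ((n : ℝ) ^ 2) * win T τ 1) := by
  obtain ⟨C1, hC10, hC1⟩ := m02a_chi_le n
  have hn0 : (0 : ℝ) ≤ n := Nat.cast_nonneg n
  refine ⟨n * (C1 * Real.exp 2) ^ j, by positivity, ?_⟩
  intro T hT τ ξ
  have hT1 : 1 < T := by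
    have := Real.add_one_lt_exp (one_ne_zero : (1 : ℝ) ≠ 0)
    linarith only [hT, this]
  have hlog : 0 < Real.log T := Real.log_pos hT1
  have hH0 : 0 < HH T := div_pos (by linarith only [hT1]) hlog
  have hH1 : 1 ≤ HH T := by
    unfold HH
    rw [le_div_iff₀ hlog, one_mul]
    have := Real.add_one_le_exp (Real.log T)
    rw [Real.exp_log (by linarith only [hT1])] at this
    linarith only [this]
  have hH2 : 1 ≤ HH T ^ 2 := one_le_pow₀ hH1
  obtain ⟨K, hK⟩ := m02a_decay j n hT1 τ ξ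
  set F := m02aF j T τ ξ with hF
  have hab : (1 / 2 - n : ℝ) ≤ 1 / 2 := by linarith only []
  -- the rectangle
  have key : ∀ Y : ℝ, 1 ≤ Y → (∫ x : ℝ in (1 / 2 - n : ℝ)..(1 / 2), F (x + ((1 : ℝ) : ℂ) * I)) -
      (∫ x : ℝ in (1 / 2 - n : ℝ)..(1 / 2), F (x + (Y : ℂ) * I)) +
      I • (∫ y : ℝ in (1 : ℝ)..Y, F (((1 / 2 : ℝ) : ℂ) + y * I)) -
      I • (∫ y : ℝ in (1 : ℝ)..Y, F (((1 / 2 - n : ℝ) : ℂ) + y * I)) = 0 := by
    intro Y hY
    have h := Complex.integral_boundary_rect_eq_zero_of_differentiableOn F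
      (((1 / 2 - n : ℝ) : ℂ) + ((1 : ℝ) : ℂ) * I) (((1 / 2 : ℝ) : ℂ) + (Y : ℂ) * I) ?_
    · have e1 : (((1 / 2 - n : ℝ) : ℂ) + ((1 : ℝ) : ℂ) * I).re = 1 / 2 - n := by simp
      have e2 : (((1 / 2 - n : ℝ) : ℂ) + ((1 : ℝ) : ℂ) * I).im = 1 := by simp
      have e3 : (((1 / 2 : ℝ) : ℂ) + (Y : ℂ) * I).re = 1 / 2 := by simp
      have e4 : (((1 / 2 : ℝ) : ℂ) + (Y : ℂ) * I).im = Y := by simp
      rw [e1, e2, e3, e4] at h
      exact h
    · intro s hs
      have h1 := hs.2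
      have e2 : (((1 / 2 - n : ℝ) : ℂ) + ((1 : ℝ) : ℂ) * I).im = 1 := by simp
      have e4 : (((1 / 2 : ℝ) : ℂ) + (Y : ℂ) * I).im = Y := by simp
      rw [e2, e4, Set.mem_preimage, Set.uIcc_of_le hY] at h1
      exact (m02a_diff j T τ ξ (by have := h1.1; intro h0; linarith only [this, h0])).differentiableWithinAt
  -- limits
  have hI1 := m02a_int j n hT1 τ ξ (1 / 2) (by linarith only []) le_rfl
  have hI2 := m02a_int j n hT1 τ ξ (1 / 2 - n) le_rfl hab
  have hV1 := intervalIntegral_tendsto_integral_Ioi (1 : ℝ) hI1 tendsto_id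
  have hV2 := intervalIntegral_tendsto_integral_Ioi (1 : ℝ) hI2 tendsto_id
  have htop : Tendsto (fun Y : ℝ => ∫ x : ℝ in (1 / 2 - n : ℝ)..(1 / 2), F (x + (Y : ℂ) * I))
      atTop (𝓝 0) := by
    have hz : Tendsto (fun R : ℝ => K / (1 + |R|) ^ 2 * |(1 / 2 : ℝ) - (1 / 2 - n)|) atTop (𝓝 0) := by
      have h1 : Tendsto (fun R : ℝ => (1 + |R|) ^ 2) atTop atTop := by
        refine (tendsto_pow_atTop (by norm_num)).comp ?_
        exact tendsto_atTop_add_const_left _ _ tendsto_abs_atTop_atTop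
      have h2 := (h1.const_div_atTop K).mul_const (|(1 / 2 : ℝ) - (1 / 2 - n)|)
      simpa using h2
    refine squeeze_zero_norm' ?_ hz
    filter_upwards [eventually_ge_atTop (1 : ℝ)] with Y hY
    refine intervalIntegral.norm_integral_le_of_norm_le_const fun x hx => ?_
    rw [Set.uIoc_of_le hab] at hx
    have h1 := hK (x + (Y : ℂ) * I) (by simpa using hx.1.le) (by simpa using hx.2) (by simpa using hY)
    have h2 : ((x : ℂ) + (Y : ℂ) * I).im = Y := by simp
    rw [h2] at h1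
    exact h1
  have hall := (((tendsto_const_nhds (x := ∫ x : ℝ in (1 / 2 - n : ℝ)..(1 / 2),
    F (x + ((1 : ℝ) : ℂ) * I))).sub htop).add (hV1.const_smul I)).sub (hV2.const_smul I)
  have h0 : (∫ x : ℝ in (1 / 2 - n : ℝ)..(1 / 2), F (x + ((1 : ℝ) : ℂ) * I)) - 0 +
      I • (∫ y in Ioi (1 : ℝ), F (((1 / 2 : ℝ) : ℂ) + y * I)) -
      I • (∫ y in Ioi (1 : ℝ), F (((1 / 2 - n : ℝ) : ℂ) + y * I)) = 0 := by
    refine tendsto_nhds_unique hall (tendsto_const_nhds.congr' ?_)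
    filter_upwards [eventually_ge_atTop (1 : ℝ)] with Y hY
    exact (key Y hY).symm
  have h1 : (∫ y in Ioi (1 : ℝ), F (((1 / 2 : ℝ) : ℂ) + y * I)) =
      (∫ y in Ioi (1 : ℝ), F (((1 / 2 - n : ℝ) : ℂ) + y * I)) +
      I * (∫ x : ℝ in (1 / 2 - n : ℝ)..(1 / 2), F (x + ((1 : ℝ) : ℂ) * I)) := by
    simp only [smul_eq_mul] at h0
    have hI : (I : ℂ) * I = -1 := Complex.I_mul_I
    linear_combination (-I) * h0 + (∫ y in Ioi (1 : ℝ), F (((1 / 2 : ℝ) : ℂ) + y * I)) * hI -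
      (∫ y in Ioi (1 : ℝ), F (((1 / 2 - n : ℝ) : ℂ) + y * I)) * hI
  -- left-hand side
  have hlhs : (∫ t in Ioi (1 : ℝ), XX t ^ j * cexp (((t * ξ : ℝ) : ℂ) * I) *
      ((win T τ t : ℝ) : ℂ)) = ∫ y in Ioi (1 : ℝ), F (((1 / 2 : ℝ) : ℂ) + y * I) := by
    refine setIntegral_congr_fun measurableSet_Ioi fun t _ => ?_
    have e1 : (((1 / 2 : ℝ) : ℂ) + t * I) = 1 / 2 + t * I := by push_cast; ring
    simp only [hF]
    unfold m02aF XX
    rw [e1, r3_VV_half]
    congr 3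
    push_cast
    ring
  rw [hlhs, h1]
  refine (norm_add_le _ _).trans (add_le_add ?_ ?_)
  · -- left side
    refine (norm_integral_le_integral_norm _).trans ?_
    have e1 : ∀ t : ℝ, (((1 / 2 - n : ℝ) : ℂ) + t * I) = 1 / 2 - n + t * I := by
      intro t; push_cast; ring
    have e2 : ∀ t : ℝ, ‖MP069854.chi (1 / 2 - n + t * I)‖ ^ j * Real.exp (-(n * ξ)) *
        (Real.exp ((n : ℝ) ^ 2) * win T τ t) =
        Real.exp ((n : ℝ) ^ 2 - (n : ℝ) ^ 2 / HH T ^ 2) * ‖F (((1 / 2 - n : ℝ) : ℂ) + t * I)‖ := by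
      intro t
      rw [hF, m02a_norm, e1]
      have e3 : ((1 : ℂ) / 2 - n + t * I).re = 1 / 2 - n := by
        rw [← e1]; simp
      have e4 : ((1 : ℂ) / 2 - n + t * I).im = t := by
        rw [← e1]; simp
      rw [e3, e4]
      unfold win
      have e5 : (1 / 2 - (n : ℝ) - 1 / 2) * ξ = -(n * ξ) := by ring
      have e6 : Real.exp (((1 / 2 - (n : ℝ) - 1 / 2) ^ 2 - (t - τ) ^ 2) / HH T ^ 2) =
          Real.exp ((n : ℝ) ^ 2 / HH T ^ 2) * Real.exp (-((t - τ) / HH T) ^ 2) := by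
        rw [← Real.exp_add]
        congr 1
        rw [div_pow]
        ring
      have e7 : Real.exp ((n : ℝ) ^ 2 - (n : ℝ) ^ 2 / HH T ^ 2) * Real.exp ((n : ℝ) ^ 2 / HH T ^ 2) =
          Real.exp ((n : ℝ) ^ 2) := by
        rw [← Real.exp_add]
        congr 1
        ring
      rw [e5, e6, ← e7]
      ring
    rw [setIntegral_congr_fun (g := fun t : ℝ => Real.exp ((n : ℝ) ^ 2 - (n : ℝ) ^ 2 / HH T ^ 2) *
      ‖F (((1 / 2 - n : ℝ) : ℂ) + t * I)‖) measurableSet_Ioi (fun t _ => e2 t)]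
    refine integral_mono_ae hI2.norm (hI2.norm.const_mul _) (Eventually.of_forall fun t => ?_)
    have e3 : 1 ≤ Real.exp ((n : ℝ) ^ 2 - (n : ℝ) ^ 2 / HH T ^ 2) := by
      rw [← Real.exp_zero]
      apply Real.exp_le_exp.2
      have : (n : ℝ) ^ 2 / HH T ^ 2 ≤ (n : ℝ) ^ 2 := div_le_self (by positivity) hH2
      linarith only [this]
    exact le_mul_of_one_le_left (norm_nonneg _) e3
  · -- bottom side
    rw [norm_mul, Complex.norm_I, one_mul]
    have hb : ∀ x ∈ Set.uIoc (1 / 2 - n : ℝ) (1 / 2), ‖F (x + ((1 : ℝ) : ℂ) * I)‖ ≤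
        (C1 * Real.exp 2) ^ j * Real.exp (n * |ξ|) * (Real.exp ((n : ℝ) ^ 2) * win T τ 1) := by
      intro x hx
      rw [Set.uIoc_of_le hab] at hx
      rw [hF, m02a_norm]
      have e3 : ((x : ℂ) + ((1 : ℝ) : ℂ) * I).re = x := by simp
      have e4 : ((x : ℂ) + ((1 : ℝ) : ℂ) * I).im = 1 := by simp
      have e5 := hC1 (x + ((1 : ℝ) : ℂ) * I) (by rw [e3]; exact hx.1.le) (by rw [e3]; exact hx.2)
        (by rw [e4])
      rw [e4, mul_one] at e5
      rw [e3, e4]
      have e6 : Real.exp ((x - 1 / 2) * ξ) ≤ Real.exp (n * |ξ|) := by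
        apply Real.exp_le_exp.2
        calc (x - 1 / 2) * ξ ≤ |(x - 1 / 2) * ξ| := le_abs_self _
          _ = |x - 1 / 2| * |ξ| := abs_mul _ _
          _ ≤ n * |ξ| := by
              gcongr
              rw [abs_le]
              constructor <;> linarith only [hx.1, hx.2, hx]
      have e7 : Real.exp (((x - 1 / 2) ^ 2 - (1 - τ) ^ 2) / HH T ^ 2) ≤
          Real.exp ((n : ℝ) ^ 2) * win T τ 1 := by
        unfold win
        rw [← Real.exp_add]
        apply Real.exp_le_exp.2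
        rw [div_pow, sub_div]
        have h8 : (x - 1 / 2) ^ 2 ≤ (n : ℝ) ^ 2 := by
          rw [← sq_abs (x - 1 / 2)]
          refine pow_le_pow_left₀ (abs_nonneg _) ?_ 2
          rw [abs_le]
          constructor <;> linarith only [hx.1, hx.2, hx]
        have h9 : (x - 1 / 2) ^ 2 / HH T ^ 2 ≤ (n : ℝ) ^ 2 :=
          (div_le_self (by positivity) hH2).trans h8
        linarith only [h9]
      gcongr
    have h2 := intervalIntegral.norm_integral_le_of_norm_le_const hb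
    have e8 : |(1 / 2 : ℝ) - (1 / 2 - n)| = n := by
      rw [show (1 / 2 : ℝ) - (1 / 2 - n) = n by ring]
      exact abs_of_nonneg hn0
    rw [e8] at h2
    refine h2.trans (le_of_eq ?_)
    ring

end K3

end

section

namespace K3
open Complex MeasureTheory Filter Topology Set S6
open scoped Real ComplexConjugate

private lemma M02b_gint {T : ℝ} (hT : 1 < T) (τ : ℝ) :
    ∫ t : ℝ, Real.exp (-((t - τ) / HH T) ^ 2 / 2) = HH T * √(2 * π) := by
  have hH := A68.HH_pos hT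
  have h1 : (fun t : ℝ => Real.exp (-((t - τ) / HH T) ^ 2 / 2)) =
      fun t => (fun u => Real.exp (-(1 / (2 * HH T ^ 2)) * u ^ 2)) (t - τ) := by
    funext t
    simp only
    congr 1
    field_simp
  rw [h1, integral_sub_right_eq_self (fun u : ℝ => Real.exp (-(1 / (2 * HH T ^ 2)) * u ^ 2)) τ,
    integral_gaussian]
  rw [show π / (1 / (2 * HH T ^ 2)) = HH T ^ 2 * (2 * π) by field_simp,
    Real.sqrt_mul (sq_nonneg _), Real.sqrt_sq hH.le]

private lemma M02b_win_le (T τ t : ℝ) :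
    win T τ t ≤ Real.exp (-((t - τ) / HH T) ^ 2 / 2) := by
  unfold win
  refine Real.exp_le_exp.2 ?_
  linarith only [sq_nonneg ((t - τ) / HH T)]

private lemma M02b_win_small {T δ τ t : ℝ} (hT : 1 < T) (hδ : 0 < δ) (hτ : δ * T ≤ τ)
    (ht : t ≤ δ * T / 2) :
    win T τ t ≤ Real.exp (-(δ ^ 2 * Real.log T ^ 2 / 8)) *
      Real.exp (-((t - τ) / HH T) ^ 2 / 2) := by
  have hL : 0 < Real.log T := Real.log_pos hT
  have hT0 : 0 < T := by linarith only [hT]
  unfold win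
  rw [← Real.exp_add]
  refine Real.exp_le_exp.2 ?_
  have hu : δ * Real.log T / 2 ≤ -((t - τ) / HH T) := by
    unfold HH
    rw [← neg_div, div_div_eq_mul_div, le_div_iff₀ hT0]
    have : δ * T / 2 ≤ -(t - τ) := by linarith only [hτ, ht]
    nlinarith only [hτ, hL, ht]
  have h0 : 0 ≤ δ * Real.log T / 2 := by positivity
  have hsq : (δ * Real.log T / 2) ^ 2 ≤ ((t - τ) / HH T) ^ 2 := by
    rw [← neg_sq ((t - τ) / HH T)]
    exact pow_le_pow_left₀ h0 hu 2
  linarith only [hsq]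

private lemma M02b_HH_le {T : ℝ} (hT : Real.exp 1 ≤ T) : HH T ≤ T := by
  have h1 : 1 ≤ Real.log T := by
    rw [← Real.log_exp 1]
    exact Real.log_le_log (Real.exp_pos 1) hT
  have hT0 : 0 < T := (Real.exp_pos 1).trans_le hT
  unfold HH
  exact div_le_self hT0.le h1

/-- pointwise bound for `t > 1` -/
private lemma M02b_pt {n j : ℕ} {T δ η τ ξ C₁ κ t X : ℝ} (hT1 : 1 < T) (hδ : 0 < δ)
    (hτ1 : δ * T ≤ τ) (hC₁ : 0 ≤ C₁) (hX0 : 0 ≤ X) (hX : X ≤ C₁ / t ^ n) (ht1 : 1 ≤ t)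
    (hξ1 : (η - j) * Real.log T ≤ ξ)
    (hE2ξ : Real.exp (n * |ξ|) ≤ Real.exp (n * κ * Real.log T)) :
    X ^ j * Real.exp (-(n * ξ)) * (Real.exp ((n : ℝ) ^ 2) * win T τ t) ≤
      Real.exp ((n : ℝ) ^ 2) * ((C₁ ^ j / (δ / 2) ^ (n * j)) * Real.exp (-(n * η * Real.log T)) +
        C₁ ^ j * (Real.exp (n * κ * Real.log T) *
          Real.exp (-(δ ^ 2 * Real.log T ^ 2 / 8)))) * Real.exp (-((t - τ) / HH T) ^ 2 / 2) := by
  have hT0 : 0 < T := by linarith only [hT1]
  have ht0 : 0 < t := by linarith only [ht1]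
  have hw0 := (A68.win_pos T τ t).le
  have hK'0 : 0 ≤ C₁ ^ j := pow_nonneg hC₁ j
  have hδ2 : (0 : ℝ) < (δ / 2) ^ (n * j) := pow_pos (by linarith only [hδ]) _
  have hK0 : 0 ≤ C₁ ^ j / (δ / 2) ^ (n * j) := div_nonneg hK'0 hδ2.le
  generalize hN2 : Real.exp ((n : ℝ) ^ 2) = N2
  have hN20 : 0 < N2 := hN2 ▸ Real.exp_pos _
  have hws := M02b_win_small (T := T) (δ := δ) (τ := τ) (t := t) hT1 hδ hτ1
  have hwl := M02b_win_le T τ t
  generalize hE : Real.exp (-(δ ^ 2 * Real.log T ^ 2 / 8)) = E at hws ⊢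
  have hE0 : 0 < E := hE ▸ Real.exp_pos _
  generalize hg : Real.exp (-((t - τ) / HH T) ^ 2 / 2) = g at hws hwl ⊢
  have hg0 : 0 < g := hg ▸ Real.exp_pos _
  have hE20 : 0 < Real.exp (n * κ * Real.log T) := Real.exp_pos _
  have hE10 : 0 < Real.exp (-(n * η * Real.log T)) := Real.exp_pos _
  rcases le_total (δ * T / 2) t with hcase | hcase
  · have h1 : X ^ j ≤ C₁ ^ j / (δ * T / 2) ^ (n * j) := by
      calc X ^ j ≤ (C₁ / t ^ n) ^ j := pow_le_pow_left₀ hX0 hX j
        _ = C₁ ^ j / t ^ (n * j) := by rw [div_pow, ← pow_mul]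
        _ ≤ C₁ ^ j / (δ * T / 2) ^ (n * j) := by
            refine div_le_div_of_nonneg_left hK'0 (pow_pos (by positivity) _) ?_
            exact pow_le_pow_left₀ (by positivity) hcase _
    have h2 : Real.exp (-(n * ξ)) ≤ Real.exp (-(n * η * Real.log T)) * T ^ (n * j) := by
      have : T ^ (n * j) = Real.exp (((n * j : ℕ) : ℝ) * Real.log T) := by
        rw [Real.exp_nat_mul, Real.exp_log hT0]
      rw [this, ← Real.exp_add]
      refine Real.exp_le_exp.2 ?_
      push_cast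
      have hn0 : (0 : ℝ) ≤ n := Nat.cast_nonneg n
      linarith only [mul_le_mul_of_nonneg_left hξ1 hn0, hξ1, hn0]
    have h3 : C₁ ^ j / (δ * T / 2) ^ (n * j) * (Real.exp (-(n * η * Real.log T)) * T ^ (n * j)) =
        (C₁ ^ j / (δ / 2) ^ (n * j)) * Real.exp (-(n * η * Real.log T)) := by
      rw [show δ * T / 2 = (δ / 2) * T by ring, mul_pow]
      have h5 : T ^ (n * j) ≠ 0 := (pow_pos hT0 _).ne'
      have h6 := hδ2.ne'
      field_simp
    have h4 : 0 ≤ C₁ ^ j / (δ * T / 2) ^ (n * j) := div_nonneg hK'0 (pow_nonneg (by positivity) _)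
    calc X ^ j * Real.exp (-(n * ξ)) * (N2 * win T τ t)
        ≤ (C₁ ^ j / (δ * T / 2) ^ (n * j) *
            (Real.exp (-(n * η * Real.log T)) * T ^ (n * j))) * (N2 * g) := by
          refine mul_le_mul (mul_le_mul h1 h2 (Real.exp_pos _).le h4)
            (mul_le_mul_of_nonneg_left hwl hN20.le) (mul_nonneg hN20.le hw0) ?_
          exact mul_nonneg h4 (mul_nonneg hE10.le (pow_nonneg hT0.le _))
      _ = N2 * ((C₁ ^ j / (δ / 2) ^ (n * j)) * Real.exp (-(n * η * Real.log T))) * g := by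
          rw [h3]; ring
      _ ≤ _ := by
          refine mul_le_mul_of_nonneg_right (mul_le_mul_of_nonneg_left ?_ hN20.le) hg0.le
          have : 0 ≤ C₁ ^ j * (Real.exp (n * κ * Real.log T) * E) :=
            mul_nonneg hK'0 (mul_nonneg hE20.le hE0.le)
          linarith only [this]
  · have h1 : X ^ j ≤ C₁ ^ j := by
      refine pow_le_pow_left₀ hX0 (hX.trans ?_) j
      exact div_le_self hC₁ (one_le_pow₀ ht1)
    have h2 : Real.exp (-(n * ξ)) ≤ Real.exp (n * κ * Real.log T) := by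
      refine le_trans (Real.exp_le_exp.2 ?_) hE2ξ
      rw [← mul_neg]
      exact mul_le_mul_of_nonneg_left (neg_le_abs ξ) (by positivity)
    calc X ^ j * Real.exp (-(n * ξ)) * (N2 * win T τ t)
        ≤ (C₁ ^ j * Real.exp (n * κ * Real.log T)) * (N2 * (E * g)) := by
          refine mul_le_mul (mul_le_mul h1 h2 (Real.exp_pos _).le hK'0)
            (mul_le_mul_of_nonneg_left (hws hcase) hN20.le) (mul_nonneg hN20.le hw0) ?_
          exact mul_nonneg hK'0 hE20.le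
      _ = N2 * (C₁ ^ j * (Real.exp (n * κ * Real.log T) * E)) * g := by ring
      _ ≤ _ := by
          refine mul_le_mul_of_nonneg_right (mul_le_mul_of_nonneg_left ?_ hN20.le) hg0.le
          have : 0 ≤ (C₁ ^ j / (δ / 2) ^ (n * j)) * Real.exp (-(n * η * Real.log T)) :=
            mul_nonneg hK0 hE10.le
          linarith only [this]

/-- total -/
private lemma M02b_tot {G N2 K K' C₂ T E E1 E2 a b c : ℝ} (hG0 : 0 ≤ G) (hN20 : 0 ≤ N2)
    (hK0 : 0 ≤ K) (hK'0 : 0 ≤ K') (hC₂ : 0 ≤ C₂) (hT0 : 0 ≤ T) (hE0 : 0 ≤ E) (hE10 : 0 ≤ E1)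
    (hE21 : 1 ≤ E2) (ha : a ≤ E * (T * G)) (hb : b ≤ N2 * (K * E1 + K' * (E2 * E)) * (T * G))
    (hc : c ≤ C₂ * N2 * (E2 * E) * T) :
    a + (b + c) ≤ (G * (1 + N2 * (K + K')) + C₂ * N2) * (T * (E1 + E2 * E)) := by
  have hEE : E ≤ E2 * E := le_mul_of_one_le_left hE0 hE21
  have hEE0 : 0 ≤ E2 * E := hE0.trans hEE
  have a1 : E * (T * G) ≤ G * (T * (E1 + E2 * E)) := by
    calc E * (T * G) = G * (T * E) := by ring
      _ ≤ G * (T * (E1 + E2 * E)) :=
        mul_le_mul_of_nonneg_left (mul_le_mul_of_nonneg_left (by linarith only [hE10, hEE]) hT0) hG0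
  have a2 : N2 * (K * E1 + K' * (E2 * E)) * (T * G) ≤
      G * (N2 * (K + K')) * (T * (E1 + E2 * E)) := by
    have h0 : K * E1 + K' * (E2 * E) ≤ (K + K') * (E1 + E2 * E) := by
      have h1 : 0 ≤ K * (E2 * E) := mul_nonneg hK0 hEE0
      have h2 : 0 ≤ K' * E1 := mul_nonneg hK'0 hE10
      linarith only [h1, h2]
    calc N2 * (K * E1 + K' * (E2 * E)) * (T * G)
        ≤ N2 * ((K + K') * (E1 + E2 * E)) * (T * G) :=
          mul_le_mul_of_nonneg_right (mul_le_mul_of_nonneg_left h0 hN20) (mul_nonneg hT0 hG0)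
      _ = G * (N2 * (K + K')) * (T * (E1 + E2 * E)) := by ring
  have a3 : C₂ * N2 * (E2 * E) * T ≤ C₂ * N2 * (T * (E1 + E2 * E)) := by
    calc C₂ * N2 * (E2 * E) * T = C₂ * N2 * (T * (E2 * E)) := by ring
      _ ≤ C₂ * N2 * (T * (E1 + E2 * E)) :=
        mul_le_mul_of_nonneg_left (mul_le_mul_of_nonneg_left (by linarith only [hE10]) hT0)
          (mul_nonneg hC₂ hN20)
  have a4 : (G * (1 + N2 * (K + K')) + C₂ * N2) * (T * (E1 + E2 * E)) =
      G * (T * (E1 + E2 * E)) +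
      G * (N2 * (K + K')) * (T * (E1 + E2 * E)) + C₂ * N2 * (T * (E1 + E2 * E)) := by
    ring
  linarith only [ha, hb, hc, a1, a2, a3]

/-- the final numerical step -/
private lemma M02b_fin {M A T L η κ δ N : ℝ} (hM : 0 ≤ M) (hT0 : 0 < T) (hL : L = Real.log T)
    (hL1 : 1 ≤ L) (hT1 : 1 < T) (hTM : 2 * M + 1 ≤ T) (hn : A + 3 ≤ N * η) (hδ : 0 < δ)
    (hLκ : 8 * (N * κ + A + 3) / δ ^ 2 ≤ L) :
    M * (T * (Real.exp (-(N * η * L)) + Real.exp (N * κ * L) *
      Real.exp (-(δ ^ 2 * L ^ 2 / 8)))) ≤ T ^ (-A) := by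
  have hexpL : Real.exp L = T := by rw [hL]; exact Real.exp_log hT0
  have hb1 : T * Real.exp (-(N * η * L)) ≤ Real.exp (-((A + 2) * L)) := by
    have h1 : T * Real.exp (-(N * η * L)) = Real.exp (L + -(N * η * L)) := by
      rw [Real.exp_add, hexpL]
    rw [h1]
    refine Real.exp_le_exp.2 ?_
    nlinarith only [hn, hL1]
  have hb2 : T * (Real.exp (N * κ * L) * Real.exp (-(δ ^ 2 * L ^ 2 / 8))) ≤
      Real.exp (-((A + 2) * L)) := by
    have h1 : T * (Real.exp (N * κ * L) * Real.exp (-(δ ^ 2 * L ^ 2 / 8))) =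
        Real.exp (L + (N * κ * L + -(δ ^ 2 * L ^ 2 / 8))) := by
      rw [Real.exp_add, Real.exp_add, hexpL]
    rw [h1]
    refine Real.exp_le_exp.2 ?_
    rw [div_le_iff₀ (by positivity)] at hLκ
    nlinarith only [hLκ, hL1]
  have h1 : T * (Real.exp (-(N * η * L)) + Real.exp (N * κ * L) *
      Real.exp (-(δ ^ 2 * L ^ 2 / 8))) ≤ 2 * Real.exp (-((A + 2) * L)) := by
    rw [mul_add]
    linarith only [hb1, hb2]
  have h2 : T ^ (-A) = Real.exp (-((A + 2) * L)) * (T * T) := by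
    rw [Real.rpow_def_of_pos hT0, ← hL]
    have h3 : T * T = Real.exp (L + L) := by rw [Real.exp_add, hexpL]
    rw [h3, ← Real.exp_add]
    congr 1
    ring
  rw [h2]
  calc M * (T * (Real.exp (-(N * η * L)) + Real.exp (N * κ * L) *
      Real.exp (-(δ ^ 2 * L ^ 2 / 8)))) ≤ M * (2 * Real.exp (-((A + 2) * L))) :=
        mul_le_mul_of_nonneg_left h1 hM
    _ = Real.exp (-((A + 2) * L)) * (2 * M) := by ring
    _ ≤ Real.exp (-((A + 2) * L)) * (T * T) := by
        refine mul_le_mul_of_nonneg_left ?_ (Real.exp_pos _).le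
        nlinarith only [hTM, hT0, hT1]

theorem XX_vanish {j : ℕ} (hj : 1 ≤ j) {δ η : ℝ} (hδ : 0 < δ) (hη : 0 < η) (Ξ A : ℝ) :
    ∃ T₀ : ℝ, ∀ T ≥ T₀, ∀ τ : ℝ, δ * T ≤ τ → τ ≤ T → ∀ ξ : ℝ, (η - j) * Real.log T ≤ ξ →
      ξ ≤ Ξ * Real.log T →
      ‖∫ t : ℝ, XX t ^ j * cexp (((t * ξ : ℝ) : ℂ) * I) * ((win T τ t : ℝ) : ℂ)‖ ≤ T ^ (-A) := by
  obtain ⟨n, hn⟩ : ∃ n : ℕ, A + 3 ≤ n * η := by
    refine ⟨⌈(A + 3) / η⌉₊, ?_⟩
    have := Nat.le_ceil ((A + 3) / η)
    rwa [div_le_iff₀ hη] at this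
  obtain ⟨C₁, hC₁, hchi⟩ := chi_left n
  obtain ⟨C₂, hC₂, hrect⟩ := rect_bound j n
  set κ : ℝ := η + j + |Ξ| with hκ
  have hκ0 : 0 ≤ κ := by positivity
  set K : ℝ := C₁ ^ j / (δ / 2) ^ (n * j) with hK
  have hK0 : 0 ≤ K := by positivity
  set K' : ℝ := C₁ ^ j with hK'
  have hK'0 : 0 ≤ K' := by positivity
  set G : ℝ := √(2 * π) with hG
  have hG0 : 0 ≤ G := Real.sqrt_nonneg _
  set N2 : ℝ := Real.exp ((n : ℝ) ^ 2) with hN2
  have hN20 : 0 < N2 := Real.exp_pos _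
  set M : ℝ := G * (1 + N2 * (K + K')) + C₂ * N2 with hM
  have hM0 : 0 ≤ M := by positivity
  refine ⟨max (Real.exp 1) (max (2 / δ) (max (Real.exp (8 * (n * κ + A + 3) / δ ^ 2))
    (2 * M + 1))), ?_⟩
  intro T hT τ hτ1 hτ2 ξ hξ1 hξ2
  have hTe : Real.exp 1 ≤ T := (le_max_left _ _).trans hT
  have hTδ : 2 / δ ≤ T := ((le_max_left _ _).trans (le_max_right _ _)).trans hT
  have hTκ : Real.exp (8 * (n * κ + A + 3) / δ ^ 2) ≤ T :=
    ((le_max_left _ _).trans ((le_max_right _ _).trans (le_max_right _ _))).trans hT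
  have hTM : 2 * M + 1 ≤ T :=
    ((le_max_right _ _).trans ((le_max_right _ _).trans (le_max_right _ _))).trans hT
  have hT1 : 1 < T := by
    have : (1 : ℝ) < Real.exp 1 := by
      have := Real.add_one_lt_exp (show (1 : ℝ) ≠ 0 by norm_num)
      linarith only [this]
    linarith only [hTe, this]
  have hT0 : 0 < T := by linarith only [hT1]
  set L : ℝ := Real.log T with hL
  have hL1 : 1 ≤ L := by
    rw [hL, ← Real.log_exp 1]
    exact Real.log_le_log (Real.exp_pos 1) hTe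
  have hexpL : Real.exp L = T := Real.exp_log hT0
  have hLκ : 8 * (n * κ + A + 3) / δ ^ 2 ≤ L := by
    rw [hL, Real.le_log_iff_exp_le hT0]
    exact hTκ
  have hH := A68.HH_pos hT1
  have hHT : HH T ≤ T := M02b_HH_le hTe
  have hδT : 1 ≤ δ * T / 2 := by
    rw [div_le_iff₀ hδ] at hTδ
    linarith only [hTδ]
  set E : ℝ := Real.exp (-(δ ^ 2 * L ^ 2 / 8)) with hE
  set E1 : ℝ := Real.exp (-(n * η * L)) with hE1
  set E2 : ℝ := Real.exp (n * κ * L) with hE2
  have hE0 : 0 < E := Real.exp_pos _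
  have hE10 : 0 < E1 := Real.exp_pos _
  have hE21 : 1 ≤ E2 := Real.one_le_exp (by positivity)
  set g : ℝ → ℝ := fun t => Real.exp (-((t - τ) / HH T) ^ 2 / 2) with hg
  have hgi : Integrable g := A68.gauss_int hT1 τ
  have hg0 : ∀ t, 0 ≤ g t := fun t => (Real.exp_pos _).le
  have hgI : ∫ t, g t = HH T * G := M02b_gint hT1 τ
  have hgT : ∫ t, g t ≤ T * G := by
    rw [hgI]
    gcongr
  have hg1 : ∀ t, g t ≤ 1 := by
    intro t
    simp only [hg]
    rw [Real.exp_le_one_iff]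
    linarith only [sq_nonneg ((t - τ) / HH T)]
  have hξabs : |ξ| ≤ κ * L := by
    rw [abs_le]
    constructor
    · have : -(κ * L) ≤ (η - j) * L := by
        have : 0 ≤ (η + |Ξ| + η) * L := by positivity
        rw [hκ]
        linarith only [this]
      linarith only [hξ1, this]
    · have : Ξ * L ≤ κ * L := by
        have h1 : Ξ ≤ |Ξ| := le_abs_self Ξ
        have h2 : (0 : ℝ) ≤ η + j := by positivity
        refine mul_le_mul_of_nonneg_right ?_ (by linarith only [hL1])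
        rw [hκ]
        linarith only [hη, h1]
      linarith only [hξ2, this]
  have hE2ξ : Real.exp (n * |ξ|) ≤ E2 := by
    refine Real.exp_le_exp.2 ?_
    rw [mul_assoc]
    exact mul_le_mul_of_nonneg_left hξabs (by positivity)
  set f : ℝ → ℂ := fun t => XX t ^ j * cexp (((t * ξ : ℝ) : ℂ) * I) * ((win T τ t : ℝ) : ℂ) with hf
  have hfn : ∀ t, ‖f t‖ = win T τ t := by
    intro t
    simp only [hf]
    rw [norm_mul, norm_mul, norm_pow, Complex.norm_exp_ofReal_mul_I]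
    unfold XX
    rw [A68.chi_half_norm, one_pow, one_mul, one_mul, Complex.norm_real,
      Real.norm_of_nonneg (A68.win_pos _ _ _).le]
  have hfc : Continuous f := by
    have h1 : Continuous XX := A68.chi_half_cont
    have h2 := A68.win_cont T τ
    simp only [hf]
    fun_prop
  have hfi : Integrable f := by
    refine hgi.mono' hfc.aestronglyMeasurable (Eventually.of_forall fun t => ?_)
    rw [hfn]
    exact M02b_win_le T τ t
  have hsplit : ∫ t, f t = (∫ t in Iic (1 : ℝ), f t) + ∫ t in Ioi (1 : ℝ), f t := by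
    have := integral_add_compl (measurableSet_Iic (a := (1 : ℝ))) hfi
    rw [compl_Iic] at this
    exact this.symm
  -- the part t ≤ 1
  have hp1 : ‖∫ t in Iic (1 : ℝ), f t‖ ≤ E * (T * G) := by
    calc ‖∫ t in Iic (1 : ℝ), f t‖ ≤ ∫ t in Iic (1 : ℝ), E * g t := by
          refine norm_integral_le_of_norm_le (hgi.const_mul E).integrableOn ?_
          filter_upwards [ae_restrict_mem measurableSet_Iic] with t ht
          rw [hfn]
          exact M02b_win_small hT1 hδ hτ1 (le_trans ht hδT)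
      _ ≤ ∫ t, E * g t :=
          setIntegral_le_integral (hgi.const_mul E)
            (Eventually.of_forall fun t => mul_nonneg hE0.le (hg0 t))
      _ = E * ∫ t, g t := integral_const_mul _ _
      _ ≤ E * (T * G) := by gcongr
  -- pointwise bound for t > 1
  have hpt : ∀ t ∈ Ioi (1 : ℝ),
      ‖MP069854.chi (1 / 2 - n + t * I)‖ ^ j * Real.exp (-(n * ξ)) * (N2 * win T τ t) ≤
        N2 * (K * E1 + K' * (E2 * E)) * g t := by
    intro t ht
    exact M02b_pt hT1 hδ hτ1 hC₁ (norm_nonneg _) (hchi t (le_of_lt ht)) (le_of_lt ht) hξ1 hE2ξ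
  have hint2 : (∫ t in Ioi (1 : ℝ), ‖MP069854.chi (1 / 2 - n + t * I)‖ ^ j *
      Real.exp (-(n * ξ)) * (N2 * win T τ t)) ≤
        N2 * (K * E1 + K' * (E2 * E)) * (T * G) := by
    have hc0 : 0 ≤ N2 * (K * E1 + K' * (E2 * E)) := by positivity
    calc (∫ t in Ioi (1 : ℝ), ‖MP069854.chi (1 / 2 - n + t * I)‖ ^ j *
          Real.exp (-(n * ξ)) * (N2 * win T τ t))
        ≤ ∫ t in Ioi (1 : ℝ), N2 * (K * E1 + K' * (E2 * E)) * g t := by
          refine integral_mono_of_nonneg ?_ (hgi.const_mul _).integrableOn ?_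
          · refine Eventually.of_forall fun t => ?_
            have := (A68.win_pos T τ t).le
            simp only [Pi.zero_apply]
            positivity
          · filter_upwards [ae_restrict_mem measurableSet_Ioi] with t ht using hpt t ht
      _ ≤ ∫ t, N2 * (K * E1 + K' * (E2 * E)) * g t :=
          setIntegral_le_integral (hgi.const_mul _)
            (Eventually.of_forall fun t => mul_nonneg hc0 (hg0 t))
      _ = N2 * (K * E1 + K' * (E2 * E)) * ∫ t, g t := integral_const_mul _ _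
      _ ≤ N2 * (K * E1 + K' * (E2 * E)) * (T * G) := by gcongr
  have hbd : C₂ * Real.exp (n * |ξ|) * (N2 * win T τ 1) ≤ C₂ * N2 * (E2 * E) * T := by
    have h1 : win T τ 1 ≤ E * 1 :=
      (M02b_win_small hT1 hδ hτ1 hδT).trans (mul_le_mul_of_nonneg_left (hg1 1) hE0.le)
    calc C₂ * Real.exp (n * |ξ|) * (N2 * win T τ 1) ≤ C₂ * E2 * (N2 * (E * 1)) := by
          have := (A68.win_pos T τ 1).le
          gcongr
      _ = C₂ * N2 * (E2 * E) * 1 := by ring
      _ ≤ C₂ * N2 * (E2 * E) * T := by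
          gcongr
  have htot : ‖∫ t, f t‖ ≤ M * (T * (E1 + E2 * E)) := by
    rw [hsplit]
    refine (norm_add_le _ _).trans ?_
    have h1 := hrect T hTe τ ξ
    refine le_trans (add_le_add le_rfl h1) ?_
    exact M02b_tot hG0 hN20.le hK0 hK'0 hC₂ hT0.le hE0.le hE10.le hE21 hp1 hint2 hbd
  exact htot.trans (M02b_fin hM0 hT0 hL hL1 hT1 hTM hn hδ hLκ)

end K3

end

section

namespace K3
open Complex MeasureTheory Filter Topology Set S6
open scoped Real ComplexConjugate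

/-- **M03.** -/
theorem WF.mul_fn {W : ℝ → ℝ} (h : WF W) {g : ℝ → ℝ} (hg : Continuous g) :
    WF (fun s => W s * g s) := by
  refine ⟨h.cont.mul hg, h.hcs.mul_right, ?_⟩
  exact (tsupport_mul_subset_left (f := W) (g := g)).trans h.supp

/-- `e^{-ia log n/L} = cos - i sin` -/
theorem DS_eq (W : ℝ → ℝ) (a : ℝ) {T : ℝ} (hT : 1 < T) (t : ℝ) :
    DS W a T t = DW (fun s => W s * Real.cos (a * s)) T t -
      I * DW (fun s => W s * Real.sin (a * s)) T t := by
  have hL : Real.log T ≠ 0 := (Real.log_pos hT).ne'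
  unfold DS DW
  rw [Finset.mul_sum, ← Finset.sum_sub_distrib]
  refine Finset.sum_congr rfl fun n _ => ?_
  have h1 : cexp (-((((t + a / Real.log T) * Real.log n : ℝ) : ℂ) * I)) =
      cexp (-(((t * Real.log n : ℝ) : ℂ) * I)) *
        (((Real.cos (a * (Real.log n / Real.log T)) : ℝ) : ℂ) -
          I * ((Real.sin (a * (Real.log n / Real.log T)) : ℝ) : ℂ)) := by
    have h2 : -((((t + a / Real.log T) * Real.log n : ℝ) : ℂ) * I) =
        -(((t * Real.log n : ℝ) : ℂ) * I) +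
          (-((a * (Real.log n / Real.log T) : ℝ) : ℂ)) * I := by
      push_cast
      ring
    rw [h2, Complex.exp_add, Complex.exp_mul_I, Complex.cos_neg, Complex.sin_neg,
      ← Complex.ofReal_cos, ← Complex.ofReal_sin]
    ring
  rw [h1]
  unfold dc
  push_cast
  ring

theorem DW_cont (W : ℝ → ℝ) (T : ℝ) : Continuous (DW W T) := by
  unfold DW
  fun_prop

theorem DS_cont (W : ℝ → ℝ) (a T : ℝ) : Continuous (DS W a T) := by
  unfold DS
  exact (DW_cont W T).comp (by fun_prop)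

private theorem m03_dk (k n : ℕ) : MP069854.dk k n ≤ n ^ k := by
  induction k generalizing n with
  | zero =>
    rw [MP069854.dk_eq_zeta_pow, pow_zero, pow_zero]
    rcases eq_or_ne n 1 with rfl | h
    · simp
    · rw [ArithmeticFunction.one_apply_ne h]
      exact Nat.zero_le _
  | succ k ih =>
    rw [MP069854.dk_succ]
    rw [Nat.sum_divisorsAntidiagonal (f := fun _ y => MP069854.dk k y)]
    have h1 : ∀ x ∈ n.divisors, MP069854.dk k (n / x) ≤ n ^ k := by
      intro x _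
      exact (ih (n / x)).trans (Nat.pow_le_pow_left (Nat.div_le_self n x) k)
    refine (Finset.sum_le_sum h1).trans ?_
    rw [Finset.sum_const, smul_eq_mul, pow_succ, mul_comm]
    exact Nat.mul_le_mul_left _ (Nat.card_divisors_le_self n)

/-- `∑_{n ≤ T} |dc W T n| ≤ C T^4` -/
theorem dc_sum {W : ℝ → ℝ} (h : WF W) :
    ∃ C : ℝ, 0 ≤ C ∧ ∀ T : ℝ, 1 ≤ T → ∑ n ∈ Finset.Icc 1 ⌊T⌋₊, |dc W T n| ≤ C * T ^ 4 := by
  obtain ⟨C, hC⟩ := h.hcs.exists_bound_of_continuous h.cont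
  have hC0 : 0 ≤ C := (norm_nonneg _).trans (hC 0)
  refine ⟨C, hC0, fun T hT => ?_⟩
  have hT0 : 0 ≤ T := zero_le_one.trans hT
  have hfl : (⌊T⌋₊ : ℝ) ≤ T := Nat.floor_le hT0
  have h1 : ∀ n ∈ Finset.Icc 1 ⌊T⌋₊, |dc W T n| ≤ C * T ^ 3 := by
    intro n hn
    rw [Finset.mem_Icc] at hn
    have hn1 : (1 : ℝ) ≤ n := by exact_mod_cast hn.1
    have hnT : (n : ℝ) ≤ T := le_trans (by exact_mod_cast hn.2) hfl
    have hd : ((MP069854.dk 3 n : ℕ) : ℝ) ≤ T ^ 3 := by
      have h2 : ((MP069854.dk 3 n : ℕ) : ℝ) ≤ (n : ℝ) ^ 3 := by exact_mod_cast m03_dk 3 n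
      exact h2.trans (pow_le_pow_left₀ (by positivity) hnT 3)
    have hs : (√(n : ℝ))⁻¹ ≤ 1 := by
      apply inv_le_one_of_one_le₀
      rw [← Real.sqrt_one]
      exact Real.sqrt_le_sqrt hn1
    unfold dc
    rw [abs_mul, abs_mul, Nat.abs_cast, abs_of_nonneg (inv_nonneg.mpr (Real.sqrt_nonneg _))]
    have hW : |W (Real.log n / Real.log T)| ≤ C := by
      rw [← Real.norm_eq_abs]
      exact hC _
    calc ((MP069854.dk 3 n : ℕ) : ℝ) * |W (Real.log n / Real.log T)| * (√(n : ℝ))⁻¹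
        ≤ (T ^ 3 * C) * 1 := by
          refine mul_le_mul (mul_le_mul hd hW (abs_nonneg _) (by positivity)) hs (by positivity)
            (by positivity)
      _ = C * T ^ 3 := by ring
  refine (Finset.sum_le_sum h1).trans ?_
  rw [Finset.sum_const, Nat.card_Icc, nsmul_eq_mul, Nat.add_sub_cancel]
  calc (⌊T⌋₊ : ℝ) * (C * T ^ 3) ≤ T * (C * T ^ 3) := mul_le_mul_of_nonneg_right hfl (by positivity)
    _ = C * T ^ 4 := by ring

/-- `d_3(n) ≤ n³` (or `MP069854` bounds), `W` bounded -/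
theorem DS_bdd {W : ℝ → ℝ} (h : WF W) (a : ℝ) :
    ∃ C : ℝ, 0 ≤ C ∧ ∀ T : ℝ, 1 ≤ T → ∀ t, ‖DS W a T t‖ ≤ C * T ^ 4 := by
  obtain ⟨C, hC0, hC⟩ := dc_sum h
  refine ⟨C, hC0, fun T hT t => le_trans ?_ (hC T hT)⟩
  unfold DS DW
  refine (norm_sum_le _ _).trans (Finset.sum_le_sum fun n _ => ?_)
  rw [norm_mul, Complex.norm_real, Real.norm_eq_abs]
  have h1 : ‖cexp (-((((t + a / Real.log T) * Real.log n : ℝ) : ℂ) * I))‖ = 1 := by
    rw [← neg_mul, ← Complex.ofReal_neg, Complex.norm_exp_ofReal_mul_I]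
  rw [h1, mul_one]

end K3

end

section

namespace K3
open Complex MeasureTheory Filter Topology Set S6
open scoped Real ComplexConjugate

/-- the common limit: `h` continuous, zero outside `(0,1)` -/
private theorem M04a_core (h : ℝ → ℝ) (hc : Continuous h) (h1 : ∀ y, 1 < y → h y = 0) :
    Tendsto (fun T : ℝ => (∑ n ∈ Finset.Icc 1 ⌊T⌋₊,
      (MP069854.dk 3 n : ℝ) ^ 2 / n * h (Real.log n / Real.log T)) / Real.log T ^ 9) atTop
      (𝓝 (A3 * ∫ s in (0 : ℝ)..1, h s * (s ^ 8 / Nat.factorial 8))) := by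
  obtain ⟨hint, hsum, hlim⟩ := (MP069854.zetaData (k := 3) (by norm_num)).test_lim h hc (R := 1) h1
  have hL : Tendsto (fun T : ℝ => (Real.log T)⁻¹) atTop (𝓝[>] 0) := by
    refine tendsto_nhdsWithin_iff.2 ⟨tendsto_inv_atTop_zero.comp Real.tendsto_log_atTop, ?_⟩
    filter_upwards [eventually_gt_atTop (1 : ℝ)] with T hT
    exact inv_pos.2 (Real.log_pos hT)
  have h2 := hlim.comp hL
  have hI : (∫ y in Ioi (0 : ℝ), h y * MP069854.wt (3 ^ 2) y) =
      ∫ s in (0 : ℝ)..1, h s * (s ^ 8 / Nat.factorial 8) := by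
    rw [intervalIntegral.integral_of_le zero_le_one]
    have e : ∫ y in Ioi (0 : ℝ), h y * MP069854.wt (3 ^ 2) y =
        ∫ y in Ioc (0 : ℝ) 1, h y * MP069854.wt (3 ^ 2) y := by
      refine (setIntegral_eq_of_subset_of_forall_sdiff_eq_zero measurableSet_Ioi
        Ioc_subset_Ioi_self ?_)
      rintro x ⟨hx1, hx2⟩
      have hx : 1 < x := by
        by_contra hcon
        exact hx2 ⟨hx1, not_lt.1 hcon⟩
      rw [h1 x hx, zero_mul]
    rw [e]
    rfl
  rw [hI] at h2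
  refine h2.congr' ?_
  filter_upwards [eventually_gt_atTop (1 : ℝ)] with T hT
  have hl : 0 < Real.log T := Real.log_pos hT
  simp only [Function.comp]
  have hs : (∑' n : ℕ, (MP069854.dk 3 n : ℝ) ^ 2 / n * h ((Real.log T)⁻¹ * Real.log n)) =
      ∑ n ∈ Finset.Icc 1 ⌊T⌋₊, (MP069854.dk 3 n : ℝ) ^ 2 / n * h (Real.log n / Real.log T) := by
    rw [tsum_eq_sum (s := Finset.Icc 1 ⌊T⌋₊)]
    · refine Finset.sum_congr rfl fun n _ => ?_
      rw [div_eq_inv_mul (Real.log n)]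
    · intro n hn
      rcases Nat.eq_zero_or_pos n with rfl | hn0
      · simp
      · have hnT : T < n := by
          by_contra hcon
          exact hn (Finset.mem_Icc.2 ⟨hn0, Nat.le_floor (not_lt.1 hcon)⟩)
        have : 1 < (Real.log T)⁻¹ * Real.log n := by
          rw [inv_mul_eq_div, one_lt_div hl]
          exact Real.log_lt_log (by linarith only [hT]) hnT
        rw [h1 _ this, mul_zero]
  rw [hs]
  rw [show (3 : ℕ) ^ 2 = 9 by norm_num, inv_pow, inv_mul_eq_div]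

private theorem M04a_zero {W : ℝ → ℝ} (h : WF W) : ∀ y, 1 < y → W y = 0 := by
  intro y hy
  by_contra hne
  have := h.supp (subset_tsupport W (Function.mem_support.2 hne))
  exact absurd this.2 (not_lt.2 hy.le)

/-- **M04a.** diagonal -/
theorem diag_lim {W₁ W₂ : ℝ → ℝ} (h₁ : WF W₁) (h₂ : WF W₂) :
    Tendsto (fun T : ℝ => (∑ n ∈ Finset.Icc 1 ⌊T⌋₊, dc W₁ T n * dc W₂ T n) / Real.log T ^ 9) atTop
      (𝓝 (A3 * ∫ s in (0 : ℝ)..1, W₁ s * W₂ s * (s ^ 8 / Nat.factorial 8))) := by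
  have h := M04a_core (fun y => W₁ y * W₂ y) (h₁.cont.mul h₂.cont)
    (fun y hy => by simp [M04a_zero h₁ y hy])
  refine h.congr fun T => ?_
  congr 1
  refine Finset.sum_congr rfl fun n hn => ?_
  have hn0 : (0 : ℝ) < n := by exact_mod_cast (Finset.mem_Icc.1 hn).1
  have hs : (√(n : ℝ))⁻¹ * (√(n : ℝ))⁻¹ = (n : ℝ)⁻¹ := by
    rw [← mul_inv, Real.mul_self_sqrt hn0.le]
  unfold dc
  rw [div_eq_mul_inv, ← hs]
  ring

/-- the same with `W₂ = 1` -/
theorem diag_lim1 {W : ℝ → ℝ} (h : WF W) :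
    Tendsto (fun T : ℝ => (∑ n ∈ Finset.Icc 1 ⌊T⌋₊,
      dc W T n * ((MP069854.dk 3 n : ℝ) * (√(n : ℝ))⁻¹)) / Real.log T ^ 9) atTop
      (𝓝 (A3 * ∫ s in (0 : ℝ)..1, W s * (s ^ 8 / Nat.factorial 8))) := by
  have h' := M04a_core W h.cont (M04a_zero h)
  refine h'.congr fun T => ?_
  congr 1
  refine Finset.sum_congr rfl fun n hn => ?_
  have hn0 : (0 : ℝ) < n := by exact_mod_cast (Finset.mem_Icc.1 hn).1
  have hs : (√(n : ℝ))⁻¹ * (√(n : ℝ))⁻¹ = (n : ℝ)⁻¹ := by
    rw [← mul_inv, Real.mul_self_sqrt hn0.le]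
  unfold dc
  rw [div_eq_mul_inv, ← hs]
  ring

end K3

end

section

/-!
# MP_069854_nt, K3, level 0: row M04b (helper64), the mean of `D_{W₁} conj D_{W₂}`
-/

namespace K3
open Complex MeasureTheory Filter Topology Set S6
open scoped Real ComplexConjugate

private lemma M04b_gap {W : ℝ → ℝ} (h : WF W) :
    ∃ ε : ℝ, 0 < ε ∧ ∀ s, W s ≠ 0 → s ≤ 1 - ε := by
  rcases (tsupport W).eq_empty_or_nonempty with h0 | h0
  · refine ⟨1, one_pos, fun p hp => ?_⟩
    have := subset_tsupport W hp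
    rw [h0] at this
    exact absurd this (Set.notMem_empty _)
  · have hK : IsCompact (tsupport W) := h.hcs
    obtain ⟨p0, hp0, hmax⟩ := hK.exists_isMaxOn h0 continuous_id.continuousOn
    have h1 := (h.supp hp0).2
    refine ⟨1 - p0, by linarith only [h1], fun p hp => ?_⟩
    have h2 : id p ≤ id p0 := hmax (subset_tsupport W hp)
    simp only [id] at h2
    linarith only [h2]

private lemma M04b_norm_le (W : ℝ → ℝ) (T t : ℝ) :
    ‖DW W T t‖ ≤ ∑ n ∈ Finset.Icc 1 ⌊T⌋₊, |dc W T n| := by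
  unfold DW
  refine (norm_sum_le _ _).trans (Finset.sum_le_sum fun n _ => ?_)
  rw [norm_mul, Complex.norm_real, Real.norm_eq_abs, ← neg_mul, ← ofReal_neg,
    Complex.norm_exp_ofReal_mul_I, mul_one]

private lemma M04b_mul (W₁ W₂ : ℝ → ℝ) (T t : ℝ) :
    DW W₁ T t * conj (DW W₂ T t) = ∑ n ∈ Finset.Icc 1 ⌊T⌋₊, ∑ m ∈ Finset.Icc 1 ⌊T⌋₊,
      ((dc W₁ T n * dc W₂ T m : ℝ) : ℂ) *
        cexp (((t * (Real.log m - Real.log n) : ℝ) : ℂ) * I) := by
  unfold DW
  rw [map_sum, Finset.sum_mul_sum]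
  refine Finset.sum_congr rfl fun x _ => Finset.sum_congr rfl fun y _ => ?_
  rw [map_mul, conj_ofReal, ← Complex.exp_conj, map_neg, map_mul, conj_ofReal, conj_I]
  have : cexp (((t * (Real.log y - Real.log x) : ℝ) : ℂ) * I) =
      cexp (-(((t * Real.log x : ℝ) : ℂ) * I)) * cexp (-(((t * Real.log y : ℝ) : ℂ) * -I)) := by
    rw [← Complex.exp_add]; congr 1; push_cast; ring
  rw [this]
  push_cast
  ring

private lemma M04b_expand (W₁ W₂ : ℝ → ℝ) {T : ℝ} (hT : 1 < T) (τ : ℝ) :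
    ∫ t : ℝ, DW W₁ T t * conj (DW W₂ T t) * ((win T τ t : ℝ) : ℂ) =
      ∑ n ∈ Finset.Icc 1 ⌊T⌋₊, ∑ m ∈ Finset.Icc 1 ⌊T⌋₊, ((dc W₁ T n * dc W₂ T m : ℝ) : ℂ) *
        ((HH T * √π * Real.exp (-(HH T * (Real.log m - Real.log n) / 2) ^ 2) : ℝ) *
          cexp (((τ * (Real.log m - Real.log n) : ℝ) : ℂ) * I)) := by
  have h2 : ∀ t : ℝ, DW W₁ T t * conj (DW W₂ T t) * ((win T τ t : ℝ) : ℂ) =
      ∑ n ∈ Finset.Icc 1 ⌊T⌋₊, ∑ m ∈ Finset.Icc 1 ⌊T⌋₊, ((dc W₁ T n * dc W₂ T m : ℝ) : ℂ) *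
        (cexp (((t * (Real.log m - Real.log n) : ℝ) : ℂ) * I) * (win T τ t : ℂ)) := by
    intro t
    rw [M04b_mul, Finset.sum_mul]
    refine Finset.sum_congr rfl fun x _ => ?_
    rw [Finset.sum_mul]
    refine Finset.sum_congr rfl fun y _ => ?_
    ring
  simp only [h2]
  have hwc : Continuous (win T τ) := by unfold win; fun_prop
  have hint : ∀ x y : ℕ, Integrable fun t : ℝ => ((dc W₁ T x * dc W₂ T y : ℝ) : ℂ) *
        (cexp (((t * (Real.log y - Real.log x) : ℝ) : ℂ) * I) * (win T τ t : ℂ)) := by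
    intro x y
    refine Integrable.const_mul ?_ _
    refine (win_integrable hT τ).mono' (by
      refine Continuous.aestronglyMeasurable ?_
      fun_prop) (Eventually.of_forall fun t => ?_)
    rw [norm_mul, Complex.norm_exp_ofReal_mul_I, one_mul, Complex.norm_real]
    exact (Real.norm_of_nonneg (Real.exp_pos _).le).le
  rw [integral_finsetSum _ fun x _ => integrable_finsetSum _ fun y _ => hint x y]
  refine Finset.sum_congr rfl fun x _ => ?_
  rw [integral_finsetSum _ fun y _ => hint x y]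
  refine Finset.sum_congr rfl fun y _ => ?_
  rw [integral_const_mul, S6.win_fourier hT]

private lemma M04b_off {W₁ W₂ : ℝ → ℝ} {ε : ℝ}
    (h1 : ∀ s, W₁ s ≠ 0 → s ≤ 1 - ε) (h2 : ∀ s, W₂ s ≠ 0 → s ≤ 1 - ε) {T : ℝ} (hT : 1 < T)
    (hTε : 4 * Real.log T ^ 2 ≤ T ^ ε) (τ : ℝ) {x y : ℕ} (hx : 1 ≤ x) (hy : 1 ≤ y) :
    ‖((dc W₁ T x * dc W₂ T y : ℝ) : ℂ) *
        ((Real.exp (-(HH T * (Real.log y - Real.log x) / 2) ^ 2) : ℝ) *
          cexp (((τ * (Real.log y - Real.log x) : ℝ) : ℂ) * I)) -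
      (if x = y then ((dc W₁ T x * dc W₂ T y : ℝ) : ℂ) else 0)‖ ≤
      |dc W₁ T x| * |dc W₂ T y| * Real.exp (-(Real.log T) ^ 2) := by
  have hL := Real.log_pos hT
  have hH := HH_pos hT
  have hT0 : 0 < T := by linarith only [hT]
  split_ifs with h
  · rw [h, sub_self]
    simp only [mul_zero, zero_div, ne_eq, OfNat.ofNat_ne_zero, not_false_eq_true, zero_pow,
      neg_zero, Real.exp_zero, ofReal_one, ofReal_zero, zero_mul, Complex.exp_zero, mul_one,
      sub_self, norm_zero]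
    positivity
  · rw [sub_zero]
    have hx0 : (0:ℝ) < x := by exact_mod_cast hx
    have hy0 : (0:ℝ) < y := by exact_mod_cast hy
    by_cases hz : dc W₁ T x * dc W₂ T y = 0
    · rw [hz, ofReal_zero, zero_mul, norm_zero]; positivity
    have hcx : W₁ (Real.log x / Real.log T) ≠ 0 :=
      right_ne_zero_of_mul (left_ne_zero_of_mul (left_ne_zero_of_mul hz))
    have hcy : W₂ (Real.log y / Real.log T) ≠ 0 :=
      right_ne_zero_of_mul (left_ne_zero_of_mul (right_ne_zero_of_mul hz))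
    have g1 := h1 _ hcx
    have g2 := h2 _ hcy
    rw [div_le_iff₀ hL] at g1 g2
    have hgap2 := log_gap hy hx (Ne.symm h)
    have hprod : √((y : ℝ) * x) ≤ T / T ^ ε := by
      have h1 : (y : ℝ) * x ≤ (T / T ^ ε) ^ 2 := by
        have h2 : (0:ℝ) < (y : ℝ) * x := by positivity
        rw [← Real.log_le_log_iff h2 (by positivity)]
        rw [Real.log_pow, Real.log_div hT0.ne' (by positivity), Real.log_rpow hT0,
          Real.log_mul hy0.ne' hx0.ne']
        push_cast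
        linarith only [g1, g2]
      calc √((y : ℝ) * x) ≤ √((T / T ^ ε) ^ 2) := Real.sqrt_le_sqrt h1
        _ = T / T ^ ε := Real.sqrt_sq (by positivity)
    have hspos : 0 < √((y : ℝ) * x) := Real.sqrt_pos.2 (by positivity)
    have hbig : Real.log T ≤ |HH T * (Real.log y - Real.log x) / 2| := by
      rw [abs_div, abs_mul, abs_of_pos hH, abs_of_pos (show (0:ℝ) < 2 by norm_num)]
      have h1 : 1 / (2 * (T / T ^ ε)) ≤ |Real.log y - Real.log x| := by
        refine le_trans ?_ hgap2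
        exact one_div_le_one_div_of_le (by positivity) (by linarith only [hprod])
      have h2 : HH T * (1 / (2 * (T / T ^ ε))) / 2 ≤ HH T * |Real.log y - Real.log x| / 2 := by
        gcongr
      refine le_trans ?_ h2
      have h3 : HH T * (1 / (2 * (T / T ^ ε))) / 2 = T ^ ε / (4 * Real.log T) := by
        unfold HH
        have : T ^ ε ≠ 0 := (by positivity : (0:ℝ) < T ^ ε).ne'
        field_simp
        norm_num
      rw [h3, le_div_iff₀ (by positivity)]
      linarith only [hTε]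
    have hexp : Real.exp (-(HH T * (Real.log y - Real.log x) / 2) ^ 2) ≤
        Real.exp (-(Real.log T) ^ 2) := by
      refine Real.exp_le_exp.2 (neg_le_neg ?_)
      rw [← sq_abs (HH T * (Real.log y - Real.log x) / 2)]
      exact pow_le_pow_left₀ hL.le hbig 2
    rw [norm_mul, norm_mul, Complex.norm_exp_ofReal_mul_I, mul_one, Complex.norm_real,
      Complex.norm_real, Real.norm_eq_abs, Real.norm_eq_abs, abs_mul,
      abs_of_pos (Real.exp_pos _)]
    gcongr

private lemma M04b_exp8 :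
    Tendsto (fun T : ℝ => T ^ 8 * Real.exp (-(Real.log T) ^ 2)) atTop (𝓝 0) := by
  have h1 : Tendsto (fun L : ℝ => Real.exp (8 * L - L ^ 2)) atTop (𝓝 0) := by
    refine Real.tendsto_exp_atBot.comp ?_
    have h2 : Tendsto (fun L : ℝ => L * (L - 8)) atTop atTop :=
      tendsto_id.atTop_mul_atTop₀ (tendsto_atTop_add_const_right _ (-8) tendsto_id)
    refine (tendsto_neg_atTop_atBot.comp h2).congr fun L => ?_
    simp only [Function.comp]; ring
  refine (h1.comp Real.tendsto_log_atTop).congr' ?_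
  filter_upwards [eventually_gt_atTop 0] with T hT
  simp only [Function.comp]
  rw [sub_eq_add_neg, Real.exp_add]
  congr 1
  rw [show 8 * Real.log T = Real.log (T ^ 8) by rw [Real.log_pow]; norm_num,
    Real.exp_log (by positivity)]

/-- **M04b.** -/
theorem mean_DD {W₁ W₂ : ℝ → ℝ} (h₁ : WF W₁) (h₂ : WF W₂) :
    HasMean (fun T t => DW W₁ T t * conj (DW W₂ T t))
      ((A3 * ∫ s in (0 : ℝ)..1, W₁ s * W₂ s * (s ^ 8 / Nat.factorial 8) : ℝ) : ℂ) := by
  obtain ⟨C₁, hC₁, hs₁⟩ := dc_sum h₁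
  obtain ⟨C₂, hC₂, hs₂⟩ := dc_sum h₂
  refine ⟨?_, ?_, ?_⟩
  · intro T
    exact (DW_cont W₁ T).mul (Complex.continuous_conj.comp (DW_cont W₂ T))
  · refine ⟨C₁ * C₂, 8, by positivity, ?_⟩
    intro T hT t
    have e1 := (M04b_norm_le W₁ T t).trans (hs₁ T (by linarith only [hT]))
    have e2 := (M04b_norm_le W₂ T t).trans (hs₂ T (by linarith only [hT]))
    have hT0 : 0 < T := by linarith only [hT]
    have ht : 1 ≤ (1 + |t|) ^ 8 := one_le_pow₀ (by linarith only [abs_nonneg t])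
    rw [norm_mul, Complex.norm_conj]
    calc ‖DW W₁ T t‖ * ‖DW W₂ T t‖ ≤ (C₁ * T ^ 4) * (C₂ * T ^ 4) := by gcongr
      _ = C₁ * C₂ * T ^ 8 * 1 := by ring
      _ ≤ C₁ * C₂ * T ^ 8 * (1 + |t|) ^ 8 := by gcongr
      _ = C₁ * C₂ * (T * (1 + |t|)) ^ 8 := by rw [mul_pow]; ring
  · intro δ hδ τ hτ
    obtain ⟨ε₁, hε₁, g₁⟩ := M04b_gap h₁
    obtain ⟨ε₂, hε₂, g₂⟩ := M04b_gap h₂
    have hε : 0 < min ε₁ ε₂ := lt_min hε₁ hε₂
    have g₁' : ∀ s, W₁ s ≠ 0 → s ≤ 1 - min ε₁ ε₂ := fun s hs =>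
      (g₁ s hs).trans (by linarith only [min_le_left ε₁ ε₂])
    have g₂' : ∀ s, W₂ s ≠ 0 → s ≤ 1 - min ε₁ ε₂ := fun s hs =>
      (g₂ s hs).trans (by linarith only [min_le_right ε₁ ε₂])
    have hdiag : Tendsto (fun T : ℝ => (((∑ n ∈ Finset.Icc 1 ⌊T⌋₊, dc W₁ T n * dc W₂ T n) /
        Real.log T ^ 9 : ℝ) : ℂ)) atTop
        (𝓝 ((A3 * ∫ s in (0 : ℝ)..1, W₁ s * W₂ s * (s ^ 8 / Nat.factorial 8) : ℝ) : ℂ)) :=
      (Complex.continuous_ofReal.tendsto _).comp (diag_lim h₁ h₂)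
    have hoff : Tendsto (fun T : ℝ =>
        (∫ t : ℝ, DW W₁ T t * conj (DW W₂ T t) * ((win T (τ T) t : ℝ) : ℂ)) / ((NN T : ℝ) : ℂ) -
        (((∑ n ∈ Finset.Icc 1 ⌊T⌋₊, dc W₁ T n * dc W₂ T n) / Real.log T ^ 9 : ℝ) : ℂ)) atTop
        (𝓝 0) := by
      have h3 := M04b_exp8.const_mul (C₁ * C₂)
      rw [mul_zero] at h3
      refine squeeze_zero_norm' ?_ h3
      filter_upwards [eventually_rpow_ge hε, eventually_ge_atTop (Real.exp 1),
        eventually_gt_atTop 1] with T hTε hTe hT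
      have hL : 1 ≤ Real.log T := by
        rw [← Real.log_exp 1]
        exact Real.log_le_log (Real.exp_pos _) hTe
      have hH := HH_pos hT
      have hpi : 0 < √π := Real.sqrt_pos.2 Real.pi_pos
      have hT1 : (1:ℝ) ≤ T := hT.le
      have e1 : (∫ t : ℝ, DW W₁ T t * conj (DW W₂ T t) * ((win T (τ T) t : ℝ) : ℂ)) /
          ((NN T : ℝ) : ℂ) -
          (((∑ n ∈ Finset.Icc 1 ⌊T⌋₊, dc W₁ T n * dc W₂ T n) / Real.log T ^ 9 : ℝ) : ℂ) =
          (((Real.log T ^ 9)⁻¹ : ℝ) : ℂ) * ∑ x ∈ Finset.Icc 1 ⌊T⌋₊, ∑ y ∈ Finset.Icc 1 ⌊T⌋₊,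
            (((dc W₁ T x * dc W₂ T y : ℝ) : ℂ) *
              ((Real.exp (-(HH T * (Real.log y - Real.log x) / 2) ^ 2) : ℝ) *
                cexp (((τ T * (Real.log y - Real.log x) : ℝ) : ℂ) * I)) -
              (if x = y then ((dc W₁ T x * dc W₂ T y : ℝ) : ℂ) else 0)) := by
        rw [M04b_expand W₁ W₂ hT]
        simp only [Finset.sum_sub_distrib]
        have e2 : ∑ x ∈ Finset.Icc 1 ⌊T⌋₊, ∑ y ∈ Finset.Icc 1 ⌊T⌋₊,
            (if x = y then ((dc W₁ T x * dc W₂ T y : ℝ) : ℂ) else 0) =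
            ((∑ n ∈ Finset.Icc 1 ⌊T⌋₊, dc W₁ T n * dc W₂ T n : ℝ) : ℂ) := by
          push_cast
          refine Finset.sum_congr rfl fun x hx => ?_
          rw [Finset.sum_ite_eq, if_pos hx]
        rw [e2, mul_sub]
        congr 1
        · rw [Finset.sum_div, Finset.mul_sum]
          refine Finset.sum_congr rfl fun x _ => ?_
          rw [Finset.sum_div, Finset.mul_sum]
          refine Finset.sum_congr rfl fun y _ => ?_
          unfold NN
          have n1 : ((HH T : ℝ) : ℂ) ≠ 0 := by exact_mod_cast hH.ne'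
          have n2 : ((√π : ℝ) : ℂ) ≠ 0 := by exact_mod_cast hpi.ne'
          have n3 : ((Real.log T : ℝ) : ℂ) ≠ 0 := by
            exact_mod_cast (show (0:ℝ) < Real.log T by linarith only [hL]).ne'
          push_cast
          field_simp
        · push_cast
          rw [div_eq_mul_inv, mul_comm]
      rw [e1, norm_mul, Complex.norm_real, Real.norm_eq_abs, abs_of_nonneg (by positivity)]
      have h4 : (Real.log T ^ 9)⁻¹ ≤ 1 := inv_le_one_of_one_le₀ (one_le_pow₀ hL)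
      have h5 : ‖∑ x ∈ Finset.Icc 1 ⌊T⌋₊, ∑ y ∈ Finset.Icc 1 ⌊T⌋₊,
            (((dc W₁ T x * dc W₂ T y : ℝ) : ℂ) *
              ((Real.exp (-(HH T * (Real.log y - Real.log x) / 2) ^ 2) : ℝ) *
                cexp (((τ T * (Real.log y - Real.log x) : ℝ) : ℂ) * I)) -
              (if x = y then ((dc W₁ T x * dc W₂ T y : ℝ) : ℂ) else 0))‖ ≤
          (C₁ * T ^ 4) * (C₂ * T ^ 4) * Real.exp (-(Real.log T) ^ 2) := by
        calc _ ≤ ∑ x ∈ Finset.Icc 1 ⌊T⌋₊, ∑ y ∈ Finset.Icc 1 ⌊T⌋₊,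
            |dc W₁ T x| * |dc W₂ T y| * Real.exp (-(Real.log T) ^ 2) := by
              refine (norm_sum_le _ _).trans (Finset.sum_le_sum fun x hx => ?_)
              refine (norm_sum_le _ _).trans (Finset.sum_le_sum fun y hy => ?_)
              exact M04b_off g₁' g₂' hT hTε (τ T) (Finset.mem_Icc.1 hx).1
                (Finset.mem_Icc.1 hy).1
          _ = (∑ x ∈ Finset.Icc 1 ⌊T⌋₊, |dc W₁ T x|) * (∑ y ∈ Finset.Icc 1 ⌊T⌋₊, |dc W₂ T y|) *
              Real.exp (-(Real.log T) ^ 2) := by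
              rw [Finset.sum_mul_sum, Finset.sum_mul]
              refine Finset.sum_congr rfl fun x _ => ?_
              rw [Finset.sum_mul]
          _ ≤ _ := by
              have := hs₁ T hT1
              have := hs₂ T hT1
              have q2 : 0 ≤ ∑ y ∈ Finset.Icc 1 ⌊T⌋₊, |dc W₂ T y| :=
                Finset.sum_nonneg fun _ _ => abs_nonneg _
              gcongr
      calc (Real.log T ^ 9)⁻¹ * _ ≤ 1 * _ := mul_le_mul_of_nonneg_right h4 (norm_nonneg _)
        _ ≤ (C₁ * T ^ 4) * (C₂ * T ^ 4) * Real.exp (-(Real.log T) ^ 2) := by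
            rw [one_mul]; exact h5
        _ = C₁ * C₂ * (T ^ 8 * Real.exp (-(Real.log T) ^ 2)) := by ring
    have h5 := hoff.add hdiag
    rw [zero_add] at h5
    exact h5.congr fun T => sub_add_cancel _ _

end K3

end

section

namespace K3
open Complex MeasureTheory Filter Topology Set S6
open scoped Real ComplexConjugate

/-- the entire part of the integrand -/
private noncomputable def m05a_F (T τ : ℝ) (n : ℕ) (s : ℂ) : ℂ :=
  riemannZeta₁ s ^ 3 * ((n : ℂ) ^ (s - 1 / 2) * VV T τ s)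

private lemma m05a_diff (T τ : ℝ) {n : ℕ} (hn : 1 ≤ n) (s : ℂ) :
    DifferentiableAt ℂ (m05a_F T τ n) s := by
  have h1 : DifferentiableAt ℂ (fun s : ℂ => riemannZeta₁ s ^ 3) s :=
    (differentiable_riemannZeta₁ s).pow 3
  have h2 : (n : ℂ) ≠ 0 := by
    have : n ≠ 0 := by omega
    exact_mod_cast this
  have h3 : DifferentiableAt ℂ (fun s : ℂ => (n : ℂ) ^ (s - 1 / 2)) s :=
    (differentiableAt_id.sub_const _).const_cpow (Or.inl h2)
  have h4 : DifferentiableAt ℂ (fun s : ℂ => VV T τ s) s := by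
    unfold VV
    fun_prop
  exact h1.mul (h3.mul h4)

private lemma m05a_norm_pow {n : ℕ} (hn : 1 ≤ n) (s : ℂ) :
    ‖(n : ℂ) ^ (s - 1 / 2)‖ = (n : ℝ) ^ (s.re - 1 / 2) := by
  have hn0 : (0 : ℝ) < n := by exact_mod_cast hn
  have h := Complex.norm_cpow_eq_rpow_re_of_pos hn0 (s - 1 / 2)
  have h2 : (s - 1 / 2 : ℂ).re = s.re - 1 / 2 := by simp
  rw [h2] at h
  exact_mod_cast h

private lemma m05a_bdd {T : ℝ} (hT : 1 < T) (τ : ℝ) {n : ℕ} (hn : 1 ≤ n) :
    ∃ C : ℝ, ∀ s : ℂ, 1 / 2 ≤ s.re → s.re ≤ 2 → ‖m05a_F T τ n s‖ ≤ C := by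
  obtain ⟨C1, hC10, hC1⟩ := r3_zeta1_le
  have hlog : 0 < Real.log T := Real.log_pos hT
  have hH : 0 < HH T := div_pos (by linarith only [hT]) hlog
  have hn1 : (1 : ℝ) ≤ n := by exact_mod_cast hn
  set H := HH T with hHdef
  refine ⟨C1 ^ 3 * ((n : ℝ) ^ (2 : ℝ) * Real.exp (4 / H ^ 2 + 3 * |τ| + 9 * H ^ 2)), ?_⟩
  intro s h1 h2
  unfold m05a_F
  rw [norm_mul, norm_mul, norm_pow, m05a_norm_pow hn]
  have hr' : (n : ℝ) ^ (s.re - 1 / 2) ≤ (n : ℝ) ^ (2 : ℝ) :=
    Real.rpow_le_rpow_of_exponent_le hn1 (by linarith only [h2])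
  have e1 : ‖riemannZeta₁ s‖ ^ 3 ≤ (C1 * Real.exp |s.im|) ^ 3 :=
    pow_le_pow_left₀ (norm_nonneg _) (hC1 s h1 h2) 3
  have hVV : ‖VV T τ s‖ ≤ Real.exp (4 / H ^ 2 - (s.im - τ) ^ 2 / H ^ 2) := by
    rw [r3_norm_VV]
    apply Real.exp_le_exp.2
    rw [sub_div]
    have : (s.re - 1 / 2) ^ 2 ≤ 4 := by nlinarith only [h2, h1]
    gcongr
  have key : Real.exp |s.im| ^ 3 *
      Real.exp (4 / H ^ 2 - (s.im - τ) ^ 2 / H ^ 2) ≤
      Real.exp (4 / H ^ 2 + 3 * |τ| + 9 * H ^ 2) := by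
    rw [← Real.exp_nat_mul, ← Real.exp_add]
    apply Real.exp_le_exp.2
    push_cast
    have ht : |s.im| ≤ |s.im - τ| + |τ| := by
      have := abs_add_le (s.im - τ) τ
      simpa using this
    set u := |s.im - τ| with hu
    have hu2 : (s.im - τ) ^ 2 = u ^ 2 := (sq_abs _).symm
    rw [hu2]
    have hq : 3 * u ≤ u ^ 2 / H ^ 2 + 9 * H ^ 2 := by
      have : u ^ 2 / H ^ 2 + 9 * H ^ 2 - 3 * u = (u / H - 3 / 2 * H) ^ 2 + (27 / 4) * H ^ 2 := by
        field_simp
        ring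
      linarith only [sq_nonneg (u / H - 3 / 2 * H), sq_nonneg H, this]
    linarith only [ht, hq]
  calc ‖riemannZeta₁ s‖ ^ 3 * ((n : ℝ) ^ (s.re - 1 / 2) * ‖VV T τ s‖)
      ≤ (C1 * Real.exp |s.im|) ^ 3 *
        ((n : ℝ) ^ (2 : ℝ) * Real.exp (4 / H ^ 2 - (s.im - τ) ^ 2 / H ^ 2)) := by
        gcongr
    _ = C1 ^ 3 * ((n : ℝ) ^ (2 : ℝ) * (Real.exp |s.im| ^ 3 *
        Real.exp (4 / H ^ 2 - (s.im - τ) ^ 2 / H ^ 2))) := by ring
    _ ≤ _ := by gcongr

/-- the residue: `‖F''(1)‖` is tiny -/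
private lemma m05a_res {δ : ℝ} (hδ : 0 < δ) : ∃ K : ℝ, 0 < K ∧ ∀ T : ℝ, 1 < T → δ⁻¹ ≤ T →
    ∀ τ, δ * T ≤ τ → ∀ n : ℕ, 1 ≤ n → (n : ℝ) ≤ T →
    ‖iteratedDeriv 2 (m05a_F T τ n) 1‖ ≤
      K * (T ^ (3 : ℝ) * Real.exp (-(δ ^ 2 / 4) * Real.log T ^ 2)) := by
  have hc : ContinuousOn (fun s : ℂ => riemannZeta₁ s ^ 3) (Metric.closedBall (1 : ℂ) (1 / 2)) := by
    intro s hs
    exact ((differentiable_riemannZeta₁ s).pow 3).continuousAt.continuousWithinAt
  obtain ⟨K, hK⟩ := (isCompact_closedBall (1 : ℂ) (1 / 2)).exists_bound_of_continuousOn hc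
  have hK0 : 0 ≤ K := (norm_nonneg _).trans (hK 1 (by simp))
  refine ⟨8 * ((K + 1) * Real.exp 1), by positivity, ?_⟩
  intro T hT hTδ τ hτ n hn hnT
  have hT0 : 0 < T := by linarith only [hT]
  have hlog : 0 < Real.log T := Real.log_pos hT
  have hH : 0 < HH T := div_pos hT0 hlog
  have hn1 : (1 : ℝ) ≤ n := by exact_mod_cast hn
  set E := T ^ (3 : ℝ) * Real.exp (-(δ ^ 2 / 4) * Real.log T ^ 2) with hE
  have hsph : ∀ z ∈ Metric.sphere (1 : ℂ) (1 / 2), ‖m05a_F T τ n z‖ ≤ (K + 1) * Real.exp 1 * E := by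
    intro z hz
    have hz1 : ‖z - 1‖ = 1 / 2 := by simpa [dist_eq_norm] using hz
    have h2 := (Complex.abs_re_le_norm (z - 1)).trans hz1.le
    have h3 := (Complex.abs_im_le_norm (z - 1)).trans hz1.le
    rw [abs_le] at h2 h3
    simp at h2 h3
    unfold m05a_F
    rw [norm_mul, norm_mul, m05a_norm_pow hn]
    have hr' : (n : ℝ) ^ (z.re - 1 / 2) ≤ T ^ (3 : ℝ) := by
      calc (n : ℝ) ^ (z.re - 1 / 2) ≤ (n : ℝ) ^ (3 : ℝ) :=
            Real.rpow_le_rpow_of_exponent_le hn1 (by linarith only [h2])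
        _ ≤ T ^ (3 : ℝ) := Real.rpow_le_rpow (by positivity) hnT (by norm_num)
    have hV : ‖VV T τ z‖ ≤ Real.exp 1 * Real.exp (-(δ ^ 2 / 4) * Real.log T ^ 2) := by
      rw [r3_norm_VV, ← Real.exp_add]
      apply Real.exp_le_exp.2
      have hHH : HH T = T / Real.log T := rfl
      rw [hHH, div_pow, div_div_eq_mul_div, div_le_iff₀ (by positivity)]
      have hl : Real.log T ≤ T := (Real.log_le_sub_one_of_pos hT0).trans (by linarith only [])
      have hl2 : Real.log T ^ 2 ≤ T ^ 2 := pow_le_pow_left₀ hlog.le hl 2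
      have hd : 1 ≤ δ * T := by
        rw [inv_le_iff_one_le_mul₀ hδ] at hTδ
        linarith only [hTδ]
      have h8 : δ * T / 2 ≤ τ - z.im := by linarith only [hτ, h3, hd]
      have h9 : (δ * T / 2) ^ 2 ≤ (z.im - τ) ^ 2 := by
        have : (z.im - τ) ^ 2 = (τ - z.im) ^ 2 := by ring
        rw [this]
        exact pow_le_pow_left₀ (by positivity) h8 2
      have h10 : (z.re - 1 / 2) ^ 2 ≤ 1 := by nlinarith only [h2]
      nlinarith only [sq_nonneg (Real.log T), hl2, h9, h10]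
    have hA : ‖riemannZeta₁ z ^ 3‖ ≤ K + 1 := by
      have := hK z (Metric.sphere_subset_closedBall hz)
      linarith only [this]
    calc ‖riemannZeta₁ z ^ 3‖ * ((n : ℝ) ^ (z.re - 1 / 2) * ‖VV T τ z‖)
        ≤ (K + 1) * (T ^ (3 : ℝ) * (Real.exp 1 * Real.exp (-(δ ^ 2 / 4) * Real.log T ^ 2))) := by
          gcongr
      _ = (K + 1) * Real.exp 1 * E := by rw [hE]; ring
  have hcont : DiffContOnCl ℂ (m05a_F T τ n) (Metric.ball (1 : ℂ) (1 / 2)) := by
    apply DifferentiableOn.diffContOnCl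
    intro s _
    exact (m05a_diff T τ hn s).differentiableWithinAt
  have hfin := Complex.norm_iteratedDeriv_le_of_forall_mem_sphere_norm_le 2 (by norm_num) hcont hsph
  refine hfin.trans (le_of_eq ?_)
  norm_num [Nat.factorial]
  ring

/-- **M05a.** `F(s) = ζ(s)³ n^{s-1/2} VV T τ s`: shift from `Re s = 1/2` to `Re s = 2` exactly as in
`S6.zeta3_shift` (drop the factor `Xm`, `r = 1/n`; pole of order 3 at `1`, `vshift3`, residue tiny). -/
theorem z3_shift {δ : ℝ} (hδ : 0 < δ) (A : ℝ) : ∃ T₀ : ℝ, ∀ T ≥ T₀, ∀ τ, δ * T ≤ τ → τ ≤ T →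
    ∀ n : ℕ, 1 ≤ n → (n : ℝ) ≤ T →
    ‖(∫ t : ℝ, ze t ^ 3 * cexp (((t * Real.log n : ℝ) : ℂ) * I) * ((win T τ t : ℝ) : ℂ)) -
      ∫ t : ℝ, riemannZeta (2 + t * I) ^ 3 * (n : ℂ) ^ (3 / 2 + t * I : ℂ) * VV T τ (2 + t * I)‖ ≤
      T ^ (-A) := by
  obtain ⟨K, hK0, hK⟩ := m05a_res hδ
  set B : ℝ := |Real.log (π * K)| + |3 + A| with hB
  have hB0 : 0 ≤ B := by positivity
  set L₀ : ℝ := max 1 (4 / δ ^ 2 * B) with hL₀
  refine ⟨max (Real.exp L₀) δ⁻¹, ?_⟩
  intro T hT τ hτ hτT n hn hnT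
  have hT1 : Real.exp L₀ ≤ T := (le_max_left _ _).trans hT
  have hT2 : δ⁻¹ ≤ T := (le_max_right _ _).trans hT
  have hL1 : (1 : ℝ) ≤ L₀ := le_max_left _ _
  have hTgt : 1 < T := by
    have := Real.add_one_le_exp L₀
    linarith only [hT1, hL1, this]
  have hT0 : 0 < T := by linarith only [hTgt]
  have hLT : L₀ ≤ Real.log T := by
    rw [Real.le_log_iff_exp_le hT0]
    exact hT1
  have hn0 : (n : ℂ) ≠ 0 := by
    have : n ≠ 0 := by omega
    exact_mod_cast this
  have hres := hK T hTgt hT2 τ hτ n hn hnT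
  obtain ⟨C, hC⟩ := m05a_bdd hTgt τ hn
  have hsh := vshift3 (a := 1 / 2) (b := 2) (by norm_num) (by norm_num) (F := m05a_F T τ n)
    (fun s h1 _ => m05a_diff T τ hn s) (C := C) hC
  have hval : ∀ s : ℂ, s ≠ 1 → m05a_F T τ n s / (s - 1) ^ 3 =
      riemannZeta s ^ 3 * (n : ℂ) ^ (s - 1 / 2) * VV T τ s := by
    intro s hs
    have hne : s - 1 ≠ 0 := sub_ne_zero.2 hs
    unfold m05a_F
    rw [riemannZeta_eq_inv_sub_mul hs]
    field_simp
  have e1 : (∫ t : ℝ, ze t ^ 3 * cexp (((t * Real.log n : ℝ) : ℂ) * I) * ((win T τ t : ℝ) : ℂ)) =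
      ∫ y : ℝ, m05a_F T τ n (((1 / 2 : ℝ) : ℂ) + y * I) / (((1 / 2 : ℝ) : ℂ) + y * I - 1) ^ 3 := by
    congr 1
    ext t
    have hne : (((1 / 2 : ℝ) : ℂ) + t * I) ≠ 1 := by
      intro h
      have := congrArg Complex.re h
      norm_num at this
    rw [hval _ hne]
    have h' : (((1 / 2 : ℝ) : ℂ) + t * I) = 1 / 2 + t * I := by push_cast; ring
    rw [h', r3_VV_half]
    have h'' : (n : ℂ) ^ (1 / 2 + t * I - 1 / 2 : ℂ) = cexp (((t * Real.log n : ℝ) : ℂ) * I) := by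
      rw [Complex.cpow_def_of_ne_zero hn0, ← Complex.natCast_log]
      congr 1
      push_cast
      ring
    rw [h'']
    rfl
  have e2 : (∫ t : ℝ, riemannZeta (2 + t * I) ^ 3 * (n : ℂ) ^ (3 / 2 + t * I : ℂ) *
        VV T τ (2 + t * I)) =
      ∫ y : ℝ, m05a_F T τ n (((2 : ℝ) : ℂ) + y * I) / (((2 : ℝ) : ℂ) + y * I - 1) ^ 3 := by
    congr 1
    ext t
    have hne : (((2 : ℝ) : ℂ) + t * I) ≠ 1 := by
      intro h
      have := congrArg Complex.re h
      simp at this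
    rw [hval _ hne]
    have h' : (((2 : ℝ) : ℂ) + t * I) = 2 + t * I := by push_cast; ring
    rw [h']
    have h'' : (2 + t * I - 1 / 2 : ℂ) = 3 / 2 + t * I := by ring
    rw [h'']
  rw [e1, e2, norm_sub_rev, hsh, norm_mul]
  have hpi : ‖(π : ℂ)‖ = π := by
    rw [Complex.norm_real, Real.norm_eq_abs, abs_of_pos Real.pi_pos]
  rw [hpi]
  calc π * ‖iteratedDeriv 2 (m05a_F T τ n) 1‖
      ≤ π * (K * (T ^ (3 : ℝ) * Real.exp (-(δ ^ 2 / 4) * Real.log T ^ 2))) := by gcongr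
    _ = Real.exp (Real.log (π * K) + 3 * Real.log T + -(δ ^ 2 / 4) * Real.log T ^ 2) := by
        rw [Real.exp_add, Real.exp_add, Real.exp_log (by positivity),
          Real.rpow_def_of_pos hT0, mul_comm (Real.log T) 3]
        ring
    _ ≤ Real.exp (-A * Real.log T) := by
        apply Real.exp_le_exp.2
        have h1 : Real.log (π * K) ≤ |Real.log (π * K)| * Real.log T := by
          have ha := le_abs_self (Real.log (π * K))
          have hb := abs_nonneg (Real.log (π * K))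
          nlinarith only [ha, hL1, hb, hLT]
        have hl0 : 0 ≤ Real.log T := by linarith only [hL1, hLT]
        have h2 : (3 + A) * Real.log T ≤ |3 + A| * Real.log T :=
          mul_le_mul_of_nonneg_right (le_abs_self _) hl0
        have h3 : 4 / δ ^ 2 * B ≤ Real.log T := (le_max_right _ _).trans hLT
        have h4 : B ≤ δ ^ 2 / 4 * Real.log T := by
          have : B = δ ^ 2 / 4 * (4 / δ ^ 2 * B) := by field_simp
          rw [this]
          gcongr
        have h5 : B * Real.log T ≤ δ ^ 2 / 4 * Real.log T * Real.log T :=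
          mul_le_mul_of_nonneg_right h4 hl0
        have h6 : B * Real.log T = |Real.log (π * K)| * Real.log T + |3 + A| * Real.log T := by
          rw [hB]; ring
        linarith only [h1, h2, h5]
    _ = T ^ (-A) := by
        rw [Real.rpow_def_of_pos hT0]
        ring_nf

end K3

end

section

namespace K3
open Complex MeasureTheory Filter Topology Set S6
open scoped Real ComplexConjugate

private lemma m05b_bdd {T : ℝ} (hT : 1 < T) (τ α : ℝ) : ∃ C : ℝ, ∀ s : ℂ, 1 / 2 ≤ s.re → s.re ≤ 2 →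
    ‖cexp ((s - 1 / 2) * α) * VV T τ s‖ ≤ C / (1 + |s.im|) ^ 2 := by
  have hH : 0 < HH T := HH_pos hT
  set H := HH T with hHdef
  refine ⟨2 * Real.exp (2 * |α| + 4 / H ^ 2 + (1 + |τ| + H ^ 2)), ?_⟩
  intro s h1 h2
  rw [le_div_iff₀ (by positivity), norm_mul, Complex.norm_exp, r3_norm_VV]
  have hre : ((s - 1 / 2) * (α : ℂ)).re = (s.re - 1 / 2) * α := by
    simp
  rw [hre, ← Real.exp_add, ← hHdef]
  have ht : |s.im| ≤ |s.im - τ| + |τ| := by
    have := abs_add_le (s.im - τ) τ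
    simpa using this
  set u := |s.im - τ| with hu
  have hu2 : (s.im - τ) ^ 2 = u ^ 2 := (sq_abs _).symm
  have hu0 : 0 ≤ u := abs_nonneg _
  rw [hu2]
  have h3 : (1 + |s.im|) ^ 2 ≤ 2 * Real.exp (1 + |τ| + u) := by
    have hx : 0 ≤ 1 + |τ| + u := by positivity
    have := Real.quadratic_le_exp_of_nonneg hx
    have h4 : (1 + |s.im|) ^ 2 ≤ (1 + |τ| + u) ^ 2 := by
      apply pow_le_pow_left₀ (by positivity)
      linarith only [ht]
    linarith only [hx, this, h4]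
  have h5 : (s.re - 1 / 2) * α ≤ 2 * |α| := by
    have := le_abs_self α
    have := abs_nonneg α
    have h6 : (s.re - 1 / 2) * α ≤ (s.re - 1 / 2) * |α| :=
      mul_le_mul_of_nonneg_left (le_abs_self α) (by linarith only [h1])
    nlinarith only [this, h6, h2]
  have h7 : ((s.re - 1 / 2) ^ 2 - u ^ 2) / H ^ 2 ≤ 4 / H ^ 2 - u ^ 2 / H ^ 2 := by
    rw [sub_div]
    have : (s.re - 1 / 2) ^ 2 ≤ 4 := by nlinarith only [h2, h1]
    gcongr
  have hq : u ≤ u ^ 2 / H ^ 2 + H ^ 2 := by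
    have : u ^ 2 / H ^ 2 + H ^ 2 - u = (u / H - 1 / 2 * H) ^ 2 + (3 / 4) * H ^ 2 := by
      field_simp
      ring
    linarith only [sq_nonneg (u / H - 1 / 2 * H), sq_nonneg H, this]
  calc Real.exp ((s.re - 1 / 2) * α + ((s.re - 1 / 2) ^ 2 - u ^ 2) / H ^ 2) * (1 + |s.im|) ^ 2
      ≤ Real.exp (2 * |α| + (4 / H ^ 2 - u ^ 2 / H ^ 2)) * (2 * Real.exp (1 + |τ| + u)) := by
        gcongr
    _ = 2 * Real.exp (2 * |α| + (4 / H ^ 2 - u ^ 2 / H ^ 2) + (1 + |τ| + u)) := by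
        rw [Real.exp_add _ (1 + |τ| + u)]; ring
    _ ≤ _ := mul_le_mul_of_nonneg_left (Real.exp_le_exp.2 (by linarith only [hq])) (by norm_num)

private lemma m05b_diff (T τ α : ℝ) (s : ℂ) :
    DifferentiableAt ℂ (fun s : ℂ => cexp ((s - 1 / 2) * α) * VV T τ s) s := by
  unfold VV
  fun_prop

private lemma m05b_shift {T : ℝ} (hT : 1 < T) (τ α : ℝ) :
    ∫ t : ℝ, cexp ((3 / 2 + t * I : ℂ) * α) * VV T τ (2 + t * I) =
      (HH T * √π * Real.exp (-(HH T * α / 2) ^ 2) : ℝ) * cexp (((τ * α : ℝ) : ℂ) * I) := by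
  obtain ⟨C, hC⟩ := m05b_bdd hT τ α
  have h := vshift0 (a := 1 / 2) (b := 2) (by norm_num)
    (F := fun s : ℂ => cexp ((s - 1 / 2) * α) * VV T τ s) (fun s _ _ => m05b_diff T τ α s) hC
  rw [← win_fourier hT τ α]
  refine Eq.trans ?_ (h.symm.trans ?_)
  · refine integral_congr_ae (Filter.Eventually.of_forall fun t => ?_)
    simp only
    congr 2
    · congr 1
      push_cast
      ring
  · refine integral_congr_ae (Filter.Eventually.of_forall fun t => ?_)
    simp only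
    have h' : (((1 / 2 : ℝ) : ℂ) + t * I) = 1 / 2 + t * I := by push_cast; ring
    rw [h', r3_VV_half]
    congr 2
    push_cast
    ring

private lemma m05b_int {T : ℝ} (hT : 1 < T) (τ α : ℝ) :
    Integrable fun t : ℝ => cexp ((3 / 2 + t * I : ℂ) * α) * VV T τ (2 + t * I) := by
  obtain ⟨C, hC⟩ := m05b_bdd hT τ α
  have h := vs_int (vs_cont (a := 1 / 2) (b := 2) (x := 2) (by norm_num) le_rfl
    (F := fun s : ℂ => cexp ((s - 1 / 2) * α) * VV T τ s) (fun s _ _ => m05b_diff T τ α s)) (C := C)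
    (fun y => by
      have := hC (2 + y * I) (by simp; norm_num) (by simp)
      simpa using this)
  refine h.congr (Filter.Eventually.of_forall fun t => ?_)
  simp only
  congr 2
  · congr 1
    push_cast
    ring

private lemma m05b_term {n m : ℕ} (hn : 1 ≤ n) (t : ℝ) :
    MP069854.npow m (2 + t * I) * (n : ℂ) ^ (3 / 2 + t * I : ℂ) =
      (Real.exp (-(1 / 2 * Real.log m)) : ℝ) *
        cexp ((3 / 2 + t * I : ℂ) * ((Real.log n - Real.log m : ℝ) : ℂ)) := by
  have hn0 : (n : ℂ) ≠ 0 := by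
    have : n ≠ 0 := by omega
    exact_mod_cast this
  unfold MP069854.npow
  rw [cpow_def_of_ne_zero hn0, ← Complex.exp_add, Complex.ofReal_exp, ← Complex.exp_add]
  congr 1
  rw [← Complex.natCast_log]
  push_cast
  ring

theorem z3_series {T : ℝ} (hT : Real.exp 1 ≤ T) (τ : ℝ) {n : ℕ} (hn : 1 ≤ n) :
    (Summable fun m : ℕ => (MP069854.dk 3 m : ℝ) * (√(m : ℝ))⁻¹ *
      Real.exp (-(HH T * (Real.log n - Real.log m) / 2) ^ 2)) ∧
    ∫ t : ℝ, riemannZeta (2 + t * I) ^ 3 * (n : ℂ) ^ (3 / 2 + t * I : ℂ) * VV T τ (2 + t * I) =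
      ∑' m : ℕ, (((MP069854.dk 3 m : ℝ) * (√(m : ℝ))⁻¹ *
        (HH T * √π * Real.exp (-(HH T * (Real.log n - Real.log m) / 2) ^ 2)) : ℝ) : ℂ) *
        cexp (((τ * (Real.log n - Real.log m) : ℝ) : ℂ) * I) := by
  have hT1 : 1 < T := by
    have := Real.add_one_le_exp (1 : ℝ)
    linarith only [hT, this]
  have hH : 0 < HH T := HH_pos hT1
  -- the terms
  set f : ℕ → ℝ → ℂ := fun m t => (MP069854.dk 3 m : ℂ) * MP069854.npow m (2 + t * I) *
    ((n : ℂ) ^ (3 / 2 + t * I : ℂ) * VV T τ (2 + t * I)) with hf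
  have hfeq : ∀ m t, f m t = ((MP069854.dk 3 m : ℂ) * (Real.exp (-(1 / 2 * Real.log m)) : ℝ)) *
      (cexp ((3 / 2 + t * I : ℂ) * ((Real.log n - Real.log m : ℝ) : ℂ)) *
        VV T τ (2 + t * I)) := by
    intro m t
    have := m05b_term (n := n) (m := m) hn t
    simp only [hf]
    calc (MP069854.dk 3 m : ℂ) * MP069854.npow m (2 + t * I) *
          ((n : ℂ) ^ (3 / 2 + t * I : ℂ) * VV T τ (2 + t * I))
        = (MP069854.dk 3 m : ℂ) * (MP069854.npow m (2 + t * I) * (n : ℂ) ^ (3 / 2 + t * I : ℂ)) *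
          VV T τ (2 + t * I) := by ring
      _ = _ := by rw [this]; ring
  have hint : ∀ m, Integrable (f m) := by
    intro m
    have h := (m05b_int hT1 τ (Real.log n - Real.log m)).const_mul
      ((MP069854.dk 3 m : ℂ) * (Real.exp (-(1 / 2 * Real.log m)) : ℝ))
    exact h.congr (Filter.Eventually.of_forall fun t => (hfeq m t).symm)
  have hval : ∀ m, ∫ t, f m t = (((MP069854.dk 3 m : ℝ) * (√(m : ℝ))⁻¹ *
        (HH T * √π * Real.exp (-(HH T * (Real.log n - Real.log m) / 2) ^ 2)) : ℝ) : ℂ) *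
        cexp (((τ * (Real.log n - Real.log m) : ℝ) : ℂ) * I) := by
    intro m
    have e1 : ∫ t, f m t = ((MP069854.dk 3 m : ℂ) * (Real.exp (-(1 / 2 * Real.log m)) : ℝ)) *
        ∫ t : ℝ, (cexp ((3 / 2 + t * I : ℂ) * ((Real.log n - Real.log m : ℝ) : ℂ)) *
        VV T τ (2 + t * I)) := by
      rw [← integral_const_mul]
      exact integral_congr_ae (Filter.Eventually.of_forall fun t => hfeq m t)
    rw [e1, m05b_shift hT1]
    rcases Nat.eq_zero_or_pos m with h0 | h0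
    · subst h0
      simp [MP069854.dk_zero_right]
    · have hm : (0 : ℝ) < m := by exact_mod_cast h0
      have h2 : Real.exp (-(1 / 2 * Real.log m)) = (√(m : ℝ))⁻¹ := by
        rw [Real.exp_neg, Real.sqrt_eq_rpow, Real.rpow_def_of_pos hm]
        congr 2
        ring
      rw [h2]
      push_cast
      ring
  have hnorm : ∀ m t, ‖f m t‖ = ‖(MP069854.dk 3 m : ℂ) * MP069854.npow m 2‖ *
      ‖(n : ℂ) ^ (3 / 2 + t * I : ℂ) * VV T τ (2 + t * I)‖ := by
    intro m t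
    simp only [hf]
    rw [norm_mul, MP069854.dterm_norm, MP069854.dterm_norm]
    simp
  have hsum : Summable fun m => ∫ t, ‖f m t‖ := by
    have h1 : ∀ m, ∫ t, ‖f m t‖ = ‖(MP069854.dk 3 m : ℂ) * MP069854.npow m 2‖ *
        ∫ t : ℝ, ‖(n : ℂ) ^ (3 / 2 + t * I : ℂ) * VV T τ (2 + t * I)‖ := by
      intro m
      rw [← integral_const_mul]
      exact integral_congr_ae (Filter.Eventually.of_forall fun t => hnorm m t)
    simp_rw [h1]
    exact (MP069854.dterm_summable 3 (s := 2) (by simp)).mul_right _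
  have hS := hasSum_integral_of_summable_integral_norm hint hsum
  have htot : ∀ t : ℝ, ∑' m, f m t =
      riemannZeta (2 + t * I) ^ 3 * (n : ℂ) ^ (3 / 2 + t * I : ℂ) * VV T τ (2 + t * I) := by
    intro t
    rw [MP069854.zeta_pow_eq 3 (s := 2 + t * I) (by simp), mul_assoc, ← tsum_mul_right]
  constructor
  · have h1 : Summable fun m => ‖∫ t, f m t‖ :=
      Summable.of_nonneg_of_le (fun m => norm_nonneg _)
        (fun m => norm_integral_le_integral_norm _) hsum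
    have h2 : ∀ m, ‖∫ t, f m t‖ = (HH T * √π) * ((MP069854.dk 3 m : ℝ) * (√(m : ℝ))⁻¹ *
        Real.exp (-(HH T * (Real.log n - Real.log m) / 2) ^ 2)) := by
      intro m
      rw [hval m, norm_mul, Complex.norm_exp_ofReal_mul_I, mul_one, Complex.norm_real,
        Real.norm_eq_abs, abs_of_nonneg (by positivity)]
      ring
    simp_rw [h2] at h1
    exact (summable_mul_left_iff (by positivity)).1 h1
  · rw [← integral_congr_ae (Filter.Eventually.of_forall htot), ← hS.tsum_eq]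
    exact tsum_congr hval

end K3

end

section

namespace K3
open Complex MeasureTheory Filter Topology Set S6
open scoped Real ComplexConjugate

private lemma m05c_dk (k n : ℕ) : MP069854.dk k n ≤ n ^ k := by
  induction k generalizing n with
  | zero =>
    rw [pow_zero, MP069854.dk_eq_zeta_pow, pow_zero]
    by_cases h : n = 1
    · simp [h]
    · simp [ArithmeticFunction.one_apply_ne h]
  | succ k ih =>
    rw [MP069854.dk_succ]
    calc ∑ x ∈ n.divisorsAntidiagonal, MP069854.dk k x.2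
        ≤ ∑ x ∈ n.divisorsAntidiagonal, n ^ k := by
          apply Finset.sum_le_sum
          intro x hx
          have hx2 : x.2 ≤ n := Nat.divisor_le (Nat.snd_mem_divisors_of_mem_antidiagonal hx)
          exact (ih x.2).trans (Nat.pow_le_pow_left hx2 k)
      _ = n.divisorsAntidiagonal.card * n ^ k := by rw [Finset.sum_const, smul_eq_mul]
      _ ≤ n * n ^ k := by
          apply Nat.mul_le_mul_right
          rw [← Nat.map_div_right_divisors, Finset.card_map]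
          exact Nat.card_divisors_le_self n
      _ = n ^ (k + 1) := by ring

private lemma m05c_gap {n m : ℕ} (hn : 1 ≤ n) (hm : 1 ≤ m) (h : m ≠ n) :
    1 / (2 * (n : ℝ)) ≤ |Real.log n - Real.log m| := by
  have hn0 : (0 : ℝ) < n := by exact_mod_cast hn
  have hm0 : (0 : ℝ) < m := by exact_mod_cast hm
  have hn1 : (1 : ℝ) ≤ n := by exact_mod_cast hn
  rcases lt_or_gt_of_ne h with h1 | h1
  · have h2 : (m : ℝ) + 1 ≤ n := by exact_mod_cast h1
    have h3 := Real.one_sub_inv_le_log_of_pos (show (0 : ℝ) < n / m by positivity)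
    rw [Real.log_div hn0.ne' hm0.ne', inv_div] at h3
    refine le_trans ?_ (h3.trans (le_abs_self _))
    have h4 : 1 - (m : ℝ) / n = (n - m) / n := by field_simp
    rw [h4, div_le_div_iff₀ (by positivity) hn0]
    nlinarith only [hm0, h2]
  · have h2 : (n : ℝ) + 1 ≤ m := by exact_mod_cast h1
    have h3 := Real.one_sub_inv_le_log_of_pos (show (0 : ℝ) < m / n by positivity)
    rw [Real.log_div hm0.ne' hn0.ne', inv_div] at h3
    rw [abs_sub_comm]
    refine le_trans ?_ (h3.trans (le_abs_self _))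
    have h4 : 1 - (n : ℝ) / m = (m - n) / m := by field_simp
    rw [h4, div_le_div_iff₀ (by positivity) hm0]
    linarith only [mul_nonneg (sub_nonneg.2 h2) (sub_nonneg.2 hn1), hn1, h2]

private lemma m05c_key {η : ℝ} (hη : 0 < η) (A : ℝ) :
    ∀ᶠ T : ℝ in atTop, ∀ n : ℕ, 1 ≤ n → (n : ℝ) ≤ T ^ (1 - η) → (n : ℝ) ≤ T → ∀ m : ℕ, 1 ≤ m → m ≠ n →
      (m : ℝ) ^ 5 * Real.exp (-(HH T * (Real.log n - Real.log m) / 2) ^ 2) ≤ T ^ (-A) / 2 := by
  have e1 : ∀ᶠ T : ℝ in atTop, 4 * Real.log T ^ 2 ≤ T ^ (1 : ℝ) := eventually_rpow_ge one_pos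
  have e2 : ∀ᶠ T : ℝ in atTop, 4 * Real.log T ^ 2 ≤ T ^ η := eventually_rpow_ge hη
  have e3 : ∀ᶠ T : ℝ in atTop, (20 : ℝ) ≤ T ^ η := (tendsto_rpow_atTop hη).eventually_ge_atTop 20
  have e4 : ∀ᶠ T : ℝ in atTop, (8 * |A + 5| + 8) * Real.log T ≤ T ^ η := by
    have h1 := (isLittleO_log_rpow_atTop hη)
    have h2 := h1.bound (show (0 : ℝ) < (8 * |A + 5| + 8)⁻¹ by positivity)
    filter_upwards [h2, eventually_gt_atTop 1] with T hT1 hT
    have hL := Real.log_pos hT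
    rw [Real.norm_of_nonneg hL.le, Real.norm_of_nonneg (by positivity)] at hT1
    rwa [inv_mul_eq_div, le_div_iff₀ (by positivity), mul_comm] at hT1
  have e5 : ∀ᶠ T : ℝ in atTop, (1 : ℝ) ≤ Real.log T := Real.tendsto_log_atTop.eventually_ge_atTop 1
  filter_upwards [e1, e2, e3, e4, e5, eventually_gt_atTop 1] with T h1 h2 h3 h4 h5 hT n hn hnT hnT' m hm hmn
  set L := Real.log T with hL
  have hT0 : 0 < T := by linarith only [hT]
  have hLp : 0 < L := by linarith only [h5]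
  have hn0 : (0 : ℝ) < n := by exact_mod_cast hn
  have hm0 : (0 : ℝ) < m := by exact_mod_cast hm
  set ℓ := |Real.log n - Real.log m| with hℓ
  have hgap : 1 / (2 * T ^ (1 - η)) ≤ ℓ := by
    refine le_trans ?_ (m05c_gap hn hm hmn)
    apply one_div_le_one_div_of_le (by positivity)
    linarith only [hnT]
  have hℓ0 : 0 < ℓ := lt_of_lt_of_le (by positivity) hgap
  have hsq : (HH T * (Real.log n - Real.log m) / 2) ^ 2 = (T / L) ^ 2 * ℓ ^ 2 / 4 := by
    rw [hℓ, sq_abs, show HH T = T / L from rfl]; ring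
  -- (i)
  have hP : T ^ (1 - η) * T ^ η = T := by
    rw [← Real.rpow_add hT0]; simp
  have hi : 40 ≤ (T / L) ^ 2 * ℓ := by
    have a1 : (T / L) ^ 2 * (1 / (2 * T ^ (1 - η))) ≤ (T / L) ^ 2 * ℓ :=
      mul_le_mul_of_nonneg_left hgap (by positivity)
    refine le_trans ?_ a1
    have a2 : (T / L) ^ 2 * (1 / (2 * T ^ (1 - η))) = T * T ^ η / (2 * L ^ 2) := by
      have hne : T ^ (1 - η) ≠ 0 := by positivity
      rw [div_pow, div_mul_div_comm, mul_one, div_eq_div_iff (by positivity) (by positivity)]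
      nth_rewrite 1 [← hP]
      rw [show (T ^ (1 - η) * T ^ η) ^ 2 * (2 * L ^ 2) = (T ^ (1 - η) * T ^ η) * T ^ η * (L ^ 2 * (2 * T ^ (1 - η))) by ring, hP]
    rw [a2, le_div_iff₀ (by positivity)]
    rw [Real.rpow_one] at h1
    nlinarith only [h3, h1, hT]
  have hii : (8 * |A + 5| + 8) * L ≤ (T / L) ^ 2 * ℓ ^ 2 := by
    have a1 : (T / L) ^ 2 * (1 / (2 * T ^ (1 - η))) ^ 2 ≤ (T / L) ^ 2 * ℓ ^ 2 := by gcongr
    refine le_trans ?_ a1
    have a2 : (T / L) ^ 2 * (1 / (2 * T ^ (1 - η))) ^ 2 = (T ^ η) ^ 2 / (4 * L ^ 2) := by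
      have hne : T ^ (1 - η) ≠ 0 := by positivity
      rw [div_pow, div_pow, div_mul_div_comm, div_eq_div_iff (by positivity) (by positivity)]
      nth_rewrite 1 [← hP]
      ring
    rw [a2, le_div_iff₀ (by positivity)]
    have a3 : (8 * |A + 5| + 8) * L * (4 * L ^ 2) ≤ T ^ η * T ^ η :=
      mul_le_mul h4 h2 (by positivity) (by positivity)
    linarith only [a3]
  have hlogm : Real.log m ≤ L + ℓ := by
    have b1 : Real.log n ≤ L := Real.log_le_log hn0 hnT'
    have b2 : Real.log m - Real.log n ≤ ℓ := by rw [hℓ, abs_sub_comm]; exact le_abs_self _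
    linarith only [b1, b2]
  have hm5 : (m : ℝ) ^ 5 = Real.exp (5 * Real.log m) := by
    rw [show (5 : ℝ) * Real.log m = ((5 : ℕ) : ℝ) * Real.log m by norm_num, Real.exp_nat_mul,
      Real.exp_log hm0]
  have hAT : T ^ (-A) = Real.exp (-(A * L)) := by
    rw [Real.rpow_def_of_pos hT0]; congr 1; ring
  rw [hsq, hm5, ← Real.exp_add, hAT]
  have hexp : Real.exp (-1) ≤ 1 / 2 := by
    have := Real.exp_one_gt_d9
    rw [Real.exp_neg, inv_le_comm₀ (Real.exp_pos _) (by norm_num)]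
    linarith only [this]
  calc Real.exp (5 * Real.log m + -((T / L) ^ 2 * ℓ ^ 2 / 4)) ≤ Real.exp (-(A * L) + -1) := by
        apply Real.exp_le_exp.2
        have c1 : 40 * ℓ ≤ (T / L) ^ 2 * ℓ ^ 2 := by nlinarith only [hℓ0, hi]
        have c2 : A + 5 ≤ |A + 5| := le_abs_self _
        nlinarith only [h5, hii, hlogm, c1, c2]
    _ = Real.exp (-(A * L)) * Real.exp (-1) := Real.exp_add _ _
    _ ≤ Real.exp (-(A * L)) * (1 / 2) := mul_le_mul_of_nonneg_left hexp (Real.exp_pos _).le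
    _ = Real.exp (-(A * L)) / 2 := by ring

theorem z3_off {η : ℝ} (hη : 0 < η) (hη1 : η < 1) (A : ℝ) : ∃ T₀ : ℝ, ∀ T ≥ T₀, ∀ n : ℕ, 1 ≤ n →
    (n : ℝ) ≤ T ^ (1 - η) →
    ∑' m : ℕ, (if m = n then 0 else (MP069854.dk 3 m : ℝ) * (√(m : ℝ))⁻¹ *
      Real.exp (-(HH T * (Real.log n - Real.log m) / 2) ^ 2)) ≤ T ^ (-A) := by
  obtain ⟨T₀, hT₀⟩ := eventually_atTop.1 ((m05c_key hη A).and (eventually_gt_atTop 1))
  refine ⟨T₀, fun T hT n hn hnT => ?_⟩
  obtain ⟨hkey, hT1⟩ := hT₀ T hT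
  have hT0 : 0 < T := by linarith only [hη, hη1, hT1]
  have hnT' : (n : ℝ) ≤ T := by
    refine hnT.trans ?_
    calc T ^ (1 - η) ≤ T ^ (1 : ℝ) := Real.rpow_le_rpow_of_exponent_le hT1.le (by linarith only [hη])
      _ = T := Real.rpow_one T
  set f : ℕ → ℝ := fun m => (if m = n then 0 else (MP069854.dk 3 m : ℝ) * (√(m : ℝ))⁻¹ *
      Real.exp (-(HH T * (Real.log n - Real.log m) / 2) ^ 2)) with hf
  set g : ℕ → ℝ := fun m => T ^ (-A) / 2 * (1 / (m : ℝ) ^ 2) with hg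
  have hf0 : ∀ m, 0 ≤ f m := by
    intro m
    simp only [hf]
    split_ifs
    · exact le_rfl
    · positivity
  have hfg : ∀ m, f m ≤ g m := by
    intro m
    have hg0 : 0 ≤ g m := by simp only [hg]; positivity
    by_cases hmn : m = n
    · simp only [hf, if_pos hmn]; exact hg0
    rcases Nat.eq_zero_or_pos m with hm0 | hm
    · have h0 : f m = 0 := by
        simp only [hf, hm0]
        simp
      rw [h0]; exact hg0
    have hm1 : (1 : ℝ) ≤ m := by exact_mod_cast hm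
    have hmp : (0 : ℝ) < m := by linarith only [hη, hη1, hm1]
    simp only [hf, if_neg hmn, hg]
    have hd : (MP069854.dk 3 m : ℝ) ≤ (m : ℝ) ^ 3 := by exact_mod_cast m05c_dk 3 m
    have hs : (√(m : ℝ))⁻¹ ≤ 1 := inv_le_one_of_one_le₀ (by
      rw [show (1 : ℝ) = √1 by simp]; exact Real.sqrt_le_sqrt hm1)
    have hk := hkey n hn hnT hnT' m hm hmn
    set E := Real.exp (-(HH T * (Real.log n - Real.log m) / 2) ^ 2) with hE
    have hE0 : 0 < E := Real.exp_pos _
    calc (MP069854.dk 3 m : ℝ) * (√(m : ℝ))⁻¹ * E ≤ (m : ℝ) ^ 3 * 1 * E := by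
          gcongr
      _ = ((m : ℝ) ^ 5 * E) * (1 / (m : ℝ) ^ 2) := by field_simp
      _ ≤ T ^ (-A) / 2 * (1 / (m : ℝ) ^ 2) := by gcongr
  have hgs : HasSum g (T ^ (-A) / 2 * (π ^ 2 / 6)) := hasSum_zeta_two.mul_left _
  have hfs : Summable f := Summable.of_nonneg_of_le hf0 hfg hgs.summable
  calc ∑' m, f m ≤ ∑' m, g m := hfs.tsum_le_tsum hfg hgs.summable
    _ = T ^ (-A) / 2 * (π ^ 2 / 6) := hgs.tsum_eq
    _ ≤ T ^ (-A) / 2 * 2 := by
        gcongr
        have := Real.pi_lt_d2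
        have := Real.pi_pos
        nlinarith
    _ = T ^ (-A) := by ring

end K3

end

section

namespace K3
open Complex MeasureTheory Filter Topology Set S6
open scoped Real ComplexConjugate

private theorem M05d_HH {T : ℝ} (hT : 1 < T) : 0 < HH T :=
  div_pos (by linarith only [hT]) (Real.log_pos hT)

private theorem M05d_win_cont (T τ : ℝ) : Continuous (win T τ) := by
  unfold win
  fun_prop

private theorem M05d_win_pos (T τ t : ℝ) : 0 < win T τ t := Real.exp_pos _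

private theorem M05d_int {T : ℝ} (hT : 1 < T) (τ a : ℝ) :
    Integrable fun t : ℝ => ze t ^ 3 * cexp (((t * a : ℝ) : ℂ) * I) * ((win T τ t : ℝ) : ℂ) := by
  obtain ⟨C, hC, hb⟩ := ze_bdd
  have hi := (win_integrable_poly hT τ 3).const_mul (C ^ 3)
  refine hi.mono' ?_ ?_
  · exact (((ze_cont.pow 3).mul (by fun_prop)).mul
      (continuous_ofReal.comp (M05d_win_cont T τ))).aestronglyMeasurable
  · refine Eventually.of_forall fun t => ?_
    rw [norm_mul, norm_mul, norm_pow, Complex.norm_exp_ofReal_mul_I, mul_one, Complex.norm_real,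
      Real.norm_of_nonneg (M05d_win_pos T τ t).le]
    have h1 : ‖ze t‖ ^ 3 ≤ (C * (1 + |t|)) ^ 3 := pow_le_pow_left₀ (norm_nonneg _) (hb t) 3
    calc ‖ze t‖ ^ 3 * win T τ t ≤ (C * (1 + |t|)) ^ 3 * win T τ t :=
          mul_le_mul_of_nonneg_right h1 (M05d_win_pos T τ t).le
      _ = C ^ 3 * ((1 + |t|) ^ 3 * win T τ t) := by ring

private theorem M05d_expand (W : ℝ → ℝ) {T : ℝ} (hT : 1 < T) (τ : ℝ) :
    ∫ t : ℝ, ze t ^ 3 * conj (DW W T t) * ((win T τ t : ℝ) : ℂ) =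
      ∑ n ∈ Finset.Icc 1 ⌊T⌋₊, ((dc W T n : ℝ) : ℂ) *
        ∫ t : ℝ, ze t ^ 3 * cexp (((t * Real.log n : ℝ) : ℂ) * I) * ((win T τ t : ℝ) : ℂ) := by
  have hp : ∀ t : ℝ, ze t ^ 3 * conj (DW W T t) * ((win T τ t : ℝ) : ℂ) =
      ∑ n ∈ Finset.Icc 1 ⌊T⌋₊, ((dc W T n : ℝ) : ℂ) *
        (ze t ^ 3 * cexp (((t * Real.log n : ℝ) : ℂ) * I) * ((win T τ t : ℝ) : ℂ)) := by
    intro t
    unfold DW
    rw [map_sum, Finset.mul_sum, Finset.sum_mul]
    refine Finset.sum_congr rfl fun n _ => ?_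
    rw [map_mul, conj_ofReal, ← exp_conj, map_neg, map_mul, conj_ofReal, conj_I]
    rw [show -(((t * Real.log n : ℝ) : ℂ) * -I) = ((t * Real.log n : ℝ) : ℂ) * I by ring]
    ring
  simp_rw [hp]
  rw [integral_finsetSum _ fun n _ => (M05d_int hT τ _).const_mul _]
  refine Finset.sum_congr rfl fun n _ => ?_
  rw [integral_const_mul]

private theorem M05d_supp {W : ℝ → ℝ} (h : WF W) :
    ∃ η : ℝ, 0 < η ∧ η < 1 ∧ ∀ s, W s ≠ 0 → s ≤ 1 - η := by
  by_cases hne : (tsupport W).Nonempty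
  · obtain ⟨m, hm, hmax⟩ := h.hcs.isCompact.exists_isMaxOn hne continuous_id.continuousOn
    have hm1 := h.supp hm
    refine ⟨1 - m, by linarith only [hm1.2, hm1], by linarith only [hm1.1, hm1], fun s hs => ?_⟩
    have : s ≤ m := hmax (subset_tsupport W (Function.mem_support.2 hs))
    linarith only [this]
  · refine ⟨1 / 2, by norm_num, by norm_num, fun s hs => ?_⟩
    exact absurd ⟨s, subset_tsupport W (Function.mem_support.2 hs)⟩ hne

private theorem M05d_term {T : ℝ} (hT : Real.exp 1 ≤ T) (τ : ℝ) {n : ℕ} (hn : 1 ≤ n) {e1 e2 : ℝ}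
    (h1 : ‖(∫ t : ℝ, ze t ^ 3 * cexp (((t * Real.log n : ℝ) : ℂ) * I) *
        ((win T τ t : ℝ) : ℂ)) -
      ∫ t : ℝ, riemannZeta (2 + t * I) ^ 3 * (n : ℂ) ^ (3 / 2 + t * I : ℂ) *
        VV T τ (2 + t * I)‖ ≤ e1)
    (h2 : ∑' m : ℕ, (if m = n then 0 else (MP069854.dk 3 m : ℝ) * (√(m : ℝ))⁻¹ *
      Real.exp (-(HH T * (Real.log n - Real.log m) / 2) ^ 2)) ≤ e2) :
    ‖(∫ t : ℝ, ze t ^ 3 * cexp (((t * Real.log n : ℝ) : ℂ) * I) * ((win T τ t : ℝ) : ℂ)) -
      ((HH T * √π * ((MP069854.dk 3 n : ℝ) * (√(n : ℝ))⁻¹) : ℝ) : ℂ)‖ ≤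
      e1 + HH T * √π * e2 := by
  have hT1 : 1 < T := lt_of_lt_of_le (by simp) hT
  have hH := M05d_HH hT1
  have hHp : 0 < HH T * √π := mul_pos hH (Real.sqrt_pos.2 Real.pi_pos)
  obtain ⟨hs, he⟩ := z3_series hT τ hn
  set g : ℕ → ℝ := fun m => (MP069854.dk 3 m : ℝ) * (√(m : ℝ))⁻¹ *
      Real.exp (-(HH T * (Real.log n - Real.log m) / 2) ^ 2) with hg
  set f : ℕ → ℂ := fun m => (((MP069854.dk 3 m : ℝ) * (√(m : ℝ))⁻¹ *
        (HH T * √π * Real.exp (-(HH T * (Real.log n - Real.log m) / 2) ^ 2)) : ℝ) : ℂ) *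
        cexp (((τ * (Real.log n - Real.log m) : ℝ) : ℂ) * I) with hf
  have hg0 : ∀ m, 0 ≤ g m := fun m => by positivity
  have hfg : ∀ m, ‖f m‖ = HH T * √π * g m := by
    intro m
    rw [hf]
    simp only
    rw [norm_mul, Complex.norm_exp_ofReal_mul_I, mul_one, Complex.norm_real, Real.norm_of_nonneg]
    · rw [hg]; ring
    · have := hH.le
      positivity
  have hfs : Summable f := by
    refine Summable.of_norm ?_
    simp_rw [hfg]
    exact hs.mul_left _
  have hfn : f n = ((HH T * √π * ((MP069854.dk 3 n : ℝ) * (√(n : ℝ))⁻¹) : ℝ) : ℂ) := by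
    rw [hf]
    simp only [sub_self, mul_zero, zero_div, ne_eq, OfNat.ofNat_ne_zero, not_false_eq_true,
      zero_pow, neg_zero, Real.exp_zero, mul_one, ofReal_zero, zero_mul, Complex.exp_zero]
    congr 1
    ring
  have hite : ∀ m, ‖(if m = n then 0 else f m)‖ = HH T * √π * (if m = n then 0 else g m) := by
    intro m
    split_ifs with h
    · simp
    · exact hfg m
  have hgs : Summable fun m => (if m = n then 0 else g m) := by
    refine Summable.of_nonneg_of_le (fun m => ?_) (fun m => ?_) hs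
    · split_ifs
      · exact le_rfl
      · exact hg0 m
    · split_ifs
      · exact hg0 m
      · exact le_rfl
  have h3 : ‖(∑' m, f m) - f n‖ ≤ HH T * √π * e2 := by
    rw [hfs.tsum_eq_add_tsum_ite n, add_sub_cancel_left]
    have hns : Summable fun m => ‖(if m = n then 0 else f m)‖ := by
      simp_rw [hite]
      exact hgs.mul_left _
    refine (norm_tsum_le_tsum_norm hns).trans ?_
    simp_rw [hite]
    rw [tsum_mul_left]
    exact mul_le_mul_of_nonneg_left h2 hHp.le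
  rw [← hfn]
  rw [he] at h1
  calc ‖(∫ t : ℝ, ze t ^ 3 * cexp (((t * Real.log n : ℝ) : ℂ) * I) * ((win T τ t : ℝ) : ℂ)) - f n‖
      = ‖((∫ t : ℝ, ze t ^ 3 * cexp (((t * Real.log n : ℝ) : ℂ) * I) *
          ((win T τ t : ℝ) : ℂ)) - ∑' m, f m) + ((∑' m, f m) - f n)‖ := by congr 1; ring
    _ ≤ _ := (norm_add_le _ _).trans (add_le_add h1 h3)

/-- **M05d.** -/
theorem mean_zD {W : ℝ → ℝ} (h : WF W) :
    HasMean (fun T t => ze t ^ 3 * conj (DW W T t))
      ((A3 * ∫ s in (0 : ℝ)..1, W s * (s ^ 8 / Nat.factorial 8) : ℝ) : ℂ) := by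
  obtain ⟨Cz, hCz, hbz⟩ := ze_bdd
  obtain ⟨CD, hCD, hbD⟩ := DS_bdd h 0
  obtain ⟨Cc, hCc, hbc⟩ := dc_sum h
  obtain ⟨η, hη, hη1, hsup⟩ := M05d_supp h
  refine ⟨fun T => ?_, ⟨Cz ^ 3 * CD, 4, by positivity, fun T hT t => ?_⟩, fun δ hδ τ hτ => ?_⟩
  · exact (ze_cont.pow 3).mul (continuous_conj.comp (DW_cont W T))
  · have h0 : DW W T t = DS W 0 T t := by simp [DS]
    rw [norm_mul, norm_pow, RCLike.norm_conj, h0]
    have ha : 1 ≤ 1 + |t| := by linarith only [abs_nonneg t]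
    have h1 : ‖ze t‖ ^ 3 ≤ (Cz * (1 + |t|)) ^ 3 := pow_le_pow_left₀ (norm_nonneg _) (hbz t) 3
    have h2 := hbD T (by linarith only [hη, hη1, hT]) t
    calc ‖ze t‖ ^ 3 * ‖DS W 0 T t‖ ≤ (Cz * (1 + |t|)) ^ 3 * (CD * T ^ 4) :=
          mul_le_mul h1 h2 (norm_nonneg _) (by positivity)
      _ = Cz ^ 3 * CD * (T ^ 4 * (1 + |t|) ^ 3) := by ring
      _ ≤ Cz ^ 3 * CD * (T ^ 4 * (1 + |t|) ^ 4) := by
          have h3 : (1 + |t|) ^ 3 ≤ (1 + |t|) ^ 4 := pow_le_pow_right₀ ha (by norm_num)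
          gcongr
      _ = Cz ^ 3 * CD * (T * (1 + |t|)) ^ 4 := by ring
  · obtain ⟨T₁, hT₁⟩ := z3_shift hδ 5
    obtain ⟨T₂, hT₂⟩ := z3_off hη hη1 5
    have hd := diag_lim1 h
    have hd' : Tendsto (fun T : ℝ => (((∑ n ∈ Finset.Icc 1 ⌊T⌋₊,
        dc W T n * ((MP069854.dk 3 n : ℝ) * (√(n : ℝ))⁻¹)) / Real.log T ^ 9 : ℝ) : ℂ)) atTop
        (𝓝 ((A3 * ∫ s in (0 : ℝ)..1, W s * (s ^ 8 / Nat.factorial 8) : ℝ) : ℂ)) :=
      (continuous_ofReal.tendsto _).comp hd
    have hz : Tendsto (fun T : ℝ => 2 * Cc * T⁻¹) atTop (𝓝 0) := by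
      simpa using tendsto_inv_atTop_zero.const_mul (2 * Cc)
    have key : ∀ᶠ T : ℝ in atTop,
        ‖(∫ t : ℝ, ze t ^ 3 * conj (DW W T t) * ((win T (τ T) t : ℝ) : ℂ)) / ((NN T : ℝ) : ℂ) -
          (((∑ n ∈ Finset.Icc 1 ⌊T⌋₊,
        dc W T n * ((MP069854.dk 3 n : ℝ) * (√(n : ℝ))⁻¹)) / Real.log T ^ 9 : ℝ) : ℂ)‖ ≤
          2 * Cc * T⁻¹ := by
      filter_upwards [hτ, eventually_ge_atTop T₁, eventually_ge_atTop T₂,
        eventually_ge_atTop (Real.exp 1)] with T hτT h1 h2 hTe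
      have hT1 : 1 < T := lt_of_lt_of_le (by simp) hTe
      have hT0 : 0 < T := by linarith only [hη, hη1, hT1]
      have hL1 : 1 ≤ Real.log T := by
        rw [← Real.log_exp 1]
        exact Real.log_le_log (Real.exp_pos 1) hTe
      have hL0 : 0 < Real.log T := by linarith only [hη, hη1, hL1]
      have hH := M05d_HH hT1
      have hH1 : 1 ≤ HH T := by
        unfold HH
        rw [le_div_iff₀ hL0, one_mul]
        exact (Real.log_le_sub_one_of_pos hT0).trans (by linarith only [hη, hη1])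
      have hsp : 1 ≤ √π := by
        rw [Real.one_le_sqrt]
        linarith only [Real.pi_gt_three, hη, hη1]
      have hHp1 : 1 ≤ HH T * √π := one_le_mul_of_one_le_of_one_le hH1 hsp
      have hHp : 0 < HH T * √π := by linarith only [hη, hη1, hHp1]
      have hterm : ∀ n ∈ Finset.Icc 1 ⌊T⌋₊,
          ‖((dc W T n : ℝ) : ℂ) *
            (∫ t : ℝ, ze t ^ 3 * cexp (((t * Real.log n : ℝ) : ℂ) * I) *
              ((win T (τ T) t : ℝ) : ℂ)) -
            ((HH T * √π * (dc W T n * ((MP069854.dk 3 n : ℝ) * (√(n : ℝ))⁻¹)) : ℝ) : ℂ)‖ ≤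
          |dc W T n| * (2 * (HH T * √π) * T ^ (-(5 : ℝ))) := by
        intro n hn
        rw [Finset.mem_Icc] at hn
        have hnT : (n : ℝ) ≤ T := (Nat.le_floor_iff hT0.le).1 hn.2
        by_cases hdc : dc W T n = 0
        · simp [hdc]
        have hW : W (Real.log n / Real.log T) ≠ 0 := by
          intro h0
          apply hdc
          simp [dc, h0]
        have hle := hsup _ hW
        have hn0 : (0 : ℝ) < n := by exact_mod_cast hn.1
        have hnη : (n : ℝ) ≤ T ^ (1 - η) := by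
          rw [div_le_iff₀ hL0] at hle
          rw [Real.rpow_def_of_pos hT0, ← Real.exp_log hn0]
          apply Real.exp_le_exp.2
          linarith only [hle]
        have ht := M05d_term hTe (τ T) hn.1 (hT₁ T h1 (τ T) hτT.1 hτT.2 n hn.1 hnT)
          (hT₂ T h2 n hn.1 hnη)
        have heq : ((dc W T n : ℝ) : ℂ) *
            (∫ t : ℝ, ze t ^ 3 * cexp (((t * Real.log n : ℝ) : ℂ) * I) *
              ((win T (τ T) t : ℝ) : ℂ)) -
            ((HH T * √π * (dc W T n * ((MP069854.dk 3 n : ℝ) * (√(n : ℝ))⁻¹)) : ℝ) : ℂ) =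
            ((dc W T n : ℝ) : ℂ) *
            ((∫ t : ℝ, ze t ^ 3 * cexp (((t * Real.log n : ℝ) : ℂ) * I) *
              ((win T (τ T) t : ℝ) : ℂ)) -
            ((HH T * √π * ((MP069854.dk 3 n : ℝ) * (√(n : ℝ))⁻¹) : ℝ) : ℂ)) := by
          push_cast
          ring
        rw [heq, norm_mul, Complex.norm_real, Real.norm_eq_abs]
        refine mul_le_mul_of_nonneg_left (ht.trans ?_) (abs_nonneg _)
        have hp : (0 : ℝ) ≤ T ^ (-(5 : ℝ)) := (Real.rpow_pos_of_pos hT0 _).le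
        nlinarith only [hη, hη1, hHp1, hp]
      have hsum : ‖(∫ t : ℝ, ze t ^ 3 * conj (DW W T t) * ((win T (τ T) t : ℝ) : ℂ)) -
          ((HH T * √π * ∑ n ∈ Finset.Icc 1 ⌊T⌋₊,
            dc W T n * ((MP069854.dk 3 n : ℝ) * (√(n : ℝ))⁻¹) : ℝ) : ℂ)‖ ≤
          Cc * T ^ 4 * (2 * (HH T * √π) * T ^ (-(5 : ℝ))) := by
        rw [M05d_expand W hT1 (τ T), Finset.mul_sum, ofReal_sum, ← Finset.sum_sub_distrib]
        refine (norm_sum_le _ _).trans ((Finset.sum_le_sum hterm).trans ?_)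
        rw [← Finset.sum_mul]
        refine mul_le_mul_of_nonneg_right (hbc T hT1.le) ?_
        have hp : (0 : ℝ) ≤ T ^ (-(5 : ℝ)) := (Real.rpow_pos_of_pos hT0 _).le
        positivity
      have hpw : T ^ 4 * T ^ (-(5 : ℝ)) = T⁻¹ := by
        rw [← Real.rpow_natCast T 4, ← Real.rpow_add hT0, ← Real.rpow_neg_one]
        norm_num
      have hNN : NN T = HH T * √π * Real.log T ^ 9 := rfl
      have hNN0 : 0 < NN T := by rw [hNN]; positivity
      have heq2 : (∫ t : ℝ, ze t ^ 3 * conj (DW W T t) * ((win T (τ T) t : ℝ) : ℂ)) /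
          ((NN T : ℝ) : ℂ) -
          (((∑ n ∈ Finset.Icc 1 ⌊T⌋₊,
        dc W T n * ((MP069854.dk 3 n : ℝ) * (√(n : ℝ))⁻¹)) / Real.log T ^ 9 : ℝ) : ℂ) =
          ((∫ t : ℝ, ze t ^ 3 * conj (DW W T t) * ((win T (τ T) t : ℝ) : ℂ)) -
          ((HH T * √π * ∑ n ∈ Finset.Icc 1 ⌊T⌋₊,
            dc W T n * ((MP069854.dk 3 n : ℝ) * (√(n : ℝ))⁻¹) : ℝ) : ℂ)) / ((NN T : ℝ) : ℂ) := by
        rw [sub_div]
        congr 1
        rw [← ofReal_div]
        congr 1
        rw [hNN, mul_div_mul_left _ _ hHp.ne']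
      rw [heq2, norm_div, Complex.norm_real, Real.norm_of_nonneg hNN0.le, div_le_iff₀ hNN0]
      refine hsum.trans ?_
      rw [hNN]
      have hL9 : 1 ≤ Real.log T ^ 9 := one_le_pow₀ hL1
      have hTi : 0 ≤ T⁻¹ := (inv_pos.2 hT0).le
      calc Cc * T ^ 4 * (2 * (HH T * √π) * T ^ (-(5 : ℝ)))
          = 2 * Cc * (T ^ 4 * T ^ (-(5 : ℝ))) * (HH T * √π) := by ring
        _ = 2 * Cc * T⁻¹ * (HH T * √π) * 1 := by rw [hpw]; ring
        _ ≤ 2 * Cc * T⁻¹ * (HH T * √π) * Real.log T ^ 9 := by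
            refine mul_le_mul_of_nonneg_left hL9 ?_
            positivity
        _ = _ := by ring
    have hdiff : Tendsto (fun T : ℝ =>
        (∫ t : ℝ, ze t ^ 3 * conj (DW W T t) * ((win T (τ T) t : ℝ) : ℂ)) / ((NN T : ℝ) : ℂ) -
          (((∑ n ∈ Finset.Icc 1 ⌊T⌋₊,
        dc W T n * ((MP069854.dk 3 n : ℝ) * (√(n : ℝ))⁻¹)) / Real.log T ^ 9 : ℝ) : ℂ)) atTop
        (𝓝 0) := by
      exact squeeze_zero_norm' key hz
    have := hdiff.add hd'
    simpa using this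

end K3

end

section

namespace K3
open Complex MeasureTheory Filter Topology Set S6
open scoped Real ComplexConjugate

lemma m06a_NN {T : ℝ} (hT : Real.exp 1 ≤ T) : 1 ≤ NN T := by
  have h0 : 0 < T := lt_of_lt_of_le (Real.exp_pos 1) hT
  have h1 : 1 ≤ Real.log T := by
    rw [Real.le_log_iff_exp_le h0]
    exact hT
  have h2 : 1 ≤ HH T := by
    unfold HH
    rw [le_div_iff₀ (by linarith only [h1])]
    have := Real.log_le_sub_one_of_pos h0
    linarith only [this]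
  have h3 : 1 ≤ √π := by
    rw [show (1 : ℝ) = √1 by simp]
    exact Real.sqrt_le_sqrt (by linarith only [Real.pi_gt_three])
  have h4 : 1 ≤ Real.log T ^ 9 := one_le_pow₀ h1
  unfold NN
  have h5 : 1 ≤ HH T * √π := one_le_mul_of_one_le_of_one_le h2 h3
  exact one_le_mul_of_one_le_of_one_le h5 h4

/-- the general vanishing lemma -/
lemma m06a_core {ι : Type} {j : ℕ} (hj : 1 ≤ j) {η : ℝ} (hη : 0 < η) (Ξ : ℝ) (S : ℝ → Finset ι)
    (a : ℝ → ι → ℝ) (ξ : ℝ → ι → ℝ) {C : ℝ} {A : ℕ}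
    (ha : ∀ T : ℝ, 2 ≤ T → ∑ q ∈ S T, |a T q| ≤ C * T ^ A)
    (hξ : ∀ T : ℝ, 2 ≤ T → ∀ q ∈ S T, a T q ≠ 0 →
      (η - j) * Real.log T ≤ ξ T q ∧ ξ T q ≤ Ξ * Real.log T)
    {K : ℝ → ℝ → ℂ} (hK : ∀ T t, K T t = ∑ q ∈ S T, ((a T q : ℝ) : ℂ) *
      (XX t ^ j * cexp (((t * ξ T q : ℝ) : ℂ) * I)))
    {δ : ℝ} (hδ : 0 < δ) {τ : ℝ → ℝ} (hτ : Cen δ τ) :
    Tendsto (fun T : ℝ => (∫ t : ℝ, K T t * ((win T (τ T) t : ℝ) : ℂ)) / ((NN T : ℝ) : ℂ)) atTop
      (𝓝 0) := by
  obtain ⟨T₀, hT₀⟩ := XX_vanish hj hδ hη Ξ ((A : ℝ) + 1)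
  have hlim : Tendsto (fun T : ℝ => C * T⁻¹) atTop (𝓝 0) := by
    simpa using tendsto_inv_atTop_zero.const_mul C
  refine squeeze_zero_norm' ?_ hlim
  filter_upwards [eventually_ge_atTop T₀, eventually_ge_atTop (2 : ℝ),
    eventually_ge_atTop (Real.exp 1), hτ] with T h1 h2 h3 h4
  have hT1 : 1 < T := by linarith only [h2]
  have hT0 : 0 < T := by linarith only [h2]
  have hint : ∀ q, Integrable fun t : ℝ => ((a T q : ℝ) : ℂ) *
      (XX t ^ j * cexp (((t * ξ T q : ℝ) : ℂ) * I)) * ((win T (τ T) t : ℝ) : ℂ) := by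
    intro q
    have hw := (win_integrable hT1 (τ T)).const_mul |a T q|
    refine hw.mono' ?_ (Eventually.of_forall fun t => ?_)
    · have c1 := XX_cont
      have c2 := S6.A68.win_cont T (τ T)
      exact Continuous.aestronglyMeasurable (by fun_prop)
    · rw [norm_mul, norm_mul, norm_mul, norm_pow, XX_norm, one_pow, one_mul,
        Complex.norm_exp_ofReal_mul_I, mul_one, Complex.norm_real, Complex.norm_real,
        Real.norm_eq_abs, Real.norm_eq_abs, abs_of_pos (S6.A68.win_pos T (τ T) t)]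
  have e1 : ∫ t : ℝ, K T t * ((win T (τ T) t : ℝ) : ℂ) = ∑ q ∈ S T, ((a T q : ℝ) : ℂ) *
      ∫ t : ℝ, XX t ^ j * cexp (((t * ξ T q : ℝ) : ℂ) * I) * ((win T (τ T) t : ℝ) : ℂ) := by
    have : ∀ t, K T t * ((win T (τ T) t : ℝ) : ℂ) = ∑ q ∈ S T, ((a T q : ℝ) : ℂ) *
        (XX t ^ j * cexp (((t * ξ T q : ℝ) : ℂ) * I)) * ((win T (τ T) t : ℝ) : ℂ) := by
      intro t
      rw [hK T t, Finset.sum_mul]
    simp_rw [this]
    rw [integral_finsetSum _ fun q _ => hint q]
    refine Finset.sum_congr rfl fun q _ => ?_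
    rw [← integral_const_mul]
    refine integral_congr_ae (Eventually.of_forall fun t => ?_)
    simp only
    ring
  have e2 : ‖∫ t : ℝ, K T t * ((win T (τ T) t : ℝ) : ℂ)‖ ≤ C * T⁻¹ := by
    rw [e1]
    refine (norm_sum_le _ _).trans ?_
    have : ∀ q ∈ S T, ‖((a T q : ℝ) : ℂ) * ∫ t : ℝ, XX t ^ j *
        cexp (((t * ξ T q : ℝ) : ℂ) * I) * ((win T (τ T) t : ℝ) : ℂ)‖ ≤
        |a T q| * T ^ (-((A : ℝ) + 1)) := by
      intro q hq
      rw [norm_mul, Complex.norm_real, Real.norm_eq_abs]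
      by_cases h0 : a T q = 0
      · rw [h0, abs_zero, zero_mul, zero_mul]
      · have h5 := hξ T h2 q hq h0
        exact mul_le_mul_of_nonneg_left (hT₀ T h1 (τ T) h4.1 h4.2 _ h5.1 h5.2) (abs_nonneg _)
    refine (Finset.sum_le_sum this).trans ?_
    rw [← Finset.sum_mul]
    have h6 : (0 : ℝ) ≤ T ^ (-((A : ℝ) + 1)) := Real.rpow_nonneg hT0.le _
    refine (mul_le_mul_of_nonneg_right (ha T h2) h6).trans (le_of_eq ?_)
    rw [mul_assoc, ← Real.rpow_natCast, ← Real.rpow_add hT0]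
    rw [show (A : ℝ) + -((A : ℝ) + 1) = -1 by ring, Real.rpow_neg_one]
  have h7 := m06a_NN h3
  rw [norm_div, Complex.norm_real, Real.norm_eq_abs, abs_of_pos (by linarith only [h7])]
  refine (div_le_self (norm_nonneg _) h7).trans e2

lemma m06a_gap {W : ℝ → ℝ} (h : WF W) : ∃ η : ℝ, 0 < η ∧ ∀ s, W s ≠ 0 → s ≤ 1 - η := by
  rcases (tsupport W).eq_empty_or_nonempty with h0 | h0
  · refine ⟨1, one_pos, fun s hs => ?_⟩
    have := subset_tsupport W hs
    rw [h0] at this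
    exact absurd this (Set.notMem_empty _)
  · have hK : IsCompact (tsupport W) := h.hcs
    obtain ⟨s0, hs0, hmax⟩ := hK.exists_isMaxOn h0 (continuous_id.continuousOn)
    have h1 := (h.supp hs0).2
    refine ⟨1 - s0, by linarith only [h1], fun s hs => ?_⟩
    have h2 : s ≤ s0 := hmax (subset_tsupport W hs)
    linarith only [h2]

lemma m06a_GG {R : Set (ℝ × ℝ × ℝ)} {Ψ : ℝ × ℝ × ℝ → ℝ} (hΨ : SF R Ψ) {p : ℝ × ℝ × ℝ}
    (hp : GG Ψ p ≠ 0) : p ∈ R :=
  hΨ.supp (TF_GG_ts _ (TF_GG_ts _ (TF_GG_ts _ (subset_tsupport _ hp))))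

lemma m06a_cf {Ψ : ℝ × ℝ × ℝ → ℝ} (h : ContDiff ℝ (⊤ : ℕ∞) Ψ) (hc : HasCompactSupport Ψ) :
    ∃ C : ℝ, 0 ≤ C ∧ ∀ T : ℝ, 1 ≤ T →
      ∑ x ∈ tri T, |cf (GG Ψ) T x * (√((x.1 : ℝ) * x.2.1 * x.2.2))⁻¹| ≤ C * T ^ 3 := by
  have hGs : ContDiff ℝ (⊤ : ℕ∞) (GG Ψ) := QA_GG_Dv_smooth _ (QA_GG_Dv_smooth _ (QA_GG_Dv_smooth _ h))
  have hGc : HasCompactSupport (GG Ψ) := QA_GG_Dv_cs _ (QA_GG_Dv_cs _ (QA_GG_Dv_cs _ hc))
  obtain ⟨M, hM⟩ := hGc.exists_bound_of_continuous hGs.continuous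
  have hM0 : 0 ≤ M := (norm_nonneg _).trans (hM 0)
  refine ⟨M, hM0, fun T hT => ?_⟩
  have h1 : ∀ x ∈ tri T, |cf (GG Ψ) T x * (√((x.1 : ℝ) * x.2.1 * x.2.2))⁻¹| ≤ M := by
    intro x hx
    have hx' := mem_tri.1 hx
    have a1 : (1 : ℝ) ≤ x.1 := by exact_mod_cast hx'.1.1
    have a2 : (1 : ℝ) ≤ x.2.1 := by exact_mod_cast hx'.2.1.1
    have a3 : (1 : ℝ) ≤ x.2.2 := by exact_mod_cast hx'.2.2.1
    have b1 : (1 : ℝ) ≤ (x.1 : ℝ) * x.2.1 * x.2.2 :=
      one_le_mul_of_one_le_of_one_le (one_le_mul_of_one_le_of_one_le a1 a2) a3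
    have b2 : (1 : ℝ) ≤ √((x.1 : ℝ) * x.2.1 * x.2.2) := by
      rw [show (1 : ℝ) = √1 by simp]
      exact Real.sqrt_le_sqrt b1
    rw [abs_mul]
    have b3 : |(√((x.1 : ℝ) * x.2.1 * x.2.2))⁻¹| ≤ 1 := by
      rw [abs_inv, abs_of_nonneg (Real.sqrt_nonneg _)]
      exact inv_le_one_of_one_le₀ b2
    calc |cf (GG Ψ) T x| * |(√((x.1 : ℝ) * x.2.1 * x.2.2))⁻¹| ≤ M * 1 :=
          mul_le_mul (hM _) b3 (abs_nonneg _) hM0
      _ = M := mul_one _
  refine (Finset.sum_le_sum h1).trans ?_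
  rw [Finset.sum_const, nsmul_eq_mul, mul_comm]
  exact mul_le_mul_of_nonneg_left (card_tri (by linarith only [hT])) hM0

theorem mean_XDB {W : ℝ → ℝ} (h : WF W) {Ψ : ℝ × ℝ × ℝ → ℝ} (hΨ : SF (Reg 1 ∩ Hneg) Ψ) :
    HasMean (fun T t => XX t * DW W T t * conj (BB (GG Ψ) T t)) 0 := by
  have hDW : ∀ T t, DS W 0 T t = DW W T t := fun T t => by
    unfold DS
    rw [zero_div, add_zero]
  have hBS : ∀ T t, BS Ψ 0 T t = BB (GG Ψ) T t := fun T t => by
    unfold BS
    rw [zero_div, add_zero]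
  refine ⟨fun T => ?_, ?_, fun δ hδ τ hτ => ?_⟩
  · have c1 := XX_cont
    have c2 := DW_cont W T
    have c3 := S6.A68.BB_cont (GG Ψ) T
    exact (c1.mul c2).mul (Complex.continuous_conj.comp c3)
  · obtain ⟨C, hC, hCD⟩ := DS_bdd h 0
    obtain ⟨M, hM, hMB⟩ := BS_bdd hΨ.smooth hΨ.hcs 0
    refine ⟨C * M, 7, mul_nonneg hC hM, fun T hT t => ?_⟩
    have h1 := hCD T (by linarith only [hT]) t
    have h2 := hMB T (by linarith only [hT]) t
    rw [hDW] at h1
    rw [hBS] at h2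
    rw [norm_mul, norm_mul, XX_norm, one_mul, Complex.norm_conj]
    have h3 : ‖DW W T t‖ * ‖BB (GG Ψ) T t‖ ≤ (C * T ^ 4) * (M * T ^ 3) :=
      mul_le_mul h1 h2 (norm_nonneg _) (by positivity)
    refine h3.trans ?_
    have h4 : (T : ℝ) ^ 7 ≤ (T * (1 + |t|)) ^ 7 := by
      refine pow_le_pow_left₀ (by linarith only [hT]) ?_ 7
      nlinarith only [abs_nonneg t, hT]
    calc (C * T ^ 4) * (M * T ^ 3) = C * M * T ^ 7 := by ring
      _ ≤ C * M * (T * (1 + |t|)) ^ 7 := mul_le_mul_of_nonneg_left h4 (mul_nonneg hC hM)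
  · obtain ⟨η, hη, hηW⟩ := m06a_gap h
    obtain ⟨C, hC, hCD⟩ := dc_sum h
    obtain ⟨M, hM, hMB⟩ := m06a_cf hΨ.smooth hΨ.hcs
    refine m06a_core (ι := ℕ × (ℕ × ℕ × ℕ)) (j := 1) le_rfl hη 1
      (fun T => (Finset.Icc 1 ⌊T⌋₊) ×ˢ tri T)
      (fun T q => dc W T q.1 * (cf (GG Ψ) T q.2 * (√((q.2.1 : ℝ) * q.2.2.1 * q.2.2.2))⁻¹))
      (fun T q => -Real.log q.1 - (Real.log q.2.2.2 - Real.log q.2.1 - Real.log q.2.2.1))
      (C := C * M) (A := 7) (fun T hT => ?_) (fun T hT q hq h0 => ?_) (fun T t => ?_) hδ hτ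
    · rw [Finset.sum_product]
      simp only [abs_mul (dc W T _)]
      rw [← Finset.sum_mul_sum]
      have h1 := hCD T (by linarith only [hT])
      have h2 := hMB T (by linarith only [hT])
      refine (mul_le_mul h1 h2 (Finset.sum_nonneg fun _ _ => abs_nonneg _)
        (by positivity)).trans (le_of_eq (by ring))
    · have hL : 0 < Real.log T := Real.log_pos (by linarith only [hT])
      have d1 : dc W T q.1 ≠ 0 := left_ne_zero_of_mul h0
      have d2 : cf (GG Ψ) T q.2 ≠ 0 := left_ne_zero_of_mul (right_ne_zero_of_mul h0)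
      have d3 : W (Real.log q.1 / Real.log T) ≠ 0 := by
        unfold dc at d1
        exact right_ne_zero_of_mul (left_ne_zero_of_mul d1)
      have d4 := hηW _ d3
      have d5 := (h.supp (subset_tsupport W d3)).1
      obtain ⟨⟨r1, r2, r3, r4, r5⟩, r6⟩ := m06a_GG hΨ d2
      have r6' : Real.log q.2.2.2 / Real.log T - Real.log q.2.1 / Real.log T -
        Real.log q.2.2.1 / Real.log T < 0 := r6
      simp only at r1 r2 r3 r4 r5
      rw [div_le_iff₀ hL] at d4
      have d5' : 0 < Real.log q.1 := by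
        by_contra hn
        push Not at hn
        have : Real.log q.1 / Real.log T ≤ 0 := div_nonpos_of_nonpos_of_nonneg hn hL.le
        linarith only [d5, this]
      have r6'' : Real.log q.2.2.2 - Real.log q.2.1 - Real.log q.2.2.1 < 0 := by
        have := mul_neg_of_neg_of_pos r6' hL
        rw [sub_mul, sub_mul, div_mul_cancel₀ _ hL.ne', div_mul_cancel₀ _ hL.ne',
          div_mul_cancel₀ _ hL.ne'] at this
        exact this
      have r5' : Real.log q.2.1 + Real.log q.2.2.1 - Real.log q.2.2.2 < 1 / 2 * Real.log T := by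
        have := mul_lt_mul_of_pos_right r5 hL
        rw [sub_mul, add_mul, div_mul_cancel₀ _ hL.ne', div_mul_cancel₀ _ hL.ne',
          div_mul_cancel₀ _ hL.ne'] at this
        exact this
      constructor
      · push_cast
        linarith only [d4, r6'']
      · linarith only [d5', r6'', r5']
    · unfold DW BB
      rw [map_sum, mul_assoc, Finset.sum_mul_sum, Finset.sum_product, Finset.mul_sum]
      refine Finset.sum_congr rfl fun n _ => ?_
      rw [Finset.mul_sum]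
      refine Finset.sum_congr rfl fun x _ => ?_
      rw [map_mul, Complex.conj_ofReal, ← Complex.exp_conj, map_mul, Complex.conj_ofReal,
        Complex.conj_I, pow_one]
      have : cexp (((t * (-Real.log n - (Real.log x.2.2 - Real.log x.1 - Real.log x.2.1)) : ℝ) : ℂ)
          * I) = cexp (-(((t * Real.log n : ℝ) : ℂ) * I)) *
          cexp (((t * (Real.log x.2.2 - Real.log x.1 - Real.log x.2.1) : ℝ) : ℂ) * -I) := by
        rw [← Complex.exp_add]
        congr 1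
        push_cast
        ring
      rw [this]
      push_cast
      ring

end K3

end

section

/-! Row M06b: the mean of `χ² D B` vanishes. -/

namespace K3
open Complex MeasureTheory Filter Topology Set S6
open scoped Real ComplexConjugate

theorem M06b_BB_eq (Ψ : ℝ × ℝ × ℝ → ℝ) (T t : ℝ) : BS Ψ 0 T t = BB (GG Ψ) T t := by
  unfold BS
  rw [zero_div, add_zero]

theorem M06b_DW_eq (W : ℝ → ℝ) (T t : ℝ) : DS W 0 T t = DW W T t := by
  unfold DS
  rw [zero_div, add_zero]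

theorem M06b_expand (W : ℝ → ℝ) (G : ℝ × ℝ × ℝ → ℝ) {T : ℝ} (hT : 1 < T) (τ : ℝ) :
    (∫ t : ℝ, XX t ^ 2 * DW W T t * BB G T t * ((win T τ t : ℝ) : ℂ)) =
      ∑ n ∈ Finset.Icc 1 ⌊T⌋₊, ∑ x ∈ tri T, ((dc W T n * I3a G T x : ℝ) : ℂ) *
      ∫ t : ℝ, XX t ^ 2 * cexp (((t * (I3p x - Real.log n) : ℝ) : ℂ) * I) *
        ((win T τ t : ℝ) : ℂ) := by
  have h1 : ∀ t : ℝ, XX t ^ 2 * DW W T t * BB G T t * ((win T τ t : ℝ) : ℂ) =
      ∑ n ∈ Finset.Icc 1 ⌊T⌋₊, ∑ x ∈ tri T, ((dc W T n * I3a G T x : ℝ) : ℂ) *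
        (XX t ^ 2 * cexp (((t * (I3p x - Real.log n) : ℝ) : ℂ) * I) *
        ((win T τ t : ℝ) : ℂ)) := by
    intro t
    rw [mul_assoc (XX t ^ 2), DW, BB, Finset.sum_mul_sum, Finset.mul_sum, Finset.sum_mul]
    refine Finset.sum_congr rfl fun n _ => ?_
    rw [Finset.mul_sum, Finset.sum_mul]
    refine Finset.sum_congr rfl fun x _ => ?_
    have h2 : cexp (((t * (I3p x - Real.log n) : ℝ) : ℂ) * I) =
        cexp (-(((t * Real.log n : ℝ) : ℂ) * I)) *
        cexp (((t * (Real.log x.2.2 - Real.log x.1 - Real.log x.2.1) : ℝ) : ℂ) * I) := by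
      rw [← Complex.exp_add]
      congr 1
      unfold I3p
      push_cast
      ring
    rw [h2]
    unfold I3a
    push_cast
    ring
  have h3 : ∀ (n : ℕ) (x : ℕ × ℕ × ℕ), Integrable fun t : ℝ => ((dc W T n * I3a G T x : ℝ) : ℂ) *
        (XX t ^ 2 * cexp (((t * (I3p x - Real.log n) : ℝ) : ℂ) * I) *
        ((win T τ t : ℝ) : ℂ)) := by
    intro n x
    refine Integrable.const_mul ?_ _
    refine I3aux_int_bdd hT τ (C := 1) ((XX_cont.pow 2).mul (by fun_prop)) fun t => ?_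
    rw [norm_mul, norm_pow, I3aux_cexp_norm, XX_norm, one_pow, mul_one]
  simp_rw [h1]
  rw [integral_finsetSum _ fun n _ => integrable_finsetSum _ fun x _ => h3 n x]
  refine Finset.sum_congr rfl fun n _ => ?_
  rw [integral_finsetSum _ fun x _ => h3 n x]
  refine Finset.sum_congr rfl fun x _ => ?_
  rw [integral_const_mul]

theorem M06b_bound {W : ℝ → ℝ} (h : WF W) {G : ℝ × ℝ × ℝ → ℝ} (hG : TF 1 G)
    {δ : ℝ} (hδ : 0 < δ) : ∃ C T₀ : ℝ, ∀ T ≥ T₀, ∀ τ : ℝ, δ * T ≤ τ → τ ≤ T →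
      ‖∫ t : ℝ, XX t ^ 2 * DW W T t * BB G T t * ((win T τ t : ℝ) : ℂ)‖ ≤ C * T⁻¹ := by
  obtain ⟨ε, hε, hsupp⟩ := I3aux_supp hG
  obtain ⟨M, hM⟩ := hG.cont.bounded_above_of_compact_support hG.hcs
  have hM0 : 0 ≤ M := (norm_nonneg _).trans (hM 0)
  obtain ⟨C, hC0, hC⟩ := dc_sum h
  obtain ⟨T₀, hT₀⟩ := XX_vanish (j := 2) (by norm_num) hδ (η := 1 / 2) (by norm_num) 1 8
  refine ⟨C * M, max T₀ (Real.exp 1), ?_⟩
  intro T hT τ hτ1 hτ2
  have hTe : Real.exp 1 ≤ T := le_trans (le_max_right _ _) hT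
  have hT1 : 1 < T := lt_of_lt_of_le (by linarith only [Real.add_one_lt_exp (one_ne_zero)]) hTe
  have hTpos : 0 < T := by linarith only [hT1]
  have hlog : 0 < Real.log T := Real.log_pos hT1
  rw [M06b_expand W G hT1]
  have hTp : 0 < T ^ (-8 : ℝ) := Real.rpow_pos_of_pos hTpos _
  have hterm : ∀ n ∈ Finset.Icc 1 ⌊T⌋₊, ∀ x ∈ tri T, ‖((dc W T n * I3a G T x : ℝ) : ℂ) *
      ∫ t : ℝ, XX t ^ 2 * cexp (((t * (I3p x - Real.log n) : ℝ) : ℂ) * I) *
        ((win T τ t : ℝ) : ℂ)‖ ≤ |dc W T n| * (M * T ^ (-8 : ℝ)) := by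
    intro n hn x hx
    have hx' := hx
    unfold tri at hx'
    simp only [Finset.mem_product, Finset.mem_Icc] at hx'
    have ha : (1 : ℝ) ≤ x.1 := by exact_mod_cast hx'.1.1
    have hb : (1 : ℝ) ≤ x.2.1 := by exact_mod_cast hx'.2.1.1
    have hc : (1 : ℝ) ≤ x.2.2 := by exact_mod_cast hx'.2.2.1
    have hfl : (⌊T⌋₊ : ℝ) ≤ T := Nat.floor_le hTpos.le
    have hcT : (x.2.2 : ℝ) ≤ T := by
      have : (x.2.2 : ℝ) ≤ (⌊T⌋₊ : ℝ) := by exact_mod_cast hx'.2.2.2
      linarith only [hfl, this]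
    rw [Finset.mem_Icc] at hn
    have hn1 : (1 : ℝ) ≤ n := by exact_mod_cast hn.1
    have hnT : (n : ℝ) ≤ T := by
      have : (n : ℝ) ≤ (⌊T⌋₊ : ℝ) := by exact_mod_cast hn.2
      linarith only [hfl, this]
    have hsq : ‖(√((x.1 : ℝ) * x.2.1 * x.2.2))⁻¹‖ ≤ 1 := by
      rw [norm_inv, Real.norm_of_nonneg (Real.sqrt_nonneg _)]
      refine inv_le_one_of_one_le₀ ?_
      rw [Real.one_le_sqrt]
      exact one_le_mul_of_one_le_of_one_le (one_le_mul_of_one_le_of_one_le ha hb) hc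
    have hI : ‖I3a G T x‖ ≤ M := by
      unfold I3a
      rw [norm_mul]
      calc ‖cf G T x‖ * ‖(√((x.1 : ℝ) * x.2.1 * x.2.2))⁻¹‖ ≤ M * 1 :=
            mul_le_mul (hM _) hsq (norm_nonneg _) hM0
        _ = M := mul_one _
    by_cases h0 : cf G T x = 0
    · have h1 : I3a G T x = 0 := by
        unfold I3a
        rw [h0, zero_mul]
      rw [h1]
      simp only [mul_zero, Complex.ofReal_zero, zero_mul, norm_zero]
      positivity
    have hs : -I3p x ≤ 1 / 2 * Real.log T := by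
      have h1 := hsupp _ h0
      simp only at h1
      have h2 : Real.log x.1 / Real.log T + Real.log x.2.1 / Real.log T -
        Real.log x.2.2 / Real.log T = -I3p x / Real.log T := by
        unfold I3p
        ring
      rw [h2, div_le_iff₀ hlog] at h1
      refine h1.trans ?_
      gcongr
      linarith only [hε]
    have hln0 : 0 ≤ Real.log n := Real.log_nonneg hn1
    have hlnT : Real.log n ≤ Real.log T := Real.log_le_log (by linarith only [hn1]) hnT
    have hlo : (1 / 2 - ((2 : ℕ) : ℝ)) * Real.log T ≤ I3p x - Real.log n := by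
      push_cast
      linarith only [hs, hlnT]
    have hhi : I3p x - Real.log n ≤ 1 * Real.log T := by
      have h1 : I3p x ≤ Real.log T := by
        unfold I3p
        have e1 := Real.log_nonneg ha
        have e2 := Real.log_nonneg hb
        have e3 : Real.log x.2.2 ≤ Real.log T := Real.log_le_log (by linarith only [hc]) hcT
        linarith only [e1, e2, e3]
      linarith only [hln0, h1]
    have hv := hT₀ T (le_trans (le_max_left _ _) hT) τ hτ1 hτ2 (I3p x - Real.log n) hlo hhi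
    rw [norm_mul, Complex.norm_real, norm_mul, Real.norm_eq_abs (dc W T n), mul_assoc]
    refine mul_le_mul_of_nonneg_left ?_ (abs_nonneg _)
    exact mul_le_mul hI hv (norm_nonneg _) hM0
  refine (norm_sum_le _ _).trans ?_
  refine (Finset.sum_le_sum fun n hn => (norm_sum_le _ _).trans
    (Finset.sum_le_sum fun x hx => hterm n hn x hx)).trans ?_
  simp only [Finset.sum_const, nsmul_eq_mul]
  rw [← Finset.mul_sum, ← Finset.sum_mul]
  have hcard := I3aux_card hT1.le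
  have hc0 : (0 : ℝ) ≤ (tri T).card := Nat.cast_nonneg _
  have hsum := hC T hT1.le
  have hs0 : 0 ≤ ∑ n ∈ Finset.Icc 1 ⌊T⌋₊, |dc W T n| := Finset.sum_nonneg fun n _ => abs_nonneg _
  calc ((tri T).card : ℝ) * ((∑ n ∈ Finset.Icc 1 ⌊T⌋₊, |dc W T n|) * (M * T ^ (-8 : ℝ)))
      ≤ T ^ 3 * ((C * T ^ 4) * (M * T ^ (-8 : ℝ))) := by gcongr
    _ = (C * M) * (T ^ 7 * T ^ (-8 : ℝ)) := by ring
    _ = (C * M) * T⁻¹ := by
      congr 1
      rw [← Real.rpow_natCast T 7, ← Real.rpow_add hTpos, ← Real.rpow_neg_one]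
      norm_num

/-- **M06b.** `ξ/L = -s + th ≥ -1 + η - 1/2`, `j = 2`. -/
theorem mean_X2DB {W : ℝ → ℝ} (h : WF W) {Ψ : ℝ × ℝ × ℝ → ℝ} (hΨ : SF (Reg 1) Ψ) :
    HasMean (fun T t => XX t ^ 2 * DW W T t * BB (GG Ψ) T t) 0 := by
  refine ⟨?_, ?_, ?_⟩
  · intro T
    have c2 : Continuous fun t : ℝ => BB (GG Ψ) T t := by
      have := BS_cont Ψ 0 T
      simpa only [M06b_BB_eq] using this.congr (fun t => M06b_BB_eq Ψ T t)
    exact ((XX_cont.pow 2).mul (DW_cont W T)).mul c2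
  · obtain ⟨C₁, hC₁, hb₁⟩ := DS_bdd h 0
    obtain ⟨C₂, hC₂, hb₂⟩ := BS_bdd hΨ.smooth hΨ.hcs 0
    refine ⟨C₁ * C₂, 7, by positivity, ?_⟩
    intro T hT t
    have e1 := hb₁ T (by linarith only [hT]) t
    have e2 := hb₂ T (by linarith only [hT]) t
    rw [M06b_DW_eq] at e1
    rw [M06b_BB_eq] at e2
    rw [norm_mul, norm_mul, norm_pow, XX_norm, one_pow, one_mul]
    have hT0 : 0 ≤ T := by linarith only [hT]
    calc ‖DW W T t‖ * ‖BB (GG Ψ) T t‖ ≤ (C₁ * T ^ 4) * (C₂ * T ^ 3) := by gcongr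
      _ = C₁ * C₂ * T ^ 7 := by ring
      _ ≤ C₁ * C₂ * (T * (1 + |t|)) ^ 7 := by
        have : T ≤ T * (1 + |t|) := by nlinarith only [abs_nonneg t, hT]
        gcongr
  · intro δ hδ τ hτ
    obtain ⟨C, T₀, hbound⟩ := M06b_bound h (TF_GG hΨ.smooth hΨ.hcs hΨ.supp) hδ
    refine squeeze_zero_norm' (a := fun T : ℝ => C * T⁻¹) ?_ ?_
    · filter_upwards [eventually_ge_atTop (max T₀ (Real.exp 1)), hτ] with T hT hτT
      have hTe : Real.exp 1 ≤ T := le_trans (le_max_right _ _) hT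
      have hT1 : 1 < T := lt_of_lt_of_le (by linarith only [Real.add_one_lt_exp (one_ne_zero)]) hTe
      have hlog1 : 1 ≤ Real.log T := by
        rw [Real.le_log_iff_exp_le (by linarith only [hT1])]
        exact hTe
      have hden : 1 ≤ NN T := by
        unfold NN
        have h1 : 1 ≤ HH T := by
          unfold HH
          rw [one_le_div (by linarith only [hlog1])]
          exact (Real.log_le_sub_one_of_pos (by linarith only [hT1])).trans (by linarith only [])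
        have h2 : 1 ≤ √π := by
          rw [Real.one_le_sqrt]
          linarith only [Real.pi_gt_three]
        have h3 : 1 ≤ Real.log T ^ 9 := one_le_pow₀ hlog1
        exact one_le_mul_of_one_le_of_one_le (one_le_mul_of_one_le_of_one_le h1 h2) h3
      rw [norm_div, Complex.norm_real, Real.norm_of_nonneg (by linarith only [hden] : (0:ℝ) ≤ NN T)]
      refine (div_le_self (norm_nonneg _) hden).trans ?_
      exact hbound T (le_trans (le_max_left _ _) hT) (τ T) hτT.1 hτT.2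
    · have : Tendsto (fun T : ℝ => C * T⁻¹) atTop (𝓝 (C * 0)) := tendsto_inv_atTop_zero.const_mul _
      rw [mul_zero] at this
      exact this

end K3

end

section

/-! Row M06c: the mean of `χ³ D D` vanishes. -/

namespace K3
open Complex MeasureTheory Filter Topology Set S6
open scoped Real ComplexConjugate

theorem M06c_DW_eq (W : ℝ → ℝ) (T t : ℝ) : DS W 0 T t = DW W T t := by
  unfold DS
  rw [zero_div, add_zero]

theorem M06c_expand (W₁ W₂ : ℝ → ℝ) {T : ℝ} (hT : 1 < T) (τ : ℝ) :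
    (∫ t : ℝ, XX t ^ 3 * DW W₁ T t * DW W₂ T t * ((win T τ t : ℝ) : ℂ)) =
      ∑ n ∈ Finset.Icc 1 ⌊T⌋₊, ∑ m ∈ Finset.Icc 1 ⌊T⌋₊, ((dc W₁ T n * dc W₂ T m : ℝ) : ℂ) *
      ∫ t : ℝ, XX t ^ 3 * cexp (((t * (-Real.log n - Real.log m) : ℝ) : ℂ) * I) *
        ((win T τ t : ℝ) : ℂ) := by
  have h1 : ∀ t : ℝ, XX t ^ 3 * DW W₁ T t * DW W₂ T t * ((win T τ t : ℝ) : ℂ) =
      ∑ n ∈ Finset.Icc 1 ⌊T⌋₊, ∑ m ∈ Finset.Icc 1 ⌊T⌋₊, ((dc W₁ T n * dc W₂ T m : ℝ) : ℂ) *
        (XX t ^ 3 * cexp (((t * (-Real.log n - Real.log m) : ℝ) : ℂ) * I) *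
        ((win T τ t : ℝ) : ℂ)) := by
    intro t
    rw [mul_assoc (XX t ^ 3), DW, DW, Finset.sum_mul_sum, Finset.mul_sum, Finset.sum_mul]
    refine Finset.sum_congr rfl fun n _ => ?_
    rw [Finset.mul_sum, Finset.sum_mul]
    refine Finset.sum_congr rfl fun m _ => ?_
    have h2 : cexp (((t * (-Real.log n - Real.log m) : ℝ) : ℂ) * I) =
        cexp (-(((t * Real.log n : ℝ) : ℂ) * I)) *
        cexp (-(((t * Real.log m : ℝ) : ℂ) * I)) := by
      rw [← Complex.exp_add]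
      congr 1
      push_cast
      ring
    rw [h2]
    push_cast
    ring
  have h3 : ∀ (n m : ℕ), Integrable fun t : ℝ => ((dc W₁ T n * dc W₂ T m : ℝ) : ℂ) *
        (XX t ^ 3 * cexp (((t * (-Real.log n - Real.log m) : ℝ) : ℂ) * I) *
        ((win T τ t : ℝ) : ℂ)) := by
    intro n m
    refine Integrable.const_mul ?_ _
    refine I3aux_int_bdd hT τ (C := 1) ((XX_cont.pow 3).mul (by fun_prop)) fun t => ?_
    rw [norm_mul, norm_pow, I3aux_cexp_norm, XX_norm, one_pow, mul_one]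
  simp_rw [h1]
  rw [integral_finsetSum _ fun n _ => integrable_finsetSum _ fun m _ => h3 n m]
  refine Finset.sum_congr rfl fun n _ => ?_
  rw [integral_finsetSum _ fun m _ => h3 n m]
  refine Finset.sum_congr rfl fun m _ => ?_
  rw [integral_const_mul]

theorem M06c_bound {W₁ W₂ : ℝ → ℝ} (h₁ : WF W₁) (h₂ : WF W₂)
    {δ : ℝ} (hδ : 0 < δ) : ∃ C T₀ : ℝ, ∀ T ≥ T₀, ∀ τ : ℝ, δ * T ≤ τ → τ ≤ T →
      ‖∫ t : ℝ, XX t ^ 3 * DW W₁ T t * DW W₂ T t * ((win T τ t : ℝ) : ℂ)‖ ≤ C * T⁻¹ := by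
  obtain ⟨C₁, hC₁0, hC₁⟩ := dc_sum h₁
  obtain ⟨C₂, hC₂0, hC₂⟩ := dc_sum h₂
  obtain ⟨T₀, hT₀⟩ := XX_vanish (j := 3) (by norm_num) hδ (η := 1) (by norm_num) 0 9
  refine ⟨C₁ * C₂, max T₀ (Real.exp 1), ?_⟩
  intro T hT τ hτ1 hτ2
  have hTe : Real.exp 1 ≤ T := le_trans (le_max_right _ _) hT
  have hT1 : 1 < T := lt_of_lt_of_le (by linarith only [Real.add_one_lt_exp (one_ne_zero)]) hTe
  have hTpos : 0 < T := by linarith only [hT1]
  rw [M06c_expand W₁ W₂ hT1]
  have hTp : 0 < T ^ (-9 : ℝ) := Real.rpow_pos_of_pos hTpos _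
  have hlog : ∀ n ∈ Finset.Icc 1 ⌊T⌋₊, 0 ≤ Real.log (n : ℝ) ∧ Real.log (n : ℝ) ≤ Real.log T := by
    intro n hn
    rw [Finset.mem_Icc] at hn
    have hn1 : (1 : ℝ) ≤ n := by exact_mod_cast hn.1
    have hfl : (⌊T⌋₊ : ℝ) ≤ T := Nat.floor_le hTpos.le
    have hnT : (n : ℝ) ≤ T := by
      have : (n : ℝ) ≤ (⌊T⌋₊ : ℝ) := by exact_mod_cast hn.2
      linarith only [hfl, this]
    exact ⟨Real.log_nonneg hn1, Real.log_le_log (by linarith only [hn1]) hnT⟩
  have hterm : ∀ n ∈ Finset.Icc 1 ⌊T⌋₊, ∀ m ∈ Finset.Icc 1 ⌊T⌋₊,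
      ‖((dc W₁ T n * dc W₂ T m : ℝ) : ℂ) *
      ∫ t : ℝ, XX t ^ 3 * cexp (((t * (-Real.log n - Real.log m) : ℝ) : ℂ) * I) *
        ((win T τ t : ℝ) : ℂ)‖ ≤ |dc W₁ T n| * (|dc W₂ T m| * T ^ (-9 : ℝ)) := by
    intro n hn m hm
    obtain ⟨a1, a2⟩ := hlog n hn
    obtain ⟨b1, b2⟩ := hlog m hm
    have hlo : (1 - ((3 : ℕ) : ℝ)) * Real.log T ≤ -Real.log n - Real.log m := by
      push_cast
      linarith only [a2, b2]
    have hhi : -Real.log n - Real.log m ≤ 0 * Real.log T := by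
      linarith only [a1, b1]
    have hv := hT₀ T (le_trans (le_max_left _ _) hT) τ hτ1 hτ2 (-Real.log n - Real.log m) hlo hhi
    rw [norm_mul, Complex.norm_real, norm_mul, Real.norm_eq_abs, Real.norm_eq_abs, mul_assoc]
    refine mul_le_mul_of_nonneg_left ?_ (abs_nonneg _)
    exact mul_le_mul_of_nonneg_left hv (abs_nonneg _)
  refine (norm_sum_le _ _).trans ?_
  refine (Finset.sum_le_sum fun n hn => (norm_sum_le _ _).trans
    (Finset.sum_le_sum fun m hm => hterm n hn m hm)).trans ?_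
  simp_rw [← Finset.mul_sum, ← Finset.sum_mul]
  have hs1 := hC₁ T hT1.le
  have hs2 := hC₂ T hT1.le
  have hs0 : 0 ≤ ∑ n ∈ Finset.Icc 1 ⌊T⌋₊, |dc W₂ T n| := Finset.sum_nonneg fun n _ => abs_nonneg _
  calc (∑ n ∈ Finset.Icc 1 ⌊T⌋₊, |dc W₁ T n|) *
      ((∑ n ∈ Finset.Icc 1 ⌊T⌋₊, |dc W₂ T n|) * T ^ (-9 : ℝ))
      ≤ (C₁ * T ^ 4) * ((C₂ * T ^ 4) * T ^ (-9 : ℝ)) := by gcongr
    _ = (C₁ * C₂) * (T ^ 8 * T ^ (-9 : ℝ)) := by ring
    _ = (C₁ * C₂) * T⁻¹ := by
      congr 1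
      rw [← Real.rpow_natCast T 8, ← Real.rpow_add hTpos, ← Real.rpow_neg_one]
      norm_num

/-- **M06c.** `ξ/L ≥ -2`, `j = 3`. -/
theorem mean_X3DD {W₁ W₂ : ℝ → ℝ} (h₁ : WF W₁) (h₂ : WF W₂) :
    HasMean (fun T t => XX t ^ 3 * DW W₁ T t * DW W₂ T t) 0 := by
  refine ⟨?_, ?_, ?_⟩
  · intro T
    exact ((XX_cont.pow 3).mul (DW_cont W₁ T)).mul (DW_cont W₂ T)
  · obtain ⟨C₁, hC₁, hb₁⟩ := DS_bdd h₁ 0
    obtain ⟨C₂, hC₂, hb₂⟩ := DS_bdd h₂ 0
    refine ⟨C₁ * C₂, 8, by positivity, ?_⟩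
    intro T hT t
    have e1 := hb₁ T (by linarith only [hT]) t
    have e2 := hb₂ T (by linarith only [hT]) t
    rw [M06c_DW_eq] at e1 e2
    rw [norm_mul, norm_mul, norm_pow, XX_norm, one_pow, one_mul]
    have hT0 : 0 ≤ T := by linarith only [hT]
    calc ‖DW W₁ T t‖ * ‖DW W₂ T t‖ ≤ (C₁ * T ^ 4) * (C₂ * T ^ 4) := by gcongr
      _ = C₁ * C₂ * T ^ 8 := by ring
      _ ≤ C₁ * C₂ * (T * (1 + |t|)) ^ 8 := by
        have : T ≤ T * (1 + |t|) := by nlinarith only [abs_nonneg t, hT]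
        gcongr
  · intro δ hδ τ hτ
    obtain ⟨C, T₀, hbound⟩ := M06c_bound h₁ h₂ hδ
    refine squeeze_zero_norm' (a := fun T : ℝ => C * T⁻¹) ?_ ?_
    · filter_upwards [eventually_ge_atTop (max T₀ (Real.exp 1)), hτ] with T hT hτT
      have hTe : Real.exp 1 ≤ T := le_trans (le_max_right _ _) hT
      have hT1 : 1 < T := lt_of_lt_of_le (by linarith only [Real.add_one_lt_exp (one_ne_zero)]) hTe
      have hlog1 : 1 ≤ Real.log T := by
        rw [Real.le_log_iff_exp_le (by linarith only [hT1])]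
        exact hTe
      have hden : 1 ≤ NN T := by
        unfold NN
        have h1 : 1 ≤ HH T := by
          unfold HH
          rw [one_le_div (by linarith only [hlog1])]
          exact (Real.log_le_sub_one_of_pos (by linarith only [hT1])).trans (by linarith only [])
        have h2 : 1 ≤ √π := by
          rw [Real.one_le_sqrt]
          linarith only [Real.pi_gt_three]
        have h3 : 1 ≤ Real.log T ^ 9 := one_le_pow₀ hlog1
        exact one_le_mul_of_one_le_of_one_le (one_le_mul_of_one_le_of_one_le h1 h2) h3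
      rw [norm_div, Complex.norm_real, Real.norm_of_nonneg (by linarith only [hden] : (0:ℝ) ≤ NN T)]
      refine (div_le_self (norm_nonneg _) hden).trans ?_
      exact hbound T (le_trans (le_max_left _ _) hT) (τ T) hτT.1 hτT.2
    · have : Tendsto (fun T : ℝ => C * T⁻¹) atTop (𝓝 (C * 0)) := tendsto_inv_atTop_zero.const_mul _
      rw [mul_zero] at this
      exact this

end K3

end

section

/-!
# MP_069854_nt, K3, level 0, row M07a (helper21)
-/

namespace K3
open Complex MeasureTheory Filter Topology Set S6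
open scoped Real ComplexConjugate

private theorem m07a_cos (a : ℝ) : Continuous fun s : ℝ => Real.cos (a * s) := by fun_prop

private theorem m07a_sin (a : ℝ) : Continuous fun s : ℝ => Real.sin (a * s) := by fun_prop

private theorem m07a_int {f : ℝ → ℂ} (hf : Continuous f) :
    IntervalIntegrable f volume 0 1 := hf.intervalIntegrable 0 1

private theorem m07a_DDS_cont (W : ℝ → ℝ) (a b T : ℝ) :
    Continuous fun t => DS W a T t * conj (DS W b T t) :=
  (DS_cont W a T).mul (Complex.continuous_conj.comp (DS_cont W b T))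

private theorem m07a_add2 {f g : ℝ → ℂ} (hf : Continuous f) (hg : Continuous g) :
    (∫ s in (0 : ℝ)..1, f s) + (∫ s in (0 : ℝ)..1, g s) = ∫ s in (0 : ℝ)..1, (f s + g s) :=
  (intervalIntegral.integral_add (hf.intervalIntegrable 0 1) (hg.intervalIntegrable 0 1)).symm

private theorem m07a_add4 {f g k l : ℝ → ℂ} (hf : Continuous f) (hg : Continuous g)
    (hk : Continuous k) (hl : Continuous l) :
    (∫ s in (0 : ℝ)..1, f s) + (∫ s in (0 : ℝ)..1, g s) + (∫ s in (0 : ℝ)..1, k s) +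
      (∫ s in (0 : ℝ)..1, l s) = ∫ s in (0 : ℝ)..1, (f s + g s + k s + l s) := by
  have h1 := m07a_add2 hf hg
  have h2 := m07a_add2 (f := fun s => f s + g s) (hf.add hg) hk
  have h3 := m07a_add2 (f := fun s => f s + g s + k s) ((hf.add hg).add hk) hl
  rw [h1, h2, h3]

theorem mean_DDS {W : ℝ → ℝ} (h : WF W) (a b : ℝ) :
    HasMean (fun T t => DS W a T t * conj (DS W b T t)) (md W (a - b)) := by
  have hCa := h.mul_fn (m07a_cos a)
  have hSa := h.mul_fn (m07a_sin a)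
  have hCb := h.mul_fn (m07a_cos b)
  have hSb := h.mul_fn (m07a_sin b)
  have h1 := mean_DD hCa hCb
  have h2 := (mean_DD hCa hSb).const_mul I
  have h3 := (mean_DD hSa hCb).const_mul (-I)
  have h4 := mean_DD hSa hSb
  have hall := ((h1.add h2).add h3).add h4
  have hval : md W (a - b) =
      ((A3 * ∫ s in (0 : ℝ)..1, (W s * Real.cos (a * s)) * (W s * Real.cos (b * s)) *
          (s ^ 8 / Nat.factorial 8) : ℝ) : ℂ) +
        I * ((A3 * ∫ s in (0 : ℝ)..1, (W s * Real.cos (a * s)) * (W s * Real.sin (b * s)) *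
          (s ^ 8 / Nat.factorial 8) : ℝ) : ℂ) +
        -I * ((A3 * ∫ s in (0 : ℝ)..1, (W s * Real.sin (a * s)) * (W s * Real.cos (b * s)) *
          (s ^ 8 / Nat.factorial 8) : ℝ) : ℂ) +
        ((A3 * ∫ s in (0 : ℝ)..1, (W s * Real.sin (a * s)) * (W s * Real.sin (b * s)) *
          (s ^ 8 / Nat.factorial 8) : ℝ) : ℂ) := by
    unfold md
    push_cast
    simp only [← intervalIntegral.integral_ofReal]
    have hW : Continuous fun s : ℝ => ((W s : ℝ) : ℂ) := Complex.continuous_ofReal.comp h.cont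
    have hi : ∀ f : ℝ → ℂ, Continuous f → IntervalIntegrable f volume 0 1 :=
      fun f hf => hf.intervalIntegrable 0 1
    rw [← mul_assoc I, ← mul_assoc (-I), mul_comm I, mul_comm (-I), mul_assoc, mul_assoc,
      ← mul_add, ← mul_add, ← mul_add]
    congr 1
    rw [← intervalIntegral.integral_const_mul, ← intervalIntegral.integral_const_mul]
    have c1 : Continuous fun s : ℝ => (((W s * Real.cos (a * s)) * (W s * Real.cos (b * s)) *
          (s ^ 8 / Nat.factorial 8) : ℝ) : ℂ) :=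
      Complex.continuous_ofReal.comp (by have := h.cont; fun_prop)
    have c2 : Continuous fun s : ℝ => I * (((W s * Real.cos (a * s)) * (W s * Real.sin (b * s)) *
          (s ^ 8 / Nat.factorial 8) : ℝ) : ℂ) :=
      continuous_const.mul (Complex.continuous_ofReal.comp (by have := h.cont; fun_prop))
    have c3 : Continuous fun s : ℝ => -I * (((W s * Real.sin (a * s)) * (W s * Real.cos (b * s)) *
          (s ^ 8 / Nat.factorial 8) : ℝ) : ℂ) :=
      continuous_const.mul (Complex.continuous_ofReal.comp (by have := h.cont; fun_prop))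
    have c4 : Continuous fun s : ℝ => (((W s * Real.sin (a * s)) * (W s * Real.sin (b * s)) *
          (s ^ 8 / Nat.factorial 8) : ℝ) : ℂ) :=
      Complex.continuous_ofReal.comp (by have := h.cont; fun_prop)
    rw [m07a_add4 c1 c2 c3 c4]
    refine intervalIntegral.integral_congr fun s _ => ?_
    show ((W s : ℝ) : ℂ) ^ 2 * ((s : ℂ) ^ 8 / ((Nat.factorial 8 : ℕ) : ℂ)) *
      cexp (-(((a : ℂ) - b) * s * I)) = _
    have he : cexp (-((((a - b) * s : ℝ) : ℂ) * I)) =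
        ((Real.cos ((a - b) * s) : ℝ) : ℂ) - I * ((Real.sin ((a - b) * s) : ℝ) : ℂ) := by
      rw [← neg_mul, Complex.exp_mul_I, Complex.cos_neg, Complex.sin_neg, Complex.ofReal_cos,
        Complex.ofReal_sin]
      ring
    push_cast at he
    rw [he, sub_mul (a : ℂ) b s, Complex.cos_sub, Complex.sin_sub]
    push_cast
    ring_nf
  rw [hval]
  refine hall.congr (fun T => m07a_DDS_cont W a b T) ?_
  intro T hT t
  rw [DS_eq W a hT t, DS_eq W b hT t, map_sub, map_mul, Complex.conj_I]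
  ring_nf
  simp only [Complex.I_sq]
  ring

theorem mean_zDS {W : ℝ → ℝ} (h : WF W) (a : ℝ) :
    HasMean (fun T t => ze t ^ 3 * conj (DS W a T t)) (mz W a) := by
  have hC := h.mul_fn (m07a_cos a)
  have hS := h.mul_fn (m07a_sin a)
  have h1 := mean_zD hC
  have h2 := (mean_zD hS).const_mul I
  have hall := h1.add h2
  have hval : mz W a =
      ((A3 * ∫ s in (0 : ℝ)..1, (W s * Real.cos (a * s)) * (s ^ 8 / Nat.factorial 8) : ℝ) : ℂ) +
        I * ((A3 * ∫ s in (0 : ℝ)..1, (W s * Real.sin (a * s)) *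
          (s ^ 8 / Nat.factorial 8) : ℝ) : ℂ) := by
    unfold mz
    push_cast
    simp only [← intervalIntegral.integral_ofReal]
    have hi : ∀ f : ℝ → ℂ, Continuous f → IntervalIntegrable f volume 0 1 :=
      fun f hf => hf.intervalIntegrable 0 1
    rw [← mul_assoc I, mul_comm I, mul_assoc, ← mul_add]
    congr 1
    rw [← intervalIntegral.integral_const_mul]
    have c1 : Continuous fun s : ℝ => (((W s * Real.cos (a * s)) *
          (s ^ 8 / Nat.factorial 8) : ℝ) : ℂ) :=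
      Complex.continuous_ofReal.comp (by have := h.cont; fun_prop)
    have c2 : Continuous fun s : ℝ => I * (((W s * Real.sin (a * s)) *
          (s ^ 8 / Nat.factorial 8) : ℝ) : ℂ) :=
      continuous_const.mul (Complex.continuous_ofReal.comp (by have := h.cont; fun_prop))
    rw [m07a_add2 c1 c2]
    refine intervalIntegral.integral_congr fun s _ => ?_
    show ((W s : ℝ) : ℂ) * ((s : ℂ) ^ 8 / ((Nat.factorial 8 : ℕ) : ℂ)) *
      cexp ((a : ℂ) * s * I) = _
    have he : cexp (((a * s : ℝ) : ℂ) * I) =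
        ((Real.cos (a * s) : ℝ) : ℂ) + I * ((Real.sin (a * s) : ℝ) : ℂ) := by
      rw [Complex.exp_mul_I, Complex.ofReal_cos, Complex.ofReal_sin]
      ring
    push_cast at he
    rw [he]
    push_cast
    ring
  rw [hval]
  refine hall.congr
    (fun T => (ze_cont.pow 3).mul (Complex.continuous_conj.comp (DS_cont W a T))) ?_
  intro T hT t
  rw [DS_eq W a hT t, map_sub, map_mul, Complex.conj_I]
  ring

end K3

end

section

namespace K3
open Complex MeasureTheory Filter Topology Set S6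
open scoped Real ComplexConjugate

theorem mean_XDBS {W : ℝ → ℝ} (h : WF W) {Ψ : ℝ × ℝ × ℝ → ℝ} (hΨ : SF (Reg 1 ∩ Hneg) Ψ) (a b : ℝ) :
    HasMean (fun T t => XX t * DS W a T t * conj (BS Ψ b T t)) 0 := by
  have g1 : WF (fun s => W s * Real.cos (a * s)) := h.mul_fn (g := fun s => Real.cos (a * s)) (by fun_prop)
  have g2 : WF (fun s => W s * Real.sin (a * s)) := h.mul_fn (g := fun s => Real.sin (a * s)) (by fun_prop)
  have f1 := hΨ.mul_fn (g := fun y => Real.cos (b * y)) (by fun_prop)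
  have f2 := hΨ.mul_fn (g := fun y => Real.sin (b * y)) (by fun_prop)
  have hs := (((mean_XDB g1 f1).add ((mean_XDB g1 f2).const_mul (-I))).add
    ((mean_XDB g2 f1).const_mul (-I))).add ((mean_XDB g2 f2).const_mul (-1))
  simp only [mul_zero, add_zero] at hs
  refine hs.congr (fun T => ?_) (fun T hT t => ?_)
  · exact (XX_cont.mul (DS_cont W a T)).mul (Complex.continuous_conj.comp (BS_cont Ψ b T))
  · rw [DS_eq W a hT t, BS_eq hΨ.smooth b hT t, map_add, map_mul, conj_I]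
    linear_combination (XX t * DW (fun s => W s * Real.sin (a * s)) T t *
      conj (BB (GG fun p => Ψ p * Real.sin (b * th p)) T t)) * I_sq

theorem mean_X2DBS {W : ℝ → ℝ} (h : WF W) {Ψ : ℝ × ℝ × ℝ → ℝ} (hΨ : SF (Reg 1) Ψ) (a b : ℝ) :
    HasMean (fun T t => XX t ^ 2 * DS W a T t * BS Ψ b T t) 0 := by
  have g1 : WF (fun s => W s * Real.cos (a * s)) := h.mul_fn (g := fun s => Real.cos (a * s)) (by fun_prop)
  have g2 : WF (fun s => W s * Real.sin (a * s)) := h.mul_fn (g := fun s => Real.sin (a * s)) (by fun_prop)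
  have f1 := hΨ.mul_fn (g := fun y => Real.cos (b * y)) (by fun_prop)
  have f2 := hΨ.mul_fn (g := fun y => Real.sin (b * y)) (by fun_prop)
  have hs := (((mean_X2DB g1 f1).add ((mean_X2DB g1 f2).const_mul I)).add
    ((mean_X2DB g2 f1).const_mul (-I))).add (mean_X2DB g2 f2)
  simp only [mul_zero, add_zero] at hs
  refine hs.congr (fun T => ?_) (fun T hT t => ?_)
  · exact ((XX_cont.pow 2).mul (DS_cont W a T)).mul (BS_cont Ψ b T)
  · rw [DS_eq W a hT t, BS_eq hΨ.smooth b hT t]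
    linear_combination (-(XX t ^ 2 * DW (fun s => W s * Real.sin (a * s)) T t *
      BB (GG fun p => Ψ p * Real.sin (b * th p)) T t)) * I_sq

theorem mean_X3DDS {W : ℝ → ℝ} (h : WF W) (a b : ℝ) :
    HasMean (fun T t => XX t ^ 3 * DS W a T t * DS W b T t) 0 := by
  have g1 : WF (fun s => W s * Real.cos (a * s)) := h.mul_fn (g := fun s => Real.cos (a * s)) (by fun_prop)
  have g2 : WF (fun s => W s * Real.sin (a * s)) := h.mul_fn (g := fun s => Real.sin (a * s)) (by fun_prop)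
  have f1 : WF (fun s => W s * Real.cos (b * s)) := h.mul_fn (g := fun s => Real.cos (b * s)) (by fun_prop)
  have f2 : WF (fun s => W s * Real.sin (b * s)) := h.mul_fn (g := fun s => Real.sin (b * s)) (by fun_prop)
  have hs := (((mean_X3DD g1 f1).add ((mean_X3DD g1 f2).const_mul (-I))).add
    ((mean_X3DD g2 f1).const_mul (-I))).add ((mean_X3DD g2 f2).const_mul (-1))
  simp only [mul_zero, add_zero] at hs
  refine hs.congr (fun T => ?_) (fun T hT t => ?_)
  · exact ((XX_cont.pow 3).mul (DS_cont W a T)).mul (DS_cont W b T)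
  · rw [DS_eq W a hT t, DS_eq W b hT t]
    linear_combination ((XX t ^ 3 * DW (fun s => W s * Real.sin (a * s)) T t *
      DW (fun s => W s * Real.sin (b * s)) T t)) * I_sq

end K3

end

section

/-! Row M08: copy of row K07c (helper85) with `DS` in place of `BS`. -/

namespace K3
open Complex MeasureTheory Filter Topology Set S6
open scoped Real ComplexConjugate

theorem crudeD {W : ℝ → ℝ} (h : WF W) (a : ℝ) {δ : ℝ} (hδ : 0 < δ) {τ : ℝ → ℝ}
    (hτ : Cen δ τ) :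
    Tendsto (fun T : ℝ => (∫ t : ℝ, ‖ze t‖ ^ 3 * ‖DS W a T t‖ * win T (τ T) t) / (T * NN T)) atTop
      (𝓝 0) := by
  obtain ⟨C6, hC6, h6⟩ := k07c_six
  obtain ⟨Cz, hCz, hz⟩ := ze_bdd
  obtain ⟨CB, hCB, hB⟩ := DS_bdd h a
  have hM := mean_DDS h a a
  set M : ℂ := md W (a - a) with hMdef
  have hlim := (hM.lim δ hδ τ hτ).norm
  have hev := hlim.eventually (Iic_mem_nhds (show ‖M‖ < ‖M‖ + 1 by linarith only []))
  have hlog3 : Tendsto (fun T : ℝ => Real.log T) atTop atTop := Real.tendsto_log_atTop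
  have hg : Tendsto (fun T : ℝ => (‖M‖ + 1) / Real.log T ^ 3 + C6 / (√π * Real.log T ^ 4)) atTop (𝓝 0) := by
    have g1 : Tendsto (fun T : ℝ => (‖M‖ + 1) / Real.log T ^ 3) atTop (𝓝 0) :=
      tendsto_const_nhds.div_atTop ((tendsto_pow_atTop (by norm_num)).comp hlog3)
    have g2 : Tendsto (fun T : ℝ => C6 / (√π * Real.log T ^ 4)) atTop (𝓝 0) :=
      tendsto_const_nhds.div_atTop (((tendsto_pow_atTop (by norm_num)).comp hlog3).const_mul_atTop
        (by positivity))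
    simpa using g1.add g2
  refine squeeze_zero' ?_ ?_ hg
  · filter_upwards [eventually_ge_atTop 1] with T hT
    refine div_nonneg (integral_nonneg fun t => ?_) ?_
    · have := (A68.win_pos T (τ T) t).le
      positivity
    · have : 0 ≤ Real.log T := Real.log_nonneg hT
      unfold NN HH
      positivity
  · filter_upwards [hev, h6, hτ, eventually_ge_atTop 2,
      hlog3.eventually_ge_atTop 1] with T hT1 hT6 hTτ hT2 hL
    have hT0 : 0 < T := by linarith only [hT2]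
    have hTT : 1 < T := by linarith only [hT2]
    set L := Real.log T with hLdef
    have hL0 : 0 < L := by linarith only [hL]
    have hNN : 0 < NN T := by
      unfold NN HH
      rw [← hLdef]
      positivity
    have hτ0 : 0 ≤ τ T := le_trans (by positivity) hTτ.1
    have h6' := hT6 (τ T) hτ0 hTτ.2
    have hzc := ze_cont
    have hBc := DS_cont W a T
    have hBB : ∀ t, ‖DS W a T t‖ ≤ CB * T ^ 4 := fun t => hB T (by linarith only [hT2]) t
    -- square
    have hsq : ∫ t : ℝ, ‖DS W a T t‖ ^ 2 * win T (τ T) t ≤ (‖M‖ + 1) * NN T := by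
      have e : ∫ t : ℝ, DS W a T t * conj (DS W a T t) * ((win T (τ T) t : ℝ) : ℂ) =
          ((∫ t : ℝ, ‖DS W a T t‖ ^ 2 * win T (τ T) t : ℝ) : ℂ) := by
        rw [← integral_complex_ofReal]
        congr 1
        ext t
        rw [mul_conj, normSq_eq_norm_sq]
        push_cast
        ring
      rw [e, norm_div, Complex.norm_real, Complex.norm_real, Real.norm_of_nonneg hNN.le,
        div_le_iff₀ hNN] at hT1
      exact (le_abs_self _).trans hT1
    -- integrability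
    have i1 : Integrable fun t => ‖DS W a T t‖ ^ 2 * win T (τ T) t := by
      have := A68.int_win hTT (f := fun t => ‖DS W a T t‖ ^ 2) (by fun_prop) (C := (CB * T ^ 4) ^ 2)
        (n := 0) (fun t => by
          rw [Real.norm_of_nonneg (by positivity), pow_zero, mul_one]
          gcongr; exact hBB t) (τ T)
      simpa [mul_comm] using this
    have i2 : Integrable fun t => ‖ze t‖ ^ 6 * win T (τ T) t := by
      have := A68.int_win hTT (f := fun t => ‖ze t‖ ^ 6) (by fun_prop) (C := Cz ^ 6)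
        (n := 6) (fun t => by
          rw [Real.norm_of_nonneg (by positivity)]
          calc ‖ze t‖ ^ 6 ≤ (Cz * (1 + |t|)) ^ 6 := by gcongr; exact hz t
            _ = _ := by ring) (τ T)
      simpa [mul_comm] using this
    have i3 : Integrable fun t => ‖ze t‖ ^ 3 * ‖DS W a T t‖ * win T (τ T) t := by
      have := A68.int_win hTT (f := fun t => ‖ze t‖ ^ 3 * ‖DS W a T t‖) (by fun_prop)
        (C := Cz ^ 3 * (CB * T ^ 4))
        (n := 3) (fun t => by
          rw [Real.norm_of_nonneg (by positivity)]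
          calc ‖ze t‖ ^ 3 * ‖DS W a T t‖ ≤ (Cz * (1 + |t|)) ^ 3 * (CB * T ^ 4) := by
                gcongr
                · exact hz t
                · exact hBB t
            _ = _ := by ring) (τ T)
      simpa [mul_comm] using this
    set lam : ℝ := T / L ^ 3 with hlam
    have hlam0 : 0 < lam := by positivity
    have hpt : ∀ t, ‖ze t‖ ^ 3 * ‖DS W a T t‖ * win T (τ T) t ≤
        lam * (‖DS W a T t‖ ^ 2 * win T (τ T) t) + lam⁻¹ * (‖ze t‖ ^ 6 * win T (τ T) t) := by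
      intro t
      have hw := (A68.win_pos T (τ T) t).le
      have key : ‖ze t‖ ^ 3 * ‖DS W a T t‖ ≤ lam * ‖DS W a T t‖ ^ 2 + lam⁻¹ * ‖ze t‖ ^ 6 := by
        have h0 : 0 ≤ lam⁻¹ * (‖ze t‖ ^ 3 - lam * ‖DS W a T t‖) ^ 2 := by positivity
        have e0 : lam⁻¹ * (‖ze t‖ ^ 3 - lam * ‖DS W a T t‖) ^ 2 =
            lam⁻¹ * ‖ze t‖ ^ 6 - 2 * (‖ze t‖ ^ 3 * ‖DS W a T t‖) + lam * ‖DS W a T t‖ ^ 2 := by
          field_simp
          ring
        have h3 : 0 ≤ ‖ze t‖ ^ 3 * ‖DS W a T t‖ := by positivity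
        linarith only [h0, e0, h3]
      calc ‖ze t‖ ^ 3 * ‖DS W a T t‖ * win T (τ T) t ≤
            (lam * ‖DS W a T t‖ ^ 2 + lam⁻¹ * ‖ze t‖ ^ 6) * win T (τ T) t := by gcongr
        _ = _ := by ring
    have hint : ∫ t : ℝ, ‖ze t‖ ^ 3 * ‖DS W a T t‖ * win T (τ T) t ≤
        lam * ((‖M‖ + 1) * NN T) + lam⁻¹ * (C6 * (T ^ 3 * L)) := by
      calc ∫ t : ℝ, ‖ze t‖ ^ 3 * ‖DS W a T t‖ * win T (τ T) t ≤
          ∫ t : ℝ, (lam * (‖DS W a T t‖ ^ 2 * win T (τ T) t) + lam⁻¹ * (‖ze t‖ ^ 6 * win T (τ T) t)) :=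
            integral_mono i3 ((i1.const_mul _).add (i2.const_mul _)) hpt
        _ = lam * (∫ t : ℝ, ‖DS W a T t‖ ^ 2 * win T (τ T) t) +
            lam⁻¹ * ∫ t : ℝ, ‖ze t‖ ^ 6 * win T (τ T) t := by
            rw [integral_add (i1.const_mul _) (i2.const_mul _), integral_const_mul, integral_const_mul]
        _ ≤ _ := by gcongr
    rw [div_le_iff₀ (by positivity)]
    refine hint.trans (le_of_eq ?_)
    have hN : NN T = T * √π * L ^ 8 := by
      unfold NN HH
      rw [← hLdef]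
      field_simp
    have hpi : √π ≠ 0 := by positivity
    rw [hN, hlam]
    field_simp

end K3

end

section

/-! Row M09 (helper42) -/

namespace K3
open Complex MeasureTheory Filter Topology Set
open scoped Real ComplexConjugate

/-- **M09.** -/
theorem cutoff0 {w : ℝ → ℝ} (hw : Continuous w) (hw0 : ∀ s, 0 ≤ w s) {η : ℝ} (hη : 0 < η) :
    ∃ W, WF W ∧ (∫ s in (0 : ℝ)..1, w s * (s ^ 8 / Nat.factorial 8)) - η ≤
      ∫ s in (0 : ℝ)..1, w s * ((2 * W s - W s ^ 2) * (s ^ 8 / Nat.factorial 8)) := by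
  obtain ⟨M, hM⟩ := (isCompact_Icc (a := (0:ℝ)) (b := 1)).exists_bound_of_continuousOn hw.continuousOn
  have hM0 : 0 ≤ M := le_trans (norm_nonneg _) (hM 0 (by simp))
  set ε : ℝ := min (1 / 4) (η / (2 * (M + 1))) with hε
  have hεp : 0 < ε := lt_min (by norm_num) (by positivity)
  have hε4 : ε ≤ 1 / 4 := min_le_left _ _
  have hεM : 2 * ε * M ≤ η := by
    have h1 : ε ≤ η / (2 * (M + 1)) := min_le_right _ _
    rw [le_div_iff₀ (by positivity)] at h1
    linarith only [hεp, h1]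
  set W : ℝ → ℝ := fun s => max 0 (min 1 (min ((s - ε / 2) / (ε / 2)) ((1 - ε / 2 - s) / (ε / 2)))) with hW
  have hWc : Continuous W := by
    rw [hW]; fun_prop
  have hW0 : ∀ s, 0 ≤ W s := fun s => le_max_left _ _
  have hW1 : ∀ s, W s ≤ 1 := fun s => max_le (by norm_num) (min_le_left _ _)
  have hWs : ∀ s, W s ≠ 0 → s ∈ Icc (ε / 2) (1 - ε / 2) := by
    intro s hs
    by_contra h
    apply hs
    have : min ((s - ε / 2) / (ε / 2)) ((1 - ε / 2 - s) / (ε / 2)) ≤ 0 := by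
      rw [mem_Icc, not_and_or, not_le, not_le] at h
      rcases h with h | h
      · exact (min_le_left _ _).trans (div_nonpos_of_nonpos_of_nonneg (by linarith only [h]) (by linarith only [hεp]))
      · exact (min_le_right _ _).trans (div_nonpos_of_nonpos_of_nonneg (by linarith only [h]) (by linarith only [hεp]))
    simp only [hW]
    exact max_eq_left ((min_le_right _ _).trans this)
  have hsub : tsupport W ⊆ Icc (ε / 2) (1 - ε / 2) :=
    closure_minimal (fun s hs => hWs s hs) isClosed_Icc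
  have hWin : ∀ s ∈ Icc ε (1 - ε), W s = 1 := by
    intro s hs
    have h1 : 1 ≤ (s - ε / 2) / (ε / 2) := by
      rw [le_div_iff₀ (by linarith only [hεp])]; linarith only [hs.1, hs]
    have h2 : 1 ≤ (1 - ε / 2 - s) / (ε / 2) := by
      rw [le_div_iff₀ (by linarith only [hεp])]; linarith only [hs.2, hs]
    simp only [hW]
    rw [min_eq_left (le_min h1 h2)]
    norm_num
  refine ⟨W, ⟨hWc, HasCompactSupport.of_support_subset_isCompact (isCompact_Icc (a := ε / 2) (b := 1 - ε / 2)) (fun s hs => hWs s hs),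
    hsub.trans (fun s hs => ⟨by linarith only [hs.1, hεp, hs], by linarith only [hs.2, hεp, hs]⟩)⟩, ?_⟩
  have hf : Continuous fun s : ℝ => w s * (s ^ 8 / Nat.factorial 8) := by fun_prop
  have hg : Continuous fun s : ℝ => w s * ((2 * W s - W s ^ 2) * (s ^ 8 / Nat.factorial 8)) := by fun_prop
  rw [sub_le_iff_le_add, ← sub_le_iff_le_add', ← intervalIntegral.integral_sub (hf.intervalIntegrable _ _)
    (hg.intervalIntegrable _ _)]
  -- pointwise bound by an explicit continuous function is awkward: split the interval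
  set D : ℝ → ℝ := fun s => w s * (s ^ 8 / Nat.factorial 8) -
    w s * ((2 * W s - W s ^ 2) * (s ^ 8 / Nat.factorial 8)) with hD
  have hDc : Continuous D := hf.sub hg
  have hDe : ∀ s, D s = w s * ((1 - W s) ^ 2 * (s ^ 8 / Nat.factorial 8)) := by
    intro s; simp only [hD]; ring
  have hDb : ∀ s ∈ Icc (0:ℝ) 1, D s ≤ M := by
    intro s hs
    rw [hDe]
    have h1 : w s ≤ M := (le_abs_self _).trans (hM s hs)
    have h2 : (1 - W s) ^ 2 ≤ 1 := by nlinarith only [hW0 s, hW1 s, hW0, hεp, hε4, hW1]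
    have h3 : s ^ 8 / (Nat.factorial 8 : ℝ) ≤ 1 := by
      rw [div_le_one (by positivity)]
      calc s ^ 8 ≤ 1 := pow_le_one₀ hs.1 hs.2
        _ ≤ _ := by exact_mod_cast Nat.factorial_pos 8
    have h4 : 0 ≤ s ^ 8 / (Nat.factorial 8 : ℝ) := by have := hs.1; positivity
    have h5 : (1 - W s) ^ 2 * (s ^ 8 / (Nat.factorial 8 : ℝ)) ≤ 1 := mul_le_one₀ h2 h4 h3
    calc w s * ((1 - W s) ^ 2 * (s ^ 8 / Nat.factorial 8)) ≤ w s * 1 := mul_le_mul_of_nonneg_left h5 (hw0 s)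
      _ ≤ M := by linarith only [h1]
  have i1 : ∫ s in (0:ℝ)..ε, D s ≤ ε * M := by
    have h : ∫ s in (0:ℝ)..ε, D s ≤ ∫ _ in (0:ℝ)..ε, M :=
      intervalIntegral.integral_mono_on hεp.le (hDc.intervalIntegrable _ _)
        (continuous_const.intervalIntegrable _ _)
        (fun s hs => hDb s ⟨hs.1, by linarith only [hs.2, hεp, hε4, hs]⟩)
    simpa using h
  have i3 : ∫ s in (1 - ε)..1, D s ≤ ε * M := by
    have h : ∫ s in (1 - ε)..1, D s ≤ ∫ _ in (1 - ε)..1, M :=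
      intervalIntegral.integral_mono_on (by linarith only [hεp] : 1 - ε ≤ 1) (hDc.intervalIntegrable _ _)
        (continuous_const.intervalIntegrable _ _)
        (fun s hs => hDb s ⟨by linarith only [hs.1, hεp, hε4, hs], hs.2⟩)
    simpa using h
  have i2 : ∫ s in ε..(1 - ε), D s = 0 := by
    rw [intervalIntegral.integral_congr (g := fun _ => (0:ℝ))]
    · simp
    · intro s hs
      rw [uIcc_of_le (by linarith only [hεp, hε4])] at hs
      simp only
      rw [hDe, hWin s hs]; simp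
  rw [← intervalIntegral.integral_add_adjacent_intervals (hDc.intervalIntegrable 0 ε) (hDc.intervalIntegrable ε 1),
    ← intervalIntegral.integral_add_adjacent_intervals (hDc.intervalIntegrable ε (1 - ε)) (hDc.intervalIntegrable (1 - ε) 1)]
  linarith only [hεM, i1, i3, i2]

end K3

end
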