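import Pool.Agent.Lib.MP_069854_nt.Part04
import Pool.Agent.Lib.MP_069854_nt.Part09
import Pool.Agent.Lib.MP_069854_nt.Part10
import Pool.Agent.Lib.MP_39df77_nt.Part23
import Pool.Agent.Lib.MP_39df77_nt.Part25

section

/-!
# MP_069854_nt, K3, level 0: assembly
-/

namespace K3
open Complex MeasureTheory Filter Topology Set S6
open scoped Real ComplexConjugate

noncomputable section

variable {m : ℕ} {δ : ℝ} {τ : ℝ → ℝ}

namespace L0

/-! ### cross terms with `DS` -/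

theorem DS_bdd' {W : ℝ → ℝ} (h : WF W) (a : ℝ) :
    ∃ (D : ℝ) (A : ℕ), 0 ≤ D ∧ ∀ T : ℝ, 1 ≤ T → ∀ t, ‖DS W a T t‖ ≤ D * T ^ A := by
  obtain ⟨C, hC, hb⟩ := DS_bdd h a
  exact ⟨C, 4, hC, hb⟩

theorem DS_shift (W : ℝ → ℝ) (x b T t : ℝ) :
    DS W (b - x) T (t + x / Real.log T) = DS W b T t := by
  unfold DS
  have e1 : t + x / Real.log T + (b - x) / Real.log T = t + b / Real.log T := by ring
  rw [e1]

theorem cross0 {W : ℝ → ℝ} (h : WF W) (x b : ℝ) (hδ : 0 < δ) (hδ1 : δ ≤ 1 / 2) (hτ : CenS δ τ) :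
    Tendsto (fun T : ℝ => (∫ t in Ioi (δ * T / 2), ze (t + x / Real.log T) ^ 3 *
      conj (DS W b T t) * ((ww T (τ T) t : ℝ) : ℂ)) / ((NN T : ℝ) : ℂ)) atTop
      (𝓝 (mz W (b - x))) := by
  have hM : HasMean (fun T t => ze t ^ 3 * (1 : ℂ) * conj (DS W (b - x) T t)) (mz W (b - x)) := by
    have := mean_zDS h (b - x)
    simpa only [mul_one] using this
  have := C8.cross_genA (Y := fun _ => 1) continuous_const (fun _ => norm_one) (κ := 0)
    (C₀ := 0) (t₀ := 1) le_rfl (fun t ht d hd => by simp) x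
    (W := fun T t => conj (DS W (b - x) T t))
    (fun T => Complex.continuous_conj.comp (DS_cont _ _ _))
    (by
      obtain ⟨D, A, hD, hb⟩ := DS_bdd' h (b - x)
      exact ⟨D, A, hD, fun T hT t => by rw [RCLike.norm_conj]; exact hb T hT t⟩)
    (fun δ' hδ' τ' hτ' => by
      simp only [RCLike.norm_conj]
      exact crudeD h (b - x) hδ' hτ') hM hδ hδ1 hτ
  have e0 : cexp (-((((0 : ℝ) : ℂ) * (x : ℂ)) * I)) * mz W (b - x) = mz W (b - x) := by simp
  rw [e0] at this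
  refine this.congr fun T => ?_
  congr 1
  refine integral_congr_ae (Eventually.of_forall fun t => ?_)
  simp only
  rw [DS_shift, one_mul]

theorem XX3_shift : ∃ C t₀ : ℝ, 0 ≤ C ∧ ∀ t ≥ t₀, ∀ d : ℝ, |d| ≤ 1 →
    ‖XX (t - d) ^ 3 - XX t ^ 3 * cexp (-(((3 * d * Real.log (t / (2 * π)) : ℝ) : ℂ) * I))‖ ≤ C / t := by
  obtain ⟨C, t₀, hC, -, hsh⟩ := XX_shift 1
  refine ⟨3 * C, t₀, by positivity, fun t ht d hd => ?_⟩
  have h1 := hsh t ht d hd
  have h2 : cexp (-(((3 * d * Real.log (t / (2 * π)) : ℝ) : ℂ) * I)) =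
      cexp (-(((d * Real.log (t / (2 * π)) : ℝ) : ℂ) * I)) ^ 3 := by
    rw [← Complex.exp_nat_mul]
    congr 1; push_cast; ring
  have hE1 : ‖cexp (-(((d * Real.log (t / (2 * π)) : ℝ) : ℂ) * I))‖ = 1 := by
    rw [show -(((d * Real.log (t / (2 * π)) : ℝ) : ℂ) * I) =
      ((-(d * Real.log (t / (2 * π))) : ℝ) : ℂ) * I by push_cast; ring,
      Complex.norm_exp_ofReal_mul_I]
  rw [h2]
  generalize cexp (-(((d * Real.log (t / (2 * π)) : ℝ) : ℂ) * I)) = E at h1 hE1 ⊢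
  have h3 : XX (t - d) ^ 3 - XX t ^ 3 * E ^ 3 =
      (XX (t - d) - XX t * E) * (XX (t - d) ^ 2 + XX (t - d) * (XX t * E) + (XX t * E) ^ 2) := by
    ring
  rw [h3, norm_mul]
  have h4 : ‖XX (t - d) ^ 2 + XX (t - d) * (XX t * E) + (XX t * E) ^ 2‖ ≤ 3 := by
    refine (norm_add₃_le).trans ?_
    simp only [norm_mul, norm_pow, XX_norm, hE1]
    norm_num
  calc ‖XX (t - d) - XX t * E‖ * ‖XX (t - d) ^ 2 + XX (t - d) * (XX t * E) + (XX t * E) ^ 2‖ ≤
      (C / t) * 3 := by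
        have : 0 ≤ C / t := (norm_nonneg _).trans h1
        gcongr
    _ = 3 * C / t := by ring

theorem cross3 {W : ℝ → ℝ} (h : WF W) (x b : ℝ) (hδ : 0 < δ) (hδ1 : δ ≤ 1 / 2) (hτ : CenS δ τ) :
    Tendsto (fun T : ℝ => (∫ t in Ioi (δ * T / 2), ze (t + x / Real.log T) ^ 3 *
      (XX t ^ 3 * DS W b T t) * ((ww T (τ T) t : ℝ) : ℂ)) / ((NN T : ℝ) : ℂ)) atTop
      (𝓝 (cexp (-((3 * x : ℂ) * I)) * conj (mz W (b - x)))) := by
  have hM : HasMean (fun T t => ze t ^ 3 * XX t ^ 3 * DS W (b - x) T t) (conj (mz W (b - x))) := by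
    have e : (fun T t => ze t ^ 3 * XX t ^ 3 * DS W (b - x) T t) =
        fun T t => conj (ze t ^ 3 * conj (DS W (b - x) T t)) := by
      funext T t
      rw [map_mul, map_pow, Complex.conj_conj, ← XX_ze]; ring
    rw [e]
    exact (mean_zDS h (b - x)).conj
  obtain ⟨C, t₀, hC, hsh⟩ := XX3_shift
  have := C8.cross_genA (Y := fun t => XX t ^ 3) (XX_cont.pow 3)
    (fun t => by simp only [norm_pow, XX_norm, one_pow]) (κ := 3) hC hsh x
    (W := fun T t => DS W (b - x) T t) (fun T => DS_cont _ _ _) (DS_bdd' h (b - x))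
    (fun δ' hδ' τ' hτ' => crudeD h (b - x) hδ' hτ') hM hδ hδ1 hτ
  have hc : (((3 : ℝ) : ℂ) * (x : ℂ)) = 3 * (x : ℂ) := by push_cast; rfl
  rw [hc] at this
  refine this.congr fun T => ?_
  congr 1
  refine integral_congr_ae (Eventually.of_forall fun t => ?_)
  simp only
  rw [DS_shift]

theorem cross_WL0 {W : ℝ → ℝ} (h : WF W) (x b : ℝ) (hδ : 0 < δ) (hδ1 : δ ≤ 1 / 2)
    (hτ : CenS δ τ) :
    WL δ τ (fun T t => ze (t + x / Real.log T) ^ 3 * conj (DS W b T t)) (mz W (b - x)) := by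
  refine ⟨?_, cross0 h x b hδ hδ1 hτ⟩
  obtain ⟨C, hC, hz⟩ := ze_shift_bdd x
  obtain ⟨D, A, hD, hB⟩ := DS_bdd' h b
  filter_upwards [hτ, eventually_ge_atTop (2 : ℝ)] with T h1 h2
  refine ww_integrable (((ze_shift_cont x T).pow 3).mul
    (Complex.continuous_conj.comp (DS_cont W b T))) (C := C ^ 3 * (D * T ^ A)) (A := 3) (fun t => ?_)
    (by linarith) ?_ (by positivity)
  · have h3 := hz T h2 t
    have h4 := hB T (by linarith) t
    have h5 : ‖ze (t + x / Real.log T) ^ 3 * conj (DS W b T t)‖ =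
        ‖ze (t + x / Real.log T)‖ ^ 3 * ‖DS W b T t‖ := by
      rw [norm_mul, norm_pow, RCLike.norm_conj]
    calc _ = ‖ze (t + x / Real.log T)‖ ^ 3 * ‖DS W b T t‖ := h5
      _ ≤ (C * (1 + |t|)) ^ 3 * (D * T ^ A) := by gcongr
      _ = _ := by ring
  · exact le_trans (by positivity) h1.1

theorem cross_WL3 {W : ℝ → ℝ} (h : WF W) (x b : ℝ) (hδ : 0 < δ) (hδ1 : δ ≤ 1 / 2)
    (hτ : CenS δ τ) :
    WL δ τ (fun T t => ze (t + x / Real.log T) ^ 3 * (XX t ^ 3 * DS W b T t))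
      (cexp (-((3 * x : ℂ) * I)) * conj (mz W (b - x))) := by
  refine ⟨?_, cross3 h x b hδ hδ1 hτ⟩
  obtain ⟨C, hC, hz⟩ := ze_shift_bdd x
  obtain ⟨D, A, hD, hB⟩ := DS_bdd' h b
  filter_upwards [hτ, eventually_ge_atTop (2 : ℝ)] with T h1 h2
  refine ww_integrable (((ze_shift_cont x T).pow 3).mul ((XX_cont.pow 3).mul
    (DS_cont W b T))) (C := C ^ 3 * (D * T ^ A)) (A := 3) (fun t => ?_)
    (by linarith) ?_ (by positivity)
  · have h3 := hz T h2 t
    have h4 := hB T (by linarith) t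
    have h5 : ‖ze (t + x / Real.log T) ^ 3 * (XX t ^ 3 * DS W b T t)‖ =
        ‖ze (t + x / Real.log T)‖ ^ 3 * ‖DS W b T t‖ := by
      rw [norm_mul, norm_mul, norm_pow, norm_pow, XX_norm, one_pow, one_mul]
    calc _ = ‖ze (t + x / Real.log T)‖ ^ 3 * ‖DS W b T t‖ := h5
      _ ≤ (C * (1 + |t|)) ^ 3 * (D * T ^ A) := by gcongr
      _ = _ := by ring
  · exact le_trans (by positivity) h1.1

/-! ### the test function -/

/-- one level-0 summand of the test function -/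
def G1 (W : ℝ → ℝ) (a T t : ℝ) : ℂ :=
  DS W a T t + cexp (-((3 * a : ℂ) * I)) * (conj (XX t) ^ 3 * conj (DS W a T t))

/-- the test function -/
def FG (Ψ : ℝ × ℝ × ℝ → ℝ) (W : ℝ → ℝ) (x : Fin m → ℝ) (c : Fin m → ℂ) (T t : ℝ) : ℂ :=
  ∑ k, c k * (F1 Ψ (x k) T t + G1 W (x k) T t)

theorem conj_exp3 (a : ℝ) : conj (cexp (-((3 * a : ℂ) * I))) = cexp ((3 * a : ℂ) * I) := by
  have h : ((3 * a : ℂ)) = ((3 * a : ℝ) : ℂ) := by push_cast; rfl
  rw [h, conj_exp1]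

/-- limit of `Z_j conj G_k` -/
def al0 (W : ℝ → ℝ) (x a : ℝ) : ℂ :=
  mz W (a - x) + cexp ((3 * a : ℂ) * I) * (cexp (-((3 * x : ℂ) * I)) * conj (mz W (a - x)))

/-- limit of `G_k conj G_l` -/
def be0 (W : ℝ → ℝ) (a b : ℝ) : ℂ :=
  md W (a - b) + cexp (-((3 * a : ℂ) * I)) * cexp ((3 * b : ℂ) * I) * conj (md W (a - b))

theorem ZG_WL {W : ℝ → ℝ} (h : WF W) (x a : ℝ) (hδ : 0 < δ) (hδ1 : δ ≤ 1 / 2) (hτ : CenS δ τ) :
    WL δ τ (fun T t => ze (t + x / Real.log T) ^ 3 * conj (G1 W a T t)) (al0 W x a) := by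
  refine ((cross_WL0 h x a hδ hδ1 hτ).add
    ((cross_WL3 h x a hδ hδ1 hτ).const_mul (cexp ((3 * a : ℂ) * I)))).congr fun T t => ?_
  unfold G1
  simp only [map_add, map_mul, map_pow, Complex.conj_conj, conj_exp3]
  ring

theorem GG_WL {W : ℝ → ℝ} (h : WF W) (a b : ℝ) (hδ : 0 < δ) (hδ1 : δ ≤ 1 / 2) (hτ : CenS δ τ) :
    WL δ τ (fun T t => G1 W a T t * conj (G1 W b T t)) (be0 W a b) := by
  have w1 := (mean_DDS h a b).WL hδ hδ1 hτ
  have w2 := w1.conj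
  have w3 := (mean_X3DDS h a b).WL hδ hδ1 hτ
  have w4 := w3.conj
  have hW := ((w1.add (w2.const_mul (cexp (-((3 * a : ℂ) * I)) * cexp ((3 * b : ℂ) * I)))).add
    (w3.const_mul (cexp ((3 * b : ℂ) * I)))).add
    (w4.const_mul (cexp (-((3 * a : ℂ) * I))))
  have hv : md W (a - b) +
      cexp (-((3 * a : ℂ) * I)) * cexp ((3 * b : ℂ) * I) * conj (md W (a - b)) +
      cexp ((3 * b : ℂ) * I) * 0 + cexp (-((3 * a : ℂ) * I)) * conj 0 = be0 W a b := by
    unfold be0; simp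
  rw [hv] at hW
  refine hW.congr fun T t => ?_
  unfold G1
  simp only [map_add, map_mul, map_pow, Complex.conj_conj, conj_exp3]
  have hx := XX_mul_conj t
  generalize XX t = X at hx ⊢
  generalize conj X = Y at hx ⊢
  generalize DS W a T t = A
  generalize DS W b T t = B
  generalize conj A = A'
  generalize conj B = B'
  generalize cexp (-((3 * a : ℂ) * I)) = e3
  generalize cexp ((3 * b : ℂ) * I) = e4
  linear_combination (e3 * e4 * A' * B * (X ^ 2 * Y ^ 2 + X * Y + 1)) * hx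

/-- the mixed products tend to zero -/
theorem FG_WL {W : ℝ → ℝ} (h : WF W) {Ψ : ℝ × ℝ × ℝ → ℝ} (hΨ : SF (Reg 1 ∩ Hneg) Ψ) (a b : ℝ)
    (hδ : 0 < δ) (hδ1 : δ ≤ 1 / 2) (hτ : CenS δ τ) :
    WL δ τ (fun T t => F1 Ψ a T t * conj (G1 W b T t)) 0 := by
  have hΨ' : SF (Reg 1) Ψ := ⟨hΨ.smooth, hΨ.hcs, hΨ.supp.trans inter_subset_left⟩
  -- conj X B conj D
  have w1 := ((mean_XDBS h hΨ b a).WL hδ hδ1 hτ).conj
  -- conj X^2 conj B conj D
  have w2 := ((mean_X2DBS h hΨ' b a).WL hδ hδ1 hτ).conj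
  -- X^2 B D
  have w3 := (mean_X2DBS h hΨ' b a).WL hδ hδ1 hτ
  -- X conj B D
  have w4 := (mean_XDBS h hΨ b a).WL hδ hδ1 hτ
  have hW := (((w1.const_mul (cexp (-((a : ℂ) * I)))).add
    (w2.const_mul (cexp (-((2 * a : ℂ) * I))))).add
    (w3.const_mul (cexp (-((a : ℂ) * I)) * cexp ((3 * b : ℂ) * I)))).add
    (w4.const_mul (cexp (-((2 * a : ℂ) * I)) * cexp ((3 * b : ℂ) * I)))
  have hv : cexp (-((a : ℂ) * I)) * conj 0 + cexp (-((2 * a : ℂ) * I)) * conj 0 +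
      cexp (-((a : ℂ) * I)) * cexp ((3 * b : ℂ) * I) * 0 +
      cexp (-((2 * a : ℂ) * I)) * cexp ((3 * b : ℂ) * I) * 0 = 0 := by simp
  rw [hv] at hW
  refine hW.congr fun T t => ?_
  unfold F1 G1
  simp only [map_add, map_mul, map_pow, Complex.conj_conj, conj_exp3]
  have hx := XX_mul_conj t
  generalize XX t = X at hx ⊢
  generalize conj X = Y at hx ⊢
  generalize BS Ψ a T t = A
  generalize DS W b T t = B
  generalize conj A = A'
  generalize conj B = B'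
  generalize cexp (-((a : ℂ) * I)) = e1
  generalize cexp (-((2 * a : ℂ) * I)) = e2
  generalize cexp ((3 * b : ℂ) * I) = e4
  linear_combination (e1 * e4 * X ^ 2 * A * B + e2 * e4 * X * A' * B * (X * Y + 1)) * hx

theorem GF_WL {W : ℝ → ℝ} (h : WF W) {Ψ : ℝ × ℝ × ℝ → ℝ} (hΨ : SF (Reg 1 ∩ Hneg) Ψ) (a b : ℝ)
    (hδ : 0 < δ) (hδ1 : δ ≤ 1 / 2) (hτ : CenS δ τ) :
    WL δ τ (fun T t => G1 W a T t * conj (F1 Ψ b T t)) 0 := by
  have w := (FG_WL h hΨ b a hδ hδ1 hτ).conj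
  rw [map_zero] at w
  refine w.congr fun T t => ?_
  rw [map_mul, Complex.conj_conj]; ring

/-! ### evaluation -/

/-- the weight in frequency -/
def w0 (x : Fin m → ℝ) (c : Fin m → ℂ) (s : ℝ) : ℝ := ‖Pf x c s‖ ^ 2 + ‖Pf x c (3 - s)‖ ^ 2

theorem w0_cont (x : Fin m → ℝ) (c : Fin m → ℂ) : Continuous (w0 x c) := by
  have h1 := Pf_cont x c
  unfold w0
  fun_prop

theorem al0_eq {W : ℝ → ℝ} (hc : Continuous W) (x a : ℝ) :
    al0 W x a = (A3 : ℂ) * ∫ s in (0 : ℝ)..1, ((W s * (s ^ 8 / Nat.factorial 8) : ℝ) : ℂ) *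
      (cexp (-(((x - a) * s : ℝ) : ℂ) * I) + cexp (-(((x - a) * (3 - s) : ℝ) : ℂ) * I)) := by
  unfold al0 mz
  have hconj : conj ((A3 : ℂ) * ∫ s in (0 : ℝ)..1, ((W s * (s ^ 8 / Nat.factorial 8) : ℝ) : ℂ) *
      cexp ((((a - x) * s : ℝ) : ℂ) * I)) =
      (A3 : ℂ) * ∫ s in (0 : ℝ)..1, ((W s * (s ^ 8 / Nat.factorial 8) : ℝ) : ℂ) *
      cexp (-((((a - x) * s : ℝ) : ℂ) * I)) := by
    rw [map_mul, conj_ofReal, intervalIntegral.integral_of_le zero_le_one,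
      intervalIntegral.integral_of_le zero_le_one, ← integral_conj]
    congr 1
    refine integral_congr_ae (Eventually.of_forall fun s => ?_)
    simp only
    rw [map_mul, conj_ofReal, conj_expR]
  rw [hconj]
  have e1 : ∀ X Y : ℂ, (A3 : ℂ) * X + cexp ((3 * a : ℂ) * I) * (cexp (-((3 * x : ℂ) * I)) *
      ((A3 : ℂ) * Y)) = (A3 : ℂ) * (X + (cexp ((3 * a : ℂ) * I) * cexp (-((3 * x : ℂ) * I))) * Y) := by
    intro X Y; ring
  rw [e1, ← intervalIntegral.integral_const_mul, ← intervalIntegral.integral_add]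
  · congr 1
    refine intervalIntegral.integral_congr fun s _ => ?_
    have q1 : cexp ((((a - x) * s : ℝ) : ℂ) * I) = cexp (-(((x - a) * s : ℝ) : ℂ) * I) := by
      congr 1; push_cast; ring
    have q2 : cexp (-(((x - a) * (3 - s) : ℝ) : ℂ) * I) =
        cexp ((3 * a : ℂ) * I) * cexp (-((3 * x : ℂ) * I)) * cexp (-((((a - x) * s : ℝ) : ℂ) * I)) := by
      rw [← Complex.exp_add, ← Complex.exp_add]
      congr 1; push_cast; ring
    rw [q1, q2]; ring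
  · exact Continuous.intervalIntegrable (by fun_prop) _ _
  · exact Continuous.intervalIntegrable (by fun_prop) _ _

theorem be0_eq {W : ℝ → ℝ} (hc : Continuous W) (a b : ℝ) :
    be0 W a b = (A3 : ℂ) * ∫ s in (0 : ℝ)..1, ((W s ^ 2 * (s ^ 8 / Nat.factorial 8) : ℝ) : ℂ) *
      (cexp (-(((a - b) * s : ℝ) : ℂ) * I) + cexp (-(((a - b) * (3 - s) : ℝ) : ℂ) * I)) := by
  unfold be0 md
  have hconj : conj ((A3 : ℂ) * ∫ s in (0 : ℝ)..1, ((W s ^ 2 * (s ^ 8 / Nat.factorial 8) : ℝ) : ℂ) *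
      cexp (-((((a - b) * s : ℝ) : ℂ) * I))) =
      (A3 : ℂ) * ∫ s in (0 : ℝ)..1, ((W s ^ 2 * (s ^ 8 / Nat.factorial 8) : ℝ) : ℂ) *
      cexp ((((a - b) * s : ℝ) : ℂ) * I) := by
    rw [map_mul, conj_ofReal, intervalIntegral.integral_of_le zero_le_one,
      intervalIntegral.integral_of_le zero_le_one, ← integral_conj]
    congr 1
    refine integral_congr_ae (Eventually.of_forall fun s => ?_)
    simp only
    rw [map_mul, conj_ofReal, conj_exp1]
  rw [hconj]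
  have e1 : ∀ X Y : ℂ, (A3 : ℂ) * X + cexp (-((3 * a : ℂ) * I)) * cexp ((3 * b : ℂ) * I) *
      ((A3 : ℂ) * Y) = (A3 : ℂ) * (X + (cexp (-((3 * a : ℂ) * I)) * cexp ((3 * b : ℂ) * I)) * Y) := by
    intro X Y; ring
  rw [e1, ← intervalIntegral.integral_const_mul, ← intervalIntegral.integral_add]
  · congr 1
    refine intervalIntegral.integral_congr fun s _ => ?_
    have q1 : cexp (-((((a - b) * s : ℝ) : ℂ) * I)) = cexp (-(((a - b) * s : ℝ) : ℂ) * I) := by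
      congr 1; push_cast; ring
    have q2 : cexp (-(((a - b) * (3 - s) : ℝ) : ℂ) * I) =
        cexp (-((3 * a : ℂ) * I)) * cexp ((3 * b : ℂ) * I) * cexp ((((a - b) * s : ℝ) : ℂ) * I) := by
      rw [← Complex.exp_add, ← Complex.exp_add]
      congr 1; push_cast; ring
    rw [q1, q2]; ring
  · exact Continuous.intervalIntegrable (by fun_prop) _ _
  · exact Continuous.intervalIntegrable (by fun_prop) _ _

theorem sum0_eq (x : Fin m → ℝ) (c : Fin m → ℂ) {f : ℝ → ℝ} (hf : Continuous f) {γ : ℝ → ℝ → ℂ}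
    (hγ : ∀ a b, γ a b = (A3 : ℂ) * ∫ s in (0 : ℝ)..1, ((f s : ℝ) : ℂ) *
      (cexp (-(((a - b) * s : ℝ) : ℂ) * I) + cexp (-(((a - b) * (3 - s) : ℝ) : ℂ) * I))) :
    ∑ j, ∑ k, c j * conj (c k) * γ (x j) (x k) =
      ((A3 * ∫ s in (0 : ℝ)..1, f s * w0 x c s : ℝ) : ℂ) := by
  have hi : ∀ a b : ℝ, Continuous fun s : ℝ => ((f s : ℝ) : ℂ) *
      (cexp (-(((a - b) * s : ℝ) : ℂ) * I) + cexp (-(((a - b) * (3 - s) : ℝ) : ℂ) * I)) := by
    intro a b
    fun_prop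
  have h1 : ∀ j k, c j * conj (c k) * γ (x j) (x k) = (A3 : ℂ) * ∫ s in (0 : ℝ)..1,
      c j * conj (c k) * (((f s : ℝ) : ℂ) * (cexp (-(((x j - x k) * s : ℝ) : ℂ) * I) +
        cexp (-(((x j - x k) * (3 - s) : ℝ) : ℂ) * I))) := by
    intro j k
    rw [hγ, intervalIntegral.integral_const_mul]; ring
  simp only [h1, ← Finset.mul_sum]
  rw [ofReal_mul]
  congr 1
  rw [← intervalIntegral.integral_ofReal]
  have h2 : ∀ j, ∑ k, ∫ s in (0 : ℝ)..1, c j * conj (c k) * (((f s : ℝ) : ℂ) *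
      (cexp (-(((x j - x k) * s : ℝ) : ℂ) * I) + cexp (-(((x j - x k) * (3 - s) : ℝ) : ℂ) * I))) =
      ∫ s in (0 : ℝ)..1, ∑ k, c j * conj (c k) * (((f s : ℝ) : ℂ) *
      (cexp (-(((x j - x k) * s : ℝ) : ℂ) * I) + cexp (-(((x j - x k) * (3 - s) : ℝ) : ℂ) * I))) :=
    fun j => (intervalIntegral.integral_finsetSum fun k _ =>
      ((continuous_const.mul (hi _ _)).intervalIntegrable _ _)).symm
  simp only [h2]
  have h3 : ∑ j, ∫ s in (0 : ℝ)..1, (∑ k, c j * conj (c k) * (((f s : ℝ) : ℂ) *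
      (cexp (-(((x j - x k) * s : ℝ) : ℂ) * I) + cexp (-(((x j - x k) * (3 - s) : ℝ) : ℂ) * I)))) =
      ∫ s in (0 : ℝ)..1, ∑ j, (∑ k, c j * conj (c k) * (((f s : ℝ) : ℂ) *
      (cexp (-(((x j - x k) * s : ℝ) : ℂ) * I) + cexp (-(((x j - x k) * (3 - s) : ℝ) : ℂ) * I)))) := by
    refine (intervalIntegral.integral_finsetSum fun j _ => ?_).symm
    exact Continuous.intervalIntegrable (continuous_finsetSum _ fun k _ =>
      continuous_const.mul (hi _ _)) _ _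
  rw [h3]
  refine intervalIntegral.integral_congr fun s _ => ?_
  unfold w0
  rw [ofReal_mul, ofReal_add, Pf_sq, Pf_sq]
  simp only [Finset.mul_sum, mul_add, Finset.sum_add_distrib]
  congr 1
  · refine Finset.sum_congr rfl fun j _ => Finset.sum_congr rfl fun k _ => ?_
    ring
  · refine Finset.sum_congr rfl fun j _ => Finset.sum_congr rfl fun k _ => ?_
    ring

/-- the level-0 constant -/
def V0 (x : Fin m → ℝ) (c : Fin m → ℂ) : ℝ := ∫ s in (0 : ℝ)..1, w0 x c s * (s ^ 8 / Nat.factorial 8)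

/-! ### lower bound in one window -/

theorem GoodReg.inter_Hneg {R : Set (ℝ × ℝ × ℝ)} (hR : GoodReg R) : GoodReg (R ∩ Hneg) := by
  refine ⟨hR.isOpen.inter (isOpen_lt th_cont continuous_const), inter_subset_left.trans hR.sub, ?_⟩
  intro Ψ hΨ
  exact hR.lim Ψ ⟨hΨ.smooth, hΨ.hcs, hΨ.supp.trans inter_subset_left⟩

theorem window_lower0 {R : Set (ℝ × ℝ × ℝ)} (hR' : GoodReg R) (x : Fin m → ℝ) (c : Fin m → ℂ)
    (hA : 0 < A3) (hδ : 0 < δ) (hδ1 : δ ≤ 1 / 2) (hτ : CenS δ τ) {c' : ℝ}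
    (hc' : c' < A3 * (VR (R ∩ Hneg) x c + V0 x c)) :
    ∀ᶠ T : ℝ in atTop, c' * NN T ≤ ∫ t in Ioi (δ * T / 2), ‖Zs x c T t‖ ^ 2 * ww T (τ T) t := by
  have hR := L0.GoodReg.inter_Hneg hR'
  -- choice of the profiles
  set η : ℝ := (A3 * (VR (R ∩ Hneg) x c + V0 x c) - c') / (4 * A3) with hη
  have hη0 : 0 < η := div_pos (by linarith) (by linarith)
  obtain ⟨Ψ, hΨ, hcut⟩ := cutoffR hR.isOpen hR.sub (wt_cont x c)
    (fun p => by unfold wt; positivity) hη0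
  obtain ⟨W, hW, hcut0⟩ := cutoff0 (w0_cont x c) (fun s => by unfold w0; positivity) hη0
  have hΨ1 : SF (Reg 1 ∩ Hneg) Ψ := ⟨hΨ.smooth, hΨ.hcs, hΨ.supp.trans
    (inter_subset_inter_left _ hR'.sub)⟩
  have hVR : VR (R ∩ Hneg) x c = ∫ p in R ∩ Hneg, wt x c p * PP p ^ 2 := rfl
  rw [← hVR] at hcut
  have hV0 : V0 x c = ∫ s in (0 : ℝ)..1, w0 x c s * (s ^ 8 / Nat.factorial 8) := rfl
  rw [← hV0] at hcut0
  have hΨc := hΨ.smooth.continuous
  have hWc := hW.cont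
  have hwc := wt_cont x c
  have hw0c := w0_cont x c
  have hPc := PP_cont
  -- the two limits
  set D1 : ℝ := ∫ p, wt x c p * (2 * (Ψ p * PP p) - Ψ p ^ 2) with hD1
  set D0 : ℝ := ∫ s in (0 : ℝ)..1, w0 x c s * ((2 * W s - W s ^ 2) * (s ^ 8 / Nat.factorial 8)) with hD0
  set D : ℝ := A3 * (D1 + D0) with hD
  have hDlt : c' < D := by
    have h1 : A3 * ((VR (R ∩ Hneg) x c - η) + (V0 x c - η)) ≤ D :=
      mul_le_mul_of_nonneg_left (add_le_add hcut hcut0) hA.le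
    have h2 : A3 * ((VR (R ∩ Hneg) x c - η) + (V0 x c - η)) =
        (A3 * (VR (R ∩ Hneg) x c + V0 x c) + c') / 2 := by
      rw [hη]; field_simp; ring
    linarith
  have w1 : WL δ τ (fun T t => Zs x c T t * conj (FG Ψ W x c T t))
      ((A3 * ∫ p, (Ψ p * PP p) * wt x c p : ℝ) + (A3 * ∫ s in (0 : ℝ)..1,
        (W s * (s ^ 8 / Nat.factorial 8)) * w0 x c s : ℝ) : ℂ) := by
    rw [← sum_eq x c (f := fun p => Ψ p * PP p) (hΨc.mul PP_cont) (hΨ.hcs.mul_right (f' := PP))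
      (γ := al Ψ) (fun a b => al_eq hΨc hΨ.hcs a b),
      ← sum0_eq x c (f := fun s => W s * (s ^ 8 / Nat.factorial 8)) (by fun_prop)
      (γ := al0 W) (fun a b => al0_eq hWc a b)]
    have hA1 : WL δ τ (fun T t => ∑ j, ∑ k, c j * conj (c k) *
        (ze (t + x j / Real.log T) ^ 3 * conj (F1 Ψ (x k) T t)))
        (∑ j, ∑ k, c j * conj (c k) * al Ψ (x j) (x k)) :=
      WL.sum _ fun j _ => WL.sum _ fun k _ =>
        (ZF_WL hR hΨ (x j) (x k) hδ hδ1 hτ).const_mul (c j * conj (c k))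
    have hA2 : WL δ τ (fun T t => ∑ j, ∑ k, c j * conj (c k) *
        (ze (t + x j / Real.log T) ^ 3 * conj (G1 W (x k) T t)))
        (∑ j, ∑ k, c j * conj (c k) * al0 W (x j) (x k)) :=
      WL.sum _ fun j _ => WL.sum _ fun k _ =>
        (ZG_WL hW (x j) (x k) hδ hδ1 hτ).const_mul (c j * conj (c k))
    refine (hA1.add hA2).congr fun T t => ?_
    unfold Zs FG
    rw [map_sum, Finset.sum_mul_sum]
    simp only [← Finset.sum_add_distrib]
    refine Finset.sum_congr rfl fun j _ => Finset.sum_congr rfl fun k _ => ?_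
    rw [map_mul, map_add]; ring
  have w2 : WL δ τ (fun T t => FG Ψ W x c T t * conj (FG Ψ W x c T t))
      ((A3 * ∫ p, (Ψ p ^ 2) * wt x c p : ℝ) + (A3 * ∫ s in (0 : ℝ)..1,
        (W s ^ 2 * (s ^ 8 / Nat.factorial 8)) * w0 x c s : ℝ) : ℂ) := by
    rw [← sum_eq x c (f := fun p => Ψ p ^ 2) (hΨc.pow 2)
      (hΨ.hcs.comp_left (g := fun y : ℝ => y ^ 2) (by simp))
      (γ := be Ψ) (fun a b => be_eq hΨc hΨ.hcs a b),
      ← sum0_eq x c (f := fun s => W s ^ 2 * (s ^ 8 / Nat.factorial 8)) (by fun_prop)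
      (γ := be0 W) (fun a b => be0_eq hWc a b)]
    have hA1 : WL δ τ (fun T t => ∑ j, ∑ k, c j * conj (c k) *
        (F1 Ψ (x j) T t * conj (F1 Ψ (x k) T t)))
        (∑ j, ∑ k, c j * conj (c k) * be Ψ (x j) (x k)) :=
      WL.sum _ fun j _ => WL.sum _ fun k _ =>
        (FF_WL hR hΨ (x j) (x k) hδ hδ1 hτ).const_mul (c j * conj (c k))
    have hA2 : WL δ τ (fun T t => ∑ j, ∑ k, c j * conj (c k) *
        (G1 W (x j) T t * conj (G1 W (x k) T t)))
        (∑ j, ∑ k, c j * conj (c k) * be0 W (x j) (x k)) :=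
      WL.sum _ fun j _ => WL.sum _ fun k _ =>
        (GG_WL hW (x j) (x k) hδ hδ1 hτ).const_mul (c j * conj (c k))
    have hA3 : WL δ τ (fun T t => ∑ j, ∑ k, c j * conj (c k) *
        (F1 Ψ (x j) T t * conj (G1 W (x k) T t)))
        (∑ j, ∑ k, c j * conj (c k) * 0) :=
      WL.sum _ fun j _ => WL.sum _ fun k _ =>
        (FG_WL hW hΨ1 (x j) (x k) hδ hδ1 hτ).const_mul (c j * conj (c k))
    have hA4 : WL δ τ (fun T t => ∑ j, ∑ k, c j * conj (c k) *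
        (G1 W (x j) T t * conj (F1 Ψ (x k) T t)))
        (∑ j, ∑ k, c j * conj (c k) * 0) :=
      WL.sum _ fun j _ => WL.sum _ fun k _ =>
        (GF_WL hW hΨ1 (x j) (x k) hδ hδ1 hτ).const_mul (c j * conj (c k))
    have hs := ((hA1.add hA2).add hA3).add hA4
    simp only [mul_zero, Finset.sum_const_zero, add_zero] at hs
    refine hs.congr fun T t => ?_
    unfold FG
    rw [map_sum, Finset.sum_mul_sum]
    simp only [← Finset.sum_add_distrib]
    refine Finset.sum_congr rfl fun j _ => Finset.sum_congr rfl fun k _ => ?_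
    rw [map_mul, map_add]; ring
  have w3 := (w1.const_mul 2).add (w2.const_mul (-1))
  have i1 : Integrable fun p => (Ψ p * PP p) * wt x c p :=
    Continuous.integrable_of_hasCompactSupport (by fun_prop)
      ((hΨ.hcs.mul_right (f' := PP)).mul_right)
  have i2 : Integrable fun p => (Ψ p ^ 2) * wt x c p :=
    Continuous.integrable_of_hasCompactSupport (by fun_prop)
      ((hΨ.hcs.comp_left (g := fun y : ℝ => y ^ 2) (by simp)).mul_right)
  have e1 : D1 = 2 * (∫ p, (Ψ p * PP p) * wt x c p) - ∫ p, (Ψ p ^ 2) * wt x c p := by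
    rw [hD1, ← integral_const_mul, ← integral_sub (i1.const_mul 2) i2]
    refine integral_congr_ae (Eventually.of_forall fun p => ?_)
    simp only
    ring
  have e0 : D0 = 2 * (∫ s in (0 : ℝ)..1, (W s * (s ^ 8 / Nat.factorial 8)) * w0 x c s) -
      ∫ s in (0 : ℝ)..1, (W s ^ 2 * (s ^ 8 / Nat.factorial 8)) * w0 x c s := by
    rw [hD0, ← intervalIntegral.integral_const_mul, ← intervalIntegral.integral_sub]
    · refine intervalIntegral.integral_congr fun s _ => ?_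
      ring
    · exact Continuous.intervalIntegrable (by fun_prop) _ _
    · exact Continuous.intervalIntegrable (by fun_prop) _ _
  have hDeq : (2 : ℂ) * ((A3 * ∫ p, (Ψ p * PP p) * wt x c p : ℝ) + (A3 * ∫ s in (0 : ℝ)..1,
        (W s * (s ^ 8 / Nat.factorial 8)) * w0 x c s : ℝ) : ℂ) +
      -1 * ((A3 * ∫ p, (Ψ p ^ 2) * wt x c p : ℝ) + (A3 * ∫ s in (0 : ℝ)..1,
        (W s ^ 2 * (s ^ 8 / Nat.factorial 8)) * w0 x c s : ℝ) : ℂ) = ((D : ℝ) : ℂ) := by
    rw [hD, e1, e0]; push_cast; ring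
  rw [hDeq] at w3
  have hre := (Complex.continuous_re.tendsto _).comp w3.lim
  rw [ofReal_re] at hre
  have hev := hre.eventually (lt_mem_nhds hDlt)
  obtain ⟨C, hC, hZb⟩ : ∃ C : ℝ, 0 ≤ C ∧ ∀ T : ℝ, 2 ≤ T → ∀ t, ‖Zs x c T t‖ ≤ C * (1 + |t|) ^ 3 := by
    choose C hC hb using fun j : Fin m => ze_shift_bdd (x j)
    refine ⟨∑ j, ‖c j‖ * C j ^ 3, Finset.sum_nonneg fun j _ => by
      have := hC j
      positivity, fun T hT t => ?_⟩
    unfold Zs
    refine (norm_sum_le _ _).trans ?_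
    rw [Finset.sum_mul]
    refine Finset.sum_le_sum fun j _ => ?_
    rw [norm_mul, norm_pow]
    calc ‖c j‖ * ‖ze (t + x j / Real.log T)‖ ^ 3 ≤ ‖c j‖ * (C j * (1 + |t|)) ^ 3 := by
          have := hb j T hT t
          gcongr
      _ = _ := by ring
  have hZc : ∀ T, Continuous (Zs x c T) := by
    intro T
    unfold Zs
    refine continuous_finsetSum _ fun j _ => continuous_const.mul ((ze_shift_cont (x j) T).pow 3)
  filter_upwards [hev, w3.int, hτ, eventually_ge_atTop (2 : ℝ)] with T h1 h2 h3 h4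
  have hT1 : 1 < T := by linarith
  have hN := NN_pos hT1
  have hτ0 : 0 ≤ τ T := le_trans (by positivity) h3.1
  have he0 : 0 < δ * T / 2 := by positivity
  simp only [Function.comp] at h1
  rw [Complex.div_ofReal_re, lt_div_iff₀ hN] at h1
  refine h1.le.trans ?_
  have hZi : IntegrableOn (fun t => ‖Zs x c T t‖ ^ 2 * ww T (τ T) t) (Ioi (δ * T / 2)) := by
    have := ww_integrable (f := fun t => ((‖Zs x c T t‖ ^ 2 : ℝ) : ℂ)) (by
      have := hZc T
      fun_prop) (C := C ^ 2) (A := 6) (fun t => by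
        rw [Complex.norm_real, norm_pow, norm_norm]
        calc ‖Zs x c T t‖ ^ 2 ≤ (C * (1 + |t|) ^ 3) ^ 2 := by
              have := hZb T h4 t
              gcongr
          _ = _ := by ring) hT1 hτ0 he0
    have h5 := this.re
    refine h5.congr (Eventually.of_forall fun t => ?_)
    simp only
    rw [← ofReal_mul]
    exact ofReal_re _
  have hre2 : (∫ t in Ioi (δ * T / 2), (2 * (Zs x c T t * conj (FG Ψ W x c T t)) +
      -1 * (FG Ψ W x c T t * conj (FG Ψ W x c T t))) * ((ww T (τ T) t : ℝ) : ℂ)).re =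
      ∫ t in Ioi (δ * T / 2), ((2 * (Zs x c T t * conj (FG Ψ W x c T t)) +
      -1 * (FG Ψ W x c T t * conj (FG Ψ W x c T t))) * ((ww T (τ T) t : ℝ) : ℂ)).re := by
    have := integral_re h2
    exact this.symm
  rw [hre2]
  refine setIntegral_mono_on h2.re hZi measurableSet_Ioi fun t ht => ?_
  have hw : 0 ≤ ww T (τ T) t := ww_nonneg hτ0 (he0.trans ht).le
  rw [Complex.re_mul_ofReal]
  refine mul_le_mul_of_nonneg_right ?_ hw
  have hp : 0 ≤ ‖Zs x c T t - FG Ψ W x c T t‖ ^ 2 := by positivity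
  generalize Zs x c T t = z at hp ⊢
  generalize FG Ψ W x c T t = f at hp ⊢
  have h6 : ‖z - f‖ ^ 2 = ‖z‖ ^ 2 - 2 * (z * conj f).re + ‖f‖ ^ 2 := by
    rw [← normSq_eq_norm_sq, ← normSq_eq_norm_sq, ← normSq_eq_norm_sq, normSq_sub]; ring
  have h7 : (2 * (z * conj f) + -1 * (f * conj f)).re = 2 * (z * conj f).re - ‖f‖ ^ 2 := by
    have e2 : ∀ w : ℂ, (2 * w).re = 2 * w.re := fun w => by rw [mul_re]; simp
    have e3 : ∀ r : ℝ, (-1 * (r : ℂ)).re = -r := fun r => by simp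
    rw [mul_conj f, normSq_eq_norm_sq, add_re, e2, e3]
    ring
  rw [h7]
  linarith

/-- **Main theorem with level 0.** -/
theorem main0 {R : Set (ℝ × ℝ × ℝ)} (hR : GoodReg R) (hA : 0 < A3) (x : Fin m → ℝ)
    (c : Fin m → ℂ) : ∀ c' < A3 * (VR (R ∩ Hneg) x c + V0 x c), ∀ᶠ T : ℝ in atTop,
      c' * Real.log T ^ 9 ≤ T⁻¹ * ∫ t in (0 : ℝ)..T, ‖Zs x c T t‖ ^ 2 := by
  refine averaging (g := fun T t => ‖Zs x c T t‖ ^ 2) (fun T => ?_) (fun T t => by positivity) ?_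
    fun δ h1 h2 τ hτ c' hc' => window_lower0 hR x c hA h1 (by linarith) hτ hc'
  · have : Continuous (Zs x c T) := by
      unfold Zs
      exact continuous_finsetSum _ fun j _ => continuous_const.mul ((ze_shift_cont (x j) T).pow 3)
    fun_prop
  · choose C hC hb using fun j : Fin m => ze_shift_bdd (x j)
    refine ⟨(∑ j, ‖c j‖ * C j ^ 3) ^ 2, 6, by positivity, fun T hT t => ?_⟩
    have h1 : ‖Zs x c T t‖ ≤ (∑ j, ‖c j‖ * C j ^ 3) * (1 + |t|) ^ 3 := by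
      unfold Zs
      refine (norm_sum_le _ _).trans ?_
      rw [Finset.sum_mul]
      refine Finset.sum_le_sum fun j _ => ?_
      rw [norm_mul, norm_pow]
      calc ‖c j‖ * ‖ze (t + x j / Real.log T)‖ ^ 3 ≤ ‖c j‖ * (C j * (1 + |t|)) ^ 3 := by
            have := hb j T hT t
            gcongr
        _ = _ := by ring
    have hT1 : (1 : ℝ) ≤ T ^ 6 := one_le_pow₀ (by linarith)
    have hs : 0 ≤ ∑ j, ‖c j‖ * C j ^ 3 := Finset.sum_nonneg fun j _ => by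
      have := hC j
      positivity
    calc ‖Zs x c T t‖ ^ 2 ≤ ((∑ j, ‖c j‖ * C j ^ 3) * (1 + |t|) ^ 3) ^ 2 := by gcongr
      _ = (∑ j, ‖c j‖ * C j ^ 3) ^ 2 * (1 * (1 + |t|) ^ 6) := by ring
      _ ≤ (∑ j, ‖c j‖ * C j ^ 3) ^ 2 * (T ^ 6 * (1 + |t|) ^ 6) := by gcongr
      _ = _ := by rw [mul_pow]

end L0

end

end K3

end

section

/-!
# MP_069854_nt, K3, level 0: the final form
-/

namespace K3
open Complex MeasureTheory Filter Topology Set S6
open scoped Real ComplexConjugate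

noncomputable section

/-- `Δ(u)/2` -/
def Vd (u : ℝ × ℝ × ℝ) : ℝ := (u.2.1 - u.1) * (u.2.2 - u.1) * (u.2.2 - u.2.1) / 2

/-- the region in the coordinates `u` -/
def Eu : Set (ℝ × ℝ × ℝ) := {u | 0 < u.1 ∧ u.1 < u.2.1 ∧ u.2.1 < u.2.2 ∧ u.2.2 < 1 ∧
  1 < u.1 + u.2.1 + u.2.2 ∧ u.1 + u.2.1 + u.2.2 < 3 / 2 ∧
  (3 * (u.1 + u.2.1) < 2 * u.2.2 ∨ (1 / 2 < u.2.2 - u.1 ∧ 4 * (u.1 + u.2.1) < 2 * u.2.2 + 1))}

theorem PP_cc (u : ℝ × ℝ × ℝ) : PP (cc u) ^ 2 = Vd u ^ 2 := by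
  unfold PP cc Vd
  simp only
  ring

theorem th_cc (u : ℝ × ℝ × ℝ) : 1 - th (cc u) = u.1 + u.2.1 + u.2.2 := by
  unfold th cc
  simp only
  ring

theorem th_cc2 (u : ℝ × ℝ × ℝ) : 2 + th (cc u) = 3 - (u.1 + u.2.1 + u.2.2) := by
  unfold th cc
  simp only
  ring

theorem VR_cc {m : ℕ} (R : Set (ℝ × ℝ × ℝ)) (x : Fin m → ℝ) (c : Fin m → ℂ) :
    VR R x c = ∫ u in cc ⁻¹' R, (‖Pf x c (u.1 + u.2.1 + u.2.2)‖ ^ 2 +
      ‖Pf x c (3 - (u.1 + u.2.1 + u.2.2))‖ ^ 2) * Vd u ^ 2 := by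
  unfold VR
  rw [cc_preimage_integral]
  simp only [PP_cc, th_cc, th_cc2]

theorem pre_RG : cc ⁻¹' (RG ∩ Hneg) = Eu := by
  ext u
  obtain ⟨a, b, c⟩ := u
  simp only [mem_preimage, mem_inter_iff, RG, Hneg, Reg, Eu, mem_union, mem_ofPred_eq, cc, th]
  constructor
  · rintro ⟨h1 | h1, h2⟩
    · obtain ⟨a1, a2, a3, a4, a5⟩ := h1
      refine ⟨a1, a2, ?_, by linarith, by linarith, by linarith, Or.inl (by linarith)⟩
      linarith
    · obtain ⟨a1, a2, a3, a4, a5, a6⟩ := h1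
      refine ⟨a1, a2, ?_, by linarith, by linarith, by linarith,
        Or.inr ⟨by linarith, by linarith⟩⟩
      by_contra hc
      linarith
  · rintro ⟨a1, a2, a3, a4, a5, a6, h | ⟨h1, h2⟩⟩
    · exact ⟨Or.inl ⟨a1, a2, by linarith, by linarith, by linarith⟩, by linarith⟩
    · exact ⟨Or.inr ⟨a1, a2, by linarith, by linarith, by linarith, by linarith⟩, by linarith⟩

theorem val_Eu : (2772537042697 / 72900000000 : ℝ) ≤
    2 * (Nat.factorial 9 : ℝ) * ∫ u in Eu, Vd u ^ 2 := by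
  have h := valG1
  rw [cc_preimage_integral, pre_RG] at h
  simpa only [PP_cc] using h

/-- **The theorem in the coordinates `u`.** -/
theorem final0 (hR : GoodReg RG) {m : ℕ} (x : Fin m → ℝ) (c : Fin m → ℂ) {ε : ℝ} (hε : 0 < ε) :
    ∀ᶠ T : ℝ in atTop,
      MP069854.arith 3 * ((∫ y in (0 : ℝ)..1, (‖Pf x c y‖ ^ 2 + ‖Pf x c (3 - y)‖ ^ 2) *
        (y ^ 8 / Nat.factorial 8)) + ∫ u in Eu, (‖Pf x c (u.1 + u.2.1 + u.2.2)‖ ^ 2 +
          ‖Pf x c (3 - (u.1 + u.2.1 + u.2.2))‖ ^ 2) * Vd u ^ 2) - ε ≤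
      (T * Real.log T ^ 9)⁻¹ * ∫ t in (0 : ℝ)..T, ‖∑ j, c j *
        riemannZeta (1 / 2 + I * x j / Real.log T + I * t) ^ 3‖ ^ 2 := by
  have hA : 0 < A3 := MP069854.arith_pos 3
  have h := L0.main0 hR hA x c (A3 * (VR (RG ∩ Hneg) x c + L0.V0 x c) - ε) (by linarith)
  filter_upwards [h, eventually_gt_atTop (1 : ℝ)] with T h1 hT
  have hL := Real.log_pos hT
  have hT0 : 0 < T := by linarith
  rw [VR_cc, pre_RG] at h1
  have e1 : ∀ t : ℝ, Zs x c T t = ∑ j, c j *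
      riemannZeta (1 / 2 + I * x j / Real.log T + I * t) ^ 3 := by
    intro t
    unfold Zs ze
    refine Finset.sum_congr rfl fun j _ => ?_
    congr 3
    push_cast; ring
  have e2 : (T * Real.log T ^ 9)⁻¹ * ∫ t in (0 : ℝ)..T, ‖∑ j, c j *
        riemannZeta (1 / 2 + I * x j / Real.log T + I * t) ^ 3‖ ^ 2 =
      (T⁻¹ * ∫ t in (0 : ℝ)..T, ‖Zs x c T t‖ ^ 2) / Real.log T ^ 9 := by
    simp only [e1]
    rw [mul_inv]
    field_simp
  rw [e2, le_div_iff₀ (by positivity)]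
  refine le_trans (le_of_eq ?_) h1
  congr 2
  unfold A3
  congr 1
  unfold L0.V0 L0.w0
  rw [add_comm]

end

end K3

end

section

/-!
# The sixth moment as the special case `m = 1`, `x = 0`
-/

namespace K3
open Complex MeasureTheory Filter Topology Set S6
open scoped Real ComplexConjugate

/-- **Sixth moment.** -/
theorem sixth0 (hR : GoodReg RG) {c : ℝ} (hc : c < 2918337042697 / 72900000000) :
    ∀ᶠ T : ℝ in atTop, c * MP069854.arith 3 / Nat.factorial 9 * Real.log T ^ 9 ≤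
      T⁻¹ * ∫ t in (0 : ℝ)..T, ‖riemannZeta (1 / 2 + I * t)‖ ^ 6 := by
  have hA : 0 < A3 := MP069854.arith_pos 3
  have hf : (0 : ℝ) < (Nat.factorial 9 : ℝ) := by positivity
  have hP : ∀ y : ℝ, Pf (fun _ : Fin 1 => (0 : ℝ)) (fun _ => (1 : ℂ)) y = 1 := by
    intro y
    unfold Pf
    simp
  have hV0 : L0.V0 (fun _ : Fin 1 => (0 : ℝ)) (fun _ => (1 : ℂ)) = 2 / (Nat.factorial 9 : ℝ) := by
    unfold L0.V0 L0.w0
    simp only [hP, norm_one, one_pow]
    have : ∫ s in (0 : ℝ)..1, ((1 : ℝ) + 1) * (s ^ 8 / (Nat.factorial 8 : ℝ)) =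
        (1 + 1) * ((1 ^ 9 - 0 ^ 9) / 9 / (Nat.factorial 8 : ℝ)) := by
      rw [intervalIntegral.integral_const_mul, intervalIntegral.integral_div, integral_pow]
      norm_num
    rw [this]
    have h9 : (Nat.factorial 9 : ℝ) = 9 * (Nat.factorial 8 : ℝ) := by
      norm_num [Nat.factorial]
    rw [h9]
    field_simp
    norm_num
  have hVR : VR (RG ∩ Hneg) (fun _ : Fin 1 => (0 : ℝ)) (fun _ => (1 : ℂ)) =
      2 * ∫ p in RG ∩ Hneg, PP p ^ 2 := by
    unfold VR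
    simp only [hP, norm_one, one_pow]
    rw [← integral_const_mul]
    norm_num
  have hval := valG1
  have hlow : 2918337042697 / 72900000000 / (Nat.factorial 9 : ℝ) ≤
      VR (RG ∩ Hneg) (fun _ : Fin 1 => (0 : ℝ)) (fun _ => (1 : ℂ)) +
        L0.V0 (fun _ : Fin 1 => (0 : ℝ)) (fun _ => (1 : ℂ)) := by
    rw [hVR, hV0, div_le_iff₀ hf, add_mul, div_mul_cancel₀ _ hf.ne']
    nlinarith
  have hlt : c * A3 / Nat.factorial 9 <
      A3 * (VR (RG ∩ Hneg) (fun _ : Fin 1 => (0 : ℝ)) (fun _ => (1 : ℂ)) +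
        L0.V0 (fun _ : Fin 1 => (0 : ℝ)) (fun _ => (1 : ℂ))) := by
    have h1 : c / (Nat.factorial 9 : ℝ) < 2918337042697 / 72900000000 / (Nat.factorial 9 : ℝ) :=
      div_lt_div_of_pos_right hc hf
    calc c * A3 / Nat.factorial 9 = A3 * (c / Nat.factorial 9) := by ring
      _ < _ := mul_lt_mul_of_pos_left (h1.trans_le hlow) hA
  have h := L0.main0 hR hA (fun _ : Fin 1 => (0 : ℝ)) (fun _ => (1 : ℂ)) _ hlt
  refine h.mono fun T hT => ?_
  refine hT.trans (le_of_eq ?_)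
  congr 1
  refine intervalIntegral.integral_congr fun t _ => ?_
  simp only [Zs, ze, Finset.univ_unique, Finset.sum_singleton, one_mul, zero_div, add_zero,
    norm_pow]
  rw [← pow_mul]
  norm_num
  congr 3
  ring

end K3

end

section

/-!
# MP_069854_nt, K3: the region `RG` is good (helper11's region, row SG-Z4)
-/

namespace K3

theorem goodRG : GoodReg RG := goodReg_RegG

end K3

end
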