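import Pool.Agent.Lib.MP_069854_nt.Part06
import Pool.Agent.Lib.MP_069854_nt.EQB

namespace MP069854
open Filter Topology Complex Set MeasureTheory Matrix
open scoped ContDiff

section
variable {k : ℕ}
  [∀ N, MeasurableSpace (unitaryGroup (Fin N) ℂ)] [∀ N, BorelSpace (unitaryGroup (Fin N) ℂ)]
  (μ : ∀ N, Measure (unitaryGroup (Fin N) ℂ)) [∀ N, IsProbabilityMeasure (μ N)]
  [∀ N, (μ N).IsHaarMeasure]

lemma gal_W (k : ℕ) (α₀ : ℝ) {𝒲 : ℝ → ℂ}
    (h𝒲 : ∀ α : ℝ, Tendsto (fun N : ℕ => Wk (μ N) k α) atTop (𝓝 (𝒲 α))) :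
    ∫ α : ℝ, G (gal k α₀) (α * I) * 𝒲 α = 2 * Real.pi * 𝒲 α₀ := by
  have h1 := (W_dom μ (gal_TF k α₀) h𝒲).2
  have h2 := (h𝒲 α₀).const_mul (2 * Real.pi : ℂ)
  refine tendsto_nhds_unique h1 (h2.congr fun N => ?_)
  rw [Wk_integral (μ N) (gal_TF k α₀) k, Wk_eq, mul_left_comm, Finset.mul_sum]
  congr 1
  refine Finset.sum_congr rfl fun j hj => ?_
  have hj' : j ≤ k * N := by rw [Finset.mem_range] at hj; omega
  have hg1 : g00 k (2 * j / N) = 1 := by
    apply g00_one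
    · positivity
    · rcases Nat.eq_zero_or_pos N with rfl | hN
      · simp
      · have hN0 : (0:ℝ) < N := by exact_mod_cast hN
        rw [div_le_iff₀ hN0]
        have : (j : ℝ) ≤ k * N := by exact_mod_cast hj'
        linarith
  unfold gal
  rw [hg1]; ring

/-- cut-off around the middle range -/
noncomputable def rhoM (k : ℕ) (ε u : ℝ) : ℝ :=
  Real.smoothTransition (4 / ε * (u - (2 - 3 * ε / 4))) *
    Real.smoothTransition (4 / ε * ((2 * (k:ℝ) - 2 + 3 * ε / 4) - u))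

omit [∀ N, MeasurableSpace (unitaryGroup (Fin N) ℂ)] [∀ N, BorelSpace (unitaryGroup (Fin N) ℂ)] in
lemma rhoM_smooth (k : ℕ) (ε : ℝ) : ContDiff ℝ ∞ fun u => ((rhoM k ε u : ℝ) : ℂ) := by
  have h : ContDiff ℝ ∞ (fun u : ℝ => Real.smoothTransition (4 / ε * (u - (2 - 3 * ε / 4))) *
      Real.smoothTransition (4 / ε * ((2 * (k:ℝ) - 2 + 3 * ε / 4) - u))) := ?_
  · exact Complex.ofRealCLM.contDiff.comp h
  refine ContDiff.mul ?_ ?_
  · exact Real.smoothTransition.contDiff.comp (contDiff_const.mul (contDiff_id.sub contDiff_const))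
  · exact Real.smoothTransition.contDiff.comp (contDiff_const.mul (contDiff_const.sub contDiff_id))

omit [∀ N, MeasurableSpace (unitaryGroup (Fin N) ℂ)] [∀ N, BorelSpace (unitaryGroup (Fin N) ℂ)] in
lemma rhoM_one {ε u : ℝ} (hε : 0 < ε) (h1 : 2 - ε / 2 ≤ u) (h2 : u ≤ 2 * (k:ℝ) - 2 + ε / 2) :
    rhoM k ε u = 1 := by
  unfold rhoM
  have h4 : 0 < 4 / ε := by positivity
  have e : 4 / ε * (ε / 4) = 1 := by field_simp
  rw [Real.smoothTransition.one_of_one_le, Real.smoothTransition.one_of_one_le, one_mul]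
  · rw [← e]; apply mul_le_mul_of_nonneg_left _ h4.le; linarith
  · rw [← e]; apply mul_le_mul_of_nonneg_left _ h4.le; linarith

omit [∀ N, MeasurableSpace (unitaryGroup (Fin N) ℂ)] [∀ N, BorelSpace (unitaryGroup (Fin N) ℂ)] in
lemma rhoM_ne {ε u : ℝ} (hε : 0 < ε) (h : rhoM k ε u ≠ 0) :
    2 - 3 * ε / 4 ≤ u ∧ u ≤ 2 * (k:ℝ) - 2 + 3 * ε / 4 := by
  unfold rhoM at h
  have h4 : 0 < 4 / ε := by positivity
  constructor
  · by_contra hcon
    exact left_ne_zero_of_mul h (Real.smoothTransition.zero_of_nonpos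
      (mul_nonpos_of_nonneg_of_nonpos h4.le (by linarith)))
  · by_contra hcon
    exact right_ne_zero_of_mul h (Real.smoothTransition.zero_of_nonpos
      (mul_nonpos_of_nonneg_of_nonpos h4.le (by linarith)))

/-- **Pointwise equals averaged.** -/
theorem pointwise_iff (hk : 1 ≤ k) {ε : ℝ} (hε : 0 < ε) {𝒲 : ℝ → ℂ}
    (h𝒲 : ∀ α : ℝ, Tendsto (fun N : ℕ => Wk (μ N) k α) atTop (𝓝 (𝒲 α))) :
    (∀ α : ℝ, Tendsto (fun T : ℝ => Qk k α T) atTop (𝓝 (arith k * 𝒲 α))) ↔
    (∀ g : ℝ → ℂ, ContDiff ℝ ∞ g → HasCompactSupport g →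
      (∀ u ∈ tsupport g, 2 - ε < u ∧ u < 2 * (k : ℝ) - 2 + ε) →
      Tendsto (fun T : ℝ => ∫ α : ℝ, G g (α * I) * Qk k α T) atTop
          (𝓝 (arith k * ∫ α : ℝ, G g (α * I) * 𝒲 α))) := by
  constructor
  · intro h g hg hc _
    have hJ : Tendsto (Jn k) atTop (𝓝 (arith k * (𝒲 0).re)) := by
      have h1 := (Complex.continuous_re.tendsto _).comp (h 0)
      rw [Complex.re_ofReal_mul] at h1
      refine h1.congr fun T => ?_
      simp only [Function.comp]
      rw [Qk_zero, ofReal_re]; rfl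
    obtain ⟨R, t⟩ := TF_of_hcs hg hc
    have hb : ∀ᶠ T : ℝ in atTop, Jn k T ≤ arith k * (𝒲 0).re + 1 := by
      filter_upwards [hJ.eventually (gt_mem_nhds (show arith k * (𝒲 0).re <
        arith k * (𝒲 0).re + 1 by linarith))] with T hT
      exact hT.le
    have h1 := point_imp hb t h
    have e : ∫ β : ℝ, G g (β * I) * (arith k * 𝒲 β) = arith k * ∫ α : ℝ, G g (α * I) * 𝒲 α := by
      rw [← integral_const_mul]
      refine integral_congr_ae (Eventually.of_forall fun β => ?_)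
      simp only; ring
    rwa [e] at h1
  · intro h α₀
    have tf := gal_TF k α₀
    set g₁ : ℝ → ℂ := fun u => (rhoM k ε u : ℂ) * gal k α₀ u with hg1
    set g₂ : ℝ → ℂ := fun u => (1 - (rhoM k ε u : ℂ)) * gal k α₀ u with hg2
    have t1 : TF g₁ (-1) (2 * k + 1) := by
      refine ⟨(rhoM_smooth k ε).mul tf.smooth, ?_⟩
      refine (closure_minimal ?_ (isClosed_tsupport (gal k α₀))).trans tf.supp
      intro u hu
      exact subset_tsupport _ (right_ne_zero_of_mul (show (rhoM k ε u : ℂ) * gal k α₀ u ≠ 0 from hu))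
    have t2 : TF g₂ (-1) (2 * k + 1) := by
      refine ⟨(contDiff_const.sub (rhoM_smooth k ε)).mul tf.smooth, ?_⟩
      refine (closure_minimal ?_ (isClosed_tsupport (gal k α₀))).trans tf.supp
      intro u hu
      exact subset_tsupport _ (right_ne_zero_of_mul
        (show (1 - (rhoM k ε u : ℂ)) * gal k α₀ u ≠ 0 from hu))
    have s1 : ∀ u ∈ tsupport g₁, 2 - ε < u ∧ u < 2 * (k:ℝ) - 2 + ε := by
      intro u hu
      have h1 : tsupport g₁ ⊆ Icc (2 - 3 * ε / 4) (2 * (k:ℝ) - 2 + 3 * ε / 4) := by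
        refine closure_minimal ?_ isClosed_Icc
        intro v hv
        have h2 : (rhoM k ε v : ℂ) ≠ 0 :=
          left_ne_zero_of_mul (show (rhoM k ε v : ℂ) * gal k α₀ v ≠ 0 from hv)
        exact rhoM_ne hε (by exact_mod_cast h2)
      have h3 := h1 hu
      constructor
      · linarith [h3.1]
      · linarith [h3.2]
    have s2 : ∀ u ∈ tsupport g₂, u < 2 ∨ 2 * (k:ℝ) - 2 < u := by
      intro u hu
      by_contra hcon
      rw [not_or, not_lt, not_lt] at hcon
      have hz : g₂ =ᶠ[𝓝 u] 0 := by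
        filter_upwards [(lt_mem_nhds (show 2 - ε / 2 < u by linarith)),
          (gt_mem_nhds (show u < 2 * (k:ℝ) - 2 + ε / 2 by linarith))] with v h1 h2
        simp only [hg2, Pi.zero_apply]
        rw [rhoM_one hε h1.le h2.le]; simp
      exact notMem_tsupport_iff_eventuallyEq.2 hz hu
    have hsum : ∀ w, G (gal k α₀) w = G g₁ w + G g₂ w := G_add t1 t2 (fun u => by
      simp only [hg1, hg2]; ring)
    obtain ⟨ℓ, -, -, h3, -, h5⟩ := main hk t2.smooth t2.hcs s2 μ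
    obtain ⟨-, h6⟩ := h5 𝒲 h𝒲
    have h7 := h g₁ t1.smooth t1.hcs s1
    have i1 := (W_dom μ t1 h𝒲).1
    have i2 := (W_dom μ t2 h𝒲).1
    have hW : ∫ α : ℝ, G (gal k α₀) (α * I) * 𝒲 α = (∫ α : ℝ, G g₁ (α * I) * 𝒲 α) + ℓ := by
      rw [← h6, ← integral_add i1 i2]
      refine integral_congr_ae (Eventually.of_forall fun β => ?_)
      simp only [hsum]; ring
    have hQ : Tendsto (fun T : ℝ => ∫ α : ℝ, G (gal k α₀) (α * I) * Qk k α T) atTop
        (𝓝 (arith k * (2 * Real.pi * 𝒲 α₀))) := by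
      rw [← gal_W μ k α₀ h𝒲, hW, mul_add]
      refine (h7.add h3).congr' ?_
      filter_upwards [eventually_gt_atTop (1:ℝ)] with T hT
      rw [← integral_add (Qk_integrable (k := k) t1 hT) (Qk_integrable (k := k) t2 hT)]
      refine integral_congr_ae (Eventually.of_forall fun β => ?_)
      simp only [hsum]; ring
    obtain ⟨M, e, he, hU⟩ := unif_rep k
    have h0 : Tendsto (fun T : ℝ => 2 * Real.pi * Qk k α₀ T -
        ∫ α : ℝ, G (gal k α₀) (α * I) * Qk k α T) atTop (𝓝 0) := by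
      have h8 : Tendsto (fun T => (1 + |α₀|) ^ M * e T) atTop (𝓝 0) := by
        simpa using he.const_mul ((1 + |α₀|) ^ M)
      refine squeeze_zero_norm' ?_ h8
      filter_upwards [hU] with T hT
      exact hT α₀
    have h9 := (h0.add hQ).const_mul (2 * Real.pi : ℂ)⁻¹
    rw [zero_add] at h9
    have e1 : (2 * Real.pi : ℂ)⁻¹ * (arith k * (2 * Real.pi * 𝒲 α₀)) = arith k * 𝒲 α₀ := by
      field_simp
    rw [e1] at h9
    refine h9.congr fun T => ?_
    rw [sub_add_cancel, inv_mul_cancel_left₀ twopi_ne]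

end
end MP069854
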